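import Pool.Agent.Y885.WI2
import Pool.Agent.Y885.LW

set_option autoImplicit false

/-! Goldbach pairs in windows: sums of independent random integers, and integers minus few elements of a set. -/

namespace Pool.Agent.Y885
open Finset
open Pool.Agent.H807R2.Dav
open Pool.Agent.H373R2.T7
open Pool.Agent.W93.DG
open Pool.Agent.W93.PG

open Classical in
/-- sums of independent random integers, one at every scale: the numbers of Goldbach pairs in windows -/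
theorem rs_windows (b : ℕ) (hb : 2 ≤ b) (B D A U m₀ : ℕ) (hB : 1 ≤ B) (η δ ε : ℝ) (hη : 0 < η) (hδ : 0 < δ) (hε : 0 < ε)
    (P : ℕ → Prop) (hP : ∀ m : ℕ, m₀ ≤ m → 2 ∣ m → WinP ε A m → P m) :
    ∃ k₀ : ℕ, ∀ k : ℕ, k₀ ≤ k → ∀ (J : Finset ℕ) (s : ℕ → Finset ℤ) (p : ℕ → ℤ → ℝ) (C : ℤ),
    Rich δ D k J →
    (∀ j < k, (∀ x ∈ s j, 0 ≤ p j x ∧ |x| ≤ (B : ℤ) * (b : ℤ) ^ j) ∧ ∑ x ∈ s j, p j x = 1) →
    (∀ j ∈ J, ∀ y : ℤ, ∑ x ∈ s j, (if y ≤ x ∧ (B : ℤ) * (x - y) ≤ (b : ℤ) ^ j then p j x else 0) ≤ 1 - η) →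
    |C| ≤ (B : ℤ) * (b : ℤ) ^ k → ∀ bad : (Fin k → ℤ) → Prop, ∀ _hdec : DecidablePred bad,
    (∀ ω ∈ Fintype.piFinset (fun j : Fin k => s j), bad ω → 0 < C + ∑ j : Fin k, ω j ∧ 2 ∣ C + ∑ j : Fin k, ω j ∧
      ¬ P (C + ∑ j : Fin k, ω j).toNat) →
    ∑ ω ∈ Fintype.piFinset (fun j : Fin k => s j), (if bad ω then ∏ j : Fin k, p j (ω j) else 0) ≤ 1 / (k : ℝ) ^ U := by
  obtain ⟨E, hE, hlaw⟩ := rand_law b hb B D hB η δ hη hδ
  obtain ⟨c₁, k₁, h1⟩ := hlaw (2 * B + 2) (U + 3)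
  obtain ⟨V, hV⟩ := tl_windows b hb E c₁ A U m₀ hE ε hε P hP
  obtain ⟨c₂, k₂, h2⟩ := hlaw (2 * B + 2) V
  obtain ⟨k₃, h3⟩ := hV c₂
  refine ⟨k₁ + k₂ + k₃ + 1, fun k hk J s p C hR hps hspread hC bad hdec hbad => ?_⟩
  have hk0 : (0 : ℝ) < k := by exact_mod_cast (by omega : 0 < k)
  have g1 := h1 k (by omega) J s p C hR hps hspread
  have g2 := h2 k (by omega) J s p C hR hps hspread
  have hY := rand_le b B k hb s C (fun j hj x hx => ((hps j hj).1 x hx).2) hC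
  have g3 := h3 (k + 2 * B) (by omega) _ _ _ _ g1 g2 hY bad hdec hbad
  refine g3.trans ?_
  apply one_div_le_one_div_of_le (by positivity)
  apply pow_le_pow_left₀ hk0.le
  exact_mod_cast (by omega : k ≤ k + 2 * B)

/-- integers minus few elements of a set: the numbers of Goldbach pairs in windows -/
theorem las_windows (l : ℕ) (hl : 2 ≤ l) (A : ℕ) : ∃ C : ℝ, ∀ (H m₀ : ℕ) (ε : ℝ), 0 < ε → ∀ (P : ℕ → Prop),
    (∀ m : ℕ, m₀ ≤ m → 2 ∣ m → WinP ε A m → P m) → ∃ N₀ : ℕ, ∀ T : Set ℕ,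
    (∀ x : ℕ, 1 ≤ x → ∃ a ∈ T, x ≤ a ∧ a ≤ l * x) → ∀ N : ℕ, N₀ ≤ N → Even N →
    ∃ S : Finset ℕ, (∀ a ∈ S, a ∈ T ∧ Real.log N ^ H ≤ a ∧ (a : ℝ) ≤ N / Real.log N ^ H) ∧
      (S.card : ℝ) ≤ C * Real.log (Real.log N) ^ 2 ∧ ∃ m : ℕ, m + ∑ a ∈ S, a = N ∧ P m := by
  classical
  obtain ⟨C, hC⟩ := las_gen l hl (2 * (3 + 2 * (A + 1 + 4) + 9) + 6)
  refine ⟨C, fun H m₀ ε hε P hP => ?_⟩
  obtain ⟨c, N₀, h0⟩ := hC H 2
  have hb : 2 ≤ 4 * l := by omega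
  obtain ⟨K₀, h1⟩ := tl_win0 (4 * l) hb 20 c A 1 3 m₀ (by norm_num) ε hε P hP
  refine ⟨N₀ + (4 * l) ^ (K₀ + 4 * (4 * l) + 4), fun T hT N hN hev => ?_⟩
  obtain ⟨b, hbl⟩ : ∃ b, b = 4 * l := ⟨_, rfl⟩
  rw [← hbl] at h0 h1 hN hb
  have hbn : 0 < b := by omega
  obtain ⟨K, hK⟩ : ∃ K, K = Nat.log b N + 1 := ⟨_, rfl⟩
  have hN0 : 0 < N := by
    have : 0 < b ^ (K₀ + 4 * b + 4) := Nat.pow_pos hbn
    omega
  have hKK : K₀ + 4 * b + 4 ≤ K := by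
    have : K₀ + 4 * b + 4 ≤ Nat.log b N := Nat.le_log_of_pow_le (by omega) (by omega)
    omega
  have hKlow : b ^ (K - 1) ≤ N := by
    rw [hK, Nat.add_sub_cancel]
    exact Nat.pow_log_le_self b (by omega)
  have hKup : N < b ^ K := by rw [hK]; exact Nat.lt_pow_succ_log_self (by omega) _
  have g := h0 T hT N (by omega) (fun Y => 0 < Y ∧ P Y.toNat) (by
    intro ι Ω p Y hlaw hY bad hdec hbad
    rw [← hK] at hlaw ⊢
    have g1 := h1 K (by omega) ι Ω p Y hlaw (by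
      intro ω hω
      obtain ⟨y1, y2⟩ := hY ω hω
      have e1 : (N : ℤ) < (b : ℤ) ^ K := by exact_mod_cast hKup
      have e2 : (0 : ℤ) < N := by exact_mod_cast hN0
      rw [abs_le]
      constructor <;> linarith) bad hdec (by
      intro ω hω hB
      obtain ⟨y1, y2⟩ := hY ω hω
      obtain ⟨z1, z2⟩ := hbad ω hω hB
      have e2 : (0 : ℤ) < N := by exact_mod_cast hN0
      have hYpos : 0 < Y ω := by linarith
      refine ⟨hYpos, z1 hev, ?_, fun h => z2 ⟨hYpos, h⟩⟩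
      obtain ⟨hL1, _⟩ := logX b K hb
      have h4 : (2 * b : ℝ) ≤ Real.log ((b ^ K : ℕ) : ℝ) := by
        have : ((4 * b : ℕ) : ℝ) ≤ K := by exact_mod_cast (by omega : 4 * b ≤ K)
        push_cast at this
        linarith
      have hb0 : (0 : ℝ) < b := by exact_mod_cast hbn
      have h5 : ((b ^ K : ℕ) : ℝ) / Real.log ((b ^ K : ℕ) : ℝ) ^ 1 ≤ ((b ^ K : ℕ) : ℝ) / (2 * b) := by
        rw [pow_one]
        exact div_le_div_of_nonneg_left (Nat.cast_nonneg _) (by positivity) h4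
      have h6 : ((b ^ K : ℕ) : ℝ) / (2 * b) = ((b ^ (K - 1) : ℕ) : ℝ) / 2 := by
        have h7 : ((b ^ K : ℕ) : ℝ) = ((b ^ (K - 1) : ℕ) : ℝ) * b := by
          have : b ^ K = b ^ (K - 1) * b := by rw [← pow_succ]; congr 1; omega
          rw [this]
          push_cast
          ring
        rw [h7]
        field_simp
      have h7 : ((b ^ (K - 1) : ℕ) : ℝ) ≤ N := by exact_mod_cast hKlow
      have h8 : (N : ℝ) ≤ 2 * (Y ω : ℝ) := by exact_mod_cast y1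
      rw [h6] at h5
      linarith)
    refine g1.trans ?_
    have hKr : (4 : ℝ) ≤ K := by exact_mod_cast (by omega : 4 ≤ K)
    rw [div_le_div_iff₀ (by positivity) (by positivity)]
    push_cast
    nlinarith [mul_nonneg (sub_nonneg.2 hKr) (sq_nonneg (K : ℝ)), mul_nonneg (sub_nonneg.2 hKr) (by linarith : (0 : ℝ) ≤ K)])
  obtain ⟨S, g1, g2, g3, g4, g5, g6⟩ := g
  refine ⟨S, g1, g2, ((N : ℤ) - ((∑ a ∈ S, a : ℕ) : ℤ)).toNat, ?_, g6⟩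
  have h1 : ((((N : ℤ) - ((∑ a ∈ S, a : ℕ) : ℤ)).toNat : ℕ) : ℤ) = (N : ℤ) - ((∑ a ∈ S, a : ℕ) : ℤ) := Int.toNat_of_nonneg g5.le
  omega

end Pool.Agent.Y885
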