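import Pool.Agent.Y885.RS3

set_option autoImplicit false

/-! Goldbach's conjecture for integers with restricted and prescribed digits. -/

namespace Pool.Agent.Y885
open Finset

lemma dig_sum (b k n : ℕ) : ∑ j : Fin k, (n / b ^ (j : ℕ) % b) * b ^ (j : ℕ) = n % b ^ k := by
  rw [Fin.sum_univ_eq_sum_range (fun j => (n / b ^ j % b) * b ^ j) k]
  induction k with
  | zero => simp [Nat.mod_one]
  | succ k ih =>
    rw [sum_range_succ, ih, Nat.mod_pow_succ]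
    ring

open Classical in
/-- integers with restricted and prescribed digits: Goldbach's conjecture -/
theorem rand_digits (b : ℕ) (hb : 2 ≤ b) (U k : ℕ) (H : ℕ → Prop) (J : Finset ℕ)
    (hrs : ∀ (s : ℕ → Finset ℤ) (p : ℕ → ℤ → ℝ) (c : ℤ),
    (∀ j < k, (∀ x ∈ s j, 0 ≤ p j x ∧ |x| ≤ (b : ℤ) * (b : ℤ) ^ j) ∧ ∑ x ∈ s j, p j x = 1) →
    (∀ j ∈ J, ∀ y : ℤ, ∑ x ∈ s j, (if y ≤ x ∧ (b : ℤ) * (x - y) ≤ (b : ℤ) ^ j then p j x else 0) ≤ 1 - 1 / 2) →
    |c| ≤ (b : ℤ) * (b : ℤ) ^ k →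
    ∑ ω ∈ Fintype.piFinset (fun j : Fin k => s j), (if 0 < c + ∑ j : Fin k, ω j ∧ 2 ∣ c + ∑ j : Fin k, ω j ∧
      ¬ H (c + ∑ j : Fin k, ω j).toNat then ∏ j : Fin k, p j (ω j) else 0) ≤ 1 / (k : ℝ) ^ U)
    (A : ℕ → Finset ℕ) (hA : ∀ j < k, (A j).Nonempty ∧ ∀ a ∈ A j, a < b) (hAJ : ∀ j ∈ J, 2 ≤ (A j).card) :
    (((range (b ^ k)).filter (fun n => (∀ j < k, n / b ^ j % b ∈ A j) ∧ 0 < n ∧ 2 ∣ n ∧ ¬ H n)).card : ℝ) ≤
      (∏ j ∈ range k, ((A j).card : ℝ)) / (k : ℝ) ^ U := by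
  have hb0 : 0 < b := by omega
  obtain ⟨s, hs⟩ : ∃ s : ℕ → Finset ℤ, s = fun j => (A j).image (fun a : ℕ => (a : ℤ) * (b : ℤ) ^ j) := ⟨_, rfl⟩
  obtain ⟨p, hp⟩ : ∃ p : ℕ → ℤ → ℝ, p = fun j _ => 1 / ((A j).card : ℝ) := ⟨_, rfl⟩
  have hbz : ∀ j : ℕ, (0 : ℤ) < (b : ℤ) ^ j := fun j => by positivity
  have hinj : ∀ j : ℕ, Function.Injective (fun a : ℕ => (a : ℤ) * (b : ℤ) ^ j) := by
    intro j x y hxy
    have := mul_right_cancel₀ (hbz j).ne' hxy
    exact_mod_cast this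
  have hA0 : ∀ j < k, (0 : ℝ) < (A j).card := fun j hj => by exact_mod_cast card_pos.2 (hA j hj).1
  have hmain := hrs s p 0 (by
      intro j hj
      constructor
      · intro x hx
        rw [hp]
        refine ⟨by positivity, ?_⟩
        rw [hs] at hx
        obtain ⟨a, ha, rfl⟩ := mem_image.1 hx
        have h1 := (hA j hj).2 a ha
        rw [abs_of_nonneg (by positivity)]
        apply mul_le_mul_of_nonneg_right _ (by positivity)
        exact_mod_cast h1.le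
      · rw [hs, hp]
        simp only
        rw [sum_image (fun x _ y _ h => hinj j h), sum_const, nsmul_eq_mul]
        have := hA0 j hj
        field_simp) (by
      intro j hj y
      have h2 : (2 : ℝ) ≤ (A j).card := by exact_mod_cast hAJ j hj
      rw [hs, hp]
      simp only
      rw [← sum_filter, sum_const, nsmul_eq_mul]
      have h3 : (((A j).image (fun a : ℕ => (a : ℤ) * (b : ℤ) ^ j)).filter (fun x => y ≤ x ∧ (b : ℤ) * (x - y) ≤ (b : ℤ) ^ j)).card ≤ 1 := by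
        rw [card_le_one]
        intro x hx x' hx'
        rw [mem_filter] at hx hx'
        obtain ⟨a, _, rfl⟩ := mem_image.1 hx.1
        obtain ⟨a', _, rfl⟩ := mem_image.1 hx'.1
        have hbj := hbz j
        have h2b : (2 : ℤ) ≤ b := by exact_mod_cast hb
        have key : ∀ u v : ℕ, y ≤ (u : ℤ) * (b : ℤ) ^ j → (b : ℤ) * ((v : ℤ) * (b : ℤ) ^ j - y) ≤ (b : ℤ) ^ j → v ≤ u := by
          intro u v h4 h5
          by_contra hcon
          push Not at hcon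
          have h6 : (u : ℤ) + 1 ≤ v := by exact_mod_cast hcon
          have h7 : ((u : ℤ) + 1) * (b : ℤ) ^ j ≤ v * (b : ℤ) ^ j := mul_le_mul_of_nonneg_right h6 hbj.le
          have h8 : (b : ℤ) ^ j ≤ (v : ℤ) * (b : ℤ) ^ j - y := by linarith
          have h9 : (b : ℤ) * (b : ℤ) ^ j ≤ (b : ℤ) * ((v : ℤ) * (b : ℤ) ^ j - y) := mul_le_mul_of_nonneg_left h8 (by positivity)
          nlinarith
        have h4 := key a a' hx.2.1 hx'.2.2
        have h5 := key a' a hx'.2.1 hx.2.2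
        rw [le_antisymm h4 h5]
      have h4 : ((((A j).image (fun a : ℕ => (a : ℤ) * (b : ℤ) ^ j)).filter (fun x => y ≤ x ∧ (b : ℤ) * (x - y) ≤ (b : ℤ) ^ j)).card : ℝ) ≤ 1 := by
        exact_mod_cast h3
      have h5 : 1 / ((A j).card : ℝ) ≤ 1 / 2 := one_div_le_one_div_of_le (by norm_num) h2
      have h6 : 0 ≤ 1 / ((A j).card : ℝ) := by positivity
      nlinarith) (by rw [abs_zero]; positivity)
  -- from the integers to the digits
  obtain ⟨Q, hQ⟩ : ∃ Q, Q = (range (b ^ k)).filter (fun n => (∀ j < k, n / b ^ j % b ∈ A j) ∧ 0 < n ∧ 2 ∣ n ∧ ¬ H n) := ⟨_, rfl⟩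
  rw [← hQ]
  obtain ⟨φ, hφ⟩ : ∃ φ : ℕ → (Fin k → ℤ), φ = fun (n : ℕ) (j : Fin k) => ((n / b ^ (j : ℕ) % b : ℕ) : ℤ) * (b : ℤ) ^ (j : ℕ) := ⟨_, rfl⟩
  have hφs : ∀ n < b ^ k, ∑ j : Fin k, φ n j = (n : ℤ) := by
    intro n hn
    have h1 := dig_sum b k n
    rw [Nat.mod_eq_of_lt hn] at h1
    rw [hφ]
    simp only
    exact_mod_cast h1
  have hpr : ∀ ω : Fin k → ℤ, ∏ j : Fin k, p j (ω j) = 1 / ∏ j ∈ range k, ((A j).card : ℝ) := by
    intro ω
    rw [hp]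
    simp only
    rw [Fin.prod_univ_eq_prod_range (fun j => 1 / ((A j).card : ℝ)) k]
    simp only [one_div, prod_inv_distrib]
  have hP0 : 0 < ∏ j ∈ range k, ((A j).card : ℝ) := prod_pos fun j hj => hA0 j (mem_range.1 hj)
  have h1 : (Q.card : ℝ) * (1 / ∏ j ∈ range k, ((A j).card : ℝ)) ≤ 1 / (k : ℝ) ^ U := by
    refine le_trans ?_ hmain
    rw [← nsmul_eq_mul, ← sum_const]
    have h2 : ∑ n ∈ Q, (1 / ∏ j ∈ range k, ((A j).card : ℝ)) = ∑ ω ∈ Q.image φ, (if 0 < 0 + ∑ j : Fin k, ω j ∧ 2 ∣ 0 + ∑ j : Fin k, ω j ∧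
        ¬ H (0 + ∑ j : Fin k, ω j).toNat then ∏ j : Fin k, p j (ω j) else 0) := by
      rw [sum_image]
      · apply sum_congr rfl
        intro n hn
        rw [hQ, mem_filter, mem_range] at hn
        rw [zero_add, hφs n hn.1, Int.toNat_natCast, if_pos, hpr]
        exact ⟨by exact_mod_cast hn.2.2.1, by exact_mod_cast hn.2.2.2.1, hn.2.2.2.2⟩
      · intro n hn n' hn' heq
        rw [mem_coe, hQ, mem_filter, mem_range] at hn hn'
        have h3 := hφs n hn.1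
        rw [heq, hφs n' hn'.1] at h3
        exact_mod_cast h3.symm
    rw [h2]
    apply sum_le_sum_of_subset_of_nonneg
    · intro ω hω
      obtain ⟨n, hn, rfl⟩ := mem_image.1 hω
      rw [hQ, mem_filter, mem_range] at hn
      rw [Fintype.mem_piFinset]
      intro j
      rw [hs, hφ]
      exact mem_image.2 ⟨n / b ^ (j : ℕ) % b, hn.2.1 j j.2, rfl⟩
    · intro ω _ _
      split_ifs
      · rw [hpr]; positivity
      · exact le_rfl
  rw [mul_one_div, div_le_iff₀ hP0] at h1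
  rw [div_eq_mul_one_div, mul_comm]
  exact h1

end Pool.Agent.Y885
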