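import Pool.Agent.Y885.WI3
import Pool.Agent.Y885.RS4

set_option autoImplicit false

/-! Goldbach pairs in windows: random sums and digits together. -/

namespace Pool.Agent.Y885
open Finset
open Pool.Agent.W93.PG

open Classical in
/-- windows: random sums and restricted digits -/
theorem rs_both (b B D A U m₀ : ℕ) (hb : 2 ≤ b) (hB : 1 ≤ B) (η δ ε : ℝ) (hη : 0 < η) (hδ : 0 < δ) (hε : 0 < ε)
    (P : ℕ → Prop) (hP : ∀ m : ℕ, m₀ ≤ m → 2 ∣ m → WinP ε A m → P m) :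
    ∃ k₀ : ℕ, ∀ k : ℕ, k₀ ≤ k → ∀ (J : Finset ℕ), Rich δ D k J →
    (∀ (s : ℕ → Finset ℤ) (p : ℕ → ℤ → ℝ),
      (∀ j < k, (∀ x ∈ s j, 0 ≤ p j x ∧ |x| ≤ (B : ℤ) * (b : ℤ) ^ j) ∧ ∑ x ∈ s j, p j x = 1) →
      (∀ j ∈ J, ∀ y : ℤ, ∑ x ∈ (s j).filter (fun x => y ≤ x ∧ (B : ℤ) * (x - y) ≤ (b : ℤ) ^ j), p j x ≤ 1 - η) →
      ∀ c : ℤ, |c| ≤ (B : ℤ) * (b : ℤ) ^ k →
      ∑ ω ∈ Fintype.piFinset (fun j : Fin k => s j), (if 0 < c + ∑ j : Fin k, ω j ∧ Even (c + ∑ j : Fin k, ω j) ∧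
        ¬ P (c + ∑ j : Fin k, ω j).toNat then ∏ j : Fin k, p j (ω j) else 0) ≤ 1 / (k : ℝ) ^ U) ∧
    (∀ A : ℕ → Finset ℕ, (∀ j < k, (A j).Nonempty ∧ ∀ a ∈ A j, a < b) → (∀ j ∈ J, 2 ≤ (A j).card) →
      (((range (b ^ k)).filter (fun n => (∀ j < k, n / b ^ j % b ∈ A j) ∧ 0 < n ∧ Even n ∧ ¬ P n)).card : ℝ) ≤
        (∏ j ∈ range k, ((A j).card : ℝ)) / (k : ℝ) ^ U) := by
  obtain ⟨k₁, h1⟩ := rs_windows b hb B D A U m₀ hB η δ ε hη hδ hε P hP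
  obtain ⟨k₂, h2⟩ := rs_windows b hb b D A U m₀ (by omega) (1 / 2) δ ε (by norm_num) hδ hε P hP
  refine ⟨k₁ + k₂, fun k hk J hJ => ⟨fun s p hs hp c hc => ?_, fun A hA hAJ => ?_⟩⟩
  · exact h1 k (by omega) J s p c hJ hs (fun j hj y => by rw [← sum_filter]; exact hp j hj y) hc _ _
      (fun ω _ h => ⟨h.1, even_iff_two_dvd.1 h.2.1, h.2.2⟩)
  · have h3 := rand_digits b hb U k P J
      (fun s p c hs hp hc => h2 k (by omega) J s p c hJ hs hp hc _ _ (fun ω _ h => h)) A hA hAJ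
    simp only [even_iff_two_dvd]
    exact h3

end Pool.Agent.Y885
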