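import Pool.Agent.Y885.LF4

set_option autoImplicit false

/-! Linear forms: the deterministic part. -/

namespace Pool.Agent.Y885
open Finset
open Pool.Agent.H373R2.T7

/-- the Hardy-Littlewood (Bateman-Horn) asymptotics for the linear forms `r_j q + a_j`, `x ≤ q < 2x` -/
def LFs {k : ℕ} (ε : ℝ) (U x : ℕ) (r a : Fin k → ℕ) : Prop :=
  ∃ S : ℝ, Filter.Tendsto (fun z => singG (wN r a) k z) Filter.atTop (nhds S) ∧
    |∑ q ∈ Ico x (2 * x), ∏ j, ArithmeticFunction.vonMangoldt (r j * q + a j) - S * x| ≤ x / Real.log x ^ U ∧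
    ((∀ p : ℕ, p.Prime → wN r a p < p) → 0 < S ∧
      |(cntL r a x : ℝ) - S * (x / Real.log x ^ k)| ≤ ε * (S * (x / Real.log x ^ k)))

lemma count_num (k : ℕ) (P θ M L S x η δ ε : ℝ) (hL : 0 < L) (hM : M ≤ (1 + δ) * L) (hM0 : 0 ≤ M) (hδ : 0 ≤ δ) (hη : 0 ≤ η)
    (hkδ : k * δ ≤ 1) (hη1 : η ≤ 1) (hε : η + k * δ ≤ ε)
    (hP : 0 ≤ P) (h1 : P * L ^ k ≤ θ) (h2 : θ ≤ P * M ^ k) (hS : 0 < S) (hx : 0 < x) (hθ : |θ - S * x| ≤ η * (S * x)) :
    |P - S * (x / L ^ k)| ≤ ε * (S * (x / L ^ k)) := by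
  have hLk : 0 < L ^ k := by positivity
  obtain ⟨m, hm⟩ : ∃ m, m = S * (x / L ^ k) := ⟨_, rfl⟩
  have hm0 : 0 < m := by rw [hm]; positivity
  have hmL : m * L ^ k = S * x := by rw [hm]; field_simp
  rw [← hm]
  rw [← hmL] at hθ
  have hθ' := abs_le.1 hθ
  rw [abs_le]
  have hkδ0 : 0 ≤ k * δ := by positivity
  constructor
  · -- lower bound
    have e1 : (1 + δ) ^ k ≤ Real.exp (k * δ) := by
      rw [Real.exp_nat_mul]
      apply pow_le_pow_left₀ (by linarith)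
      have := Real.add_one_le_exp δ
      linarith
    have e2 : 1 - k * δ ≤ Real.exp (-(k * δ)) := by
      have := Real.add_one_le_exp (-(k * δ))
      linarith
    have e3 : (1 + δ) ^ k * (1 - k * δ) ≤ 1 := by
      calc (1 + δ) ^ k * (1 - k * δ) ≤ Real.exp (k * δ) * Real.exp (-(k * δ)) := mul_le_mul e1 e2 (by linarith) (Real.exp_pos _).le
        _ = 1 := by rw [← Real.exp_add]; simp
    have e4 : (1 - η) * (m * L ^ k) ≤ P * ((1 + δ) ^ k * L ^ k) := by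
      calc (1 - η) * (m * L ^ k) ≤ θ := by linarith
        _ ≤ P * M ^ k := h2
        _ ≤ P * ((1 + δ) * L) ^ k := mul_le_mul_of_nonneg_left (pow_le_pow_left₀ hM0 hM _) hP
        _ = _ := by rw [mul_pow]
    have e5 : (1 - η) * m ≤ P * (1 + δ) ^ k := by
      have e6 : (1 - η) * m * L ^ k ≤ P * (1 + δ) ^ k * L ^ k := by linarith
      exact le_of_mul_le_mul_right e6 hLk
    have e7 : (1 - η) * m * (1 - k * δ) ≤ P := by
      calc (1 - η) * m * (1 - k * δ) ≤ P * (1 + δ) ^ k * (1 - k * δ) := mul_le_mul_of_nonneg_right e5 (by linarith)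
        _ = P * ((1 + δ) ^ k * (1 - k * δ)) := by ring
        _ ≤ P * 1 := mul_le_mul_of_nonneg_left e3 hP
        _ = P := mul_one _
    have e8 : (1 - ε) * m ≤ (1 - η) * m * (1 - k * δ) := by
      have e9 : (1 - ε) ≤ (1 - η) * (1 - k * δ) := by nlinarith
      calc (1 - ε) * m ≤ ((1 - η) * (1 - k * δ)) * m := mul_le_mul_of_nonneg_right e9 hm0.le
        _ = _ := by ring
    linarith
  · have e1 : P * L ^ k ≤ ((1 + η) * m) * L ^ k := by linarith
    have e2 := le_of_mul_le_mul_right e1 hLk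
    have e3 : (1 + η) * m ≤ (1 + ε) * m := mul_le_mul_of_nonneg_right (by linarith) hm0.le
    linarith

/-- the lower bound of the singular series -/
lemma low_wN (k : ℕ) (hk : 1 ≤ k) : ∃ c : ℝ, 0 < c ∧ ∀ r a : Fin k → ℕ, (∀ p : ℕ, p.Prime → wN r a p < p) → ∀ z : ℕ,
    c ≤ singG (wN r a) k z := by
  refine ⟨(1 / (3 * (k : ℝ))) ^ (3 * k) * Real.exp (-(2 * (k : ℝ) ^ 2)), by positivity, fun r a h z => ?_⟩
  apply local_low k hk (wN r a) z
  · intro p hp
    have hpp := (mem_pz.1 hp).2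
    apply wN_lek r a p hpp
    intro j hj
    have := h p hpp
    rw [wN_full r a p hpp j hj.1 hj.2] at this
    exact lt_irrefl _ this
  · intro p hp
    exact h p (mem_pz.1 hp).2

lemma singG_leL {k : ℕ} (r a : Fin k → ℕ) (z : ℕ) (L : ℝ) (hV : (Vz z)⁻¹ ≤ L) : singG (wN r a) k z ≤ L ^ k := by
  have hV0 := (inv_pos.2 (Vz_pos z)).le
  rw [singG_eq]
  have h1 : ∏ p ∈ pz z, (1 - (wN r a p : ℝ) / p) ≤ 1 := by
    apply prod_le_one
    · intro p hp
      have hp0 : (0 : ℝ) < p := by exact_mod_cast (mem_pz.1 hp).2.pos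
      rw [sub_nonneg, div_le_one hp0]
      exact_mod_cast wN_le r a p
    · intro p _
      have : (0 : ℝ) ≤ (wN r a p : ℝ) / p := by positivity
      linarith
  calc ((Vz z)⁻¹) ^ k * ∏ p ∈ pz z, (1 - (wN r a p : ℝ) / p) ≤ ((Vz z)⁻¹) ^ k * 1 := mul_le_mul_of_nonneg_left h1 (by positivity)
    _ = ((Vz z)⁻¹) ^ k := mul_one _
    _ ≤ L ^ k := pow_le_pow_left₀ hV0 hV _

/-- the sizes -/
lemma sizeL (κ B : ℕ) (δ : ℝ) (hδ : 0 < δ) : ∃ x0 : ℕ, ∀ x : ℕ, x0 ≤ x → ∀ T : ℕ, (T : ℝ) ≤ Real.log x ^ (κ + 2) → 1 ≤ T →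
    Real.log ((x * T : ℕ) : ℝ) ≤ (1 + δ) * Real.log x := by
  obtain ⟨n1, h1⟩ := ev_L' (4 * ((κ + 2) / δ) ^ 2 + 1)
  refine ⟨n1 + 1, fun x hx T hT hT1 => ?_⟩
  have hL := h1 x (by omega)
  obtain ⟨L, hLd⟩ : ∃ L, L = Real.log (x : ℝ) := ⟨_, rfl⟩
  rw [← hLd] at hL hT ⊢
  have hL1 : 1 ≤ L := by
    have : 0 ≤ 4 * (((κ : ℝ) + 2) / δ) ^ 2 := by positivity
    linarith
  have hL0 : 0 < L := by linarith
  have hx0 : (0 : ℝ) < x := by exact_mod_cast (by omega : 0 < x)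
  have hT0 : (0 : ℝ) < T := by exact_mod_cast hT1
  push_cast
  rw [Real.log_mul hx0.ne' hT0.ne', ← hLd]
  have e1 : Real.log (T : ℝ) ≤ (κ + 2) * Real.log L := by
    have := Real.log_le_log hT0 hT
    rw [Real.log_pow] at this
    push_cast at this
    exact this
  have e2 : Real.log L ≤ 2 * √L := by
    have e3 : Real.log L = 2 * Real.log (√L) := by
      rw [Real.log_sqrt hL0.le]
      ring
    rw [e3]
    have := Real.log_le_sub_one_of_pos (Real.sqrt_pos.2 hL0)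
    linarith
  have e4 : 2 * (κ + 2) ≤ δ * √L := by
    have e5 : (2 * ((κ + 2) / δ)) ≤ √L := by
      apply Real.le_sqrt_of_sq_le
      have : (2 * (((κ : ℝ) + 2) / δ)) ^ 2 = 4 * ((κ + 2) / δ) ^ 2 := by ring
      rw [this]
      linarith
    calc 2 * ((κ : ℝ) + 2) = δ * (2 * ((κ + 2) / δ)) := by field_simp
      _ ≤ δ * √L := mul_le_mul_of_nonneg_left e5 hδ.le
  have e6 : (κ + 2) * Real.log L ≤ δ * L := by
    calc ((κ : ℝ) + 2) * Real.log L ≤ (κ + 2) * (2 * √L) := mul_le_mul_of_nonneg_left e2 (by positivity)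
      _ = 2 * (κ + 2) * √L := by ring
      _ ≤ (δ * √L) * √L := mul_le_mul_of_nonneg_right e4 (Real.sqrt_nonneg _)
      _ = δ * (√L * √L) := by ring
      _ = δ * L := by rw [Real.mul_self_sqrt hL0.le]
  linarith

set_option maxHeartbeats 1000000 in
/-- the deterministic part -/
theorem detL (k κ B E1 U : ℕ) (hk : 1 ≤ k) (ε : ℝ) (hε : 0 < ε) (hE1 : U + κ + k + 6 ≤ E1) : ∃ x0 : ℕ, ∀ x : ℕ, x0 ≤ x →
    ∀ z : ℕ, Real.log x ^ E1 ≤ z → (z : ℝ) ≤ Real.log x ^ (E1 + κ + 4) →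
    ∀ r a : Fin k → ℕ, (∀ j, 1 ≤ r j ∧ (r j : ℝ) ≤ Real.log x ^ κ) → (∀ j, a j ≤ B * x) →
    (∀ i j, i ≠ j → r i * a j ≠ r j * a i) →
    |∑ q ∈ Ico x (2 * x), (∏ j, lamI ((r j : ℤ) * (q : ℤ) + (a j : ℤ)) - ∏ j, lamzI z ((r j : ℤ) * (q : ℤ) + (a j : ℤ)))| ≤
      x / Real.log x ^ (U + 2) → LFs ε U x r a := by
  classical
  obtain ⟨c, hc, hlow⟩ := low_wN k hk
  obtain ⟨η, hη⟩ : ∃ η : ℝ, η = min ε 1 / 2 := ⟨_, rfl⟩
  obtain ⟨δ, hδ⟩ : ∃ δ : ℝ, δ = min ε 1 / (2 * k) := ⟨_, rfl⟩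
  have hkr : (1 : ℝ) ≤ k := by exact_mod_cast hk
  have hmin0 : 0 < min ε 1 := lt_min hε one_pos
  have hmin1 : min ε 1 ≤ 1 := min_le_right _ _
  have hmin2 : min ε 1 ≤ ε := min_le_left _ _
  have hη0 : 0 < η := by rw [hη]; positivity
  have hδ0 : 0 < δ := by rw [hδ]; positivity
  have hkδ : k * δ = min ε 1 / 2 := by rw [hδ]; field_simp
  obtain ⟨n1, h1⟩ := winL k (E1 + κ + 4) (U + 2) hk
  obtain ⟨n2, h2⟩ := sizeL κ B δ hδ0
  obtain ⟨n3, h3⟩ := sizeL κ B 1 one_pos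
  obtain ⟨n4, h4⟩ := Vz_inv_small (E1 + κ + 4)
  obtain ⟨n5, h5⟩ := ev_log' (k + κ + U + 10) 1
  obtain ⟨n6, h6⟩ := ev_L' (3 + B + k ^ 2 + 16 * k ^ 3 + k * 2 ^ (k + 2) + 3 * k + 5 / (η * c))
  refine ⟨n1 + n2 + n3 + n4 + n5 + n6 + 3, fun x hx z hz1 hz2 r a hr ha hra hD => ?_⟩
  have hL := h6 x (by omega)
  have hs5 := h5 x (by omega)
  obtain ⟨L, hLd⟩ : ∃ L, L = Real.log (x : ℝ) := ⟨_, rfl⟩
  rw [← hLd] at hL hs5
  rw [one_mul] at hs5
  have q1 : (0 : ℝ) ≤ B := Nat.cast_nonneg _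
  have q2 : (0 : ℝ) ≤ 5 / (η * c) := by positivity
  have q3 : (0 : ℝ) ≤ (k : ℝ) * 2 ^ (k + 2) := by positivity
  have q4 : (0 : ℝ) ≤ (k : ℝ) ^ 2 := by positivity
  have q5 : (0 : ℝ) ≤ 16 * (k : ℝ) ^ 3 := by positivity
  have q6 : (0 : ℝ) ≤ 3 * (k : ℝ) := by positivity
  have hL1 : 1 ≤ L := by linarith
  have hL0 : 0 < L := by linarith
  have hx0 : (0 : ℝ) < x := by exact_mod_cast (by omega : 0 < x)
  have hz : 1 ≤ z := by
    have : (1 : ℝ) ≤ z := by
      refine le_trans ?_ hz1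
      rw [← hLd]
      exact one_le_pow₀ hL1
    exact_mod_cast this
  have hV := h4 x (by omega) z hz hz2
  rw [← hLd] at hV
  -- the bound of the values
  obtain ⟨T, hT⟩ : ∃ T : ℕ, T = ⌈L ^ (κ + 1)⌉₊ := ⟨_, rfl⟩
  have hT1 : L ^ (κ + 1) ≤ T := by rw [hT]; exact Nat.le_ceil _
  have hT2 : (T : ℝ) ≤ L ^ (κ + 2) := by
    have e1 : (T : ℝ) < L ^ (κ + 1) + 1 := by rw [hT]; exact Nat.ceil_lt_add_one (by positivity)
    have e2 : 1 ≤ L ^ (κ + 1) := one_le_pow₀ hL1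
    rw [pow_succ L (κ + 1)]
    nlinarith
  have hT3 : 1 ≤ T := by
    have e2 : 1 ≤ L ^ (κ + 1) := one_le_pow₀ hL1
    exact_mod_cast e2.trans hT1
  obtain ⟨X, hX⟩ : ∃ X, X = x * T := ⟨_, rfl⟩
  have hXx : x ≤ X := by rw [hX]; exact Nat.le_mul_of_pos_right _ (by omega)
  have hMδ := h2 x (by omega) T (by rw [← hLd]; exact hT2) hT3
  have hM1 := h3 x (by omega) T (by rw [← hLd]; exact hT2) hT3
  rw [← hX, ← hLd] at hMδ hM1
  have hlogX0 : 0 ≤ Real.log (X : ℝ) := Real.log_natCast_nonneg X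
  have hM2 : Real.log (X : ℝ) ≤ 2 * L := by linarith
  have hLκ : 1 ≤ L ^ κ := one_le_pow₀ hL1
  have hval : ∀ j, r j * (2 * x) + a j ≤ X := by
    intro j
    have e1 : ((r j * (2 * x) + a j : ℕ) : ℝ) ≤ ((x * T : ℕ) : ℝ) := by
      push_cast
      have e2 : (a j : ℝ) ≤ B * x := by exact_mod_cast ha j
      have e3 := (hr j).2
      rw [← hLd] at e3
      have e4 : (2 * L ^ κ + B) ≤ L ^ (κ + 1) := by
        rw [pow_succ]
        nlinarith
      calc (r j : ℝ) * (2 * x) + a j ≤ L ^ κ * (2 * x) + B * x := by gcongr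
        _ = (2 * L ^ κ + B) * x := by ring
        _ ≤ T * x := mul_le_mul_of_nonneg_right (e4.trans hT1) hx0.le
        _ = x * T := mul_comm _ _
    rw [hX]
    exact_mod_cast e1
  have hdet : ∀ i j, r i * a j ≤ X := by
    intro i j
    have e1 : ((r i * a j : ℕ) : ℝ) ≤ ((x * T : ℕ) : ℝ) := by
      push_cast
      have e2 : (a j : ℝ) ≤ B * x := by exact_mod_cast ha j
      have e3 := (hr i).2
      rw [← hLd] at e3
      have e4 : L ^ κ * B ≤ L ^ (κ + 1) := by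
        rw [pow_succ]
        apply mul_le_mul_of_nonneg_left _ (by positivity)
        linarith
      calc (r i : ℝ) * a j ≤ L ^ κ * (B * x) := by gcongr
        _ = (L ^ κ * B) * x := by ring
        _ ≤ T * x := mul_le_mul_of_nonneg_right (e4.trans hT1) hx0.le
        _ = x * T := mul_comm _ _
    rw [hX]
    exact_mod_cast e1
  -- the main term
  have hrz : ∀ j, 1 ≤ r j ∧ r j ≤ z := by
    intro j
    refine ⟨(hr j).1, ?_⟩
    have e1 : (r j : ℝ) ≤ z := by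
      refine (hr j).2.trans (le_trans ?_ hz1)
      rw [← hLd]
      exact pow_le_pow_right₀ hL1 (by omega)
    exact_mod_cast e1
  have g1 := h1 x (by omega) z hz hz2 r a hrz
  rw [← hLd] at g1 hD hz1 hz2
  -- the limit
  obtain ⟨S, hS, hSz⟩ := limitG (nuB_wN r a ⌊L ^ κ⌋₊ (fun j => ⟨(hr j).1, by
    have e3 := (hr j).2
    rw [← hLd] at e3
    exact Nat.le_floor e3⟩) hra) hk
  have hKG : KG k (badL r a) ≤ L ^ 2 := by
    have e1 := card_badL r a X hdet
    have e2 : ((badL r a).card : ℝ) ≤ k * k * (4 * L) := by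
      have e3 : ((badL r a).card : ℝ) ≤ k * k * (Nat.log 2 X : ℝ) := by exact_mod_cast e1
      have e4 := natlog_le X (by omega)
      refine e3.trans ?_
      apply mul_le_mul_of_nonneg_left _ (by positivity)
      linarith
    unfold KG
    have e5 : 4 * (k : ℝ) * (badL r a).card ≤ 16 * (k : ℝ) ^ 3 * L := by
      calc 4 * (k : ℝ) * (badL r a).card ≤ 4 * (k : ℝ) * (k * k * (4 * L)) := by gcongr
        _ = _ := by ring
    have e6 : (k : ℝ) ^ 2 ≤ (k : ℝ) ^ 2 * L := le_mul_of_one_le_right (by positivity) hL1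
    have e7 : ((k : ℝ) ^ 2 + 16 * (k : ℝ) ^ 3) * L ≤ L * L := by
      apply mul_le_mul_of_nonneg_right _ hL0.le
      linarith
    rw [pow_two L]
    linarith
  have hz2' : L ^ 2 ≤ z := (pow_le_pow_right₀ hL1 (by omega)).trans hz1
  have hz0r : (0 : ℝ) < z := by exact_mod_cast (by omega : 0 < z)
  have hLz : L ≤ z := (le_self_pow₀ hL1 (by norm_num)).trans hz2'
  have g2 := hSz z (by
    have : ((3 * k : ℕ) : ℝ) ≤ z := by
      push_cast
      linarith
    exact_mod_cast this) (by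
    apply Nat.floor_le_of_le
    exact (pow_le_pow_right₀ hL1 (by omega)).trans hz1) (hKG.trans hz2')
  have g3 := singG_leL r a z L hV
  have hSz0 : 0 ≤ singG (wN r a) k z := singG_nonneg (nuB_wN r a ⌊L ^ κ⌋₊ (fun j => ⟨(hr j).1, by
    have e3 := (hr j).2
    rw [← hLd] at e3
    exact Nat.le_floor e3⟩) hra) z
  obtain ⟨Tt, hTt⟩ : ∃ Tt, Tt = (x : ℝ) / L ^ (U + 2) := ⟨_, rfl⟩
  have hTt0 : 0 < Tt := by rw [hTt]; positivity
  rw [← hTt] at g1 hD
  have g4 : |S - singG (wN r a) k z| * x ≤ Tt := by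
    have e1 : singG (wN r a) k z * (KG k (badL r a) / z) ≤ L ^ k * (L ^ 2 / L ^ E1) := by
      apply mul_le_mul g3 _ _ (by positivity)
      · apply div_le_div₀ (by positivity) hKG (by positivity) hz1
      · unfold KG
        positivity
    have e2 : L ^ k * (L ^ 2 / L ^ E1) ≤ 1 / L ^ (U + 2) := by
      rw [← mul_div_assoc, ← pow_add, div_le_div_iff₀ (by positivity) (by positivity), one_mul, ← pow_add]
      exact pow_le_pow_right₀ hL1 (by omega)
    calc |S - singG (wN r a) k z| * x ≤ (1 / L ^ (U + 2)) * x := mul_le_mul_of_nonneg_right (g2.trans (e1.trans e2)) hx0.le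
      _ = Tt := by rw [hTt]; ring
  -- the sum of the von Mangoldt functions
  have hnat : ∀ q ∈ Ico x (2 * x), ∏ j, lamI ((r j : ℤ) * (q : ℤ) + (a j : ℤ)) = ∏ j, ArithmeticFunction.vonMangoldt (r j * q + a j) := by
    intro q hq
    rw [mem_Ico] at hq
    apply prod_congr rfl
    intro j _
    have e1 : ((r j : ℤ) * (q : ℤ) + (a j : ℤ)) = ((r j * q + a j : ℕ) : ℤ) := by push_cast; ring
    have e2 : 1 ≤ r j * q + a j := le_trans (Nat.mul_pos (hr j).1 (by omega)) (Nat.le_add_right _ _)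
    unfold lamI
    rw [e1, if_pos (by exact_mod_cast e2), Int.toNat_natCast]
  have hW : |∑ q ∈ Ico x (2 * x), ∏ j, lamI ((r j : ℤ) * (q : ℤ) + (a j : ℤ)) - S * x| ≤ 3 * Tt := by
    have e1 : ∑ q ∈ Ico x (2 * x), ∏ j, lamI ((r j : ℤ) * (q : ℤ) + (a j : ℤ)) - S * x =
        (∑ q ∈ Ico x (2 * x), (∏ j, lamI ((r j : ℤ) * (q : ℤ) + (a j : ℤ)) - ∏ j, lamzI z ((r j : ℤ) * (q : ℤ) + (a j : ℤ)))) +
        (∑ q ∈ Ico x (2 * x), ∏ j, lamzI z ((r j : ℤ) * (q : ℤ) + (a j : ℤ)) - singG (wN r a) k z * x) -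
        (S - singG (wN r a) k z) * x := by
      rw [sum_sub_distrib]
      ring
    rw [e1]
    have e2 : |(S - singG (wN r a) k z) * x| ≤ Tt := by
      rw [abs_mul, abs_of_nonneg hx0.le]
      exact g4
    have t1 := abs_le.1 hD
    have t2 := abs_le.1 g1
    have t3 := abs_le.1 e2
    rw [abs_le]
    constructor <;> linarith [t1.1, t1.2, t2.1, t2.2, t3.1, t3.2]
  have hTtL : L * Tt ≤ x / L := by
    rw [hTt, le_div_iff₀ hL0]
    calc L * (x / L ^ (U + 2)) * L = x / L ^ U := by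
          rw [pow_add L U 2]
          field_simp
      _ ≤ x := div_le_self hx0.le (one_le_pow₀ hL1)
  refine ⟨S, hS, ?_, fun hadm => ?_⟩
  · rw [← sum_congr rfl hnat, ← hLd]
    refine hW.trans ?_
    have e1 : L ^ 2 * Tt = x / L ^ U := by
      rw [hTt, pow_add L U 2]
      field_simp
    rw [← e1]
    apply mul_le_mul_of_nonneg_right _ hTt0.le
    nlinarith
  · have hcS : c ≤ S := ge_of_tendsto' hS (hlow r a hadm)
    have hS0 : 0 < S := lt_of_lt_of_le hc hcS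
    refine ⟨hS0, ?_⟩
    rw [← hLd]
    -- the prime powers
    have g5 := thL_diff r a x X (fun j => (hr j).1) (by omega) hval
    have g6 : (k : ℝ) * (Real.log X ^ k * (2 * √(X : ℝ) * Real.log X)) ≤ Tt := by
      have hss : √(x : ℝ) * √(x : ℝ) = x := Real.mul_self_sqrt hx0.le
      have hs0 : 0 < √(x : ℝ) := Real.sqrt_pos.2 hx0
      have e1 : √(X : ℝ) ≤ √(x : ℝ) * L ^ (κ + 2) := by
        rw [hX]
        push_cast
        rw [Real.sqrt_mul hx0.le]
        apply mul_le_mul_of_nonneg_left _ hs0.le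
        rw [Real.sqrt_le_left (by positivity)]
        have e2 : 1 ≤ L ^ (κ + 2) := one_le_pow₀ hL1
        nlinarith
      have e3 : (k : ℝ) * (Real.log X ^ k * (2 * √(X : ℝ) * Real.log X)) ≤ (k : ℝ) * ((2 * L) ^ k * (2 * (√(x : ℝ) * L ^ (κ + 2)) * (2 * L))) := by
        gcongr
      refine e3.trans ?_
      have e4 : (k : ℝ) * ((2 * L) ^ k * (2 * (√(x : ℝ) * L ^ (κ + 2)) * (2 * L))) = ((k : ℝ) * 2 ^ (k + 2)) * (√(x : ℝ) * L ^ (k + κ + 3)) := by
        have e5 : L ^ (k + κ + 3) = L ^ k * L ^ (κ + 2) * L := by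
          rw [← pow_add, ← pow_succ]
          rfl
        rw [mul_pow, e5]
        ring
      rw [e4, hTt, le_div_iff₀ (by positivity)]
      calc (k : ℝ) * 2 ^ (k + 2) * (√(x : ℝ) * L ^ (k + κ + 3)) * L ^ (U + 2)
          ≤ L * (√(x : ℝ) * L ^ (k + κ + 3)) * L ^ (U + 2) := by
            gcongr
            linarith
        _ = √(x : ℝ) * L ^ (k + κ + U + 6) := by
            rw [show k + κ + U + 6 = 1 + (k + κ + 3) + (U + 2) by ring, pow_add L (1 + (k + κ + 3)), pow_add L 1, pow_one]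
            ring
        _ ≤ √(x : ℝ) * √(x : ℝ) := by
            apply mul_le_mul_of_nonneg_left _ hs0.le
            exact (pow_le_pow_right₀ hL1 (by omega)).trans hs5
        _ = x := hss
    have g7 : |thL r a x - S * x| ≤ 4 * Tt := by
      have t1 := abs_le.1 (g5.trans g6)
      have t2 := abs_le.1 hW
      rw [abs_le]
      constructor <;> linarith [t1.1, t1.2, t2.1, t2.2]
    have g8 : 4 * Tt ≤ η * (S * x) := by
      have e1 : Tt ≤ x / L := by
        have : 1 * Tt ≤ L * Tt := mul_le_mul_of_nonneg_right hL1 hTt0.le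
        linarith
      have e2 : 5 / (η * c) ≤ L := by linarith
      rw [div_le_iff₀ (by positivity)] at e2
      have e3 : 4 * (x / L) ≤ η * (S * x) := by
        rw [mul_div_assoc', div_le_iff₀ hL0]
        have e4 : η * c ≤ η * S := mul_le_mul_of_nonneg_left hcS hη0.le
        have e5 : L * (η * c) ≤ L * (η * S) := mul_le_mul_of_nonneg_left e4 hL0.le
        calc 4 * (x : ℝ) ≤ (L * (η * S)) * x := mul_le_mul_of_nonneg_right (by linarith) hx0.le
          _ = _ := by ring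
      linarith
    obtain ⟨b1, b2⟩ := thL_bounds r a x X (fun j => (hr j).1) (by omega) hval
    rw [← hLd] at b1
    exact count_num k (cntL r a x) (thL r a x) (Real.log X) L S x η δ ε hL0 hMδ hlogX0 hδ0.le hη0.le (by rw [hkδ]; linarith)
      (by rw [hη]; linarith) (by rw [hkδ, hη]; linarith) (Nat.cast_nonneg _) b1 b2 hS0 hx0 (g7.trans g8)

end Pool.Agent.Y885
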