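import Pool.Agent.Y885.WP3
import Pool.Agent.Y885.LF5

set_option autoImplicit false

/-! Windows whose points are shifted independently: from the variance to the numbers of primes. -/

namespace Pool.Agent.Y885
open Finset
open Pool.Agent.H373R2.T7

lemma sum_inv_sq' (m s : ℕ) (hm : 1 ≤ m) : ∑ H ∈ Icc m s, 1 / (H : ℝ) ^ 2 ≤ 2 / (m : ℝ) := by
  rcases Nat.lt_or_ge s m with h | h
  · rw [Icc_eq_empty (by omega), sum_empty]
    positivity
  have hm0 : (0 : ℝ) < m := by exact_mod_cast hm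
  have h1 : Icc m s = insert m (Ioc m s) := by
    ext x
    rw [mem_insert, mem_Icc, mem_Ioc]
    omega
  rw [h1, sum_insert (by rw [mem_Ioc]; omega)]
  have h2 := tail_sq m s (by omega) h
  have h3 : 1 / (m : ℝ) ^ 2 ≤ 1 / m := by
    apply one_div_le_one_div_of_le hm0
    have : (1 : ℝ) ≤ m := by exact_mod_cast hm
    nlinarith
  have h4 : (0 : ℝ) ≤ 1 / (s : ℝ) := by positivity
  have h5 : (2 : ℝ) / m = 1 / m + 1 / m := by ring
  linarith

/-- a real sequence of partial sums which is monotone controls the counts -/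
lemma dev_sum (s y Y₀ : ℕ) (L ε : ℝ) (P W : ℕ → ℝ) (hε : 0 < ε) (hε1 : ε ≤ 1) (hL : 0 < L) (hY : 1 ≤ Y₀) (hy : Y₀ ≤ y) (hys : 2 * y ≤ s)
    (hP0 : ∀ H, 0 ≤ P H) (hmono : ∀ H H' : ℕ, H ≤ H' → P H ≤ P H')
    (h1 : ∀ H, H ≤ s → (1 - ε / 8) * L * P H ≤ W H) (h2 : ∀ H, H ≤ s → W H ≤ (1 + ε / 8) * L * P H)
    (hdev : ε * (y / L) < |P y - y / L|) :
    ε ^ 3 / 256 ≤ ∑ H ∈ Icc ((Y₀ + 1) / 2) s, 1 / (H : ℝ) ^ 3 * (W H - H) ^ 2 := by
  classical
  have hy1 : 1 ≤ y := by omega
  have hy0 : (0 : ℝ) < y := by exact_mod_cast hy1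
  obtain ⟨m, hm⟩ : ∃ m : ℕ, m = ⌊ε / 8 * y⌋₊ := ⟨_, rfl⟩
  have hm1 : (m : ℝ) ≤ ε / 8 * y := by rw [hm]; exact Nat.floor_le (by positivity)
  have hm2 : ε / 8 * y < m + 1 := by rw [hm]; exact Nat.lt_floor_add_one _
  have hm3 : 8 * m ≤ y := by
    have : (8 : ℝ) * m ≤ y := by nlinarith
    exact_mod_cast this
  have key : ∀ I : Finset ℕ, I ⊆ Icc ((Y₀ + 1) / 2) s → I.card = m + 1 → (∀ H ∈ I, H ≤ 2 * y ∧ 1 ≤ H ∧ ε / 4 * H ≤ |W H - H|) →
      ε ^ 3 / 256 ≤ ∑ H ∈ Icc ((Y₀ + 1) / 2) s, 1 / (H : ℝ) ^ 3 * (W H - H) ^ 2 := by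
    intro I hI hc hH
    have e1 : ∀ H ∈ I, ε ^ 2 / 32 / y ≤ 1 / (H : ℝ) ^ 3 * (W H - H) ^ 2 := by
      intro H hHI
      obtain ⟨a1, a2, a3⟩ := hH H hHI
      have b1 : (0 : ℝ) < H := by exact_mod_cast a2
      have b2 : (H : ℝ) ≤ 2 * y := by exact_mod_cast a1
      have b3 : (ε / 4 * H) ^ 2 ≤ (W H - H) ^ 2 := by
        rw [← sq_abs (W H - H)]
        exact pow_le_pow_left₀ (by positivity) a3 2
      calc ε ^ 2 / 32 / y ≤ ε ^ 2 / 16 / H := by
            rw [div_div, div_div, div_le_div_iff₀ (by positivity) (by positivity)]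
            have : 0 ≤ ε ^ 2 := by positivity
            nlinarith
        _ = 1 / (H : ℝ) ^ 3 * (ε / 4 * H) ^ 2 := by
            field_simp
            ring
        _ ≤ _ := mul_le_mul_of_nonneg_left b3 (by positivity)
    calc ε ^ 3 / 256 = (ε / 8 * y) * (ε ^ 2 / 32 / y) := by
          field_simp
          ring
      _ ≤ ((m : ℝ) + 1) * (ε ^ 2 / 32 / y) := mul_le_mul_of_nonneg_right hm2.le (by positivity)
      _ = ∑ _H ∈ I, ε ^ 2 / 32 / y := by rw [sum_const, hc, nsmul_eq_mul]; push_cast; ring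
      _ ≤ ∑ H ∈ I, 1 / (H : ℝ) ^ 3 * (W H - H) ^ 2 := sum_le_sum e1
      _ ≤ _ := sum_le_sum_of_subset_of_nonneg hI fun H _ _ => by positivity
  have hyL : (y : ℝ) / L * L = y := by field_simp
  rcases lt_abs.1 hdev with h | h
  · -- too many
    apply key (Icc y (y + m))
    · intro H hH
      rw [mem_Icc] at hH ⊢
      omega
    · rw [Nat.card_Icc]
      omega
    · intro H hH
      rw [mem_Icc] at hH
      refine ⟨by omega, by omega, ?_⟩
      have a1 := h1 H (by omega)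
      have a2 := hmono y H hH.1
      have a3 : (H : ℝ) ≤ (1 + ε / 8) * y := by
        have : (H : ℝ) ≤ y + m := by exact_mod_cast hH.2
        linarith
      have a4 : (1 + ε) * y ≤ L * P H := by
        have b1 : (1 + ε) * (y / L) ≤ P H := by linarith
        have b2 := mul_le_mul_of_nonneg_right b1 hL.le
        have b3 : (1 + ε) * (y / L) * L = (1 + ε) * y := by rw [mul_assoc, hyL]
        linarith
      have a5 : (1 - ε / 8) * ((1 + ε) * y) ≤ W H := by
        have b1 := mul_le_mul_of_nonneg_left a4 (by linarith : 0 ≤ 1 - ε / 8)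
        linarith
      have a6 : (1 + ε / 4) * H ≤ (1 + ε / 4) * ((1 + ε / 8) * y) := mul_le_mul_of_nonneg_left a3 (by linarith)
      have a7 : (1 + ε / 4) * ((1 + ε / 8) * y) ≤ (1 - ε / 8) * ((1 + ε) * y) := by
        have : (1 + ε / 4) * (1 + ε / 8) ≤ (1 - ε / 8) * (1 + ε) := by nlinarith
        calc (1 + ε / 4) * ((1 + ε / 8) * y) = ((1 + ε / 4) * (1 + ε / 8)) * y := by ring
          _ ≤ ((1 - ε / 8) * (1 + ε)) * y := mul_le_mul_of_nonneg_right this hy0.le
          _ = _ := by ring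
      refine le_trans ?_ (le_abs_self _)
      linarith
  · -- too few
    apply key (Icc (y - m) y)
    · intro H hH
      rw [mem_Icc] at hH ⊢
      omega
    · rw [Nat.card_Icc]
      omega
    · intro H hH
      rw [mem_Icc] at hH
      refine ⟨by omega, by omega, ?_⟩
      have a1 := h2 H (by omega)
      have a2 := hmono H y hH.2
      have a3 : (1 - ε / 8) * y ≤ H := by
        have : (y : ℝ) ≤ H + m := by exact_mod_cast (by omega : y ≤ H + m)
        linarith
      have a4 : L * P H ≤ (1 - ε) * y := by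
        have b1 : P H ≤ (1 - ε) * (y / L) := by linarith
        have b2 := mul_le_mul_of_nonneg_right b1 hL.le
        have b3 : (1 - ε) * (y / L) * L = (1 - ε) * y := by rw [mul_assoc, hyL]
        linarith
      have a5 : W H ≤ (1 + ε / 8) * ((1 - ε) * y) := by
        have b1 := mul_le_mul_of_nonneg_left a4 (by linarith : 0 ≤ 1 + ε / 8)
        linarith
      have a6 : (1 - ε / 4) * ((1 - ε / 8) * y) ≤ (1 - ε / 4) * H := mul_le_mul_of_nonneg_left a3 (by linarith)
      have a7 : (1 + ε / 8) * ((1 - ε) * y) ≤ (1 - ε / 4) * ((1 - ε / 8) * y) := by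
        have : (1 + ε / 8) * (1 - ε) ≤ (1 - ε / 4) * (1 - ε / 8) := by nlinarith
        calc (1 + ε / 8) * ((1 - ε) * y) = ((1 + ε / 8) * (1 - ε)) * y := by ring
          _ ≤ ((1 - ε / 4) * (1 - ε / 8)) * y := mul_le_mul_of_nonneg_right this hy0.le
          _ = _ := by ring
      rw [abs_sub_comm]
      refine le_trans ?_ (le_abs_self _)
      linarith

lemma pp_count (N X a : ℕ) (hX : 1 ≤ X) (h : N + a ≤ X) :
    (((Icc 1 N).filter (fun n : ℕ => lamI ((n : ℤ) + (a : ℤ)) ≠ 0 ∧ ¬ (n + a).Prime)).card : ℝ) ≤ 2 * (2 * √(X : ℝ) * Real.log X) := by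
  classical
  have h0 := pp_sum N X (a : ℤ) hX (by
    intro n hn
    rw [mem_Icc] at hn
    exact_mod_cast (by omega : n + a ≤ X))
  have h1 : ((((Icc 1 N).filter (fun n : ℕ => lamI ((n : ℤ) + (a : ℤ)) ≠ 0 ∧ ¬ (n + a).Prime)).card : ℝ)) * (1 / 2) ≤
      ∑ n ∈ Icc 1 N, (lamI ((n : ℤ) + a) - lamP ((n : ℤ) + a)) := by
    rw [← nsmul_eq_mul, ← sum_const, sum_filter]
    apply sum_le_sum
    intro n hn
    rw [mem_Icc] at hn
    have e0 := lamP_le ((n : ℤ) + a)
    split_ifs with hc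
    · have e1 : ((n : ℤ) + (a : ℤ)).toNat = n + a := by
        have : (n : ℤ) + (a : ℤ) = ((n + a : ℕ) : ℤ) := by push_cast; ring
        rw [this, Int.toNat_natCast]
      have e2 : lamP ((n : ℤ) + a) = 0 := by
        unfold lamP
        rw [e1, if_neg hc.2]
      have e3 : lamI ((n : ℤ) + a) = ArithmeticFunction.vonMangoldt (n + a) := by
        unfold lamI
        rw [if_pos (by omega), e1]
      have e4 := hc.1
      rw [e2, sub_zero, e3]
      rw [e3] at e4
      have e5 : IsPrimePow (n + a) := by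
        by_contra hcon
        exact e4 (ArithmeticFunction.vonMangoldt_eq_zero_iff.2 hcon)
      rw [ArithmeticFunction.vonMangoldt_apply, if_pos e5]
      have e6 : 2 ≤ (n + a).minFac := (Nat.minFac_prime e5.one_lt.ne').two_le
      have e7 : Real.log 2 ≤ Real.log ((n + a).minFac : ℝ) := Real.log_le_log (by norm_num) (by exact_mod_cast e6)
      have e8 := Real.log_two_gt_d9
      linarith
    · linarith
  linarith

end Pool.Agent.Y885
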