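import Pool.Agent.Y885.MU6
import Pool.Agent.Y885.WP4
import Pool.Agent.Y862.GM.Asm

set_option autoImplicit false
set_option linter.all false

/-!
# GW1: tools for sums of the Moebius function over perturbed windows
-/

namespace Pool.Agent.Y885

open Finset Pool.Agent.H373R2.T7

/-- a sequence chosen step by step -/
lemma seq_choice {α : Type} (d : α) (P : ℕ → (ℕ → α) → α → Prop)
    (hP : ∀ j f g a, (∀ i < j, f i = g i) → P j f a → P j g a) (h : ∀ j f, ∃ a, P j f a) :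
    ∃ f : ℕ → α, ∀ j, P j f (f j) := by
  classical
  choose F hF using h
  obtain ⟨g, hs⟩ : ∃ g : ℕ → ℕ → α, ∀ j, g (j + 1) = Function.update (g j) j (F j (g j)) :=
    ⟨fun n => Nat.rec (fun _ => d) (fun j f => Function.update f j (F j f)) n, fun j => rfl⟩
  have hst : ∀ i m, i < m → g m i = g (i + 1) i := by
    intro i m hm
    induction m with
    | zero => omega
    | succ m ih =>
      rcases Nat.lt_succ_iff_lt_or_eq.1 hm with h1 | h1
      · rw [hs m, Function.update_of_ne (by omega), ih h1]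
      · rw [h1]
  refine ⟨fun j => g (j + 1) j, fun j => ?_⟩
  have e1 : g (j + 1) j = F j (g j) := by rw [hs j, Function.update_self]
  show P j _ (g (j + 1) j)
  rw [e1]
  exact hP j (g j) _ _ (fun i hi => hst i j hi) (hF j (g j))

/-- `las_fine` for a finite family of weights indexed by a finite set, with a bound for the sum of the elements -/
theorem las_fineF (l P κ U : ℕ) (hl : 2 ≤ l) (hP : 1 ≤ P) (θ : ℕ → ℝ) (hθ : Fine θ) : ∃ C : ℝ, ∀ H B : ℕ, ∃ N₀ : ℕ, ∀ A : Set ℕ,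
    (∀ x : ℕ, 1 ≤ x → ∃ a ∈ A, x ≤ a ∧ a ≤ l * x) → ∀ N : ℕ, N₀ ≤ N → ∀ h : ℕ, h ≤ B * N →
    ∀ (ι : Type) (G : Finset ι), (G.card : ℝ) ≤ Real.log N ^ κ → ∀ (g : ι → ℕ → ℂ),
    (∀ i ∈ G, ∀ n, ‖g i n‖ ≤ 1) →
    ∃ S : Finset ℕ, (∀ a ∈ S, a ∈ A ∧ Real.log N ^ H ≤ a ∧ (a : ℝ) ≤ N / Real.log N ^ H) ∧
      (S.card : ℝ) ≤ C * Real.log (Real.log N) ^ 2 ∧ P ∣ ∑ a ∈ S, a ∧ ∑ a ∈ S, a ≤ N ∧
      ∀ i ∈ G, ∀ M : ℕ, M ≤ B * N →
        ‖∑ n ∈ Icc 1 M, g i n * ((θ (n + (h + ∑ a ∈ S, a)) : ℝ) : ℂ)‖ ≤ N / Real.log N ^ U := by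
  classical
  obtain ⟨C, hC⟩ := las_fine l P κ U hl hP θ hθ
  refine ⟨C, fun H B => ?_⟩
  obtain ⟨N₀, h0⟩ := hC (H + 1) B
  obtain ⟨n1, h1⟩ := ev_L' (max 3 |C|)
  obtain ⟨n2, h2⟩ := ev_L' (Real.exp (6 * |C| + 6))
  refine ⟨N₀ + n1 + n2 + 3, fun A hA N hN h hh ι G hG g hg => ?_⟩
  obtain ⟨L, hLd⟩ : ∃ L, L = Real.log (N : ℝ) := ⟨_, rfl⟩
  have hL1 := h1 N (by omega)
  have hL2 := h2 N (by omega)
  have hL3 : 3 ≤ L := by rw [hLd]; exact (le_max_left _ _).trans hL1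
  have hN0 : (0 : ℝ) < N := by exact_mod_cast (by omega : 0 < N)
  obtain ⟨S, s1, s2, s3, s4⟩ := h0 A hA N (by omega) h hh G.card hG (fun _ => 1) (fun i => g (G.equivFin.symm i)) (fun _ => le_rfl)
    (fun i n _ _ => (hg _ (G.equivFin.symm i).2 n).trans (one_le_pow₀ (by rw [← hLd]; linarith)))
  have hloglog : Real.log L ≤ L := (Real.log_le_sub_one_of_pos (by linarith)).trans (by linarith)
  rw [← hLd] at s1 s2 s4 ⊢
  refine ⟨S, fun a ha => ?_, s2, s3, ?_, ?_⟩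
  · obtain ⟨a1, a2, a3⟩ := s1 a ha
    refine ⟨a1, le_trans (pow_le_pow_right₀ (by linarith) (Nat.le_succ H)) a2, a3.trans ?_⟩
    exact div_le_div_of_nonneg_left hN0.le (by positivity) (pow_le_pow_right₀ (by linarith) (Nat.le_succ H))
  · have e1 : ∀ a ∈ S, (a : ℝ) ≤ N / L := by
      intro a ha
      refine (s1 a ha).2.2.trans ?_
      apply div_le_div_of_nonneg_left hN0.le (by linarith)
      calc L = L ^ 1 := (pow_one _).symm
        _ ≤ L ^ (H + 1) := pow_le_pow_right₀ (by linarith) (by omega)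
    have e2 : (∑ a ∈ S, (a : ℝ)) ≤ N := by
      refine (sum_le_sum e1).trans ?_
      rw [sum_const, nsmul_eq_mul]
      have e3 : C * Real.log L ^ 2 ≤ L := by
        have hlog0 : 0 ≤ Real.log L := Real.log_nonneg (by linarith)
        have q2 : 6 * |C| + 6 ≤ Real.log L := by
          rw [← Real.log_exp (6 * |C| + 6)]
          exact Real.log_le_log (Real.exp_pos _) (by rw [hLd]; exact hL2)
        have q3 : Real.log L ^ 3 / 6 ≤ L := by
          have := Real.pow_div_factorial_le_exp (Real.log L) hlog0 3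
          rw [Real.exp_log (by linarith)] at this
          norm_num [Nat.factorial] at this
          exact this
        have q4 : C * Real.log L ^ 2 ≤ |C| * Real.log L ^ 2 := by
          apply mul_le_mul_of_nonneg_right (le_abs_self _) (by positivity)
        nlinarith [abs_nonneg C, sq_nonneg (Real.log L), mul_le_mul_of_nonneg_right q2 (sq_nonneg (Real.log L))]
      calc (S.card : ℝ) * (N / L) ≤ L * (N / L) := mul_le_mul_of_nonneg_right (s2.trans e3) (by positivity)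
        _ = N := by field_simp
    rw [← Nat.cast_sum] at e2
    exact_mod_cast e2
  · intro i hi M hM
    have h4 := s4 (G.equivFin ⟨i, hi⟩) M (by simpa using hM)
    simp only [Equiv.symm_apply_apply, one_mul] at h4
    exact h4

/-- the number of multiples of `d` in an interval -/
lemma mult_count (d Z Y a : ℕ) (hd : 1 ≤ d) : (((Ioc Z (Z + Y)).filter (fun x => d ∣ x + a)).card : ℝ) ≤ Y / d + 1 := by
  have h1 : (Ioc Z (Z + Y)).filter (fun x => d ∣ x + a) ⊆ (Ioc Z (Z + Y)).filter (fun x => d ∣ x + a) := subset_rfl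
  have h2 : ((Ioc Z (Z + Y)).filter (fun x => d ∣ x + a)).card = ((Ioc (Z + a) (Z + a + Y)).filter (fun x => d ∣ x)).card := by
    apply card_bij (fun x _ => x + a)
    · intro x hx
      rw [mem_filter, mem_Ioc] at hx ⊢
      exact ⟨by omega, hx.2⟩
    · intro x _ y _ hxy
      omega
    · intro y hy
      rw [mem_filter, mem_Ioc] at hy
      refine ⟨y - a, ?_, by omega⟩
      rw [mem_filter, mem_Ioc, show y - a + a = y by omega]
      exact ⟨by omega, hy.2⟩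
  rw [h2]
  have h3 : (Ioc (Z + a) (Z + a + Y)).filter (fun x => d ∣ x) ⊆ (Ioc ((Z + a) / d) ((Z + a + Y) / d)).image (fun t => d * t) := by
    intro x hx
    rw [mem_filter, mem_Ioc] at hx
    obtain ⟨⟨x1, x2⟩, t, rfl⟩ := hx
    rw [mem_image]
    refine ⟨t, ?_, rfl⟩
    rw [mem_Ioc]
    constructor
    · rw [Nat.div_lt_iff_lt_mul (by omega)]
      rw [mul_comm]; exact x1
    · rw [Nat.le_div_iff_mul_le (by omega)]
      rw [mul_comm]; exact x2
  have h4 : ((Ioc (Z + a) (Z + a + Y)).filter (fun x => d ∣ x)).card ≤ (Z + a + Y) / d - (Z + a) / d := by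
    refine (card_le_card h3).trans (card_image_le.trans ?_)
    rw [Nat.card_Ioc]
  have h5 : (Z + a + Y) / d - (Z + a) / d ≤ Y / d + 1 := by
    have h6 := Nat.div_add_mod (Z + a) d
    have h7 := Nat.div_add_mod (Z + a + Y) d
    have h8 := Nat.div_add_mod Y d
    have h9 : (Z + a) % d < d := Nat.mod_lt _ (by omega)
    have h10 : Y % d < d := Nat.mod_lt _ (by omega)
    rw [Nat.sub_le_iff_le_add]
    by_contra hcon
    push Not at hcon
    have h11 : d * (Y / d + 1 + (Z + a) / d + 1) ≤ d * ((Z + a + Y) / d) := Nat.mul_le_mul_left _ (by omega)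
    have h12 : d * (Y / d + 1 + (Z + a) / d + 1) = d * (Y / d) + d * ((Z + a) / d) + 2 * d := by ring
    omega
  have h6 : ((Y / d : ℕ) : ℝ) ≤ Y / d := Nat.cast_div_le
  have h7 : (((Ioc (Z + a) (Z + a + Y)).filter (fun x => d ∣ x)).card : ℝ) ≤ ((Y / d + 1 : ℕ) : ℝ) := by
    exact_mod_cast h4.trans h5
  push_cast at h7
  linarith

open Classical in
/-- the number of the elements of an interval which have a large square divisor after a shift -/
lemma sq_count (z Z Y a : ℕ) (hz : 1 ≤ z) :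
    (((Ioc Z (Z + Y)).filter (fun x => ∃ d : ℕ, z < d ∧ d ^ 2 ∣ x + a)).card : ℝ) ≤ 2 * Y / z + √((Z + Y + a : ℕ) : ℝ) := by
  obtain ⟨D, hD⟩ : ∃ D, D = Nat.sqrt (Z + Y + a) := ⟨_, rfl⟩
  have h1 : (Ioc Z (Z + Y)).filter (fun x => ∃ d : ℕ, z < d ∧ d ^ 2 ∣ x + a) ⊆
      (Icc (z + 1) D).biUnion (fun d => (Ioc Z (Z + Y)).filter (fun x => d ^ 2 ∣ x + a)) := by
    intro x hx
    rw [mem_filter, mem_Ioc] at hx
    obtain ⟨hx1, d, hd1, hd2⟩ := hx
    rw [mem_biUnion]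
    refine ⟨d, ?_, by rw [mem_filter, mem_Ioc]; exact ⟨hx1, hd2⟩⟩
    rw [mem_Icc]
    refine ⟨hd1, ?_⟩
    rw [hD, Nat.le_sqrt']
    exact (Nat.le_of_dvd (by omega) hd2).trans (by omega)
  have h2 : (((Ioc Z (Z + Y)).filter (fun x => ∃ d : ℕ, z < d ∧ d ^ 2 ∣ x + a)).card : ℝ) ≤
      ∑ d ∈ Icc (z + 1) D, ((Y : ℝ) / (d : ℝ) ^ 2 + 1) := by
    have h3 : (((Ioc Z (Z + Y)).filter (fun x => ∃ d : ℕ, z < d ∧ d ^ 2 ∣ x + a)).card : ℝ) ≤
        ((∑ d ∈ Icc (z + 1) D, ((Ioc Z (Z + Y)).filter (fun x => d ^ 2 ∣ x + a)).card : ℕ) : ℝ) := by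
      exact_mod_cast (card_le_card h1).trans card_biUnion_le
    refine h3.trans ?_
    rw [Nat.cast_sum]
    apply sum_le_sum
    intro d hd
    rw [mem_Icc] at hd
    have := mult_count (d ^ 2) Z Y a (Nat.one_le_pow _ _ (by omega))
    push_cast at this
    exact this
  have h3 : ∑ d ∈ Icc (z + 1) D, ((Y : ℝ) / (d : ℝ) ^ 2 + 1) = Y * ∑ d ∈ Icc (z + 1) D, 1 / (d : ℝ) ^ 2 + ((Icc (z + 1) D).card : ℝ) := by
    rw [sum_add_distrib, mul_sum, sum_const, nsmul_eq_mul, mul_one]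
    congr 1
    apply sum_congr rfl
    intro d _
    ring
  have h4 := sum_inv_sq' (z + 1) D (by omega)
  have h5 : ((Icc (z + 1) D).card : ℝ) ≤ √((Z + Y + a : ℕ) : ℝ) := by
    rw [Nat.card_Icc]
    apply Real.le_sqrt_of_sq_le
    have : (D + 1 - (z + 1)) ^ 2 ≤ Z + Y + a := by
      calc (D + 1 - (z + 1)) ^ 2 ≤ D ^ 2 := Nat.pow_le_pow_left (by omega) 2
        _ ≤ _ := by rw [hD]; exact Nat.sqrt_le' _
    exact_mod_cast this
  have hz0 : (0 : ℝ) < z := by exact_mod_cast hz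
  have h6 : (2 : ℝ) / ((z + 1 : ℕ) : ℝ) ≤ 2 / z := by
    apply div_le_div_of_nonneg_left (by norm_num) hz0
    push_cast
    linarith
  have h7 : (Y : ℝ) * ∑ d ∈ Icc (z + 1) D, 1 / (d : ℝ) ^ 2 ≤ Y * (2 / z) :=
    mul_le_mul_of_nonneg_left (h4.trans h6) (Nat.cast_nonneg _)
  have h8 : (Y : ℝ) * (2 / z) = 2 * Y / z := by ring
  rw [h3] at h2
  linarith

end Pool.Agent.Y885
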