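import Pool.Agent.Y885.GW9

set_option autoImplicit false
set_option linter.all false

/-!
# GW10: the joint Gaussian law on perturbed windows, for all arguments at once
-/

namespace Pool.Agent.Y885

open Finset Pool.Agent.H373R2.T7 MeasureTheory ProbabilityTheory
open Pool.Agent.Y862.GM (sigma_facts)

/-- the Gaussian distribution function -/
noncomputable def Phi (s : ℝ) : ℝ := (gaussianReal 0 1).real (Set.Iic s)

lemma Phi_nonneg (s : ℝ) : 0 ≤ Phi s := measureReal_nonneg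

lemma Phi_le_one (s : ℝ) : Phi s ≤ 1 := measureReal_le_one

lemma Phi_mono {a b : ℝ} (h : a ≤ b) : Phi a ≤ Phi b := measureReal_mono (Set.Iic_subset_Iic.2 h)

lemma pdf_le (x : ℝ) : gaussianPDF 0 1 x ≤ 1 := by
  unfold gaussianPDF
  rw [← ENNReal.ofReal_one]
  apply ENNReal.ofReal_le_ofReal
  unfold gaussianPDFReal
  have h1 : (√(2 * Real.pi * ((1 : NNReal) : ℝ)))⁻¹ ≤ 1 := by
    apply inv_le_one_of_one_le₀
    rw [Real.one_le_sqrt]
    have := Real.pi_gt_three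
    push_cast
    linarith
  have h2 : Real.exp (-(x - 0) ^ 2 / (2 * ((1 : NNReal) : ℝ))) ≤ 1 := by
    rw [Real.exp_le_one_iff]
    have : 0 ≤ (x - 0) ^ 2 := sq_nonneg _
    push_cast
    linarith
  exact mul_le_one₀ h1 (Real.exp_pos _).le h2

lemma Phi_lip {a b : ℝ} (h : a ≤ b) : Phi b ≤ Phi a + (b - a) := by
  unfold Phi
  have h1 : Set.Iic b = Set.Iic a ∪ Set.Ioc a b := (Set.Iic_union_Ioc_eq_Iic h).symm
  rw [h1]
  refine (measureReal_union_le _ _).trans ?_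
  have h2 : (gaussianReal 0 1).real (Set.Ioc a b) ≤ b - a := by
    rw [measureReal_def]
    apply ENNReal.toReal_le_of_le_ofReal (by linarith)
    rw [gaussianReal_apply _ one_ne_zero]
    calc ∫⁻ x in Set.Ioc a b, gaussianPDF 0 1 x ≤ ∫⁻ x in Set.Ioc a b, 1 := lintegral_mono fun x => pdf_le x
      _ = ENNReal.ofReal (b - a) := by rw [setLIntegral_one, Real.volume_Ioc]
  linarith

lemma Phi_tails (ε : ℝ) (hε : 0 < ε) : ∃ R : ℝ, 0 < R ∧ Phi (-R) ≤ ε ∧ 1 - ε ≤ Phi R := by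
  have h1 := (tendsto_cdf_atBot (gaussianReal 0 1)).eventually_lt_const hε
  have h2 := (tendsto_cdf_atTop (gaussianReal 0 1)).eventually_const_lt (show 1 - ε < 1 by linarith)
  obtain ⟨r1, hr1⟩ := Filter.eventually_atBot.1 h1
  obtain ⟨r2, hr2⟩ := Filter.eventually_atTop.1 h2
  obtain ⟨R, hR⟩ : ∃ R, R = max 1 (max (-r1) r2) := ⟨_, rfl⟩
  have e1 : 1 ≤ R := by rw [hR]; exact le_max_left _ _
  have e2 : -r1 ≤ R := by rw [hR]; exact (le_max_left _ _).trans (le_max_right _ _)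
  have e3 : r2 ≤ R := by rw [hR]; exact (le_max_right _ _).trans (le_max_right _ _)
  refine ⟨R, by linarith, ?_, ?_⟩
  · have := hr1 (-R) (by linarith)
    rw [cdf_eq_real] at this
    exact this.le
  · have := hr2 R e3
    rw [cdf_eq_real] at this
    exact this.le

lemma prod_le_add {ι : Type} (s : Finset ι) (a b : ι → ℝ) (ε : ℝ) (hε : 0 ≤ ε) (ha0 : ∀ i, 0 ≤ a i) (ha1 : ∀ i, a i ≤ 1)
    (hb0 : ∀ i, 0 ≤ b i) (hb1 : ∀ i, b i ≤ 1) (h : ∀ i, b i ≤ a i + ε) : ∏ i ∈ s, b i ≤ ∏ i ∈ s, a i + s.card * ε := by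
  classical
  induction s using Finset.induction_on with
  | empty => simp
  | insert i s hi ih =>
    rw [prod_insert hi, prod_insert hi, card_insert_of_notMem hi]
    have p1 : 0 ≤ ∏ j ∈ s, b j := prod_nonneg fun j _ => hb0 j
    have p2 : ∏ j ∈ s, b j ≤ 1 := prod_le_one (fun j _ => hb0 j) fun j _ => hb1 j
    have p3 : 0 ≤ ∏ j ∈ s, a j := prod_nonneg fun j _ => ha0 j
    have p4 : (0 : ℝ) ≤ s.card * ε := by positivity
    push_cast
    calc b i * ∏ j ∈ s, b j ≤ (a i + ε) * ∏ j ∈ s, b j := mul_le_mul_of_nonneg_right (h i) p1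
      _ = a i * ∏ j ∈ s, b j + ε * ∏ j ∈ s, b j := by ring
      _ ≤ a i * (∏ j ∈ s, a j + s.card * ε) + ε * 1 :=
          add_le_add (mul_le_mul_of_nonneg_left ih (ha0 i)) (mul_le_mul_of_nonneg_left p2 hε)
      _ ≤ a i * ∏ j ∈ s, a j + (s.card + 1) * ε := by nlinarith [mul_le_mul_of_nonneg_right (ha1 i) p4]

/-- all arguments at once -/
lemma levy_all (k : ℕ) (ε : ℝ) (hε : 0 < ε) : ∃ (T : ℕ) (δ : ℝ), 1 ≤ T ∧ 0 < δ ∧
    ∀ Om : Finset ℕ, Om.Nonempty → ∀ S : ℕ → Fin k → ℝ,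
    (∀ w : Fin k → ℝ, (∀ i, |w i| ≤ T) →
      ‖(∑ x ∈ Om, Complex.exp (Complex.I * ((∑ i, w i * S x i : ℝ) : ℂ))) / Om.card -
        ((Real.exp (-(∑ i, w i ^ 2) / 2) : ℝ) : ℂ)‖ ≤ δ) →
    ∀ t : Fin k → ℝ, |((Om.filter (fun x => ∀ i, S x i ≤ t i)).card : ℝ) / Om.card - ∏ i, Phi (t i)| ≤ ε := by
  classical
  obtain ⟨η, hη⟩ : ∃ η, η = ε / (4 * (k + 1)) := ⟨_, rfl⟩
  have hη0 : 0 < η := by rw [hη]; positivity
  have hkη : 2 * (k * η) ≤ ε / 2 := by
    rw [hη, mul_div_assoc', mul_div_assoc', div_le_div_iff₀ (by positivity) (by norm_num)]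
    nlinarith
  have hηε : η ≤ ε / 4 := by
    rw [hη]
    apply div_le_div_of_nonneg_left hε.le (by norm_num)
    have : (0 : ℝ) ≤ k := Nat.cast_nonneg _
    linarith
  obtain ⟨R, hR0, hR1, hR2⟩ := Phi_tails η hη0
  obtain ⟨m, hm⟩ := exists_nat_ge (2 * R / η)
  rw [div_le_iff₀ hη0] at hm
  obtain ⟨τ, hτ⟩ : ∃ τ : ℕ → ℝ, τ = fun j : ℕ => -R + (j : ℝ) * η := ⟨_, rfl⟩
  have hτm : R ≤ τ m := by rw [hτ]; simp only; linarith
  obtain ⟨G, hG⟩ : ∃ G : Finset ℝ, G = (range (m + 1)).image τ := ⟨_, rfl⟩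
  have hGmem : ∀ j ≤ m, τ j ∈ G := fun j hj => by rw [hG]; exact mem_image_of_mem τ (mem_range.2 (by omega))
  obtain ⟨T, δ, hT, hδ, h0⟩ := levy_fin k (Fintype.piFinset fun _ : Fin k => G) (ε / 4) (by positivity)
  refine ⟨T, δ, hT, hδ, fun Om hOm S hS t => ?_⟩
  have hc0 : (0 : ℝ) < Om.card := by exact_mod_cast hOm.card_pos
  have h1 : ∀ s : Fin k → ℝ, (∀ i, s i ∈ G) → |((Om.filter (fun x => ∀ i, S x i ≤ s i)).card : ℝ) / Om.card - ∏ i, Phi (s i)| ≤ ε / 4 := by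
    intro s hs
    have := h0 Om hOm S hS s (by rw [Fintype.mem_piFinset]; exact hs)
    unfold Phi
    convert this using 3
  have hcard : (univ : Finset (Fin k)).card = k := by rw [card_univ, Fintype.card_fin]
  -- neighbours
  have hnb : ∀ s : ℝ, -R ≤ s → s ≤ τ m → ∃ j < m + 1, τ j ≤ s ∧ ∃ j' < m + 1, s ≤ τ j' ∧ τ j' ≤ τ j + η := by
    intro s hs1 hs2
    obtain ⟨n, hn⟩ : ∃ n, n = ⌊(s + R) / η⌋₊ := ⟨_, rfl⟩
    have e0 : 0 ≤ (s + R) / η := by apply div_nonneg _ hη0.le; linarith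
    have e1 : (n : ℝ) ≤ (s + R) / η := by rw [hn]; exact Nat.floor_le e0
    have e2 : (s + R) / η < n + 1 := by rw [hn]; exact Nat.lt_floor_add_one _
    rw [le_div_iff₀ hη0] at e1
    rw [div_lt_iff₀ hη0] at e2
    have e3 : n ≤ m := by
      have : (n : ℝ) * η ≤ m * η := by
        rw [hτ] at hs2
        simp only at hs2
        linarith
      exact_mod_cast le_of_mul_le_mul_right this hη0
    rcases Nat.lt_or_ge n m with h | h
    · refine ⟨n, by omega, ?_, n + 1, by omega, ?_, ?_⟩ <;> rw [hτ] <;> simp only <;> push_cast <;> linarith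
    · have e4 : n = m := by omega
      refine ⟨m, by omega, ?_, m, by omega, hs2, by linarith⟩
      rw [hτ]; simp only; rw [← e4]; linarith
  have hP0 : 0 ≤ ((Om.filter (fun x => ∀ i, S x i ≤ t i)).card : ℝ) / Om.card := by positivity
  rw [abs_le]
  constructor
  · -- the lower bound
    by_cases hlow : ∃ i, t i < -R
    · obtain ⟨i, hi⟩ := hlow
      have e1 : ∏ j, Phi (t j) ≤ Phi (t i) := by
        rw [← mul_prod_erase univ (fun j => Phi (t j)) (mem_univ i)]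
        exact mul_le_of_le_one_right (Phi_nonneg _) (prod_le_one (fun j _ => Phi_nonneg _) fun j _ => Phi_le_one _)
      have e2 : Phi (t i) ≤ η := (Phi_mono hi.le).trans hR1
      linarith
    · push Not at hlow
      have h2 : ∀ i, ∃ g ∈ G, g ≤ t i ∧ Phi (t i) ≤ Phi g + η := by
        intro i
        by_cases hi : t i ≤ τ m
        · obtain ⟨j, hj, hj1, j', hj', hj2, hj3⟩ := hnb (t i) (hlow i) hi
          refine ⟨τ j, hGmem j (by omega), hj1, ?_⟩
          have := Phi_lip hj1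
          linarith
        · push Not at hi
          refine ⟨τ m, hGmem m le_rfl, hi.le, ?_⟩
          have := Phi_le_one (t i)
          have := Phi_mono hτm
          linarith
      choose lo hlo1 hlo2 hlo3 using h2
      have h3 := (abs_le.1 (h1 lo hlo1)).1
      have h4 := prod_le_add univ (fun i => Phi (lo i)) (fun i => Phi (t i)) η hη0.le (fun _ => Phi_nonneg _) (fun _ => Phi_le_one _)
        (fun _ => Phi_nonneg _) (fun _ => Phi_le_one _) hlo3
      rw [hcard] at h4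
      have h5 : ((Om.filter (fun x => ∀ i, S x i ≤ lo i)).card : ℝ) / Om.card ≤
          ((Om.filter (fun x => ∀ i, S x i ≤ t i)).card : ℝ) / Om.card := by
        apply div_le_div_of_nonneg_right _ hc0.le
        exact_mod_cast card_le_card (fun x hx => by
          rw [mem_filter] at hx ⊢
          exact ⟨hx.1, fun i => (hx.2 i).trans (hlo2 i)⟩)
      linarith
  · -- the upper bound
    have h2 : ∀ i, ∃ g ∈ G, (t i ≤ τ m → t i ≤ g) ∧ (τ m < t i → τ m ≤ g) ∧ Phi g ≤ Phi (t i) + η := by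
      intro i
      by_cases hi : t i ≤ τ m
      · by_cases hi2 : -R ≤ t i
        · obtain ⟨j, hj, hj1, j', hj', hj2, hj3⟩ := hnb (t i) hi2 hi
          refine ⟨τ j', hGmem j' (by omega), fun _ => hj2, fun h => absurd hi (not_le.2 h), ?_⟩
          have := Phi_lip hj2
          linarith
        · push Not at hi2
          have e1 : τ 0 = -R := by rw [hτ]; simp
          refine ⟨τ 0, hGmem 0 (by omega), fun _ => by rw [e1]; exact hi2.le, fun h => absurd hi (not_le.2 h), ?_⟩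
          rw [e1]
          have := Phi_nonneg (t i)
          linarith
      · push Not at hi
        refine ⟨τ m, hGmem m le_rfl, fun h => absurd h (not_le.2 hi), fun _ => le_rfl, ?_⟩
        have := Phi_mono hi.le
        linarith
    choose up hup1 hup2 hup3 hup4 using h2
    have h3 := (abs_le.1 (h1 up hup1)).2
    have h4 := prod_le_add univ (fun i => Phi (t i)) (fun i => Phi (up i)) η hη0.le (fun _ => Phi_nonneg _) (fun _ => Phi_le_one _)
      (fun _ => Phi_nonneg _) (fun _ => Phi_le_one _) hup4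
    rw [hcard] at h4
    have h5 := (abs_le.1 (h1 (fun _ => τ m) (fun _ => hGmem m le_rfl))).1
    have h6 := prod_le_add univ (fun _ : Fin k => Phi (τ m)) (fun _ => (1 : ℝ)) η hη0.le (fun _ => Phi_nonneg _) (fun _ => Phi_le_one _)
      (fun _ => zero_le_one) (fun _ => le_rfl) (fun _ => by have := Phi_mono hτm; linarith)
    rw [hcard, prod_const_one] at h6
    have h7 : ((Om.filter (fun x => ∀ i, S x i ≤ t i)).card : ℝ) + ((Om.filter (fun x => ∀ i, S x i ≤ τ m)).card : ℝ) ≤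
        ((Om.filter (fun x => ∀ i, S x i ≤ up i)).card : ℝ) + Om.card := by
      have e1 : Om.filter (fun x => ∀ i, S x i ≤ t i) ⊆ Om.filter (fun x => ∀ i, S x i ≤ up i) ∪
          Om.filter (fun x => ¬ ∀ i, S x i ≤ τ m) := by
        intro x hx
        rw [mem_filter] at hx
        rw [mem_union, mem_filter, mem_filter]
        by_cases h : ∀ i, S x i ≤ τ m
        · left
          refine ⟨hx.1, fun i => ?_⟩
          by_cases hi : t i ≤ τ m
          · exact (hx.2 i).trans (hup2 i hi)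
          · exact (h i).trans (hup3 i (not_le.1 hi))
        · right
          exact ⟨hx.1, h⟩
      have e2 := (card_le_card e1).trans (card_union_le _ _)
      have e3 := card_filter_add_card_filter_not (s := Om) (fun x => ∀ i, S x i ≤ τ m)
      exact_mod_cast (by omega : (Om.filter (fun x => ∀ i, S x i ≤ t i)).card + (Om.filter (fun x => ∀ i, S x i ≤ τ m)).card ≤
        (Om.filter (fun x => ∀ i, S x i ≤ up i)).card + Om.card)
    have h8 : ((Om.filter (fun x => ∀ i, S x i ≤ t i)).card : ℝ) / Om.card + ((Om.filter (fun x => ∀ i, S x i ≤ τ m)).card : ℝ) / Om.card ≤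
        ((Om.filter (fun x => ∀ i, S x i ≤ up i)).card : ℝ) / Om.card + 1 := by
      rw [← add_div, div_le_iff₀ hc0, add_mul, div_mul_cancel₀ _ hc0.ne', one_mul]
      exact h7
    linarith

/-- **the joint Gaussian law on perturbed windows, for all arguments** -/
theorem gw_gauss_all (l κ k : ℕ) (ε : ℝ) (hl : 2 ≤ l) (hk : 1 ≤ k) (hε : 0 < ε) : ∃ (C : ℝ) (b₀ : ℕ),
    ∀ H B : ℕ, ∃ N₀ : ℕ, ∀ A : ℕ → Set ℕ,
    (∀ j, ∀ x : ℕ, 1 ≤ x → ∃ a ∈ A j, x ≤ a ∧ a ≤ l * x) → ∀ N : ℕ, N₀ ≤ N → ∀ h : ℕ, h ≤ B * N →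
    ∃ S : ℕ → Finset ℕ, (∀ j, ∀ a ∈ S j, a ∈ A j ∧ Real.log N ^ H ≤ a ∧ (a : ℝ) ≤ N / Real.log N ^ H) ∧
      (∀ j, ((S j).card : ℝ) ≤ C * Real.log (Real.log N) ^ 2) ∧
      ∀ b : ℕ, b₀ ≤ b → (b : ℝ) ≤ Real.log N ^ κ → ∀ Z Y : ℕ, Z + Y ≤ N → (N : ℝ) ≤ Y * Real.log N ^ κ → ∀ t : Fin k → ℝ,
        |(((Ioc Z (Z + Y)).filter (fun x => ∀ i : Fin k, ∑ u ∈ Ioc ((i : ℕ) * b) (i * b + b), muR (x + (h + u + ∑ a ∈ S u, a)) ≤
          t i * √(6 * b / Real.pi ^ 2))).card : ℝ) / Y - ∏ i, (gaussianReal 0 1).real (Set.Iic (t i))| ≤ ε := by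
  classical
  obtain ⟨T, δ, hT, hδ, hlevy⟩ := levy_all k ε hε
  obtain ⟨C, b₀, hb₀, hC⟩ := gw_char l κ k T δ hl hk hT hδ
  refine ⟨C, b₀, fun H B => ?_⟩
  obtain ⟨N₀, h0⟩ := hC H B
  refine ⟨N₀ + 1, fun A hA N hN h hh => ?_⟩
  obtain ⟨S, s1, s2, s3⟩ := h0 A hA N (by omega) h hh
  refine ⟨S, s1, s2, fun b hb hbL Z Y hZY hY t => ?_⟩
  have hN0 : (0 : ℝ) < N := by exact_mod_cast (by omega : 0 < N)
  have hY1 : 0 < Y := by
    rcases Nat.eq_zero_or_pos Y with h | h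
    · rw [h] at hY; push_cast at hY; linarith
    · exact h
  have hY0 : (0 : ℝ) < Y := by exact_mod_cast hY1
  have hne : (Ioc Z (Z + Y)).Nonempty := ⟨Z + 1, by rw [mem_Ioc]; omega⟩
  have hcardN : (Ioc Z (Z + Y)).card = Y := by rw [Nat.card_Ioc]; omega
  have h3 := hlevy (Ioc Z (Z + Y)) hne (fun x i => nb S h b x i) (fun w hw => by
    have h4 := s3 b hb hbL Z Y hZY hY w hw
    rw [hcardN]
    have e1 : (∑ x ∈ Ioc Z (Z + Y), Complex.exp (Complex.I * ((∑ i : Fin k, w i * nb S h b x i : ℝ) : ℂ))) / ((Y : ℕ) : ℂ) -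
        ((Real.exp (-(∑ i, w i ^ 2) / 2) : ℝ) : ℂ) =
        (∑ x ∈ Ioc Z (Z + Y), Complex.exp (Complex.I * ((∑ i : Fin k, w i * nb S h b x i : ℝ) : ℂ)) -
          ((Y * Real.exp (-(∑ i, w i ^ 2) / 2) : ℝ) : ℂ)) / ((Y : ℕ) : ℂ) := by
      have : ((Y : ℕ) : ℂ) ≠ 0 := by exact_mod_cast hY1.ne'
      push_cast
      field_simp
    rw [e1, norm_div, Complex.norm_natCast, div_le_iff₀ hY0]
    exact h4) t
  rw [hcardN] at h3
  have hσ := (sigma_facts b (by omega)).1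
  have hfil : (Ioc Z (Z + Y)).filter (fun x => ∀ i : Fin k, ∑ u ∈ Ioc ((i : ℕ) * b) (i * b + b), muR (x + (h + u + ∑ a ∈ S u, a)) ≤
      t i * √(6 * b / Real.pi ^ 2)) = (Ioc Z (Z + Y)).filter (fun x => ∀ i : Fin k, nb S h b x i ≤ t i) := by
    apply Finset.filter_congr
    intro x _
    apply forall_congr'
    intro i
    unfold nb fu
    rw [div_le_iff₀ hσ]
  rw [hfil]
  unfold Phi at h3
  convert h3 using 3

end Pool.Agent.Y885
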