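import Pool.Agent.Y885.GW1
import Pool.Agent.H382R2.SqFree

set_option autoImplicit false
set_option linter.all false

/-!
# GW2: near orthogonality of the shifts of the Moebius function by few elements of arbitrary sets
-/

namespace Pool.Agent.Y885

open Finset Pool.Agent.H373R2.T7

lemma mob_hs : HasSum (fun n : ℕ => ((ArithmeticFunction.moebius n : ℤ) : ℝ) / (n : ℝ) ^ 2)
    (6 / Real.pi ^ 2) := by
  have h2 : (1 : ℝ) < (2 : ℂ).re := by norm_num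
  have h1 := ArithmeticFunction.LSeries_zeta_mul_Lseries_moebius h2
  rw [ArithmeticFunction.LSeries_zeta_eq_riemannZeta h2, riemannZeta_two] at h1
  have hs := (ArithmeticFunction.LSeriesSummable_moebius_iff (s := 2)).2 h2
  have hs2 : HasSum (LSeries.term (fun n => ((ArithmeticFunction.moebius n : ℤ) : ℂ)) 2)
    (LSeries (fun n => ((ArithmeticFunction.moebius n : ℤ) : ℂ)) 2) := hs.hasSum
  have hv : LSeries (fun n => ((ArithmeticFunction.moebius n : ℤ) : ℂ)) 2 =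
      ((6 / Real.pi ^ 2 : ℝ) : ℂ) := by
    have h3 : LSeries (fun n => ((ArithmeticFunction.moebius n : ℤ) : ℂ)) 2 =
        ((Real.pi : ℂ) ^ 2 / 6)⁻¹ := by
      apply eq_inv_of_mul_eq_one_right
      exact h1
    rw [h3]; push_cast; rw [inv_div]
  rw [hv] at hs2
  have h4 : (LSeries.term (fun n => ((ArithmeticFunction.moebius n : ℤ) : ℂ)) 2) =
      fun n : ℕ => ((((ArithmeticFunction.moebius n : ℤ) : ℝ) / (n : ℝ) ^ 2 : ℝ) : ℂ) := by
    funext n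
    rw [LSeries.term_def]
    split_ifs with h
    · simp [h]
    · push_cast
      congr 1
      norm_cast
  rw [h4] at hs2
  exact Complex.hasSum_ofReal.1 hs2

/-- the partial sums of `μ(d) / d ^ 2` -/
lemma mob_part (D : ℕ) : |∑ d ∈ Icc 1 D, ((ArithmeticFunction.moebius d : ℤ) : ℝ) / (d : ℝ) ^ 2 - 6 / Real.pi ^ 2| ≤ 2 / ((D + 1 : ℕ) : ℝ) := by
  have h1 : Filter.Tendsto (fun n : ℕ => ∑ d ∈ range (n + 1), ((ArithmeticFunction.moebius d : ℤ) : ℝ) / (d : ℝ) ^ 2) Filter.atTop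
      (nhds (6 / Real.pi ^ 2)) := (mob_hs.tendsto_sum_nat).comp (Filter.tendsto_add_atTop_nat 1)
  have h2 : Filter.Tendsto (fun n : ℕ => |∑ d ∈ Icc 1 D, ((ArithmeticFunction.moebius d : ℤ) : ℝ) / (d : ℝ) ^ 2 -
      ∑ d ∈ range (n + 1), ((ArithmeticFunction.moebius d : ℤ) : ℝ) / (d : ℝ) ^ 2|) Filter.atTop
      (nhds |∑ d ∈ Icc 1 D, ((ArithmeticFunction.moebius d : ℤ) : ℝ) / (d : ℝ) ^ 2 - 6 / Real.pi ^ 2|) := (tendsto_const_nhds.sub h1).abs
  apply le_of_tendsto h2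
  filter_upwards [Filter.eventually_ge_atTop D] with n hn
  have h3 : ∑ d ∈ range (n + 1), ((ArithmeticFunction.moebius d : ℤ) : ℝ) / (d : ℝ) ^ 2 =
      ∑ d ∈ Icc 1 D, ((ArithmeticFunction.moebius d : ℤ) : ℝ) / (d : ℝ) ^ 2 +
      ∑ d ∈ Icc (D + 1) n, ((ArithmeticFunction.moebius d : ℤ) : ℝ) / (d : ℝ) ^ 2 := by
    have e1 : range (n + 1) = insert 0 (Icc 1 D ∪ Icc (D + 1) n) := by
      ext x
      rw [mem_range, mem_insert, mem_union, mem_Icc, mem_Icc]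
      omega
    rw [e1, sum_insert (by rw [mem_union, mem_Icc, mem_Icc]; omega), sum_union]
    · simp
    · rw [disjoint_left]
      intro x hx hx2
      rw [mem_Icc] at hx hx2
      omega
  rw [h3]
  have h4 : ∀ u v : ℝ, u - (u + v) = -v := fun u v => by ring
  rw [h4, abs_neg]
  refine (abs_sum_le_sum_abs _ _).trans ?_
  refine le_trans (sum_le_sum fun d _ => ?_) (sum_inv_sq' (D + 1) n (by omega))
  rw [abs_div, abs_of_nonneg (by positivity : (0 : ℝ) ≤ (d : ℝ) ^ 2)]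
  apply div_le_div_of_nonneg_right _ (by positivity)
  exact SG.abs_moebius_real_le d

/-- multiples in an interval, two sided -/
lemma mult_count2 (d Z Y a : ℕ) (hd : 1 ≤ d) : |(((Ioc Z (Z + Y)).filter (fun x => d ∣ x + a)).card : ℝ) - Y / d| ≤ 1 := by
  have h2 : ((Ioc Z (Z + Y)).filter (fun x => d ∣ x + a)).card = ((Ioc (Z + a) (Z + a + Y)).filter (fun x => d ∣ x)).card := by
    apply card_bij (fun x _ => x + a)
    · intro x hx
      rw [mem_filter, mem_Ioc] at hx ⊢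
      exact ⟨by omega, hx.2⟩
    · intro x _ y _ hxy
      omega
    · intro y hy
      rw [mem_filter, mem_Ioc] at hy
      refine ⟨y - a, ?_, by omega⟩
      rw [mem_filter, mem_Ioc, show y - a + a = y by omega]
      exact ⟨by omega, hy.2⟩
  have h3 : (Ioc (Z + a) (Z + a + Y)).filter (fun x => d ∣ x) = (Ioc ((Z + a) / d) ((Z + a + Y) / d)).image (fun t => d * t) := by
    ext x
    rw [mem_filter, mem_Ioc, mem_image]
    constructor
    · rintro ⟨⟨x1, x2⟩, t, rfl⟩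
      refine ⟨t, ?_, rfl⟩
      rw [mem_Ioc]
      constructor
      · rw [Nat.div_lt_iff_lt_mul (by omega)]
        rw [mul_comm]; exact x1
      · rw [Nat.le_div_iff_mul_le (by omega)]
        rw [mul_comm]; exact x2
    · rintro ⟨t, ht, rfl⟩
      rw [mem_Ioc] at ht
      refine ⟨⟨?_, ?_⟩, Dvd.intro _ rfl⟩
      · have := (Nat.div_lt_iff_lt_mul (by omega)).1 ht.1
        rwa [mul_comm] at this
      · have := (Nat.le_div_iff_mul_le (by omega)).1 ht.2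
        rwa [mul_comm] at this
  have h4 : ((Ioc (Z + a) (Z + a + Y)).filter (fun x => d ∣ x)).card = (Z + a + Y) / d - (Z + a) / d := by
    rw [h3, card_image_of_injective _ (fun u v huv => Nat.eq_of_mul_eq_mul_left (by omega) huv), Nat.card_Ioc]
  rw [h2, h4]
  have h6 := Nat.div_add_mod (Z + a) d
  have h7 := Nat.div_add_mod (Z + a + Y) d
  have h9 : (Z + a) % d < d := Nat.mod_lt _ (by omega)
  have h10 : (Z + a + Y) % d < d := Nat.mod_lt _ (by omega)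
  have h11 : (Z + a) / d ≤ (Z + a + Y) / d := Nat.div_le_div_right (by omega)
  have hd0 : (0 : ℝ) < d := by exact_mod_cast hd
  rw [Nat.cast_sub h11]
  have h6' : (d : ℝ) * (((Z + a) / d : ℕ) : ℝ) + (((Z + a) % d : ℕ) : ℝ) = Z + a := by exact_mod_cast h6
  have h7' : (d : ℝ) * (((Z + a + Y) / d : ℕ) : ℝ) + (((Z + a + Y) % d : ℕ) : ℝ) = Z + a + Y := by exact_mod_cast h7
  have h9' : (((Z + a) % d : ℕ) : ℝ) ≤ d := by exact_mod_cast h9.le
  have h10' : (((Z + a + Y) % d : ℕ) : ℝ) ≤ d := by exact_mod_cast h10.le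
  have p1 : (0 : ℝ) ≤ (((Z + a) % d : ℕ) : ℝ) := Nat.cast_nonneg _
  have p2 : (0 : ℝ) ≤ (((Z + a + Y) % d : ℕ) : ℝ) := Nat.cast_nonneg _
  have e1 : (((Z + a + Y) / d : ℕ) : ℝ) - (((Z + a) / d : ℕ) : ℝ) - Y / d =
      ((((Z + a) % d : ℕ) : ℝ) - (((Z + a + Y) % d : ℕ) : ℝ)) / d := by
    field_simp
    linarith
  rw [e1, abs_div, abs_of_pos hd0, div_le_one hd0, abs_le]
  constructor <;> linarith

/-- the number of the squarefree numbers in an interval -/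
lemma sqf_window (Z Y a : ℕ) (hY : 1 ≤ Y) :
    |∑ x ∈ Ioc Z (Z + Y), muR (x + a) ^ 2 - 6 / Real.pi ^ 2 * Y| ≤ 5 * √((Z + Y + a : ℕ) : ℝ) := by
  classical
  obtain ⟨D, hD⟩ : ∃ D, D = Nat.sqrt (Z + Y + a) := ⟨_, rfl⟩
  have h1 : ∀ x ∈ Ioc Z (Z + Y), muR (x + a) ^ 2 = ∑ d ∈ Icc 1 D, if d ^ 2 ∣ x + a then ((ArithmeticFunction.moebius d : ℤ) : ℝ) else 0 := by
    intro x hx
    rw [mem_Ioc] at hx
    unfold muR
    rw [SG.moebius_sq_eq (x + a) (by omega)]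
    rw [← sum_filter, ← sum_filter]
    apply sum_congr _ (fun _ _ => rfl)
    ext d
    rw [mem_filter, mem_filter, mem_Icc, mem_Icc]
    constructor
    · rintro ⟨⟨d1, d2⟩, d3⟩
      refine ⟨⟨d1, ?_⟩, d3⟩
      rw [hD, Nat.le_sqrt']
      exact (Nat.le_of_dvd (by omega) d3).trans (by omega)
    · rintro ⟨⟨d1, d2⟩, d3⟩
      refine ⟨⟨d1, ?_⟩, d3⟩
      calc d = d * 1 := (mul_one _).symm
        _ ≤ d * d := Nat.mul_le_mul_left _ d1
        _ = d ^ 2 := by ring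
        _ ≤ _ := Nat.le_of_dvd (by omega) d3
  rw [sum_congr rfl h1, sum_comm]
  have h2 : ∀ d ∈ Icc 1 D, ∑ x ∈ Ioc Z (Z + Y), (if d ^ 2 ∣ x + a then ((ArithmeticFunction.moebius d : ℤ) : ℝ) else 0) =
      ((ArithmeticFunction.moebius d : ℤ) : ℝ) * (((Ioc Z (Z + Y)).filter (fun x => d ^ 2 ∣ x + a)).card : ℝ) := by
    intro d _
    rw [← sum_filter, sum_const, nsmul_eq_mul, mul_comm]
  rw [sum_congr rfl h2]
  have h3 : ∑ d ∈ Icc 1 D, ((ArithmeticFunction.moebius d : ℤ) : ℝ) * (((Ioc Z (Z + Y)).filter (fun x => d ^ 2 ∣ x + a)).card : ℝ) -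
      6 / Real.pi ^ 2 * Y = ∑ d ∈ Icc 1 D, ((ArithmeticFunction.moebius d : ℤ) : ℝ) *
        ((((Ioc Z (Z + Y)).filter (fun x => d ^ 2 ∣ x + a)).card : ℝ) - Y / (d : ℝ) ^ 2) +
      Y * (∑ d ∈ Icc 1 D, ((ArithmeticFunction.moebius d : ℤ) : ℝ) / (d : ℝ) ^ 2 - 6 / Real.pi ^ 2) := by
    rw [mul_sub, mul_sum]
    have : ∑ d ∈ Icc 1 D, ((ArithmeticFunction.moebius d : ℤ) : ℝ) * (((Ioc Z (Z + Y)).filter (fun x => d ^ 2 ∣ x + a)).card : ℝ) =
        ∑ d ∈ Icc 1 D, ((ArithmeticFunction.moebius d : ℤ) : ℝ) *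
        ((((Ioc Z (Z + Y)).filter (fun x => d ^ 2 ∣ x + a)).card : ℝ) - Y / (d : ℝ) ^ 2) +
        ∑ d ∈ Icc 1 D, (Y : ℝ) * (((ArithmeticFunction.moebius d : ℤ) : ℝ) / (d : ℝ) ^ 2) := by
      rw [← sum_add_distrib]
      apply sum_congr rfl
      intro d _
      ring
    rw [this]
    ring
  rw [h3]
  obtain ⟨R, hR⟩ : ∃ R : ℝ, R = √((Z + Y + a : ℕ) : ℝ) := ⟨_, rfl⟩
  have hT : (1 : ℝ) ≤ ((Z + Y + a : ℕ) : ℝ) := by exact_mod_cast (by omega : 1 ≤ Z + Y + a)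
  have hR1 : 1 ≤ R := by rw [hR]; exact Real.one_le_sqrt.2 hT
  have hRsq : R * R = ((Z + Y + a : ℕ) : ℝ) := by rw [hR]; exact Real.mul_self_sqrt (by positivity)
  have hDR : (D : ℝ) ≤ R := by
    rw [hR]
    apply Real.le_sqrt_of_sq_le
    have : D ^ 2 ≤ Z + Y + a := by rw [hD]; exact Nat.sqrt_le' _
    exact_mod_cast this
  have hRD : R ≤ ((D + 1 : ℕ) : ℝ) := by
    rw [hR, Real.sqrt_le_left (by positivity)]
    have : Z + Y + a < (D + 1) ^ 2 := by rw [hD]; exact Nat.lt_succ_sqrt' _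
    exact_mod_cast this.le
  have h4 : |∑ d ∈ Icc 1 D, ((ArithmeticFunction.moebius d : ℤ) : ℝ) *
        ((((Ioc Z (Z + Y)).filter (fun x => d ^ 2 ∣ x + a)).card : ℝ) - Y / (d : ℝ) ^ 2)| ≤ D := by
    refine (abs_sum_le_sum_abs _ _).trans ?_
    have : ∀ d ∈ Icc 1 D, |((ArithmeticFunction.moebius d : ℤ) : ℝ) *
        ((((Ioc Z (Z + Y)).filter (fun x => d ^ 2 ∣ x + a)).card : ℝ) - Y / (d : ℝ) ^ 2)| ≤ 1 := by
      intro d hd
      rw [mem_Icc] at hd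
      rw [abs_mul]
      have h5 := mult_count2 (d ^ 2) Z Y a (Nat.one_le_pow _ _ (by omega))
      push_cast at h5
      exact mul_le_one₀ (SG.abs_moebius_real_le d) (abs_nonneg _) h5
    refine (sum_le_sum this).trans ?_
    rw [sum_const, Nat.card_Icc, nsmul_eq_mul, mul_one]
    simp
  have h5 : |(Y : ℝ) * (∑ d ∈ Icc 1 D, ((ArithmeticFunction.moebius d : ℤ) : ℝ) / (d : ℝ) ^ 2 - 6 / Real.pi ^ 2)| ≤ 2 * R := by
    rw [abs_mul, Nat.abs_cast]
    calc (Y : ℝ) * |∑ d ∈ Icc 1 D, ((ArithmeticFunction.moebius d : ℤ) : ℝ) / (d : ℝ) ^ 2 - 6 / Real.pi ^ 2| ≤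
        Y * (2 / ((D + 1 : ℕ) : ℝ)) := mul_le_mul_of_nonneg_left (mob_part D) (Nat.cast_nonneg _)
      _ ≤ Y * (2 / R) := by
          apply mul_le_mul_of_nonneg_left _ (Nat.cast_nonneg _)
          exact div_le_div_of_nonneg_left (by norm_num) (by linarith) hRD
      _ ≤ (R * R) * (2 / R) := by
          apply mul_le_mul_of_nonneg_right _ (by positivity)
          rw [hRsq]
          exact_mod_cast (by omega : Y ≤ Z + Y + a)
      _ = 2 * R := by field_simp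
  have h6 := abs_add_le (∑ d ∈ Icc 1 D, ((ArithmeticFunction.moebius d : ℤ) : ℝ) *
        ((((Ioc Z (Z + Y)).filter (fun x => d ^ 2 ∣ x + a)).card : ℝ) - Y / (d : ℝ) ^ 2))
      ((Y : ℝ) * (∑ d ∈ Icc 1 D, ((ArithmeticFunction.moebius d : ℤ) : ℝ) / (d : ℝ) ^ 2 - 6 / Real.pi ^ 2))
  rw [← hR]
  linarith

end Pool.Agent.Y885
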