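import Pool.Agent.Y885.GW2

set_option autoImplicit false
set_option linter.all false

/-!
# GW3: near orthogonality of the shifts of the Moebius function by few elements of arbitrary sets
-/

namespace Pool.Agent.Y885

open Finset Pool.Agent.H373R2.T7

lemma sum_Ioc_sub (F : ℕ → ℂ) (Z Y : ℕ) : ∑ x ∈ Ioc Z (Z + Y), F x = ∑ x ∈ Icc 1 (Z + Y), F x - ∑ x ∈ Icc 1 Z, F x := by
  have h1 : Icc 1 (Z + Y) = Ioc 0 (Z + Y) := by ext x; rw [mem_Icc, mem_Ioc]; omega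
  have h2 : Icc 1 Z = Ioc 0 Z := by ext x; rw [mem_Icc, mem_Ioc]; omega
  rw [h1, h2, eq_sub_iff_add_eq', sum_Ioc_consecutive F (Nat.zero_le Z) (Nat.le_add_right Z Y)]

lemma muR_abs' (n : ℕ) : |muR n| ≤ 1 := by
  unfold muR
  exact SG.abs_moebius_real_le n

/-- the shifted sets: all pair correlations are small -/
theorem gw_pairs (l κ U : ℕ) (hl : 2 ≤ l) : ∃ C : ℝ, ∀ H B : ℕ, ∃ N₀ : ℕ, ∀ A : ℕ → Set ℕ,
    (∀ j, ∀ x : ℕ, 1 ≤ x → ∃ a ∈ A j, x ≤ a ∧ a ≤ l * x) → ∀ N : ℕ, N₀ ≤ N → ∀ h : ℕ → ℕ, (∀ j, h j ≤ B * N) →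
    ∃ S : ℕ → Finset ℕ, (∀ j, ∀ a ∈ S j, a ∈ A j ∧ Real.log N ^ H ≤ a ∧ (a : ℝ) ≤ N / Real.log N ^ H) ∧
      (∀ j, ((S j).card : ℝ) ≤ C * Real.log (Real.log N) ^ 2) ∧ (∀ j, ∑ a ∈ S j, a ≤ N) ∧
      ∀ i j : ℕ, i < j → (j : ℝ) ≤ Real.log N ^ κ → ∀ Z Y : ℕ, Z + Y ≤ N →
        |∑ x ∈ Ioc Z (Z + Y), muR (x + (h i + ∑ a ∈ S i, a)) * muR (x + (h j + ∑ a ∈ S j, a))| ≤ 2 * (N / Real.log N ^ U) := by
  classical
  obtain ⟨C, hC⟩ := las_fineF l 1 κ U hl le_rfl muR fine_mu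
  refine ⟨|C|, fun H B => ?_⟩
  obtain ⟨N₀, h0⟩ := hC H (B + 1)
  refine ⟨N₀ + 3, fun A hA N hN h hh => ?_⟩
  obtain ⟨f, hf⟩ := seq_choice (∅ : Finset ℕ) (fun j f S =>
    (∀ a ∈ S, a ∈ A j ∧ Real.log N ^ H ≤ a ∧ (a : ℝ) ≤ N / Real.log N ^ H) ∧
      ((S.card : ℝ) ≤ |C| * Real.log (Real.log N) ^ 2) ∧ ∑ a ∈ S, a ≤ N ∧
      ((j : ℝ) ≤ Real.log N ^ κ → ∀ i < j, ∀ Z Y : ℕ, Z + Y ≤ N →
        |∑ x ∈ Ioc Z (Z + Y), muR (x + (h i + ∑ a ∈ f i, a)) * muR (x + (h j + ∑ a ∈ S, a))| ≤ 2 * (N / Real.log N ^ U)))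
    (by
      intro j f g S hfg hP
      refine ⟨hP.1, hP.2.1, hP.2.2.1, fun hj i hi Z Y hZ => ?_⟩
      rw [← hfg i hi]
      exact hP.2.2.2 hj i hi Z Y hZ)
    (by
      intro j f
      by_cases hj : (j : ℝ) ≤ Real.log N ^ κ
      · obtain ⟨S, s1, s2, s3, s4, s5⟩ := h0 (A j) (hA j) N (by omega) (h j) ((hh j).trans (Nat.mul_le_mul_right _ (by omega))) ℕ (range j)
          (by rw [card_range]; exact hj) (fun i n => ((muR (n + (h i + ∑ a ∈ f i, a)) : ℝ) : ℂ)) (fun i _ n => by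
            rw [Complex.norm_real, Real.norm_eq_abs]; exact muR_abs' _)
        refine ⟨S, s1, s2.trans (mul_le_mul_of_nonneg_right (le_abs_self C) (by positivity)), s4, fun _ i hi Z Y hZ => ?_⟩
        have hN1 : N ≤ (B + 1) * N := Nat.le_mul_of_pos_left _ (by omega)
        have t1 := s5 i (mem_range.2 hi) (Z + Y) (hZ.trans hN1)
        have t2 := s5 i (mem_range.2 hi) Z ((by omega : Z ≤ N).trans hN1)
        have t3 : ((∑ x ∈ Ioc Z (Z + Y), muR (x + (h i + ∑ a ∈ f i, a)) * muR (x + (h j + ∑ a ∈ S, a)) : ℝ) : ℂ) =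
            ∑ n ∈ Icc 1 (Z + Y), ((muR (n + (h i + ∑ a ∈ f i, a)) : ℝ) : ℂ) * ((muR (n + (h j + ∑ a ∈ S, a)) : ℝ) : ℂ) -
            ∑ n ∈ Icc 1 Z, ((muR (n + (h i + ∑ a ∈ f i, a)) : ℝ) : ℂ) * ((muR (n + (h j + ∑ a ∈ S, a)) : ℝ) : ℂ) := by
          push_cast
          exact sum_Ioc_sub _ Z Y
        rw [← Real.norm_eq_abs, ← Complex.norm_real, t3]
        exact (norm_sub_le _ _).trans (by linarith)
      · refine ⟨∅, ?_, ?_, ?_, fun h => absurd h hj⟩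
        · intro a ha
          exact absurd ha (notMem_empty a)
        · rw [card_empty]; push_cast; positivity
        · simp)
  refine ⟨f, fun j => (hf j).1, fun j => (hf j).2.1, fun j => (hf j).2.2.1, fun i j hij hj Z Y hZ => (hf j).2.2.2 hj i hij Z Y hZ⟩

/-- the quadratic form -/
lemma quad_form (J : Finset ℕ) (Om : Finset ℕ) (f : ℕ → ℕ → ℝ) (c : ℕ → ℝ) (V E₁ E₂ : ℝ) (hE₂ : 0 ≤ E₂)
    (h1 : ∀ j ∈ J, |∑ x ∈ Om, f x j ^ 2 - V| ≤ E₁)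
    (h2 : ∀ i ∈ J, ∀ j ∈ J, i ≠ j → |∑ x ∈ Om, f x i * f x j| ≤ E₂) :
    |∑ x ∈ Om, (∑ j ∈ J, c j * f x j) ^ 2 - V * ∑ j ∈ J, c j ^ 2| ≤ (∑ j ∈ J, c j ^ 2) * (E₁ + J.card * E₂) := by
  have e1 : ∀ x, (∑ j ∈ J, c j * f x j) ^ 2 = ∑ i ∈ J, ∑ j ∈ J, c i * c j * (f x i * f x j) := by
    intro x
    rw [sq, sum_mul_sum]
    apply sum_congr rfl
    intro i _
    apply sum_congr rfl
    intro j _
    ring
  have e2 : ∑ x ∈ Om, (∑ j ∈ J, c j * f x j) ^ 2 = ∑ i ∈ J, ∑ j ∈ J, c i * c j * ∑ x ∈ Om, f x i * f x j := by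
    rw [sum_congr rfl (fun x _ => e1 x), sum_comm]
    apply sum_congr rfl
    intro i _
    rw [sum_comm]
    apply sum_congr rfl
    intro j _
    rw [mul_sum]
  have e3 : V * ∑ j ∈ J, c j ^ 2 = ∑ i ∈ J, ∑ j ∈ J, c i * c j * (if i = j then V else 0) := by
    rw [mul_sum]
    apply sum_congr rfl
    intro i hi
    simp only [mul_ite, mul_zero, sum_ite_eq, hi, if_true]
    ring
  rw [e2, e3, ← sum_sub_distrib]
  have e4 : ∀ i ∈ J, |∑ j ∈ J, c i * c j * ∑ x ∈ Om, f x i * f x j - ∑ j ∈ J, c i * c j * (if i = j then V else 0)| ≤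
      ∑ j ∈ J, |c i| * |c j| * ((if i = j then E₁ else 0) + E₂) := by
    intro i hi
    rw [← sum_sub_distrib]
    refine (abs_sum_le_sum_abs _ _).trans (sum_le_sum fun j hj => ?_)
    rw [← mul_sub, abs_mul, abs_mul]
    apply mul_le_mul_of_nonneg_left _ (by positivity)
    by_cases hij : i = j
    · rw [if_pos hij, if_pos hij, ← hij]
      have := h1 i hi
      have e5 : ∑ x ∈ Om, f x i * f x i = ∑ x ∈ Om, f x i ^ 2 := sum_congr rfl fun x _ => (sq _).symm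
      rw [e5]
      linarith
    · rw [if_neg hij, if_neg hij, sub_zero, zero_add]
      exact h2 i hi j hj hij
  refine (abs_sum_le_sum_abs _ _).trans ((sum_le_sum e4).trans ?_)
  have e6 : ∑ i ∈ J, ∑ j ∈ J, |c i| * |c j| * ((if i = j then E₁ else 0) + E₂) =
      E₁ * ∑ j ∈ J, c j ^ 2 + E₂ * (∑ j ∈ J, |c j|) ^ 2 := by
    rw [sq, sum_mul_sum, mul_sum, mul_sum, ← sum_add_distrib]
    apply sum_congr rfl
    intro i hi
    rw [mul_sum]
    have : ∀ j ∈ J, |c i| * |c j| * ((if i = j then E₁ else 0) + E₂) = (if i = j then |c i| * |c j| * E₁ else 0) + E₂ * (|c i| * |c j|) := by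
      intro j _
      split_ifs <;> ring
    rw [sum_congr rfl this, sum_add_distrib]
    congr 1
    simp only [sum_ite_eq, hi, if_true]
    rw [← sq, sq_abs]
    ring
  rw [e6]
  have e7 : (∑ j ∈ J, |c j|) ^ 2 ≤ J.card * ∑ j ∈ J, c j ^ 2 := by
    have := sq_sum_le_card_mul_sum_sq (s := J) (f := fun j => |c j|)
    simp only [sq_abs] at this
    exact this
  nlinarith [mul_le_mul_of_nonneg_left e7 hE₂]

/-- **near orthogonality** -/
theorem gw_orth (l κ U : ℕ) (hl : 2 ≤ l) : ∃ C : ℝ, ∀ H B : ℕ, ∃ N₀ : ℕ, ∀ A : ℕ → Set ℕ,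
    (∀ j, ∀ x : ℕ, 1 ≤ x → ∃ a ∈ A j, x ≤ a ∧ a ≤ l * x) → ∀ N : ℕ, N₀ ≤ N → ∀ h : ℕ → ℕ, (∀ j, h j ≤ B * N) →
    ∃ S : ℕ → Finset ℕ, (∀ j, ∀ a ∈ S j, a ∈ A j ∧ Real.log N ^ H ≤ a ∧ (a : ℝ) ≤ N / Real.log N ^ H) ∧
      (∀ j, ((S j).card : ℝ) ≤ C * Real.log (Real.log N) ^ 2) ∧
      ∀ J : Finset ℕ, (∀ j ∈ J, (j : ℝ) ≤ Real.log N ^ κ) → ∀ c : ℕ → ℝ,
      ∀ Z Y : ℕ, Z + Y ≤ N → (N : ℝ) ≤ Y * Real.log N ^ κ →
        |(∑ x ∈ Ioc Z (Z + Y), (∑ j ∈ J, c j * muR (x + (h j + ∑ a ∈ S j, a))) ^ 2) / Y - 6 / Real.pi ^ 2 * ∑ j ∈ J, c j ^ 2| ≤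
          (∑ j ∈ J, c j ^ 2) / Real.log N ^ U := by
  classical
  obtain ⟨C, hC⟩ := gw_pairs l κ (U + 2 * κ + 1) hl
  refine ⟨C, fun H B => ?_⟩
  obtain ⟨N₀, h0⟩ := hC H B
  obtain ⟨n1, h1⟩ := ev_L' 16
  obtain ⟨n2, h2⟩ := ev_log' (2 * (U + κ)) (200 * (B + 2))
  refine ⟨N₀ + n1 + n2 + 3, fun A hA N hN h hh => ?_⟩
  obtain ⟨S, s1, s2, s3, s4⟩ := h0 A hA N (by omega) h hh
  refine ⟨S, s1, s2, fun J hJ c Z Y hZY hY => ?_⟩
  obtain ⟨L, hLd⟩ : ∃ L, L = Real.log (N : ℝ) := ⟨_, rfl⟩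
  have hL1 := h1 N (by omega)
  have hL2 := h2 N (by omega)
  rw [← hLd] at hL1 hL2 s4 hJ hY ⊢
  have hN0 : (0 : ℝ) < N := by exact_mod_cast (by omega : 0 < N)
  have hL0 : 0 < L := by linarith
  have hY1 : 1 ≤ Y := by
    rcases Nat.eq_zero_or_pos Y with h | h
    · rw [h] at hY; push_cast at hY; linarith
    · exact h
  have hY0 : (0 : ℝ) < Y := by exact_mod_cast hY1
  have hq := quad_form J (Ioc Z (Z + Y)) (fun x j => muR (x + (h j + ∑ a ∈ S j, a))) c (6 / Real.pi ^ 2 * Y)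
    (5 * √(((B + 2) * N : ℕ) : ℝ)) (2 * (N / L ^ (U + 2 * κ + 1))) (by positivity)
    (by
      intro j _
      refine (sqf_window Z Y _ hY1).trans ?_
      apply mul_le_mul_of_nonneg_left _ (by norm_num)
      apply Real.sqrt_le_sqrt
      have := hh j
      have := s3 j
      have e : (B + 2) * N = B * N + 2 * N := by ring
      exact_mod_cast (by omega : Z + Y + (h j + ∑ a ∈ S j, a) ≤ (B + 2) * N))
    (by
      intro i hi j hj hij
      rcases Nat.lt_or_ge i j with h | h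
      · exact s4 i j h (hJ j hj) Z Y hZY
      · have := s4 j i (by omega) (hJ i hi) Z Y hZY
        refine le_trans (le_of_eq ?_) this
        congr 1
        exact sum_congr rfl fun x _ => mul_comm _ _)
  have e1 : (∑ x ∈ Ioc Z (Z + Y), (∑ j ∈ J, c j * muR (x + (h j + ∑ a ∈ S j, a))) ^ 2) / Y - 6 / Real.pi ^ 2 * ∑ j ∈ J, c j ^ 2 =
      (∑ x ∈ Ioc Z (Z + Y), (∑ j ∈ J, c j * muR (x + (h j + ∑ a ∈ S j, a))) ^ 2 - 6 / Real.pi ^ 2 * Y * ∑ j ∈ J, c j ^ 2) / Y := by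
    field_simp
  rw [e1, abs_div, abs_of_pos hY0, div_le_iff₀ hY0]
  refine hq.trans ?_
  have hc0 : 0 ≤ ∑ j ∈ J, c j ^ 2 := sum_nonneg fun _ _ => sq_nonneg _
  have hcard : (J.card : ℝ) ≤ 2 * L ^ κ := by
    have e2 : J ⊆ range (⌊L ^ κ⌋₊ + 1) := by
      intro j hj
      rw [mem_range]
      exact Nat.lt_succ_of_le (Nat.le_floor (hJ j hj))
    have e3 := card_le_card e2
    rw [card_range] at e3
    have e4 : (⌊L ^ κ⌋₊ : ℝ) ≤ L ^ κ := Nat.floor_le (by positivity)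
    have e5 : (1 : ℝ) ≤ L ^ κ := one_le_pow₀ (by linarith)
    have e6 : (J.card : ℝ) ≤ ((⌊L ^ κ⌋₊ + 1 : ℕ) : ℝ) := by exact_mod_cast e3
    push_cast at e6
    linarith
  have hE2 : (J.card : ℝ) * (2 * (N / L ^ (U + 2 * κ + 1))) ≤ Y / L ^ U / 2 := by
    calc (J.card : ℝ) * (2 * (N / L ^ (U + 2 * κ + 1))) ≤ (2 * L ^ κ) * (2 * ((Y * L ^ κ) / L ^ (U + 2 * κ + 1))) := by
          apply mul_le_mul hcard _ (by positivity) (by positivity)
          apply mul_le_mul_of_nonneg_left _ (by norm_num)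
          exact div_le_div_of_nonneg_right hY (by positivity)
      _ = 4 * Y / (L ^ U * L) := by
          rw [show U + 2 * κ + 1 = U + 1 + κ + κ by ring, pow_add, pow_add, pow_add, pow_one]
          field_simp
          ring
      _ ≤ Y / L ^ U / 2 := by
          rw [div_div, div_le_div_iff₀ (by positivity) (by positivity)]
          have : 0 < (Y : ℝ) * L ^ U := by positivity
          nlinarith
  have hE1 : 5 * √(((B + 2) * N : ℕ) : ℝ) ≤ Y / L ^ U / 2 := by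
    have e2 : √(((B + 2) * N : ℕ) : ℝ) ≤ (B + 2) * √N := by
      push_cast
      rw [Real.sqrt_mul (by positivity)]
      apply mul_le_mul_of_nonneg_right _ (Real.sqrt_nonneg _)
      rw [Real.sqrt_le_left (by positivity)]
      have : (1 : ℝ) ≤ B + 2 := by have : (0 : ℝ) ≤ B := Nat.cast_nonneg _; linarith
      nlinarith
    have e3 : (200 * (B + 2) : ℝ) * L ^ (U + κ) ≤ √N := by
      refine le_trans ?_ hL2
      push_cast
      apply mul_le_mul_of_nonneg_left _ (by positivity)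
      exact pow_le_pow_right₀ (by linarith) (by omega)
    have e4 : √(N : ℝ) * √N = N := Real.mul_self_sqrt hN0.le
    have e5 : (N : ℝ) / L ^ κ ≤ Y := by
      rw [div_le_iff₀ (by positivity)]
      exact hY
    have e6 : 5 * ((B + 2) * √N) ≤ N / L ^ κ / L ^ U / 2 := by
      rw [div_div, div_div, le_div_iff₀ (by positivity)]
      calc 5 * ((B + 2) * √N) * (L ^ κ * (L ^ U * 2)) = 10 * (B + 2) * L ^ (U + κ) * √N := by rw [pow_add]; ring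
        _ ≤ √N * √N := by
            apply mul_le_mul_of_nonneg_right _ (Real.sqrt_nonneg _)
            have : 0 ≤ (B + 2 : ℝ) * L ^ (U + κ) := by positivity
            nlinarith
        _ = N := e4
    calc 5 * √(((B + 2) * N : ℕ) : ℝ) ≤ 5 * ((B + 2) * √N) := by linarith
      _ ≤ N / L ^ κ / L ^ U / 2 := e6
      _ ≤ Y / L ^ U / 2 := by
          apply div_le_div_of_nonneg_right _ (by norm_num)
          exact div_le_div_of_nonneg_right e5 (by positivity)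
  calc (∑ j ∈ J, c j ^ 2) * (5 * √(((B + 2) * N : ℕ) : ℝ) + J.card * (2 * (N / L ^ (U + 2 * κ + 1)))) ≤
      (∑ j ∈ J, c j ^ 2) * (Y / L ^ U) := by
        apply mul_le_mul_of_nonneg_left _ hc0
        linarith
    _ = (∑ j ∈ J, c j ^ 2) / L ^ U * Y := by ring

end Pool.Agent.Y885
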