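import Pool.Agent.Y862.GM.Asm
import Pool.Agent.Y968.GM.Sq
import Pool.Agent.Y672.GM.Equi
import Pool.Agent.Y954.GM.Cos

set_option autoImplicit false
set_option linter.all false

/-!
# GW4: products of cosines over the numbers without small square divisors (after helper862, project GM)
-/

namespace Pool.Agent.Y885

open Finset Pool.Agent.Y862.GM

theorem cos_part (k : ℕ) (hk : 1 ≤ k) (T δ : ℝ) (hT : 1 ≤ T) (hδ : 0 < δ) :
    ∃ A : ℕ, ∀ z b Z Y : ℕ, A ≤ z → A ≤ b → A * z ≤ Y → 0 < Y → ∀ w : Fin k → ℝ, (∀ i, |w i| ≤ T) →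
      |∑ x ∈ Ioc Z (Z + Y), ∏ u ∈ Ioc 0 (k * b), Real.cos (wt w b (√(6 * b / Real.pi ^ 2)) u * mu z (x + u) ^ 2) -
        Y * Real.exp (-(∑ i, w i ^ 2) / 2)| ≤ δ * Y := by
  obtain ⟨b0, η, hη, hcos⟩ := Pool.Agent.Y954.GM.t_COS k T (δ / 2) (by positivity)
  have hk' : (1 : ℝ) ≤ k := by exact_mod_cast hk
  obtain ⟨A1, hA1⟩ := Pool.Agent.Y968.GM.t_SQ Pool.Agent.Y672.GM.t_EQUI (η * δ / (4 * k)) (by positivity)
  refine ⟨b0 + A1 + 10, ?_⟩
  intro y b Z Y hy hb hyY hY w hw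
  obtain ⟨Om, hOm⟩ : ∃ Om, Om = Ioc Z (Z + Y) := ⟨_, rfl⟩
  have hcard : (Om.card : ℝ) = Y := by
    rw [hOm, Nat.card_Ioc]
    congr 1
    omega
  have hY0 : (0 : ℝ) < Y := by exact_mod_cast hY
  obtain ⟨hσ, hσ2, hσsq⟩ := sigma_facts b (by omega)
  obtain ⟨σ, hσdef⟩ : ∃ σ, σ = √(6 * b / Real.pi ^ 2) := ⟨_, rfl⟩
  obtain ⟨v, hv⟩ : ∃ v, v = wt w b σ := ⟨_, rfl⟩
  have hP : ∀ x, ∏ h ∈ Ioc 0 (k * b), Real.cos (v h * mu y (x + h) ^ 2) =
      ∏ i : Fin k, Real.cos (w i / √(6 * b / Real.pi ^ 2)) ^ qn y x (i * b) b := by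
    intro x
    rw [prod_blocks, ← hσdef]
    apply Finset.prod_congr rfl
    intro i _
    rw [← prod_cos]
    apply Finset.prod_congr rfl
    intro u hu
    rw [hv, wt_block w b σ i u hu]
  obtain ⟨E, hE⟩ : ∃ E, E = Real.exp (-(∑ i, w i ^ 2) / 2) := ⟨_, rfl⟩
  have hE0 : 0 ≤ E := by rw [hE]; exact (Real.exp_pos _).le
  have hE1 : E ≤ 1 := by
    rw [hE, Real.exp_le_one_iff]
    have : 0 ≤ ∑ i, w i ^ 2 := Finset.sum_nonneg fun i _ => sq_nonneg _
    linarith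
  have hcosx : ∀ x, |∏ i : Fin k, Real.cos (w i / √(6 * b / Real.pi ^ 2)) ^ qn y x (i * b) b - E| ≤
      δ / 2 + ∑ i : Fin k, 2 / η * |(∑ n ∈ Ioc (x + i * b) (x + i * b + b), mu y n ^ 2) / b -
        6 / Real.pi ^ 2| := by
    intro x
    by_cases hx : ∀ i : Fin k, |(qn y x (i * b) b : ℝ) / b - 6 / Real.pi ^ 2| ≤ η
    · have h1 := hcos b (by omega) w hw (fun i => qn y x (i * b) b) hx
      rw [← hE] at h1
      refine h1.trans ?_
      have : 0 ≤ ∑ i : Fin k, 2 / η * |(∑ n ∈ Ioc (x + i * b) (x + i * b + b), mu y n ^ 2) / b -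
        6 / Real.pi ^ 2| := Finset.sum_nonneg fun i _ => by positivity
      linarith
    · push Not at hx
      obtain ⟨i, hi⟩ := hx
      rw [qn_eq] at hi
      have h1 : |∏ i : Fin k, Real.cos (w i / √(6 * b / Real.pi ^ 2)) ^ qn y x (i * b) b| ≤ 1 := by
        rw [Finset.abs_prod]
        apply Finset.prod_le_one (fun _ _ => abs_nonneg _)
        intro j _
        rw [abs_pow]
        exact pow_le_one₀ (abs_nonneg _) (Real.abs_cos_le_one _)
      have h2 : |∏ i : Fin k, Real.cos (w i / √(6 * b / Real.pi ^ 2)) ^ qn y x (i * b) b - E| ≤ 2 := by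
        have := abs_sub (∏ i : Fin k, Real.cos (w i / √(6 * b / Real.pi ^ 2)) ^ qn y x (i * b) b) E
        rw [abs_of_nonneg hE0] at this
        linarith
      have h3 : 2 ≤ 2 / η * |(∑ n ∈ Ioc (x + i * b) (x + i * b + b), mu y n ^ 2) / b -
          6 / Real.pi ^ 2| := by
        rw [div_mul_eq_mul_div, le_div_iff₀ hη]
        linarith
      have h4 := Finset.single_le_sum (f := fun i : Fin k => 2 / η *
        |(∑ n ∈ Ioc (x + i * b) (x + i * b + b), mu y n ^ 2) / b - 6 / Real.pi ^ 2|)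
        (fun i _ => by positivity) (mem_univ i)
      have h5 : (0 : ℝ) ≤ δ / 2 := by positivity
      linarith
  have h1 : Y * E = ∑ _x ∈ Om, E := by rw [Finset.sum_const, nsmul_eq_mul, hcard]
  rw [← hOm, ← hE, h1, ← hσdef, ← hv, ← Finset.sum_sub_distrib]
  refine (Finset.abs_sum_le_sum_abs _ _).trans ?_
  have h2 : ∀ x ∈ Om, |∏ h ∈ Ioc 0 (k * b), Real.cos (v h * mu y (x + h) ^ 2) - E| ≤
      δ / 2 + ∑ i : Fin k, 2 / η * |(∑ n ∈ Ioc (x + i * b) (x + i * b + b), mu y n ^ 2) / b -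
      6 / Real.pi ^ 2| := fun x _ => by rw [hP x]; exact hcosx x
  refine (Finset.sum_le_sum h2).trans ?_
  rw [Finset.sum_add_distrib, Finset.sum_const, nsmul_eq_mul, hcard, Finset.sum_comm]
  have h3 : ∀ i : Fin k, ∑ x ∈ Om, 2 / η * |(∑ n ∈ Ioc (x + i * b) (x + i * b + b), mu y n ^ 2) / b -
      6 / Real.pi ^ 2| ≤ 2 / η * (η * δ / (4 * k) * Y) := by
    intro i
    rw [← Finset.mul_sum]
    apply mul_le_mul_of_nonneg_left _ (by positivity)
    have hA1y : A1 * y ≤ Y := le_trans (Nat.mul_le_mul_right _ (by omega)) hyY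
    have h7 := hA1 y b (Z + i * b) Y (by omega) (by omega) hA1y
    refine le_trans (le_of_eq ?_) h7
    rw [hOm]
    have e1 := sum_shift ((i : ℕ) * b) Z Y (fun x => |(∑ n ∈ Ioc x (x + b), mu y n ^ 2) / b -
      6 / Real.pi ^ 2|)
    rw [show (i : ℕ) * b + Z = Z + i * b by ring] at e1
    rw [← e1]
    apply Finset.sum_congr rfl
    intro x _
    rw [show x + (i : ℕ) * b = i * b + x by ring]
  refine (add_le_add le_rfl (Finset.sum_le_sum fun i _ => h3 i)).trans ?_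
  rw [Finset.sum_const, card_univ, Fintype.card_fin, nsmul_eq_mul]
  apply le_of_eq
  have : (k : ℝ) ≠ 0 := by linarith
  field_simp
  ring

end Pool.Agent.Y885
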