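import Pool.Agent.Y885.GW3
import Pool.Agent.Y885.GW4

set_option autoImplicit false
set_option linter.all false

/-!
# GW5: the hybrid argument: the values of the Moebius function are replaced by random signs one by one
-/

namespace Pool.Agent.Y885

open Finset Pool.Agent.H373R2.T7
open Pool.Agent.Y862.GM (mu muP pr wt sum_blocks sigma_facts wt_block wt_bound mu_vals)

noncomputable def exW (v f : ℕ → ℝ) (a b : ℕ) : ℂ := ∏ u ∈ Ioc a b, Complex.exp (Complex.I * ((v u * f u : ℝ) : ℂ))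

noncomputable def csW (v q : ℕ → ℝ) (a b : ℕ) : ℂ := ∏ u ∈ Ioc a b, ((Real.cos (v u * q u) : ℝ) : ℂ)

lemma exW_norm (v f : ℕ → ℝ) (a b : ℕ) : ‖exW v f a b‖ ≤ 1 := by
  unfold exW
  rw [norm_prod]
  apply prod_le_one (fun _ _ => norm_nonneg _)
  intro u _
  rw [mul_comm, Complex.norm_exp_ofReal_mul_I]

lemma csW_norm (v q : ℕ → ℝ) (a b : ℕ) : ‖csW v q a b‖ ≤ 1 := by
  unfold csW
  rw [norm_prod]
  apply prod_le_one (fun _ _ => norm_nonneg _)
  intro u _
  rw [Complex.norm_real]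
  exact Real.abs_cos_le_one _

lemma exp_split (v f : ℝ) (hf : f ^ 3 = f) : Complex.exp (Complex.I * ((v * f : ℝ) : ℂ)) =
    ((Real.cos (v * f ^ 2) : ℝ) : ℂ) + Complex.I * ((Real.sin v : ℝ) : ℂ) * ((f : ℝ) : ℂ) := by
  have h : f = 0 ∨ f = 1 ∨ f = -1 := by
    have h2 : f * ((f - 1) * (f + 1)) = 0 := by linear_combination hf
    rcases mul_eq_zero.1 h2 with h | h
    · exact Or.inl h
    · rcases mul_eq_zero.1 h with h | h
      · exact Or.inr (Or.inl (by linarith))
      · exact Or.inr (Or.inr (by linarith))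
  rcases h with h | h | h
  · rw [h]; simp
  · rw [h, mul_one, one_pow, mul_one, mul_comm, Complex.exp_mul_I]
    push_cast
    ring
  · rw [h, mul_comm, Complex.exp_mul_I]
    push_cast
    rw [mul_neg, mul_one, Complex.cos_neg, Complex.sin_neg]
    norm_num
    ring

theorem hybrid (Om : Finset ℕ) (L : ℕ) (v : ℕ → ℝ) (f q : ℕ → ℕ → ℝ) (hf : ∀ x u, f x u ^ 3 = f x u) (E₁ E₂ : ℝ)
    (h1 : ∀ j < L, ‖∑ x ∈ Om, exW v (f x) 0 j * csW v (q x) (j + 1) L * ((f x (j + 1) : ℝ) : ℂ)‖ ≤ E₁)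
    (h2 : ∀ j < L, ∑ x ∈ Om, |Real.cos (v (j + 1) * f x (j + 1) ^ 2) - Real.cos (v (j + 1) * q x (j + 1))| ≤ v (j + 1) ^ 2 * E₂) :
    ‖∑ x ∈ Om, exW v (f x) 0 L - ∑ x ∈ Om, csW v (q x) 0 L‖ ≤ ∑ j ∈ range L, (|v (j + 1)| * E₁ + v (j + 1) ^ 2 * E₂) := by
  obtain ⟨D, hD⟩ : ∃ D : ℕ → ℂ, D = fun j => ∑ x ∈ Om, exW v (f x) 0 j * csW v (q x) j L := ⟨_, rfl⟩
  have e0 : ∑ x ∈ Om, csW v (q x) 0 L = D 0 := by
    rw [hD]
    apply sum_congr rfl
    intro x _
    unfold exW
    simp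
  have eL : ∑ x ∈ Om, exW v (f x) 0 L = D L := by
    rw [hD]
    apply sum_congr rfl
    intro x _
    unfold csW
    simp
  rw [e0, eL, ← Finset.sum_range_sub D L]
  refine (norm_sum_le _ _).trans (sum_le_sum fun j hj => ?_)
  rw [mem_range] at hj
  have e1 : D (j + 1) - D j = Complex.I * ((Real.sin (v (j + 1)) : ℝ) : ℂ) *
      ∑ x ∈ Om, exW v (f x) 0 j * csW v (q x) (j + 1) L * ((f x (j + 1) : ℝ) : ℂ) +
      ∑ x ∈ Om, exW v (f x) 0 j * csW v (q x) (j + 1) L *
        ((Real.cos (v (j + 1) * f x (j + 1) ^ 2) - Real.cos (v (j + 1) * q x (j + 1)) : ℝ) : ℂ) := by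
    rw [hD]
    simp only
    rw [mul_sum, ← sum_sub_distrib, ← sum_add_distrib]
    apply sum_congr rfl
    intro x _
    have e2 : exW v (f x) 0 (j + 1) = exW v (f x) 0 j * Complex.exp (Complex.I * ((v (j + 1) * f x (j + 1) : ℝ) : ℂ)) := by
      unfold exW
      rw [prod_Ioc_succ_top (Nat.zero_le j)]
    have e3 : csW v (q x) j L = ((Real.cos (v (j + 1) * q x (j + 1)) : ℝ) : ℂ) * csW v (q x) (j + 1) L := by
      unfold csW
      rw [← prod_Ioc_consecutive _ (Nat.le_succ j) (by omega : j + 1 ≤ L), Nat.succ_eq_add_one]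
      congr 1
      rw [show Ioc j (j + 1) = {j + 1} by ext y; rw [mem_Ioc, mem_singleton]; omega, prod_singleton]
    rw [e2, e3, exp_split _ _ (hf x (j + 1))]
    push_cast
    ring
  rw [e1]
  refine (norm_add_le _ _).trans (add_le_add ?_ ?_)
  · rw [norm_mul, norm_mul, Complex.norm_I, one_mul, Complex.norm_real, Real.norm_eq_abs]
    exact mul_le_mul Real.abs_sin_le_abs (h1 j hj) (norm_nonneg _) (abs_nonneg _)
  · refine (norm_sum_le _ _).trans (le_trans (sum_le_sum fun x _ => ?_) (h2 j hj))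
    rw [norm_mul, norm_mul, Complex.norm_real, Real.norm_eq_abs]
    calc ‖exW v (f x) 0 j‖ * ‖csW v (q x) (j + 1) L‖ *
          |Real.cos (v (j + 1) * f x (j + 1) ^ 2) - Real.cos (v (j + 1) * q x (j + 1))| ≤
        1 * 1 * |Real.cos (v (j + 1) * f x (j + 1) ^ 2) - Real.cos (v (j + 1) * q x (j + 1))| := by
          apply mul_le_mul_of_nonneg_right _ (abs_nonneg _)
          exact mul_le_mul (exW_norm _ _ _ _) (csW_norm _ _ _ _) (norm_nonneg _) zero_le_one
      _ = _ := by ring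

lemma mu_shift (z n s : ℕ) (h : ∀ p ∈ pr z, p ^ 2 ∣ s) : mu z (n + s) = mu z n := by
  unfold mu
  apply prod_congr rfl
  intro p hp
  have h1 := h p hp
  have h2 : p ∣ s := (Dvd.intro_left (p ^ 1) (by rw [← pow_succ])).trans h1
  unfold muP
  have e1 : p ^ 2 ∣ n + s ↔ p ^ 2 ∣ n := (Nat.dvd_add_iff_left h1).symm
  have e2 : p ∣ n + s ↔ p ∣ n := (Nat.dvd_add_iff_left h2).symm
  rw [if_congr e1 rfl (if_congr e2 rfl rfl)]

lemma mu_sq_eq (z n : ℕ) (hn : 1 ≤ n) (h : ¬ ∃ d, z < d ∧ d ^ 2 ∣ n) : muR n ^ 2 = mu z n ^ 2 := by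
  by_cases hs : Squarefree n
  · have e1 : muR n ^ 2 = 1 := by
      unfold muR
      have := ArithmeticFunction.moebius_sq_eq_one_of_squarefree hs
      exact_mod_cast this
    rw [e1]
    rcases mu_vals z n with h0 | h0
    · exfalso
      unfold mu at h0
      rw [prod_eq_zero_iff] at h0
      obtain ⟨p, hp, h3⟩ := h0
      unfold muP at h3
      have hpp : p.Prime := (mem_filter.1 hp).2
      split_ifs at h3 with h4 h5
      · rw [sq] at h4
        exact hpp.one_lt.ne' (Nat.isUnit_iff.1 (hs p h4))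
      · norm_num at h3
      · norm_num at h3
    · exact h0.symm
  · have e1 : muR n = 0 := by
      unfold muR
      rw [ArithmeticFunction.moebius_eq_zero_of_not_squarefree hs]
      simp
    rw [Nat.squarefree_iff_prime_squarefree] at hs
    push Not at hs
    obtain ⟨p, hp, hpn⟩ := hs
    have hpz : p ≤ z := by
      by_contra hcon
      exact h ⟨p, by omega, by rw [sq]; exact hpn⟩
    have e2 : mu z n = 0 := by
      unfold mu
      rw [prod_eq_zero_iff]
      refine ⟨p, ?_, ?_⟩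
      · unfold pr
        rw [mem_filter, mem_range]
        exact ⟨by omega, hp⟩
      · unfold muP
        rw [if_pos (by rw [sq]; exact hpn)]
    rw [e1, e2]

lemma cos_diff (v a b : ℝ) (ha : a = 0 ∨ a = 1) (hb : b = 0 ∨ b = 1) : |Real.cos (v * a) - Real.cos (v * b)| ≤ v ^ 2 / 2 := by
  have h1 := Real.one_sub_sq_div_two_le_cos (x := v)
  have h2 := Real.cos_le_one v
  have h3 : 0 ≤ v ^ 2 / 2 := by positivity
  rcases ha with ha | ha <;> rcases hb with hb | hb <;> rw [ha, hb] <;> simp only [mul_zero, mul_one, Real.cos_zero, sub_self, abs_zero]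
  · exact h3
  · rw [abs_le]; constructor <;> linarith
  · rw [abs_le]; constructor <;> linarith
  · exact h3

/-- the local error -/
lemma loc_err (z Z Y c s : ℕ) (v : ℝ) (hz : 1 ≤ z) (hs : ∀ p ∈ pr z, p ^ 2 ∣ s) :
    ∑ x ∈ Ioc Z (Z + Y), |Real.cos (v * muR (x + (c + s)) ^ 2) - Real.cos (v * mu z (x + c) ^ 2)| ≤
      v ^ 2 * (Y / z + √((Z + Y + (c + s) : ℕ) : ℝ)) := by
  classical
  have h1 : ∀ x ∈ Ioc Z (Z + Y), |Real.cos (v * muR (x + (c + s)) ^ 2) - Real.cos (v * mu z (x + c) ^ 2)| ≤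
      if ∃ d : ℕ, z < d ∧ d ^ 2 ∣ x + (c + s) then v ^ 2 / 2 else 0 := by
    intro x hx
    rw [mem_Ioc] at hx
    split_ifs with hd
    · apply cos_diff
      · have h3 : muR (x + (c + s)) ^ 3 = muR (x + (c + s)) := by
          unfold muR
          have : ArithmeticFunction.moebius (x + (c + s)) ^ 3 = ArithmeticFunction.moebius (x + (c + s)) := by
            rcases ArithmeticFunction.moebius_eq_or (x + (c + s)) with h | h | h <;> rw [h] <;> norm_num
          exact_mod_cast this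
        have h4 : muR (x + (c + s)) * (muR (x + (c + s)) ^ 2 - 1) = 0 := by linear_combination h3
        rcases mul_eq_zero.1 h4 with h | h
        · left; rw [h]; norm_num
        · right; linarith
      · rcases mu_vals z (x + c) with h | h
        · left; rw [h]; norm_num
        · right; exact h
    · rw [mu_sq_eq z _ (by omega) hd, ← add_assoc, mu_shift z (x + c) s hs, sub_self, abs_zero]
  refine (sum_le_sum h1).trans ?_
  rw [← sum_filter, sum_const, nsmul_eq_mul]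
  have h2 := sq_count z Z Y (c + s) hz
  have h3 : (2 * (Y : ℝ) / z + √((Z + Y + (c + s) : ℕ) : ℝ)) * (v ^ 2 / 2) ≤ v ^ 2 * (Y / z + √((Z + Y + (c + s) : ℕ) : ℝ)) := by
    have : 0 ≤ √((Z + Y + (c + s) : ℕ) : ℝ) * v ^ 2 := by positivity
    have e : (2 * (Y : ℝ) / z + √((Z + Y + (c + s) : ℕ) : ℝ)) * (v ^ 2 / 2) = v ^ 2 * (Y / z) + √((Z + Y + (c + s) : ℕ) : ℝ) * v ^ 2 / 2 := by ring
    rw [e]
    nlinarith
  refine le_trans ?_ h3
  apply mul_le_mul_of_nonneg_right _ (by positivity)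
  convert h2 using 3

end Pool.Agent.Y885
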