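import Pool.Agent.Y885.GW5

set_option autoImplicit false
set_option linter.all false

/-!
# GW6: the choice of the sets, and the characteristic functions at the points of a grid
-/

namespace Pool.Agent.Y885

open Finset Pool.Agent.H373R2.T7
open Pool.Agent.Y862.GM (mu muP pr wt sum_blocks prod_blocks sigma_facts wt_block wt_bound mu_vals)

/-- the common modulus of the squares of the primes up to `z` -/
noncomputable def modz (z : ℕ) : ℕ := ∏ p ∈ pr z, p ^ 2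

lemma modz_dvd (z s : ℕ) (h : modz z ∣ s) : ∀ p ∈ pr z, p ^ 2 ∣ s := fun p hp => (dvd_prod_of_mem (fun p => p ^ 2) hp).trans h

lemma modz_pos (z : ℕ) : 1 ≤ modz z := by
  unfold modz
  apply Nat.one_le_iff_ne_zero.2
  rw [prod_ne_zero_iff]
  intro p hp
  have : p.Prime := (mem_filter.1 hp).2
  exact pow_ne_zero _ this.ne_zero

/-- the frequencies at the points of the grid -/
noncomputable def vg {k : ℕ} (Q b : ℕ) (m : Fin k → ℤ) (u : ℕ) : ℝ := wt (fun i => (m i : ℝ) / Q) b (√(6 * b / Real.pi ^ 2)) u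

/-- the Moebius function at the `u`-th point -/
noncomputable def fu (S : ℕ → Finset ℕ) (h x u : ℕ) : ℝ := muR (x + (h + u + ∑ a ∈ S u, a))

/-- the local model at the `u`-th point -/
noncomputable def qu (z h x u : ℕ) : ℝ := mu z (x + h + u) ^ 2

lemma muR_cube (n : ℕ) : muR n ^ 3 = muR n := by
  unfold muR
  have : ArithmeticFunction.moebius n ^ 3 = ArithmeticFunction.moebius n := by
    rcases ArithmeticFunction.moebius_eq_or n with h | h | h <;> rw [h] <;> norm_num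
  exact_mod_cast this

lemma exW_congr (v f g : ℕ → ℝ) (a b : ℕ) (h : ∀ u, u ≤ b → f u = g u) : exW v f a b = exW v g a b := by
  unfold exW
  apply prod_congr rfl
  intro u hu
  rw [mem_Ioc] at hu
  rw [h u hu.2]

/-- the choice of the sets -/
theorem gw_choice (l κ κ' U k z : ℕ) (hl : 2 ≤ l) : ∃ C : ℝ, ∀ H B : ℕ, ∃ N₀ : ℕ, ∀ A : ℕ → Set ℕ,
    (∀ j, ∀ x : ℕ, 1 ≤ x → ∃ a ∈ A j, x ≤ a ∧ a ≤ l * x) → ∀ N : ℕ, N₀ ≤ N → ∀ h : ℕ, h ≤ B * N →
    ∀ (Q : ℕ) (G : Finset (ℕ × (Fin k → ℤ))), (G.card : ℝ) ≤ Real.log N ^ κ' →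
    ∃ S : ℕ → Finset ℕ, (∀ j, ∀ a ∈ S j, a ∈ A j ∧ Real.log N ^ H ≤ a ∧ (a : ℝ) ≤ N / Real.log N ^ H) ∧
      (∀ j, ((S j).card : ℝ) ≤ C * Real.log (Real.log N) ^ 2) ∧ (∀ j, ∑ a ∈ S j, a ≤ N) ∧ (∀ j, modz z ∣ ∑ a ∈ S j, a) ∧
      ∀ i ∈ G, ∀ j : ℕ, (j : ℝ) + 1 ≤ Real.log N ^ κ → ∀ Z Y : ℕ, Z + Y ≤ N →
        ‖∑ x ∈ Ioc Z (Z + Y), exW (vg Q i.1 i.2) (fu S h x) 0 j * csW (vg Q i.1 i.2) (qu z h x) (j + 1) (k * i.1) *
          ((fu S h x (j + 1) : ℝ) : ℂ)‖ ≤ 2 * (N / Real.log N ^ U) := by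
  classical
  obtain ⟨C, hC⟩ := las_fineF l (modz z) κ' U hl (modz_pos z) muR fine_mu
  refine ⟨|C|, fun H B => ?_⟩
  obtain ⟨N₀, h0⟩ := hC H (B + 2)
  obtain ⟨n1, h1⟩ := ev_log' κ 1
  refine ⟨N₀ + n1 + 3, fun A hA N hN h hh Q G hG => ?_⟩
  have hL1 := h1 N (by omega)
  rw [one_mul] at hL1
  have hN0 : (1 : ℝ) ≤ N := by exact_mod_cast (by omega : 1 ≤ N)
  have hsqrt : √(N : ℝ) ≤ N := by
    rw [Real.sqrt_le_left (by linarith)]
    nlinarith
  obtain ⟨f, hf⟩ := seq_choice (∅ : Finset ℕ) (fun j f S =>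
    (∀ a ∈ S, a ∈ A j ∧ Real.log N ^ H ≤ a ∧ (a : ℝ) ≤ N / Real.log N ^ H) ∧
      ((S.card : ℝ) ≤ |C| * Real.log (Real.log N) ^ 2) ∧ ∑ a ∈ S, a ≤ N ∧ modz z ∣ ∑ a ∈ S, a ∧
      ((j : ℝ) ≤ Real.log N ^ κ → ∀ i ∈ G, ∀ Z Y : ℕ, Z + Y ≤ N →
        ‖∑ x ∈ Ioc Z (Z + Y), exW (vg Q i.1 i.2) (fu f h x) 0 (j - 1) * csW (vg Q i.1 i.2) (qu z h x) j (k * i.1) *
          ((muR (x + (h + j + ∑ a ∈ S, a)) : ℝ) : ℂ)‖ ≤ 2 * (N / Real.log N ^ U)))
    (by
      intro j f g S hfg hP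
      refine ⟨hP.1, hP.2.1, hP.2.2.1, hP.2.2.2.1, fun hj i hi Z Y hZ => ?_⟩
      refine le_trans (le_of_eq ?_) (hP.2.2.2.2 hj i hi Z Y hZ)
      congr 1
      apply sum_congr rfl
      intro x _
      rcases Nat.eq_zero_or_pos j with hj0 | hj0
      · subst hj0
        unfold exW
        simp
      · rw [exW_congr _ (fu g h x) (fu f h x) 0 (j - 1) (fun u hu => by unfold fu; rw [hfg u (by omega)])])
    (by
      intro j f
      by_cases hj : (j : ℝ) ≤ Real.log N ^ κ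
      · have hjN : j ≤ N := by exact_mod_cast (hj.trans (hL1.trans hsqrt))
        obtain ⟨S, s1, s2, s3, s4, s5⟩ := h0 (A j) (hA j) N (by omega) (h + j)
          (by have e : (B + 2) * N = B * N + 2 * N := by ring
              omega) (ℕ × (Fin k → ℤ)) G hG
          (fun i n => exW (vg Q i.1 i.2) (fu f h n) 0 (j - 1) * csW (vg Q i.1 i.2) (qu z h n) j (k * i.1)) (fun i _ n => by
            rw [norm_mul]
            exact mul_le_one₀ (exW_norm _ _ _ _) (norm_nonneg _) (csW_norm _ _ _ _))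
        refine ⟨S, s1, s2.trans (mul_le_mul_of_nonneg_right (le_abs_self C) (by positivity)), s4, s3, fun _ i hi Z Y hZ => ?_⟩
        have hN1 : N ≤ (B + 2) * N := Nat.le_mul_of_pos_left _ (by omega)
        have t1 := s5 i hi (Z + Y) (hZ.trans hN1)
        have t2 := s5 i hi Z ((by omega : Z ≤ N).trans hN1)
        rw [sum_Ioc_sub]
        exact (norm_sub_le _ _).trans (by linarith)
      · refine ⟨∅, ?_, ?_, ?_, ?_, fun h => absurd h hj⟩
        · intro a ha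
          exact absurd ha (notMem_empty a)
        · rw [card_empty]; push_cast; positivity
        · simp
        · simp)
  refine ⟨f, fun j => (hf j).1, fun j => (hf j).2.1, fun j => (hf j).2.2.1, fun j => (hf j).2.2.2.1, fun i hi j hj Z Y hZ => ?_⟩
  have h2 := (hf (j + 1)).2.2.2.2 (by push_cast; exact hj) i hi Z Y hZ
  rw [Nat.add_sub_cancel] at h2
  exact h2

/-- the sum of the squares of the frequencies -/
lemma wt_sq_sum {k : ℕ} (w : Fin k → ℝ) (b : ℕ) (hb : 1 ≤ b) (T : ℝ) (hT : 0 ≤ T) (hw : ∀ i, |w i| ≤ T) :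
    ∑ j ∈ range (k * b), wt w b (√(6 * b / Real.pi ^ 2)) (j + 1) ^ 2 ≤ k * T ^ 2 * (Real.pi ^ 2 / 6) := by
  obtain ⟨hσ, hσ2, hσsq⟩ := sigma_facts b hb
  have h1 : ∀ j ∈ range (k * b), wt w b (√(6 * b / Real.pi ^ 2)) (j + 1) ^ 2 ≤ (T / √(6 * b / Real.pi ^ 2)) ^ 2 := by
    intro j _
    rw [← sq_abs]
    exact pow_le_pow_left₀ (abs_nonneg _) (wt_bound w b _ T hσ hT hw _) 2
  refine (sum_le_sum h1).trans ?_
  rw [sum_const, card_range, nsmul_eq_mul, div_pow, hσsq]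
  push_cast
  apply le_of_eq
  have : (b : ℝ) ≠ 0 := by
    have : (1 : ℝ) ≤ b := by exact_mod_cast hb
    linarith
  have hpi := Real.pi_ne_zero
  field_simp

end Pool.Agent.Y885
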