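import Pool.Agent.Y885.GW6

set_option autoImplicit false
set_option linter.all false

/-!
# GW7: the characteristic functions
-/

namespace Pool.Agent.Y885

open Finset Pool.Agent.H373R2.T7
open Pool.Agent.Y862.GM (mu muP pr wt sum_blocks prod_blocks sigma_facts wt_block wt_bound mu_vals sum_shift)

/-- the normalised sums over the blocks -/
noncomputable def nb {k : ℕ} (S : ℕ → Finset ℕ) (h b x : ℕ) (i : Fin k) : ℝ :=
  (∑ u ∈ Ioc ((i : ℕ) * b) (i * b + b), fu S h x u) / √(6 * b / Real.pi ^ 2)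

lemma fu_abs (S : ℕ → Finset ℕ) (h x u : ℕ) : |fu S h x u| ≤ 1 := muR_abs' _

lemma nb_abs {k : ℕ} (S : ℕ → Finset ℕ) (h b x : ℕ) (hb : 1 ≤ b) (i : Fin k) : |nb S h b x i| ≤ 2 * b := by
  obtain ⟨hσ, hσ2, hσsq⟩ := sigma_facts b hb
  unfold nb
  rw [abs_div, abs_of_pos hσ, div_le_iff₀ hσ]
  have h1 : |∑ u ∈ Ioc ((i : ℕ) * b) (i * b + b), fu S h x u| ≤ b := by
    refine (abs_sum_le_sum_abs _ _).trans ((sum_le_sum fun u _ => fu_abs S h x u).trans ?_)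
    rw [sum_const, Nat.card_Ioc, nsmul_eq_mul, mul_one]
    exact_mod_cast (by omega : (i : ℕ) * b + b - i * b ≤ b)
  have hb0 : (0 : ℝ) ≤ b := Nat.cast_nonneg _
  nlinarith

lemma exp_blocks {k : ℕ} (S : ℕ → Finset ℕ) (h b x : ℕ) (w : Fin k → ℝ) :
    Complex.exp (Complex.I * ((∑ i : Fin k, w i * nb S h b x i : ℝ) : ℂ)) =
      exW (wt w b (√(6 * b / Real.pi ^ 2))) (fu S h x) 0 (k * b) := by
  unfold exW
  rw [← Complex.exp_sum, ← mul_sum]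
  congr 2
  rw [← Complex.ofReal_sum]
  congr 1
  rw [sum_blocks]
  apply sum_congr rfl
  intro i _
  unfold nb
  rw [sum_div, mul_sum]
  apply sum_congr rfl
  intro u hu
  rw [wt_block w b _ i u hu]
  ring

lemma exp_close (a b : ℝ) : ‖Complex.exp (Complex.I * ((a : ℝ) : ℂ)) - Complex.exp (Complex.I * ((b : ℝ) : ℂ))‖ ≤ |a - b| := by
  have h1 : Complex.exp (Complex.I * ((a : ℝ) : ℂ)) - Complex.exp (Complex.I * ((b : ℝ) : ℂ)) =
      Complex.exp (Complex.I * ((b : ℝ) : ℂ)) * (Complex.exp (Complex.I * ((a - b : ℝ) : ℂ)) - 1) := by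
    rw [mul_sub, ← Complex.exp_add, mul_one]
    congr 2
    push_cast
    ring
  rw [h1, norm_mul]
  have h2 : ‖Complex.exp (Complex.I * ((b : ℝ) : ℂ))‖ = 1 := by rw [mul_comm, Complex.norm_exp_ofReal_mul_I]
  rw [h2, one_mul, ← Real.norm_eq_abs]
  exact Real.norm_exp_I_mul_ofReal_sub_one_le

lemma rexp_close (a b : ℝ) (ha : 0 ≤ a) (hb : 0 ≤ b) : |Real.exp (-a) - Real.exp (-b)| ≤ |a - b| := by
  wlog hab : a ≤ b with H
  · rw [abs_sub_comm, abs_sub_comm a b]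
    exact H b a hb ha (by linarith)
  have h1 : Real.exp (-b) ≤ Real.exp (-a) := Real.exp_le_exp.2 (by linarith)
  rw [abs_of_nonneg (by linarith), abs_of_nonpos (by linarith)]
  have h2 : Real.exp (-b) = Real.exp (-a) * Real.exp (a - b) := by rw [← Real.exp_add]; congr 1; ring
  have h3 := Real.add_one_le_exp (a - b)
  have h4 : Real.exp (-a) ≤ 1 := Real.exp_le_one_iff.2 (by linarith)
  have h5 := Real.exp_pos (-a)
  rw [h2]
  nlinarith

/-- the characteristic function at one point, from the hybrid argument -/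
lemma char_point (k : ℕ) (hk : 1 ≤ k) (T δ : ℝ) (hT : 1 ≤ T) (hδ : 0 < δ) : ∃ z₀ : ℕ, 1 ≤ z₀ ∧ ∀ (S : ℕ → Finset ℕ) (h b Z Y : ℕ),
    z₀ ≤ b → z₀ * z₀ ≤ Y → (∀ j, modz z₀ ∣ ∑ a ∈ S j, a) → ∀ w : Fin k → ℝ, (∀ i, |w i| ≤ T) → ∀ E₁ W : ℝ,
    (∀ j < k * b, ‖∑ x ∈ Ioc Z (Z + Y), exW (wt w b (√(6 * b / Real.pi ^ 2))) (fu S h x) 0 j *
      csW (wt w b (√(6 * b / Real.pi ^ 2))) (qu z₀ h x) (j + 1) (k * b) * ((fu S h x (j + 1) : ℝ) : ℂ)‖ ≤ E₁) →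
    (∀ j < k * b, √((Z + Y + (h + (j + 1) + ∑ a ∈ S (j + 1), a) : ℕ) : ℝ) ≤ W) → 0 ≤ E₁ → 0 ≤ W →
    ‖∑ x ∈ Ioc Z (Z + Y), Complex.exp (Complex.I * ((∑ i : Fin k, w i * nb S h b x i : ℝ) : ℂ)) -
      ((Y * Real.exp (-(∑ i, w i ^ 2) / 2) : ℝ) : ℂ)‖ ≤
      k * b * (2 * T * E₁) + k * T ^ 2 * (Real.pi ^ 2 / 6) * W + δ * Y := by
  obtain ⟨A, hA⟩ := cos_part k hk T (δ / 2) hT (by positivity)
  obtain ⟨B₀, hB₀⟩ : ∃ B₀ : ℝ, B₀ = k * T ^ 2 * (Real.pi ^ 2 / 6) := ⟨_, rfl⟩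
  have hB0 : 0 ≤ B₀ := by rw [hB₀]; positivity
  obtain ⟨n, hn⟩ := exists_nat_ge (2 * B₀ / δ)
  obtain ⟨z, hz⟩ : ∃ z, z = A + n + 1 := ⟨_, rfl⟩
  refine ⟨z, by omega, fun S h b Z Y hb hY hS w hw E₁ W h1 h2 hE₁ hW => ?_⟩
  have hz1 : 1 ≤ z := by omega
  have hz0 : (0 : ℝ) < z := by exact_mod_cast hz1
  have hb1 : 1 ≤ b := by omega
  have hY1 : 0 < Y := by
    have : 1 * 1 ≤ z * z := Nat.mul_le_mul hz1 hz1
    omega
  have hT0 : 0 ≤ T := by linarith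
  obtain ⟨hσ, hσ2, hσsq⟩ := sigma_facts b hb1
  obtain ⟨v, hv⟩ : ∃ v, v = wt w b (√(6 * b / Real.pi ^ 2)) := ⟨_, rfl⟩
  have hvb : ∀ u, |v u| ≤ 2 * T := by
    intro u
    rw [hv]
    refine (wt_bound w b _ T hσ hT0 hw u).trans ?_
    rw [div_le_iff₀ hσ]
    nlinarith
  have hh := hybrid (Ioc Z (Z + Y)) (k * b) v (fu S h) (qu z h) (fun x u => muR_cube _) E₁ (Y / z + W)
    (by rw [hv]; exact h1)
    (by
      intro j hj
      have h3 := loc_err z Z Y (h + (j + 1)) (∑ a ∈ S (j + 1), a) (v (j + 1)) hz1 (modz_dvd z _ (hS (j + 1)))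
      refine le_trans (le_of_eq ?_) (h3.trans ?_)
      · apply sum_congr rfl
        intro x _
        unfold fu qu
        rw [add_assoc x h (j + 1)]
      · apply mul_le_mul_of_nonneg_left _ (sq_nonneg _)
        have := h2 j hj
        linarith)
  have e1 : ∑ x ∈ Ioc Z (Z + Y), Complex.exp (Complex.I * ((∑ i : Fin k, w i * nb S h b x i : ℝ) : ℂ)) =
      ∑ x ∈ Ioc Z (Z + Y), exW v (fu S h x) 0 (k * b) := by
    apply sum_congr rfl
    intro x _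
    rw [hv]
    exact exp_blocks S h b x w
  have e2 : ∑ x ∈ Ioc Z (Z + Y), csW v (qu z h x) 0 (k * b) =
      ((∑ x ∈ Ioc (Z + h) (Z + h + Y), ∏ u ∈ Ioc 0 (k * b), Real.cos (v u * mu z (x + u) ^ 2) : ℝ) : ℂ) := by
    have e3 := sum_shift h Z Y (fun x => ∏ u ∈ Ioc 0 (k * b), Real.cos (v u * mu z (x + u) ^ 2))
    rw [add_comm h Z] at e3
    rw [← e3, Complex.ofReal_sum]
    apply sum_congr rfl
    intro x _
    unfold csW qu
    rw [Complex.ofReal_prod]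
    apply prod_congr rfl
    intro u _
    rw [add_comm h x]
  have h4 := hA z b (Z + h) Y (by omega) (by omega) ((Nat.mul_le_mul_right z (by omega)).trans hY) hY1 w hw
  rw [← hv] at h4
  have h5 : ∑ j ∈ range (k * b), (|v (j + 1)| * E₁ + v (j + 1) ^ 2 * (Y / z + W)) ≤
      k * b * (2 * T * E₁) + B₀ * W + δ / 2 * Y := by
    rw [sum_add_distrib, ← sum_mul, ← sum_mul]
    have h6 : ∑ j ∈ range (k * b), |v (j + 1)| ≤ k * b * (2 * T) := by
      refine (sum_le_sum fun j _ => hvb (j + 1)).trans ?_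
      rw [sum_const, card_range, nsmul_eq_mul]
      push_cast
      exact le_rfl
    have h7 := wt_sq_sum w b hb1 T hT0 hw
    rw [← hv, ← hB₀] at h7
    have h8 : B₀ * (Y / z) ≤ δ / 2 * Y := by
      have h9 : 2 * B₀ / δ ≤ z := hn.trans (by exact_mod_cast (by omega : n ≤ z))
      rw [div_le_iff₀ hδ] at h9
      rw [mul_div_assoc', div_le_iff₀ hz0]
      nlinarith [Nat.cast_nonneg (α := ℝ) Y]
    have h10 : (0 : ℝ) ≤ Y / z := by positivity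
    calc (∑ j ∈ range (k * b), |v (j + 1)|) * E₁ + (∑ j ∈ range (k * b), v (j + 1) ^ 2) * (Y / z + W) ≤
        k * b * (2 * T) * E₁ + B₀ * (Y / z + W) := by
          apply add_le_add
          · exact mul_le_mul_of_nonneg_right h6 hE₁
          · exact mul_le_mul_of_nonneg_right h7 (by linarith)
      _ ≤ _ := by linarith
  rw [e1]
  have h6 : ‖∑ x ∈ Ioc Z (Z + Y), csW v (qu z h x) 0 (k * b) - ((Y * Real.exp (-(∑ i, w i ^ 2) / 2) : ℝ) : ℂ)‖ ≤ δ / 2 * Y := by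
    rw [e2, ← Complex.ofReal_sub, Complex.norm_real]
    exact h4
  have h7 := norm_add_le (∑ x ∈ Ioc Z (Z + Y), exW v (fu S h x) 0 (k * b) - ∑ x ∈ Ioc Z (Z + Y), csW v (qu z h x) 0 (k * b))
    (∑ x ∈ Ioc Z (Z + Y), csW v (qu z h x) 0 (k * b) - ((Y * Real.exp (-(∑ i, w i ^ 2) / 2) : ℝ) : ℂ))
  rw [sub_add_sub_cancel] at h7
  rw [← hB₀]
  linarith

end Pool.Agent.Y885
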