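import Pool.Agent.Y885.GW7

set_option autoImplicit false
set_option linter.all false

/-!
# GW8: the characteristic functions of the sums of the Moebius function over perturbed windows
-/

namespace Pool.Agent.Y885

open Finset Pool.Agent.H373R2.T7
open Pool.Agent.Y862.GM (mu muP pr wt sum_blocks prod_blocks sigma_facts wt_block wt_bound mu_vals sum_shift)

lemma grid_card (k Bm T Q κ : ℕ) (L : ℝ) (hL : 1 ≤ L) (hB : (Bm : ℝ) ≤ L ^ κ) (hQ : (2 * (T * Q + 1) + 1 : ℝ) ≤ L ^ (κ + 1)) :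
    ((((Icc 1 Bm) ×ˢ Fintype.piFinset (fun _ : Fin k => Icc (-((T * Q + 1 : ℕ) : ℤ)) ((T * Q + 1 : ℕ) : ℤ))).card : ℕ) : ℝ) ≤
      L ^ (κ + (κ + 1) * k) := by
  rw [card_product, Nat.card_Icc, Fintype.card_piFinset]
  simp only [Int.card_Icc, prod_const, card_univ, Fintype.card_fin]
  have h1 : (((T * Q + 1 : ℕ) : ℤ) + 1 - (-((T * Q + 1 : ℕ) : ℤ))).toNat = 2 * (T * Q + 1) + 1 := by omega
  rw [h1, Nat.add_sub_cancel]
  push_cast
  rw [pow_add, pow_mul]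
  exact mul_le_mul hB (pow_le_pow_left₀ (by positivity) hQ k) (by positivity) (by positivity)

lemma gn1 (k b T N L Y δ : ℝ) (κ : ℕ) (hk : 1 ≤ k) (hT : 1 ≤ T) (hL : 1 ≤ L) (hY : 0 < Y) (hδ : 0 < δ) (hb0 : 0 < b) (hN0 : 0 < N)
    (hbL : b ≤ L ^ κ) (hNY : N ≤ Y * L ^ κ) (hLδ : 32 * k * (T + 1) / δ ≤ L) :
    k * b * (2 * (T + 1) * (2 * (N / L ^ (2 * κ + 2)))) ≤ δ / 8 * Y := by
  have hL0 : 0 < L := by linarith
  have e1 : N / L ^ (2 * κ + 2) ≤ Y * L ^ κ / L ^ (2 * κ + 2) := div_le_div_of_nonneg_right hNY (by positivity)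
  calc k * b * (2 * (T + 1) * (2 * (N / L ^ (2 * κ + 2)))) ≤
      k * L ^ κ * (2 * (T + 1) * (2 * (Y * L ^ κ / L ^ (2 * κ + 2)))) := by
        apply mul_le_mul _ _ (by positivity) (by positivity)
        · exact mul_le_mul_of_nonneg_left hbL (by positivity)
        · apply mul_le_mul_of_nonneg_left _ (by positivity)
          linarith
    _ = 4 * k * (T + 1) * Y / (L * L) := by
        rw [show 2 * κ + 2 = κ + κ + 1 + 1 by ring, pow_add, pow_add, pow_add, pow_one]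
        field_simp
        ring
    _ ≤ δ / 8 * Y := by
        rw [div_le_iff₀ (by positivity)]
        rw [div_le_iff₀ hδ] at hLδ
        have e2 : 32 * k * (T + 1) ≤ L * L * δ := by
          calc 32 * k * (T + 1) ≤ L * δ := hLδ
            _ ≤ L * L * δ := by
                apply mul_le_mul_of_nonneg_right _ hδ.le
                nlinarith
        nlinarith [mul_le_mul_of_nonneg_right e2 hY.le]

lemma gn2 (B₀ B N L Y δ : ℝ) (κ : ℕ) (hB₀ : 0 ≤ B₀) (hB : 0 ≤ B) (hL : 1 ≤ L) (hδ : 0 < δ) (hN0 : 0 < N)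
    (hNY : N ≤ Y * L ^ κ) (hL2 : 8 * (B₀ + 1) * (B + 4) / δ * L ^ κ ≤ √N) : B₀ * ((B + 4) * √N) ≤ δ / 8 * Y := by
  have hLκ : 0 < L ^ κ := by positivity
  have hss : √N * √N = N := Real.mul_self_sqrt hN0.le
  have hs0 : 0 < √N := Real.sqrt_pos.2 hN0
  rw [div_mul_eq_mul_div, div_le_iff₀ hδ] at hL2
  have e2 : 8 * (B₀ + 1) * (B + 4) * L ^ κ * √N ≤ δ * (Y * L ^ κ) := by
    calc 8 * (B₀ + 1) * (B + 4) * L ^ κ * √N ≤ √N * δ * √N := mul_le_mul_of_nonneg_right hL2 hs0.le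
      _ = δ * (√N * √N) := by ring
      _ = δ * N := by rw [hss]
      _ ≤ _ := mul_le_mul_of_nonneg_left hNY hδ.le
  have e3 : 8 * (B₀ + 1) * (B + 4) * √N ≤ δ * Y := by
    apply le_of_mul_le_mul_right _ hLκ
    calc 8 * (B₀ + 1) * (B + 4) * √N * L ^ κ = 8 * (B₀ + 1) * (B + 4) * L ^ κ * √N := by ring
      _ ≤ _ := e2
      _ = _ := by ring
  have e4 : 0 ≤ (B + 4) * √N := by positivity
  nlinarith

/-- the distance of the characteristic functions at two points -/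
lemma grid_dist {k : ℕ} (S : ℕ → Finset ℕ) (h b Z Y : ℕ) (hb : 1 ≤ b) (w w' : Fin k → ℝ) (Q M δ : ℝ) (hQ0 : 0 < Q) (hM0 : 0 < M)
    (hbQ : (b : ℝ) * M ≤ Q) (hww : ∀ i, |w i - w' i| ≤ 1 / Q) (hM2 : 16 * k ≤ M * δ) :
    ‖∑ x ∈ Ioc Z (Z + Y), Complex.exp (Complex.I * ((∑ i : Fin k, w i * nb S h b x i : ℝ) : ℂ)) -
      ∑ x ∈ Ioc Z (Z + Y), Complex.exp (Complex.I * ((∑ i : Fin k, w' i * nb S h b x i : ℝ) : ℂ))‖ ≤ δ / 8 * Y := by
  rw [← sum_sub_distrib]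
  have e1 : ∀ x ∈ Ioc Z (Z + Y), ‖Complex.exp (Complex.I * ((∑ i : Fin k, w i * nb S h b x i : ℝ) : ℂ)) -
      Complex.exp (Complex.I * ((∑ i : Fin k, w' i * nb S h b x i : ℝ) : ℂ))‖ ≤ δ / 8 := by
    intro x _
    refine (exp_close _ _).trans ?_
    rw [← sum_sub_distrib]
    refine (abs_sum_le_sum_abs _ _).trans ?_
    have e2 : ∀ i ∈ (univ : Finset (Fin k)), |w i * nb S h b x i - w' i * nb S h b x i| ≤ 2 / M := by
      intro i _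
      rw [← sub_mul, abs_mul]
      have e3 : (b : ℝ) / Q ≤ 1 / M := by
        rw [div_le_div_iff₀ hQ0 hM0, one_mul]
        exact hbQ
      calc |w i - w' i| * |nb S h b x i| ≤ 1 / Q * (2 * b) := mul_le_mul (hww i) (nb_abs S h b x hb i) (abs_nonneg _) (by positivity)
        _ = 2 * (b / Q) := by ring
        _ ≤ 2 * (1 / M) := mul_le_mul_of_nonneg_left e3 (by norm_num)
        _ = 2 / M := by ring
    refine (sum_le_sum e2).trans ?_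
    rw [sum_const, card_univ, Fintype.card_fin, nsmul_eq_mul, mul_div_assoc', div_le_iff₀ hM0]
    linarith
  refine (norm_sum_le _ _).trans ((sum_le_sum e1).trans ?_)
  rw [sum_const, Nat.card_Ioc, Nat.add_sub_cancel_left, nsmul_eq_mul]
  linarith

lemma gauss_dist {k : ℕ} (Y : ℕ) (w w' : Fin k → ℝ) (T Q M δ : ℝ) (hT0 : 0 ≤ T) (hQ0 : 0 < Q) (hM0 : 0 < M) (hMQ : M ≤ Q)
    (hww : ∀ i, |w i - w' i| ≤ 1 / Q) (hw : ∀ i, |w i| ≤ T) (hw' : ∀ i, |w' i| ≤ T + 1) (hM2 : 8 * k * (2 * T + 1) ≤ M * δ) (hδ : 0 < δ) :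
    ‖((Y * Real.exp (-(∑ i, w' i ^ 2) / 2) : ℝ) : ℂ) - ((Y * Real.exp (-(∑ i, w i ^ 2) / 2) : ℝ) : ℂ)‖ ≤ δ / 8 * Y := by
  rw [← Complex.ofReal_sub, Complex.norm_real, Real.norm_eq_abs, ← mul_sub, abs_mul, Nat.abs_cast]
  have e1 : |Real.exp (-(∑ i, w' i ^ 2) / 2) - Real.exp (-(∑ i, w i ^ 2) / 2)| ≤ δ / 8 := by
    rw [neg_div, neg_div]
    refine (rexp_close _ _ (by positivity) (by positivity)).trans ?_
    rw [← sub_div, ← sum_sub_distrib, abs_div, abs_of_pos (by norm_num : (0 : ℝ) < 2)]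
    have e2 : ∀ i ∈ (univ : Finset (Fin k)), |w' i ^ 2 - w i ^ 2| ≤ (2 * T + 1) / M := by
      intro i _
      have e3 : w' i ^ 2 - w i ^ 2 = (w' i - w i) * (w' i + w i) := by ring
      rw [e3, abs_mul, abs_sub_comm]
      have e4 : |w' i + w i| ≤ 2 * T + 1 := (abs_add_le _ _).trans (by linarith [hw' i, hw i])
      have e5 : 1 / Q ≤ 1 / M := one_div_le_one_div_of_le hM0 hMQ
      calc |w i - w' i| * |w' i + w i| ≤ 1 / M * (2 * T + 1) := mul_le_mul ((hww i).trans e5) e4 (abs_nonneg _) (by positivity)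
        _ = _ := by ring
    have e6 : |∑ i : Fin k, (w' i ^ 2 - w i ^ 2)| ≤ k * ((2 * T + 1) / M) := by
      refine (abs_sum_le_sum_abs _ _).trans ((sum_le_sum e2).trans ?_)
      rw [sum_const, card_univ, Fintype.card_fin, nsmul_eq_mul]
    have e7 : (k : ℝ) * ((2 * T + 1) / M) ≤ δ / 8 := by
      rw [mul_div_assoc', div_le_iff₀ hM0]
      linarith
    linarith
  calc (Y : ℝ) * |Real.exp (-(∑ i, w' i ^ 2) / 2) - Real.exp (-(∑ i, w i ^ 2) / 2)| ≤ Y * (δ / 8) :=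
        mul_le_mul_of_nonneg_left e1 (Nat.cast_nonneg _)
    _ = _ := by ring

/-- the point of the grid -/
lemma grid_point {k : ℕ} (w : Fin k → ℝ) (T Q : ℕ) (hQ : 1 ≤ Q) (hw : ∀ i, |w i| ≤ T) : ∃ m : Fin k → ℤ,
    m ∈ Fintype.piFinset (fun _ : Fin k => Icc (-((T * Q + 1 : ℕ) : ℤ)) ((T * Q + 1 : ℕ) : ℤ)) ∧
    (∀ i, |w i - (m i : ℝ) / Q| ≤ 1 / Q) ∧ ∀ i, |(m i : ℝ) / Q| ≤ T + 1 := by
  have hQ0 : (0 : ℝ) < Q := by exact_mod_cast hQ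
  have hQ1 : (1 : ℝ) ≤ Q := by exact_mod_cast hQ
  refine ⟨fun i => ⌊w i * Q⌋, ?_, ?_, ?_⟩
  · rw [Fintype.mem_piFinset]
    intro i
    rw [mem_Icc]
    have hm1 : ((⌊w i * Q⌋ : ℤ) : ℝ) ≤ w i * Q := Int.floor_le _
    have hm2 : w i * Q - 1 < (⌊w i * Q⌋ : ℤ) := Int.sub_one_lt_floor _
    have hwQ : |w i * Q| ≤ T * Q := by
      rw [abs_mul, Nat.abs_cast]
      exact mul_le_mul_of_nonneg_right (hw i) (by positivity)
    have e1 := abs_le.1 hwQ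
    have e2 : ((⌊w i * Q⌋ : ℤ) : ℝ) ≤ ((T * Q + 1 : ℕ) : ℝ) := by push_cast; linarith
    have e3 : -((T * Q + 1 : ℕ) : ℝ) ≤ ((⌊w i * Q⌋ : ℤ) : ℝ) := by push_cast; linarith
    constructor
    · exact_mod_cast e3
    · exact_mod_cast e2
  · intro i
    have hm1 : ((⌊w i * Q⌋ : ℤ) : ℝ) ≤ w i * Q := Int.floor_le _
    have hm2 : w i * Q - 1 < (⌊w i * Q⌋ : ℤ) := Int.sub_one_lt_floor _
    have e1 : w i - ((⌊w i * Q⌋ : ℤ) : ℝ) / Q = (w i * Q - ((⌊w i * Q⌋ : ℤ) : ℝ)) / Q := by field_simp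
    rw [e1, abs_div, abs_of_pos hQ0]
    apply div_le_div_of_nonneg_right _ hQ0.le
    rw [abs_le]
    constructor <;> linarith
  · intro i
    have hm1 : ((⌊w i * Q⌋ : ℤ) : ℝ) ≤ w i * Q := Int.floor_le _
    have hm2 : w i * Q - 1 < (⌊w i * Q⌋ : ℤ) := Int.sub_one_lt_floor _
    have hwQ : |w i * Q| ≤ T * Q := by
      rw [abs_mul, Nat.abs_cast]
      exact mul_le_mul_of_nonneg_right (hw i) (by positivity)
    have e1 := abs_le.1 hwQ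
    rw [abs_div, abs_of_pos hQ0, div_le_iff₀ hQ0, abs_le]
    constructor <;> linarith

lemma sqrt_bd (B N Z Y h j s : ℕ) (h1 : Z + Y ≤ N) (h2 : h ≤ B * N) (h3 : j ≤ N) (h4 : s ≤ N) :
    √((Z + Y + (h + j + s) : ℕ) : ℝ) ≤ (B + 4) * √(N : ℝ) := by
  have e4 : Z + Y + (h + j + s) ≤ (B + 4) * N := by
    have : (B + 4) * N = B * N + 4 * N := by ring
    omega
  have e5 : √((Z + Y + (h + j + s) : ℕ) : ℝ) ≤ √(((B + 4) * N : ℕ) : ℝ) := by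
    apply Real.sqrt_le_sqrt
    exact_mod_cast e4
  refine e5.trans ?_
  push_cast
  rw [Real.sqrt_mul (by positivity)]
  apply mul_le_mul_of_nonneg_right _ (Real.sqrt_nonneg _)
  rw [Real.sqrt_le_left (by positivity)]
  have : (0 : ℝ) ≤ B := Nat.cast_nonneg _
  nlinarith

lemma two_steps (a b c d : ℂ) (x y z : ℝ) (h1 : ‖a - b‖ ≤ x) (h2 : ‖b - c‖ ≤ y) (h3 : ‖c - d‖ ≤ z) : ‖a - d‖ ≤ x + y + z := by
  have t1 := norm_add_le (a - b) (b - c)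
  rw [sub_add_sub_cancel] at t1
  have t2 := norm_add_le (a - c) (c - d)
  rw [sub_add_sub_cancel] at t2
  linarith

theorem gw_char (l κ k T : ℕ) (δ : ℝ) (hl : 2 ≤ l) (hk : 1 ≤ k) (hT : 1 ≤ T) (hδ : 0 < δ) : ∃ (C : ℝ) (b₀ : ℕ), 1 ≤ b₀ ∧
    ∀ H B : ℕ, ∃ N₀ : ℕ, ∀ A : ℕ → Set ℕ,
    (∀ j, ∀ x : ℕ, 1 ≤ x → ∃ a ∈ A j, x ≤ a ∧ a ≤ l * x) → ∀ N : ℕ, N₀ ≤ N → ∀ h : ℕ, h ≤ B * N →
    ∃ S : ℕ → Finset ℕ, (∀ j, ∀ a ∈ S j, a ∈ A j ∧ Real.log N ^ H ≤ a ∧ (a : ℝ) ≤ N / Real.log N ^ H) ∧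
      (∀ j, ((S j).card : ℝ) ≤ C * Real.log (Real.log N) ^ 2) ∧
      ∀ b : ℕ, b₀ ≤ b → (b : ℝ) ≤ Real.log N ^ κ → ∀ Z Y : ℕ, Z + Y ≤ N → (N : ℝ) ≤ Y * Real.log N ^ κ →
      ∀ w : Fin k → ℝ, (∀ i, |w i| ≤ T) →
        ‖∑ x ∈ Ioc Z (Z + Y), Complex.exp (Complex.I * ((∑ i : Fin k, w i * nb S h b x i : ℝ) : ℂ)) -
          ((Y * Real.exp (-(∑ i, w i ^ 2) / 2) : ℝ) : ℂ)‖ ≤ δ * Y := by
  classical
  have hTr : (1 : ℝ) ≤ T := by exact_mod_cast hT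
  have hkr : (1 : ℝ) ≤ k := by exact_mod_cast hk
  obtain ⟨z, hz1, hz⟩ := char_point k hk ((T : ℝ) + 1) (δ / 4) (by linarith) (by positivity)
  obtain ⟨M, hM⟩ := exists_nat_ge (max 1 (16 * k * (2 * T + 3) / δ))
  have hM1 : (1 : ℝ) ≤ M := (le_max_left _ _).trans hM
  have hM2 : 16 * k * (2 * T + 3) / δ ≤ (M : ℝ) := (le_max_right _ _).trans hM
  rw [div_le_iff₀ hδ] at hM2
  obtain ⟨C, hC⟩ := gw_choice l (κ + 1) (κ + (κ + 1) * k) (2 * κ + 2) k z hl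
  refine ⟨C, z, hz1, fun H B => ?_⟩
  obtain ⟨N₀, h0⟩ := hC H B
  obtain ⟨B₀, hB₀⟩ : ∃ B₀ : ℝ, B₀ = k * ((T : ℝ) + 1) ^ 2 * (Real.pi ^ 2 / 6) := ⟨_, rfl⟩
  have hB0 : 0 ≤ B₀ := by rw [hB₀]; positivity
  obtain ⟨n1, h1⟩ := ev_L' (2 * T * M + 3 + k + 32 * k * (T + 1) / δ)
  obtain ⟨n2, h2⟩ := ev_log' κ (8 * (B₀ + 1) * (B + 4) / δ)
  obtain ⟨n3, h3⟩ := ev_log' (κ + 1) 1
  refine ⟨N₀ + n1 + n2 + n3 + 3 + (z * z) * (z * z), fun A hA N hN h hh => ?_⟩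
  obtain ⟨L, hLd⟩ : ∃ L, L = Real.log (N : ℝ) := ⟨_, rfl⟩
  have hL1 := h1 N (by omega)
  have hL2 := h2 N (by omega)
  have hL3 := h3 N (by omega)
  rw [← hLd] at hL1 hL2 hL3
  rw [one_mul] at hL3
  have q0 : 0 ≤ 32 * (k : ℝ) * (T + 1) / δ := by positivity
  have q1 : 0 ≤ 2 * (T : ℝ) * M := by positivity
  have hLk : (k : ℝ) ≤ L := by linarith only [hL1, q0, q1]
  have hL1' : 1 ≤ L := by linarith only [hL1, q0, q1, hkr]
  have hL0 : 0 < L := by linarith only [hL1']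
  have hLT : 2 * (T : ℝ) * M + 3 ≤ L := by linarith only [hL1, q0, hkr]
  have hLδ : 32 * (k : ℝ) * (T + 1) / δ ≤ L := by linarith only [hL1, q1, hkr]
  have hN0 : (0 : ℝ) < N := by exact_mod_cast (by omega : 0 < N)
  have hN1 : (1 : ℝ) ≤ N := by exact_mod_cast (by omega : 1 ≤ N)
  have hss : √(N : ℝ) * √N = N := Real.mul_self_sqrt hN0.le
  have hs0 : 0 < √(N : ℝ) := Real.sqrt_pos.2 hN0
  have hsqrt : √(N : ℝ) ≤ N := by
    rw [Real.sqrt_le_left (by linarith)]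
    nlinarith
  obtain ⟨Bm, hBm⟩ : ∃ Bm, Bm = ⌊L ^ κ⌋₊ := ⟨_, rfl⟩
  have hBmL : (Bm : ℝ) ≤ L ^ κ := by rw [hBm]; exact Nat.floor_le (by positivity)
  have hBm1 : 1 ≤ Bm := by
    rw [hBm]
    exact Nat.le_floor (by push_cast; exact one_le_pow₀ hL1')
  have hBm1r : (1 : ℝ) ≤ Bm := by exact_mod_cast hBm1
  obtain ⟨Q, hQ⟩ : ∃ Q, Q = M * Bm := ⟨_, rfl⟩
  have hQr : (Q : ℝ) = M * Bm := by rw [hQ]; push_cast; ring
  have hQ1 : (1 : ℝ) ≤ Q := by rw [hQr]; exact one_le_mul_of_one_le_of_one_le hM1 hBm1r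
  obtain ⟨G, hG⟩ : ∃ G : Finset (ℕ × (Fin k → ℤ)), G = (Icc 1 Bm) ×ˢ Fintype.piFinset
    (fun _ : Fin k => Icc (-((T * Q + 1 : ℕ) : ℤ)) ((T * Q + 1 : ℕ) : ℤ)) := ⟨_, rfl⟩
  have hGc : (G.card : ℝ) ≤ L ^ (κ + (κ + 1) * k) := by
    rw [hG]
    apply grid_card k Bm T Q κ L hL1' hBmL
    rw [hQr, pow_succ]
    have e1 : (1 : ℝ) ≤ L ^ κ := one_le_pow₀ hL1'
    calc 2 * (T * (M * Bm) + 1) + 1 = 2 * (T : ℝ) * M * Bm + 3 := by ring
      _ ≤ 2 * (T : ℝ) * M * L ^ κ + 3 * L ^ κ := by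
          apply add_le_add (mul_le_mul_of_nonneg_left hBmL q1)
          linarith
      _ = L ^ κ * (2 * T * M + 3) := by ring
      _ ≤ L ^ κ * L := mul_le_mul_of_nonneg_left hLT (by positivity)
  obtain ⟨S, s1, s2, s3, s4, s5⟩ := h0 A hA N (by omega) h hh Q G (by rw [← hLd]; exact hGc)
  rw [← hLd] at s1 s2 s5 ⊢
  refine ⟨S, s1, s2, fun b hb hbL Z Y hZY hY w hw => ?_⟩
  have hb1 : 1 ≤ b := by omega
  have hb0 : (0 : ℝ) < b := by exact_mod_cast hb1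
  have hbBm : b ≤ Bm := by rw [hBm]; exact Nat.le_floor hbL
  have hbBmr : (b : ℝ) ≤ Bm := by exact_mod_cast hbBm
  have hLκ : 0 < L ^ κ := by positivity
  have hLκ1 : L ^ κ ≤ √N := (pow_le_pow_right₀ hL1' (Nat.le_succ κ)).trans hL3
  have hYs : √(N : ℝ) ≤ Y := by
    have e1 : √(N : ℝ) * √N ≤ Y * √N := by
      rw [hss]
      exact hY.trans (mul_le_mul_of_nonneg_left hLκ1 (Nat.cast_nonneg _))
    exact le_of_mul_le_mul_right e1 hs0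
  have hY0 : (0 : ℝ) < Y := hs0.trans_le hYs
  have hzY : z * z ≤ Y := by
    have e1 : ((z * z : ℕ) : ℝ) ≤ √N := by
      apply Real.le_sqrt_of_sq_le
      have : (z * z) ^ 2 ≤ N := by rw [sq]; omega
      exact_mod_cast this
    exact_mod_cast e1.trans hYs
  have hjL : ∀ j < k * b, (j : ℝ) + 1 ≤ L ^ (κ + 1) := by
    intro j hj
    have e1 : ((j + 1 : ℕ) : ℝ) ≤ ((k * b : ℕ) : ℝ) := by exact_mod_cast (by omega : j + 1 ≤ k * b)
    push_cast at e1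
    rw [pow_succ']
    exact e1.trans (mul_le_mul hLk hbL hb0.le hL0.le)
  -- the point of the grid
  obtain ⟨m, hmem, hww, hw'T⟩ := grid_point w T Q (by exact_mod_cast hQ1) hw
  have hmG : (b, m) ∈ G := by
    rw [hG, mem_product, mem_Icc]
    exact ⟨⟨hb1, hbBm⟩, hmem⟩
  obtain ⟨w', hw'⟩ : ∃ w' : Fin k → ℝ, w' = fun i => (m i : ℝ) / Q := ⟨_, rfl⟩
  have hQ0 : (0 : ℝ) < Q := by linarith only [hQ1]
  have hww' : ∀ i, |w i - w' i| ≤ 1 / Q := fun i => by rw [hw']; exact hww i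
  have hw'T' : ∀ i, |w' i| ≤ (T : ℝ) + 1 := fun i => by rw [hw']; exact hw'T i
  have hvg : vg Q b m = wt w' b (√(6 * b / Real.pi ^ 2)) := by
    rw [hw']
    rfl
  have hmain := hz S h b Z Y hb hzY s4 w' hw'T' (2 * (N / L ^ (2 * κ + 2))) ((B + 4) * √N)
    (by
      intro j hj
      have := s5 (b, m) hmG j (hjL j hj) Z Y hZY
      simp only at this
      rw [hvg] at this
      exact this)
    (by
      intro j hj
      have e1 := s3 (j + 1)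
      have e2 : ((j + 1 : ℕ) : ℝ) ≤ (N : ℝ) := by
        push_cast
        exact (hjL j hj).trans (hL3.trans hsqrt)
      have e3 : j + 1 ≤ N := by exact_mod_cast e2
      exact sqrt_bd B N Z Y h (j + 1) _ hZY hh e3 e1) (by positivity) (by positivity)
  have hb1' := gn1 k b T N L Y δ κ hkr hTr hL1' hY0 hδ hb0 hN0 hbL hY hLδ
  have hb2' := gn2 B₀ B N L Y δ κ hB0 (Nat.cast_nonneg _) hL1' hδ hN0 hY hL2
  rw [hB₀] at hb2'
  have hM0 : (0 : ℝ) < M := by linarith only [hM1]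
  have hkT : 0 ≤ (k : ℝ) * T := by positivity
  have m1 : (b : ℝ) * M ≤ Q := by
    rw [hQr, mul_comm]
    exact mul_le_mul_of_nonneg_left hbBmr hM0.le
  have m2 : 16 * (k : ℝ) ≤ M * δ := by
    refine le_trans ?_ hM2
    rw [mul_add]
    linarith only [hkT, hkr]
  have m3 : (M : ℝ) ≤ Q := by
    rw [hQr]
    exact le_mul_of_one_le_right hM0.le hBm1r
  have m4 : 8 * (k : ℝ) * (2 * T + 1) ≤ M * δ := by
    refine le_trans ?_ hM2
    rw [mul_add, mul_add]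
    linarith only [hkT, hkr]
  have hd1 := grid_dist S h b Z Y hb1 w w' Q M δ hQ0 hM0 m1 hww' m2
  have hd2 := gauss_dist Y w w' T Q M δ (by linarith only [hTr]) hQ0 hM0 m3 hww' hw hw'T' m4 hδ
  refine (two_steps _ _ _ _ _ _ _ hd1 hmain hd2).trans ?_
  have hδY : 0 < δ * Y := by positivity
  linarith only [hb1', hb2', hδY]

end Pool.Agent.Y885
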