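import Pool.Agent.Y885.GW8
import Pool.Agent.Y756.GM.Levy

set_option autoImplicit false
set_option linter.all false

/-!
# GW9: the joint Gaussian law for the Moebius function on perturbed windows
-/

namespace Pool.Agent.Y885

open Finset Pool.Agent.H373R2.T7
open Pool.Agent.Y862.GM (sigma_facts)

/-- finitely many arguments at once -/
lemma levy_fin (k : ℕ) (F : Finset (Fin k → ℝ)) (ε : ℝ) (hε : 0 < ε) : ∃ (T : ℕ) (δ : ℝ), 1 ≤ T ∧ 0 < δ ∧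
    ∀ Om : Finset ℕ, Om.Nonempty → ∀ S : ℕ → Fin k → ℝ,
    (∀ w : Fin k → ℝ, (∀ i, |w i| ≤ T) →
      ‖(∑ x ∈ Om, Complex.exp (Complex.I * ((∑ i, w i * S x i : ℝ) : ℂ))) / Om.card -
        ((Real.exp (-(∑ i, w i ^ 2) / 2) : ℝ) : ℂ)‖ ≤ δ) →
    ∀ t ∈ F, |((Om.filter (fun x => ∀ i, S x i ≤ t i)).card : ℝ) / Om.card -
      ∏ i, (ProbabilityTheory.gaussianReal 0 1).real (Set.Iic (t i))| ≤ ε := by
  classical
  induction F using Finset.induction_on with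
  | empty => exact ⟨1, 1, le_rfl, one_pos, fun Om _ S _ t ht => absurd ht (notMem_empty t)⟩
  | insert t F _ ih =>
    obtain ⟨T, δ, hT, hδ, h0⟩ := ih
    obtain ⟨T', δ', hδ', h1⟩ := Pool.Agent.Y756.GM.t_LEVY k t ε hε
    obtain ⟨n, hn⟩ := exists_nat_ge T'
    refine ⟨max T n, min δ δ', hT.trans (le_max_left _ _), lt_min hδ hδ', fun Om hOm S hS t' ht' => ?_⟩
    rcases mem_insert.1 ht' with h | h
    · rw [h]
      have := h1 Om hOm S (fun w hw => (hS w (fun i => (hw i).trans (hn.trans (by exact_mod_cast le_max_right T n)))).trans (min_le_right _ _))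
      convert this using 3
    · exact h0 Om hOm S (fun w hw => (hS w (fun i => (hw i).trans (by exact_mod_cast le_max_left T n))).trans (min_le_left _ _)) t' h

/-- **the joint Gaussian law on perturbed windows** -/
theorem gw_gauss (l κ k : ℕ) (F : Finset (Fin k → ℝ)) (ε : ℝ) (hl : 2 ≤ l) (hk : 1 ≤ k) (hε : 0 < ε) : ∃ (C : ℝ) (b₀ : ℕ),
    ∀ H B : ℕ, ∃ N₀ : ℕ, ∀ A : ℕ → Set ℕ,
    (∀ j, ∀ x : ℕ, 1 ≤ x → ∃ a ∈ A j, x ≤ a ∧ a ≤ l * x) → ∀ N : ℕ, N₀ ≤ N → ∀ h : ℕ, h ≤ B * N →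
    ∃ S : ℕ → Finset ℕ, (∀ j, ∀ a ∈ S j, a ∈ A j ∧ Real.log N ^ H ≤ a ∧ (a : ℝ) ≤ N / Real.log N ^ H) ∧
      (∀ j, ((S j).card : ℝ) ≤ C * Real.log (Real.log N) ^ 2) ∧
      ∀ b : ℕ, b₀ ≤ b → (b : ℝ) ≤ Real.log N ^ κ → ∀ Z Y : ℕ, Z + Y ≤ N → (N : ℝ) ≤ Y * Real.log N ^ κ → ∀ t ∈ F,
        |(((Ioc Z (Z + Y)).filter (fun x => ∀ i : Fin k, ∑ u ∈ Ioc ((i : ℕ) * b) (i * b + b), muR (x + (h + u + ∑ a ∈ S u, a)) ≤
          t i * √(6 * b / Real.pi ^ 2))).card : ℝ) / Y - ∏ i, (ProbabilityTheory.gaussianReal 0 1).real (Set.Iic (t i))| ≤ ε := by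
  classical
  obtain ⟨T, δ, hT, hδ, hlevy⟩ := levy_fin k F ε hε
  obtain ⟨C, b₀, hb₀, hC⟩ := gw_char l κ k T δ hl hk hT hδ
  refine ⟨C, b₀, fun H B => ?_⟩
  obtain ⟨N₀, h0⟩ := hC H B
  refine ⟨N₀ + 1, fun A hA N hN h hh => ?_⟩
  obtain ⟨S, s1, s2, s3⟩ := h0 A hA N (by omega) h hh
  refine ⟨S, s1, s2, fun b hb hbL Z Y hZY hY t ht => ?_⟩
  have hN0 : (0 : ℝ) < N := by exact_mod_cast (by omega : 0 < N)
  have hY1 : 0 < Y := by
    rcases Nat.eq_zero_or_pos Y with h | h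
    · rw [h] at hY; push_cast at hY; linarith
    · exact h
  have hY0 : (0 : ℝ) < Y := by exact_mod_cast hY1
  have hne : (Ioc Z (Z + Y)).Nonempty := ⟨Z + 1, by rw [mem_Ioc]; omega⟩
  have hcardN : (Ioc Z (Z + Y)).card = Y := by rw [Nat.card_Ioc]; omega
  have h3 := hlevy (Ioc Z (Z + Y)) hne (fun x i => nb S h b x i) (fun w hw => by
    have h4 := s3 b hb hbL Z Y hZY hY w hw
    rw [hcardN]
    have e1 : (∑ x ∈ Ioc Z (Z + Y), Complex.exp (Complex.I * ((∑ i : Fin k, w i * nb S h b x i : ℝ) : ℂ))) / ((Y : ℕ) : ℂ) -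
        ((Real.exp (-(∑ i, w i ^ 2) / 2) : ℝ) : ℂ) =
        (∑ x ∈ Ioc Z (Z + Y), Complex.exp (Complex.I * ((∑ i : Fin k, w i * nb S h b x i : ℝ) : ℂ)) -
          ((Y * Real.exp (-(∑ i, w i ^ 2) / 2) : ℝ) : ℂ)) / ((Y : ℕ) : ℂ) := by
      have : ((Y : ℕ) : ℂ) ≠ 0 := by exact_mod_cast hY1.ne'
      push_cast
      field_simp
    rw [e1, norm_div, Complex.norm_natCast, div_le_iff₀ hY0]
    exact h4) t ht
  rw [hcardN] at h3
  have hσ := (sigma_facts b (by omega)).1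
  have hfil : (Ioc Z (Z + Y)).filter (fun x => ∀ i : Fin k, ∑ u ∈ Ioc ((i : ℕ) * b) (i * b + b), muR (x + (h + u + ∑ a ∈ S u, a)) ≤
      t i * √(6 * b / Real.pi ^ 2)) = (Ioc Z (Z + Y)).filter (fun x => ∀ i : Fin k, nb S h b x i ≤ t i) := by
    apply Finset.filter_congr
    intro x _
    apply forall_congr'
    intro i
    unfold nb fu
    rw [div_le_iff₀ hσ]
  rw [hfil]
  convert h3 using 3

end Pool.Agent.Y885
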