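import Pool.Agent.Y885.MU6
import Pool.Agent.W93.TD3

set_option autoImplicit false

/-! Correlations of all orders: sums of independent random integers. -/

namespace Pool.Agent.Y885
open Finset
open Pool.Agent.H373R2.T7
open Pool.Agent.W93.DG

/-- products over linear forms with random constant terms, and arbitrary further factors -/
theorem rs_kpt (b B D κ U : ℕ) (hb : 2 ≤ b) (hB : 1 ≤ B) (η δ : ℝ) (hη : 0 < η) (hδ : 0 < δ) (θ : ℕ → ℝ) (hθ : Fine θ) :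
    ∃ k₀ : ℕ, ∀ k : ℕ, k₀ ≤ k → ∀ (s : ℕ), 2 ^ s ≤ k ^ κ → ∀ (J : Fin s → Finset ℕ) (σ : Fin s → ℕ → Finset ℤ)
      (p : Fin s → ℕ → ℤ → ℝ) (c : Fin s → ℤ),
    (∀ i, Rich δ D k (J i)) →
    (∀ i, ∀ j < k, (∀ x ∈ σ i j, 0 ≤ p i j x ∧ |x| ≤ (B : ℤ) * (b : ℤ) ^ j) ∧ ∑ x ∈ σ i j, p i j x = 1) →
    (∀ i, ∀ j ∈ J i, ∀ y : ℤ, ∑ x ∈ (σ i j).filter (fun x => y ≤ x ∧ (B : ℤ) * (x - y) ≤ (b : ℤ) ^ j), p i j x ≤ 1 - η) →
    (∀ i, |c i| ≤ (B : ℤ) * (b : ℤ) ^ k) → ∀ L : ℕ, L ≤ k ^ κ → ∀ (α : Fin s → ℕ) (g : Fin L → ℕ → ℂ), (∀ i, 1 ≤ α i) →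
    (∀ l n, 1 ≤ n → n ≤ B * b ^ k → ‖g l n‖ ≤ (k : ℝ) ^ κ) →
    ∀ Ev : (Fin s → Fin k → ℤ) → Prop, ∀ _hdec : DecidablePred Ev,
    (∀ ω, Ev ω → ¬ ∀ l, ∀ I : Finset (Fin s), I.Nonempty → ∀ N : ℕ, (∀ i ∈ I, α i * N ≤ B * b ^ k) →
      ‖∑ n ∈ Icc 1 N, g l n * ∏ i ∈ I, exI (fun n => ((θ n : ℝ) : ℂ)) (((α i * n : ℕ) : ℤ) + (c i + ∑ j, ω i j))‖ ≤
        (b : ℝ) ^ k / (k : ℝ) ^ U) →
    ∑ ω ∈ Fintype.piFinset (fun i : Fin s => Fintype.piFinset (fun j : Fin k => σ i j)),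
      (if Ev ω then ∏ i, ∏ j : Fin k, p i j (ω i j) else 0) ≤ 1 / (k : ℝ) ^ U := by
  classical
  obtain ⟨k₀, h0⟩ := rs_fine b B D (2 * κ) (U + κ + 1) hb hB η δ hη hδ θ hθ
  refine ⟨k₀ + 1, fun k hk s hs J σ p c hJ hσ hp hc L hL α g hα hg Ev _ hEv => ?_⟩
  have hk1 : (1 : ℝ) ≤ k := by exact_mod_cast (by omega : 1 ≤ k)
  have hk0 : (0 : ℝ) < k := by linarith
  have hth : ∀ n, ‖((θ n : ℝ) : ℂ)‖ ≤ 1 := hθ.1.1
  have hex : ∀ m : ℤ, ‖exI (fun n => ((θ n : ℝ) : ℂ)) m‖ ≤ 1 := by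
    intro m
    unfold exI
    split_ifs
    · exact hth _
    · simp
  obtain ⟨Ω, hΩ⟩ : ∃ Ω : Fin s → Finset (Fin k → ℤ), Ω = fun i => Fintype.piFinset (fun j : Fin k => σ i j) := ⟨_, rfl⟩
  obtain ⟨P, hPd⟩ : ∃ P : Fin s → (Fin k → ℤ) → ℝ, P = fun i ω => ∏ j : Fin k, p i j (ω j) := ⟨_, rfl⟩
  have hsum : ∀ i, ∑ v ∈ Ω i, P i v = 1 := by
    intro i
    rw [hΩ, hPd]
    simp only
    rw [← prod_univ_sum (fun j : Fin k => σ i j) (fun j : Fin k => p i j)]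
    exact prod_eq_one (fun j _ => ((hσ i j j.2).2))
  have hP0 : ∀ i, ∀ v ∈ Ω i, 0 ≤ P i v := by
    intro i v hv
    rw [hPd]
    rw [hΩ, Fintype.mem_piFinset] at hv
    exact prod_nonneg (fun j _ => ((hσ i j j.2).1 _ (hv j)).1)
  have hPP : ∀ m ∈ Fintype.piFinset Ω, 0 ≤ ∏ i, P i (m i) := fun m hm =>
    prod_nonneg fun i _ => hP0 i _ (Fintype.mem_piFinset.1 hm i)
  -- the bad event at the index i
  obtain ⟨bad, hbad⟩ : ∃ bad : Fin s → (Fin s → Fin k → ℤ) → Prop, bad = fun i ω =>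
      ∃ l, ∃ I : Finset (Fin s), (∀ i' ∈ I, i' < i) ∧ ∃ N : ℕ, (∀ i' ∈ I, α i' * N ≤ B * b ^ k) ∧ α i * N ≤ B * b ^ k ∧
      (b : ℝ) ^ k / (k : ℝ) ^ (U + κ + 1) < ‖∑ n ∈ Icc 1 N, (g l n * ∏ i' ∈ I, exI (fun n => ((θ n : ℝ) : ℂ)) (((α i' * n : ℕ) : ℤ) + (c i' + ∑ j, ω i' j))) *
        exI (fun n => ((θ n : ℝ) : ℂ)) (((α i * n : ℕ) : ℤ) + (c i + ∑ j, ω i j))‖ := ⟨_, rfl⟩
  have hb1 : ∀ i : Fin s, ∑ ω ∈ Fintype.piFinset Ω, (∏ i, P i (ω i)) * (if bad i ω then (1 : ℝ) else 0) ≤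
      1 / (k : ℝ) ^ (U + κ + 1) := by
    intro i
    rw [← W93.TD.avg_w Ω P hsum i (fun ω => if bad i ω then (1 : ℝ) else 0)]
    have hm1 : ∀ m ∈ Fintype.piFinset Ω, (∏ j, P j (m j)) *
        ∑ v ∈ Ω i, P i v * (if bad i (Function.update m i v) then (1 : ℝ) else 0) ≤
        (∏ j, P j (m j)) * (1 / (k : ℝ) ^ (U + κ + 1)) := by
      intro m hm
      apply mul_le_mul_of_nonneg_left _ (hPP m hm)
      obtain ⟨e, -⟩ : ∃ e : (Finset (Fin s) × Fin L) ≃ Fin (2 ^ s * L), True := by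
        refine ⟨(Fintype.equivFinOfCardEq ?_), trivial⟩
        simp
      have e1 := h0 k (by omega) (J i) (σ i) (p i) (c i) (hJ i) (hσ i) (hp i) (hc i) (2 ^ s * L)
        (by
          calc 2 ^ s * L ≤ k ^ κ * k ^ κ := Nat.mul_le_mul hs hL
            _ = k ^ (2 * κ) := by rw [← pow_add]; congr 1; ring)
        (fun _ => α i) (fun r n => g (e.symm r).2 n * ∏ i' ∈ (e.symm r).1.filter (fun i' => i' < i),
          exI (fun n => ((θ n : ℝ) : ℂ)) (((α i' * n : ℕ) : ℤ) + (c i' + ∑ j, m i' j)))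
        (fun _ => hα i) (by
          intro r n hn hn2
          rw [norm_mul]
          have g1 : ‖∏ i' ∈ (e.symm r).1.filter (fun i' => i' < i),
              exI (fun n => ((θ n : ℝ) : ℂ)) (((α i' * n : ℕ) : ℤ) + (c i' + ∑ j, m i' j))‖ ≤ 1 := by
            rw [norm_prod]
            exact prod_le_one (fun _ _ => norm_nonneg _) (fun i _ => hex _)
          have g2 : n ≤ B * b ^ k := le_trans (by
            calc n = 1 * n := (one_mul n).symm
              _ ≤ α i * n := Nat.mul_le_mul_right _ (hα i)) hn2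
          have g3 := hg (e.symm r).2 n hn g2
          calc ‖g (e.symm r).2 n‖ * _ ≤ (k : ℝ) ^ κ * 1 := mul_le_mul g3 g1 (norm_nonneg _) (by positivity)
            _ ≤ (k : ℝ) ^ (2 * κ) := by rw [mul_one]; exact pow_le_pow_right₀ hk1 (by omega))
        (fun v => bad i (Function.update m i v)) (Classical.decPred _) (by
          intro v hv hall
          rw [hbad] at hv
          obtain ⟨l, I, hI, N, hN1, hN2, hlt⟩ := hv
          have e2 := hall (e (I, l)) N hN2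
          refine absurd (lt_of_lt_of_le hlt (le_trans (le_of_eq ?_) e2)) (lt_irrefl _)
          congr 1
          apply sum_congr rfl
          intro n _
          rw [Equiv.symm_apply_apply, Function.update_self]
          congr 2
          have e3 : I.filter (fun i' => i' < i) = I := filter_true_of_mem hI
          rw [e3]
          apply prod_congr rfl
          intro i' hi'
          rw [Function.update_of_ne (ne_of_lt (hI i' hi'))])
      refine le_trans (le_of_eq ?_) e1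
      rw [hΩ, hPd]
      apply sum_congr rfl
      intro v _
      simp only [mul_ite, mul_one, mul_zero]
    refine (sum_le_sum hm1).trans (le_of_eq ?_)
    rw [← sum_mul, W93.TD.total_w Ω P hsum, one_mul]
  -- every bad vector is bad at some index
  have hpt : ∀ ω ∈ Fintype.piFinset Ω, (if Ev ω then ∏ i, ∏ j : Fin k, p i j (ω i j) else 0) ≤
      ∑ i : Fin s, (∏ i, P i (ω i)) * (if bad i ω then (1 : ℝ) else 0) := by
    intro ω hω
    have hPP0 := hPP ω hω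
    have t1 : ∀ i ∈ (univ : Finset (Fin s)), 0 ≤ (∏ i, P i (ω i)) * (if bad i ω then (1 : ℝ) else 0) := fun i _ =>
      mul_nonneg hPP0 (by split_ifs <;> norm_num)
    by_cases hE : Ev ω
    swap
    · rw [if_neg hE]
      exact sum_nonneg t1
    rw [if_pos hE]
    have h1 := hEv ω hE
    push Not at h1
    obtain ⟨l, I, hI, N, hN, hlt⟩ := h1
    obtain ⟨i, hi⟩ : ∃ i, i = I.max' hI := ⟨_, rfl⟩
    have hiI : i ∈ I := hi ▸ I.max'_mem hI
    have hbi : bad i ω := by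
      rw [hbad]
      refine ⟨l, I.erase i, fun i' hi' => ?_, N, fun i' hi' => hN i' (mem_of_mem_erase hi'), hN i hiI, ?_⟩
      · have h3 := I.le_max' i' (mem_of_mem_erase hi')
        rw [← hi] at h3
        exact lt_of_le_of_ne h3 (ne_of_mem_erase hi')
      · refine lt_of_le_of_lt ?_ (lt_of_lt_of_le hlt (le_of_eq ?_))
        · apply div_le_div_of_nonneg_left (by positivity) (by positivity)
          exact pow_le_pow_right₀ hk1 (by omega)
        · congr 1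
          apply sum_congr rfl
          intro n _
          rw [← mul_prod_erase I _ hiI]
          ring
    have h3 := single_le_sum t1 (mem_univ i)
    rw [if_pos hbi, mul_one] at h3
    refine le_trans (le_of_eq ?_) h3
    rw [hPd]
  have hs2 : (s : ℝ) ≤ (k : ℝ) ^ κ := by
    have : s < 2 ^ s := Nat.lt_two_pow_self
    exact_mod_cast this.le.trans hs
  calc ∑ ω ∈ Fintype.piFinset (fun i : Fin s => Fintype.piFinset (fun j : Fin k => σ i j)),
        (if Ev ω then ∏ i, ∏ j : Fin k, p i j (ω i j) else 0)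
      ≤ ∑ ω ∈ Fintype.piFinset Ω, ∑ i : Fin s, (∏ i, P i (ω i)) * (if bad i ω then (1 : ℝ) else 0) := by
        refine le_trans (le_of_eq ?_) (sum_le_sum hpt)
        rw [hΩ]
    _ = ∑ i : Fin s, ∑ ω ∈ Fintype.piFinset Ω, (∏ i, P i (ω i)) * (if bad i ω then (1 : ℝ) else 0) := sum_comm
    _ ≤ ∑ i : Fin s, 1 / (k : ℝ) ^ (U + κ + 1) := sum_le_sum fun i _ => hb1 i
    _ = s * (1 / (k : ℝ) ^ (U + κ + 1)) := by simp
    _ ≤ (k : ℝ) ^ κ * (1 / (k : ℝ) ^ (U + κ + 1)) := mul_le_mul_of_nonneg_right hs2 (by positivity)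
    _ = 1 / (k : ℝ) ^ (U + 1) := by
        rw [show U + κ + 1 = κ + (U + 1) by ring, pow_add (k : ℝ) κ]
        field_simp
    _ ≤ 1 / (k : ℝ) ^ U := one_div_le_one_div_of_le (by positivity) (pow_le_pow_right₀ hk1 (by omega))

end Pool.Agent.Y885
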