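import Pool.Agent.Y885.KP1
import Pool.Agent.Y885.KP2

set_option autoImplicit false

/-! The Liouville function on the integers; residue classes. -/

namespace Pool.Agent.Y885
open Finset

/-- the Liouville function on the integers, `0` at `0` -/
def laZ (m : ℤ) : ℤ := if m = 0 then 0 else (-1) ^ ArithmeticFunction.cardFactors m.natAbs

lemma laZ_mul (a b : ℤ) : laZ (a * b) = laZ a * laZ b := by
  unfold laZ
  by_cases ha : a = 0
  · simp [ha]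
  by_cases hb : b = 0
  · simp [hb]
  rw [if_neg ha, if_neg hb, if_neg (mul_ne_zero ha hb), Int.natAbs_mul,
    ArithmeticFunction.cardFactors_mul (Int.natAbs_ne_zero.2 ha) (Int.natAbs_ne_zero.2 hb), pow_add]

lemma laZ_one : laZ 1 = 1 := by
  unfold laZ
  simp

lemma laZ_prod {ι : Type} (I : Finset ι) (f : ι → ℤ) : laZ (∏ i ∈ I, f i) = ∏ i ∈ I, laZ (f i) := by
  classical
  induction I using Finset.induction_on with
  | empty => simp [laZ_one]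
  | insert a s ha ih => rw [prod_insert ha, prod_insert ha, laZ_mul, ih]

lemma laZ_pos (n : ℕ) (hn : 1 ≤ n) : ((laZ (n : ℤ) : ℤ) : ℝ) = laR n := by
  unfold laZ laR
  rw [if_neg (by omega), Int.natAbs_natCast]
  push_cast
  rfl

lemma laZ_abs (m : ℤ) : |((laZ m : ℤ) : ℝ)| ≤ 1 := by
  unfold laZ
  split_ifs
  · simp
  · push_cast
    rw [abs_pow, abs_neg, abs_one, one_pow]

/-- residue classes: an index set -/
lemma classes (Q : ℕ) (L : ℕ) : ∃ e : (Fin L × (Fin Q × Fin Q)) ≃ Fin (L * (Q * Q)), True :=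
  ⟨Fintype.equivFinOfCardEq (by simp), trivial⟩

/-- products over linear forms, arbitrary further factors, and residue classes -/
theorem las_kptq (l P κ U : ℕ) (hl : 2 ≤ l) (hP : 1 ≤ P) (θ : ℕ → ℝ) (hθ : Fine θ) : ∃ C : ℝ, ∀ H B : ℕ, ∃ N₀ : ℕ,
    ∀ s : ℕ, ∀ A : Fin s → Set ℕ, (∀ i, ∀ x : ℕ, 1 ≤ x → ∃ a ∈ A i, x ≤ a ∧ a ≤ l * x) →
    ∀ N : ℕ, N₀ ≤ N → (2 : ℝ) ^ s ≤ Real.log N ^ κ → ∀ h : Fin s → ℕ, (∀ i, h i ≤ B * N) →
    ∀ L : ℕ, (L : ℝ) ≤ Real.log N ^ κ → ∀ (α : Fin s → ℕ) (f : Fin L → ℕ → ℂ), (∀ i, 1 ≤ α i) →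
    (∀ m n, 1 ≤ n → n ≤ B * N → ‖f m n‖ ≤ Real.log N ^ κ) →
    ∃ S : Fin s → Finset ℕ, (∀ i, ∀ a ∈ S i, a ∈ A i ∧ Real.log N ^ H ≤ a ∧ (a : ℝ) ≤ N / Real.log N ^ H) ∧
      (∀ i, ((S i).card : ℝ) ≤ C * Real.log (Real.log N) ^ 2) ∧ (∀ i, P ∣ ∑ a ∈ S i, a) ∧
      ∀ m, ∀ I : Finset (Fin s), I.Nonempty → ∀ q : ℕ, 1 ≤ q → (q : ℝ) ≤ Real.log N ^ κ → ∀ c : ℕ,
        ∀ M : ℕ, (∀ i ∈ I, α i * M ≤ B * N) →
        ‖∑ n ∈ (Icc 1 M).filter (fun n => n ≡ c [MOD q]),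
          f m n * ∏ i ∈ I, ((θ (α i * n + (h i + ∑ a ∈ S i, a)) : ℝ) : ℂ)‖ ≤ N / Real.log N ^ U := by
  classical
  obtain ⟨C, hC⟩ := las_kpt l P (3 * κ) U hl hP θ hθ
  refine ⟨C, fun H B => ?_⟩
  obtain ⟨N₀, h0⟩ := hC H B
  refine ⟨N₀ + 3, fun s A hA N hN hs h hh L hL α f hα hf => ?_⟩
  have hLog1 : 1 ≤ Real.log (N : ℝ) := by
    have h3 : (3 : ℝ) ≤ N := by exact_mod_cast (by omega : 3 ≤ N)
    rw [Real.le_log_iff_exp_le (by linarith)]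
    exact (Real.exp_one_lt_d9.le.trans (by norm_num)).trans h3
  have hκ3 : Real.log (N : ℝ) ^ κ ≤ Real.log (N : ℝ) ^ (3 * κ) := pow_le_pow_right₀ hLog1 (by omega)
  obtain ⟨Q, hQ⟩ : ∃ Q, Q = ⌊Real.log (N : ℝ) ^ κ⌋₊ := ⟨_, rfl⟩
  have hQ1 : (Q : ℝ) ≤ Real.log N ^ κ := by rw [hQ]; exact Nat.floor_le (by positivity)
  obtain ⟨e, -⟩ := classes Q L
  obtain ⟨S, h1, h2, h3, h4⟩ := h0 s A hA N (by omega) (hs.trans hκ3) h hh (L * (Q * Q)) (by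
      push_cast
      calc (L : ℝ) * (Q * Q) ≤ Real.log N ^ κ * (Real.log N ^ κ * Real.log N ^ κ) := by gcongr
        _ = Real.log N ^ (3 * κ) := by ring) α
    (fun r n => if n ≡ (e.symm r).2.2.val [MOD (e.symm r).2.1.val + 1] then f (e.symm r).1 n else 0) hα (by
      intro r n hn hn2
      split_ifs
      · exact (hf _ n hn hn2).trans hκ3
      · rw [norm_zero]; positivity)
  refine ⟨S, h1, h2, h3, fun m I hI q hq hq2 c M hM => ?_⟩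
  have hqQ : q ≤ Q := by rw [hQ]; exact Nat.le_floor hq2
  have hcq : c % q < q := Nat.mod_lt _ (by omega)
  have h5 := h4 (e (m, (⟨q - 1, by omega⟩, ⟨c % q, by omega⟩))) I hI M hM
  refine le_trans (le_of_eq ?_) h5
  congr 1
  rw [sum_filter]
  apply sum_congr rfl
  intro n _
  rw [Equiv.symm_apply_apply]
  simp only
  rw [Nat.sub_add_cancel hq]
  have h6 : (n ≡ c % q [MOD q]) ↔ (n ≡ c [MOD q]) := by
    unfold Nat.ModEq
    rw [Nat.mod_mod]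
  rw [if_congr h6 rfl rfl]
  split_ifs <;> simp

end Pool.Agent.Y885
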