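import Pool.Agent.Y885.KP3

set_option autoImplicit false

/-! Random sums and residue classes. -/

namespace Pool.Agent.Y885
open Finset
open Pool.Agent.H373R2.T7
open Pool.Agent.W93.DG

/-- products over linear forms with random constant terms, arbitrary further factors, residue classes -/
theorem rs_kptq (b B D κ U : ℕ) (hb : 2 ≤ b) (hB : 1 ≤ B) (η δ : ℝ) (hη : 0 < η) (hδ : 0 < δ) (θ : ℕ → ℝ) (hθ : Fine θ) :
    ∃ k₀ : ℕ, ∀ k : ℕ, k₀ ≤ k → ∀ (s : ℕ), 2 ^ s ≤ k ^ κ → ∀ (J : Fin s → Finset ℕ) (σ : Fin s → ℕ → Finset ℤ)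
      (p : Fin s → ℕ → ℤ → ℝ) (c : Fin s → ℤ),
    (∀ i, Rich δ D k (J i)) →
    (∀ i, ∀ j < k, (∀ x ∈ σ i j, 0 ≤ p i j x ∧ |x| ≤ (B : ℤ) * (b : ℤ) ^ j) ∧ ∑ x ∈ σ i j, p i j x = 1) →
    (∀ i, ∀ j ∈ J i, ∀ y : ℤ, ∑ x ∈ (σ i j).filter (fun x => y ≤ x ∧ (B : ℤ) * (x - y) ≤ (b : ℤ) ^ j), p i j x ≤ 1 - η) →
    (∀ i, |c i| ≤ (B : ℤ) * (b : ℤ) ^ k) → ∀ L : ℕ, L ≤ k ^ κ → ∀ (α : Fin s → ℕ) (g : Fin L → ℕ → ℂ), (∀ i, 1 ≤ α i) →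
    (∀ l n, 1 ≤ n → n ≤ B * b ^ k → ‖g l n‖ ≤ (k : ℝ) ^ κ) →
    ∀ Ev : (Fin s → Fin k → ℤ) → Prop, ∀ _hdec : DecidablePred Ev,
    (∀ ω, Ev ω → ¬ ∀ l, ∀ I : Finset (Fin s), I.Nonempty → ∀ q : ℕ, 1 ≤ q → q ≤ k ^ κ → ∀ r : ℕ,
      ∀ N : ℕ, (∀ i ∈ I, α i * N ≤ B * b ^ k) →
      ‖∑ n ∈ (Icc 1 N).filter (fun n => n ≡ r [MOD q]),
        g l n * ∏ i ∈ I, exI (fun n => ((θ n : ℝ) : ℂ)) (((α i * n : ℕ) : ℤ) + (c i + ∑ j, ω i j))‖ ≤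
        (b : ℝ) ^ k / (k : ℝ) ^ U) →
    ∑ ω ∈ Fintype.piFinset (fun i : Fin s => Fintype.piFinset (fun j : Fin k => σ i j)),
      (if Ev ω then ∏ i, ∏ j : Fin k, p i j (ω i j) else 0) ≤ 1 / (k : ℝ) ^ U := by
  classical
  obtain ⟨k₀, h0⟩ := rs_kpt b B D (3 * κ) U hb hB η δ hη hδ θ hθ
  refine ⟨k₀ + 1, fun k hk s hs J σ p c hJ hσ hp hc L hL α g hα hg Ev _ hEv => ?_⟩
  have hk1 : (1 : ℝ) ≤ k := by exact_mod_cast (by omega : 1 ≤ k)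
  have hκ3 : (k : ℝ) ^ κ ≤ (k : ℝ) ^ (3 * κ) := pow_le_pow_right₀ hk1 (by omega)
  obtain ⟨e, -⟩ := classes (k ^ κ) L
  refine h0 k (by omega) s (hs.trans (Nat.pow_le_pow_right (by omega) (by omega))) J σ p c hJ hσ hp hc
    (L * (k ^ κ * k ^ κ)) (by
      calc L * (k ^ κ * k ^ κ) ≤ k ^ κ * (k ^ κ * k ^ κ) := Nat.mul_le_mul_right _ hL
        _ = k ^ (3 * κ) := by rw [← pow_add, ← pow_add]; congr 1; ring) α
    (fun r n => if n ≡ (e.symm r).2.2.val [MOD (e.symm r).2.1.val + 1] then g (e.symm r).1 n else 0) hα (by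
      intro r n hn hn2
      split_ifs
      · exact (hg _ n hn hn2).trans hκ3
      · rw [norm_zero]; positivity) Ev (Classical.decPred _) (fun ω hω hall => ?_) |> fun h => by
        refine le_trans (le_of_eq ?_) h
        apply sum_congr rfl
        intro x _
        split_ifs <;> rfl
  refine hEv ω hω fun l I hI q hq hq2 r N hN => ?_
  have hcq : r % q < q := Nat.mod_lt _ (by omega)
  refine le_trans (le_of_eq ?_) (hall (e (l, (⟨q - 1, by omega⟩, ⟨r % q, by omega⟩))) I hI N hN)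
  congr 1
  rw [sum_filter]
  apply sum_congr rfl
  intro n _
  rw [Equiv.symm_apply_apply]
  simp only
  rw [Nat.sub_add_cancel hq]
  have h6 : (n ≡ r % q [MOD q]) ↔ (n ≡ r [MOD q]) := by
    unfold Nat.ModEq
    rw [Nat.mod_mod]
  rw [if_congr h6 rfl rfl]
  split_ifs <;> simp

end Pool.Agent.Y885
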