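import Pool.Agent.Y885.KP3

set_option autoImplicit false

/-! Correlations of all orders with two fine functions: sets which meet every `[x, l x]`. -/

namespace Pool.Agent.Y885
open Finset
open Pool.Agent.W93.DG

/-- products over linear forms, and arbitrary further factors -/
theorem las_kpt2 (l P κ U : ℕ) (hl : 2 ≤ l) (hP : 1 ≤ P) (θ : Bool → ℕ → ℝ) (hθ : ∀ τ, Fine (θ τ)) : ∃ C : ℝ, ∀ H B : ℕ, ∃ N₀ : ℕ,
    ∀ s : ℕ, ∀ A : Fin s → Set ℕ, (∀ i, ∀ x : ℕ, 1 ≤ x → ∃ a ∈ A i, x ≤ a ∧ a ≤ l * x) →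
    ∀ N : ℕ, N₀ ≤ N → (2 : ℝ) ^ s ≤ Real.log N ^ κ → ∀ h : Fin s → ℕ, (∀ i, h i ≤ B * N) →
    ∀ L : ℕ, (L : ℝ) ≤ Real.log N ^ κ → ∀ (τ : Fin s → Bool) (α : Fin s → ℕ) (f : Fin L → ℕ → ℂ), (∀ i, 1 ≤ α i) →
    (∀ m n, 1 ≤ n → n ≤ B * N → ‖f m n‖ ≤ Real.log N ^ κ) →
    ∃ S : Fin s → Finset ℕ, (∀ i, ∀ a ∈ S i, a ∈ A i ∧ Real.log N ^ H ≤ a ∧ (a : ℝ) ≤ N / Real.log N ^ H) ∧
      (∀ i, ((S i).card : ℝ) ≤ C * Real.log (Real.log N) ^ 2) ∧ (∀ i, P ∣ ∑ a ∈ S i, a) ∧
      ∀ m, ∀ I : Finset (Fin s), I.Nonempty → ∀ M : ℕ, (∀ i ∈ I, α i * M ≤ B * N) →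
        ‖∑ n ∈ Icc 1 M, f m n * ∏ i ∈ I, ((θ (τ i) (α i * n + (h i + ∑ a ∈ S i, a)) : ℝ) : ℂ)‖ ≤ N / Real.log N ^ U := by
  classical
  have hC' : ∀ τ : Bool, _ := fun τ => las_fine l P (2 * κ) U hl hP (θ τ) (hθ τ)
  choose C0 hC using hC'
  obtain ⟨C, hCd⟩ : ∃ C, C = max (C0 false) (C0 true) := ⟨_, rfl⟩
  have hC0 : ∀ τ, C0 τ ≤ C := by
    intro τ
    rw [hCd]
    cases τ
    · exact le_max_left _ _
    · exact le_max_right _ _
  refine ⟨C, fun H B => ?_⟩
  have hC2 := fun τ => hC τ H B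
  choose M0 h1 using hC2
  obtain ⟨N₁, hN₁⟩ : ∃ N₁, N₁ = M0 false + M0 true := ⟨_, rfl⟩
  have hM0 : ∀ τ, M0 τ ≤ N₁ := by
    intro τ
    cases τ <;> omega
  refine ⟨N₁ + 3, fun s A hA N hN hs h hh L hL τ α f hα hf => ?_⟩
  have hth : ∀ τ n, ‖((θ τ n : ℝ) : ℂ)‖ ≤ 1 := fun τ => (hθ τ).1.1
  have hLog1 : 1 ≤ Real.log (N : ℝ) := by
    have h3 : (3 : ℝ) ≤ N := by exact_mod_cast (by omega : 3 ≤ N)
    rw [Real.le_log_iff_exp_le (by linarith)]
    exact (Real.exp_one_lt_d9.le.trans (by norm_num)).trans h3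
  -- induction over the number of shifts which have been corrected
  have key : ∀ t : ℕ, t ≤ s → ∃ S : Fin s → Finset ℕ,
      (∀ i : Fin s, i.val < t → (∀ a ∈ S i, a ∈ A i ∧ Real.log N ^ H ≤ a ∧ (a : ℝ) ≤ N / Real.log N ^ H) ∧
        ((S i).card : ℝ) ≤ C * Real.log (Real.log N) ^ 2 ∧ P ∣ ∑ a ∈ S i, a) ∧
      ∀ m, ∀ I : Finset (Fin s), I.Nonempty → (∀ i ∈ I, i.val < t) → ∀ M : ℕ, (∀ i ∈ I, α i * M ≤ B * N) →
        ‖∑ n ∈ Icc 1 M, f m n * ∏ i ∈ I, ((θ (τ i) (α i * n + (h i + ∑ a ∈ S i, a)) : ℝ) : ℂ)‖ ≤ N / Real.log N ^ U := by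
    intro t
    induction t with
    | zero =>
      intro _
      refine ⟨fun _ => ∅, fun i hi => absurd hi (by omega), fun m I hI hlt => ?_⟩
      obtain ⟨i, hi⟩ := hI
      exact absurd (hlt i hi) (by omega)
    | succ t ih =>
      intro ht
      obtain ⟨S, hS1, hS2⟩ := ih (by omega)
      obtain ⟨i0, hi0⟩ : ∃ i0 : Fin s, i0.val = t := ⟨⟨t, by omega⟩, rfl⟩
      -- the functions
      obtain ⟨e, -⟩ : ∃ e : (Finset (Fin s) × Fin L) ≃ Fin (2 ^ s * L), True := by
        refine ⟨(Fintype.equivFinOfCardEq ?_), trivial⟩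
        simp
      obtain ⟨T, hT1, hT2, hT3, hT4⟩ := h1 (τ i0) (A i0) (hA i0) N (le_trans (hM0 _) (by omega)) (h i0) (hh i0) (2 ^ s * L) (by
          push_cast
          calc (2 : ℝ) ^ s * L ≤ Real.log N ^ κ * Real.log N ^ κ := mul_le_mul hs hL (by positivity) (by positivity)
            _ = Real.log N ^ (2 * κ) := by ring) (fun _ => α i0)
        (fun r n => f (e.symm r).2 n * ∏ i ∈ (e.symm r).1, ((θ (τ i) (α i * n + (h i + ∑ a ∈ S i, a)) : ℝ) : ℂ))
        (fun _ => hα i0) (by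
          intro r n hn hn2
          rw [norm_mul]
          have g1 : ‖∏ i ∈ (e.symm r).1, ((θ (τ i) (α i * n + (h i + ∑ a ∈ S i, a)) : ℝ) : ℂ)‖ ≤ 1 := by
            rw [norm_prod]
            exact prod_le_one (fun _ _ => norm_nonneg _) (fun i _ => hth _ _)
          have g2 : n ≤ B * N := le_trans (by
            calc n = 1 * n := (one_mul n).symm
              _ ≤ α i0 * n := Nat.mul_le_mul_right _ (hα i0)) hn2
          have g3 := hf (e.symm r).2 n hn g2
          calc ‖f (e.symm r).2 n‖ * _ ≤ Real.log N ^ κ * 1 := mul_le_mul g3 g1 (norm_nonneg _) (by positivity)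
            _ ≤ Real.log N ^ (2 * κ) := by rw [mul_one]; exact pow_le_pow_right₀ hLog1 (by omega))
      refine ⟨Function.update S i0 T, ?_, ?_⟩
      · intro i hi
        by_cases hii : i = i0
        · subst hii
          rw [Function.update_self]
          exact ⟨hT1, hT2.trans (mul_le_mul_of_nonneg_right (hC0 _) (by positivity)), hT3⟩
        · rw [Function.update_of_ne hii]
          refine hS1 i ?_
          have : i.val ≠ i0.val := fun h => hii (Fin.ext h)
          omega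
      · intro m I hI hlt M hM
        by_cases hmem : i0 ∈ I
        · have e1 := hT4 (e (I.erase i0, m)) M (hM i0 hmem)
          refine le_trans (le_of_eq ?_) e1
          congr 1
          apply sum_congr rfl
          intro n _
          rw [Equiv.symm_apply_apply, mul_assoc]
          congr 1
          rw [← mul_prod_erase I _ hmem, Function.update_self, mul_comm]
          congr 1
          apply prod_congr rfl
          intro i hi
          rw [Function.update_of_ne (ne_of_mem_erase hi)]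
        · refine le_trans (le_of_eq ?_) (hS2 m I hI (fun i hi => ?_) M hM)
          · congr 1
            apply sum_congr rfl
            intro n _
            congr 1
            apply prod_congr rfl
            intro i hi
            rw [Function.update_of_ne (show i ≠ i0 from fun h5 => hmem (h5 ▸ hi))]
          · have h1 := hlt i hi
            have : i.val ≠ i0.val := fun h => hmem ((Fin.ext h : i = i0) ▸ hi)
            omega
  obtain ⟨S, h2, h3⟩ := key s le_rfl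
  exact ⟨S, fun i => (h2 i i.2).1, fun i => (h2 i i.2).2.1, fun i => (h2 i i.2).2.2,
    fun m I hI M hM => h3 m I hI (fun i _ => i.2) M hM⟩

end Pool.Agent.Y885
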