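import Pool.Agent.Y885.KP4
import Pool.Agent.Y885.KP5

set_option autoImplicit false

/-! From correlations to sign patterns. -/

namespace Pool.Agent.Y885
open Finset

/-- the frequency of a sign pattern -/
lemma pat_count {ι κ : Type} [DecidableEq ι] (R : Finset κ) (w : κ → ℝ) (v : ι → κ → ℝ) (I₀ : Finset ι)
    (hv : ∀ i ∈ I₀, ∀ n ∈ R, v i n = 1 ∨ v i n = -1) (T : ℝ)
    (hT : ∀ I ⊆ I₀, I.Nonempty → |∑ n ∈ R, w n * ∏ i ∈ I, v i n| ≤ T) (hT0 : 0 ≤ T) (e : ι → ℝ)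
    (he : ∀ i ∈ I₀, e i = 1 ∨ e i = -1) :
    |∑ n ∈ R, w n * (∏ i ∈ I₀, (if v i n = e i then (1 : ℝ) else 0)) - (∑ n ∈ R, w n) / 2 ^ I₀.card| ≤ T := by
  classical
  have h1 : ∀ n ∈ R, ∏ i ∈ I₀, (if v i n = e i then (1 : ℝ) else 0) = (∑ I ∈ I₀.powerset, (∏ i ∈ I, e i) * ∏ i ∈ I, v i n) / 2 ^ I₀.card := by
    intro n hn
    have h2 : ∏ i ∈ I₀, (if v i n = e i then (1 : ℝ) else 0) = ∏ i ∈ I₀, ((1 + e i * v i n) / 2) := by
      apply prod_congr rfl
      intro i hi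
      rcases hv i hi n hn with h3 | h3 <;> rcases he i hi with h4 | h4 <;> rw [h3, h4] <;> norm_num
    rw [h2, prod_div_distrib, prod_const, prod_one_add]
    congr 1
    apply sum_congr rfl
    intro I _
    rw [prod_mul_distrib]
  have h2 : ∑ n ∈ R, w n * (∏ i ∈ I₀, (if v i n = e i then (1 : ℝ) else 0)) =
      (∑ I ∈ I₀.powerset, (∏ i ∈ I, e i) * ∑ n ∈ R, w n * ∏ i ∈ I, v i n) / 2 ^ I₀.card := by
    have h3 : ∑ n ∈ R, w n * (∏ i ∈ I₀, (if v i n = e i then (1 : ℝ) else 0)) =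
        ∑ n ∈ R, (∑ I ∈ I₀.powerset, (∏ i ∈ I, e i) * (w n * ∏ i ∈ I, v i n)) / 2 ^ I₀.card := by
      apply sum_congr rfl
      intro n hn
      rw [h1 n hn, mul_div_assoc', mul_sum]
      congr 1
      apply sum_congr rfl
      intro I _
      ring
    rw [h3, ← sum_div, sum_comm]
    congr 1
    apply sum_congr rfl
    intro I _
    rw [mul_sum]
  rw [h2, ← add_sum_erase _ _ (empty_mem_powerset I₀)]
  simp only [prod_empty, mul_one, one_mul]
  rw [add_div, add_sub_cancel_left, abs_div, abs_of_pos (by positivity : (0 : ℝ) < 2 ^ I₀.card), div_le_iff₀ (by positivity)]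
  refine (abs_sum_le_sum_abs _ _).trans ?_
  have h4 : ∀ I ∈ I₀.powerset.erase ∅, |(∏ i ∈ I, e i) * ∑ n ∈ R, w n * ∏ i ∈ I, v i n| ≤ T := by
    intro I hI
    rw [mem_erase, mem_powerset] at hI
    have h5 : |∏ i ∈ I, e i| = 1 := by
      rw [abs_prod]
      apply prod_eq_one
      intro i hi
      rcases he i (hI.2 hi) with h6 | h6 <;> rw [h6] <;> simp
    rw [abs_mul, h5, one_mul]
    exact hT I hI.2 (nonempty_iff_ne_empty.2 hI.1)
  refine (sum_le_sum h4).trans ?_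
  rw [sum_const, nsmul_eq_mul, mul_comm]
  apply mul_le_mul_of_nonneg_left _ hT0
  have h5 : (I₀.powerset.erase ∅).card ≤ 2 ^ I₀.card := by
    refine (card_erase_le).trans ?_
    rw [card_powerset]
  exact_mod_cast h5

lemma neg_pow_eq (u v : ℕ) : ((-1 : ℝ) ^ u = (-1) ^ v) ↔ u ≡ v [MOD 2] := by
  unfold Nat.ModEq
  rcases Nat.even_or_odd u with h1 | h1 <;> rcases Nat.even_or_odd v with h2 | h2
  · rw [h1.neg_one_pow, h2.neg_one_pow, Nat.even_iff.1 h1, Nat.even_iff.1 h2]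
    simp
  · rw [h1.neg_one_pow, h2.neg_one_pow, Nat.even_iff.1 h1, Nat.odd_iff.1 h2]
    norm_num
  · rw [h1.neg_one_pow, h2.neg_one_pow, Nat.odd_iff.1 h1, Nat.even_iff.1 h2]
    norm_num
  · rw [h1.neg_one_pow, h2.neg_one_pow, Nat.odd_iff.1 h1, Nat.odd_iff.1 h2]
    simp

end Pool.Agent.Y885
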