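import Mathlib

set_option autoImplicit false

/-! Unions of arithmetic progressions of the length `18 M` with different prime differences: an inequality of
the Katz-Tao type with multiplicities. -/

namespace Pool.Agent.Y885.KT
open Finset

/-- the number of closed walks of length four -/
lemma four_cycles {α : Type} [DecidableEq α] (S : Finset α) (E : Finset (α × α)) (hE : ∀ e ∈ E, e.1 ∈ S ∧ e.2 ∈ S) :
    (E.card : ℝ) ^ 4 ≤ (S.card : ℝ) ^ 4 *
      (((S ×ˢ S) ×ˢ (S ×ˢ S)).filter (fun w => (w.1.1, w.2.1) ∈ E ∧ (w.1.2, w.2.1) ∈ E ∧ (w.1.1, w.2.2) ∈ E ∧ (w.1.2, w.2.2) ∈ E)).card := by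
  classical
  obtain ⟨d, hd⟩ : ∃ d : α → ℝ, d = fun z => ∑ u ∈ S, if (z, u) ∈ E then (1 : ℝ) else 0 := ⟨_, rfl⟩
  obtain ⟨c, hc⟩ : ∃ c : α × α → ℝ, c = fun v => ∑ z ∈ S, if (z, v.1) ∈ E ∧ (z, v.2) ∈ E then (1 : ℝ) else 0 := ⟨_, rfl⟩
  have h1 : (E.card : ℝ) = ∑ z ∈ S, d z := by
    rw [hd, ← sum_product' (s := S) (t := S) (f := fun z u => if (z, u) ∈ E then (1 : ℝ) else 0)]
    rw [← sum_filter, sum_const, nsmul_eq_mul, mul_one]
    congr 1
    rw [show ((S ×ˢ S).filter fun x => (x.1, x.2) ∈ E) = E from ?_]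
    ext e
    rw [mem_filter, mem_product]
    exact ⟨fun h => h.2, fun h => ⟨hE e h, h⟩⟩
  have h2 : (∑ z ∈ S, d z) ^ 2 ≤ S.card * ∑ z ∈ S, d z ^ 2 := sq_sum_le_card_mul_sum_sq
  have h3 : ∑ z ∈ S, d z ^ 2 = ∑ v ∈ S ×ˢ S, c v := by
    rw [hc, sum_comm]
    apply sum_congr rfl
    intro z _
    rw [hd, sq, sum_mul_sum, ← sum_product']
    apply sum_congr rfl
    intro v _
    by_cases h5 : (z, v.1) ∈ E <;> by_cases h6 : (z, v.2) ∈ E <;> simp [h5, h6]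
  have h4 : (∑ v ∈ S ×ˢ S, c v) ^ 2 ≤ (S ×ˢ S).card * ∑ v ∈ S ×ˢ S, c v ^ 2 := sq_sum_le_card_mul_sum_sq
  have h5 : ∑ v ∈ S ×ˢ S, c v ^ 2 = (((S ×ˢ S) ×ˢ (S ×ˢ S)).filter
      (fun w => (w.1.1, w.2.1) ∈ E ∧ (w.1.2, w.2.1) ∈ E ∧ (w.1.1, w.2.2) ∈ E ∧ (w.1.2, w.2.2) ∈ E)).card := by
    rw [card_filter]
    push_cast
    rw [sum_product (S ×ˢ S) (S ×ˢ S), sum_comm]
    apply sum_congr rfl
    intro v _
    rw [hc, sq, sum_mul_sum, ← sum_product']
    apply sum_congr rfl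
    intro z _
    by_cases h5 : (z.1, v.1) ∈ E <;> by_cases h6 : (z.2, v.1) ∈ E <;> by_cases h7 : (z.1, v.2) ∈ E <;>
      by_cases h8 : (z.2, v.2) ∈ E <;> simp [h5, h6, h7, h8]
  rw [← h5, h1]
  rw [← h3] at h4
  rw [card_product] at h4
  push_cast at h4
  have h6 : 0 ≤ ∑ z ∈ S, d z ^ 2 := sum_nonneg fun _ _ => sq_nonneg _
  have hS : (0 : ℝ) ≤ S.card := Nat.cast_nonneg _
  calc (∑ z ∈ S, d z) ^ 4 = ((∑ z ∈ S, d z) ^ 2) ^ 2 := by ring
    _ ≤ (S.card * ∑ z ∈ S, d z ^ 2) ^ 2 := pow_le_pow_left₀ (sq_nonneg _) h2 2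
    _ = (S.card : ℝ) ^ 2 * (∑ z ∈ S, d z ^ 2) ^ 2 := by ring
    _ ≤ (S.card : ℝ) ^ 2 * ((S.card : ℝ) * S.card * ∑ v ∈ S ×ˢ S, c v ^ 2) := mul_le_mul_of_nonneg_left h4 (by positivity)
    _ = _ := by ring

/-- The basic inequality. The set `S` contains, for every `p` in the set `Q` of primes `p ≥ M`, an arithmetic
progression `n p + i p`, `0 ≤ i < 18 M`. -/
theorem main_ineq (S : Finset ℤ) (Q : Finset ℕ) (M : ℕ) (n : ℕ → ℤ) (hQ : ∀ p ∈ Q, p.Prime ∧ M ≤ p)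
    (hS : ∀ p ∈ Q, ∀ i : ℕ, i < 18 * M → n p + i * p ∈ S) :
    ((Q.card : ℝ) * (M * (M - 1 : ℕ))) ^ 4 ≤ (S.card : ℝ) ^ 7 * M := by
  classical
  -- the points and the edges
  obtain ⟨x, hx⟩ : ∃ x : ℕ → ℕ → ℤ, ∀ p u, x p u = n p + (6 * M + 6 * u : ℕ) * p := ⟨_, fun _ _ => rfl⟩
  obtain ⟨I, hI⟩ : ∃ I : Finset (ℕ × ℕ × ℕ), I = Q ×ˢ ((range M ×ˢ range M).filter (fun w => w.1 ≠ w.2)) := ⟨_, rfl⟩
  obtain ⟨E, hE⟩ : ∃ E : Finset (ℤ × ℤ), E = I.image (fun t => (x t.1 t.2.1, x t.1 t.2.2)) := ⟨_, rfl⟩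
  have hmI : ∀ t, t ∈ I ↔ t.1 ∈ Q ∧ t.2.1 < M ∧ t.2.2 < M ∧ t.2.1 ≠ t.2.2 := by
    intro t
    rw [hI, mem_product, mem_filter, mem_product, mem_range, mem_range]
    tauto
  -- a difference determines the prime
  have hdiff : ∀ p ∈ Q, ∀ q ∈ Q, ∀ a b : ℤ, |a| < M → |b| < M → a ≠ 0 → a * p = b * q → p = q ∧ a = b := by
    intro p hp q hq a b ha hb ha0 hab
    have hp0 : (0 : ℤ) < p := by exact_mod_cast (hQ p hp).1.pos
    have hpq : p = q := by
      by_contra hne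
      have h1 : (p : ℤ) ∣ b * q := ⟨a, by rw [← hab]; ring⟩
      have h2 : IsCoprime (p : ℤ) (q : ℤ) := by
        rw [Nat.isCoprime_iff_coprime]
        exact (Nat.coprime_primes (hQ p hp).1 (hQ q hq).1).2 hne
      have h3 : (p : ℤ) ∣ b := h2.dvd_of_dvd_mul_right h1
      have h4 : b = 0 := by
        apply Int.eq_zero_of_abs_lt_dvd h3
        have : (M : ℤ) ≤ p := by exact_mod_cast (hQ p hp).2
        linarith
      rw [h4, zero_mul, mul_eq_zero] at hab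
      rcases hab with h | h
      · exact ha0 h
      · exact hp0.ne' h
    subst hpq
    exact ⟨rfl, mul_right_cancel₀ hp0.ne' hab⟩
  have hxd : ∀ p u v, x p v - x p u = 6 * (((v : ℤ) - u) * p) := by
    intro p u v
    rw [hx, hx]
    push_cast
    ring
  have habs : ∀ u v : ℕ, u < M → v < M → |(v : ℤ) - u| < M := by
    intro u v hu hv
    rw [abs_lt]
    constructor <;> omega
  have hsame : ∀ s ∈ I, ∀ t ∈ I, x s.1 s.2.2 - x s.1 s.2.1 = x t.1 t.2.2 - x t.1 t.2.1 →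
      s.1 = t.1 ∧ (s.2.2 : ℤ) - s.2.1 = (t.2.2 : ℤ) - t.2.1 := by
    intro s hs t ht h
    rw [hmI] at hs ht
    rw [hxd, hxd] at h
    apply hdiff s.1 hs.1 t.1 ht.1 _ _ (habs _ _ hs.2.1 hs.2.2.1) (habs _ _ ht.2.1 ht.2.2.1)
    · intro h0
      apply hs.2.2.2
      omega
    · linarith
  have hinj : Set.InjOn (fun t : ℕ × ℕ × ℕ => (x t.1 t.2.1, x t.1 t.2.2)) I := by
    intro s hs t ht hst
    simp only [Prod.mk.injEq] at hst
    obtain ⟨h1, h2⟩ := hst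
    obtain ⟨h3, h4⟩ := hsame s hs t ht (by rw [h1, h2])
    have hp0 : (0 : ℤ) < t.1 := by exact_mod_cast (hQ t.1 ((hmI t).1 ht).1).1.pos
    rw [h3, hx, hx] at h1
    have h5 : ((6 * M + 6 * s.2.1 : ℕ) : ℤ) = ((6 * M + 6 * t.2.1 : ℕ) : ℤ) := by
      apply mul_right_cancel₀ hp0.ne'
      linarith
    have h6 : s.2.1 = t.2.1 := by omega
    ext
    · exact h3
    · exact h6
    · omega
  have hEcard : (E.card : ℝ) = Q.card * (M * (M - 1 : ℕ)) := by
    have h1 : ((range M ×ˢ range M).filter (fun w : ℕ × ℕ => w.1 ≠ w.2)).card = M * (M - 1) := by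
      have := Finset.offDiag_card (range M)
      rw [card_range] at this
      rw [Nat.mul_sub, mul_one, ← this]
      congr 1
      ext w
      rw [mem_filter, mem_product, mem_offDiag]
      tauto
    rw [hE, card_image_of_injOn hinj, hI, card_product, h1]
    push_cast
    ring
  -- all points belong to `S`
  have hpt : ∀ p ∈ Q, ∀ i : ℤ, 0 ≤ i → i < 18 * M → n p + i * p ∈ S := by
    intro p hp i hi0 hi
    have := hS p hp i.toNat (by omega)
    rwa [Int.toNat_of_nonneg hi0] at this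
  have hES : ∀ e ∈ E, e.1 ∈ S ∧ e.2 ∈ S := by
    intro e he
    rw [hE, mem_image] at he
    obtain ⟨t, ht, rfl⟩ := he
    rw [hmI] at ht
    simp only [hx]
    exact ⟨hpt _ ht.1 _ (by positivity) (by push_cast; omega), hpt _ ht.1 _ (by positivity) (by push_cast; omega)⟩
  -- the rational points of an edge
  have hmid : ∀ a b : ℤ, (a, b) ∈ E → ∃ s ∈ S, 2 * s = a + b := by
    intro a b he
    rw [hE, mem_image] at he
    obtain ⟨t, ht, h⟩ := he
    rw [hmI] at ht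
    rw [Prod.mk.injEq] at h
    refine ⟨n t.1 + (6 * M + 3 * t.2.1 + 3 * t.2.2 : ℤ) * t.1, hpt _ ht.1 _ (by positivity) (by omega), ?_⟩
    rw [← h.1, ← h.2, hx, hx]
    push_cast
    ring
  have hthird : ∀ a b : ℤ, (a, b) ∈ E → ∃ s ∈ S, 3 * s = b + 2 * a := by
    intro a b he
    rw [hE, mem_image] at he
    obtain ⟨t, ht, h⟩ := he
    rw [hmI] at ht
    rw [Prod.mk.injEq] at h
    refine ⟨n t.1 + (6 * M + 4 * t.2.1 + 2 * t.2.2 : ℤ) * t.1, hpt _ ht.1 _ (by positivity) (by omega), ?_⟩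
    rw [← h.1, ← h.2, hx, hx]
    push_cast
    ring
  have hrefl : ∀ a b : ℤ, (a, b) ∈ E → 2 * a - b ∈ S := by
    intro a b he
    rw [hE, mem_image] at he
    obtain ⟨t, ht, h⟩ := he
    rw [hmI] at ht
    rw [Prod.mk.injEq] at h
    have h1 := hpt t.1 ht.1 (6 * M + 12 * t.2.1 - 6 * t.2.2 : ℤ) (by omega) (by omega)
    have h2 : n t.1 + (6 * M + 12 * t.2.1 - 6 * t.2.2 : ℤ) * t.1 = 2 * a - b := by
      rw [← h.1, ← h.2, hx, hx]
      push_cast
      ring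
    rwa [h2] at h1
  -- the walks
  obtain ⟨W, hW⟩ : ∃ W, W = ((S ×ˢ S) ×ˢ (S ×ˢ S)).filter
      (fun w => (w.1.1, w.2.1) ∈ E ∧ (w.1.2, w.2.1) ∈ E ∧ (w.1.1, w.2.2) ∈ E ∧ (w.1.2, w.2.2) ∈ E) := ⟨_, rfl⟩
  have h4 := four_cycles S E hES
  rw [← hW] at h4
  -- every walk is determined by three points of `S` and one number below `M`
  have hWcard : W.card ≤ S.card ^ 3 * M := by
    have hex : ∀ w ∈ W, ∃ s₁ ∈ S, ∃ s₂ ∈ S, ∃ s₃ ∈ S, ∃ u < M, 2 * s₁ = w.1.2 + w.2.1 ∧ 3 * s₂ = w.2.2 + 2 * w.1.2 ∧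
        s₃ = 2 * w.1.1 - w.2.2 ∧ ∃ t ∈ I, t.2.1 = u ∧ x t.1 t.2.1 = w.1.1 ∧ x t.1 t.2.2 = w.2.1 := by
      intro w hw
      rw [hW, mem_filter] at hw
      obtain ⟨-, e1, e2, e3, e4⟩ := hw
      obtain ⟨s₁, hs₁, h1⟩ := hmid _ _ e2
      obtain ⟨s₂, hs₂, h2⟩ := hthird _ _ e4
      have h3 := hrefl _ _ e3
      rw [hE, mem_image] at e1
      obtain ⟨t, ht, h⟩ := e1
      rw [Prod.mk.injEq] at h
      exact ⟨s₁, hs₁, s₂, hs₂, _, h3, t.2.1, ((hmI t).1 ht).2.1, h1, h2, rfl, t, ht, rfl, h.1, h.2⟩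
    choose! s₁ hs₁ s₂ hs₂ s₃ hs₃ u hu h1 h2 h3 t ht htu hxa hxb using hex
    calc W.card ≤ (S ×ˢ S ×ˢ S ×ˢ range M).card := by
          apply card_le_card_of_injOn (fun w => (s₁ w, s₂ w, s₃ w, u w))
          · intro w hw
            simp only [coe_product, Set.mem_prod, mem_coe, mem_range]
            exact ⟨hs₁ w hw, hs₂ w hw, hs₃ w hw, hu w hw⟩
          · intro w hw w' hw' heq
            simp only [Prod.mk.injEq] at heq
            obtain ⟨q1, q2, q3, q4⟩ := heq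
            rw [mem_coe] at hw hw'
            have a1 := h1 w hw
            have a2 := h2 w hw
            have a3 := h3 w hw
            have b1 := h1 w' hw'
            have b2 := h2 w' hw'
            have b3 := h3 w' hw'
            rw [← q1] at b1
            rw [← q2] at b2
            rw [← q3] at b3
            have hd : w.2.1 - w.1.1 = w'.2.1 - w'.1.1 := by linarith
            have hd2 := hsame (t w) (ht w hw) (t w') (ht w' hw') (by
              rw [hxa w hw, hxb w hw, hxa w' hw', hxb w' hw']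
              exact hd)
            have hz : w.1.1 = w'.1.1 := by
              rw [← hxa w hw, ← hxa w' hw', hd2.1, htu w hw, htu w' hw', q4]
            have hu2 : w.2.1 = w'.2.1 := by linarith
            have hv : w.2.2 = w'.2.2 := by linarith
            have hz' : w.1.2 = w'.1.2 := by linarith
            ext <;> assumption
      _ = S.card ^ 3 * M := by
          rw [card_product, card_product, card_product, card_range]
          ring
  rw [← hEcard]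
  have hWr : (W.card : ℝ) ≤ (S.card : ℝ) ^ 3 * M := by exact_mod_cast hWcard
  calc (E.card : ℝ) ^ 4 ≤ (S.card : ℝ) ^ 4 * W.card := h4
    _ ≤ (S.card : ℝ) ^ 4 * ((S.card : ℝ) ^ 3 * M) := mul_le_mul_of_nonneg_left hWr (by positivity)
    _ = _ := by ring

end Pool.Agent.Y885.KT
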