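import Pool.Agent.Y885.WI1
import Pool.Agent.W93.TD6

set_option autoImplicit false

/-! Prime tuples with random shifts which have a thin large spectrum. -/

namespace Pool.Agent.Y885
open Finset
open Pool.Agent.H807R2.Dav
open Pool.Agent.H373R2.T7
open Pool.Agent.W93.DG
open Pool.Agent.W93.RD
open Pool.Agent.W93.TD (sizes diff_num tele_w avg_w total_w HLs det3 last_num)

/-- a point has a small probability -/
lemma tl_point (b : ℕ) (hb : 2 ≤ b) (E c V : ℕ) (hE : 1 ≤ E) : ∃ K₀ : ℕ, ∀ K : ℕ, K₀ ≤ K →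
    ∀ (ι : Type) (Ω : Finset ι) (p : ι → ℝ) (Y : ι → ℤ), TLaw b E c (V + 1) K Ω p Y → ∀ y : ℤ,
    ∑ ω ∈ Ω, p ω * (if Y ω = y then (1 : ℝ) else 0) ≤ 1 / (K : ℝ) ^ V := by
  obtain ⟨W, k1, h1⟩ := small_ball b hb E c V hE
  obtain ⟨n2, h2⟩ := ev_log' (W + 1) 1
  refine ⟨k1 + n2 + 3, fun K hK ι Ω p Y hlaw y => ?_⟩
  have g1 := h1 K (by omega) ι Ω p (fun ω => Y ω + (1 - y)) (hlaw.add _)
  refine le_trans (sum_le_sum fun ω hω => ?_) g1
  have hKX : K < b ^ K := Nat.lt_pow_self (by omega)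
  have a2 := h2 (b ^ K) (by omega)
  have hX4 : (1 : ℝ) < ((b ^ K : ℕ) : ℝ) := by exact_mod_cast (by omega : 1 < b ^ K)
  have hX0 : (0 : ℝ) < ((b ^ K : ℕ) : ℝ) := by linarith
  have hL0 : 0 < Real.log ((b ^ K : ℕ) : ℝ) := Real.log_pos hX4
  rw [one_mul] at a2
  have hs : √((b ^ K : ℕ) : ℝ) < ((b ^ K : ℕ) : ℝ) := by
    rw [Real.sqrt_lt' hX0]
    nlinarith
  by_cases h : Y ω = y
  · rw [if_pos h, mul_one, if_pos]
    refine ⟨by rw [h]; ring_nf; exact le_refl _, ?_⟩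
    rw [h, lt_div_iff₀ (by positivity)]
    push_cast
    rw [add_sub_cancel, one_mul]
    push_cast at a2 hs
    linarith
  · rw [if_neg h, mul_zero]
    split_ifs
    · exact hlaw.nonneg ω hω
    · exact le_rfl

lemma Thin.subset {b E Q k m : ℕ} {S S' : Finset ℕ} (h : Thin b E Q k m S) (hS : S' ⊆ S) : Thin b E Q k m S' := by
  refine ⟨fun t ht => h.lt t (hS ht), fun i hi => ?_, fun j x hj => ?_, ?_⟩
  · exact (Nat.mul_le_mul_right _ (card_le_card (image_subset_image hS))).trans (h.bot i hi)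
  · exact (Nat.mul_le_mul_right _ (card_le_card (filter_subset_filter _ hS))).trans (h.top j x hj)
  · exact (Nat.mul_le_mul_right _ (card_le_card hS)).trans h.all

/-- the law for a smaller level -/
lemma TLaw.mono {b E c V V' K : ℕ} {ι : Type} {Ω : Finset ι} {p : ι → ℝ} {Y : ι → ℤ} (hK : 1 ≤ K) (hV : V' ≤ V)
    (h : TLaw b E c V K Ω p Y) : TLaw b E c V' K Ω p Y := by
  refine ⟨h.nonneg, h.le_one, ?_⟩
  apply Thin.subset h.thin
  intro t ht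
  unfold Spec at ht ⊢
  rw [mem_filter] at ht ⊢
  refine ⟨ht.1, lt_of_le_of_lt ?_ ht.2⟩
  have hKr : (1 : ℝ) ≤ K := by exact_mod_cast hK
  exact one_div_le_one_div_of_le (by positivity) (pow_le_pow_right₀ hKr hV)

/-- replacing the von Mangoldt function by the sieve model -/
theorem tl_diffs (s b E c B : ℕ) (hb : 2 ≤ b) (hE : 1 ≤ E) (U : ℕ) : ∃ B0 : ℕ, ∀ Ez : ℕ, ∃ K₀ : ℕ, ∀ K : ℕ, K₀ ≤ K →
    ∀ (α : Type) (_ : DecidableEq α) (Ω : Fin s → Finset α) (p : Fin s → α → ℝ) (Y : Fin s → α → ℤ),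
    (∀ i, TLaw b E c (2 * (U + s + 2) + 6) K (Ω i) (p i) (Y i)) → (∀ i, ∑ v ∈ Ω i, p i v = 1) →
    ∀ N : ℕ, b ^ K ≤ B * N → N ≤ b ^ K → (∀ i, ∀ v ∈ Ω i, -(b : ℤ) ^ K < Y i v ∧ N + Y i v ≤ (b : ℤ) ^ K) →
    ∀ z : ℕ, Real.log N ^ B0 ≤ z → (z : ℝ) ≤ Real.log N ^ Ez →
    ∀ g : ℕ → ℝ, (∀ n ∈ Icc 1 N, |g n| ≤ Real.log ((b ^ K : ℕ) : ℝ)) →
    ∑ ω ∈ Fintype.piFinset Ω, (∏ i, p i (ω i)) * |∑ n ∈ Icc 1 N, g n *
        (∏ i, lamI ((n : ℤ) + Y i (ω i)) - ∏ i, lamzI z ((n : ℤ) + Y i (ω i)))| ≤ N / Real.log N ^ U := by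
  classical
  obtain ⟨B1, hB1⟩ := tl_dif b E c hb hE (U + s + 2)
  refine ⟨B1 + 1, fun Ez => ?_⟩
  obtain ⟨k1, h1⟩ := hB1 Ez
  obtain ⟨N2, h2⟩ := Vz_inv_small Ez
  obtain ⟨k3, h3⟩ := sizes b B 0 hb ((2 : ℝ) ^ B1 + 1 + s * 2 ^ (s + 1) * B * ((b : ℝ) * ((0 : ℕ) + 1)) ^ (U + s + 2))
  refine ⟨k1 + k3 + N2 + 1, fun K hK α _ Ω p Y hlaw hsum N hN1 hN2 hY z hz1 hz2 g hg => ?_⟩
  have hbn : 0 < b := by omega
  obtain ⟨hN0, a1, a2, a3, a4, a5⟩ := h3 K (by omega) N hN1 (by rw [add_zero]; exact hN2)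
  rw [add_zero] at a2 a3
  obtain ⟨LX, hLX⟩ : ∃ LX, LX = Real.log ((b ^ K : ℕ) : ℝ) := ⟨_, rfl⟩
  obtain ⟨L, hL⟩ : ∃ L, L = Real.log (N : ℝ) := ⟨_, rfl⟩
  rw [← hL] at a1 a2 a3 a4 a5 hz1 hz2 ⊢
  rw [← hLX] at a2 a3 hg
  have hbr : (2 : ℝ) ≤ b := by exact_mod_cast hb
  have hc0 : 0 ≤ (s : ℝ) * 2 ^ (s + 1) * B * ((b : ℝ) * ((0 : ℕ) + 1)) ^ (U + s + 2) := by positivity
  have hp2 : (0 : ℝ) < 2 ^ B1 := by positivity
  have hL1 : 1 ≤ L := by linarith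
  have hL0 : 0 < L := by linarith
  have hLX1 : 1 ≤ LX := by linarith
  have hz : 1 ≤ z := by
    have : (1 : ℝ) ≤ z := (one_le_pow₀ hL1).trans hz1
    exact_mod_cast this
  have hzX1 : LX ^ B1 ≤ z := by
    refine le_trans ?_ hz1
    calc LX ^ B1 ≤ (2 * L) ^ B1 := pow_le_pow_left₀ (by linarith) a2 _
      _ = 2 ^ B1 * L ^ B1 := mul_pow _ _ _
      _ ≤ L * L ^ B1 := mul_le_mul_of_nonneg_right (by linarith) (by positivity)
      _ = L ^ (B1 + 1) := by ring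
  have hzX2 : (z : ℝ) ≤ LX ^ Ez := hz2.trans (pow_le_pow_left₀ hL0.le a3 _)
  have hkX : K < b ^ K := Nat.lt_pow_self (by omega)
  have hV := h2 (b ^ K) (by omega) z hz (by rw [← hLX]; exact hzX2)
  rw [← hLX] at hV
  have hX0 : (0 : ℝ) < ((b ^ K : ℕ) : ℝ) := by exact_mod_cast (by omega : 0 < b ^ K)
  have hbe : ((b ^ K : ℕ) : ℤ) = (b : ℤ) ^ K := by push_cast; ring
  have hup : ∀ i, ∀ n ∈ Icc 1 N, ∀ v ∈ Ω i, (((n : ℤ) + Y i v : ℤ) : ℝ) ≤ ((b ^ K : ℕ) : ℝ) := by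
    intro i n hn v hv
    rw [mem_Icc] at hn
    have h5 := (hY i v hv).2
    rw [← hbe] at h5
    have h6 : (n : ℤ) + Y i v ≤ ((b ^ K : ℕ) : ℤ) := by
      have : (n : ℤ) ≤ N := by exact_mod_cast hn.2
      linarith
    exact_mod_cast h6
  have hk0 : (0 : ℝ) < K := by exact_mod_cast (by omega : 0 < K)
  have key := tele_w N Ω p (fun i v hv => (hlaw i).nonneg v hv)
    hsum (fun i n v => lamI ((n : ℤ) + Y i v))
    (fun i n v => lamzI z ((n : ℤ) + Y i v))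
    LX (((b ^ K : ℕ) : ℝ) / (K : ℝ) ^ (U + s + 2)) hLX1 (by positivity) (by
      intro i n hn v hv
      rw [abs_of_nonneg (lamI_nonneg _), hLX]
      exact lamI_le _ _ (by exact_mod_cast (by omega : 1 ≤ b ^ K)) (hup i n hn v hv)) (by
      intro i n hn v hv
      rw [abs_of_nonneg (lamzI_nonneg _ _)]
      exact (lamzI_le z _).trans hV) (by
      intro i Q hQ G hG
      exact h1 K (by omega) z (by rw [← hLX]; exact hzX1) (by rw [← hLX]; exact hzX2) α (Ω i) (p i) (Y i) (hlaw i) N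
        (by rw [← hbe]; exact_mod_cast hN2) (hY i) Q hQ G hG)
    univ LX (by linarith) (fun n _ => g n) (by
      intro n hn m _
      exact hg n hn) (by
      intro n m v i _; rfl)
  rw [card_univ, Fintype.card_fin] at key
  refine key.trans ?_
  apply diff_num L LX K _ N (b * ((0 : ℕ) + 1)) B s U hL1 (by linarith) a2 hk0 a4 (by positivity) _ hX0.le (Nat.cast_nonneg _)
    (by positivity) (by linarith)
  exact_mod_cast hN1

/-- the prime tuples conjecture for random shifts with a thin large spectrum -/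
theorem tl_tuples (s b E c B U : ℕ) (hs : 1 ≤ s) (hb : 2 ≤ b) (hE : 1 ≤ E) (ε : ℝ) (hε : 0 < ε) : ∃ K₀ : ℕ, ∀ K : ℕ, K₀ ≤ K →
    ∀ (α : Type) (_ : DecidableEq α) (Ω : Fin s → Finset α) (p : Fin s → α → ℝ) (Y : Fin s → α → ℤ),
    (∀ i, TLaw b E c (2 * (2 * U + 5 + s + 2) + 6) K (Ω i) (p i) (Y i)) → (∀ i, ∑ v ∈ Ω i, p i v = 1) →
    ∀ N : ℕ, b ^ K ≤ B * N → N ≤ b ^ K → (∀ i, ∀ v ∈ Ω i, -(b : ℤ) ^ K < Y i v ∧ N + Y i v ≤ (b : ℤ) ^ K) →
    ∀ Ev : (Fin s → α) → Prop, ∀ _hdec : DecidablePred Ev,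
    (∀ ω ∈ Fintype.piFinset Ω, Ev ω → (∀ i, 0 ≤ Y i (ω i)) ∧ ¬ HLs ε U N (fun i => (Y i (ω i)).toNat)) →
    ∑ ω ∈ Fintype.piFinset Ω, (if Ev ω then ∏ i, p i (ω i) else 0) ≤ 1 / (K : ℝ) ^ U := by
  classical
  have hbr : (2 : ℝ) ≤ b := by exact_mod_cast hb
  obtain ⟨B0, hB0⟩ := tl_diffs s b E c B hb hE (2 * U + 5)
  obtain ⟨E1, hE1⟩ : ∃ E1, E1 = B0 + U + s + 5 := ⟨_, rfl⟩
  obtain ⟨k1, h1⟩ := hB0 (E1 + 1)
  obtain ⟨n2, h2⟩ := det3 s B E1 U hs ε hε (by omega)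
  obtain ⟨k3, h3⟩ := sizes b B 0 hb 2
  obtain ⟨k4, hk4⟩ := exists_nat_ge ((s : ℝ) + s * s + 2 * 4 ^ (U + 3))
  obtain ⟨k5, h5⟩ := tl_point b hb E c (U + 3) hE
  refine ⟨k1 + k3 + k4 + k5 + B * n2 + 1, fun K hK α hα Ω p Y hlaw hsum N hN1 hN2 hY Ev _ hEv => ?_⟩
  have hbn : 0 < b := by omega
  obtain ⟨hN0, a1, a2, a3, a4, a5⟩ := h3 K (by omega) N hN1 (by rw [add_zero]; exact hN2)
  rw [add_zero] at a2 a3
  obtain ⟨L, hL⟩ : ∃ L, L = Real.log (N : ℝ) := ⟨_, rfl⟩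
  rw [← hL] at a1 a3 a5
  have hL0 : 0 < L := by linarith
  have hNr : (0 : ℝ) < N := by exact_mod_cast hN0
  have hkb : K < b ^ K := Nat.lt_pow_self (by omega)
  have hNn2 : n2 ≤ N := by
    by_contra hcon
    push Not at hcon
    have : B * N ≤ B * n2 := Nat.mul_le_mul_left _ hcon.le
    omega
  -- the level
  obtain ⟨z, hz⟩ : ∃ z, z = ⌈L ^ E1⌉₊ := ⟨_, rfl⟩
  have hz1 : L ^ E1 ≤ z := by rw [hz]; exact Nat.le_ceil _
  have hz2 : (z : ℝ) ≤ L ^ (E1 + 1) := by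
    have q1 : (z : ℝ) < L ^ E1 + 1 := by rw [hz]; exact Nat.ceil_lt_add_one (by positivity)
    have q2 : 1 ≤ L ^ E1 := one_le_pow₀ (by linarith)
    rw [pow_succ]
    nlinarith
  have hz3 : L ^ B0 ≤ z := (pow_le_pow_right₀ (by linarith) (by omega)).trans hz1
  have hD := h1 K (by omega) α hα Ω p Y hlaw hsum N hN1 hN2 hY z (by rw [← hL]; exact hz3) (by rw [← hL]; exact hz2)
    (fun n => ArithmeticFunction.vonMangoldt n) (by
      intro n hn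
      rw [mem_Icc] at hn
      rw [abs_of_nonneg ArithmeticFunction.vonMangoldt_nonneg]
      have q1 : Real.log (n : ℝ) ≤ L := by
        rw [hL]
        apply Real.log_le_log (by exact_mod_cast hn.1)
        exact_mod_cast hn.2
      exact ArithmeticFunction.vonMangoldt_le_log.trans (q1.trans a3))
  rw [← hL] at hD
  have hKr1 : (1 : ℝ) ≤ K := by exact_mod_cast (by omega : 1 ≤ K)
  -- the degenerate vectors
  have hpp : ∀ m ∈ Fintype.piFinset Ω, 0 ≤ ∏ j, p j (m j) := fun m hm =>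
    prod_nonneg fun j _ => (hlaw j).nonneg _ (Fintype.mem_piFinset.1 hm j)
  have hdeg : ∀ (i : Fin s) (g : (Fin s → α) → ℤ), (∀ m v, g (Function.update m i v) = g m) →
      ∑ ω ∈ Fintype.piFinset Ω, (∏ i, p i (ω i)) * (if Y i (ω i) = g ω then (1 : ℝ) else 0) ≤ 1 / (K : ℝ) ^ (U + 3) := by
    intro i g hg
    have e1 := avg_w Ω p hsum i (fun ω => if Y i (ω i) = g ω then (1 : ℝ) else 0)
    rw [← e1]
    have e2 : ∀ m ∈ Fintype.piFinset Ω, (∏ j, p j (m j)) *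
        ∑ v ∈ Ω i, p i v * (if Y i ((Function.update m i v) i) = g (Function.update m i v) then (1 : ℝ) else 0) ≤
        (∏ j, p j (m j)) * (1 / (K : ℝ) ^ (U + 3)) := by
      intro m hm
      apply mul_le_mul_of_nonneg_left _ (hpp m hm)
      refine le_trans (le_of_eq ?_) (h5 K (by omega) α (Ω i) (p i) (Y i) ((hlaw i).mono (by omega) (by omega)) (g m))
      apply sum_congr rfl
      intro v _
      rw [Function.update_self, hg]
    refine (sum_le_sum e2).trans (le_of_eq ?_)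
    rw [← sum_mul, total_w Ω p hsum, one_mul]
  have hdeg1 : ∀ i : Fin s, ∑ ω ∈ Fintype.piFinset Ω, (∏ i, p i (ω i)) * (if Y i (ω i) = 0 then (1 : ℝ) else 0) ≤ 1 / (K : ℝ) ^ (U + 3) :=
    fun i => hdeg i (fun _ => 0) (fun _ _ => rfl)
  have hdeg2 : ∀ i j : Fin s, ∑ ω ∈ Fintype.piFinset Ω, (∏ i, p i (ω i)) * (if j ≠ i ∧ Y i (ω i) = Y j (ω j) then (1 : ℝ) else 0) ≤
      1 / (K : ℝ) ^ (U + 3) := by
    intro i j
    by_cases hij : j ≠ i
    · refine le_trans (le_of_eq ?_) (hdeg i (fun ω => Y j (ω j)) (fun m v => by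
        rw [Function.update_of_ne hij]))
      apply sum_congr rfl
      intro ω _
      simp only [hij, true_and, ne_eq, not_false_eq_true]
    · simp only [hij, false_and, if_false, mul_zero, sum_const_zero]
      positivity
  obtain ⟨DD, hDD⟩ : ∃ DD : (Fin s → α) → ℝ, DD = fun ω => |∑ n ∈ Icc 1 N, ArithmeticFunction.vonMangoldt n *
        (∏ i, lamI ((n : ℤ) + Y i (ω i)) - ∏ i, lamzI z ((n : ℤ) + Y i (ω i)))| := ⟨_, rfl⟩
  have hDDr : ∀ ω, |∑ n ∈ Icc 1 N, ArithmeticFunction.vonMangoldt n *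
        (∏ i, lamI ((n : ℤ) + Y i (ω i)) - ∏ i, lamzI z ((n : ℤ) + Y i (ω i)))| = DD ω :=
    fun ω => by rw [hDD]
  simp only [hDDr] at hD
  obtain ⟨C, hC⟩ : ∃ C : ℝ, C = 1 / ((1 / 2) * (N / L ^ (U + 2))) := ⟨_, rfl⟩
  have hC0 : 0 ≤ C := by rw [hC]; positivity
  have hpt : ∀ ω ∈ Fintype.piFinset Ω, (if Ev ω then ∏ i, p i (ω i) else 0) ≤
      ∑ i : Fin s, (∏ i, p i (ω i)) * (if Y i (ω i) = 0 then (1 : ℝ) else 0) +
      ∑ i : Fin s, ∑ j : Fin s, (∏ i, p i (ω i)) * (if j ≠ i ∧ Y i (ω i) = Y j (ω j) then (1 : ℝ) else 0) +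
      C * ((∏ i, p i (ω i)) * DD ω) := by
    intro ω hω
    have hP0' := hpp ω hω
    obtain ⟨P, hP⟩ : ∃ P, P = ∏ i, p i (ω i) := ⟨_, rfl⟩
    rw [← hP] at hP0' ⊢
    have hDD0 : 0 ≤ DD ω := by rw [← hDDr]; exact abs_nonneg _
    have t1 : ∀ i ∈ (univ : Finset (Fin s)), 0 ≤ P * (if Y i (ω i) = 0 then (1 : ℝ) else 0) := fun i _ =>
      mul_nonneg hP0' (by split_ifs <;> norm_num)
    have t2 : ∀ i ∈ (univ : Finset (Fin s)), ∀ j ∈ (univ : Finset (Fin s)), 0 ≤ P * (if j ≠ i ∧ Y i (ω i) = Y j (ω j) then (1 : ℝ) else 0) :=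
      fun i _ j _ => mul_nonneg hP0' (by split_ifs <;> norm_num)
    have t1' := sum_nonneg t1
    have t2' := sum_nonneg fun i hi => sum_nonneg (t2 i hi)
    have t3 : 0 ≤ C * (P * DD ω) := by positivity
    by_cases hEω : Ev ω
    swap
    · rw [if_neg hEω]
      linarith
    rw [if_pos hEω]
    obtain ⟨hpos, hnot⟩ := hEv ω hω hEω
    by_cases q1 : ∃ i, Y i (ω i) = 0
    · obtain ⟨i, hi⟩ := q1
      have q2 := single_le_sum t1 (mem_univ i)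
      rw [if_pos hi, mul_one] at q2
      linarith
    by_cases q3 : ∃ i j, j ≠ i ∧ Y i (ω i) = Y j (ω j)
    · obtain ⟨i, j, hij⟩ := q3
      have q2 := single_le_sum (f := fun j => P * (if j ≠ i ∧ Y i (ω i) = Y j (ω j) then (1 : ℝ) else 0)) (t2 i (mem_univ i)) (mem_univ j)
      have q4 := single_le_sum (f := fun i => ∑ j : Fin s, P * (if j ≠ i ∧ Y i (ω i) = Y j (ω j) then (1 : ℝ) else 0))
        (fun i hi => sum_nonneg (t2 i hi)) (mem_univ i)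
      rw [if_pos hij, mul_one] at q2
      linarith
    push Not at q1 q3
    -- the main case
    have hnat : ∀ i, (((Y i (ω i)).toNat : ℕ) : ℤ) = Y i (ω i) := fun i => Int.toNat_of_nonneg (hpos i)
    have q5 : (1 / 2) * (N / L ^ (U + 2)) < DD ω := by
      by_contra hcon
      push Not at hcon
      apply hnot
      apply h2 N hNn2 z (by rw [← hL]; exact hz1) (by rw [← hL]; exact hz2) (fun i => (Y i (ω i)).toNat) ?_ ?_ ?_ ?_
      · intro i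
        have r1 := (hY i (ω i) (Fintype.mem_piFinset.1 hω i)).2
        have r2 : (((Y i (ω i)).toNat : ℕ) : ℤ) ≤ ((b ^ K : ℕ) : ℤ) := by
          rw [hnat]
          push_cast
          have : (0 : ℤ) ≤ N := Int.natCast_nonneg _
          linarith
        have r3 : (Y i (ω i)).toNat ≤ b ^ K := by exact_mod_cast r2
        exact r3.trans hN1
      · intro i h0
        apply q1 i
        rw [← hnat i, h0]
        rfl
      · intro i j hij h0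
        apply q3 i j (Ne.symm hij)
        rw [← hnat i, ← hnat j, h0]
      · simp only [hnat]
        rw [hDDr, ← hL]
        exact hcon
    have q6 : 1 ≤ C * DD ω := by
      rw [hC, one_div, ← div_eq_inv_mul, le_div_iff₀ (by positivity), one_mul]
      exact q5.le
    have q7 : P ≤ C * (P * DD ω) := by
      calc P = P * 1 := (mul_one _).symm
        _ ≤ P * (C * DD ω) := mul_le_mul_of_nonneg_left q6 hP0'
        _ = _ := by ring
    linarith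
  refine (sum_le_sum hpt).trans ?_
  rw [sum_add_distrib, sum_add_distrib, ← mul_sum]
  have g1 : ∑ ω ∈ Fintype.piFinset Ω, ∑ i : Fin s, (∏ i, p i (ω i)) * (if Y i (ω i) = 0 then (1 : ℝ) else 0) ≤ s * (1 / (K : ℝ) ^ (U + 3)) := by
    rw [sum_comm]
    refine (sum_le_sum fun i _ => hdeg1 i).trans (le_of_eq ?_)
    rw [sum_const, card_univ, Fintype.card_fin, nsmul_eq_mul]
  have g2 : ∑ ω ∈ Fintype.piFinset Ω, ∑ i : Fin s, ∑ j : Fin s, (∏ i, p i (ω i)) *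
      (if j ≠ i ∧ Y i (ω i) = Y j (ω j) then (1 : ℝ) else 0) ≤ (s * s) * (1 / (K : ℝ) ^ (U + 3)) := by
    rw [sum_comm]
    have g3 : ∀ i ∈ (univ : Finset (Fin s)), ∑ ω ∈ Fintype.piFinset Ω, ∑ j : Fin s, (∏ i, p i (ω i)) *
      (if j ≠ i ∧ Y i (ω i) = Y j (ω j) then (1 : ℝ) else 0) ≤ s * (1 / (K : ℝ) ^ (U + 3)) := by
      intro i _
      rw [sum_comm]
      refine (sum_le_sum fun j _ => hdeg2 i j).trans (le_of_eq ?_)
      rw [sum_const, card_univ, Fintype.card_fin, nsmul_eq_mul]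
    refine (sum_le_sum g3).trans (le_of_eq ?_)
    rw [sum_const, card_univ, Fintype.card_fin, nsmul_eq_mul]
    ring
  have hfin := last_num K L ((s : ℝ) + s * s) _ C (1 / (K : ℝ) ^ (U + 3)) N U hKr1 (by linarith) a5 (by positivity) le_rfl hNr hD hC
    (hk4.trans (by exact_mod_cast (by omega : k4 ≤ K)))
  have g4 : ((s : ℝ) + s * s) * (1 / (K : ℝ) ^ (U + 3)) = s * (1 / (K : ℝ) ^ (U + 3)) + (s * s) * (1 / (K : ℝ) ^ (U + 3)) := by ring
  linarith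

end Pool.Agent.Y885
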