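import Pool.Agent.Y885.WI1
import Pool.Agent.Y885.TU1
import Pool.Agent.W93.PP8
import Pool.Agent.W93.LV6

set_option autoImplicit false

/-! Correlations of the primes with a random shift with a thin large spectrum: all heights, both signs. -/

namespace Pool.Agent.Y885
open Finset
open Pool.Agent.H807R2.Dav
open Pool.Agent.H373R2.T7
open Pool.Agent.W93.DG
open Pool.Agent.W93.AU (dI)
open Pool.Agent.W93.PP (markov)

/-- passing to a multiple of `D` -/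
lemma grid_sum' (H : ℕ → ℝ) (Bh : ℝ) (X D N' : ℕ) (hD : 0 < D) (hN' : N' ≤ X) (hH : ∀ n, 1 ≤ n → n ≤ X → |H n| ≤ Bh) (hBh : 0 ≤ Bh) :
    |∑ n ∈ Icc 1 N', H n| ≤ |∑ n ∈ Icc 1 (N' / D * D), H n| + D * Bh := by
  have hj1 : N' / D * D ≤ N' := Nat.div_mul_le_self _ _
  have e2 : ∑ m ∈ Icc 1 N', H m = ∑ m ∈ Icc 1 (N' / D * D), H m + ∑ m ∈ Ioc (N' / D * D) N', H m := by
    rw [← sum_union]
    · congr 1
      ext m
      rw [mem_union, mem_Icc, mem_Icc, mem_Ioc]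
      omega
    · rw [disjoint_left]
      intro m hm hm'
      rw [mem_Icc] at hm
      rw [mem_Ioc] at hm'
      omega
  rw [e2]
  refine (abs_add_le _ _).trans (add_le_add le_rfl ?_)
  refine (abs_sum_le_sum_abs _ _).trans ?_
  have e4 : ∀ m ∈ Ioc (N' / D * D) N', |H m| ≤ Bh := by
    intro m hm
    rw [mem_Ioc] at hm
    exact hH m (by omega) (by omega)
  refine (sum_le_sum e4).trans ?_
  rw [sum_const, Nat.card_Ioc, nsmul_eq_mul]
  apply mul_le_mul_of_nonneg_right _ hBh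
  have e5 : N' - N' / D * D ≤ D := by
    have := Nat.div_add_mod N' D
    have h6 := Nat.mod_lt N' hD
    rw [mul_comm] at this
    omega
  exact_mod_cast e5

lemma pow_le_two_pow' (V : ℕ) : ∃ k₀ : ℕ, ∀ K : ℕ, k₀ ≤ K → K ^ V ≤ 2 ^ K := by
  have h := (tendsto_pow_const_div_const_pow_of_one_lt V (show (1 : ℝ) < 2 by norm_num)).eventually (gt_mem_nhds zero_lt_one)
  obtain ⟨k₀, hk⟩ := Filter.eventually_atTop.1 h
  refine ⟨k₀, fun K hK => ?_⟩
  have h1 := hk K hK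
  rw [div_lt_one (by positivity)] at h1
  exact_mod_cast h1.le

/-- all heights, both signs -/
theorem tl_grid (b E c Tt U : ℕ) (hb : 2 ≤ b) (hE : 1 ≤ E) : ∃ B : ℕ, ∀ Ez : ℕ, ∃ K₀ : ℕ, ∀ K : ℕ, K₀ ≤ K →
    ∀ z : ℕ, Real.log ((b ^ K : ℕ) : ℝ) ^ B ≤ z → (z : ℝ) ≤ Real.log ((b ^ K : ℕ) : ℝ) ^ Ez →
    ∀ (ι : Type) (Ω : Finset ι) (p : ι → ℝ) (Y : ι → ℤ), TLaw b E c (2 * (3 * U + 2 * Tt + 12) + 6) K Ω p Y →
    ∀ X : ℕ, 4 * X ≤ b ^ K → (∀ ω ∈ Ω, |Y ω| ≤ X) → ∀ G : ℕ → ℝ, (∀ n, |G n| ≤ (K : ℝ) ^ Tt) →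
    ∀ bad : ι → Prop, ∀ _hdec : DecidablePred bad,
    (∀ ω ∈ Ω, bad ω → (∃ N' ≤ X, (b : ℝ) ^ K / (K : ℝ) ^ U < |∑ n ∈ Icc 1 N', G n * dI z ((n : ℤ) + Y ω)|) ∨
      (∃ N' ≤ X, (b : ℝ) ^ K / (K : ℝ) ^ U < |∑ n ∈ Icc 1 N', G n * dI z (Y ω - (n : ℤ))|)) →
    ∑ ω ∈ Ω, (if bad ω then p ω else 0) ≤ 1 / (K : ℝ) ^ U := by
  classical
  obtain ⟨V', hV'⟩ : ∃ V', V' = U + Tt + 4 := ⟨_, rfl⟩
  obtain ⟨V, hV⟩ : ∃ V, V = 3 * U + 2 * Tt + 12 := ⟨_, rfl⟩
  rw [← hV]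
  obtain ⟨B1, hB1⟩ := tl_dif b E c hb hE V
  obtain ⟨B2, hB2⟩ := tl_one b E c hb hE V
  refine ⟨B1 + B2, fun Ez => ?_⟩
  obtain ⟨k1, h1⟩ := hB1 Ez
  obtain ⟨k2, h2⟩ := hB2 Ez
  obtain ⟨k3, h3⟩ := Vz_inv_small Ez
  obtain ⟨k4, h4⟩ := ev_L' 2
  obtain ⟨k5, h5⟩ := pow_le_two_pow' V'
  refine ⟨k1 + k2 + k3 + k4 + k5 + 4 * b + 4, fun K hK z hz1 hz2 ι Ω p Y hlaw X hX hY G hG bad hdec hbad => ?_⟩
  have hb1 : 1 < b := by omega
  have hbr : (2 : ℝ) ≤ b := by exact_mod_cast hb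
  have hKX : K < b ^ K := Nat.lt_pow_self hb1
  have hK0 : (0 : ℝ) < K := by exact_mod_cast (by omega : 0 < K)
  have hKn : 0 < K := by omega
  have hKb : (4 * b + 4 : ℝ) ≤ K := by exact_mod_cast (by omega : 4 * b + 4 ≤ K)
  have hK1 : (1 : ℝ) ≤ K := by linarith
  obtain ⟨L, hL⟩ : ∃ L, L = Real.log ((b ^ K : ℕ) : ℝ) := ⟨_, rfl⟩
  have hlb : 0 < Real.log b := Real.log_pos (by linarith)
  have hlb2 : Real.log b ≤ b := (Real.log_le_sub_one_of_pos (by linarith)).trans (by linarith)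
  have hLK : L = (K : ℝ) * Real.log b := by rw [hL]; push_cast; rw [Real.log_pow]
  have hLbig := h4 (b ^ K) (by omega)
  rw [← hL] at hLbig
  have hL1 : 1 ≤ L := by linarith
  have hL0 : 0 < L := by linarith
  have hz1' : Real.log ((b ^ K : ℕ) : ℝ) ^ B1 ≤ z := by
    refine le_trans ?_ hz1
    rw [← hL]
    exact pow_le_pow_right₀ hL1 (by omega)
  have hz1'' : Real.log ((b ^ K : ℕ) : ℝ) ^ B2 ≤ z := by
    refine le_trans ?_ hz1
    rw [← hL]
    exact pow_le_pow_right₀ hL1 (by omega)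
  have hz : 1 ≤ z := by
    have : (1 : ℝ) ≤ z := by
      refine le_trans ?_ hz1
      rw [← hL]
      exact one_le_pow₀ hL1
    exact_mod_cast this
  have hVz := h3 (b ^ K) (by omega) z hz hz2
  rw [← hL] at hVz
  have hbe : ((b ^ K : ℕ) : ℤ) = (b : ℤ) ^ K := by push_cast; ring
  have hXz : 4 * (X : ℤ) ≤ (b : ℤ) ^ K := by rw [← hbe]; exact_mod_cast hX
  -- the sizes of the values
  have hDb : L + (Vz z)⁻¹ ≤ (K : ℝ) ^ 2 := by
    have e2 : L ≤ b * K := by rw [hLK]; nlinarith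
    have e3 : (4 * b) * (K : ℝ) ≤ K * K := mul_le_mul_of_nonneg_right (by linarith) hK0.le
    have e4 : 0 ≤ (b : ℝ) * K := by positivity
    nlinarith
  have hX1 : 1 ≤ b ^ K := Nat.pow_pos (by omega)
  have hdI : ∀ k : ℤ, k ≤ (b : ℤ) ^ K → |dI z k| ≤ (K : ℝ) ^ 2 := by
    intro k hk
    unfold dI
    refine (abs_sub _ _).trans ?_
    rw [abs_of_nonneg (lamI_nonneg _), abs_of_nonneg (lamzI_nonneg _ _)]
    have e1 : lamI k ≤ L := by
      rw [hL]
      apply lamI_le k ((b ^ K : ℕ) : ℝ) (by exact_mod_cast hX1)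
      rw [← hbe] at hk
      exact_mod_cast hk
    exact le_trans (add_le_add e1 (lamzI_le z k)) hDb
  -- the grid
  have hKV : 0 < K ^ V' := Nat.pow_pos hKn
  obtain ⟨D, hD⟩ : ∃ D, D = b ^ K / K ^ V' + 1 := ⟨_, rfl⟩
  have hD0 : 0 < D := by rw [hD]; exact Nat.succ_pos _
  have hDr : (D : ℝ) ≤ 2 * ((b : ℝ) ^ K / (K : ℝ) ^ V') := by
    have e1 : ((b ^ K / K ^ V' : ℕ) : ℝ) ≤ (b : ℝ) ^ K / (K : ℝ) ^ V' := by
      have := @Nat.cast_div_le ℝ _ _ _ (b ^ K) (K ^ V')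
      push_cast at this
      exact this
    have e2 : 1 ≤ (b : ℝ) ^ K / (K : ℝ) ^ V' := by
      rw [le_div_iff₀ (by positivity), one_mul]
      have : K ^ V' ≤ b ^ K := (h5 K (by omega)).trans (Nat.pow_le_pow_left hb K)
      exact_mod_cast this
    rw [hD]
    push_cast
    push_cast at e1
    linarith
  have hjK : ∀ j : ℕ, j * D ≤ X → j < K ^ V' := by
    intro j hj
    by_contra hcon
    push Not at hcon
    have e1 : K ^ V' * D ≤ X := le_trans (Nat.mul_le_mul_right _ hcon) hj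
    have e2 : b ^ K < K ^ V' * D := by
      rw [hD]
      exact Nat.lt_mul_div_succ (b ^ K) hKV
    omega
  -- the events
  obtain ⟨F, hF⟩ : ∃ F : ι → ℕ × Bool → ℝ, ∀ ω i, F ω i = if i.2 then |∑ n ∈ Icc 1 (min (i.1 * D) X), G n * dI z ((n : ℤ) + Y ω)|
    else |∑ n ∈ Icc 1 (min (i.1 * D) X), G n * dI z (Y ω - (n : ℤ))| := ⟨_, fun _ _ => rfl⟩
  have hKT : (0 : ℝ) < (K : ℝ) ^ Tt := by positivity
  have hthr : (0 : ℝ) < (b : ℝ) ^ K / (K : ℝ) ^ (U + 1) := by positivity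
  have key := markov Ω (range (K ^ V') ×ˢ (univ : Finset Bool)) p hlaw.nonneg F (by
      intro ω i
      rw [hF]
      split_ifs <;> exact abs_nonneg _) bad ((b : ℝ) ^ K / (K : ℝ) ^ (U + 1)) ((K : ℝ) ^ Tt * (((b ^ K : ℕ) : ℝ) / (K : ℝ) ^ V)) hthr (by
      intro ω hω hb'
      have hYω := hY ω hω
      rw [abs_le] at hYω
      have hnum : (b : ℝ) ^ K / (K : ℝ) ^ (U + 1) + D * ((K : ℝ) ^ Tt * (K : ℝ) ^ 2) ≤ (b : ℝ) ^ K / (K : ℝ) ^ U := by
        have e2 : (D : ℝ) * ((K : ℝ) ^ Tt * (K : ℝ) ^ 2) ≤ (b : ℝ) ^ K / (K : ℝ) ^ U * (2 / K ^ 2) := by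
          refine (mul_le_mul_of_nonneg_right hDr (by positivity)).trans (le_of_eq ?_)
          rw [hV', show (K : ℝ) ^ (U + Tt + 4) = K ^ U * K ^ Tt * (K ^ 2 * K ^ 2) by ring]
          field_simp
        have e3 : (b : ℝ) ^ K / (K : ℝ) ^ (U + 1) = (b : ℝ) ^ K / (K : ℝ) ^ U * (1 / K) := by
          rw [pow_succ]; field_simp
        have e11 : (2 : ℝ) / K ^ 2 + 1 / K ≤ 1 := by
          rw [div_add_div _ _ (by positivity) (by positivity), div_le_one (by positivity)]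
          nlinarith
        have e12 : 0 < (b : ℝ) ^ K / (K : ℝ) ^ U := by positivity
        have e13 : (b : ℝ) ^ K / (K : ℝ) ^ U * (2 / K ^ 2 + 1 / K) ≤ (b : ℝ) ^ K / (K : ℝ) ^ U * 1 :=
          mul_le_mul_of_nonneg_left e11 e12.le
        rw [e3]
        linarith
      rcases hbad ω hω hb' with ⟨N', hN', hbig⟩ | ⟨N', hN', hbig⟩
      · have e1 := grid_sum' (fun n => G n * dI z ((n : ℤ) + Y ω)) ((K : ℝ) ^ Tt * (K : ℝ) ^ 2) X D N' hD0 hN' (by
          intro n hn1 hn2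
          rw [abs_mul]
          have hnb : (n : ℤ) ≤ X := by exact_mod_cast hn2
          exact mul_le_mul (hG n) (hdI _ (by linarith)) (abs_nonneg _) (by positivity)) (by positivity)
        have hj2 : N' / D * D ≤ X := (Nat.div_mul_le_self _ _).trans hN'
        refine ⟨(N' / D, true), mem_product.2 ⟨mem_range.2 (hjK _ hj2), mem_univ _⟩, ?_⟩
        rw [hF, if_pos rfl]
        simp only
        rw [min_eq_left hj2]
        linarith
      · have e1 := grid_sum' (fun n => G n * dI z (Y ω - (n : ℤ))) ((K : ℝ) ^ Tt * (K : ℝ) ^ 2) X D N' hD0 hN' (by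
          intro n hn1 hn2
          rw [abs_mul]
          have hnb : (0 : ℤ) ≤ n := by positivity
          exact mul_le_mul (hG n) (hdI _ (by linarith)) (abs_nonneg _) (by positivity)) (by positivity)
        have hj2 : N' / D * D ≤ X := (Nat.div_mul_le_self _ _).trans hN'
        refine ⟨(N' / D, false), mem_product.2 ⟨mem_range.2 (hjK _ hj2), mem_univ _⟩, ?_⟩
        rw [hF, if_neg (by simp)]
        simp only
        rw [min_eq_left hj2]
        linarith) (by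
      intro i _
      obtain ⟨M, hM⟩ : ∃ M, M = min (i.1 * D) X := ⟨_, rfl⟩
      have hMX : M ≤ X := by rw [hM]; exact min_le_right _ _
      have hMz : (M : ℤ) ≤ X := by exact_mod_cast hMX
      have hXz0 : (0 : ℤ) ≤ X := by positivity
      have hbz4 : (4 : ℤ) ≤ (b : ℤ) ^ K := by rw [← hbe]; exact_mod_cast (by omega : 4 ≤ b ^ K)
      by_cases hi : i.2 = true
      · have g := h1 K (by omega) z hz1' hz2 ι Ω p Y hlaw M (by linarith) (by
          intro ω hω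
          have hYω := hY ω hω
          rw [abs_le] at hYω
          constructor <;> linarith) ((K : ℝ) ^ Tt) hKT G (fun n _ => hG n)
        refine le_trans (le_of_eq ?_) g
        apply sum_congr rfl
        intro ω _
        rw [hF, if_pos hi, ← hM]
        rfl
      · have g := h2 K (by omega) z hz1'' hz2 ι Ω p Y hlaw M (by
          intro ω hω
          have hYω := hY ω hω
          linarith) (by linarith) ((K : ℝ) ^ Tt) hKT G (fun n _ => hG n)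
        refine le_trans (le_of_eq ?_) g
        apply sum_congr rfl
        intro ω _
        rw [hF, if_neg hi, ← hM]
        rfl)
  refine key.trans ?_
  rw [card_product, card_range, card_univ, Fintype.card_bool, div_le_div_iff₀ hthr (by positivity)]
  push_cast
  have e1 : (K : ℝ) ^ V' * 2 * ((K : ℝ) ^ Tt * ((b : ℝ) ^ K / (K : ℝ) ^ V)) * (K : ℝ) ^ U =
      (2 / (K : ℝ) ^ 7) * ((b : ℝ) ^ K / (K : ℝ) ^ (U + 1)) := by
    rw [hV, hV', show (K : ℝ) ^ (3 * U + 2 * Tt + 12) = K ^ (U + Tt + 4) * K ^ Tt * K ^ U * K ^ (U + 1) * K ^ 7 by ring]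
    field_simp
  rw [e1]
  apply mul_le_mul_of_nonneg_right _ hthr.le
  rw [div_le_one (by positivity)]
  have : (K : ℝ) ≤ K ^ 7 := le_self_pow₀ hK1 (by norm_num)
  linarith

end Pool.Agent.Y885
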