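import Pool.Agent.Y885.LD1
import Pool.Agent.TH872.GQ.Dual

set_option autoImplicit false

/-! The level of distribution `X exp(- D (log log X)^2)` for a random residue with a thin large spectrum. -/

namespace Pool.Agent.Y885
open Finset
open Pool.Agent.H807R2.Dav
open Pool.Agent.H373R2.T7
open Pool.Agent.W93.DG
open Pool.Agent.W93.AU (dI)
open Pool.Agent.W93.LV
open Pool.Agent.TH212.EH (W WW)

/-- the size of the sieve weights -/
lemma W_size (K E1 T U z : ℕ) (L : ℝ) (hK : 3 ≤ K) (hL : 54 ≤ L) (hLK : L ≤ (K : ℝ) ^ 2) (hz : 1 ≤ z) (hz2 : (z : ℝ) ≤ L ^ (E1 + 1)) :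
    ∃ r : ℕ, Real.exp (3 * (1 + Real.log z) - r) ≤ 1 / L ^ (T + U + 3) ∧
      54 * L ^ (T + U + 4) * ((z : ℝ) + 1) ^ r ≤
        Real.exp (((2 * (6 * E1 + 2 * T + 2 * U + 17) * (E1 + 2) + 2 * (T + U + 5) : ℕ) : ℝ) * Real.log K ^ 2) := by
  have hL0 : 0 < L := by linarith
  have hL1 : 1 ≤ L := by linarith
  have hK0 : (0 : ℝ) < K := by exact_mod_cast (by omega : 0 < K)
  have hlK : 1 ≤ Real.log K := by
    rw [Real.le_log_iff_exp_le hK0]
    have : (3 : ℝ) ≤ K := by exact_mod_cast hK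
    linarith [Real.exp_one_lt_d9]
  have hlL0 : 0 ≤ Real.log L := Real.log_nonneg hL1
  have hlL : Real.log L ≤ 2 * Real.log K := by
    have := Real.log_le_log hL0 hLK
    rwa [Real.log_pow] at this
  have hz0 : (0 : ℝ) < z := by exact_mod_cast hz
  have hlz0 : 0 ≤ Real.log z := Real.log_natCast_nonneg z
  have hlz : Real.log z ≤ (E1 + 1) * Real.log L := by
    have := Real.log_le_log hz0 hz2
    rw [Real.log_pow] at this
    push_cast at this
    exact this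
  refine ⟨⌈3 * (1 + Real.log z) + (T + U + 3) * Real.log L⌉₊, ?_, ?_⟩
  · have h1 := Nat.le_ceil (3 * (1 + Real.log z) + (T + U + 3) * Real.log L)
    calc Real.exp (3 * (1 + Real.log z) - (⌈3 * (1 + Real.log z) + (T + U + 3) * Real.log L⌉₊ : ℕ)) ≤
        Real.exp (-((T + U + 3) * Real.log L)) := Real.exp_le_exp.2 (by linarith)
      _ = 1 / L ^ (T + U + 3) := by
          rw [Real.exp_neg, one_div]
          congr 1
          rw [mul_comm, ← Real.rpow_def_of_pos hL0, show ((T : ℝ) + U + 3) = ((T + U + 3 : ℕ) : ℝ) by push_cast; ring, Real.rpow_natCast]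
  · obtain ⟨r, hr⟩ : ∃ r, r = ⌈3 * (1 + Real.log z) + (T + U + 3) * Real.log L⌉₊ := ⟨_, rfl⟩
    rw [← hr]
    have hr1 : (r : ℝ) ≤ (6 * E1 + 2 * T + 2 * U + 17) * Real.log K := by
      have h1 : (r : ℝ) < 3 * (1 + Real.log z) + (T + U + 3) * Real.log L + 1 := by
        rw [hr]; exact Nat.ceil_lt_add_one (by positivity)
      have hE : (0 : ℝ) ≤ E1 := Nat.cast_nonneg _
      have hT : (0 : ℝ) ≤ T := Nat.cast_nonneg _
      have hU : (0 : ℝ) ≤ U := Nat.cast_nonneg _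
      have h2 : ((E1 : ℝ) + 1) * Real.log L ≤ (E1 + 1) * (2 * Real.log K) := mul_le_mul_of_nonneg_left hlL (by positivity)
      have h3 : ((T : ℝ) + U + 3) * Real.log L ≤ (T + U + 3) * (2 * Real.log K) := mul_le_mul_of_nonneg_left hlL (by positivity)
      nlinarith
    have hr0 : (0 : ℝ) ≤ r := Nat.cast_nonneg _
    have hw : Real.log ((z : ℝ) + 1) ≤ 2 * (E1 + 2) * Real.log K := by
      have h1 : (z : ℝ) + 1 ≤ L ^ (E1 + 2) := by
        have h2 : 1 ≤ L ^ (E1 + 1) := one_le_pow₀ hL1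
        rw [pow_succ L (E1 + 1)]
        nlinarith
      have h3 := Real.log_le_log (by linarith) h1
      rw [Real.log_pow] at h3
      push_cast at h3
      have h4 : ((E1 : ℝ) + 2) * Real.log L ≤ (E1 + 2) * (2 * Real.log K) := mul_le_mul_of_nonneg_left hlL (by positivity)
      linarith
    have hw0 : 0 ≤ Real.log ((z : ℝ) + 1) := Real.log_nonneg (by linarith)
    have h5 : ((z : ℝ) + 1) ^ r ≤ Real.exp (2 * (6 * E1 + 2 * T + 2 * U + 17) * (E1 + 2) * Real.log K ^ 2) := by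
      rw [← Real.exp_log (by positivity : (0 : ℝ) < ((z : ℝ) + 1) ^ r), Real.log_pow]
      apply Real.exp_le_exp.2
      calc (r : ℝ) * Real.log ((z : ℝ) + 1) ≤ ((6 * E1 + 2 * T + 2 * U + 17) * Real.log K) * (2 * (E1 + 2) * Real.log K) :=
            mul_le_mul hr1 hw hw0 (by positivity)
        _ = _ := by ring
    have h6 : 54 * L ^ (T + U + 4) ≤ Real.exp (2 * (T + U + 5) * Real.log K ^ 2) := by
      calc 54 * L ^ (T + U + 4) ≤ L * L ^ (T + U + 4) := mul_le_mul_of_nonneg_right hL (by positivity)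
        _ = L ^ (T + U + 5) := by rw [← pow_succ']
        _ = Real.exp ((T + U + 5) * Real.log L) := by
            rw [mul_comm, ← Real.rpow_def_of_pos hL0, show ((T : ℝ) + U + 5) = ((T + U + 5 : ℕ) : ℝ) by push_cast; ring, Real.rpow_natCast]
        _ ≤ Real.exp (2 * (T + U + 5) * Real.log K ^ 2) := by
            apply Real.exp_le_exp.2
            have h7 : Real.log K ≤ Real.log K ^ 2 := by nlinarith
            calc ((T : ℝ) + U + 5) * Real.log L ≤ (T + U + 5) * (2 * Real.log K ^ 2) :=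
                  mul_le_mul_of_nonneg_left (by linarith) (by positivity)
              _ = _ := by ring
    calc 54 * L ^ (T + U + 4) * ((z : ℝ) + 1) ^ r ≤ Real.exp (2 * (T + U + 5) * Real.log K ^ 2) *
          Real.exp (2 * (6 * E1 + 2 * T + 2 * U + 17) * (E1 + 2) * Real.log K ^ 2) :=
            mul_le_mul h6 h5 (by positivity) (Real.exp_pos _).le
      _ = _ := by
          rw [← Real.exp_add]
          congr 1
          push_cast
          ring

/-- the level of distribution for a random residue -/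
theorem tl_level (T₀ U₀ : ℕ) : ∃ V : ℕ, ∀ b E Bc c : ℕ, 2 ≤ b → 1 ≤ E → 1 ≤ Bc → ∃ D k₀ : ℕ, ∀ K : ℕ, k₀ ≤ K →
    ∀ (ι : Type) (Ω : Finset ι) (p : ι → ℝ) (Y : ι → ℤ), TLaw b E c V K Ω p Y →
    ∀ X : ℕ, 4 * X ≤ b ^ K → b ^ K ≤ Bc * X → (∀ ω ∈ Ω, |Y ω| ≤ X) →
    ∀ lam : ℕ → ℝ, (∀ q, |lam q| ≤ (K : ℝ) ^ T₀) → ∀ Q : ℕ, (Q : ℝ) * Real.exp ((D : ℝ) * Real.log K ^ 2) ≤ X →
    ∀ bad : ι → Prop, ∀ _hdec : DecidablePred bad,
    (∀ ω ∈ Ω, bad ω → 0 < Y ω ∧ ∃ y ≤ X, (X : ℝ) / (K : ℝ) ^ U₀ < |W lam Q y (Y ω).toNat|) →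
    ∑ ω ∈ Ω, (if bad ω then p ω else 0) ≤ 1 / (K : ℝ) ^ U₀ := by
  classical
  obtain ⟨T, hT⟩ : ∃ T, T = T₀ + 2 := ⟨_, rfl⟩
  obtain ⟨U, hU⟩ : ∃ U, U = U₀ + 2 := ⟨_, rfl⟩
  obtain ⟨Tt, hTt⟩ : ∃ Tt, Tt = 2 * (T + (T + U + 5)) := ⟨_, rfl⟩
  obtain ⟨U1, hU1⟩ : ∃ U1, U1 = 2 * (U + 1) + 1 := ⟨_, rfl⟩
  refine ⟨2 * (3 * U1 + 2 * Tt + 12) + 6, fun b E Bc c hb hE hBc => ?_⟩
  obtain ⟨B0, hB⟩ := tl_grid b E c Tt U1 hb hE
  obtain ⟨E1, hE1⟩ : ∃ E1, E1 = (B0 + 1) + T + U + 5 := ⟨_, rfl⟩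
  obtain ⟨n0, h0⟩ := hB (E1 + 1)
  obtain ⟨n2, h2⟩ := Vz_inv_small (E1 + 1)
  obtain ⟨n4, h4⟩ := ev_L' (508 + 2 ^ T₀ + 2 ^ U₀ + 2 ^ B0 + Bc)
  obtain ⟨n5, h5⟩ := pow_le_two_pow' 2
  refine ⟨2 * (6 * E1 + 2 * T + 2 * U + 17) * (E1 + 2) + 2 * (T + U + 5),
    n0 + n2 + n4 + n5 + 16 * b + 16 * Bc + 16, fun K hK ι Ω p Y hlaw X hX1 hX2 hY lam hlam Q hQ bad hdec hbad => ?_⟩
  have hb1 : 1 < b := by omega
  have hbr : (2 : ℝ) ≤ b := by exact_mod_cast hb
  have hK0 : (0 : ℝ) < K := by exact_mod_cast (by omega : 0 < K)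
  have hK1 : (1 : ℝ) ≤ K := by exact_mod_cast (by omega : 1 ≤ K)
  have hKb : (b : ℝ) ≤ K := by exact_mod_cast (by omega : b ≤ K)
  have hKB : (16 * Bc : ℝ) ≤ K := by exact_mod_cast (by omega : 16 * Bc ≤ K)
  have hBr : (1 : ℝ) ≤ Bc := by exact_mod_cast hBc
  have hKX : K ≤ X := by
    have e1 : K ^ 2 ≤ b ^ K := (h5 K (by omega)).trans (Nat.pow_le_pow_left hb K)
    have e2 : K * K ≤ Bc * X := by rw [← pow_two]; exact e1.trans hX2
    have e3 : Bc * K ≤ K * K := Nat.mul_le_mul_right _ (by omega)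
    exact Nat.le_of_mul_le_mul_left (e3.trans e2) (by omega)
  have hXn : 1 ≤ X := by omega
  have hXr : (1 : ℝ) ≤ X := by exact_mod_cast hXn
  have hX0 : (0 : ℝ) < X := by linarith
  obtain ⟨L, hL⟩ : ∃ L, L = Real.log (X : ℝ) := ⟨_, rfl⟩
  have hbig0 := h4 X (by omega)
  rw [← hL] at hbig0
  have hpT : (0 : ℝ) < 2 ^ T₀ := by positivity
  have hpU : (0 : ℝ) < 2 ^ U₀ := by positivity
  have hpB : (0 : ℝ) < 2 ^ B0 := by positivity
  have hL1 : 1 ≤ L := by linarith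
  have hL0 : 0 < L := by linarith
  obtain ⟨L', hL'⟩ : ∃ L', L' = Real.log ((b ^ K : ℕ) : ℝ) := ⟨_, rfl⟩
  have hLK' : L' = (K : ℝ) * Real.log b := by rw [hL']; push_cast; rw [Real.log_pow]
  have hlb : 1 / 2 ≤ Real.log b := by
    have q1 : (1 : ℝ) / 2 ≤ Real.log 2 := by linarith [Real.log_two_gt_d9]
    exact q1.trans (Real.log_le_log (by norm_num) hbr)
  have hlb2 : Real.log b ≤ b := (Real.log_le_sub_one_of_pos (by linarith)).trans (by linarith)
  have hbKpos : (0 : ℝ) < ((b ^ K : ℕ) : ℝ) := by exact_mod_cast Nat.pow_pos (by omega : 0 < b)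
  have hLL1 : L ≤ L' := by
    rw [hL, hL']
    exact Real.log_le_log hX0 (by exact_mod_cast (by omega : X ≤ b ^ K))
  have hlBc : Real.log Bc ≤ Bc := (Real.log_le_sub_one_of_pos (by linarith)).trans (by linarith)
  have hLL2 : L' ≤ L + Bc := by
    have e1 : ((b ^ K : ℕ) : ℝ) ≤ Bc * X := by exact_mod_cast hX2
    have e2 := Real.log_le_log hbKpos e1
    rw [Real.log_mul (by linarith) (by linarith)] at e2
    rw [hL', hL]
    linarith
  have hKL : (K : ℝ) ≤ 4 * L := by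
    have e1 : (K : ℝ) * (1 / 2) ≤ L' := by rw [hLK']; exact mul_le_mul_of_nonneg_left hlb hK0.le
    linarith
  have hLK2 : L ≤ (K : ℝ) ^ 2 := by
    refine hLL1.trans ?_
    rw [hLK', pow_two]
    exact mul_le_mul_of_nonneg_left (hlb2.trans hKb) hK0.le
  -- the conversions
  have h4p : ∀ n : ℕ, (4 : ℝ) ^ n = 2 ^ n * 2 ^ n := by
    intro n
    rw [← mul_pow]
    norm_num
  have hconv : ∀ n : ℕ, (2 : ℝ) ^ n ≤ L → (K : ℝ) ^ n ≤ L ^ (n + 2) := by
    intro n hn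
    calc (K : ℝ) ^ n ≤ (4 * L) ^ n := pow_le_pow_left₀ hK0.le hKL _
      _ = 2 ^ n * 2 ^ n * L ^ n := by rw [mul_pow, h4p]
      _ ≤ L * L * L ^ n := by gcongr
      _ = L ^ (n + 2) := by ring
  have hlam' : ∀ q, |lam q| ≤ L ^ T := by
    intro q
    refine (hlam q).trans ?_
    rw [hT]
    exact hconv T₀ (by linarith)
  have hUU : (X : ℝ) / L ^ U ≤ X / (K : ℝ) ^ U₀ := by
    apply div_le_div_of_nonneg_left hX0.le (by positivity)
    rw [hU]
    exact hconv U₀ (by linarith)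
  -- the level
  obtain ⟨z, hz⟩ : ∃ z, z = ⌈L ^ E1⌉₊ := ⟨_, rfl⟩
  have hz1 : L ^ E1 ≤ z := by rw [hz]; exact Nat.le_ceil _
  have hz2 : (z : ℝ) ≤ L ^ (E1 + 1) := by
    have q1 : (z : ℝ) < L ^ E1 + 1 := by rw [hz]; exact Nat.ceil_lt_add_one (by positivity)
    have q2 : 1 ≤ L ^ E1 := one_le_pow₀ (by linarith)
    rw [pow_succ]
    nlinarith
  have hz3 : L' ^ B0 ≤ z := by
    refine le_trans ?_ hz1
    calc L' ^ B0 ≤ (2 * L) ^ B0 := pow_le_pow_left₀ (by linarith) (by linarith) _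
      _ = 2 ^ B0 * L ^ B0 := mul_pow _ _ _
      _ ≤ L * L ^ B0 := mul_le_mul_of_nonneg_right (by linarith) (by positivity)
      _ = L ^ (B0 + 1) := by ring
      _ ≤ L ^ E1 := pow_le_pow_right₀ hL1 (by omega)
  have hz4 : (z : ℝ) ≤ L' ^ (E1 + 1) := hz2.trans (pow_le_pow_left₀ hL0.le hLL1 _)
  have hzge : 1 ≤ z := by
    have : (1 : ℝ) ≤ z := (one_le_pow₀ hL1).trans hz1
    exact_mod_cast this
  have hV := h2 X (by omega) z hzge (by rw [← hL]; exact hz2)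
  rw [← hL] at hV
  -- the sieve
  obtain ⟨r, hr1, hr2⟩ := W_size K E1 T U z L (by omega) (by linarith) hLK2 hzge hz2
  obtain ⟨w, hw⟩ : ∃ w : ℝ, w = ((z : ℝ) + 1) ^ r := ⟨_, rfl⟩
  rw [← hw] at hr2
  have hw1 : 1 ≤ w := by rw [hw]; exact one_le_pow₀ (by linarith [(Nat.cast_nonneg z : (0 : ℝ) ≤ z)])
  have hQW : 54 * L ^ (T + U + 4) * ((Q : ℝ) * w) ≤ X := by
    calc 54 * L ^ (T + U + 4) * ((Q : ℝ) * w) = Q * (54 * L ^ (T + U + 4) * w) := by ring
      _ ≤ Q * Real.exp (((2 * (6 * E1 + 2 * T + 2 * U + 17) * (E1 + 2) + 2 * (T + U + 5) : ℕ) : ℝ) * Real.log K ^ 2) :=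
          mul_le_mul_of_nonneg_left hr2 (Nat.cast_nonneg _)
      _ ≤ X := hQ
  have hQX : Q ≤ X := by
    have q1 : (Q : ℝ) ≤ X := by
      refine le_trans ?_ hQ
      exact le_mul_of_one_le_right (Nat.cast_nonneg _) (Real.one_le_exp (by positivity))
    exact_mod_cast q1
  have hτ : (0 : ℝ) < L ^ (T + U + 5) := by positivity
  have hthr : (b : ℝ) ^ K / (K : ℝ) ^ U1 ≤ X / L ^ (U + 1) := by
    have e1 : (b : ℝ) ^ K ≤ K * X := by
      have e2 : (b : ℝ) ^ K ≤ Bc * X := by exact_mod_cast hX2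
      exact e2.trans (mul_le_mul_of_nonneg_right (by linarith) hX0.le)
    have e3 : L ^ (U + 1) ≤ (K : ℝ) ^ (2 * (U + 1)) := by
      rw [pow_mul]
      exact pow_le_pow_left₀ hL0.le hLK2 _
    rw [div_le_div_iff₀ (by positivity) (by positivity), hU1]
    calc (b : ℝ) ^ K * L ^ (U + 1) ≤ (K * X) * (K : ℝ) ^ (2 * (U + 1)) := mul_le_mul e1 e3 (by positivity) (by positivity)
      _ = X * (K : ℝ) ^ (2 * (U + 1) + 1) := by ring
  -- the exceptional set
  obtain ⟨G, hG⟩ : ∃ G : ℕ → ℝ, G = DT lam Q (L ^ (T + U + 5)) := ⟨_, rfl⟩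
  have hGb : ∀ n, |G n| ≤ (K : ℝ) ^ Tt := by
    intro n
    rw [hG, hTt]
    refine (DT_le lam Q _ (L ^ T) hτ.le hlam' n).trans ?_
    rw [← pow_add, pow_mul]
    exact pow_le_pow_left₀ hL0.le hLK2 _
  have key := h0 K (by omega) z (by rw [← hL']; exact hz3) (by rw [← hL']; exact hz4) ι Ω p Y hlaw X hX1 hY G hGb bad hdec (by
      intro ω hω hb'
      obtain ⟨ha0, y, hy, hlt⟩ := hbad ω hω hb'
      obtain ⟨a, ha⟩ : ∃ a, a = (Y ω).toNat := ⟨_, rfl⟩
      rw [← ha] at hlt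
      have haY : (a : ℤ) = Y ω := by rw [ha]; exact Int.toNat_of_nonneg ha0.le
      have ha1 : 1 ≤ a := by
        have : (0 : ℤ) < a := by rw [haY]; exact ha0
        exact_mod_cast this
      have haX : a ≤ X := by
        have h9 := hY ω hω
        rw [abs_le, ← haY] at h9
        exact_mod_cast h9.2
      rw [← haY]
      by_contra hcon
      rw [not_or] at hcon
      obtain ⟨c1, c2⟩ := hcon
      push Not at c1 c2
      rw [hG] at c1 c2
      have s1 := (c1 (y - a) (by omega)).trans hthr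
      have s2 := (c2 (a - 1) (by omega)).trans hthr
      have s3 := (c2 (a - 1 - y) (by omega)).trans hthr
      have d1 := det1 lam Q y a z r X (L ^ T) L L ha1 hzge haX hy hQX hlam' hV hL.symm le_rfl hL1
      have d2 := three lam Q a y z X (L ^ (T + U + 5)) (L ^ T) L hτ hlam' ha1 haX hy hL.symm hV hL1
      rw [← hw] at d1
      have d3 : 1 + Real.log (X : ℝ) ≤ 2 * L := by rw [← hL]; linarith
      have d4 : L * (L ^ T / L ^ (T + U + 5) * (X * (1 + Real.log X) ^ 3)) ≤ L * (L ^ T / L ^ (T + U + 5) * (X * (2 * L) ^ 3)) := by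
        have g0 := log1_nonneg X
        gcongr
      have d5 := fin_num L L X X Q w (Real.exp (3 * (1 + Real.log z) - r)) z _ _ _ 1 T U E1 hL1 hL1 (by linarith) hX0
        (by ring) (by norm_num) (Nat.cast_nonneg Q) hw1 (Real.exp_pos _).le hr1 (by exact_mod_cast hzge) hz1 (by omega) hQW (by linarith) s1 s2 s3
      unfold W at hlt
      linarith)
  refine key.trans ?_
  apply one_div_le_one_div_of_le (by positivity)
  exact pow_le_pow_right₀ hK1 (by omega)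

end Pool.Agent.Y885
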