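import Pool.Agent.Y885.LD2

set_option autoImplicit false

/-! The level of distribution for a random residue with a thin large spectrum: divisor-bounded weights, heights
which depend on the modulus, absolute values over the moduli. -/

namespace Pool.Agent.Y885
open Finset
open Pool.Agent.H807R2.Dav
open Pool.Agent.H373R2.T7
open Pool.Agent.W93.DG
open Pool.Agent.W93.LV
open Pool.Agent.TH212.EH (W WW)
open Pool.Agent.TH872.GQ (Hyp)

/-- divisor-bounded weights, all heights, heights which depend on the modulus -/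
theorem tl_levels (T U : ℕ) : ∃ V : ℕ, ∀ b E Bc c : ℕ, 2 ≤ b → 1 ≤ E → 1 ≤ Bc → ∃ D k₀ : ℕ, ∀ K : ℕ, k₀ ≤ K →
    ∀ (ι : Type) (Ω : Finset ι) (p : ι → ℝ) (Y : ι → ℤ), TLaw b E c V K Ω p Y →
    ∀ X : ℕ, 4 * X ≤ b ^ K → b ^ K ≤ Bc * X → (∀ ω ∈ Ω, |Y ω| ≤ X) →
    ∀ Q : ℕ, (Q : ℝ) * Real.exp ((D : ℝ) * Real.log K ^ 2) ≤ X →
    (∀ lam : ℕ → ℝ, (∀ q, |lam q| ≤ (K : ℝ) ^ T * (q.divisors.card : ℝ) ^ T) →
      (∀ bad : ι → Prop, ∀ _hdec : DecidablePred bad,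
        (∀ ω ∈ Ω, bad ω → 0 < Y ω ∧ ∃ x ≤ X, (X : ℝ) / (K : ℝ) ^ U < |W lam Q x (Y ω).toNat|) →
        ∑ ω ∈ Ω, (if bad ω then p ω else 0) ≤ 1 / (K : ℝ) ^ U) ∧
      (∀ x : ℕ → ℕ, (∀ q, x q ≤ X) → ∀ bad : ι → Prop, ∀ _hdec : DecidablePred bad,
        (∀ ω ∈ Ω, bad ω → 0 < Y ω ∧ (X : ℝ) / (K : ℝ) ^ U < |WW lam x Q (Y ω).toNat|) →
        ∑ ω ∈ Ω, (if bad ω then p ω else 0) ≤ 1 / (K : ℝ) ^ U)) ∧
    (∀ w : ι → ℝ, (∀ ω, |w ω| ≤ (K : ℝ) ^ T) → ∀ x : ℕ → ℕ, (∀ q, x q ≤ X) → ∀ _h : ∀ q, DecidablePred fun ω => 0 < Y ω ∧ (Y ω).toNat.Coprime q,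
      ∑ q ∈ Icc 1 Q, (q.divisors.card : ℝ) ^ T * |∑ ω ∈ Ω.filter (fun ω => 0 < Y ω ∧ (Y ω).toNat.Coprime q), p ω * (w ω *
        (Fu (fun n => ArithmeticFunction.vonMangoldt n) (x q) q (Y ω).toNat - (x q : ℝ) / Nat.totient q))| ≤ X / (K : ℝ) ^ U) := by
  classical
  obtain ⟨T₁, U₁, m₁, k1, hA⟩ := Pool.Agent.TH872.GQ.heavy T U
  obtain ⟨T₂, U₂, m₂, k2, hB⟩ := Pool.Agent.TH872.GQ.absolute T U
  obtain ⟨V₁, hV₁⟩ := tl_level T₁ U₁
  obtain ⟨V₂, hV₂⟩ := tl_level T₂ U₂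
  refine ⟨V₁ + V₂, fun b E Bc c hb hE hBc => ?_⟩
  obtain ⟨D₁, k3, h3⟩ := hV₁ b E Bc c hb hE hBc
  obtain ⟨D₂, k4, h4⟩ := hV₂ b E Bc c hb hE hBc
  obtain ⟨k5, h5⟩ := pow_le_two_pow' 2
  refine ⟨D₁ + D₂ + m₁ + m₂, k1 + k2 + k3 + k4 + k5 + 16 * b + 16 * Bc + 16, fun K hK ι Ω p Y hlaw X hX1 hX2 hY Q hQ => ?_⟩
  have hb1 : 1 < b := by omega
  have hbr : (2 : ℝ) ≤ b := by exact_mod_cast hb
  have hK0 : (0 : ℝ) < K := by exact_mod_cast (by omega : 0 < K)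
  have hK1 : (1 : ℝ) ≤ K := by exact_mod_cast (by omega : 1 ≤ K)
  have hKb : (b : ℝ) ≤ K := by exact_mod_cast (by omega : b ≤ K)
  have hK3 : (3 : ℝ) ≤ K := by exact_mod_cast (by omega : 3 ≤ K)
  have hKX : K ≤ X := by
    have e1 : K ^ 2 ≤ b ^ K := (h5 K (by omega)).trans (Nat.pow_le_pow_left hb K)
    have e2 : K * K ≤ Bc * X := by rw [← pow_two]; exact e1.trans hX2
    have e3 : Bc * K ≤ K * K := Nat.mul_le_mul_right _ (by omega)
    exact Nat.le_of_mul_le_mul_left (e3.trans e2) (by omega)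
  have hX0 : (0 : ℝ) < X := by exact_mod_cast (by omega : 0 < X)
  have hlb2 : Real.log b ≤ b := (Real.log_le_sub_one_of_pos (by linarith)).trans (by linarith)
  have hL2 : Real.log X ≤ (K : ℝ) ^ 2 := by
    have e1 : (X : ℝ) ≤ (b : ℝ) ^ K := by exact_mod_cast (by omega : X ≤ b ^ K)
    have e2 := Real.log_le_log hX0 e1
    rw [Real.log_pow] at e2
    refine e2.trans ?_
    rw [pow_two]
    exact mul_le_mul_of_nonneg_left (hlb2.trans hKb) hK0.le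
  have hL1 : 1 ≤ Real.log X := by
    rw [Real.le_log_iff_exp_le hX0]
    have : (3 : ℝ) ≤ X := by exact_mod_cast (by omega : 3 ≤ X)
    linarith [Real.exp_one_lt_d9]
  have hlK : 1 ≤ Real.log K := by
    rw [Real.le_log_iff_exp_le hK0]
    linarith [Real.exp_one_lt_d9]
  have hlK2 : Real.log K ≤ Real.log K ^ 2 := by nlinarith
  have hQm : ∀ m ≤ m₁ + m₂, (Q : ℝ) * (K : ℝ) ^ m ≤ X := by
    intro m hm
    refine le_trans ?_ hQ
    apply mul_le_mul_of_nonneg_left _ (Nat.cast_nonneg _)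
    have e1 : (K : ℝ) ^ m = Real.exp (m * Real.log K) := by
      rw [mul_comm, ← Real.rpow_def_of_pos hK0, Real.rpow_natCast]
    rw [e1]
    apply Real.exp_le_exp.2
    apply mul_le_mul _ hlK2 (by linarith) (by positivity)
    exact_mod_cast (by omega : m ≤ D₁ + D₂ + m₁ + m₂)
  have hQD : ∀ D ≤ D₁ + D₂, (Q : ℝ) * Real.exp ((D : ℝ) * Real.log K ^ 2) ≤ X := by
    intro D hD
    refine le_trans ?_ hQ
    apply mul_le_mul_of_nonneg_left _ (Nat.cast_nonneg _)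
    apply Real.exp_le_exp.2
    apply mul_le_mul_of_nonneg_right _ (by positivity)
    exact_mod_cast (by omega : D ≤ D₁ + D₂ + m₁ + m₂)
  obtain ⟨Ω', hΩ'⟩ : ∃ Ω' : Finset ι, Ω' = Ω.filter (fun ω => 0 < Y ω) := ⟨_, rfl⟩
  obtain ⟨a, ha⟩ : ∃ a : ι → ℕ, a = fun ω => (Y ω).toNat := ⟨_, rfl⟩
  have hp' : ∀ ω ∈ Ω', 0 ≤ p ω := by
    intro ω hω
    rw [hΩ', mem_filter] at hω
    exact hlaw.nonneg ω hω.1
  have hp1 : ∑ ω ∈ Ω', p ω ≤ 1 := by
    refine le_trans ?_ hlaw.le_one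
    rw [hΩ']
    exact sum_le_sum_of_subset_of_nonneg (filter_subset _ _) (fun ω hω _ => hlaw.nonneg ω hω)
  -- restriction to positive values
  have hres : ∀ (F : ι → Prop) (_ : DecidablePred F), (∀ ω ∈ Ω, F ω → 0 < Y ω) →
      ∑ ω ∈ Ω, (if F ω then p ω else 0) = ∑ ω ∈ Ω', (if F ω then p ω else 0) := by
    intro F _ hF
    rw [hΩ', sum_filter]
    apply sum_congr rfl
    intro ω hω
    by_cases h : F ω
    · rw [if_pos h, if_pos (hF ω hω h)]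
    · rw [if_neg h, ite_self]
  have hres2 : ∀ (F : ι → Prop) (_ : DecidablePred F),
      ∑ ω ∈ Ω', (if F ω then p ω else 0) = ∑ ω ∈ Ω, (if 0 < Y ω ∧ F ω then p ω else 0) := by
    intro F _
    rw [hΩ', sum_filter]
    apply sum_congr rfl
    intro ω _
    by_cases h : 0 < Y ω
    · rw [if_pos h]
      by_cases h' : F ω
      · rw [if_pos h', if_pos ⟨h, h'⟩]
      · rw [if_neg h', if_neg (fun hc => h' hc.2)]
    · rw [if_neg h, if_neg (fun hc => h hc.1)]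
  have hypA : Hyp K X X Q T₁ U₁ Ω' p a := by
    intro lam hlam F hdec hF
    rw [hres2]
    apply h3 K (by omega) ι Ω p Y (hlaw.mono (by omega) (by omega)) X hX1 hX2 hY lam hlam Q (hQD _ (by omega))
    intro ω hω hh
    refine ⟨hh.1, ?_⟩
    have h6 := hF ω (by rw [hΩ', mem_filter]; exact ⟨hω, hh.1⟩) hh.2
    rw [ha] at h6
    exact h6
  have hypB : Hyp K X X Q T₂ U₂ Ω' p a := by
    intro lam hlam F hdec hF
    rw [hres2]
    apply h4 K (by omega) ι Ω p Y (hlaw.mono (by omega) (by omega)) X hX1 hX2 hY lam hlam Q (hQD _ (by omega))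
    intro ω hω hh
    refine ⟨hh.1, ?_⟩
    have h6 := hF ω (by rw [hΩ', mem_filter]; exact ⟨hω, hh.1⟩) hh.2
    rw [ha] at h6
    exact h6
  refine ⟨fun lam hlam => ?_, ?_⟩
  · obtain ⟨r1, r2⟩ := hA K (by omega) X X Q le_rfl hL1 hL2 (hQm _ (by omega)) ι Ω' p hp' a hypA lam hlam
    constructor
    · intro bad hdec hbad
      rw [hres bad hdec (fun ω hω h => (hbad ω hω h).1)]
      apply r1 bad hdec
      intro ω hω h
      rw [ha]
      rw [hΩ', mem_filter] at hω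
      exact (hbad ω hω.1 h).2
    · intro x hx bad hdec hbad
      rw [hres bad hdec (fun ω hω h => (hbad ω hω h).1)]
      apply r2 x hx bad hdec
      intro ω hω h
      rw [ha]
      rw [hΩ', mem_filter] at hω
      exact (hbad ω hω.1 h).2
  · intro w hw x hx hdec
    have r := hB K (by omega) X X Q le_rfl hL1 hL2 (hQm _ (by omega)) ι Ω' p hp' hp1 a hypB w hw x hx
    refine le_trans (le_of_eq ?_) r
    apply sum_congr rfl
    intro q _
    congr 2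
    rw [hΩ', filter_filter, ha]
    apply sum_congr _ (fun _ _ => rfl)
    ext ω
    simp only [mem_filter]

end Pool.Agent.Y885
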