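import Pool.Agent.Y885.TU3
import Pool.Agent.Y885.LW
import Pool.Agent.Y885.WI1

set_option autoImplicit false

/-! Prime tuples, uniformly over windows of shifts. -/

namespace Pool.Agent.Y885
open Finset
open Pool.Agent.H807R2.Dav
open Pool.Agent.H373R2.T7
open Pool.Agent.W93.DG
open Pool.Agent.W93.TD (HLs)

/-- the estimate for all shifts in a window -/
def HLw {s : ℕ} (ε : ℝ) (U κ N : ℕ) (a : Fin s → ℕ) : Prop :=
  ∀ e : Fin s → ℕ, (∀ i, (e i : ℝ) ≤ Real.log N ^ κ) → HLs ε U N (fun i => a i + e i)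

lemma HLs_mono {s : ℕ} {ε : ℝ} {U V N : ℕ} {a : Fin s → ℕ} (hUV : U ≤ V) (hN : 3 ≤ N) (h : HLs ε V N a) : HLs ε U N a := by
  obtain ⟨S', q1, q2, q3⟩ := h
  refine ⟨S', q1, q2.trans ?_, q3⟩
  have hN4 : (3 : ℝ) ≤ N := by exact_mod_cast hN
  have hlogN : 1 ≤ Real.log (N : ℝ) := by
    rw [Real.le_log_iff_exp_le (by linarith)]
    have := Real.exp_one_lt_d9
    linarith
  apply div_le_div_of_nonneg_left (by linarith) (by positivity)
  exact pow_le_pow_right₀ hlogN hUV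

/-- the prime tuples conjecture for all shifts in windows, the positions of the windows being random with a thin large spectrum -/
theorem tl_tuplesW (s b E c B U κ : ℕ) (hs : 1 ≤ s) (hb : 2 ≤ b) (hE : 1 ≤ E) (ε : ℝ) (hε : 0 < ε) : ∃ K₀ : ℕ, ∀ K : ℕ, K₀ ≤ K →
    ∀ (α : Type) (_ : DecidableEq α) (Ω : Fin s → Finset α) (p : Fin s → α → ℝ) (Y : Fin s → α → ℤ),
    (∀ i, TLaw b E c (2 * (2 * (U + (κ + 2) * s) + 5 + s + 2) + 6) K (Ω i) (p i) (Y i)) → (∀ i, ∑ v ∈ Ω i, p i v = 1) →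
    ∀ N : ℕ, b ^ K ≤ B * N → N ≤ b ^ K → (∀ i, ∀ v ∈ Ω i, -(b : ℤ) ^ K < Y i v ∧ 2 * N + Y i v ≤ (b : ℤ) ^ K) →
    ∀ Ev : (Fin s → α) → Prop, ∀ _hdec : DecidablePred Ev,
    (∀ ω ∈ Fintype.piFinset Ω, Ev ω → (∀ i, 0 ≤ Y i (ω i)) ∧ ¬ HLw ε U κ N (fun i => (Y i (ω i)).toNat)) →
    ∑ ω ∈ Fintype.piFinset Ω, (if Ev ω then ∏ i, p i (ω i) else 0) ≤ 1 / (K : ℝ) ^ U := by
  classical
  obtain ⟨U', hU'⟩ : ∃ U', U' = U + (κ + 2) * s := ⟨_, rfl⟩
  rw [← hU']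
  obtain ⟨k1, h1⟩ := tl_tuples s b E c B U' hs hb hE ε hε
  obtain ⟨n3, h3⟩ := ev_log' κ 1
  refine ⟨k1 + B * (n3 + 3) + b ^ κ + 1, fun K hK α hα Ω p Y hlaw hsum N hN1 hN2 hY Ev _ hEv => ?_⟩
  have hkb : K < b ^ K := Nat.lt_pow_self (by omega)
  have hNn2 : n3 + 3 ≤ N := by
    by_contra hcon
    push Not at hcon
    have : B * N ≤ B * (n3 + 3) := Nat.mul_le_mul_left _ hcon.le
    omega
  have hK0 : 0 < K := by omega
  have hKr : (0 : ℝ) < K := by exact_mod_cast hK0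
  have hK1 : (1 : ℝ) ≤ K := by exact_mod_cast hK0
  have hN3 : (3 : ℝ) ≤ N := by exact_mod_cast (by omega : 3 ≤ N)
  obtain ⟨L, hL⟩ : ∃ L, L = Real.log (N : ℝ) := ⟨_, rfl⟩
  have a3 := h3 N (by omega)
  rw [← hL, one_mul] at a3
  have hL1 : 1 ≤ L := by
    rw [hL, Real.le_log_iff_exp_le (by linarith)]
    have := Real.exp_one_lt_d9
    linarith
  obtain ⟨M, hM⟩ : ∃ M, M = ⌊L ^ κ⌋₊ := ⟨_, rfl⟩
  have hML : (M : ℝ) ≤ L ^ κ := by rw [hM]; exact Nat.floor_le (by positivity)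
  have hMN : M ≤ N := by
    have e1 : (M : ℝ) ≤ N := by
      refine hML.trans (a3.trans ?_)
      rw [Real.sqrt_le_left (by linarith)]
      nlinarith
    exact_mod_cast e1
  have hLK : L ≤ K * b := by
    have e1 : L ≤ Real.log ((b : ℝ) ^ K) := by
      rw [hL]
      apply Real.log_le_log (by linarith)
      exact_mod_cast hN2
    rw [Real.log_pow] at e1
    have e2 : Real.log (b : ℝ) ≤ b := by
      have : (0 : ℝ) < b := by exact_mod_cast (by omega : 0 < b)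
      have := Real.log_le_sub_one_of_pos this
      linarith
    exact e1.trans (mul_le_mul_of_nonneg_left e2 hKr.le)
  have hMK : ((M + 1 : ℕ) : ℝ) ≤ (K : ℝ) ^ (κ + 1) := by
    have e1 : L ^ κ ≤ (K : ℝ) ^ κ * (b : ℝ) ^ κ := by
      rw [← mul_pow]
      exact pow_le_pow_left₀ (by linarith) hLK _
    have e2 : (1 : ℝ) ≤ (K : ℝ) ^ κ := one_le_pow₀ hK1
    have e3 : (b : ℝ) ^ κ + 1 ≤ K := by exact_mod_cast (by omega : b ^ κ + 1 ≤ K)
    push_cast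
    calc (M : ℝ) + 1 ≤ (K : ℝ) ^ κ * (b : ℝ) ^ κ + (K : ℝ) ^ κ := by linarith
      _ = (K : ℝ) ^ κ * ((b : ℝ) ^ κ + 1) := by ring
      _ ≤ (K : ℝ) ^ κ * K := mul_le_mul_of_nonneg_left e3 (by positivity)
      _ = _ := by rw [pow_succ]
  obtain ⟨I, hI⟩ : ∃ I, I = Fintype.piFinset (fun _ : Fin s => range (M + 1)) := ⟨_, rfl⟩
  have hIc : (I.card : ℝ) ≤ (K : ℝ) ^ ((κ + 1) * s) := by
    rw [hI, Fintype.card_piFinset]
    simp only [card_range, prod_const, card_univ, Fintype.card_fin]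
    push_cast at hMK ⊢
    rw [pow_mul]
    exact pow_le_pow_left₀ (by positivity) hMK _
  obtain ⟨Q, hQ⟩ : ∃ Q : (Fin s → ℕ) → (Fin s → α) → Prop, ∀ e ω, Q e ω ↔
      ((∀ i, 0 ≤ Y i (ω i)) ∧ ¬ HLs ε U' N (fun i => (Y i (ω i) + (e i : ℤ)).toNat)) := ⟨_, fun _ _ => Iff.rfl⟩
  obtain ⟨F, hF⟩ : ∃ F : (Fin s → ℕ) → (Fin s → α) → ℝ, ∀ e ω, F e ω = if Q e ω then ∏ i, p i (ω i) else 0 := ⟨_, fun _ _ => rfl⟩
  have hone : ∀ e ∈ I, ∑ ω ∈ Fintype.piFinset Ω, F e ω ≤ 1 / (K : ℝ) ^ U' := by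
    intro e he
    rw [hI, Fintype.mem_piFinset] at he
    have h9 := h1 K (by omega) α hα Ω p (fun i v => Y i v + (e i : ℤ)) (fun i => (hlaw i).add (e i : ℤ)) hsum N hN1 hN2 (by
      intro i v hv
      obtain ⟨g1, g2⟩ := hY i v hv
      have g3 := mem_range.1 (he i)
      have g4 : (e i : ℤ) ≤ N := by exact_mod_cast (by omega : e i ≤ N)
      have g5 : (0 : ℤ) ≤ (e i : ℤ) := by positivity
      constructor <;> linarith) (Q e) (Classical.decPred _) (by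
      intro ω _ h
      obtain ⟨h6, h7⟩ := (hQ e ω).1 h
      refine ⟨fun i => ?_, h7⟩
      have := h6 i
      positivity)
    refine le_trans (le_of_eq ?_) h9
    apply sum_congr rfl
    intro ω _
    rw [hF]
  have hpp : ∀ m ∈ Fintype.piFinset Ω, 0 ≤ ∏ j, p j (m j) := fun m hm =>
    prod_nonneg fun j _ => (hlaw j).nonneg _ (Fintype.mem_piFinset.1 hm j)
  have hF0 : ∀ e, ∀ ω ∈ Fintype.piFinset Ω, 0 ≤ F e ω := by
    intro e ω hω
    rw [hF]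
    split_ifs
    · exact hpp ω hω
    · exact le_refl _
  have hle : ∀ ω ∈ Fintype.piFinset Ω, (if Ev ω then ∏ i, p i (ω i) else 0) ≤ ∑ e ∈ I, F e ω := by
    intro ω hω
    by_cases hE : Ev ω
    · rw [if_pos hE]
      obtain ⟨g1, g2⟩ := hEv ω hω hE
      unfold HLw at g2
      push Not at g2
      obtain ⟨e, he1, he2⟩ := g2
      have heI : e ∈ I := by
        rw [hI, Fintype.mem_piFinset]
        intro i
        rw [mem_range, hM]
        have := Nat.le_floor (he1 i)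
        rw [← hL] at this
        omega
      have hQe : Q e ω := by
        rw [hQ]
        refine ⟨g1, fun hcon => he2 ?_⟩
        have h5 : (fun i => (Y i (ω i) + (e i : ℤ)).toNat) = fun i => (Y i (ω i)).toNat + e i := by
          funext i
          have := g1 i
          omega
        rw [h5] at hcon
        exact HLs_mono (by rw [hU']; omega) (by omega) hcon
      have h8 : F e ω ≤ ∑ e ∈ I, F e ω := single_le_sum (fun e _ => hF0 e ω hω) heI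
      rw [hF, if_pos hQe] at h8
      exact h8
    · rw [if_neg hE]
      exact sum_nonneg fun e _ => hF0 e ω hω
  calc ∑ ω ∈ Fintype.piFinset Ω, (if Ev ω then ∏ i, p i (ω i) else 0)
      ≤ ∑ ω ∈ Fintype.piFinset Ω, ∑ e ∈ I, F e ω := sum_le_sum hle
    _ = ∑ e ∈ I, ∑ ω ∈ Fintype.piFinset Ω, F e ω := sum_comm
    _ ≤ ∑ _e ∈ I, 1 / (K : ℝ) ^ U' := sum_le_sum hone
    _ = I.card * (1 / (K : ℝ) ^ U') := by rw [sum_const, nsmul_eq_mul]
    _ ≤ (K : ℝ) ^ ((κ + 1) * s) * (1 / (K : ℝ) ^ U') := mul_le_mul_of_nonneg_right hIc (by positivity)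
    _ ≤ 1 / (K : ℝ) ^ U := by
        rw [mul_one_div, div_le_div_iff₀ (by positivity) (by positivity), one_mul, ← pow_add]
        apply pow_le_pow_right₀ hK1
        rw [hU']
        nlinarith

/-- prime tuples, uniformly over windows whose positions are sums of independent random integers -/
theorem rs_tuplesW (s b B D U κ : ℕ) (hs : 1 ≤ s) (hb : 2 ≤ b) (hB : 1 ≤ B) (η δ ε : ℝ) (hη : 0 < η) (hδ : 0 < δ) (hε : 0 < ε) :
    ∃ k₀ : ℕ, ∀ k : ℕ, k₀ ≤ k → ∀ (J : Fin s → Finset ℕ) (σ : Fin s → ℕ → Finset ℤ) (p : Fin s → ℕ → ℤ → ℝ) (c : Fin s → ℤ),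
    (∀ i, Rich δ D k (J i)) →
    (∀ i, ∀ j < k, (∀ x ∈ σ i j, 0 ≤ p i j x ∧ |x| ≤ (B : ℤ) * (b : ℤ) ^ j) ∧ ∑ x ∈ σ i j, p i j x = 1) →
    (∀ i, ∀ j ∈ J i, ∀ y : ℤ, ∑ x ∈ (σ i j).filter (fun x => y ≤ x ∧ (B : ℤ) * (x - y) ≤ (b : ℤ) ^ j), p i j x ≤ 1 - η) →
    (∀ i, |c i| ≤ (B : ℤ) * (b : ℤ) ^ k) → ∀ N : ℕ, b ^ k ≤ B * N → N ≤ B * b ^ k →
    ∀ Ev : (Fin s → Fin k → ℤ) → Prop, ∀ _hdec : DecidablePred Ev,
    (∀ ω, Ev ω → (∀ i, 0 ≤ c i + ∑ j, ω i j) ∧ ¬ HLw ε U κ N (fun i => (c i + ∑ j, ω i j).toNat)) →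
    ∑ ω ∈ Fintype.piFinset (fun i : Fin s => Fintype.piFinset (fun j : Fin k => σ i j)),
      (if Ev ω then ∏ i, ∏ j : Fin k, p i j (ω i j) else 0) ≤ 1 / (k : ℝ) ^ U := by
  classical
  obtain ⟨E, hE, hlaw⟩ := rand_law b hb B D hB η δ hη hδ
  obtain ⟨c₁, k₁, h1⟩ := hlaw (4 * B) (2 * (2 * (U + (κ + 2) * s) + 5 + s + 2) + 6)
  obtain ⟨k₂, h2⟩ := tl_tuplesW s b E c₁ (b ^ (4 * B) * B) U κ hs hb hE ε hε
  refine ⟨k₁ + k₂ + 1, fun k hk J σ p c hR hps hspread hc N hN1 hN2 Ev hdec hEv => ?_⟩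
  have hk0 : (0 : ℝ) < k := by exact_mod_cast (by omega : 0 < k)
  have hbz : (1 : ℤ) ≤ b := by exact_mod_cast (by omega : 1 ≤ b)
  have h3B : 4 * B < b ^ (4 * B) := Nat.lt_pow_self (by omega)
  have hY : ∀ i, ∀ ω ∈ Fintype.piFinset (fun j : Fin k => σ i j), |c i + ∑ j : Fin k, ω j| ≤ 2 * (B : ℤ) * (b : ℤ) ^ k := by
    intro i ω hω
    rw [Fintype.mem_piFinset] at hω
    have g1 : |∑ j : Fin k, ω j| ≤ ∑ j : Fin k, (B : ℤ) * (b : ℤ) ^ (j : ℕ) :=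
      (abs_sum_le_sum_abs _ _).trans (sum_le_sum fun j _ => ((hps i j j.2).1 _ (hω j)).2)
    rw [← mul_sum] at g1
    have g2 := geo_le b hb k
    have g3 : (B : ℤ) * ∑ j : Fin k, (b : ℤ) ^ (j : ℕ) ≤ B * (b : ℤ) ^ k := mul_le_mul_of_nonneg_left g2 (by positivity)
    have g4 := abs_add_le (c i) (∑ j : Fin k, ω j)
    have g5 := hc i
    linarith
  have hbK : (b : ℤ) ^ (k + 4 * B) = (b : ℤ) ^ (4 * B) * (b : ℤ) ^ k := by rw [pow_add, mul_comm]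
  have hbK0 : (0 : ℤ) < (b : ℤ) ^ k := by positivity
  have h3Bz : (4 * B : ℤ) < (b : ℤ) ^ (4 * B) := by exact_mod_cast h3B
  have h3Bk : (4 * B : ℤ) * (b : ℤ) ^ k < (b : ℤ) ^ (k + 4 * B) := by
    rw [hbK]
    exact mul_lt_mul_of_pos_right h3Bz hbK0
  have hN2z : (N : ℤ) ≤ (B : ℤ) * (b : ℤ) ^ k := by exact_mod_cast hN2
  have g3 := h2 (k + 4 * B) (by omega) (Fin k → ℤ) inferInstance (fun i => Fintype.piFinset (fun j : Fin k => σ i j))
    (fun i ω => ∏ j : Fin k, p i j (ω j)) (fun i ω => c i + ∑ j : Fin k, ω j)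
    (fun i => h1 k (by omega) (J i) (σ i) (p i) (c i) (hR i) (hps i) (fun j hj y => by rw [← sum_filter]; exact hspread i j hj y))
    (fun i => by
      rw [← Finset.prod_univ_sum (fun j : Fin k => σ i j) (fun j x => p i j x)]
      exact prod_eq_one fun j _ => (hps i j j.2).2)
    N (by
      calc b ^ (k + 4 * B) = b ^ (4 * B) * b ^ k := by rw [pow_add, mul_comm]
        _ ≤ b ^ (4 * B) * (B * N) := Nat.mul_le_mul_left _ hN1
        _ = _ := by ring)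
    (by
      have : (N : ℤ) ≤ ((b ^ (k + 4 * B) : ℕ) : ℤ) := by
        push_cast
        have : (0 : ℤ) ≤ (B : ℤ) * (b : ℤ) ^ k := by positivity
        linarith
      exact_mod_cast this)
    (fun i ω hω => by
      have := hY i ω hω
      rw [abs_le] at this
      have : (0 : ℤ) ≤ (B : ℤ) * (b : ℤ) ^ k := by positivity
      have hBz : (1 : ℤ) ≤ B := by exact_mod_cast hB
      constructor <;> nlinarith)
    Ev hdec (fun ω _ h => hEv ω h)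
  refine g3.trans ?_
  apply one_div_le_one_div_of_le (by positivity)
  apply pow_le_pow_left₀ hk0.le
  exact_mod_cast (by omega : k ≤ k + 4 * B)

end Pool.Agent.Y885
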