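import Pool.Agent.Y885.LD3
import Pool.Agent.Y885.TU4

set_option autoImplicit false

/-! The level of distribution for residues which are random sums. -/

namespace Pool.Agent.Y885
open Finset
open Pool.Agent.H807R2.Dav
open Pool.Agent.H373R2.T7
open Pool.Agent.W93.DG
open Pool.Agent.W93.LV
open Pool.Agent.TH212.EH (W WW)

/-- the residues are sums of independent random integers -/
theorem rs_levels (b B D T U : ℕ) (hb : 2 ≤ b) (hB : 1 ≤ B) (η δ : ℝ) (hη : 0 < η) (hδ : 0 < δ) :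
    ∃ Dl k₀ : ℕ, ∀ k : ℕ, k₀ ≤ k → ∀ (J : Finset ℕ) (σ : ℕ → Finset ℤ) (p : ℕ → ℤ → ℝ) (c : ℤ), Rich δ D k J →
    (∀ j < k, (∀ x ∈ σ j, 0 ≤ p j x ∧ |x| ≤ (B : ℤ) * (b : ℤ) ^ j) ∧ ∑ x ∈ σ j, p j x = 1) →
    (∀ j ∈ J, ∀ y : ℤ, ∑ x ∈ (σ j).filter (fun x => y ≤ x ∧ (B : ℤ) * (x - y) ≤ (b : ℤ) ^ j), p j x ≤ 1 - η) →
    |c| ≤ (B : ℤ) * (b : ℤ) ^ k → ∀ N : ℕ, b ^ k ≤ B * N → N ≤ B * b ^ k →
    ∀ Q : ℕ, (Q : ℝ) * Real.exp ((Dl : ℝ) * Real.log k ^ 2) ≤ N →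
    (∀ lam : ℕ → ℝ, (∀ q, |lam q| ≤ ((q.divisors.card : ℝ) * k) ^ T) →
      (∀ bad : (Fin k → ℤ) → Prop, ∀ _hdec : DecidablePred bad,
        (∀ ω, bad ω → 0 < c + ∑ j, ω j ∧ ∃ x ≤ B * N, (N : ℝ) / (k : ℝ) ^ U < |W lam Q x (c + ∑ j, ω j).toNat|) →
        ∑ ω ∈ Fintype.piFinset (fun j : Fin k => σ j), (if bad ω then ∏ j : Fin k, p j (ω j) else 0) ≤ 1 / (k : ℝ) ^ U) ∧
      (∀ x : ℕ → ℕ, (∀ q, x q ≤ B * N) → ∀ bad : (Fin k → ℤ) → Prop, ∀ _hdec : DecidablePred bad,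
        (∀ ω, bad ω → 0 < c + ∑ j, ω j ∧ (N : ℝ) / (k : ℝ) ^ U < |WW lam x Q (c + ∑ j, ω j).toNat|) →
        ∑ ω ∈ Fintype.piFinset (fun j : Fin k => σ j), (if bad ω then ∏ j : Fin k, p j (ω j) else 0) ≤ 1 / (k : ℝ) ^ U)) ∧
    (∀ w : (Fin k → ℤ) → ℝ, (∀ ω, |w ω| ≤ (k : ℝ) ^ T) → ∀ x : ℕ → ℕ, (∀ q, x q ≤ B * N) →
      ∀ _h : ∀ q, DecidablePred fun ω : Fin k → ℤ => 0 < c + ∑ j, ω j ∧ (c + ∑ j, ω j).toNat.Coprime q,
      ∑ q ∈ Icc 1 Q, (q.divisors.card : ℝ) ^ T * |∑ ω ∈ (Fintype.piFinset (fun j : Fin k => σ j)).filter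
        (fun ω => 0 < c + ∑ j, ω j ∧ (c + ∑ j, ω j).toNat.Coprime q), (∏ j : Fin k, p j (ω j)) * (w ω *
        (Fu (fun n => ArithmeticFunction.vonMangoldt n) (x q) q (c + ∑ j, ω j).toNat - (x q : ℝ) / Nat.totient q))| ≤ N / (k : ℝ) ^ U) := by
  classical
  obtain ⟨E, hE, hlaw⟩ := rand_law b hb B D hB η δ hη hδ
  obtain ⟨e, he⟩ : ∃ e, e = 8 * B ^ 2 := ⟨_, rfl⟩
  obtain ⟨V, hV⟩ := tl_levels T (U + 1)
  obtain ⟨c₁, k₁, h1⟩ := hlaw e V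
  obtain ⟨D₀, k₂, h2⟩ := hV b E (b ^ e) c₁ hb hE (Nat.one_le_pow _ _ (by omega))
  refine ⟨4 * D₀, k₁ + k₂ + e + 2 * B ^ 3 + 2, fun k hk J σ p c hR hps hspread hc N hN1 hN2 Q hQ => ?_⟩
  have hk2 : (2 : ℝ) ≤ k := by exact_mod_cast (by omega : 2 ≤ k)
  have hk0 : (0 : ℝ) < k := by linarith
  have hbz : (1 : ℤ) ≤ b := by exact_mod_cast (by omega : 1 ≤ b)
  have hbk : 0 < b ^ k := Nat.pow_pos (by omega)
  have hN0 : 0 < N := by
    rcases Nat.eq_zero_or_pos N with h | h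
    · rw [h, mul_zero] at hN1
      omega
    · exact h
  have hBe : 8 * B ^ 2 < b ^ e := by rw [he]; exact Nat.lt_pow_self (by omega)
  obtain ⟨X, hX⟩ : ∃ X, X = 2 * B ^ 2 * b ^ k := ⟨_, rfl⟩
  have hBB : B ≤ B ^ 2 := Nat.le_self_pow (by norm_num) _
  have hX4 : 4 * X ≤ b ^ (k + e) := by
    rw [hX, pow_add]
    calc 4 * (2 * B ^ 2 * b ^ k) = b ^ k * (8 * B ^ 2) := by ring
      _ ≤ b ^ k * b ^ e := Nat.mul_le_mul_left _ hBe.le
  have hX5 : b ^ (k + e) ≤ b ^ e * X := by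
    rw [hX, pow_add, mul_comm (b ^ k)]
    apply Nat.mul_le_mul_left
    have : 1 ≤ 2 * B ^ 2 := by nlinarith
    exact Nat.le_mul_of_pos_left _ this
  have hBNX : B * N ≤ X := by
    calc B * N ≤ B * (B * b ^ k) := Nat.mul_le_mul_left _ hN2
      _ = B ^ 2 * b ^ k := by ring
      _ ≤ X := by rw [hX]; exact Nat.mul_le_mul_right _ (by omega)
  have hXN : X ≤ 2 * B ^ 3 * N := by
    rw [hX]
    calc 2 * B ^ 2 * b ^ k ≤ 2 * B ^ 2 * (B * N) := Nat.mul_le_mul_left _ hN1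
      _ = 2 * B ^ 3 * N := by ring
  have hNX : N ≤ X := by
    refine le_trans ?_ hBNX
    exact Nat.le_mul_of_pos_left _ (by omega)
  have hY : ∀ ω ∈ Fintype.piFinset (fun j : Fin k => σ j), |c + ∑ j : Fin k, ω j| ≤ X := by
    intro ω hω
    rw [Fintype.mem_piFinset] at hω
    have g1 : |∑ j : Fin k, ω j| ≤ ∑ j : Fin k, (B : ℤ) * (b : ℤ) ^ (j : ℕ) :=
      (abs_sum_le_sum_abs _ _).trans (sum_le_sum fun j _ => ((hps j j.2).1 _ (hω j)).2)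
    rw [← mul_sum] at g1
    have g2 := geo_le b hb k
    have g3 : (B : ℤ) * ∑ j : Fin k, (b : ℤ) ^ (j : ℕ) ≤ B * (b : ℤ) ^ k := mul_le_mul_of_nonneg_left g2 (by positivity)
    have g4 := abs_add_le c (∑ j : Fin k, ω j)
    have g5 : (B : ℤ) * (b : ℤ) ^ k ≤ (B : ℤ) ^ 2 * (b : ℤ) ^ k := by
      apply mul_le_mul_of_nonneg_right _ (by positivity)
      exact_mod_cast hBB
    rw [hX]
    push_cast
    linarith
  -- the level
  have hK : ((k + e : ℕ) : ℝ) ≤ k ^ 2 := by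
    have e1 : ((k + e : ℕ) : ℝ) ≤ 2 * k := by exact_mod_cast (by omega : k + e ≤ 2 * k)
    nlinarith
  have hK0 : (0 : ℝ) < ((k + e : ℕ) : ℝ) := by exact_mod_cast (by omega : 0 < k + e)
  have hlogK : Real.log ((k + e : ℕ) : ℝ) ^ 2 ≤ 4 * Real.log k ^ 2 := by
    have e1 := Real.log_le_log hK0 hK
    rw [Real.log_pow] at e1
    push_cast at e1
    have e2 : 0 ≤ Real.log ((k : ℝ) + e) := by
      have := Real.log_natCast_nonneg (k + e)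
      push_cast at this
      exact this
    push_cast
    calc Real.log ((k : ℝ) + e) ^ 2 ≤ (2 * Real.log k) ^ 2 := pow_le_pow_left₀ e2 e1 2
      _ = _ := by ring
  have hQ' : (Q : ℝ) * Real.exp ((D₀ : ℝ) * Real.log ((k + e : ℕ) : ℝ) ^ 2) ≤ X := by
    calc (Q : ℝ) * Real.exp ((D₀ : ℝ) * Real.log ((k + e : ℕ) : ℝ) ^ 2) ≤ Q * Real.exp (((4 * D₀ : ℕ) : ℝ) * Real.log k ^ 2) := by
          apply mul_le_mul_of_nonneg_left _ (Nat.cast_nonneg _)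
          apply Real.exp_le_exp.2
          push_cast
          have hD0 : (0 : ℝ) ≤ D₀ := Nat.cast_nonneg _
          have := mul_le_mul_of_nonneg_left hlogK hD0
          push_cast at this
          linarith
      _ ≤ N := hQ
      _ ≤ X := by exact_mod_cast hNX
  have hXU : (X : ℝ) / ((k + e : ℕ) : ℝ) ^ (U + 1) ≤ N / (k : ℝ) ^ U := by
    have e1 : (X : ℝ) ≤ ((k + e : ℕ) : ℝ) * N := by
      have : X ≤ (k + e) * N := hXN.trans (Nat.mul_le_mul_right _ (by omega))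
      exact_mod_cast this
    have e2 : (k : ℝ) ^ U ≤ ((k + e : ℕ) : ℝ) ^ U := pow_le_pow_left₀ hk0.le (by exact_mod_cast (by omega : k ≤ k + e)) _
    rw [div_le_div_iff₀ (by positivity) (by positivity)]
    calc (X : ℝ) * (k : ℝ) ^ U ≤ (((k + e : ℕ) : ℝ) * N) * ((k + e : ℕ) : ℝ) ^ U := mul_le_mul e1 e2 (by positivity) (by positivity)
      _ = N * ((k + e : ℕ) : ℝ) ^ (U + 1) := by ring
  have hPU : 1 / ((k + e : ℕ) : ℝ) ^ (U + 1) ≤ 1 / (k : ℝ) ^ U := by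
    apply one_div_le_one_div_of_le (by positivity)
    calc (k : ℝ) ^ U ≤ ((k + e : ℕ) : ℝ) ^ U := pow_le_pow_left₀ hk0.le (by exact_mod_cast (by omega : k ≤ k + e)) _
      _ ≤ ((k + e : ℕ) : ℝ) ^ (U + 1) := pow_le_pow_right₀ (by exact_mod_cast (by omega : 1 ≤ k + e)) (by omega)
  have hkT : (k : ℝ) ^ T ≤ ((k + e : ℕ) : ℝ) ^ T := pow_le_pow_left₀ hk0.le (by exact_mod_cast (by omega : k ≤ k + e)) _
  obtain ⟨r1, r2⟩ := h2 (k + e) (by omega) (Fin k → ℤ) (Fintype.piFinset (fun j : Fin k => σ j)) (fun ω => ∏ j : Fin k, p j (ω j))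
    (fun ω => c + ∑ j, ω j) (h1 k (by omega) J σ p c hR hps (fun j hj y => by rw [← sum_filter]; exact hspread j hj y))
    X hX4 hX5 hY Q hQ'
  constructor
  · intro lam hlam
    obtain ⟨r3, r4⟩ := r1 lam (fun q => by
      refine (hlam q).trans ?_
      rw [mul_pow, mul_comm]
      exact mul_le_mul_of_nonneg_right hkT (by positivity))
    constructor
    · intro bad hdec hbad
      refine le_trans (r3 bad hdec ?_) hPU
      intro ω _ hω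
      obtain ⟨g1, x, g2, g3⟩ := hbad ω hω
      exact ⟨g1, x, g2.trans hBNX, lt_of_le_of_lt hXU g3⟩
    · intro x hx bad hdec hbad
      refine le_trans (r4 x (fun q => (hx q).trans hBNX) bad hdec ?_) hPU
      intro ω _ hω
      obtain ⟨g1, g2⟩ := hbad ω hω
      exact ⟨g1, lt_of_le_of_lt hXU g2⟩
  · intro w hw x hx hdec
    exact (r2 w (fun ω => (hw ω).trans hkT) x (fun q => (hx q).trans hBNX) hdec).trans hXU

end Pool.Agent.Y885
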