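import Pool.Agent.Y885.LD3
import Pool.Agent.Y885.LA2

set_option autoImplicit false

/-! The level of distribution for residues which are arbitrary up to few elements of a set which meets every
`[x, l x]`. -/

namespace Pool.Agent.Y885
open Finset
open Pool.Agent.H807R2.Dav
open Pool.Agent.H373R2.T7
open Pool.Agent.W93.DG
open Pool.Agent.W93.LV
open Pool.Agent.TH212.EH (W WW)

/-- the residues are arbitrary up to few elements of a set which meets every `[x, l x]` -/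
theorem las_levels (l P T U : ℕ) (hl : 2 ≤ l) (hP : 1 ≤ P) : ∃ C : ℝ, ∀ H B : ℕ, ∃ Dl N₀ : ℕ, ∀ A : Set ℕ,
    (∀ x : ℕ, 1 ≤ x → ∃ a ∈ A, x ≤ a ∧ a ≤ l * x) → ∀ N : ℕ, N₀ ≤ N → ∀ h : ℕ, h ≤ B * N →
    ∀ Q : ℕ, (Q : ℝ) * Real.exp ((Dl : ℝ) * Real.log (Real.log N) ^ 2) ≤ N →
    ∀ r : ℕ, (r : ℝ) ≤ Real.log N ^ T → ∀ (lam : Fin r → ℕ → ℝ) (x : Fin r → ℕ → ℕ),
    (∀ i q, |lam i q| ≤ ((q.divisors.card : ℝ) * Real.log N) ^ T) → (∀ i q, x i q ≤ B * N) →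
    ∃ S : Finset ℕ, (∀ a ∈ S, a ∈ A ∧ Real.log N ^ H ≤ a ∧ (a : ℝ) ≤ N / Real.log N ^ H) ∧
      ((S.card : ℝ) ≤ C * Real.log (Real.log N) ^ 2) ∧ P ∣ ∑ a ∈ S, a ∧ 0 < h + ∑ a ∈ S, a ∧
      ∀ i, (∀ y ≤ B * N, |W (lam i) Q y (h + ∑ a ∈ S, a)| ≤ N / Real.log N ^ U) ∧
        |WW (lam i) (x i) Q (h + ∑ a ∈ S, a)| ≤ N / Real.log N ^ U := by
  classical
  obtain ⟨U', hU'⟩ : ∃ U', U' = 2 * U + 2 * T + 2 := ⟨_, rfl⟩
  obtain ⟨V, hV⟩ := tl_levels (2 * T) U'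
  obtain ⟨b, hb, C, hC⟩ := las_lawP l P hl hP (V + 2)
  refine ⟨C, fun H B => ?_⟩
  obtain ⟨e, he⟩ : ∃ e, e = 4 * (B + 1) := ⟨_, rfl⟩
  obtain ⟨c, N₀, h0⟩ := hC H e
  obtain ⟨D₀, K₀, h1⟩ := hV b 20 (b ^ (e + 1)) c hb (by norm_num) (Nat.one_le_pow _ _ (by omega))
  obtain ⟨K₁, h2⟩ := tl_point b hb 20 c 1 (by norm_num)
  obtain ⟨n3, h3⟩ := ev_L' (4 + e)
  refine ⟨4 * D₀, N₀ + n3 + b ^ (K₀ + K₁ + b + e + 16), fun A hA N hN h hh Q hQ r hr lam x hlam hx => ?_⟩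
  have hbn : 0 < b := by omega
  obtain ⟨K, hK⟩ : ∃ K, K = Nat.log b N + 1 + e := ⟨_, rfl⟩
  have hN0 : 0 < N := by
    have : 0 < b ^ (K₀ + K₁ + b + e + 16) := Nat.pow_pos hbn
    omega
  have hKK : K₀ + K₁ + b + e + 16 ≤ Nat.log b N := Nat.le_log_of_pow_le (by omega) (by omega)
  have hKlow : b ^ (Nat.log b N) ≤ N := Nat.pow_log_le_self b (by omega)
  have hKup : N < b ^ (Nat.log b N + 1) := Nat.lt_pow_succ_log_self (by omega) _
  obtain ⟨n, Ω, pr, Sf, g1, g2, g3⟩ := h0 A hA N (by omega)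
  obtain ⟨Y, hY⟩ : ∃ Y : (Fin n → ℕ) → ℤ, Y = fun ω => ((∑ a ∈ Sf ω, a : ℕ) : ℤ) + (h : ℤ) := ⟨_, rfl⟩
  have hlaw : TLaw b 20 c (V + 2) K Ω (fun _ => pr) Y := by
    have e1 := g2.add (h : ℤ)
    rw [← hK] at e1
    rw [hY]
    exact e1
  obtain ⟨L, hL⟩ : ∃ L, L = Real.log (N : ℝ) := ⟨_, rfl⟩
  have hbig := h3 N (by omega)
  rw [← hL] at hbig
  rw [← hL] at hQ hr ⊢
  simp only [← hL] at hlam
  have he0 : (0 : ℝ) ≤ e := Nat.cast_nonneg _
  have hL1 : 1 ≤ L := by linarith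
  have hL0 : 0 < L := by linarith
  have hbr : (2 : ℝ) ≤ b := by exact_mod_cast hb
  have hK0 : (0 : ℝ) < K := by exact_mod_cast (by omega : 0 < K)
  have hK1 : (1 : ℝ) ≤ K := by exact_mod_cast (by omega : 1 ≤ K)
  have hK3 : (3 : ℝ) ≤ K := by exact_mod_cast (by omega : 3 ≤ K)
  have hKb : (b : ℝ) ≤ K := by exact_mod_cast (by omega : b ≤ K)
  have hNr0 : (0 : ℝ) < N := by exact_mod_cast hN0
  -- the sizes of `K` and `L`
  have hLK2 : L ≤ (K : ℝ) ^ 2 := by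
    have e1 : (N : ℝ) ≤ (b : ℝ) ^ K := by
      have : N ≤ b ^ K := hKup.le.trans (Nat.pow_le_pow_right hbn (by omega))
      exact_mod_cast this
    have e2 := Real.log_le_log hNr0 e1
    rw [Real.log_pow, ← hL] at e2
    have hlb2 : Real.log b ≤ b := (Real.log_le_sub_one_of_pos (by linarith)).trans (by linarith)
    refine e2.trans ?_
    rw [pow_two]
    exact mul_le_mul_of_nonneg_left (hlb2.trans hKb) hK0.le
  have hKL : (K : ℝ) ≤ L ^ 2 := by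
    have e1 : (2 : ℝ) ^ (Nat.log b N) ≤ N := by
      have : 2 ^ (Nat.log b N) ≤ N := (Nat.pow_le_pow_left hb _).trans hKlow
      exact_mod_cast this
    have e2 := Real.log_le_log (by positivity) e1
    rw [Real.log_pow, ← hL] at e2
    have e3 : (1 : ℝ) / 2 ≤ Real.log 2 := by linarith [Real.log_two_gt_d9]
    have e4 : ((Nat.log b N : ℕ) : ℝ) * (1 / 2) ≤ L := le_trans (mul_le_mul_of_nonneg_left e3 (Nat.cast_nonneg _)) e2
    have e5 : (K : ℝ) = (Nat.log b N : ℕ) + 1 + e := by rw [hK]; push_cast; ring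
    rw [e5]
    nlinarith
  have hlogK : Real.log (K : ℝ) ^ 2 ≤ 4 * Real.log L ^ 2 := by
    have e1 := Real.log_le_log hK0 hKL
    rw [Real.log_pow] at e1
    push_cast at e1
    calc Real.log (K : ℝ) ^ 2 ≤ (2 * Real.log L) ^ 2 := pow_le_pow_left₀ (Real.log_natCast_nonneg K) e1 2
      _ = _ := by ring
  -- the height
  obtain ⟨X, hX⟩ : ∃ X, X = (B + 1) * N := ⟨_, rfl⟩
  have hX4 : 4 * X ≤ b ^ K := by
    have e1 : 4 * (B + 1) < b ^ e := by rw [he]; exact Nat.lt_pow_self (by omega)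
    rw [hX, hK]
    calc 4 * ((B + 1) * N) = (4 * (B + 1)) * N := by ring
      _ ≤ b ^ e * b ^ (Nat.log b N + 1) := Nat.mul_le_mul e1.le hKup.le
      _ = _ := by rw [← pow_add]; congr 1; ring
  have hNX : N ≤ X := by rw [hX]; exact Nat.le_mul_of_pos_left _ (by omega)
  have hBNX : B * N ≤ X := by rw [hX]; exact Nat.mul_le_mul_right _ (by omega)
  have hX5 : b ^ K ≤ b ^ (e + 1) * X := by
    calc b ^ K = b ^ (e + 1) * b ^ (Nat.log b N) := by rw [← pow_add, hK]; congr 1; ring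
      _ ≤ b ^ (e + 1) * X := Nat.mul_le_mul_left _ (hKlow.trans hNX)
  have hYv : ∀ ω ∈ Ω, 0 ≤ Y ω ∧ Y ω ≤ X := by
    intro ω hω
    have h3 := (g3 ω hω).2.2.1
    have h4 : (∑ a ∈ Sf ω, a) + h ≤ (B + 1) * N := by rw [add_mul]; omega
    rw [hY, hX]
    show 0 ≤ ((∑ a ∈ Sf ω, a : ℕ) : ℤ) + (h : ℤ) ∧ ((∑ a ∈ Sf ω, a : ℕ) : ℤ) + (h : ℤ) ≤ (((B + 1) * N : ℕ) : ℤ)
    constructor
    · positivity
    · exact_mod_cast h4
  have hYa : ∀ ω ∈ Ω, |Y ω| ≤ X := by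
    intro ω hω
    rw [abs_of_nonneg (hYv ω hω).1]
    exact (hYv ω hω).2
  have hQ' : (Q : ℝ) * Real.exp ((D₀ : ℝ) * Real.log K ^ 2) ≤ X := by
    calc (Q : ℝ) * Real.exp ((D₀ : ℝ) * Real.log K ^ 2) ≤ Q * Real.exp (((4 * D₀ : ℕ) : ℝ) * Real.log L ^ 2) := by
          apply mul_le_mul_of_nonneg_left _ (Nat.cast_nonneg _)
          apply Real.exp_le_exp.2
          push_cast
          have hD0 : (0 : ℝ) ≤ D₀ := Nat.cast_nonneg _
          have := mul_le_mul_of_nonneg_left hlogK hD0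
          linarith
      _ ≤ N := hQ
      _ ≤ X := by exact_mod_cast hNX
  have hXU : (X : ℝ) / (K : ℝ) ^ U' ≤ N / L ^ U := by
    have e1 : (X : ℝ) ≤ K * N := by
      have : X ≤ K * N := by rw [hX]; exact Nat.mul_le_mul_right _ (by omega)
      exact_mod_cast this
    have e2 : L ^ U ≤ (K : ℝ) ^ (2 * U) := by
      rw [pow_mul]
      exact pow_le_pow_left₀ hL0.le hLK2 _
    rw [div_le_div_iff₀ (by positivity) (by positivity)]
    calc (X : ℝ) * L ^ U ≤ (K * N) * (K : ℝ) ^ (2 * U) := mul_le_mul e1 e2 (by positivity) (by positivity)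
      _ = N * (K : ℝ) ^ (2 * U + 1) := by ring
      _ ≤ N * (K : ℝ) ^ U' := by
          apply mul_le_mul_of_nonneg_left _ hNr0.le
          exact pow_le_pow_right₀ hK1 (by omega)
  obtain ⟨r1, -⟩ := h1 K (by omega) _ Ω (fun _ => pr) Y (hlaw.mono (by omega) (by omega)) X hX4 hX5 hYa Q hQ'
  -- the exceptional events
  obtain ⟨F1, hF1⟩ : ∃ F1 : Fin r → (Fin n → ℕ) → Prop, ∀ i ω, F1 i ω ↔ (0 < Y ω ∧ ∃ y ≤ X, (X : ℝ) / (K : ℝ) ^ U' < |W (lam i) Q y (Y ω).toNat|) :=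
    ⟨fun i ω => _, fun _ _ => Iff.rfl⟩
  obtain ⟨F2, hF2⟩ : ∃ F2 : Fin r → (Fin n → ℕ) → Prop, ∀ i ω, F2 i ω ↔ (0 < Y ω ∧ (X : ℝ) / (K : ℝ) ^ U' < |WW (lam i) (x i) Q (Y ω).toNat|) :=
    ⟨fun i ω => _, fun _ _ => Iff.rfl⟩
  have hlam' : ∀ i q, |lam i q| ≤ (K : ℝ) ^ (2 * T) * (q.divisors.card : ℝ) ^ (2 * T) := by
    intro i q
    rcases Nat.eq_zero_or_pos q with hq | hq
    · refine (hlam i q).trans ?_
      rw [hq]
      rcases Nat.eq_zero_or_pos T with hT | hT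
      · rw [hT]; simp
      · simp only [Nat.divisors_zero, card_empty, Nat.cast_zero, zero_mul]
        rw [zero_pow (by omega)]
        positivity
    · have hq1 : (1 : ℝ) ≤ (q.divisors.card : ℝ) := by
        exact_mod_cast Finset.card_pos.2 ⟨1, Nat.one_mem_divisors.2 (by omega)⟩
      refine (hlam i q).trans ?_
      calc ((q.divisors.card : ℝ) * L) ^ T = L ^ T * (q.divisors.card : ℝ) ^ T := by rw [mul_pow, mul_comm]
        _ ≤ (K : ℝ) ^ (2 * T) * (q.divisors.card : ℝ) ^ (2 * T) := by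
            apply mul_le_mul _ _ (by positivity) (by positivity)
            · rw [pow_mul]
              exact pow_le_pow_left₀ hL0.le hLK2 _
            · exact pow_le_pow_right₀ hq1 (by omega)
  have hp1 : ∀ i, ∑ ω ∈ Ω, (if F1 i ω then pr else 0) ≤ 1 / (K : ℝ) ^ U' := by
    intro i
    exact (r1 (lam i) (hlam' i)).1 (F1 i) (Classical.decPred _) (fun ω _ hω => (hF1 i ω).1 hω)
  have hp2 : ∀ i, ∑ ω ∈ Ω, (if F2 i ω then pr else 0) ≤ 1 / (K : ℝ) ^ U' := by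
    intro i
    exact (r1 (lam i) (hlam' i)).2 (x i) (fun q => (hx i q).trans hBNX) (F2 i) (Classical.decPred _) (fun ω _ hω => (hF2 i ω).1 hω)
  have hp3 : ∑ ω ∈ Ω, pr * (if Y ω = 0 then (1 : ℝ) else 0) ≤ 1 / (K : ℝ) ^ 1 :=
    h2 K (by omega) _ Ω (fun _ => pr) Y (hlaw.mono (by omega) (by omega)) 0
  have hpr : ∀ ω ∈ Ω, 0 ≤ pr := hlaw.nonneg
  -- a good point
  have hex : ∃ ω ∈ Ω, 0 < Y ω ∧ ∀ i, ¬ F1 i ω ∧ ¬ F2 i ω := by
    by_contra hcon
    push Not at hcon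
    have hle : ∀ ω ∈ Ω, pr ≤ ∑ i : Fin r, ((if F1 i ω then pr else 0) + (if F2 i ω then pr else 0)) + pr * (if Y ω = 0 then (1 : ℝ) else 0) := by
      intro ω hω
      have hnn : ∀ i ∈ (univ : Finset (Fin r)), (0 : ℝ) ≤ (if F1 i ω then pr else 0) + (if F2 i ω then pr else 0) := by
        intro i _
        have := hpr ω hω
        split_ifs <;> linarith
      by_cases h0 : Y ω = 0
      · rw [if_pos h0, mul_one]
        have := sum_nonneg hnn
        linarith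
      · have h4 : 0 < Y ω := lt_of_le_of_ne (hYv ω hω).1 (Ne.symm h0)
        obtain ⟨i, hi⟩ := hcon ω hω h4
        rw [if_neg h0, mul_zero, add_zero]
        refine le_trans ?_ (single_le_sum hnn (mem_univ i))
        have := hpr ω hω
        by_cases h5 : F1 i ω
        · rw [if_pos h5]
          split_ifs <;> linarith
        · rw [if_neg h5, if_pos (hi h5), zero_add]
    have hsum := sum_le_sum hle
    rw [g1, sum_add_distrib, sum_comm] at hsum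
    have hb1 : ∑ i : Fin r, ∑ ω ∈ Ω, ((if F1 i ω then pr else 0) + (if F2 i ω then pr else 0)) ≤ ∑ _i : Fin r, 2 * (1 / (K : ℝ) ^ U') := by
      apply sum_le_sum
      intro i _
      rw [sum_add_distrib]
      linarith [hp1 i, hp2 i]
    rw [sum_const, card_univ, Fintype.card_fin, nsmul_eq_mul] at hb1
    have hb2 : (r : ℝ) * (2 * (1 / (K : ℝ) ^ U')) ≤ 2 * (1 / (K : ℝ) ^ 2) := by
      have e1 : (r : ℝ) ≤ (K : ℝ) ^ (2 * T) := by
        refine hr.trans ?_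
        rw [pow_mul]
        exact pow_le_pow_left₀ hL0.le hLK2 _
      have e2 : (K : ℝ) ^ (2 * T) * (1 / (K : ℝ) ^ U') ≤ 1 / (K : ℝ) ^ 2 := by
        rw [mul_one_div, div_le_div_iff₀ (by positivity) (by positivity), one_mul, ← pow_add]
        exact pow_le_pow_right₀ hK1 (by omega)
      have e3 : (0 : ℝ) ≤ 1 / (K : ℝ) ^ U' := by positivity
      have e4 := mul_le_mul_of_nonneg_right e1 e3
      linarith
    have hb3 : (1 : ℝ) / (K : ℝ) ^ 2 ≤ 1 / 9 := by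
      apply one_div_le_one_div_of_le (by norm_num)
      nlinarith
    have hb4 : (1 : ℝ) / (K : ℝ) ^ 1 ≤ 1 / 3 := by
      apply one_div_le_one_div_of_le (by norm_num)
      rw [pow_one]
      exact hK3
    linarith
  obtain ⟨ω, hω, hpos, hgood⟩ := hex
  have hYn : (Y ω).toNat = h + ∑ a ∈ Sf ω, a := by
    rw [hY]
    simp only
    omega
  have hpos' : 0 < h + ∑ a ∈ Sf ω, a := by
    rw [← hYn]
    omega
  refine ⟨Sf ω, ?_, ?_, (g3 ω hω).2.2.2, hpos', fun i => ⟨fun y hy => ?_, ?_⟩⟩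
  · rw [hL]
    exact (g3 ω hω).1
  · rw [hL]
    exact (g3 ω hω).2.1
  · obtain ⟨q1, -⟩ := hgood i
    rw [hF1] at q1
    push Not at q1
    have q2 := q1 hpos y (hy.trans hBNX)
    rw [hYn] at q2
    exact q2.trans hXU
  · obtain ⟨-, q1⟩ := hgood i
    rw [hF2] at q1
    push Not at q1
    have q2 := q1 hpos
    rw [hYn] at q2
    exact q2.trans hXU

end Pool.Agent.Y885
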