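import Pool.Agent.H373R2.T7.SingLim
import Pool.Agent.H373R2.T7.SingLow

set_option autoImplicit false

/-! Singular series with general numbers of classes. -/

namespace Pool.Agent.Y885
open Finset
open Pool.Agent.H373R2.T7

/-- the local factors -/
noncomputable def Gp (ν : ℕ → ℕ) (m p : ℕ) : ℝ := (1 - (ν p : ℝ) / p) / (1 - 1 / (p : ℝ)) ^ m

/-- the truncated product -/
noncomputable def singG (ν : ℕ → ℕ) (m z : ℕ) : ℝ := ∏ p ∈ pz z, Gp ν m p

/-- `ν p ≤ p`, `ν p ≤ m` for the large primes, `ν p = m` for the good large primes -/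
structure NuB (ν : ℕ → ℕ) (m z0 : ℕ) (Bad : Finset ℕ) : Prop where
  le : ∀ p, p.Prime → ν p ≤ p
  lem : ∀ p, p.Prime → z0 < p → ν p ≤ m
  good : ∀ p, p.Prime → z0 < p → p ∉ Bad → m ≤ ν p

lemma Gp_bounds {ν : ℕ → ℕ} {m z0 : ℕ} {Bad : Finset ℕ} (hν : NuB ν m z0 Bad) (hm1 : 1 ≤ m) (p : ℕ) (hp : p.Prime) (h3 : 3 * m ≤ p) (hz0 : z0 < p) :
    Real.exp (-((m : ℝ) ^ 2 * (1 / (p : ℝ) ^ 2))) ≤ Gp ν m p ∧
    Gp ν m p ≤ Real.exp (if p ∈ Bad then 2 * (m : ℝ) / p else 0) := by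
  have hp2 : (2 : ℝ) ≤ p := by exact_mod_cast hp.two_le
  have hp0 : (0 : ℝ) < p := by linarith
  have hm3 : (3 * m : ℝ) ≤ p := by exact_mod_cast h3
  have hm1 : (1 : ℝ) ≤ m := by exact_mod_cast hm1
  have hq : 0 < 1 - 1 / (p : ℝ) := by rw [sub_pos, div_lt_one hp0]; linarith
  have hq1 : 1 - 1 / (p : ℝ) ≤ 1 := by
    have : 0 ≤ 1 / (p : ℝ) := by positivity
    linarith
  have hy : (m : ℝ) / p ≤ 1 / 3 := by rw [div_le_iff₀ hp0]; linarith
  have hy0 : 0 ≤ (m : ℝ) / p := by positivity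
  have hbern : 1 - (m : ℝ) / p ≤ (1 - 1 / (p : ℝ)) ^ m := by
    have h4 := one_add_mul_le_pow (a := -(1 / (p : ℝ))) (by linarith) m
    have e : 1 + (m : ℝ) * -(1 / (p : ℝ)) = 1 - m / p := by ring
    rw [e] at h4
    exact h4
  have hνm : (ν p : ℝ) ≤ m := by exact_mod_cast hν.lem p hp hz0
  have hν0 : (0 : ℝ) ≤ ν p := Nat.cast_nonneg _
  constructor
  · unfold Gp
    rw [le_div_iff₀ (by positivity)]
    have h4 := exp_low hy0 hy
    have h5 : (1 - 1 / (p : ℝ)) ^ m ≤ Real.exp (-((m : ℝ) / p)) := by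
      have h6 : 1 - 1 / (p : ℝ) ≤ Real.exp (-(1 / p)) := by
        have := Real.add_one_le_exp (-(1 / (p : ℝ)))
        linarith
      calc (1 - 1 / (p : ℝ)) ^ m ≤ (Real.exp (-(1 / p))) ^ m := pow_le_pow_left₀ hq.le h6 m
        _ = Real.exp (-((m : ℝ) / p)) := by rw [← Real.exp_nat_mul]; congr 1; ring
    have h6 : 1 - (m : ℝ) / p ≤ 1 - (ν p : ℝ) / p := by
      have := div_le_div_of_nonneg_right hνm hp0.le
      linarith
    calc Real.exp (-((m : ℝ) ^ 2 * (1 / (p : ℝ) ^ 2))) * (1 - 1 / (p : ℝ)) ^ m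
        ≤ Real.exp (-((m : ℝ) ^ 2 * (1 / (p : ℝ) ^ 2))) * Real.exp (-((m : ℝ) / p)) := mul_le_mul_of_nonneg_left h5 (Real.exp_pos _).le
      _ = Real.exp (-((m : ℝ) / p + ((m : ℝ) / p) ^ 2)) := by rw [← Real.exp_add]; congr 1; ring
      _ ≤ 1 - (m : ℝ) / p := h4
      _ ≤ _ := h6
  · unfold Gp
    split_ifs with hb
    · have h4 : 1 - (ν p : ℝ) / p ≤ 1 := by
        have : 0 ≤ (ν p : ℝ) / p := by positivity
        linarith
      rw [div_le_iff₀ (by positivity)]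
      have h5 : 1 + 2 * ((m : ℝ) / p) ≤ Real.exp (2 * (m : ℝ) / p) := by
        have := Real.add_one_le_exp (2 * (m : ℝ) / p)
        have e : 2 * (m : ℝ) / p = 2 * ((m : ℝ) / p) := by ring
        rw [e] at this ⊢
        linarith
      have h6 : 1 ≤ (1 + 2 * ((m : ℝ) / p)) * (1 - (m : ℝ) / p) := by nlinarith
      calc 1 - (ν p : ℝ) / p ≤ 1 := h4
        _ ≤ (1 + 2 * ((m : ℝ) / p)) * (1 - (m : ℝ) / p) := h6
        _ ≤ Real.exp (2 * (m : ℝ) / p) * (1 - 1 / (p : ℝ)) ^ m := by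
            apply mul_le_mul h5 hbern (by linarith) (Real.exp_pos _).le
    · rw [Real.exp_zero, div_le_one (by positivity)]
      have h5 : (m : ℝ) ≤ ν p := by exact_mod_cast hν.good p hp hz0 hb
      have := div_le_div_of_nonneg_right h5 hp0.le
      linarith

lemma singG_nonneg {ν : ℕ → ℕ} {m z0 : ℕ} {Bad : Finset ℕ} (hν : NuB ν m z0 Bad) (z : ℕ) : 0 ≤ singG ν m z := by
  unfold singG
  apply prod_nonneg
  intro p hp
  have hpp := (mem_pz.1 hp).2
  have hp2 : (2 : ℝ) ≤ p := by exact_mod_cast hpp.two_le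
  have hp0 : (0 : ℝ) < p := by linarith
  have hq : 0 < 1 - 1 / (p : ℝ) := by rw [sub_pos, div_lt_one hp0]; linarith
  unfold Gp
  apply div_nonneg _ (by positivity)
  rw [sub_nonneg, div_le_one hp0]
  exact_mod_cast hν.le p hpp

lemma tailG {ν : ℕ → ℕ} {m z0 : ℕ} {Bad : Finset ℕ} (hν : NuB ν m z0 Bad) (hm1 : 1 ≤ m) (z z' : ℕ) (hz : 3 * m ≤ z) (hzz0 : z0 ≤ z)
    (hzz : z ≤ z') : ∃ R : ℝ, singG ν m z' = singG ν m z * R ∧ Real.exp (-((m : ℝ) ^ 2 / z)) ≤ R ∧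
      R ≤ Real.exp (2 * (m : ℝ) * Bad.card / z) := by
  have hz0 : (0 : ℝ) < z := by exact_mod_cast (by omega : 0 < z)
  refine ⟨∏ p ∈ (pz z').filter (fun p => ¬ p ≤ z), Gp ν m p, ?_, ?_, ?_⟩
  · unfold singG
    rw [← prod_filter_mul_prod_filter_not (pz z') (fun p => p ≤ z)]
    congr 1
    apply prod_congr _ (fun _ _ => rfl)
    ext p
    rw [mem_filter, mem_pz, mem_pz]
    constructor
    · rintro ⟨⟨_, h1⟩, h2⟩; exact ⟨h2, h1⟩
    · rintro ⟨h1, h2⟩; exact ⟨⟨h1.trans hzz, h2⟩, h1⟩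
  · have h1 : ∀ p ∈ (pz z').filter (fun p => ¬ p ≤ z), Real.exp (-((m : ℝ) ^ 2 * (1 / (p : ℝ) ^ 2))) ≤ Gp ν m p := by
      intro p hp
      rw [mem_filter, mem_pz] at hp
      exact (Gp_bounds hν hm1 p hp.1.2 (by omega) (by omega)).1
    refine le_trans ?_ (prod_le_prod (fun p _ => (Real.exp_pos _).le) h1)
    rw [← Real.exp_sum]
    apply Real.exp_le_exp.2
    rw [sum_neg_distrib, ← mul_sum]
    have h2 : ∑ p ∈ (pz z').filter (fun p => ¬ p ≤ z), 1 / (p : ℝ) ^ 2 ≤ ∑ n ∈ Ioc z z', 1 / (n : ℝ) ^ 2 := by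
      apply sum_le_sum_of_subset_of_nonneg
      · intro p hp
        rw [mem_filter, mem_pz] at hp
        rw [mem_Ioc]
        omega
      · intro _ _ _; positivity
    have h3 := tail_sq z z' (by omega) hzz
    have h4 : (0 : ℝ) ≤ 1 / (z' : ℝ) := by positivity
    have h5 : ((m : ℝ)) ^ 2 * ∑ p ∈ (pz z').filter (fun p => ¬ p ≤ z), 1 / (p : ℝ) ^ 2 ≤ ((m : ℝ)) ^ 2 * (1 / z) :=
      mul_le_mul_of_nonneg_left (by linarith) (by positivity)
    rw [mul_one_div] at h5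
    linarith
  · have h1 : ∀ p ∈ (pz z').filter (fun p => ¬ p ≤ z), Gp ν m p ≤ Real.exp (if p ∈ Bad then 2 * (m : ℝ) / p else 0) := by
      intro p hp
      rw [mem_filter, mem_pz] at hp
      exact (Gp_bounds hν hm1 p hp.1.2 (by omega) (by omega)).2
    have h0 : ∀ p ∈ (pz z').filter (fun p => ¬ p ≤ z), 0 ≤ Gp ν m p := by
      intro p hp
      rw [mem_filter, mem_pz] at hp
      exact (Real.exp_pos _).le.trans (Gp_bounds hν hm1 p hp.1.2 (by omega) (by omega)).1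
    refine (prod_le_prod h0 h1).trans ?_
    rw [← Real.exp_sum]
    apply Real.exp_le_exp.2
    rw [← sum_filter]
    calc ∑ p ∈ ((pz z').filter (fun p => ¬ p ≤ z)).filter (fun p => p ∈ Bad), 2 * (m : ℝ) / p
        ≤ ∑ _p ∈ ((pz z').filter (fun p => ¬ p ≤ z)).filter (fun p => p ∈ Bad), 2 * (m : ℝ) / z := by
          apply sum_le_sum
          intro p hp
          rw [mem_filter, mem_filter] at hp
          apply div_le_div_of_nonneg_left (by positivity) hz0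
          exact_mod_cast (by omega : z ≤ p)
      _ = ((((pz z').filter (fun p => ¬ p ≤ z)).filter (fun p => p ∈ Bad)).card : ℝ) * (2 * (m : ℝ) / z) := by
          rw [sum_const, nsmul_eq_mul]
      _ ≤ (Bad.card : ℝ) * (2 * (m : ℝ) / z) := by
          apply mul_le_mul_of_nonneg_right _ (by positivity)
          exact_mod_cast card_le_card (fun p hp => (mem_filter.1 hp).2)
      _ = _ := by ring

/-- the constant of the tail -/
noncomputable def KG (m : ℕ) (Bad : Finset ℕ) : ℝ := (m : ℝ) ^ 2 + 4 * (m : ℝ) * Bad.card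

lemma stepG {ν : ℕ → ℕ} {m z0 : ℕ} {Bad : Finset ℕ} (hν : NuB ν m z0 Bad) (hm1 : 1 ≤ m) (z z' : ℕ) (hz : 3 * m ≤ z) (hzz0 : z0 ≤ z)
    (hK : KG m Bad ≤ z) (hzz : z ≤ z') : |singG ν m z' - singG ν m z| ≤ singG ν m z * (KG m Bad / z) := by
  obtain ⟨R, hR, h1, h2⟩ := tailG hν hm1 z z' hz hzz0 hzz
  have hz0 : (0 : ℝ) < z := by exact_mod_cast (by omega : 0 < z)
  have hs := singG_nonneg hν z
  have hA : 0 ≤ (m : ℝ) ^ 2 := by positivity
  have hB : 0 ≤ 4 * (m : ℝ) * Bad.card := by positivity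
  have hKd : KG m Bad = (m : ℝ) ^ 2 + 4 * (m : ℝ) * Bad.card := rfl
  have e1 : 1 - KG m Bad / z ≤ R := by
    refine le_trans ?_ h1
    have h3 := Real.add_one_le_exp (-((m : ℝ) ^ 2 / z))
    have h4 : (m : ℝ) ^ 2 / z ≤ KG m Bad / z := div_le_div_of_nonneg_right (by linarith) hz0.le
    linarith
  have e2 : R ≤ 1 + KG m Bad / z := by
    refine h2.trans ?_
    obtain ⟨t, ht⟩ : ∃ t, t = 2 * (m : ℝ) * Bad.card / z := ⟨_, rfl⟩
    rw [← ht]
    have ht0 : 0 ≤ t := by rw [ht]; positivity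
    have ht1 : 2 * t ≤ KG m Bad / z := by
      rw [ht, mul_div_assoc']
      apply div_le_div_of_nonneg_right _ hz0.le
      linarith
    have ht2 : KG m Bad / z ≤ 1 := by rw [div_le_one hz0]; exact hK
    have h3 := Real.abs_exp_sub_one_sub_id_le (x := t) (by rw [abs_of_nonneg ht0]; linarith)
    have h4 := (abs_le.1 h3).2
    nlinarith
  have e : singG ν m z' - singG ν m z = singG ν m z * (R - 1) := by rw [hR]; ring
  rw [e, abs_mul, abs_of_nonneg hs]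
  apply mul_le_mul_of_nonneg_left _ hs
  rw [abs_le]
  constructor <;> linarith

theorem limitG {ν : ℕ → ℕ} {m z0 : ℕ} {Bad : Finset ℕ} (hν : NuB ν m z0 Bad) (hm1 : 1 ≤ m) :
    ∃ S : ℝ, Filter.Tendsto (fun z => singG ν m z) Filter.atTop (nhds S) ∧
      ∀ z : ℕ, 3 * m ≤ z → z0 ≤ z → KG m Bad ≤ z → |S - singG ν m z| ≤ singG ν m z * (KG m Bad / z) := by
  have hK0 : 0 ≤ KG m Bad := by unfold KG; positivity
  have hcau : CauchySeq (fun z => singG ν m z) := by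
    rw [Metric.cauchySeq_iff']
    intro ε hε
    obtain ⟨z1, hz1⟩ : ∃ z1 : ℕ, z1 = max (3 * m + z0) ⌈KG m Bad⌉₊ := ⟨_, rfl⟩
    have hz0K : KG m Bad ≤ z1 := by rw [hz1]; exact (Nat.le_ceil _).trans (by exact_mod_cast le_max_right _ _)
    have hz03 : 3 * m + z0 ≤ z1 := by rw [hz1]; exact le_max_left _ _
    have hs0 := singG_nonneg hν z1
    obtain ⟨M, hM⟩ := exists_nat_gt (2 * singG ν m z1 * KG m Bad / ε)
    refine ⟨max z1 (M + 1), fun n hn => ?_⟩
    obtain ⟨Z, hZ⟩ : ∃ Z, Z = max z1 (M + 1) := ⟨_, rfl⟩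
    rw [← hZ] at hn ⊢
    have hZ0 : z1 ≤ Z := by rw [hZ]; exact le_max_left _ _
    have hZM : M + 1 ≤ Z := by rw [hZ]; exact le_max_right _ _
    have hZr : (0 : ℝ) < Z := by exact_mod_cast (by omega : 0 < Z)
    have h1 := stepG hν hm1 Z n (by omega) (by omega) (hz0K.trans (by exact_mod_cast hZ0)) hn
    have h2 := stepG hν hm1 z1 Z (by omega) (by omega) hz0K hZ0
    have hz0r : (0 : ℝ) < z1 := by exact_mod_cast (by omega : 0 < z1)
    have h3 : singG ν m Z ≤ 2 * singG ν m z1 := by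
      have h4 := (abs_le.1 h2).2
      have h5 : KG m Bad / z1 ≤ 1 := by rw [div_le_one hz0r]; exact hz0K
      nlinarith
    rw [Real.dist_eq]
    refine lt_of_le_of_lt h1 ?_
    have h4 : singG ν m Z * (KG m Bad / Z) ≤ 2 * singG ν m z1 * (KG m Bad / Z) := mul_le_mul_of_nonneg_right h3 (by positivity)
    refine lt_of_le_of_lt h4 ?_
    rw [mul_div_assoc', div_lt_iff₀ hZr]
    rw [div_lt_iff₀ hε] at hM
    have h5 : (M : ℝ) ≤ Z := by exact_mod_cast (by omega : M ≤ Z)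
    nlinarith
  obtain ⟨S, hS⟩ := cauchySeq_tendsto_of_complete hcau
  refine ⟨S, hS, fun z hz hzz0 hK => ?_⟩
  have h1 : Filter.Tendsto (fun z' => |singG ν m z' - singG ν m z|) Filter.atTop (nhds |S - singG ν m z|) :=
    (hS.sub_const _).abs
  apply le_of_tendsto h1
  filter_upwards [Filter.eventually_ge_atTop z] with z' hz'
  exact stepG hν hm1 z z' hz hzz0 hK hz'

end Pool.Agent.Y885
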