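import Pool.Agent.Y885.LF1
import Pool.Agent.H373R2.T7.SysCount
import Pool.Agent.H373R2.T7.Tuple2

set_option autoImplicit false

/-! Linear forms `r_j n + a_j`: numbers of classes, the main term. -/

namespace Pool.Agent.Y885
open Finset
open Pool.Agent.H373R2.T7

/-- the number of the residue classes `q` modulo `p` for which `p` divides the product of the `r_j q + a_j` -/
def wN {k : ℕ} (r a : Fin k → ℕ) (p : ℕ) : ℕ := ((range p).filter (fun q => p ∣ ∏ j, (r j * q + a j))).card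

lemma wN_eq {k : ℕ} (r a : Fin k → ℕ) (p : ℕ) (hp : p.Prime) :
    wN r a p = ((range p).filter (fun q => ∃ j, p ∣ r j * q + a j)).card := by
  unfold wN
  congr 1
  apply filter_congr
  intro q _
  rw [hp.prime.dvd_finset_prod_iff]
  simp

lemma wN_le {k : ℕ} (r a : Fin k → ℕ) (p : ℕ) : wN r a p ≤ p := by
  unfold wN
  exact (card_filter_le _ _).trans (by rw [card_range])

/-- a common factor -/
lemma wN_full {k : ℕ} (r a : Fin k → ℕ) (p : ℕ) (hp : p.Prime) (j : Fin k) (h1 : p ∣ r j) (h2 : p ∣ a j) : wN r a p = p := by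
  rw [wN_eq r a p hp]
  rw [filter_true_of_mem, card_range]
  intro q _
  exact ⟨j, dvd_add (h1.mul_right q) h2⟩

lemma one_root (r a p : ℕ) (hp : p.Prime) (h : ¬ (p ∣ r ∧ p ∣ a)) : ((range p).filter (fun q => p ∣ r * q + a)).card ≤ 1 := by
  rw [card_le_one]
  intro x hx y hy
  rw [mem_filter, mem_range] at hx hy
  have hr : ¬ p ∣ r := by
    intro hr
    apply h
    refine ⟨hr, ?_⟩
    exact (Nat.dvd_add_right (hr.mul_right x)).1 hx.2
  have h1 : r * x ≡ r * y [MOD p] := by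
    have h2 : r * x + a ≡ r * y + a [MOD p] :=
      ((Nat.modEq_zero_iff_dvd.2 hx.2).trans (Nat.modEq_zero_iff_dvd.2 hy.2).symm)
    exact Nat.ModEq.add_right_cancel' a h2
  have hc : Nat.gcd p r = 1 := (Nat.Prime.coprime_iff_not_dvd hp).2 hr
  have h3 : x ≡ y [MOD p] := Nat.ModEq.cancel_left_of_coprime hc h1
  unfold Nat.ModEq at h3
  rwa [Nat.mod_eq_of_lt hx.1, Nat.mod_eq_of_lt hy.1] at h3

lemma wN_lek {k : ℕ} (r a : Fin k → ℕ) (p : ℕ) (hp : p.Prime) (h : ∀ j, ¬ (p ∣ r j ∧ p ∣ a j)) : wN r a p ≤ k := by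
  classical
  rw [wN_eq r a p hp]
  have h1 : (range p).filter (fun q => ∃ j, p ∣ r j * q + a j) ⊆
      univ.biUnion (fun j : Fin k => (range p).filter (fun q => p ∣ r j * q + a j)) := by
    intro q hq
    rw [mem_filter] at hq
    obtain ⟨j, hj⟩ := hq.2
    exact mem_biUnion.2 ⟨j, mem_univ _, mem_filter.2 ⟨hq.1, hj⟩⟩
  refine (card_le_card h1).trans (card_biUnion_le.trans ?_)
  refine (sum_le_sum fun j _ => one_root (r j) (a j) p hp (h j)).trans ?_
  simp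

/-- the bad primes -/
def badL {k : ℕ} (r a : Fin k → ℕ) : Finset ℕ :=
  (univ.filter (fun q : Fin k × Fin k => q.1 ≠ q.2)).biUnion
    fun q => ((r q.1 : ℤ) * (a q.2 : ℤ) - (r q.2 : ℤ) * (a q.1 : ℤ)).natAbs.primeFactors

lemma wN_good {k : ℕ} (r a : Fin k → ℕ) (hra : ∀ i j, i ≠ j → r i * a j ≠ r j * a i) (p : ℕ) (hp : p.Prime)
    (h1 : ∀ j, ¬ p ∣ r j) (h : p ∉ badL r a) : k ≤ wN r a p := by
  classical
  rw [wN_eq r a p hp]
  have hroot : ∀ j, ∃ q, q < p ∧ p ∣ r j * q + a j := by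
    intro j
    haveI : Fact p.Prime := ⟨hp⟩
    have hu : ((r j : ℕ) : ZMod p) ≠ 0 := by
      rw [Ne, ZMod.natCast_eq_zero_iff]
      exact h1 j
    refine ⟨(-((a j : ℕ) : ZMod p) / ((r j : ℕ) : ZMod p)).val, ZMod.val_lt _, ?_⟩
    rw [← ZMod.natCast_eq_zero_iff]
    push_cast
    rw [ZMod.natCast_zmod_val]
    field_simp
    ring
  choose g hg1 hg2 using hroot
  have hinj : Function.Injective g := by
    intro i j hij
    by_contra hne
    apply h
    unfold badL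
    rw [mem_biUnion]
    refine ⟨(i, j), mem_filter.2 ⟨mem_univ _, hne⟩, ?_⟩
    rw [Nat.mem_primeFactors]
    refine ⟨hp, ?_, ?_⟩
    · rw [← Int.natCast_dvd]
      have e1 : (p : ℤ) ∣ (r i : ℤ) * (g i : ℤ) + a i := by exact_mod_cast hg2 i
      have e2 : (p : ℤ) ∣ (r j : ℤ) * (g i : ℤ) + a j := by rw [hij]; exact_mod_cast hg2 j
      have e3 : (r i : ℤ) * (a j : ℤ) - (r j : ℤ) * (a i : ℤ) =
          (r i : ℤ) * ((r j : ℤ) * (g i : ℤ) + a j) - (r j : ℤ) * ((r i : ℤ) * (g i : ℤ) + a i) := by ring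
      rw [e3]
      exact dvd_sub (e2.mul_left _) (e1.mul_left _)
    · rw [Int.natAbs_ne_zero]
      intro h0
      apply hra i j hne
      have : ((r i * a j : ℕ) : ℤ) = ((r j * a i : ℕ) : ℤ) := by push_cast; linarith
      exact_mod_cast this
  have h2 : (univ.image g).card = k := by
    rw [card_image_of_injective _ hinj, card_univ, Fintype.card_fin]
  refine (le_of_eq h2.symm).trans ?_
  apply card_le_card
  intro q hq
  obtain ⟨j, _, rfl⟩ := mem_image.1 hq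
  rw [mem_filter, mem_range]
  exact ⟨hg1 j, j, hg2 j⟩

lemma nuB_wN {k : ℕ} (r a : Fin k → ℕ) (R : ℕ) (hr : ∀ j, 1 ≤ r j ∧ r j ≤ R) (hra : ∀ i j, i ≠ j → r i * a j ≠ r j * a i) :
    NuB (wN r a) k R (badL r a) := by
  have hnd : ∀ p, p.Prime → R < p → ∀ j, ¬ p ∣ r j := by
    intro p _ hR j hd
    have := Nat.le_of_dvd (by have := (hr j).1; omega) hd
    have := (hr j).2
    omega
  refine ⟨fun p _ => wN_le r a p, fun p hp hR => wN_lek r a p hp (fun j h => hnd p hp hR j h.1), fun p hp hR hb =>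
    wN_good r a hra p hp (hnd p hp hR) hb⟩

lemma card_badL {k : ℕ} (r a : Fin k → ℕ) (Y : ℕ) (h : ∀ i j, r i * a j ≤ Y) : (badL r a).card ≤ k * k * Nat.log 2 Y := by
  have h3 : ∀ b : ℤ, b.natAbs ≤ Y → b.natAbs.primeFactors.card ≤ Nat.log 2 Y := by
    intro b hb
    rcases Nat.eq_zero_or_pos b.natAbs with h | h
    · rw [h]; simp
    · exact (omega_le_log _ (by omega)).trans (Nat.log_mono_right hb)
  unfold badL
  refine card_biUnion_le.trans ?_
  calc ∑ q ∈ univ.filter (fun q : Fin k × Fin k => q.1 ≠ q.2), ((r q.1 : ℤ) * (a q.2 : ℤ) - (r q.2 : ℤ) * (a q.1 : ℤ)).natAbs.primeFactors.card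
      ≤ ∑ _q ∈ univ.filter (fun q : Fin k × Fin k => q.1 ≠ q.2), Nat.log 2 Y := by
        apply sum_le_sum
        intro q _
        apply h3
        have e1 := h q.1 q.2
        have e2 := h q.2 q.1
        have e3 : ((r q.1 : ℤ) * (a q.2 : ℤ)) = ((r q.1 * a q.2 : ℕ) : ℤ) := by push_cast; ring
        have e4 : ((r q.2 : ℤ) * (a q.1 : ℤ)) = ((r q.2 * a q.1 : ℕ) : ℤ) := by push_cast; ring
        rw [e3, e4]
        omega
    _ = (univ.filter (fun q : Fin k × Fin k => q.1 ≠ q.2)).card * Nat.log 2 Y := by rw [sum_const, smul_eq_mul]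
    _ ≤ k * k * Nat.log 2 Y := by
        apply Nat.mul_le_mul_right
        refine (card_filter_le _ _).trans ?_
        rw [card_univ, Fintype.card_prod, Fintype.card_fin]

lemma wN_nuB {k : ℕ} (r a : Fin k → ℕ) (p : ℕ) (hp : p.Prime) : nuB (fun p n => ∃ j, p ∣ r j * n + a j) p = wN r a p := by
  classical
  rw [wN_eq r a p hp]
  unfold nuB
  congr 1
  ext q
  simp only [mem_filter]

lemma perB_wN {k : ℕ} (r a : Fin k → ℕ) (h : ∀ p, p.Prime → ∀ j, ¬ (p ∣ r j ∧ p ∣ a j)) :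
    PerB (fun p n => ∃ j, p ∣ r j * n + a j) k := by
  refine ⟨fun p n => ?_, fun p hp => ?_⟩
  · apply exists_congr
    intro j
    have e1 : r j * n + a j ≡ r j * (n % p) + a j [MOD p] :=
      Nat.ModEq.add_right _ (Nat.ModEq.mul_left _ (Nat.mod_modEq n p).symm)
    exact e1.dvd_iff dvd_rfl
  · rw [wN_nuB r a p hp]
    exact wN_lek r a p hp (h p hp)

/-- the model on the forms -/
lemma model_prod {k : ℕ} (r a : Fin k → ℕ) (hr : ∀ j, 1 ≤ r j) (z n : ℕ) (hn : 1 ≤ n) :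
    ∏ j, lamzI z ((r j : ℤ) * (n : ℤ) + (a j : ℤ)) = if ∀ p ∈ pz z, ¬ ∃ j, p ∣ r j * n + a j then ((Vz z)⁻¹) ^ k else 0 := by
  classical
  have h1 : ∀ j, lamzI z ((r j : ℤ) * (n : ℤ) + (a j : ℤ)) = if ∀ p ∈ pz z, ¬ p ∣ r j * n + a j then (Vz z)⁻¹ else 0 := by
    intro j
    have e1 : ((r j : ℤ) * (n : ℤ) + (a j : ℤ)) = ((r j * n + a j : ℕ) : ℤ) := by push_cast; ring
    have e2 : 1 ≤ r j * n + a j := le_trans (Nat.mul_pos (hr j) hn) (Nat.le_add_right _ _)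
    unfold lamzI
    rw [e1, if_pos (by exact_mod_cast e2), Int.toNat_natCast]
    rfl
  simp only [h1]
  split_ifs with h
  · have h2 : ∀ j ∈ (univ : Finset (Fin k)), (if ∀ p ∈ pz z, ¬ p ∣ r j * n + a j then (Vz z)⁻¹ else 0) = (Vz z)⁻¹ := by
      intro j _
      rw [if_pos]
      intro p hp hd
      exact h p hp ⟨j, hd⟩
    rw [prod_congr rfl h2, prod_const, card_univ, Fintype.card_fin]
  · push Not at h
    obtain ⟨p, hp, j, hj⟩ := h
    apply prod_eq_zero (mem_univ j)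
    rw [if_neg]
    intro h2
    exact h2 p hp hj

lemma singG_eq (ν : ℕ → ℕ) (k z : ℕ) : singG ν k z = ((Vz z)⁻¹) ^ k * ∏ p ∈ pz z, (1 - (ν p : ℝ) / p) := by
  unfold singG Gp Vz
  rw [← prod_inv_distrib, ← prod_pow, ← prod_mul_distrib]
  apply prod_congr rfl
  intro p _
  rw [div_eq_mul_inv, inv_pow, mul_comm]

/-- the main term -/
theorem mainL (k E U : ℕ) (hk : 1 ≤ k) : ∃ N0 : ℕ, ∀ N : ℕ, N0 ≤ N → ∀ z : ℕ, 1 ≤ z → (z : ℝ) ≤ Real.log N ^ E →
    ∀ r a : Fin k → ℕ, (∀ j, 1 ≤ r j ∧ r j ≤ z) →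
    |∑ n ∈ Icc 1 N, ∏ j, lamzI z ((r j : ℤ) * (n : ℤ) + (a j : ℤ)) - singG (wN r a) k z * N| ≤ N / Real.log N ^ U := by
  classical
  obtain ⟨N1, h1⟩ := sys_count k E (U + k) hk
  obtain ⟨N2, h2⟩ := Vz_inv_small E
  obtain ⟨N3, h3⟩ := ev_L' 1
  refine ⟨N1 + N2 + N3 + 3, fun N hN z hz hz2 r a hr => ?_⟩
  have hL := h3 N (by omega)
  have hV := h2 N (by omega) z hz hz2
  have hV0 := inv_pos.2 (Vz_pos z)
  have hL0 : 0 < Real.log (N : ℝ) := by linarith
  have hN0 : (0 : ℝ) ≤ N := Nat.cast_nonneg _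
  have e0 : ∑ n ∈ Icc 1 N, ∏ j, lamzI z ((r j : ℤ) * (n : ℤ) + (a j : ℤ)) =
      ((Vz z)⁻¹) ^ k * (((Icc 1 N).filter (fun n : ℕ => ∀ p ∈ pz z, ¬ ∃ j, p ∣ r j * n + a j)).card : ℝ) := by
    rw [sum_congr rfl (fun n hn => model_prod r a (fun j => (hr j).1) z n (mem_Icc.1 hn).1), ← sum_filter, sum_const, nsmul_eq_mul]
    ring
  by_cases hc : ∃ p, p.Prime ∧ ∃ j, p ∣ r j ∧ p ∣ a j
  · obtain ⟨p, hp, j, hj1, hj2⟩ := hc
    have hpz : p ∈ pz z := mem_pz.2 ⟨(Nat.le_of_dvd (by have := (hr j).1; omega) hj1).trans (hr j).2, hp⟩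
    have e1 : (Icc 1 N).filter (fun n : ℕ => ∀ p ∈ pz z, ¬ ∃ j, p ∣ r j * n + a j) = ∅ := by
      rw [filter_eq_empty_iff]
      intro n _ h
      exact h p hpz ⟨j, dvd_add (hj1.mul_right n) hj2⟩
    have e2 : singG (wN r a) k z = 0 := by
      rw [singG_eq]
      apply mul_eq_zero_of_right
      apply prod_eq_zero hpz
      rw [wN_full r a p hp j hj1 hj2, div_self (by exact_mod_cast hp.ne_zero), sub_self]
    rw [e0, e1, e2, card_empty]
    simp only [Nat.cast_zero, mul_zero, zero_mul, sub_zero, abs_zero]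
    positivity
  · push Not at hc
    have hper := perB_wN r a (fun p hp j h => hc p hp j h.1 h.2)
    have g1 := h1 N (by omega) z hz hz2 _ hper
    have e2 : ∏ p ∈ pz z, (1 - (nuB (fun p n => ∃ j, p ∣ r j * n + a j) p : ℝ) / p) = ∏ p ∈ pz z, (1 - (wN r a p : ℝ) / p) :=
      prod_congr rfl fun p hp => by rw [wN_nuB r a p (mem_pz.1 hp).2]
    rw [e2] at g1
    rw [e0, singG_eq]
    have e4 : ((Vz z)⁻¹) ^ k * (((Icc 1 N).filter (fun n : ℕ => ∀ p ∈ pz z, ¬ ∃ j, p ∣ r j * n + a j)).card : ℝ) -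
        ((Vz z)⁻¹) ^ k * (∏ p ∈ pz z, (1 - (wN r a p : ℝ) / p)) * N = ((Vz z)⁻¹) ^ k *
        ((((Icc 1 N).filter (fun n : ℕ => ∀ p ∈ pz z, ¬ ∃ j, p ∣ r j * n + a j)).card : ℝ) - N * ∏ p ∈ pz z, (1 - (wN r a p : ℝ) / p)) := by ring
    rw [e4, abs_mul, abs_of_nonneg (by positivity)]
    calc ((Vz z)⁻¹) ^ k * |(((Icc 1 N).filter (fun n : ℕ => ∀ p ∈ pz z, ¬ ∃ j, p ∣ r j * n + a j)).card : ℝ) - N * ∏ p ∈ pz z, (1 - (wN r a p : ℝ) / p)|
        ≤ Real.log N ^ k * (N / Real.log N ^ (U + k)) := mul_le_mul (pow_le_pow_left₀ hV0.le hV _) (by refine le_trans (le_of_eq ?_) g1; congr!) (abs_nonneg _) (by positivity)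
      _ = N / Real.log N ^ U := by
          rw [pow_add]
          field_simp

end Pool.Agent.Y885
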