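import Pool.Agent.Y885.TU1

set_option autoImplicit false

/-! Linear forms with random constants which have a thin large spectrum. -/

namespace Pool.Agent.Y885
open Finset
open Pool.Agent.H807R2.Dav
open Pool.Agent.H373R2.T7
open Pool.Agent.W93.DG
open Pool.Agent.W93.RD
open Pool.Agent.W93.TD (tele_w)

lemma sum_mult (N r : ℕ) (hr : 1 ≤ r) (G : ℕ → ℝ) (F : ℤ → ℝ) :
    ∑ m ∈ Icc 1 (r * N), (if r ∣ m then G (m / r) else 0) * F (m : ℤ) = ∑ n ∈ Icc 1 N, G n * F ((r : ℤ) * (n : ℤ)) := by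
  classical
  have h1 : ∑ m ∈ Icc 1 (r * N), (if r ∣ m then G (m / r) else 0) * F (m : ℤ) =
      ∑ m ∈ (Icc 1 (r * N)).filter (fun m => r ∣ m), G (m / r) * F (m : ℤ) := by
    rw [sum_filter]
    apply sum_congr rfl
    intro m _
    split_ifs <;> simp
  have h2 : (Icc 1 (r * N)).filter (fun m => r ∣ m) = (Icc 1 N).image (fun n => r * n) := by
    ext m
    rw [mem_filter, mem_image, mem_Icc]
    constructor
    · rintro ⟨⟨h3, h4⟩, n, rfl⟩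
      refine ⟨n, mem_Icc.2 ⟨?_, ?_⟩, rfl⟩
      · rcases Nat.eq_zero_or_pos n with h | h
        · rw [h, mul_zero] at h3; omega
        · exact h
      · exact Nat.le_of_mul_le_mul_left h4 (by omega)
    · rintro ⟨n, hn, rfl⟩
      rw [mem_Icc] at hn
      exact ⟨⟨Nat.mul_pos hr hn.1, Nat.mul_le_mul_left _ hn.2⟩, dvd_mul_right _ _⟩
  rw [h1, h2, sum_image (fun x _ y _ h => Nat.eq_of_mul_eq_mul_left (by omega) h)]
  apply sum_congr rfl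
  intro n _
  rw [Nat.mul_div_cancel_left _ (by omega)]
  push_cast
  rfl

/-- one random shift and a coefficient -/
theorem tl_difc (b E c : ℕ) (hb : 2 ≤ b) (hE : 1 ≤ E) (U : ℕ) : ∃ B : ℕ, ∀ Ez : ℕ, ∃ K₀ : ℕ, ∀ K : ℕ, K₀ ≤ K →
    ∀ z : ℕ, Real.log ((b ^ K : ℕ) : ℝ) ^ B ≤ z → (z : ℝ) ≤ Real.log ((b ^ K : ℕ) : ℝ) ^ Ez →
    ∀ (ι : Type) (Ω : Finset ι) (p : ι → ℝ) (Y : ι → ℤ), TLaw b E c (2 * U + 6) K Ω p Y →
    ∀ N r : ℕ, 1 ≤ r → ((r : ℤ) * N) ≤ (b : ℤ) ^ K → (∀ ω ∈ Ω, -(b : ℤ) ^ K < Y ω ∧ (r : ℤ) * N + Y ω ≤ (b : ℤ) ^ K) →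
    ∀ Q : ℝ, 0 < Q → ∀ G : ℕ → ℝ, (∀ n ∈ Icc 1 N, |G n| ≤ Q) →
    ∑ ω ∈ Ω, p ω * |∑ n ∈ Icc 1 N, G n * (lamI ((r : ℤ) * (n : ℤ) + Y ω) - lamzI z ((r : ℤ) * (n : ℤ) + Y ω))| ≤
      Q * (((b ^ K : ℕ) : ℝ) / (K : ℝ) ^ U) := by
  obtain ⟨B, hB⟩ := tl_dif b E c hb hE U
  refine ⟨B, fun Ez => ?_⟩
  obtain ⟨k₀, h0⟩ := hB Ez
  refine ⟨k₀, fun K hk z hz1 hz2 ι Ω p Y hlaw N r hr hN hY Q hQ G hG => ?_⟩
  have h1 := h0 K hk z hz1 hz2 ι Ω p Y hlaw (r * N) (by push_cast; exact hN) (by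
    intro ω hω
    push_cast
    exact hY ω hω) Q hQ (fun m => if r ∣ m then G (m / r) else 0) (by
    intro m hm
    rw [mem_Icc] at hm
    by_cases h : r ∣ m
    · obtain ⟨n, rfl⟩ := h
      simp only [dvd_mul_right, if_true]
      rw [Nat.mul_div_cancel_left _ (by omega)]
      apply hG
      rw [mem_Icc]
      refine ⟨?_, Nat.le_of_mul_le_mul_left hm.2 (by omega)⟩
      rcases Nat.eq_zero_or_pos n with h | h
      · rw [h, mul_zero] at hm; omega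
      · exact h
    · simp only [if_neg h, abs_zero]
      exact hQ.le)
  refine le_trans (le_of_eq ?_) h1
  apply sum_congr rfl
  intro ω _
  rw [sum_mult N r hr G (fun m => lamI (m + Y ω) - lamzI z (m + Y ω))]

/-- replacing the von Mangoldt function by the sieve model for linear forms -/
theorem tl_forms (s b E c : ℕ) (hb : 2 ≤ b) (hE : 1 ≤ E) (U : ℕ) : ∃ B : ℕ, ∀ Ez : ℕ, ∃ K₀ : ℕ, ∀ K : ℕ, K₀ ≤ K →
    ∀ z : ℕ, Real.log ((b ^ K : ℕ) : ℝ) ^ B ≤ z → (z : ℝ) ≤ Real.log ((b ^ K : ℕ) : ℝ) ^ Ez →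
    ∀ (α : Type) (_ : DecidableEq α) (Ω : Fin s → Finset α) (p : Fin s → α → ℝ) (Y : Fin s → α → ℤ),
    (∀ i, TLaw b E c (2 * (U + s + 1) + 6) K (Ω i) (p i) (Y i)) → (∀ i, ∑ v ∈ Ω i, p i v = 1) →
    ∀ (N : ℕ) (r : Fin s → ℕ), (∀ i, 1 ≤ r i) → (∀ i, ((r i : ℤ) * N) ≤ (b : ℤ) ^ K) →
    (∀ i, ∀ v ∈ Ω i, -(b : ℤ) ^ K < Y i v ∧ (r i : ℤ) * N + Y i v ≤ (b : ℤ) ^ K) →
    ∀ g : ℕ → ℝ, (∀ n ∈ Icc 1 N, |g n| ≤ 1) →
    ∑ ω ∈ Fintype.piFinset Ω, (∏ i, p i (ω i)) * |∑ n ∈ Icc 1 N, g n *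
        (∏ i, lamI ((r i : ℤ) * (n : ℤ) + Y i (ω i)) - ∏ i, lamzI z ((r i : ℤ) * (n : ℤ) + Y i (ω i)))| ≤
      ((b ^ K : ℕ) : ℝ) / (K : ℝ) ^ U := by
  classical
  obtain ⟨B1, hB1⟩ := tl_difc b E c hb hE (U + s + 1)
  refine ⟨B1, fun Ez => ?_⟩
  obtain ⟨k1, h1⟩ := hB1 Ez
  obtain ⟨N2, h2⟩ := Vz_inv_small Ez
  refine ⟨k1 + N2 + s * b ^ s + 3, fun K hK z hz1 hz2 α _ Ω p Y hlaw hsum N r hr hN hY g hg => ?_⟩
  have hbn : 0 < b := by omega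
  have hkX : K < b ^ K := Nat.lt_pow_self (by omega)
  have hX3 : (3 : ℝ) ≤ ((b ^ K : ℕ) : ℝ) := by exact_mod_cast (by omega : 3 ≤ b ^ K)
  have hX0 : (0 : ℝ) < ((b ^ K : ℕ) : ℝ) := by linarith
  obtain ⟨LX, hLX⟩ : ∃ LX, LX = Real.log ((b ^ K : ℕ) : ℝ) := ⟨_, rfl⟩
  have hLX1 : 1 ≤ LX := by
    rw [hLX, Real.le_log_iff_exp_le hX0]
    have := Real.exp_one_lt_d9
    linarith
  have hbr : (2 : ℝ) ≤ b := by exact_mod_cast hb
  have hk0 : (0 : ℝ) < K := by exact_mod_cast (by omega : 0 < K)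
  have hLXK : LX ≤ b * K := by
    rw [hLX]
    push_cast
    rw [Real.log_pow, mul_comm]
    apply mul_le_mul_of_nonneg_right _ hk0.le
    have := Real.log_le_sub_one_of_pos (show (0 : ℝ) < b by linarith)
    linarith
  have hz : 1 ≤ z := by
    have : (1 : ℝ) ≤ z := by
      refine le_trans ?_ hz1
      rw [← hLX]
      exact one_le_pow₀ hLX1
    exact_mod_cast this
  have hV := h2 (b ^ K) (by omega) z hz hz2
  rw [← hLX] at hV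
  have hbe : ((b ^ K : ℕ) : ℤ) = (b : ℤ) ^ K := by push_cast; ring
  have hup : ∀ i, ∀ n ∈ Icc 1 N, ∀ v ∈ Ω i, (((r i : ℤ) * (n : ℤ) + Y i v : ℤ) : ℝ) ≤ ((b ^ K : ℕ) : ℝ) := by
    intro i n hn v hv
    rw [mem_Icc] at hn
    have h5 := (hY i v hv).2
    rw [← hbe] at h5
    have h6 : (r i : ℤ) * (n : ℤ) + Y i v ≤ ((b ^ K : ℕ) : ℤ) := by
      have : (r i : ℤ) * (n : ℤ) ≤ (r i : ℤ) * N := by exact_mod_cast Nat.mul_le_mul_left _ hn.2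
      linarith
    exact_mod_cast h6
  have key := tele_w N Ω p (fun i v hv => (hlaw i).nonneg v hv)
    hsum (fun i n v => lamI ((r i : ℤ) * (n : ℤ) + Y i v))
    (fun i n v => lamzI z ((r i : ℤ) * (n : ℤ) + Y i v))
    LX (((b ^ K : ℕ) : ℝ) / (K : ℝ) ^ (U + s + 1)) hLX1 (by positivity) (by
      intro i n hn v hv
      rw [abs_of_nonneg (lamI_nonneg _), hLX]
      exact lamI_le _ _ (by linarith) (hup i n hn v hv)) (by
      intro i n hn v hv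
      rw [abs_of_nonneg (lamzI_nonneg _ _)]
      exact (lamzI_le z _).trans hV) (by
      intro i Q hQ G hG
      exact h1 K (by omega) z hz1 hz2 α (Ω i) (p i) (Y i) (hlaw i) N (r i) (hr i) (hN i) (hY i) Q hQ G hG)
    univ 1 one_pos (fun n _ => g n) (by
      intro n hn m _
      exact hg n hn) (by
      intro n m v i _; rfl)
  rw [card_univ, Fintype.card_fin, one_mul] at key
  refine key.trans ?_
  have e1 : LX ^ s ≤ (b * K) ^ s := pow_le_pow_left₀ (by linarith) hLXK _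
  have e2 : (s : ℝ) * b ^ s ≤ K := by exact_mod_cast (by omega : s * b ^ s ≤ K)
  calc (s : ℝ) * (LX ^ s * (((b ^ K : ℕ) : ℝ) / (K : ℝ) ^ (U + s + 1)))
      ≤ (s : ℝ) * ((b * K) ^ s * (((b ^ K : ℕ) : ℝ) / (K : ℝ) ^ (U + s + 1))) := by gcongr
    _ = ((s : ℝ) * b ^ s) * (((b ^ K : ℕ) : ℝ) / (K : ℝ) ^ (U + 1)) := by
        rw [mul_pow, show U + s + 1 = (U + 1) + s by ring, pow_add (K : ℝ) (U + 1) s]
        field_simp
    _ ≤ K * (((b ^ K : ℕ) : ℝ) / (K : ℝ) ^ (U + 1)) := by gcongr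
    _ = _ := by
        rw [pow_succ]
        field_simp

end Pool.Agent.Y885
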