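import Pool.Agent.Y885.LF2

set_option autoImplicit false

/-! Linear forms: the window `[x, 2x)`, the limit, from the weights to the primes. -/

namespace Pool.Agent.Y885
open Finset
open Pool.Agent.H373R2.T7

/-- the main term for the window -/
theorem winL (k E U : ℕ) (hk : 1 ≤ k) : ∃ x0 : ℕ, ∀ x : ℕ, x0 ≤ x → ∀ z : ℕ, 1 ≤ z → (z : ℝ) ≤ Real.log x ^ E →
    ∀ r a : Fin k → ℕ, (∀ j, 1 ≤ r j ∧ r j ≤ z) →
    |∑ n ∈ Ico x (2 * x), ∏ j, lamzI z ((r j : ℤ) * (n : ℤ) + (a j : ℤ)) - singG (wN r a) k z * x| ≤ x / Real.log x ^ U := by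
  obtain ⟨N1, h1⟩ := mainL k (E + 1) (U + 1) hk
  obtain ⟨N2, h2⟩ := ev_L' (2 + 2 ^ (U + 1) + 2 ^ (E + 1))
  refine ⟨N1 + N2 + 4, fun x hx z hz hz2 r a hr => ?_⟩
  have hL := h2 x (by omega)
  obtain ⟨L, hLd⟩ : ∃ L, L = Real.log (x : ℝ) := ⟨_, rfl⟩
  rw [← hLd] at hL hz2 ⊢
  have q1 : (0 : ℝ) < 2 ^ (U + 1) := by positivity
  have q2 : (0 : ℝ) < 2 ^ (E + 1) := by positivity
  have hL1 : 1 ≤ L := by linarith
  have hL0 : 0 < L := by linarith
  have hx4 : (4 : ℝ) ≤ x := by exact_mod_cast (by omega : 4 ≤ x)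
  have c1 : ((x - 1 : ℕ) : ℝ) = x - 1 := by
    rw [Nat.cast_sub (by omega)]; simp
  have c2 : ((2 * x - 1 : ℕ) : ℝ) = 2 * x - 1 := by
    rw [Nat.cast_sub (by omega)]; simp
  have l1 : L / 2 ≤ Real.log ((x - 1 : ℕ) : ℝ) := by
    rw [c1]
    have e1 : L ≤ 2 * Real.log ((x : ℝ) - 1) := by
      rw [hLd]
      have : Real.log ((x : ℝ)) ≤ Real.log (((x : ℝ) - 1) ^ 2) := Real.log_le_log (by linarith) (by nlinarith)
      rw [Real.log_pow] at this
      exact_mod_cast this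
    linarith
  have l2 : L ≤ Real.log ((2 * x - 1 : ℕ) : ℝ) := by
    rw [c2, hLd]
    exact Real.log_le_log (by linarith) (by linarith)
  have p1 : L ^ E ≤ (L / 2) ^ (E + 1) := by
    rw [div_pow, le_div_iff₀ (by positivity), pow_succ L]
    apply mul_le_mul_of_nonneg_left _ (by positivity)
    linarith
  have g1 := h1 (x - 1) (by omega) z hz (hz2.trans (p1.trans (pow_le_pow_left₀ (by linarith) l1 _))) r a hr
  have g2 := h1 (2 * x - 1) (by omega) z hz (hz2.trans ((pow_le_pow_right₀ hL1 (Nat.le_succ E)).trans (pow_le_pow_left₀ hL0.le l2 _))) r a hr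
  have i1 : Icc 1 (x - 1) = Ico 1 x := by
    ext n
    rw [mem_Icc, mem_Ico]
    omega
  have i2 : Icc 1 (2 * x - 1) = Ico 1 (2 * x) := by
    ext n
    rw [mem_Icc, mem_Ico]
    omega
  rw [i1, c1] at g1
  rw [i2, c2] at g2
  have hsum := sum_Ico_consecutive (fun n : ℕ => ∏ j, lamzI z ((r j : ℤ) * (n : ℤ) + (a j : ℤ))) (show 1 ≤ x by omega) (show x ≤ 2 * x by omega)
  obtain ⟨S, hS⟩ : ∃ S, S = singG (wN r a) k z := ⟨_, rfl⟩
  rw [← hS] at g1 g2 ⊢
  have b1 : ((x : ℝ) - 1) / Real.log ((x - 1 : ℕ) : ℝ) ^ (U + 1) ≤ 2 ^ (U + 1) * (x / L ^ (U + 1)) := by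
    calc ((x : ℝ) - 1) / Real.log ((x - 1 : ℕ) : ℝ) ^ (U + 1) ≤ x / (L / 2) ^ (U + 1) := by
          apply div_le_div₀ (by linarith) (by linarith) (by positivity)
          exact pow_le_pow_left₀ (by linarith) l1 _
      _ = _ := by
          rw [div_pow]
          field_simp
  have b2 : (2 * (x : ℝ) - 1) / Real.log ((2 * x - 1 : ℕ) : ℝ) ^ (U + 1) ≤ 2 * (x / L ^ (U + 1)) := by
    calc (2 * (x : ℝ) - 1) / Real.log ((2 * x - 1 : ℕ) : ℝ) ^ (U + 1) ≤ (2 * x) / L ^ (U + 1) := by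
          apply div_le_div₀ (by linarith) (by linarith) (by positivity)
          exact pow_le_pow_left₀ hL0.le l2 _
      _ = _ := by ring
  have b3 : (2 + 2 ^ (U + 1)) * (x / L ^ (U + 1)) ≤ x / L ^ U := by
    calc (2 + 2 ^ (U + 1)) * (x / L ^ (U + 1)) ≤ L * (x / L ^ (U + 1)) := by
          apply mul_le_mul_of_nonneg_right _ (by positivity)
          linarith
      _ = _ := by
          rw [pow_succ]
          field_simp
  rw [c1] at b1
  rw [c2] at b2
  have g1' := abs_le.1 (g1.trans b1)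
  have g2' := abs_le.1 (g2.trans b2)
  rw [abs_le]
  constructor <;> linarith [g1'.1, g1'.2, g2'.1, g2'.2]

/-- the prime powers -/
lemma ppL (x r a X : ℕ) (hr : 1 ≤ r) (hX : 1 ≤ X) (h : r * (2 * x) + a ≤ X) :
    ∑ q ∈ Ico x (2 * x), (lamI ((r : ℤ) * (q : ℤ) + (a : ℤ)) - lamP ((r : ℤ) * (q : ℤ) + (a : ℤ))) ≤ 2 * √(X : ℝ) * Real.log X := by
  classical
  have h0 := pp_sum (r * (2 * x)) X (a : ℤ) hX (by
    intro n hn
    rw [mem_Icc] at hn
    have : n + a ≤ X := by omega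
    exact_mod_cast this)
  refine le_trans ?_ h0
  rcases Nat.eq_zero_or_pos x with hx | hx
  · rw [hx]
    simp
  have h1 : ∑ q ∈ Ico x (2 * x), (lamI ((r : ℤ) * (q : ℤ) + (a : ℤ)) - lamP ((r : ℤ) * (q : ℤ) + (a : ℤ))) =
      ∑ m ∈ (Ico x (2 * x)).image (fun q => r * q), (lamI ((m : ℤ) + (a : ℤ)) - lamP ((m : ℤ) + (a : ℤ))) := by
    rw [sum_image (fun x _ y _ h => Nat.eq_of_mul_eq_mul_left (by omega) h)]
    apply sum_congr rfl
    intro q _
    push_cast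
    rfl
  rw [h1]
  apply sum_le_sum_of_subset_of_nonneg
  · intro m hm
    obtain ⟨q, hq, rfl⟩ := mem_image.1 hm
    rw [mem_Ico] at hq
    rw [mem_Icc]
    exact ⟨Nat.mul_pos hr (by omega), Nat.mul_le_mul_left _ hq.2.le⟩
  · intro m _ _
    have := lamP_le ((m : ℤ) + (a : ℤ))
    linarith

/-- the weighted number of the prime values -/
noncomputable def thL {k : ℕ} (r a : Fin k → ℕ) (x : ℕ) : ℝ := ∑ q ∈ Ico x (2 * x), ∏ j, lamP ((r j : ℤ) * (q : ℤ) + (a j : ℤ))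

lemma thL_diff {k : ℕ} (r a : Fin k → ℕ) (x X : ℕ) (hr : ∀ j, 1 ≤ r j) (hX : 3 ≤ X) (h : ∀ j, r j * (2 * x) + a j ≤ X) :
    |∑ q ∈ Ico x (2 * x), ∏ j, lamI ((r j : ℤ) * (q : ℤ) + (a j : ℤ)) - thL r a x| ≤ k * (Real.log X ^ k * (2 * √(X : ℝ) * Real.log X)) := by
  classical
  have hXr : (3 : ℝ) ≤ X := by exact_mod_cast hX
  have hM : 1 ≤ Real.log (X : ℝ) := by
    rw [Real.le_log_iff_exp_le (by linarith)]
    have := Real.exp_one_lt_d9
    linarith
  unfold thL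
  rw [← sum_sub_distrib]
  have hpt : ∀ q ∈ Ico x (2 * x), 0 ≤ ∏ j, lamI ((r j : ℤ) * (q : ℤ) + (a j : ℤ)) - ∏ j, lamP ((r j : ℤ) * (q : ℤ) + (a j : ℤ)) ∧
      ∏ j, lamI ((r j : ℤ) * (q : ℤ) + (a j : ℤ)) - ∏ j, lamP ((r j : ℤ) * (q : ℤ) + (a j : ℤ)) ≤
      Real.log X ^ k * ∑ j, (lamI ((r j : ℤ) * (q : ℤ) + (a j : ℤ)) - lamP ((r j : ℤ) * (q : ℤ) + (a j : ℤ))) := by
    intro q hq
    rw [mem_Ico] at hq
    have h1 := prod_sub_le (univ : Finset (Fin k)) (fun j => lamI ((r j : ℤ) * (q : ℤ) + (a j : ℤ)))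
      (fun j => lamP ((r j : ℤ) * (q : ℤ) + (a j : ℤ))) (Real.log X) hM (fun j _ => lamP_nonneg _) (fun j _ => lamP_le _) (by
        intro j _
        apply lamI_le _ _ (by linarith)
        have h2 : r j * q + a j ≤ X := by
          have := Nat.mul_le_mul_left (r j) hq.2.le
          have := h j
          omega
        exact_mod_cast h2)
    rw [card_univ, Fintype.card_fin] at h1
    exact h1
  rw [abs_of_nonneg (sum_nonneg fun q hq => (hpt q hq).1)]
  refine (sum_le_sum fun q hq => (hpt q hq).2).trans ?_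
  rw [← mul_sum, sum_comm]
  have h3 : ∑ j : Fin k, ∑ q ∈ Ico x (2 * x), (lamI ((r j : ℤ) * (q : ℤ) + (a j : ℤ)) - lamP ((r j : ℤ) * (q : ℤ) + (a j : ℤ))) ≤
      ∑ _j : Fin k, (2 * √(X : ℝ) * Real.log X) := sum_le_sum fun j _ => ppL x (r j) (a j) X (hr j) (by omega) (h j)
  rw [sum_const, card_univ, Fintype.card_fin, nsmul_eq_mul] at h3
  calc Real.log X ^ k * ∑ j : Fin k, ∑ q ∈ Ico x (2 * x), (lamI ((r j : ℤ) * (q : ℤ) + (a j : ℤ)) - lamP ((r j : ℤ) * (q : ℤ) + (a j : ℤ)))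
      ≤ Real.log X ^ k * (k * (2 * √(X : ℝ) * Real.log X)) := mul_le_mul_of_nonneg_left h3 (by positivity)
    _ = _ := by ring

/-- the number of the `q` in `[x, 2x)` for which all the forms are primes -/
def cntL {k : ℕ} (r a : Fin k → ℕ) (x : ℕ) : ℕ := ((Ico x (2 * x)).filter (fun q => ∀ j, (r j * q + a j).Prime)).card

lemma thL_bounds {k : ℕ} (r a : Fin k → ℕ) (x X : ℕ) (hr : ∀ j, 1 ≤ r j) (hx : 1 ≤ x) (h : ∀ j, r j * (2 * x) + a j ≤ X) :
    cntL r a x * Real.log x ^ k ≤ thL r a x ∧ thL r a x ≤ cntL r a x * Real.log X ^ k := by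
  classical
  have hx0 : (0 : ℝ) < x := by exact_mod_cast hx
  have hlx : 0 ≤ Real.log (x : ℝ) := Real.log_natCast_nonneg x
  have h1 : thL r a x = ∑ q ∈ (Ico x (2 * x)).filter (fun q => ∀ j, (r j * q + a j).Prime), ∏ j, Real.log ((r j * q + a j : ℕ) : ℝ) := by
    unfold thL
    rw [sum_filter]
    apply sum_congr rfl
    intro q _
    have e1 : ∀ j, ((r j : ℤ) * (q : ℤ) + (a j : ℤ)).toNat = r j * q + a j := by
      intro j
      have : ((r j : ℤ) * (q : ℤ) + (a j : ℤ)) = ((r j * q + a j : ℕ) : ℤ) := by push_cast; ring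
      rw [this, Int.toNat_natCast]
    unfold lamP
    simp only [e1]
    split_ifs with h2
    · exact prod_congr rfl fun j _ => if_pos (h2 j)
    · push Not at h2
      obtain ⟨j, hj⟩ := h2
      exact prod_eq_zero (mem_univ j) (if_neg hj)
  have hval : ∀ q ∈ (Ico x (2 * x)).filter (fun q => ∀ j, (r j * q + a j).Prime), ∀ j,
      Real.log x ≤ Real.log ((r j * q + a j : ℕ) : ℝ) ∧ Real.log ((r j * q + a j : ℕ) : ℝ) ≤ Real.log X := by
    intro q hq j
    rw [mem_filter, mem_Ico] at hq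
    have e1 : x ≤ r j * q + a j := hq.1.1.trans ((Nat.le_mul_of_pos_left q (hr j)).trans (Nat.le_add_right _ _))
    have e2 : r j * q + a j ≤ X := by
      have := Nat.mul_le_mul_left (r j) hq.1.2.le
      have := h j
      omega
    constructor
    · exact Real.log_le_log hx0 (by exact_mod_cast e1)
    · exact Real.log_le_log (by exact_mod_cast (by omega : 0 < r j * q + a j)) (by exact_mod_cast e2)
  rw [h1]
  unfold cntL
  constructor
  · rw [← nsmul_eq_mul, ← sum_const]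
    apply sum_le_sum
    intro q hq
    have e1 : Real.log (x : ℝ) ^ k = ∏ _j : Fin k, Real.log (x : ℝ) := by rw [prod_const, card_univ, Fintype.card_fin]
    rw [e1]
    exact prod_le_prod (fun j _ => hlx) (fun j _ => (hval q hq j).1)
  · rw [← nsmul_eq_mul, ← sum_const]
    apply sum_le_sum
    intro q hq
    have e1 : Real.log (X : ℝ) ^ k = ∏ _j : Fin k, Real.log (X : ℝ) := by rw [prod_const, card_univ, Fintype.card_fin]
    rw [e1]
    exact prod_le_prod (fun j _ => hlx.trans (hval q hq j).1) (fun j _ => (hval q hq j).2)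

end Pool.Agent.Y885
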