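import Pool.Agent.Y885.LF5
import Pool.Agent.Y885.LF3
import Pool.Agent.Y885.LA2

set_option autoImplicit false

/-! Linear forms: few elements of sets which meet every `[y, l y]`. -/

namespace Pool.Agent.Y885
open Finset
open Pool.Agent.H807R2.Dav
open Pool.Agent.H373R2.T7
open Pool.Agent.W93.DG
open Pool.Agent.W93.RD
open Pool.Agent.W93.TD (avg_w total_w)

lemma nm_ceil (L T : ℝ) (m : ℕ) (hL : 2 ≤ L) (hT : T < L ^ m + 1) : T ≤ L ^ (m + 1) := by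
  have e2 : 1 ≤ L ^ m := one_le_pow₀ (by linarith)
  rw [pow_succ L m]
  nlinarith

lemma nm_two (a L : ℝ) (h : a ≤ (1 + 1) * L) (hL : 3 ≤ L) : a ≤ L ^ 2 := by nlinarith

lemma nm_log (L : ℝ) (hL : 1 ≤ L) : Real.log L ^ 2 ≤ 2 * L := by
  have e1 := Real.quadratic_le_exp_of_nonneg (Real.log_nonneg hL)
  rw [Real.exp_log (by linarith)] at e1
  have := Real.log_nonneg hL
  nlinarith

lemma nm_big (L B : ℝ) (κ : ℕ) (hB : 0 ≤ B) (hL : 4 + 2 * B ≤ L) : 2 * L ^ κ + (B + 2) ≤ L ^ (κ + 1) := by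
  have : 1 ≤ L ^ κ := one_le_pow₀ (by linarith)
  rw [pow_succ]
  nlinarith

lemma nm_sqrt (x : ℝ) (hx : 1 ≤ x) : √x ≤ x := by
  rw [Real.sqrt_le_left (by linarith)]
  nlinarith

lemma nm_succ (L R : ℝ) (κ : ℕ) (hL : 2 ≤ L) (h : R ≤ L ^ κ) : R + 1 ≤ L ^ (κ + 1) := by
  have : 1 ≤ L ^ κ := one_le_pow₀ (by linarith)
  rw [pow_succ]
  nlinarith

lemma nm_three (t : ℝ) (ht : 1 ≤ t) : t * (2 * t + 1) ≤ 3 * (t * t) := by nlinarith

lemma nm_quarter (a L : ℝ) (hL : 1 ≤ L) (h : 4 * a ≤ L) : a / L ^ 2 ≤ 1 / 4 := by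
  rw [div_le_div_iff₀ (by positivity) (by norm_num)]
  nlinarith

/-- proportional values are rare -/
lemma tl_prop (b : ℕ) (hb : 2 ≤ b) (E c V : ℕ) (hE : 1 ≤ E) : ∃ K₀ : ℕ, ∀ K : ℕ, K₀ ≤ K →
    ∀ (ι : Type) (Ω : Finset ι) (p : ι → ℝ) (Y : ι → ℤ), TLaw b E c (V + 1) K Ω p Y → ∀ α : ℕ, 1 ≤ α → ∀ y : ℤ,
    ∑ ω ∈ Ω, p ω * (if (α : ℤ) * Y ω = y then (1 : ℝ) else 0) ≤ 1 / (K : ℝ) ^ V := by
  obtain ⟨k0, h0⟩ := tl_point b hb E c V hE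
  refine ⟨k0, fun K hK ι Ω p Y hlaw α hα y => ?_⟩
  have hα0 : (α : ℤ) ≠ 0 := by exact_mod_cast (by omega : α ≠ 0)
  refine le_trans (sum_le_sum fun ω hω => ?_) (h0 K hK ι Ω p Y hlaw (y / α))
  apply mul_le_mul_of_nonneg_left _ (hlaw.nonneg ω hω)
  split_ifs with h1 h2
  · exact le_rfl
  · exfalso
    apply h2
    rw [← h1, Int.mul_ediv_cancel_left _ hα0]
  · exact zero_le_one
  · exact le_rfl

/-- a good point -/
lemma good_point {s : ℕ} {α β : Type} [DecidableEq α] (Ω : Fin s → Finset α) (p : Fin s → α → ℝ) (hp : ∀ i, ∀ v ∈ Ω i, 0 ≤ p i v)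
    (hsum : ∀ i, ∑ v ∈ Ω i, p i v = 1) (Y : Fin s → α → ℤ) (G : Finset (ℕ × ℕ × ℤ)) (box : Finset β) (DD : β → (Fin s → α) → ℝ)
    (hDD : ∀ r ∈ box, ∀ ω, 0 ≤ DD r ω) (θ M Q : ℝ) (hM : 0 < M) (hθ : 0 ≤ θ)
    (h1 : ∀ r ∈ box, ∑ ω ∈ Fintype.piFinset Ω, (∏ i, p i (ω i)) * DD r ω ≤ Q)
    (h2 : ∀ i, ∀ g ∈ G, ∀ y : ℤ, ∑ v ∈ Ω i, p i v * (if ((g.1 : ℕ) : ℤ) * Y i v = y then (1 : ℝ) else 0) ≤ θ)
    (hlt : s * s * (G.card * θ) + box.card * Q / M < 1) :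
    ∃ ω ∈ Fintype.piFinset Ω, (∀ r ∈ box, DD r ω ≤ M) ∧
      ∀ i j, i ≠ j → ∀ g ∈ G, ((g.1 : ℕ) : ℤ) * Y j (ω j) ≠ ((g.2.1 : ℕ) : ℤ) * Y i (ω i) + g.2.2 := by
  classical
  have hpp : ∀ m ∈ Fintype.piFinset Ω, 0 ≤ ∏ j, p j (m j) := fun m hm =>
    prod_nonneg fun j _ => hp j _ (Fintype.mem_piFinset.1 hm j)
  by_contra hcon
  push Not at hcon
  have hdeg : ∀ i j : Fin s, ∀ g ∈ G, ∑ ω ∈ Fintype.piFinset Ω, (∏ i, p i (ω i)) *
      (if i ≠ j ∧ ((g.1 : ℕ) : ℤ) * Y j (ω j) = ((g.2.1 : ℕ) : ℤ) * Y i (ω i) + g.2.2 then (1 : ℝ) else 0) ≤ θ := by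
    intro i j g hg
    by_cases hij : i ≠ j
    swap
    · simp only [hij, false_and, if_false, mul_zero, sum_const_zero]
      exact hθ
    simp only [hij, true_and, ne_eq, not_false_eq_true]
    have e1 := avg_w Ω p hsum j (fun ω => if ((g.1 : ℕ) : ℤ) * Y j (ω j) = ((g.2.1 : ℕ) : ℤ) * Y i (ω i) + g.2.2 then (1 : ℝ) else 0)
    rw [← e1]
    have e2 : ∀ m ∈ Fintype.piFinset Ω, (∏ j, p j (m j)) *
        ∑ v ∈ Ω j, p j v * (if ((g.1 : ℕ) : ℤ) * Y j ((Function.update m j v) j) = ((g.2.1 : ℕ) : ℤ) * Y i ((Function.update m j v) i) + g.2.2 then (1 : ℝ) else 0) ≤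
        (∏ j, p j (m j)) * θ := by
      intro m hm
      apply mul_le_mul_of_nonneg_left _ (hpp m hm)
      refine le_trans (le_of_eq ?_) (h2 j g hg (((g.2.1 : ℕ) : ℤ) * Y i (m i) + g.2.2))
      apply sum_congr rfl
      intro v _
      rw [Function.update_self, Function.update_of_ne hij]
    refine (sum_le_sum e2).trans (le_of_eq ?_)
    rw [← sum_mul, total_w Ω p hsum, one_mul]
  have hpt : ∀ ω ∈ Fintype.piFinset Ω, (∏ i, p i (ω i)) ≤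
      ∑ i : Fin s, ∑ j : Fin s, ∑ g ∈ G, (∏ i, p i (ω i)) *
        (if i ≠ j ∧ ((g.1 : ℕ) : ℤ) * Y j (ω j) = ((g.2.1 : ℕ) : ℤ) * Y i (ω i) + g.2.2 then (1 : ℝ) else 0) +
      ∑ r ∈ box, (∏ i, p i (ω i)) * DD r ω / M := by
    intro ω hω
    have hP0 := hpp ω hω
    obtain ⟨P, hP⟩ : ∃ P, P = ∏ i, p i (ω i) := ⟨_, rfl⟩
    rw [← hP] at hP0 ⊢
    have t0 : ∀ i j : Fin s, ∀ g : ℕ × ℕ × ℤ, 0 ≤ P * (if i ≠ j ∧ ((g.1 : ℕ) : ℤ) * Y j (ω j) = ((g.2.1 : ℕ) : ℤ) * Y i (ω i) + g.2.2 then (1 : ℝ) else 0) :=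
      fun i j g => mul_nonneg hP0 (by split_ifs <;> norm_num)
    have t1 : 0 ≤ ∑ i : Fin s, ∑ j : Fin s, ∑ g ∈ G, P *
        (if i ≠ j ∧ ((g.1 : ℕ) : ℤ) * Y j (ω j) = ((g.2.1 : ℕ) : ℤ) * Y i (ω i) + g.2.2 then (1 : ℝ) else 0) :=
      sum_nonneg fun i _ => sum_nonneg fun j _ => sum_nonneg fun g _ => t0 i j g
    have t2 : ∀ r ∈ box, 0 ≤ P * DD r ω / M := fun r hr => div_nonneg (mul_nonneg hP0 (hDD r hr ω)) hM.le
    by_cases hc : ∀ r ∈ box, DD r ω ≤ M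
    · obtain ⟨i, j, hij, g, hg, hab⟩ := hcon ω hω hc
      have s2 := single_le_sum (f := fun g : ℕ × ℕ × ℤ => P * (if i ≠ j ∧ ((g.1 : ℕ) : ℤ) * Y j (ω j) = ((g.2.1 : ℕ) : ℤ) * Y i (ω i) + g.2.2 then (1 : ℝ) else 0))
        (fun g _ => t0 i j g) hg
      have s3 := single_le_sum (f := fun j : Fin s => ∑ g ∈ G, P * (if i ≠ j ∧ ((g.1 : ℕ) : ℤ) * Y j (ω j) = ((g.2.1 : ℕ) : ℤ) * Y i (ω i) + g.2.2 then (1 : ℝ) else 0))
        (fun j _ => sum_nonneg fun g _ => t0 i j g) (mem_univ j)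
      have s4 := single_le_sum (f := fun i : Fin s => ∑ j : Fin s, ∑ g ∈ G, P * (if i ≠ j ∧ ((g.1 : ℕ) : ℤ) * Y j (ω j) = ((g.2.1 : ℕ) : ℤ) * Y i (ω i) + g.2.2 then (1 : ℝ) else 0))
        (fun i _ => sum_nonneg fun j _ => sum_nonneg fun g _ => t0 i j g) (mem_univ i)
      rw [if_pos ⟨hij, hab⟩, mul_one] at s2
      have t3 := sum_nonneg t2
      linarith
    · push Not at hc
      obtain ⟨r, hr, hrM⟩ := hc
      have s1 := single_le_sum (f := fun r => P * DD r ω / M) t2 hr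
      have s2 : P ≤ P * DD r ω / M := by
        rw [le_div_iff₀ hM]
        exact mul_le_mul_of_nonneg_left hrM.le hP0
      linarith
  have htot := sum_le_sum hpt
  rw [total_w Ω p hsum, sum_add_distrib] at htot
  have g1 : ∑ ω ∈ Fintype.piFinset Ω, ∑ i : Fin s, ∑ j : Fin s, ∑ g ∈ G, (∏ i, p i (ω i)) *
        (if i ≠ j ∧ ((g.1 : ℕ) : ℤ) * Y j (ω j) = ((g.2.1 : ℕ) : ℤ) * Y i (ω i) + g.2.2 then (1 : ℝ) else 0) ≤ s * s * (G.card * θ) := by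
    rw [sum_comm]
    have e1 : ∀ i ∈ (univ : Finset (Fin s)), ∑ ω ∈ Fintype.piFinset Ω, ∑ j : Fin s, ∑ g ∈ G, (∏ i, p i (ω i)) *
        (if i ≠ j ∧ ((g.1 : ℕ) : ℤ) * Y j (ω j) = ((g.2.1 : ℕ) : ℤ) * Y i (ω i) + g.2.2 then (1 : ℝ) else 0) ≤ s * (G.card * θ) := by
      intro i _
      rw [sum_comm]
      have e2 : ∀ j ∈ (univ : Finset (Fin s)), ∑ ω ∈ Fintype.piFinset Ω, ∑ g ∈ G, (∏ i, p i (ω i)) *
          (if i ≠ j ∧ ((g.1 : ℕ) : ℤ) * Y j (ω j) = ((g.2.1 : ℕ) : ℤ) * Y i (ω i) + g.2.2 then (1 : ℝ) else 0) ≤ G.card * θ := by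
        intro j _
        rw [sum_comm]
        refine (sum_le_sum fun g hg => hdeg i j g hg).trans (le_of_eq ?_)
        rw [sum_const, nsmul_eq_mul]
      refine (sum_le_sum e2).trans (le_of_eq ?_)
      rw [sum_const, card_univ, Fintype.card_fin, nsmul_eq_mul]
    refine (sum_le_sum e1).trans (le_of_eq ?_)
    rw [sum_const, card_univ, Fintype.card_fin, nsmul_eq_mul]
    ring
  have g2 : ∑ ω ∈ Fintype.piFinset Ω, ∑ r ∈ box, (∏ i, p i (ω i)) * DD r ω / M ≤ box.card * Q / M := by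
    rw [sum_comm]
    have e1 : ∀ r ∈ box, ∑ ω ∈ Fintype.piFinset Ω, (∏ i, p i (ω i)) * DD r ω / M ≤ Q / M := by
      intro r hr
      rw [← sum_div]
      exact div_le_div_of_nonneg_right (h1 r hr) hM.le
    refine (sum_le_sum e1).trans (le_of_eq ?_)
    rw [sum_const, nsmul_eq_mul]
    ring
  linarith

/-- admissibility is kept for the small coefficients -/
lemma adm_keep {s : ℕ} (r h a : Fin s → ℕ) (R₀ : ℕ) (hr : ∀ i, 1 ≤ r i ∧ r i ≤ R₀) (hc : ∀ i, ∃ m, a i = h i + m ∧ primorial (s + 1 + R₀) ∣ m)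
    (hadm : ∀ p : ℕ, p.Prime → wN r h p < p) : ∀ p : ℕ, p.Prime → wN r a p < p := by
  classical
  intro p hp
  by_cases hps : p ≤ s + 1 + R₀
  · have h1 : wN r a p = wN r h p := by
      rw [wN_eq r a p hp, wN_eq r h p hp]
      congr 1
      apply filter_congr
      intro q _
      apply exists_congr
      intro j
      obtain ⟨m, hm, hdm⟩ := hc j
      have hpm : p ∣ m := (hp.dvd_primorial_iff.2 hps).trans hdm
      rw [hm, ← add_assoc]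
      exact (Nat.dvd_add_left hpm)
    rw [h1]
    exact hadm p hp
  · push Not at hps
    refine lt_of_le_of_lt (wN_lek r a p hp ?_) (by omega)
    intro j hj
    have := Nat.le_of_dvd (by have := (hr j).1; omega) hj.1
    have := (hr j).2
    omega

end Pool.Agent.Y885
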