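import Pool.Agent.Y885.LF6

set_option autoImplicit false

/-! Linear forms: few elements of sets which meet every `[y, l y]`, the theorem. -/

namespace Pool.Agent.Y885
open Finset
open Pool.Agent.H807R2.Dav
open Pool.Agent.H373R2.T7
open Pool.Agent.W93.DG
open Pool.Agent.W93.RD
open Pool.Agent.W93.TD (avg_w total_w)

set_option maxHeartbeats 2000000 in
/-- linear forms with few elements of sets which meet every `[y, l y]` added to the constants -/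
theorem las_formsW (s l κ R₀ U : ℕ) (hs : 1 ≤ s) (hl : 2 ≤ l) : ∃ C : ℝ, ∀ (H B : ℕ) (ε : ℝ), 0 < ε → ∃ x₀ : ℕ, ∀ A : Fin s → Set ℕ,
    (∀ i, ∀ y : ℕ, 1 ≤ y → ∃ a ∈ A i, y ≤ a ∧ a ≤ l * y) → ∀ x : ℕ, x₀ ≤ x → ∀ h : Fin s → ℕ, (∀ i, h i ≤ B * x) →
    ∃ S : Fin s → Finset ℕ, (∀ i, ∀ a ∈ S i, a ∈ A i ∧ Real.log x ^ H ≤ a ∧ (a : ℝ) ≤ x / Real.log x ^ H) ∧
      (∀ i, ((S i).card : ℝ) ≤ C * Real.log (Real.log x) ^ 2) ∧
      (∀ r e : Fin s → ℕ, (∀ i, 1 ≤ r i ∧ (r i : ℝ) ≤ Real.log x ^ κ ∧ (e i : ℝ) ≤ Real.log x ^ κ) →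
        LFs ε U x r (fun i => h i + ∑ a ∈ S i, a + e i)) ∧
      ∀ r e : Fin s → ℕ, (∀ i, 1 ≤ r i ∧ r i ≤ R₀) → (∀ p : ℕ, p.Prime → wN r (fun i => h i + e i) p < p) →
        ∀ p : ℕ, p.Prime → wN r (fun i => h i + ∑ a ∈ S i, a + e i) p < p := by
  classical
  obtain ⟨U1, hU1⟩ : ∃ U1, U1 = (2 * κ + 1) * s + κ + U + 6 := ⟨_, rfl⟩
  obtain ⟨V, hV⟩ : ∃ V, V = 2 * (U1 + s + 1) + 6 := ⟨_, rfl⟩
  have hVκ : 4 * κ + 1 + 1 ≤ V := by
    have hs1 : 2 * κ + 1 ≤ (2 * κ + 1) * s := Nat.le_mul_of_pos_right _ hs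
    omega
  obtain ⟨b, hb, C₀, hC⟩ := las_lawP l (primorial (s + 1 + R₀)) hl (primorial_pos _) V
  have hbn : 0 < b := by omega
  have hbr : (2 : ℝ) ≤ b := by exact_mod_cast hb
  refine ⟨4 * |C₀|, fun H B ε hε => ?_⟩
  obtain ⟨c, N₀, h0⟩ := hC (H + κ + 4) 0
  obtain ⟨B0, hB0⟩ := tl_forms s b 20 c hb (by norm_num) U1
  obtain ⟨E1, hE1⟩ : ∃ E1, E1 = U + κ + s + 6 + B0 + 1 := ⟨_, rfl⟩
  obtain ⟨k1, h1⟩ := hB0 (E1 + 1)
  obtain ⟨k2, h2⟩ := tl_prop b hb 20 c (4 * κ + 1) (by norm_num)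
  obtain ⟨n3, h3⟩ := detL s κ (B + 2) E1 U hs ε hε (by omega)
  obtain ⟨n4, h4⟩ := sizeL κ B 1 one_pos
  obtain ⟨n6, h6⟩ := ev_log' κ 1
  obtain ⟨n5, h5⟩ := ev_L' (4 * b ^ (U1 + 1) + 12 * s * s * b ^ (4 * κ + 1) + 3 ^ B0 + 4 + 2 * B + b + 8 * |C₀|)
  refine ⟨N₀ + n3 + n4 + n5 + n6 + b ^ (k1 + k2 + 2) + 3, fun A hA x hx h hh => ?_⟩
  have hL := h5 x (by omega)
  obtain ⟨L, hLd⟩ : ∃ L, L = Real.log (x : ℝ) := ⟨_, rfl⟩
  rw [← hLd] at hL
  have q1 : (0 : ℝ) ≤ 4 * b ^ (U1 + 1) := by positivity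
  have q2 : (0 : ℝ) ≤ 12 * (s : ℝ) * s * b ^ (4 * κ + 1) := by positivity
  have q3 : (0 : ℝ) ≤ 3 ^ B0 := by positivity
  have q4 : (0 : ℝ) ≤ 2 * (B : ℝ) := by positivity
  have q5 : 0 ≤ 8 * |C₀| := by positivity
  have hL3 : 3 ≤ L := by linarith
  have hLB : 4 + 2 * (B : ℝ) ≤ L := by linarith
  have hL1 : 1 ≤ L := by linarith
  have hL0 : 0 < L := by linarith
  have hx0 : (0 : ℝ) < x := by exact_mod_cast (by omega : 0 < x)
  -- the scale
  obtain ⟨T, hT⟩ : ∃ T : ℕ, T = ⌈L ^ (κ + 1)⌉₊ := ⟨_, rfl⟩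
  have hT1 : L ^ (κ + 1) ≤ T := by rw [hT]; exact Nat.le_ceil _
  have hT2 : (T : ℝ) ≤ L ^ (κ + 2) := by
    have e1 : (T : ℝ) < L ^ (κ + 1) + 1 := by rw [hT]; exact Nat.ceil_lt_add_one (by positivity)
    exact nm_ceil L T (κ + 1) (by linarith) e1
  have hT3 : 1 ≤ T := by
    have e2 : 1 ≤ L ^ (κ + 1) := one_le_pow₀ hL1
    exact_mod_cast e2.trans hT1
  obtain ⟨X, hX⟩ : ∃ X, X = x * T := ⟨_, rfl⟩
  have hXx : x ≤ X := by rw [hX]; exact Nat.le_mul_of_pos_right _ (by omega)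
  have hXr : (X : ℝ) = x * T := by rw [hX]; push_cast; ring
  have hX0 : (0 : ℝ) < X := by exact_mod_cast (by omega : 0 < X)
  have hlogX2 := h4 x (by omega) T (by rw [← hLd]; exact hT2) hT3
  rw [← hX, ← hLd] at hlogX2
  have hlogX1 : L ≤ Real.log (X : ℝ) := by
    rw [hLd]
    exact Real.log_le_log hx0 (by exact_mod_cast hXx)
  obtain ⟨K, hK⟩ : ∃ K, K = Nat.log b X + 1 + 0 := ⟨_, rfl⟩
  have hKup : X < b ^ K := by rw [hK, add_zero]; exact Nat.lt_pow_succ_log_self (by omega) _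
  have hKlow : b ^ (K - 1) ≤ X := by
    rw [hK, add_zero, Nat.add_sub_cancel]
    exact Nat.pow_log_le_self b (by omega)
  have hKK : k1 + k2 + 2 ≤ K := by
    have : k1 + k2 + 2 ≤ Nat.log b X := Nat.le_log_of_pow_le (by omega) (by omega)
    omega
  have hKb : b ^ K ≤ b * X := by
    calc b ^ K = b * b ^ (K - 1) := by rw [← pow_succ']; congr 1; omega
      _ ≤ b * X := Nat.mul_le_mul_left _ hKlow
  have hKbr : ((b ^ K : ℕ) : ℝ) ≤ b * X := by exact_mod_cast hKb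
  have hKupr : (X : ℝ) ≤ ((b ^ K : ℕ) : ℝ) := by exact_mod_cast hKup.le
  have hlogK1 : L ≤ Real.log ((b ^ K : ℕ) : ℝ) := hlogX1.trans (Real.log_le_log hX0 hKupr)
  have hlogK2 : Real.log ((b ^ K : ℕ) : ℝ) ≤ 3 * L := by
    have e1 := Real.log_le_log (by linarith) hKbr
    rw [Real.log_mul (by linarith) hX0.ne'] at e1
    have e2 := Real.log_le_sub_one_of_pos (show (0 : ℝ) < b by linarith)
    linarith
  have hLK : L ≤ b * K := by
    refine hlogK1.trans ?_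
    push_cast
    rw [Real.log_pow, mul_comm]
    apply mul_le_mul_of_nonneg_right _ (Nat.cast_nonneg _)
    have := Real.log_le_sub_one_of_pos (show (0 : ℝ) < b by linarith)
    linarith
  have hK0 : (0 : ℝ) < K := by exact_mod_cast (by omega : 0 < K)
  -- the laws
  have hlaws := fun i => h0 (A i) (hA i) X (by omega)
  choose n Ω₀ pr Sf g1 g2 g3 using hlaws
  obtain ⟨Ω, hΩ⟩ : ∃ Ω : Fin s → Finset ((n : ℕ) × (Fin n → ℕ)), Ω = fun i => (Ω₀ i).map ⟨Sigma.mk (n i), sigma_mk_injective⟩ := ⟨_, rfl⟩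
  obtain ⟨p, hp⟩ : ∃ p : Fin s → ((n : ℕ) × (Fin n → ℕ)) → ℝ, p = fun i _ => pr i := ⟨_, rfl⟩
  obtain ⟨S, hS⟩ : ∃ S : Fin s → ((n : ℕ) × (Fin n → ℕ)) → Finset ℕ, S = fun i v => if h : v.1 = n i then Sf i (h ▸ v.2) else ∅ := ⟨_, rfl⟩
  have hSmk : ∀ i (ω : Fin (n i) → ℕ), S i ⟨n i, ω⟩ = Sf i ω := by
    intro i ω
    rw [hS]
    exact dif_pos rfl
  obtain ⟨Y, hY⟩ : ∃ Y : Fin s → ((n : ℕ) × (Fin n → ℕ)) → ℤ, Y = fun i v => ((∑ a ∈ S i v, a : ℕ) : ℤ) + (h i : ℤ) := ⟨_, rfl⟩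
  have hmemΩ : ∀ i, ∀ v ∈ Ω i, ∃ ω ∈ Ω₀ i, v = ⟨n i, ω⟩ := by
    intro i v hv
    rw [hΩ, mem_map] at hv
    obtain ⟨ω, h1, h2⟩ := hv
    exact ⟨ω, h1, h2.symm⟩
  have hlaw : ∀ i, TLaw b 20 c V K (Ω i) (p i) (Y i) := by
    intro i
    have e1 := (g2 i).add (h i : ℤ)
    rw [← hK] at e1
    rw [hΩ]
    exact e1.map _ (p i) (Y i) (fun ω => by rw [hp]) (fun ω => by rw [hY]; simp only [Function.Embedding.coeFn_mk, hSmk])
  have hsum : ∀ i, ∑ v ∈ Ω i, p i v = 1 := by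
    intro i
    rw [hΩ, hp]
    simp only [sum_map]
    exact g1 i
  -- the elements and the sums
  have hpowX : ∀ m : ℕ, L ^ m ≤ Real.log (X : ℝ) ^ m := fun m => pow_le_pow_left₀ hL0.le hlogX1 m
  have helt : ∀ i, ∀ ω ∈ Ω₀ i, ∀ a ∈ Sf i ω, a ∈ A i ∧ L ^ H ≤ a ∧ (a : ℝ) ≤ x / L ^ (H + 2) := by
    intro i ω hω a ha
    obtain ⟨e1, e2, e3⟩ := (g3 i ω hω).1 a ha
    refine ⟨e1, ?_, ?_⟩
    · exact ((pow_le_pow_right₀ hL1 (by omega)).trans (hpowX (H + κ + 4))).trans e2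
    · refine e3.trans ?_
      calc (X : ℝ) / Real.log (X : ℝ) ^ (H + κ + 4) ≤ (x * L ^ (κ + 2)) / L ^ (H + κ + 4) := by
            apply div_le_div₀ (by positivity) _ (by positivity) (hpowX _)
            rw [hXr]
            exact mul_le_mul_of_nonneg_left hT2 hx0.le
        _ = x / L ^ (H + 2) := by
            rw [show H + κ + 4 = (H + 2) + (κ + 2) by ring, pow_add L (H + 2)]
            field_simp
  have hll : Real.log (Real.log (X : ℝ)) ≤ 2 * Real.log L := by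
    have e1 : Real.log (X : ℝ) ≤ L ^ 2 := nm_two _ L hlogX2 hL3
    have e2 := Real.log_le_log (by linarith : (0 : ℝ) < Real.log (X : ℝ)) e1
    rw [Real.log_pow] at e2
    exact_mod_cast e2
  have hll0 : 0 ≤ Real.log (Real.log (X : ℝ)) := Real.log_nonneg (by linarith)
  have hcard : ∀ i, ∀ ω ∈ Ω₀ i, ((Sf i ω).card : ℝ) ≤ 4 * |C₀| * Real.log L ^ 2 := by
    intro i ω hω
    refine (g3 i ω hω).2.1.trans ?_
    calc C₀ * Real.log (Real.log (X : ℝ)) ^ 2 ≤ |C₀| * (2 * Real.log L) ^ 2 := by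
          apply mul_le_mul (le_abs_self _) (pow_le_pow_left₀ hll0 hll _) (by positivity) (abs_nonneg _)
      _ = _ := by ring
  have hlogL : Real.log L ^ 2 ≤ 2 * L := nm_log L hL1
  have hsumx : ∀ i, ∀ ω ∈ Ω₀ i, ∑ a ∈ Sf i ω, a ≤ x := by
    intro i ω hω
    have e1 : ((∑ a ∈ Sf i ω, a : ℕ) : ℝ) ≤ x := by
      push_cast
      calc ∑ a ∈ Sf i ω, (a : ℝ) ≤ ∑ _a ∈ Sf i ω, (x : ℝ) / L ^ (H + 2) := sum_le_sum fun a ha => (helt i ω hω a ha).2.2
        _ = (Sf i ω).card * ((x : ℝ) / L ^ (H + 2)) := by rw [sum_const, nsmul_eq_mul]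
        _ ≤ (4 * |C₀| * (2 * L)) * (x / L ^ 2) := by
            apply mul_le_mul _ _ (by positivity) (by positivity)
            · refine (hcard i ω hω).trans ?_
              exact mul_le_mul_of_nonneg_left hlogL (by positivity)
            · apply div_le_div_of_nonneg_left hx0.le (by positivity)
              exact pow_le_pow_right₀ hL1 (by omega)
        _ = (8 * |C₀| / L) * x := by field_simp; ring
        _ ≤ 1 * x := by
            apply mul_le_mul_of_nonneg_right _ hx0.le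
            rw [div_le_one hL0]
            linarith
        _ = x := one_mul _
    exact_mod_cast e1
  have hval : ∀ i, ∀ v ∈ Ω i, 0 ≤ Y i v ∧ Y i v ≤ ((B + 1) * x : ℕ) := by
    intro i v hv
    obtain ⟨ω, h1, h2⟩ := hmemΩ i v hv
    have h3 := hsumx i ω h1
    rw [hY, h2]
    simp only
    rw [hSmk]
    have h4 := hh i
    constructor
    · positivity
    · exact_mod_cast (by rw [add_mul]; omega : (∑ a ∈ Sf i ω, a) + h i ≤ (B + 1) * x)
  have hbig : ∀ r : ℕ, (r : ℝ) ≤ L ^ κ → r * (2 * x) + (B + 2) * x ≤ b ^ K := by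
    intro r hr
    have e1 : ((r * (2 * x) + (B + 2) * x : ℕ) : ℝ) ≤ X := by
      push_cast
      have e4 : (2 * L ^ κ + (B + 2)) ≤ L ^ (κ + 1) := nm_big L B κ (Nat.cast_nonneg _) hLB
      calc (r : ℝ) * (2 * x) + (B + 2) * x ≤ L ^ κ * (2 * x) + (B + 2) * x := by gcongr
        _ = (2 * L ^ κ + (B + 2)) * x := by ring
        _ ≤ T * x := mul_le_mul_of_nonneg_right (e4.trans hT1) hx0.le
        _ = X := by rw [hXr]; ring
    have e2 : r * (2 * x) + (B + 2) * x ≤ X := by exact_mod_cast e1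
    omega
  -- the level
  obtain ⟨z, hz⟩ : ∃ z, z = ⌈L ^ E1⌉₊ := ⟨_, rfl⟩
  have hz1 : L ^ E1 ≤ z := by rw [hz]; exact Nat.le_ceil _
  have hz2 : (z : ℝ) ≤ L ^ (E1 + 1) := by
    have q1 : (z : ℝ) < L ^ E1 + 1 := by rw [hz]; exact Nat.ceil_lt_add_one (by positivity)
    exact nm_ceil L z E1 (by linarith) q1
  have hz3 : Real.log ((b ^ K : ℕ) : ℝ) ^ B0 ≤ z := by
    calc Real.log ((b ^ K : ℕ) : ℝ) ^ B0 ≤ (3 * L) ^ B0 := pow_le_pow_left₀ (by linarith) hlogK2 _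
      _ = 3 ^ B0 * L ^ B0 := mul_pow _ _ _
      _ ≤ L * L ^ B0 := mul_le_mul_of_nonneg_right (by linarith) (by positivity)
      _ = L ^ (B0 + 1) := by ring
      _ ≤ L ^ E1 := pow_le_pow_right₀ hL1 (by omega)
      _ ≤ z := hz1
  have hz4 : (z : ℝ) ≤ Real.log ((b ^ K : ℕ) : ℝ) ^ (E1 + 1) := hz2.trans (pow_le_pow_left₀ hL0.le hlogK1 _)
  -- the box of the coefficients
  obtain ⟨R, hR⟩ : ∃ R, R = ⌊L ^ κ⌋₊ := ⟨_, rfl⟩
  have hRL : (R : ℝ) ≤ L ^ κ := by rw [hR]; exact Nat.floor_le (by positivity)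
  have hLκ1 : 1 ≤ L ^ κ := one_le_pow₀ hL1
  have hLκx : L ^ κ ≤ x := by
    have e1 : x ≤ x * 1 := by omega
    have e2 := hbig ⌊L ^ κ⌋₊ (Nat.floor_le (by positivity))
    have e3 : L ^ κ ≤ √(x : ℝ) := by
      have := h6 x (by omega)
      rw [one_mul, ← hLd] at this
      exact this
    refine e3.trans ?_
    exact nm_sqrt x (by exact_mod_cast (by omega : 1 ≤ x))
  obtain ⟨box, hbox⟩ : ∃ box : Finset ((Fin s → ℕ) × (Fin s → ℕ)), box = Fintype.piFinset (fun _ => Icc 1 R) ×ˢ Fintype.piFinset (fun _ => range (R + 1)) := ⟨_, rfl⟩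
  have hboxm : ∀ r, r ∈ box ↔ (∀ i, 1 ≤ r.1 i ∧ r.1 i ≤ R) ∧ ∀ i, r.2 i ≤ R := by
    intro r
    rw [hbox, mem_product, Fintype.mem_piFinset, Fintype.mem_piFinset]
    simp only [mem_Icc, mem_range, Nat.lt_succ_iff]
  have hboxc : (box.card : ℝ) ≤ L ^ ((2 * κ + 1) * s) := by
    rw [hbox, card_product, Fintype.card_piFinset_const, Fintype.card_piFinset_const, Nat.card_Icc, Nat.add_sub_cancel, card_range]
    push_cast
    rw [← mul_pow, pow_mul]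
    apply pow_le_pow_left₀ (by positivity)
    have e1 : (R : ℝ) + 1 ≤ L ^ (κ + 1) := nm_succ L R κ (by linarith) hRL
    calc (R : ℝ) * (R + 1) ≤ L ^ κ * L ^ (κ + 1) := mul_le_mul hRL e1 (by positivity) (by positivity)
      _ = _ := by rw [← pow_add]; congr 1; ring
  obtain ⟨G, hG⟩ : ∃ G : Finset (ℕ × ℕ × ℤ), G = Icc 1 R ×ˢ Icc 1 R ×ˢ Icc (-((R * R : ℕ) : ℤ)) ((R * R : ℕ) : ℤ) := ⟨_, rfl⟩
  have hGm : ∀ a b : ℕ, ∀ v : ℤ, 1 ≤ a → a ≤ R → 1 ≤ b → b ≤ R → -((R * R : ℕ) : ℤ) ≤ v → v ≤ ((R * R : ℕ) : ℤ) → (a, b, v) ∈ G := by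
    intro a b v h1 h2 h3 h4 h5 h6
    rw [hG, mem_product, mem_product, mem_Icc, mem_Icc, mem_Icc]
    exact ⟨⟨h1, h2⟩, ⟨h3, h4⟩, h5, h6⟩
  have hGc : (G.card : ℝ) ≤ 3 * L ^ (4 * κ) := by
    rw [hG, card_product, card_product, Nat.card_Icc, Nat.add_sub_cancel, Int.card_Icc]
    have e1 : ((((R * R : ℕ) : ℤ) + 1 - -((R * R : ℕ) : ℤ)).toNat) = 2 * (R * R) + 1 := by omega
    rw [e1]
    push_cast
    have e2 : (R : ℝ) * R ≤ L ^ (2 * κ) := by
      calc (R : ℝ) * R ≤ L ^ κ * L ^ κ := mul_le_mul hRL hRL (Nat.cast_nonneg _) (by positivity)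
        _ = _ := by rw [← pow_add]; congr 1; ring
    have e3 : 1 ≤ L ^ (2 * κ) := one_le_pow₀ hL1
    have e4 : L ^ (4 * κ) = L ^ (2 * κ) * L ^ (2 * κ) := by rw [← pow_add]; congr 1; ring
    have e5 : (0 : ℝ) ≤ (R : ℝ) * R := by positivity
    calc (R : ℝ) * (R * (2 * (R * R) + 1)) = (R * R) * (2 * (R * R) + 1) := by ring
      _ ≤ L ^ (2 * κ) * (2 * L ^ (2 * κ) + 1) := mul_le_mul e2 (by linarith) (by positivity) (by positivity)
      _ ≤ 3 * L ^ (4 * κ) := by rw [e4]; exact nm_three _ e3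
  obtain ⟨DD, hDD⟩ : ∃ DD : (Fin s → ℕ) × (Fin s → ℕ) → (Fin s → ((n : ℕ) × (Fin n → ℕ))) → ℝ, DD = fun r ω =>
      |∑ q ∈ Ico x (2 * x), (∏ j, lamI ((r.1 j : ℤ) * (q : ℤ) + (Y j (ω j) + (r.2 j : ℤ))) - ∏ j, lamzI z ((r.1 j : ℤ) * (q : ℤ) + (Y j (ω j) + (r.2 j : ℤ))))| := ⟨_, rfl⟩
  have hDDr : ∀ r ω, DD r ω = |∑ q ∈ Ico x (2 * x), (∏ j, lamI ((r.1 j : ℤ) * (q : ℤ) + (Y j (ω j) + (r.2 j : ℤ))) - ∏ j, lamzI z ((r.1 j : ℤ) * (q : ℤ) + (Y j (ω j) + (r.2 j : ℤ))))| :=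
    fun r ω => by rw [hDD]
  have hQ : ∀ r ∈ box, ∑ ω ∈ Fintype.piFinset Ω, (∏ i, p i (ω i)) * DD r ω ≤ ((b ^ K : ℕ) : ℝ) / (K : ℝ) ^ U1 := by
    intro r hr
    rw [hboxm] at hr
    have hr' : ∀ i, (r.1 i : ℝ) ≤ L ^ κ := fun i => le_trans (by exact_mod_cast (hr.1 i).2) hRL
    have hrx : ∀ i, r.2 i ≤ x := by
      intro i
      have e1 : (r.2 i : ℝ) ≤ x := (le_trans (by exact_mod_cast hr.2 i) hRL).trans hLκx
      exact_mod_cast e1
    have e1 := h1 K (by omega) z hz3 hz4 _ inferInstance Ω p (fun i v => Y i v + (r.2 i : ℤ)) (fun i => by rw [← hV]; exact (hlaw i).add _) hsum (2 * x) r.1 (fun i => (hr.1 i).1) (by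
      intro i
      have e2 := hbig (r.1 i) (hr' i)
      have e3 : ((r.1 i * (2 * x) : ℕ) : ℤ) ≤ ((b ^ K : ℕ) : ℤ) := by exact_mod_cast (by omega : r.1 i * (2 * x) ≤ b ^ K)
      push_cast at e3 ⊢
      exact e3) (by
      intro i v hv
      obtain ⟨e3, e4⟩ := hval i v hv
      have e2 : ((r.1 i * (2 * x) + (B + 2) * x : ℕ) : ℤ) ≤ ((b ^ K : ℕ) : ℤ) := by exact_mod_cast hbig (r.1 i) (hr' i)
      have e5 : (0 : ℤ) < (b : ℤ) ^ K := by positivity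
      have e6 : (r.2 i : ℤ) ≤ x := by exact_mod_cast hrx i
      have e7 : (0 : ℤ) ≤ (r.2 i : ℤ) := Int.natCast_nonneg _
      push_cast at e2 e4 ⊢
      constructor
      · linarith
      · linarith) (fun q => if q ∈ Ico x (2 * x) then 1 else 0) (by
      intro n _
      split_ifs <;> simp)
    refine le_trans (le_of_eq ?_) e1
    apply sum_congr rfl
    intro ω _
    rw [hDDr]
    congr 2
    have e2 : Ico x (2 * x) = (Icc 1 (2 * x)).filter (fun q => q ∈ Ico x (2 * x)) := by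
      ext q
      rw [mem_filter, mem_Icc, mem_Ico]
      omega
    rw [e2, sum_filter]
    apply sum_congr rfl
    intro q _
    rw [← e2]
    split_ifs
    · rw [one_mul]
    · rw [zero_mul]
  obtain ⟨ω, hω, hgood, hprop⟩ := good_point Ω p (fun i => (hlaw i).nonneg) hsum Y G box DD (fun r _ ω => by rw [hDDr]; exact abs_nonneg _)
    (1 / (K : ℝ) ^ (4 * κ + 1)) (x / L ^ (U + 2)) (((b ^ K : ℕ) : ℝ) / (K : ℝ) ^ U1) (by positivity) (by positivity) hQ (by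
      intro i g hg y
      have hg1 : 1 ≤ g.1 := by
        rw [hG, mem_product, mem_Icc] at hg
        exact hg.1.1
      exact h2 K (by omega) _ (Ω i) (p i) (Y i) ((hlaw i).mono (by omega) hVκ) g.1 hg1 y) (by
      -- the sizes
      have e1 : (s : ℝ) * s * (G.card * (1 / (K : ℝ) ^ (4 * κ + 1))) ≤ 1 / 4 := by
        have f2 : 1 / (K : ℝ) ^ (4 * κ + 1) ≤ b ^ (4 * κ + 1) / L ^ (4 * κ + 1) := by
          rw [div_le_div_iff₀ (by positivity) (by positivity), one_mul, ← mul_pow]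
          exact pow_le_pow_left₀ hL0.le hLK _
        calc (s : ℝ) * s * (G.card * (1 / (K : ℝ) ^ (4 * κ + 1))) ≤ (s : ℝ) * s * ((3 * L ^ (4 * κ)) * (b ^ (4 * κ + 1) / L ^ (4 * κ + 1))) := by gcongr
          _ = (3 * (s : ℝ) * s * b ^ (4 * κ + 1)) / L := by
              rw [pow_succ L]
              field_simp
          _ ≤ 1 / 4 := by
              rw [div_le_div_iff₀ hL0 (by norm_num)]
              linarith
      have e2 : (box.card : ℝ) * (((b ^ K : ℕ) : ℝ) / (K : ℝ) ^ U1) / (x / L ^ (U + 2)) ≤ 1 / 4 := by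
        have f2 : 1 / (K : ℝ) ^ U1 ≤ b ^ U1 / L ^ U1 := by
          rw [div_le_div_iff₀ (by positivity) (by positivity), one_mul, ← mul_pow]
          exact pow_le_pow_left₀ hL0.le hLK _
        have f3 : ((b ^ K : ℕ) : ℝ) ≤ b * (x * L ^ (κ + 2)) := by
          refine hKbr.trans ?_
          rw [hXr]
          gcongr
        rw [div_le_iff₀ (by positivity)]
        calc (box.card : ℝ) * (((b ^ K : ℕ) : ℝ) / (K : ℝ) ^ U1) = box.card * (((b ^ K : ℕ) : ℝ) * (1 / (K : ℝ) ^ U1)) := by ring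
          _ ≤ L ^ ((2 * κ + 1) * s) * ((b * (x * L ^ (κ + 2))) * (b ^ U1 / L ^ U1)) := by gcongr
          _ = (b ^ (U1 + 1) / L ^ 2) * (x / L ^ (U + 2)) := by
              have f4 : L ^ U1 = L ^ ((2 * κ + 1) * s) * L ^ (κ + 2) * L ^ (U + 2) * L ^ 2 := by
                rw [hU1, ← pow_add, ← pow_add, ← pow_add]
                congr 1
                ring
              rw [f4, pow_succ (b : ℝ) U1]
              have g1 : L ^ ((2 * κ + 1) * s) ≠ 0 := by positivity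
              have g2 : L ^ (κ + 2) ≠ 0 := by positivity
              have g3 : L ^ (U + 2) ≠ 0 := by positivity
              generalize L ^ ((2 * κ + 1) * s) = t1 at *
              generalize L ^ (κ + 2) = t2 at *
              generalize L ^ (U + 2) = t3 at *
              generalize (b : ℝ) ^ U1 = t4 at *
              field_simp
          _ ≤ (1 / 4) * (x / L ^ (U + 2)) := by
              apply mul_le_mul_of_nonneg_right _ (by positivity)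
              exact nm_quarter _ L hL1 (by linarith)
      linarith)
  -- the conclusion
  have hωi := fun i => hmemΩ i (ω i) (Fintype.mem_piFinset.1 hω i)
  choose ω₀ k1 k2 using hωi
  have hYn : ∀ i, Y i (ω i) = ((h i + ∑ a ∈ Sf i (ω₀ i), a : ℕ) : ℤ) := by
    intro i
    rw [k2 i, hY]
    simp only
    rw [hSmk]
    push_cast
    ring
  refine ⟨fun i => Sf i (ω₀ i), fun i a ha => ?_, fun i => ?_, fun r e hr => ?_, fun r e hr hadm => ?_⟩
  · obtain ⟨e1, e2, e3⟩ := helt i (ω₀ i) (k1 i) a ha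
    rw [← hLd]
    refine ⟨e1, e2, e3.trans ?_⟩
    apply div_le_div_of_nonneg_left hx0.le (by positivity)
    exact pow_le_pow_right₀ hL1 (by omega)
  · rw [← hLd]
    exact hcard i (ω₀ i) (k1 i)
  · rw [← hLd] at hr
    have hrb : (r, e) ∈ box := by
      rw [hboxm]
      refine ⟨fun i => ⟨(hr i).1, ?_⟩, fun i => ?_⟩
      · rw [hR]
        exact Nat.le_floor (hr i).2.1
      · rw [hR]
        exact Nat.le_floor (hr i).2.2
    have e1 := hgood (r, e) hrb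
    rw [hDDr] at e1
    simp only [hYn] at e1 hprop
    rw [hboxm] at hrb
    simp only at hrb
    have hcast : ∀ i, ((h i + ∑ a ∈ Sf i (ω₀ i), a + e i : ℕ) : ℤ) = ((h i + ∑ a ∈ Sf i (ω₀ i), a : ℕ) : ℤ) + (e i : ℤ) := fun i => by push_cast; ring
    apply h3 x (by omega) z (by rw [← hLd]; exact hz1) (by
      rw [← hLd]
      exact hz2.trans (pow_le_pow_right₀ hL1 (by omega))) r (fun i => h i + ∑ a ∈ Sf i (ω₀ i), a + e i) (by rw [← hLd]; exact fun i => ⟨(hr i).1, (hr i).2.1⟩) (by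
      intro i
      have f1 := hsumx i (ω₀ i) (k1 i)
      have f2 := hh i
      have f3 : e i ≤ x := by
        have e1 : (e i : ℝ) ≤ x := (hr i).2.2.trans hLκx
        exact_mod_cast e1
      rw [add_mul]
      omega) (by
      intro i j hij heq
      have f1 : ((r i * (h j + ∑ a ∈ Sf j (ω₀ j), a + e j) : ℕ) : ℤ) = ((r j * (h i + ∑ a ∈ Sf i (ω₀ i), a + e i) : ℕ) : ℤ) := by exact_mod_cast heq
      have hb1 : (r j * e i : ℕ) ≤ R * R := Nat.mul_le_mul (hrb.1 j).2 (hrb.2 i)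
      have hb2 : (r i * e j : ℕ) ≤ R * R := Nat.mul_le_mul (hrb.1 i).2 (hrb.2 j)
      apply hprop i j hij (r i, r j, ((r j * e i : ℕ) : ℤ) - ((r i * e j : ℕ) : ℤ)) (hGm _ _ _ (hrb.1 i).1 (hrb.1 i).2 (hrb.1 j).1 (hrb.1 j).2
        (by omega) (by omega))
      push_cast at f1 ⊢
      linarith)
    rw [← hLd]
    simp only [hcast]
    exact e1
  · exact adm_keep r (fun i => h i + e i) _ R₀ hr (fun i => ⟨∑ a ∈ Sf i (ω₀ i), a, by ring, (g3 i _ (k1 i)).2.2.2⟩) hadm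

end Pool.Agent.Y885
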