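import Pool.Agent.Y885.LW

set_option autoImplicit false

/-! Random integers with a thin large spectrum: no random summand at `O(log k)` of the highest scales. -/

namespace Pool.Agent.Y885
open Finset
open Pool.Agent.H807R2.Dav
open Pool.Agent.H373R2.T7

lemma dense_of' (δ : ℝ) (D k e E W : ℕ) (hE : 1 ≤ E) (hEδ2 : 3 / (E : ℝ) ≤ δ) (hk : 3 ≤ k) (he : (e : ℝ) ≤ W * Real.log k)
    (J : Finset ℕ) (hR : Rich δ D k J) : Dense E (D + 4 * (W + 1)) (k + e) J := by
  obtain ⟨hJk, hbot, htop, hall⟩ := hR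
  have hEr : (1 : ℝ) ≤ E := by exact_mod_cast hE
  have hE0 : (0 : ℝ) < E := by linarith
  have hE3 : 3 / (E : ℝ) ≤ 3 := by
    rw [div_le_iff₀ hE0]
    linarith
  have hE30 : 0 < 3 / (E : ℝ) := by positivity
  obtain ⟨c₀, hc₀⟩ : ∃ c₀ : ℝ, c₀ = D + 4 * (W + 1) := ⟨_, rfl⟩
  rw [← hc₀]
  obtain ⟨K, hK⟩ : ∃ K, K = k + e := ⟨_, rfl⟩
  rw [← hK]
  have hk3 : (3 : ℝ) ≤ k := by exact_mod_cast hk
  have hkK : (k : ℝ) ≤ K := by exact_mod_cast (by omega : k ≤ K)
  have hk0 : (0 : ℝ) < k := by linarith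
  have hlogk : 1 ≤ Real.log k := by
    rw [Real.le_log_iff_exp_le hk0]
    have := Real.exp_one_lt_d9
    linarith
  have hlogkK : Real.log k ≤ Real.log K := Real.log_le_log hk0 hkK
  have hlogK : 1 ≤ Real.log K := hlogk.trans hlogkK
  have hDlog : (D : ℝ) * Real.log k ≤ D * Real.log K := mul_le_mul_of_nonneg_left hlogkK (Nat.cast_nonneg _)
  have hWlog : (W : ℝ) * Real.log k ≤ W * Real.log K := mul_le_mul_of_nonneg_left hlogkK (Nat.cast_nonneg _)
  have heK : ((e : ℝ) + 1) ≤ (W + 1) * Real.log K := by linarith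
  have hc₀K : (D : ℝ) * Real.log k + 4 * (e + 1) ≤ c₀ * Real.log K := by
    rw [hc₀, add_mul]
    have : (4 : ℝ) * (e + 1) ≤ 4 * (W + 1) * Real.log K := by linarith
    linarith
  have hDk : 0 ≤ (D : ℝ) * Real.log k := by positivity
  refine ⟨fun w hw => ?_, fun w hw => ?_, ?_⟩
  · rcases Nat.lt_or_ge k w with h | h
    · have g1 := hbot k le_rfl
      have g2 : J.filter (fun i => 0 ≤ i ∧ i < w) = J.filter (fun j => j < k) := by
        ext j
        rw [mem_filter, mem_filter]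
        constructor
        · intro hj; exact ⟨hj.1, hJk j hj.1⟩
        · intro hj; exact ⟨hj.1, Nat.zero_le _, by omega⟩
      rw [g2]
      have g3 : (w : ℝ) ≤ k + (e + 1) := by exact_mod_cast (by omega : w ≤ k + (e + 1))
      have g4 : (1 / 2 + 3 / (E : ℝ)) * w ≤ (1 / 2 + 3 / (E : ℝ)) * (k + (e + 1)) := mul_le_mul_of_nonneg_left g3 (by positivity)
      have g5 : (1 / 2 + 3 / (E : ℝ)) * k ≤ (1 / 2 + δ) * k := mul_le_mul_of_nonneg_right (by linarith) hk0.le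
      have g6 : (1 / 2 + 3 / (E : ℝ)) * (e + 1) ≤ 4 * (e + 1) := mul_le_mul_of_nonneg_right (by linarith) (by positivity)
      linarith
    · have g1 := hbot w h
      have g2 : J.filter (fun i => 0 ≤ i ∧ i < w) = J.filter (fun j => j < w) := by
        ext j
        rw [mem_filter, mem_filter]
        constructor
        · intro hj; exact ⟨hj.1, hj.2.2⟩
        · intro hj; exact ⟨hj.1, Nat.zero_le _, hj.2⟩
      rw [g2]
      have g5 : (1 / 2 + 3 / (E : ℝ)) * w ≤ (1 / 2 + δ) * w := mul_le_mul_of_nonneg_right (by linarith) (Nat.cast_nonneg _)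
      have g6 : (0 : ℝ) ≤ 4 * (e + 1) := by positivity
      linarith
  · rcases Nat.lt_or_ge w (e + 1) with h | h
    · have g1 : (w : ℝ) ≤ e + 1 := by exact_mod_cast h.le
      have g2 : 3 / (E : ℝ) * w ≤ 3 * (e + 1) := mul_le_mul hE3 g1 (Nat.cast_nonneg _) (by norm_num)
      have g3 : (0 : ℝ) ≤ ((J.filter (fun i => K + 1 - w ≤ i ∧ i < K + 1)).card : ℝ) := Nat.cast_nonneg _
      have g4 : (0 : ℝ) ≤ e + 1 := by positivity
      linarith
    · obtain ⟨m, hm⟩ : ∃ m, m = w - (e + 1) := ⟨_, rfl⟩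
      have g1 := htop m (by omega)
      have g2 : J.filter (fun i => K + 1 - w ≤ i ∧ i < K + 1) = J.filter (fun j => k - m ≤ j) := by
        ext j
        rw [mem_filter, mem_filter]
        constructor
        · intro hj; exact ⟨hj.1, by omega⟩
        · intro hj
          have := hJk j hj.1
          exact ⟨hj.1, by omega, by omega⟩
      rw [g2]
      have g3 : (w : ℝ) = m + (e + 1) := by exact_mod_cast (by omega : w = m + (e + 1))
      rw [g3, mul_add]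
      have g5 : 3 / (E : ℝ) * m ≤ δ * m := mul_le_mul_of_nonneg_right hEδ2 (Nat.cast_nonneg _)
      have g6 : 3 / (E : ℝ) * (e + 1) ≤ 3 * (e + 1) := mul_le_mul_of_nonneg_right hE3 (by positivity)
      have g7 : (0 : ℝ) ≤ e + 1 := by positivity
      linarith
  · have g2 : J.filter (fun i => 0 ≤ i ∧ i < K + 1) = J := by
      rw [filter_eq_self]
      intro j hj
      have := hJk j hj
      exact ⟨Nat.zero_le _, by omega⟩
    rw [g2]
    have g3 : (K : ℝ) = k + e := by rw [hK]; push_cast; ring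
    rw [g3, mul_add]
    have g5 : (3 / 5 + 3 / (E : ℝ)) * k ≤ (3 / 5 + δ) * k := mul_le_mul_of_nonneg_right (by linarith) hk0.le
    have g6 : (3 / 5 + 3 / (E : ℝ)) * e ≤ 4 * e := mul_le_mul_of_nonneg_right (by linarith) (by positivity)
    rw [← g3]
    linarith

open Classical in
/-- sums of independent random integers, one at every scale, have a thin large spectrum -/
theorem rand_law' (b : ℕ) (hb : 2 ≤ b) (B D : ℕ) (hB : 1 ≤ B) (η δ : ℝ) (hη : 0 < η) (hδ : 0 < δ) :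
    ∃ E : ℕ, 1 ≤ E ∧ ∀ W V : ℕ, ∃ c k₀ : ℕ, ∀ k : ℕ, k₀ ≤ k → ∀ e : ℕ, (e : ℝ) ≤ W * Real.log k →
    ∀ (J : Finset ℕ) (s : ℕ → Finset ℤ) (p : ℕ → ℤ → ℝ) (C : ℤ),
    Rich δ D k J →
    (∀ j < k, (∀ x ∈ s j, 0 ≤ p j x ∧ |x| ≤ (B : ℤ) * (b : ℤ) ^ j) ∧ ∑ x ∈ s j, p j x = 1) →
    (∀ j ∈ J, ∀ y : ℤ, ∑ x ∈ s j, (if y ≤ x ∧ (B : ℤ) * (x - y) ≤ (b : ℤ) ^ j then p j x else 0) ≤ 1 - η) →
    TLaw b E c V (k + e) (Fintype.piFinset (fun j : Fin k => s j)) (fun ω => ∏ j : Fin k, p j (ω j))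
      (fun ω => C + ∑ j : Fin k, ω j) := by
  obtain ⟨E, hEδ⟩ := exists_nat_ge (3 / δ + 1)
  have hEr : (1 : ℝ) ≤ E := by
    have : 0 < 3 / δ := by positivity
    linarith
  have hE : 1 ≤ E := by exact_mod_cast hEr
  have hE0 : (0 : ℝ) < E := by linarith
  have hEδ2 : 3 / (E : ℝ) ≤ δ := by
    rw [div_le_iff₀ hE0]
    have h1 : 3 / δ ≤ E := by linarith
    rw [div_le_iff₀ hδ] at h1
    linarith
  obtain ⟨κ, ε₀, hκ0, hε₀, hκ, hthin⟩ := thin_of b (2 * B) E hb (by omega) hE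
  refine ⟨E, hE, fun W V => ?_⟩
  obtain ⟨c₁, K₁, h1⟩ := hthin (D + 4 * (W + 1)) ((V : ℝ) / (2 * κ ^ 2 * η))
  refine ⟨c₁, K₁ + 3, fun k hk e he J s p C hR hps hspread => ?_⟩
  have hDense := dense_of' δ D k e E W hE hEδ2 (by omega) he J hR
  exact sum_law b B E c₁ V k (k + e) hb hB (by omega) κ ε₀ (D + 4 * (W + 1)) _ η hκ0 hε₀ hη le_rfl J hR.1 s p
    (fun j hj x hx => ((hps j hj).1 x hx).1) (fun j hj => (hps j hj).2) (fun j hj x hx => ((hps j hj).1 x hx).2) hspread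
    hDense C (fun J hJ S hS hT => h1 (k + e) (by omega) J hJ S hS (by exact_mod_cast hT))

end Pool.Agent.Y885
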