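import Pool.Agent.Y885.TU1
import Pool.Agent.W93.PP8

set_option autoImplicit false

/-! Prime pairs in progressions whose difference is random with a thin large spectrum. -/

namespace Pool.Agent.Y885
open Finset
open Pool.Agent.H807R2.Dav
open Pool.Agent.H373R2.T7
open Pool.Agent.W93.DG
open Pool.Agent.W93.PP (markov GoodD det_good)

set_option maxHeartbeats 1000000 in
/-- prime pairs in progressions whose difference is random with a thin large spectrum -/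
theorem tl_goodD (b E A B C U Bc : ℕ) (hb : 2 ≤ b) (hE : 1 ≤ E) (c : ℕ) : ∃ K₀ : ℕ, ∀ K : ℕ, K₀ ≤ K →
    ∀ (ι : Type) (Ω : Finset ι) (p : ι → ℝ) (Y : ι → ℤ), TLaw b E c (2 * (A + 2 * B + C + 9 + (C + 3) + U + 1 + 2) + 6) K Ω p Y →
    ∀ X : ℕ, b ^ K ≤ Bc * X → 4 * X ≤ b ^ K → (∀ ω ∈ Ω, |Y ω| ≤ X) → ∀ bad : ι → Prop, ∀ _hdec : DecidablePred bad,
    (∀ ω ∈ Ω, bad ω → 0 ≤ Y ω ∧ (Y ω : ℝ) ≤ X / Real.log X ^ (C + 5) ∧ ¬ GoodD A B C X (Y ω).toNat) →
    ∑ ω ∈ Ω, (if bad ω then p ω else 0) ≤ 1 / (K : ℝ) ^ U := by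
  classical
  obtain ⟨U', hU'⟩ : ∃ U', U' = A + 2 * B + C + 9 + (C + 3) + U + 1 := ⟨_, rfl⟩
  rw [← hU']
  obtain ⟨B1, hB1⟩ := tl_dif b E c hb hE (U' + 2)
  obtain ⟨E1, hE1⟩ : ∃ E1, E1 = B1 + (C + 7 + B) := ⟨_, rfl⟩
  obtain ⟨k1, h1⟩ := hB1 (E1 + 1)
  obtain ⟨X1, hdet⟩ := det_good A B C E1 (by omega)
  obtain ⟨n2, h2⟩ := ev_L' (2 ^ B1 + Bc * (b : ℝ) ^ (U' + 2) + Real.log (Bc + 1) + 4 ^ (U + 1) + 3)
  obtain ⟨n3, h3⟩ := ev_log' A 1
  refine ⟨k1 + Bc * (X1 + n2 + n3 + 3) + 1, fun K hk ι Ω p Y hlaw X hX1 hX2 hYX bad hdec hbad => ?_⟩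
  have hb1 : 1 < b := by omega
  have hbr : (2 : ℝ) ≤ b := by exact_mod_cast hb
  have hKb : K < b ^ K := Nat.lt_pow_self hb1
  have hXbig : X1 + n2 + n3 + 3 ≤ X := by
    by_contra hcon
    push Not at hcon
    have : Bc * X ≤ Bc * (X1 + n2 + n3 + 3) := Nat.mul_le_mul_left _ hcon.le
    omega
  have hXpos : (0 : ℝ) < X := by exact_mod_cast (by omega : 0 < X)
  have hX3 : (3 : ℝ) ≤ X := by exact_mod_cast (by omega : 3 ≤ X)
  have a2 := h2 X (by omega)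
  have a3 := h3 X (by omega)
  obtain ⟨L, hL⟩ : ∃ L, L = Real.log (X : ℝ) := ⟨_, rfl⟩
  rw [← hL] at a2 a3
  rw [one_mul] at a3
  have hp1 : (0 : ℝ) < 2 ^ B1 := by positivity
  have hp2 : (0 : ℝ) < 4 ^ (U + 1) := by positivity
  have hp3 : (0 : ℝ) ≤ Bc * (b : ℝ) ^ (U' + 2) := by positivity
  have hBc0 : (0 : ℝ) ≤ Bc := Nat.cast_nonneg _
  have hp4 : (0 : ℝ) ≤ Real.log (Bc + 1) := Real.log_nonneg (by linarith)
  have hL3 : 3 ≤ L := by linarith
  have hL1 : 1 ≤ L := by linarith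
  have hL0 : 0 < L := by linarith
  have hk0 : (0 : ℝ) < K := by exact_mod_cast (by omega : 0 < K)
  obtain ⟨g1, g2⟩ := logX b K hb
  obtain ⟨LX, hLX⟩ : ∃ LX, LX = Real.log ((b ^ K : ℕ) : ℝ) := ⟨_, rfl⟩
  rw [← hLX] at g1 g2
  have hLLX : L ≤ LX := by
    rw [hL, hLX]
    apply Real.log_le_log hXpos
    exact_mod_cast (by omega : X ≤ b ^ K)
  have hLX2 : LX ≤ 2 * L := by
    have e1 : LX ≤ Real.log (Bc + 1) + L := by
      rw [hL, hLX, ← Real.log_mul (by positivity) hXpos.ne']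
      apply Real.log_le_log
      · exact_mod_cast (by omega : 0 < b ^ K)
      · have : ((b ^ K : ℕ) : ℝ) ≤ Bc * X := by exact_mod_cast hX1
        linarith
    linarith
  have hkL : (K : ℝ) / 4 ≤ L := by linarith
  have hfl : ∀ E : ℕ, L ^ E ≤ (⌈L ^ E⌉₊ : ℝ) ∧ (⌈L ^ E⌉₊ : ℝ) ≤ L ^ (E + 1) := by
    intro E
    refine ⟨Nat.le_ceil _, ?_⟩
    have h5 : (⌈L ^ E⌉₊ : ℝ) < L ^ E + 1 := Nat.ceil_lt_add_one (by positivity)
    have h6 : 1 ≤ L ^ E := one_le_pow₀ hL1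
    rw [pow_succ]
    nlinarith
  have hfr : ∀ E : ℕ, ((⌊L ^ E⌋₊ + 1 : ℕ) : ℝ) ≤ L ^ (E + 1) := by
    intro E
    have h5 : (⌊L ^ E⌋₊ : ℝ) ≤ L ^ E := Nat.floor_le (by positivity)
    have h6 : 1 ≤ L ^ E := one_le_pow₀ hL1
    push_cast
    rw [pow_succ]
    nlinarith
  obtain ⟨z, hz⟩ : ∃ z, z = ⌈L ^ E1⌉₊ := ⟨_, rfl⟩
  obtain ⟨T, hT⟩ : ∃ T, T = ⌈L ^ (C + 4)⌉₊ := ⟨_, rfl⟩
  have hz1 : L ^ E1 ≤ z := by rw [hz]; exact (hfl E1).1
  have hz2 : (z : ℝ) ≤ L ^ (E1 + 1) := by rw [hz]; exact (hfl E1).2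
  have hT1 : L ^ (C + 4) ≤ T := by rw [hT]; exact (hfl (C + 4)).1
  have hT2 : (T : ℝ) ≤ L ^ (C + 5) := by rw [hT]; exact (hfl (C + 4)).2
  have hz3 : LX ^ B1 ≤ z := by
    refine le_trans ?_ hz1
    calc LX ^ B1 ≤ (2 * L) ^ B1 := pow_le_pow_left₀ (by linarith) hLX2 _
      _ = 2 ^ B1 * L ^ B1 := mul_pow _ _ _
      _ ≤ L * L ^ B1 := mul_le_mul_of_nonneg_right (by linarith) (by positivity)
      _ = L ^ (B1 + 1) := by ring
      _ ≤ L ^ E1 := pow_le_pow_right₀ hL1 (by omega)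
  have hz4 : (z : ℝ) ≤ LX ^ (E1 + 1) := hz2.trans (pow_le_pow_left₀ hL0.le hLLX _)
  obtain ⟨I, hI⟩ : ∃ I, I = range (T + 1) ×ˢ range (⌊L ^ A⌋₊ + 1) ×ˢ range (⌊L ^ B⌋₊ + 1) ×ˢ range (⌊L ^ B⌋₊ + 1) := ⟨_, rfl⟩
  have hIcard : (I.card : ℝ) ≤ L ^ (A + 2 * B + C + 9) := by
    rw [hI, card_product, card_product, card_product, card_range, card_range, card_range]
    push_cast
    have f1 : (T : ℝ) + 1 ≤ L ^ (C + 6) := by
      have h6 : 1 ≤ L ^ (C + 5) := one_le_pow₀ hL1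
      rw [show C + 6 = (C + 5) + 1 by ring, pow_succ L (C + 5)]
      nlinarith
    have f2 := hfr A
    have f3 := hfr B
    push_cast at f2 f3
    have g1 : (0 : ℝ) ≤ T := Nat.cast_nonneg _
    have g2 : (0 : ℝ) ≤ (⌊L ^ A⌋₊ : ℝ) := Nat.cast_nonneg _
    have g3 : (0 : ℝ) ≤ (⌊L ^ B⌋₊ : ℝ) := Nat.cast_nonneg _
    calc ((T : ℝ) + 1) * (((⌊L ^ A⌋₊ : ℝ) + 1) * (((⌊L ^ B⌋₊ : ℝ) + 1) * ((⌊L ^ B⌋₊ : ℝ) + 1)))
        ≤ L ^ (C + 6) * (L ^ (A + 1) * (L ^ (B + 1) * L ^ (B + 1))) := by gcongr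
      _ = L ^ (A + 2 * B + C + 9) := by rw [← pow_add, ← pow_add, ← pow_add]; congr 1; ring
  obtain ⟨s, hs⟩ : ∃ s, s = X / T + 1 := ⟨_, rfl⟩
  have hLA : L ^ A ≤ X := by
    have hs0 : 0 < √(X : ℝ) := Real.sqrt_pos.2 hXpos
    have hs1 : 1 ≤ √(X : ℝ) := (one_le_pow₀ hL1).trans a3
    calc L ^ A ≤ √(X : ℝ) := a3
      _ ≤ √(X : ℝ) * √(X : ℝ) := by nlinarith
      _ = X := Real.mul_self_sqrt hXpos.le
  have hbz : ((b ^ K : ℕ) : ℤ) = (b : ℤ) ^ K := by push_cast; ring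
  have hX2z : 4 * (X : ℤ) ≤ (b : ℤ) ^ K := by rw [← hbz]; exact_mod_cast hX2
  have hXz : (0 : ℤ) < X := by exact_mod_cast (by omega : 0 < X)
  -- the bound of one correlation
  have hone : (L * (((b ^ K : ℕ) : ℝ) / (K : ℝ) ^ (U' + 2))) ≤ X / L ^ U' := by
    have e1 : ((b ^ K : ℕ) : ℝ) ≤ Bc * X := by exact_mod_cast hX1
    have e2 : 1 / (K : ℝ) ^ (U' + 2) ≤ (b : ℝ) ^ (U' + 2) / L ^ (U' + 2) := by
      rw [div_le_div_iff₀ (by positivity) (by positivity), one_mul, ← mul_pow]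
      exact pow_le_pow_left₀ hL0.le (hLLX.trans g2) _
    calc L * (((b ^ K : ℕ) : ℝ) / (K : ℝ) ^ (U' + 2)) = L * (((b ^ K : ℕ) : ℝ) * (1 / (K : ℝ) ^ (U' + 2))) := by ring
      _ ≤ L * (Bc * X * ((b : ℝ) ^ (U' + 2) / L ^ (U' + 2))) := by gcongr
      _ = (Bc * (b : ℝ) ^ (U' + 2)) * (X / L ^ U') * (1 / L) := by
          have e3 : L ^ (U' + 2) = L ^ U' * L ^ 2 := pow_add _ _ _
          rw [e3]
          field_simp
      _ ≤ L * (X / L ^ U') * (1 / L) := by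
          apply mul_le_mul_of_nonneg_right _ (by positivity)
          apply mul_le_mul_of_nonneg_right _ (by positivity)
          linarith
      _ = X / L ^ U' := by field_simp
  have key := markov Ω I (fun d => p d) hlaw.nonneg
    (fun d i => |∑ n ∈ Icc 1 (min (i.1 * s) X), (if n ≡ i.2.2.2 [MOD i.2.2.1] then ArithmeticFunction.vonMangoldt n else 0) *
        (lamI ((n : ℤ) + (Y d + (i.2.1 : ℤ))) - lamzI z ((n : ℤ) + (Y d + (i.2.1 : ℤ))))|)
    (fun _ _ => abs_nonneg _) bad (X / L ^ (C + 3)) (X / L ^ U') (by positivity) (by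
      intro d hd hb2
      by_contra hcon
      push Not at hcon
      obtain ⟨q1, q2, q3⟩ := hbad d hd hb2
      apply q3
      have hnat : (((Y d).toNat : ℕ) : ℤ) = Y d := Int.toNat_of_nonneg q1
      refine hdet X (by omega) (Y d).toNat ?_ z (by rw [← hL]; exact hz1) (by rw [← hL]; exact hz2) T (by rw [← hL]; exact hT1)
        (by rw [← hL]; exact hT2) ?_
      · refine le_trans (le_of_eq ?_) q2
        have : (((Y d).toNat : ℕ) : ℝ) = (((((Y d).toNat : ℕ) : ℤ)) : ℝ) := by push_cast; ring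
        rw [this, hnat]
      · intro i hi δ q a hδ hq1 hq2 haq
        rw [← hL] at hδ hq2 ⊢
        have hmem : (i, δ, q, a) ∈ I := by
          rw [hI, mem_product, mem_product, mem_product]
          have c1 : δ ≤ ⌊L ^ A⌋₊ := Nat.le_floor hδ
          have c2 : q ≤ ⌊L ^ B⌋₊ := Nat.le_floor hq2
          refine ⟨hi, mem_range.2 (by simp only; omega), mem_range.2 (by simp only; omega), mem_range.2 (by simp only; omega)⟩
        have h5 := (hcon (i, δ, q, a) hmem).le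
        simp only at h5
        rw [← hs]
        have e1 : (((Y d).toNat + δ : ℕ) : ℤ) = Y d + (δ : ℤ) := by push_cast; rw [hnat]
        rw [e1]
        exact h5)
    (by
      intro i hi
      rw [hI, mem_product, mem_product, mem_product] at hi
      have hδ : (i.2.1 : ℝ) ≤ L ^ A := by
        have h5 : i.2.1 ≤ ⌊L ^ A⌋₊ := by
          have := mem_range.1 hi.2.1
          omega
        exact (Nat.le_floor_iff (by positivity)).1 h5
      have hδX : (i.2.1 : ℤ) ≤ X := by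
        have : (i.2.1 : ℝ) ≤ X := hδ.trans hLA
        exact_mod_cast this
      have hmin : ((min (i.1 * s) X : ℕ) : ℤ) ≤ X := by exact_mod_cast min_le_right _ _
      refine (h1 K (by omega) z (by rw [← hLX]; exact hz3) (by rw [← hLX]; exact hz4) ι Ω p (fun ω => Y ω + (i.2.1 : ℤ)) (hlaw.add _)
        (min (i.1 * s) X) (by linarith) ?_ L hL0
        (fun n => if n ≡ i.2.2.2 [MOD i.2.2.1] then ArithmeticFunction.vonMangoldt n else 0) ?_).trans hone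
      · intro ω hω
        have := abs_le.1 (hYX ω hω)
        have hδ0 : (0 : ℤ) ≤ (i.2.1 : ℤ) := Int.natCast_nonneg _
        constructor <;> linarith [this.1, this.2]
      · intro n hn
        rw [mem_Icc] at hn
        split_ifs
        · rw [abs_of_nonneg ArithmeticFunction.vonMangoldt_nonneg, hL]
          refine ArithmeticFunction.vonMangoldt_le_log.trans ?_
          apply Real.log_le_log (by exact_mod_cast hn.1)
          exact_mod_cast hn.2.trans (min_le_right _ _)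
        · rw [abs_zero]; exact hL0.le)
  refine key.trans ?_
  have hfin : (I.card : ℝ) * (X / L ^ U') / (X / L ^ (C + 3)) ≤ 1 / L ^ (U + 1) := by
    calc (I.card : ℝ) * (X / L ^ U') / (X / L ^ (C + 3)) ≤ L ^ (A + 2 * B + C + 9) * (X / L ^ U') / (X / L ^ (C + 3)) := by
          gcongr
      _ = 1 / L ^ (U + 1) := by
          have e : L ^ U' = L ^ (A + 2 * B + C + 9) * L ^ (C + 3) * L ^ (U + 1) := by rw [hU', ← pow_add, ← pow_add]; congr 1
          rw [e]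
          field_simp
  refine hfin.trans ?_
  apply one_div_le_one_div_of_le (by positivity)
  calc (K : ℝ) ^ U = 4 ^ U * (K / 4) ^ U := by rw [div_pow]; field_simp
    _ ≤ L * L ^ U := by
        apply mul_le_mul _ (pow_le_pow_left₀ (by positivity) hkL _) (by positivity) hL0.le
        have : (4 : ℝ) ^ U ≤ 4 ^ (U + 1) := pow_le_pow_right₀ (by norm_num) (by omega)
        linarith
    _ = L ^ (U + 1) := by rw [pow_succ]; ring

end Pool.Agent.Y885
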