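import Pool.Agent.Y885.PD1
import Pool.Agent.Y885.LW2
import Pool.Agent.Y885.LA2

set_option autoImplicit false

/-! Prime pairs in progressions: random sums as differences; differences up to few elements of a set. -/

namespace Pool.Agent.Y885
open Finset
open Pool.Agent.H807R2.Dav
open Pool.Agent.H373R2.T7
open Pool.Agent.W93.DG
open Pool.Agent.W93.PP (GoodD)

open Classical in
/-- random sums as differences -/
theorem rs_goodD (b B D A Bq C U W : ℕ) (hb : 2 ≤ b) (hB : 1 ≤ B) (η δ : ℝ) (hη : 0 < η) (hδ : 0 < δ) :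
    ∃ k₀ : ℕ, ∀ k : ℕ, k₀ ≤ k → ∀ (J : Finset ℕ) (s : ℕ → Finset ℤ) (p : ℕ → ℤ → ℝ) (c : ℤ),
    Rich δ D k J →
    (∀ j < k, (∀ x ∈ s j, 0 ≤ p j x ∧ |x| ≤ (B : ℤ) * (b : ℤ) ^ j) ∧ ∑ x ∈ s j, p j x = 1) →
    (∀ j ∈ J, ∀ y : ℤ, ∑ x ∈ (s j).filter (fun x => y ≤ x ∧ (B : ℤ) * (x - y) ≤ (b : ℤ) ^ j), p j x ≤ 1 - η) →
    |c| ≤ (B : ℤ) * (b : ℤ) ^ k →
    ∀ X : ℕ, (b : ℝ) ^ k ≤ X → (b : ℝ) ^ k * Real.log X ^ (C + 6) ≤ X → (X : ℝ) ≤ b ^ k * Real.log X ^ W →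
    ∀ bad : (Fin k → ℤ) → Prop, ∀ _hdec : DecidablePred bad,
    (∀ ω, bad ω → 0 ≤ c + ∑ j : Fin k, ω j ∧ ¬ GoodD A Bq C X (c + ∑ j : Fin k, ω j).toNat) →
    ∑ ω ∈ Fintype.piFinset (fun j : Fin k => s j), (if bad ω then ∏ j : Fin k, p j (ω j) else 0) ≤ 1 / (k : ℝ) ^ U := by
  obtain ⟨E, hE, hlaw⟩ := rand_law' b hb B D hB η δ hη hδ
  obtain ⟨c₁, k₁, h1⟩ := hlaw (5 + 4 * b * W + 2 * W) (2 * (A + 2 * Bq + C + 9 + (C + 3) + U + 1 + 2) + 6)
  obtain ⟨k₂, h2⟩ := tl_goodD b E A Bq C U (4 * b) hb hE c₁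
  obtain ⟨n3, h3⟩ := ev_log' W 1
  obtain ⟨n4, h4⟩ := ev_L' (2 * B + 3)
  refine ⟨k₁ + k₂ + n3 + n4 + 3, fun k hk J s p c hR hps hspread hc X hX0 hX1 hX2 bad hdec hbad => ?_⟩
  have hbn : 0 < b := by omega
  have hbr : (2 : ℝ) ≤ b := by exact_mod_cast hb
  have hk3 : (3 : ℝ) ≤ k := by exact_mod_cast (by omega : 3 ≤ k)
  have hk0 : (0 : ℝ) < k := by linarith
  have hkb : k < b ^ k := Nat.lt_pow_self (by omega)
  have hX0' : b ^ k ≤ X := by exact_mod_cast hX0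
  have hXpos : (0 : ℝ) < X := by exact_mod_cast (by omega : 0 < X)
  have a3 := h3 X (by omega)
  have a4 := h4 X (by omega)
  rw [one_mul] at a3
  obtain ⟨L, hL⟩ : ∃ L, L = Real.log (X : ℝ) := ⟨_, rfl⟩
  rw [← hL] at a3 a4 hX1 hX2
  have hB0 : (0 : ℝ) ≤ B := Nat.cast_nonneg _
  have hL3 : 3 ≤ L := by linarith
  have hL0 : 0 < L := by linarith
  have hlogk : 1 ≤ Real.log k := by
    rw [Real.le_log_iff_exp_le hk0]
    have := Real.exp_one_lt_d9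
    linarith
  -- the size of `X`
  have hLk : L ≤ 2 * b * k := by
    have e1 : √(X : ℝ) ≤ (b : ℝ) ^ k := by
      have e2 : √(X : ℝ) * √(X : ℝ) = X := Real.mul_self_sqrt hXpos.le
      have e3 : 0 < √(X : ℝ) := Real.sqrt_pos.2 hXpos
      have e4 : √(X : ℝ) * √(X : ℝ) ≤ (b : ℝ) ^ k * √(X : ℝ) := by
        rw [e2]
        exact hX2.trans (mul_le_mul_of_nonneg_left a3 (by positivity))
      exact le_of_mul_le_mul_right e4 e3
    have e2 : (X : ℝ) ≤ ((b : ℝ) ^ k) ^ 2 := by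
      rw [Real.sqrt_le_left (by positivity)] at e1
      exact e1
    have e3 : L ≤ 2 * (k * Real.log b) := by
      rw [hL]
      refine (Real.log_le_log hXpos e2).trans (le_of_eq ?_)
      rw [Real.log_pow, Real.log_pow]
      push_cast
      ring
    have e4 : Real.log b ≤ b := (Real.log_le_sub_one_of_pos (by linarith)).trans (by linarith)
    nlinarith
  -- the level
  obtain ⟨K, hK⟩ : ∃ K, K = Nat.clog b (4 * X) := ⟨_, rfl⟩
  have hK1 : 4 * X ≤ b ^ K := by rw [hK]; exact Nat.le_pow_clog (by omega) _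
  have hX1' : 1 < 4 * X := by omega
  have hKpos : 0 < K := by rw [hK]; exact Nat.clog_pos (by omega) hX1'
  have hK2 : b ^ (K - 1) < 4 * X := by
    rw [hK]; exact Nat.pow_pred_clog_lt_self (by omega) hX1'
  have hK3 : b ^ K ≤ 4 * b * X := by
    have e1 : b ^ K = b * b ^ (K - 1) := by rw [← pow_succ']; congr 1; omega
    rw [e1]
    calc b * b ^ (K - 1) ≤ b * (4 * X) := Nat.mul_le_mul_left _ hK2.le
      _ = _ := by ring
  have hkK : k ≤ K := by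
    by_contra hcon
    have : b ^ K ≤ b ^ k := Nat.pow_le_pow_right hbn (by omega)
    omega
  obtain ⟨e, he⟩ := Nat.exists_eq_add_of_le hkK
  have he2 : (e : ℝ) ≤ ((5 + 4 * b * W + 2 * W : ℕ) : ℝ) * Real.log k := by
    have hW0 : (0 : ℝ) ≤ W := Nat.cast_nonneg _
    rcases Nat.eq_zero_or_pos e with h | h
    · rw [h, Nat.cast_zero]
      positivity
    have e1 : (b : ℝ) ^ k * (b : ℝ) ^ (e - 1) ≤ 4 * ((b : ℝ) ^ k * L ^ W) := by
      have e2 : ((b ^ (K - 1) : ℕ) : ℝ) ≤ 4 * X := by exact_mod_cast hK2.le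
      have e3 : K - 1 = k + (e - 1) := by omega
      rw [e3] at e2
      push_cast at e2
      rw [pow_add] at e2
      linarith
    have e2 : (b : ℝ) ^ (e - 1) ≤ 4 * (2 * b * k) ^ W := by
      have e3 : (b : ℝ) ^ k * (b : ℝ) ^ (e - 1) ≤ (b : ℝ) ^ k * (4 * L ^ W) := by linarith
      refine (le_of_mul_le_mul_left e3 (by positivity)).trans ?_
      gcongr
    have e3 : (2 : ℝ) ^ (e - 1) ≤ 4 * (2 * b * k) ^ W := (pow_le_pow_left₀ (by norm_num) hbr _).trans e2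
    have e4 := Real.log_le_log (by positivity) e3
    rw [Real.log_pow, Real.log_mul (by norm_num) (by positivity), Real.log_pow, Real.log_mul (by positivity) hk0.ne'] at e4
    have e5 : Real.log 4 ≤ 2 * Real.log 2 := by
      rw [show (4 : ℝ) = 2 ^ 2 by norm_num, Real.log_pow]; push_cast; linarith
    have e6 : Real.log (2 * b) ≤ 2 * b := (Real.log_le_sub_one_of_pos (by linarith)).trans (by linarith)
    have e7 := Real.log_two_gt_d9
    have e8 : ((e - 1 : ℕ) : ℝ) = e - 1 := by rw [Nat.cast_sub h]; push_cast; ring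
    rw [e8] at e4
    have e9 := Real.log_two_lt_d9
    have e10 : (W : ℝ) * (Real.log (2 * b) + Real.log k) ≤ W * (2 * b + Real.log k) := mul_le_mul_of_nonneg_left (by linarith) hW0
    have e12 : ((e : ℝ) - 1) * (1 / 2) ≤ ((e : ℝ) - 1) * Real.log 2 := by
      have : (1 : ℝ) ≤ e := by exact_mod_cast h
      apply mul_le_mul_of_nonneg_left (by linarith) (by linarith)
    have e13 : (e : ℝ) ≤ 1 + 4 + 4 * b * W + 2 * W * Real.log k := by nlinarith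
    push_cast
    have e11 : (0 : ℝ) ≤ 4 * b * W := by positivity
    nlinarith
  subst he
  have hlawK := h1 k (by omega) e he2 J s p c hR hps (fun j hj y => by rw [← sum_filter]; exact hspread j hj y)
  have hYz : ∀ ω ∈ Fintype.piFinset (fun j : Fin k => s j), |c + ∑ j : Fin k, ω j| ≤ 2 * (B : ℤ) * (b : ℤ) ^ k := by
    intro ω hω
    rw [Fintype.mem_piFinset] at hω
    have g1 : |∑ j : Fin k, ω j| ≤ ∑ j : Fin k, (B : ℤ) * (b : ℤ) ^ (j : ℕ) :=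
      (abs_sum_le_sum_abs _ _).trans (sum_le_sum fun j _ => ((hps j j.2).1 _ (hω j)).2)
    rw [← mul_sum] at g1
    have g2 := geo_le b hb k
    have g3 : (B : ℤ) * ∑ j : Fin k, (b : ℤ) ^ (j : ℕ) ≤ B * (b : ℤ) ^ k := mul_le_mul_of_nonneg_left g2 (by positivity)
    have g4 := abs_add_le c (∑ j : Fin k, ω j)
    linarith
  have hYr : ∀ ω ∈ Fintype.piFinset (fun j : Fin k => s j), |((c + ∑ j : Fin k, ω j : ℤ) : ℝ)| ≤ X / L ^ (C + 5) := by
    intro ω hω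
    have g1 := hYz ω hω
    have g2 : |((c + ∑ j : Fin k, ω j : ℤ) : ℝ)| ≤ 2 * B * (b : ℝ) ^ k := by exact_mod_cast g1
    refine g2.trans ?_
    rw [le_div_iff₀ (by positivity)]
    calc 2 * B * (b : ℝ) ^ k * L ^ (C + 5) ≤ L * (b : ℝ) ^ k * L ^ (C + 5) := by
          apply mul_le_mul_of_nonneg_right _ (by positivity)
          apply mul_le_mul_of_nonneg_right _ (by positivity)
          linarith
      _ = (b : ℝ) ^ k * L ^ (C + 6) := by ring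
      _ ≤ X := hX1
  have hYX : ∀ ω ∈ Fintype.piFinset (fun j : Fin k => s j), |c + ∑ j : Fin k, ω j| ≤ (X : ℤ) := by
    intro ω hω
    have g1 : |((c + ∑ j : Fin k, ω j : ℤ) : ℝ)| ≤ X :=
      (hYr ω hω).trans (div_le_self hXpos.le (one_le_pow₀ (by linarith)))
    exact_mod_cast g1
  have hfin := h2 (k + e) (by omega) _ _ _ _ hlawK X hK3 hK1 hYX bad hdec (by
    intro ω hω hB
    obtain ⟨q1, q2⟩ := hbad ω hB
    refine ⟨q1, ?_, q2⟩
    rw [← hL]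
    exact (le_abs_self _).trans (hYr ω hω))
  refine hfin.trans ?_
  apply one_div_le_one_div_of_le (by positivity)
  exact pow_le_pow_left₀ hk0.le (by exact_mod_cast hkK) U

/-- differences up to few elements of a set which meets every `[x, l x]`: addition and subtraction -/
theorem las_goodD (l A Bq C : ℕ) (hl : 2 ≤ l) : ∃ Cst : ℝ, ∀ H : ℕ, ∃ X₀ : ℕ, ∀ T : Set ℕ,
    (∀ x : ℕ, 1 ≤ x → ∃ a ∈ T, x ≤ a ∧ a ≤ l * x) → ∀ X : ℕ, X₀ ≤ X → ∀ h : ℕ, (h : ℝ) ≤ X / Real.log X ^ (C + 6) →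
    (∃ S : Finset ℕ, (∀ a ∈ S, a ∈ T ∧ Real.log X ^ H ≤ a ∧ (a : ℝ) ≤ X / Real.log X ^ H) ∧
      (S.card : ℝ) ≤ Cst * Real.log (Real.log X) ^ 2 ∧ 2 ∣ ∑ a ∈ S, a ∧ GoodD A Bq C X (h + ∑ a ∈ S, a)) ∧
    (∀ W : ℕ, W + 2 ≤ H → (X : ℝ) / Real.log X ^ W ≤ h →
      ∃ S : Finset ℕ, (∀ a ∈ S, a ∈ T ∧ Real.log X ^ H ≤ a ∧ (a : ℝ) ≤ X / Real.log X ^ H) ∧
      (S.card : ℝ) ≤ Cst * Real.log (Real.log X) ^ 2 ∧ 2 ∣ ∑ a ∈ S, a ∧ 
      ∃ m : ℕ, 0 < m ∧ m + ∑ a ∈ S, a = h ∧ GoodD A Bq C X m) := by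
  classical
  obtain ⟨b, hb, Cst, hC⟩ := las_lawP l 2 hl (by norm_num) (2 * (A + 2 * Bq + C + 9 + (C + 3) + 1 + 1 + 2) + 6)
  refine ⟨Cst, fun H => ?_⟩
  obtain ⟨H', hH'⟩ : ∃ H', H' = H + C + 9 := ⟨_, rfl⟩
  obtain ⟨c, N₀, h0⟩ := hC H' 2
  obtain ⟨K₀, h1⟩ := tl_goodD b 20 A Bq C 1 (b ^ 3) hb (by norm_num) c
  obtain ⟨n2, h2⟩ := ev_L' (4 * |Cst| + 3)
  refine ⟨N₀ + n2 + b ^ (K₀ + 2), fun T hT X hX h hh => ?_⟩
  have hbn : 0 < b := by omega
  have hX0 : 0 < X := by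
    have : 0 < b ^ (K₀ + 2) := Nat.pow_pos hbn
    omega
  have hXr : (0 : ℝ) < X := by exact_mod_cast hX0
  obtain ⟨L, hL⟩ : ∃ L, L = Real.log (X : ℝ) := ⟨_, rfl⟩
  have a2 := h2 X (by omega)
  rw [← hL] at a2 hh
  have hC0 := abs_nonneg Cst
  have hL3 : 3 ≤ L := by linarith
  have hL1 : 1 ≤ L := by linarith
  have hL0 : 0 < L := by linarith
  obtain ⟨n, Ω, pr, Sf, g1, g2, g3⟩ := h0 T hT X (by omega)
  obtain ⟨K, hK⟩ : ∃ K, K = Nat.log b X + 1 + 2 := ⟨_, rfl⟩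
  rw [← hK] at g2
  have hKK : K₀ + 2 ≤ K := by
    have : K₀ + 2 ≤ Nat.log b X := Nat.le_log_of_pow_le (by omega) (by omega)
    omega
  have hKlow : b ^ K ≤ b ^ 3 * X := by
    have e1 : b ^ Nat.log b X ≤ X := Nat.pow_log_le_self b (by omega)
    calc b ^ K = b ^ 3 * b ^ Nat.log b X := by rw [hK, ← pow_add]; congr 1; ring
      _ ≤ b ^ 3 * X := Nat.mul_le_mul_left _ e1
  have hKup : 4 * X ≤ b ^ K := by
    have e1 : X < b ^ (Nat.log b X + 1) := Nat.lt_pow_succ_log_self (by omega) _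
    have e2 : 4 ≤ b ^ 2 := by nlinarith
    calc 4 * X ≤ b ^ 2 * b ^ (Nat.log b X + 1) := Nat.mul_le_mul e2 e1.le
      _ = b ^ K := by rw [hK, ← pow_add]; congr 1; ring
  rw [← hL] at g3 ⊢
  -- the sums are small
  have hLL : Real.log L ^ 2 ≤ 4 * L := by
    have e1 := Real.log_le_sub_one_of_pos (show 0 < √L by positivity)
    rw [Real.log_sqrt hL0.le] at e1
    have e2 : 0 ≤ Real.log L := Real.log_nonneg hL1
    have e3 : √L * √L = L := Real.mul_self_sqrt hL0.le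
    have e4 : 0 < √L := Real.sqrt_pos.2 hL0
    nlinarith
  have hsmall : ∀ ω ∈ Ω, ((∑ a ∈ Sf ω, a : ℕ) : ℝ) ≤ X / L ^ (H + C + 7) := by
    intro ω hω
    obtain ⟨b1, b2, b3⟩ := g3 ω hω
    push_cast
    have e1 : ∑ a ∈ Sf ω, (a : ℝ) ≤ (Sf ω).card * (X / L ^ H') := by
      refine (sum_le_sum fun a ha => (b1 a ha).2.2).trans (le_of_eq ?_)
      rw [sum_const, nsmul_eq_mul]
    refine e1.trans ?_
    have e2 : ((Sf ω).card : ℝ) ≤ L ^ 2 := by
      refine b2.trans ?_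
      calc Cst * Real.log L ^ 2 ≤ |Cst| * (4 * L) := mul_le_mul (le_abs_self _) hLL (by positivity) hC0
        _ = (4 * |Cst|) * L := by ring
        _ ≤ L * L := mul_le_mul_of_nonneg_right (by linarith) hL0.le
        _ = L ^ 2 := by ring
    calc ((Sf ω).card : ℝ) * (X / L ^ H') ≤ L ^ 2 * (X / L ^ H') := mul_le_mul_of_nonneg_right e2 (by positivity)
      _ = X / L ^ (H + C + 7) := by
          have : L ^ H' = L ^ 2 * L ^ (H + C + 7) := by rw [hH', ← pow_add]; congr 1; ring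
          rw [this]
          field_simp
  -- the choice
  have hchoice : ∀ Y : (Fin n → ℕ) → ℤ, TLaw b 20 c (2 * (A + 2 * Bq + C + 9 + (C + 3) + 1 + 1 + 2) + 6) K Ω (fun _ => pr) Y →
      (∀ ω ∈ Ω, 0 ≤ Y ω ∧ (Y ω : ℝ) ≤ X / L ^ (C + 5)) → ∃ ω ∈ Ω, GoodD A Bq C X (Y ω).toNat := by
    intro Y hY hval
    by_contra hcon
    push Not at hcon
    have e1 := h1 K (by omega) _ Ω (fun _ => pr) Y hY X hKlow hKup (by
      intro ω hω
      obtain ⟨c1, c2⟩ := hval ω hω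
      rw [abs_of_nonneg c1]
      have : (Y ω : ℝ) ≤ X := c2.trans (div_le_self hXr.le (one_le_pow₀ hL1))
      exact_mod_cast this) (fun ω => ω ∈ Ω) (Classical.decPred _) (by
      intro ω hω _
      rw [← hL]
      exact ⟨(hval ω hω).1, (hval ω hω).2, hcon ω hω⟩)
    have e2 : (1 : ℝ) ≤ 1 / (K : ℝ) ^ 1 := by
      refine le_trans (le_of_eq ?_) e1
      rw [← g1]
      apply sum_congr rfl
      intro ω hω
      rw [if_pos hω]
    have hKr : (2 : ℝ) ≤ K := by exact_mod_cast (by omega : 2 ≤ K)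
    rw [pow_one, le_div_iff₀ (by linarith)] at e2
    linarith
  have hwin : ∀ ω ∈ Ω, (∀ a ∈ Sf ω, a ∈ T ∧ L ^ H ≤ a ∧ (a : ℝ) ≤ X / L ^ H) := by
    intro ω hω a ha
    obtain ⟨c1, c2, c3⟩ := (g3 ω hω).1 a ha
    refine ⟨c1, (pow_le_pow_right₀ hL1 (by omega)).trans c2, c3.trans ?_⟩
    apply div_le_div_of_nonneg_left hXr.le (by positivity)
    exact pow_le_pow_right₀ hL1 (by omega)
  have h5 : X / L ^ (C + 6) + X / L ^ (C + 6) ≤ X / L ^ (C + 5) := by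
    rw [← two_mul, pow_succ L (C + 5)]
    have e1 : 2 * ((X : ℝ) / (L ^ (C + 5) * L)) = X / L ^ (C + 5) * (2 / L) := by field_simp
    rw [e1]
    apply mul_le_of_le_one_right (by positivity)
    rw [div_le_one hL0]
    linarith
  constructor
  · obtain ⟨ω, hω, hgood⟩ := hchoice (fun ω => ((∑ a ∈ Sf ω, a : ℕ) : ℤ) + (h : ℤ)) (g2.add _) (by
      intro ω hω
      refine ⟨by positivity, ?_⟩
      push_cast
      have e1 := hsmall ω hω
      push_cast at e1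
      have e2 : (X : ℝ) / L ^ (H + C + 7) ≤ X / L ^ (C + 6) := by
        apply div_le_div_of_nonneg_left hXr.le (by positivity)
        exact pow_le_pow_right₀ hL1 (by omega)
      linarith)
    refine ⟨Sf ω, hwin ω hω, (g3 ω hω).2.1, (g3 ω hω).2.2.2, ?_⟩
    have e1 : (((∑ a ∈ Sf ω, a : ℕ) : ℤ) + (h : ℤ)).toNat = h + ∑ a ∈ Sf ω, a := by omega
    rw [e1] at hgood
    exact hgood
  · intro W hW hhW
    have hsm2 : ∀ ω ∈ Ω, ∑ a ∈ Sf ω, a < h := by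
      intro ω hω
      have e1 := hsmall ω hω
      have e2 : (X : ℝ) / L ^ (H + C + 7) < X / L ^ W := by
        apply div_lt_div_of_pos_left hXr (by positivity)
        exact pow_lt_pow_right₀ (by linarith) (by omega)
      have e3 : ((∑ a ∈ Sf ω, a : ℕ) : ℝ) < h := by linarith
      exact_mod_cast e3
    obtain ⟨ω, hω, hgood⟩ := hchoice (fun ω => -((∑ a ∈ Sf ω, a : ℕ) : ℤ) + (h : ℤ)) (g2.neg.add _) (by
      intro ω hω
      have e1 := hsm2 ω hω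
      refine ⟨by omega, ?_⟩
      push_cast
      have e2 : (0 : ℝ) ≤ ∑ a ∈ Sf ω, (a : ℝ) := sum_nonneg fun _ _ => Nat.cast_nonneg _
      have e3 : (0 : ℝ) ≤ (X : ℝ) / L ^ (C + 6) := by positivity
      linarith)
    have e1 := hsm2 ω hω
    refine ⟨Sf ω, hwin ω hω, (g3 ω hω).2.1, (g3 ω hω).2.2.2, h - ∑ a ∈ Sf ω, a, by omega, by omega, ?_⟩
    have e2 : (-((∑ a ∈ Sf ω, a : ℕ) : ℤ) + (h : ℤ)).toNat = h - ∑ a ∈ Sf ω, a := by omega
    rw [e2] at hgood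
    exact hgood

end Pool.Agent.Y885
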