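import Pool.Agent.Y885.PD2

set_option autoImplicit false

/-! Even numbers as differences of two primes, up to few elements of a set. -/

namespace Pool.Agent.Y885
open Finset
open Pool.Agent.H373R2.T7
open Pool.Agent.W93.PP (GoodD pc Cnt Li2 sum_int)
open Pool.Agent.H560R3.GB (sing)

lemma cnt_one (m : ℕ) : Cnt 1 m = 1 := by
  unfold Cnt
  rw [filter_true_of_mem]
  · simp
  · intro a _
    exact ⟨Nat.coprime_one_right _, Nat.coprime_one_right _⟩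

/-- good shifts are differences of two primes -/
lemma pair_exists (A B C : ℕ) (hC : 3 ≤ C) : ∃ X₀ : ℕ, ∀ X : ℕ, X₀ ≤ X → ∀ m : ℕ, 2 ∣ m → m ≠ 0 → GoodD A B C X m →
    ∃ p q : ℕ, p.Prime ∧ q.Prime ∧ q ≤ X ∧ p + m = q := by
  obtain ⟨n1, h1⟩ := ev_L' 10
  obtain ⟨n2, h2⟩ := ev_log' 2 1
  refine ⟨n1 + n2 + 100, fun X hX m hm2 hm0 hgood => ?_⟩
  have a1 := h1 X (by omega)
  have a2 := h2 X (by omega)
  rw [one_mul] at a2
  have hX100 : (100 : ℝ) ≤ X := by exact_mod_cast (by omega : 100 ≤ X)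
  have hXpos : (0 : ℝ) < X := by linarith
  obtain ⟨L, hL⟩ : ∃ L, L = Real.log (X : ℝ) := ⟨_, rfl⟩
  have hL0 : 0 < L := by rw [hL]; linarith
  have g := hgood 0 1 0 (by push_cast; positivity) le_rfl (by push_cast; exact one_le_pow₀ (by linarith)) (Nat.coprime_one_right _)
    (Nat.coprime_one_right _) (by rw [add_zero]; exact hm2) (by rw [add_zero]; exact hm0) X (by linarith) le_rfl
  rw [add_zero, cnt_one, Nat.cast_one, div_one, ← hL] at g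
  rw [← hL] at a1 a2
  have hs := Pool.Agent.W93.GB.one_le_sing m
  have hLi : ((X : ℝ) - 1) / L ^ 2 - 3 ≤ Li2 X := by
    have e1 := sum_int X (by linarith)
    rw [Nat.floor_natCast] at e1
    have e2 : ((X : ℝ) - 1) / L ^ 2 ≤ ∑ n ∈ Icc 2 X, 1 / Real.log (n : ℝ) ^ 2 := by
      have e3 : ∀ n ∈ Icc 2 X, 1 / L ^ 2 ≤ 1 / Real.log (n : ℝ) ^ 2 := by
        intro n hn
        rw [mem_Icc] at hn
        have hn2 : (2 : ℝ) ≤ n := by exact_mod_cast hn.1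
        have hlog : 0 < Real.log (n : ℝ) := Real.log_pos (by linarith)
        apply one_div_le_one_div_of_le (by positivity)
        apply pow_le_pow_left₀ hlog.le
        rw [hL]
        apply Real.log_le_log (by linarith)
        exact_mod_cast hn.2
      refine le_trans (le_of_eq ?_) (sum_le_sum e3)
      rw [sum_const, Nat.card_Icc, nsmul_eq_mul]
      have e4 : ((X + 1 - 2 : ℕ) : ℝ) = X - 1 := by
        have : X + 1 - 2 = X - 1 := by omega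
        rw [this, Nat.cast_sub (by omega)]
        push_cast
        ring
      rw [e4]
      ring
    have e3 := (abs_le.1 e1).2
    linarith
  have hXL : (X : ℝ) / L ^ C ≤ (1 / 10) * (X / L ^ 2) := by
    calc (X : ℝ) / L ^ C ≤ X / L ^ 3 := by
          apply div_le_div_of_nonneg_left hXpos.le (by positivity)
          exact pow_le_pow_right₀ (by linarith) hC
      _ = (1 / L) * (X / L ^ 2) := by rw [pow_succ L 2]; field_simp
      _ ≤ (1 / 10) * (X / L ^ 2) := by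
          apply mul_le_mul_of_nonneg_right _ (by positivity)
          exact one_div_le_one_div_of_le (by norm_num) a1
  have hX2 : 10 ≤ X / L ^ 2 := by
    rw [le_div_iff₀ (by positivity)]
    have e1 : √(X : ℝ) * √(X : ℝ) = X := Real.mul_self_sqrt hXpos.le
    have e2 : (10 : ℝ) ≤ √(X : ℝ) := by
      apply Real.le_sqrt_of_sq_le
      linarith
    nlinarith
  have hX1 : ((X : ℝ) - 1) / L ^ 2 = X / L ^ 2 - 1 / L ^ 2 := sub_div _ _ _
  have hL2 : 1 / L ^ 2 ≤ 1 := by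
    rw [div_le_one (by positivity)]
    exact one_le_pow₀ (by linarith)
  have hLi2 : 0 < Li2 X := by
    rw [hX1] at hLi
    linarith
  have hmain : Li2 X ≤ sing m * Li2 X := le_mul_of_one_le_left hLi2.le hs
  have hpc : (0 : ℝ) < pc m X 0 1 := by
    have := (abs_le.1 g).1
    rw [hX1] at hLi
    linarith
  have hpc2 : 0 < pc m X 0 1 := by exact_mod_cast hpc
  unfold pc at hpc2
  rw [card_pos] at hpc2
  obtain ⟨p, hp⟩ := hpc2
  rw [mem_filter] at hp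
  refine ⟨p, p + m, hp.2.1, hp.2.2.1, ?_, rfl⟩
  have := hp.2.2.2.1
  exact_mod_cast this

/-- even numbers as differences of two primes, minus few elements of a set -/
theorem polignac (l B C W : ℕ) (hl : 2 ≤ l) (hC : 3 ≤ C) : ∃ K : ℝ, ∀ H : ℕ, ∃ h₀ : ℕ, ∀ T : Set ℕ,
    (∀ x : ℕ, 1 ≤ x → ∃ a ∈ T, x ≤ a ∧ a ≤ l * x) → ∀ h : ℕ, h₀ ≤ h → 2 ∣ h → ∀ X : ℕ, h ≤ X → h * Real.log X ^ (C + 6) ≤ X →
    (X : ℝ) ≤ h * Real.log X ^ W →
    ∃ S : Finset ℕ, (∀ a ∈ S, a ∈ T ∧ Real.log h ^ H ≤ a ∧ (a : ℝ) ≤ h / Real.log h ^ H) ∧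
      (S.card : ℝ) ≤ K * Real.log (Real.log h) ^ 2 ∧ ∃ m : ℕ, m + ∑ a ∈ S, a = h ∧ 2 ∣ m ∧ m ≠ 0 ∧
      (∃ p q : ℕ, p.Prime ∧ q.Prime ∧ q ≤ X ∧ p + m = q) ∧ GoodD 0 B C X m := by
  obtain ⟨K, h0⟩ := las_goodD l 0 B C hl
  refine ⟨4 * |K|, fun H => ?_⟩
  obtain ⟨X₀, h1⟩ := h0 (H + W + 2)
  obtain ⟨X₁, h2⟩ := pair_exists 0 B C hC
  obtain ⟨n3, h3⟩ := ev_L' 3
  obtain ⟨n4, h4⟩ := ev_log' W 1
  refine ⟨X₀ + X₁ + n3 + n4 + 3, fun T hT h hh h2h X hX0 hX1 hX2 => ?_⟩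
  have hh3 : (3 : ℝ) ≤ h := by exact_mod_cast (by omega : 3 ≤ h)
  have hXr : (h : ℝ) ≤ X := by exact_mod_cast hX0
  have hXpos : (0 : ℝ) < X := by linarith
  have a3 := h3 h (by omega)
  have a4 := h4 X (by omega)
  rw [one_mul] at a4
  obtain ⟨L, hL⟩ : ∃ L, L = Real.log (X : ℝ) := ⟨_, rfl⟩
  obtain ⟨M, hM⟩ : ∃ M, M = Real.log (h : ℝ) := ⟨_, rfl⟩
  have g := h1 T hT X (by omega) h (by
    rw [← hL] at hX1 ⊢
    have : 0 < L ^ (C + 6) := by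
      rw [hL]
      apply pow_pos
      apply Real.log_pos
      linarith
    rw [le_div_iff₀ this]
    exact hX1)
  rw [← hL] at g hX1 hX2 a4
  rw [← hM] at a3 ⊢
  have hML : M ≤ L := by rw [hM, hL]; exact Real.log_le_log (by linarith) hXr
  have hM0 : 0 < M := by linarith
  have hL0 : 0 < L := by linarith
  have hL1 : 1 ≤ L := by linarith
  have hL2M : L ≤ 2 * M := by
    have e2 : √(X : ℝ) * √(X : ℝ) = X := Real.mul_self_sqrt hXpos.le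
    have e3 : 0 < √(X : ℝ) := Real.sqrt_pos.2 hXpos
    have e4 : √(X : ℝ) * √(X : ℝ) ≤ h * √(X : ℝ) := by
      rw [e2]
      exact hX2.trans (mul_le_mul_of_nonneg_left a4 (by linarith))
    have e5 : √(X : ℝ) ≤ h := le_of_mul_le_mul_right e4 e3
    have e6 : (X : ℝ) ≤ (h : ℝ) ^ 2 := by
      rw [Real.sqrt_le_left (by linarith)] at e5
      exact e5
    have e7 := Real.log_le_log hXpos e6
    rw [Real.log_pow, ← hL, ← hM] at e7
    exact_mod_cast e7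
  obtain ⟨S, s1, s2, s3, m, m1, m2, m3⟩ := g.2 W (by omega) (by
    rw [div_le_iff₀ (by positivity)]
    exact hX2)
  have hm2 : 2 ∣ m := by
    have : 2 ∣ m + ∑ a ∈ S, a := by rw [m2]; exact h2h
    exact (Nat.dvd_add_left s3).1 this
  refine ⟨S, ?_, ?_, m, m2, hm2, by omega, h2 X (by omega) m hm2 (by omega) m3, m3⟩
  · intro a ha
    obtain ⟨c1, c2, c3⟩ := s1 a ha
    refine ⟨c1, ?_, ?_⟩
    · refine le_trans ?_ c2
      calc M ^ H ≤ L ^ H := pow_le_pow_left₀ hM0.le hML _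
        _ ≤ L ^ (H + W + 2) := pow_le_pow_right₀ hL1 (by omega)
    · refine c3.trans ?_
      calc (X : ℝ) / L ^ (H + W + 2) ≤ (h * L ^ W) / L ^ (H + W + 2) := by gcongr
        _ = h / L ^ (H + 2) := by
            have : L ^ (H + W + 2) = L ^ (H + 2) * L ^ W := by rw [← pow_add]; congr 1; ring
            rw [this]
            field_simp
        _ ≤ h / L ^ H := by
            apply div_le_div_of_nonneg_left (by linarith) (by positivity)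
            exact pow_le_pow_right₀ hL1 (by omega)
        _ ≤ h / M ^ H := by
            apply div_le_div_of_nonneg_left (by linarith) (by positivity)
            exact pow_le_pow_left₀ hM0.le hML _
  · refine s2.trans ?_
    have e1 : Real.log L ≤ 2 * Real.log M := by
      have e2 := Real.log_le_log hL0 hL2M
      rw [Real.log_mul (by norm_num) hM0.ne'] at e2
      have e3 : Real.log 2 ≤ Real.log M := Real.log_le_log (by norm_num) (by linarith)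
      linarith
    have e2 : 0 ≤ Real.log L := Real.log_nonneg hL1
    have e3 := abs_nonneg K
    calc K * Real.log L ^ 2 ≤ |K| * Real.log L ^ 2 := mul_le_mul_of_nonneg_right (le_abs_self K) (by positivity)
      _ ≤ |K| * (2 * Real.log M) ^ 2 := mul_le_mul_of_nonneg_left (pow_le_pow_left₀ e2 e1 2) e3
      _ = _ := by ring

/-- even numbers as differences of two primes, plus few elements of a set -/
theorem polignac_add (l B C : ℕ) (hl : 2 ≤ l) (hC : 3 ≤ C) : ∃ K : ℝ, ∀ H : ℕ, ∃ X₀ : ℕ, ∀ T : Set ℕ,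
    (∀ x : ℕ, 1 ≤ x → ∃ a ∈ T, x ≤ a ∧ a ≤ l * x) → ∀ X : ℕ, X₀ ≤ X → ∀ h : ℕ, 2 ∣ h → 0 < h → (h : ℝ) ≤ X / Real.log X ^ (C + 6) →
    ∃ S : Finset ℕ, (∀ a ∈ S, a ∈ T ∧ Real.log X ^ H ≤ a ∧ (a : ℝ) ≤ X / Real.log X ^ H) ∧
      (S.card : ℝ) ≤ K * Real.log (Real.log X) ^ 2 ∧ 2 ∣ h + ∑ a ∈ S, a ∧ h + ∑ a ∈ S, a ≠ 0 ∧
      (∃ p q : ℕ, p.Prime ∧ q.Prime ∧ q ≤ X ∧ p + (h + ∑ a ∈ S, a) = q) ∧ GoodD 0 B C X (h + ∑ a ∈ S, a) := by
  obtain ⟨K, h0⟩ := las_goodD l 0 B C hl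
  refine ⟨K, fun H => ?_⟩
  obtain ⟨X₀, h1⟩ := h0 H
  obtain ⟨X₁, h2⟩ := pair_exists 0 B C hC
  refine ⟨X₀ + X₁, fun T hT X hX h h2h hpos hh => ?_⟩
  obtain ⟨S, s1, s2, s3, s4⟩ := (h1 T hT X (by omega) h hh).1
  exact ⟨S, s1, s2, dvd_add h2h s3, by omega, h2 X (by omega) _ (dvd_add h2h s3) (by omega) s4, s4⟩

/-- both parts -/
theorem polignac_all (l B C W : ℕ) (hl : 2 ≤ l) (hC : 3 ≤ C) : ∃ K : ℝ, ∀ H : ℕ, ∃ X₀ : ℕ, ∀ T : Set ℕ,
    (∀ x : ℕ, 1 ≤ x → ∃ a ∈ T, x ≤ a ∧ a ≤ l * x) →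
    (∀ h : ℕ, X₀ ≤ h → 2 ∣ h → ∀ X : ℕ, h ≤ X → h * Real.log X ^ (C + 6) ≤ X → (X : ℝ) ≤ h * Real.log X ^ W →
      ∃ S : Finset ℕ, (∀ a ∈ S, a ∈ T ∧ Real.log h ^ H ≤ a ∧ (a : ℝ) ≤ h / Real.log h ^ H) ∧
        (S.card : ℝ) ≤ K * Real.log (Real.log h) ^ 2 ∧ ∃ m : ℕ, m + ∑ a ∈ S, a = h ∧ 2 ∣ m ∧ m ≠ 0 ∧
        (∃ p q : ℕ, p.Prime ∧ q.Prime ∧ q ≤ X ∧ p + m = q) ∧ GoodD 0 B C X m) ∧
    (∀ X : ℕ, X₀ ≤ X → ∀ h : ℕ, 2 ∣ h → 0 < h → (h : ℝ) ≤ X / Real.log X ^ (C + 6) →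
      ∃ S : Finset ℕ, (∀ a ∈ S, a ∈ T ∧ Real.log X ^ H ≤ a ∧ (a : ℝ) ≤ X / Real.log X ^ H) ∧
        (S.card : ℝ) ≤ K * Real.log (Real.log X) ^ 2 ∧ 2 ∣ h + ∑ a ∈ S, a ∧ h + ∑ a ∈ S, a ≠ 0 ∧
        (∃ p q : ℕ, p.Prime ∧ q.Prime ∧ q ≤ X ∧ p + (h + ∑ a ∈ S, a) = q) ∧ GoodD 0 B C X (h + ∑ a ∈ S, a)) := by
  obtain ⟨K₁, h1⟩ := polignac l B C W hl hC
  obtain ⟨K₂, h2⟩ := polignac_add l B C hl hC
  refine ⟨max K₁ K₂, fun H => ?_⟩
  obtain ⟨X₁, h3⟩ := h1 H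
  obtain ⟨X₂, h4⟩ := h2 H
  refine ⟨X₁ + X₂, fun T hT => ⟨fun h hh h2h X hX0 hX1 hX2 => ?_, fun X hX h h2h hpos hh => ?_⟩⟩
  · obtain ⟨S, s1, s2, s3⟩ := h3 T hT h (by omega) h2h X hX0 hX1 hX2
    exact ⟨S, s1, s2.trans (mul_le_mul_of_nonneg_right (le_max_left _ _) (sq_nonneg _)), s3⟩
  · obtain ⟨S, s1, s2, s3⟩ := h4 T hT X (by omega) h h2h hpos hh
    exact ⟨S, s1, s2.trans (mul_le_mul_of_nonneg_right (le_max_right _ _) (sq_nonneg _)), s3⟩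

end Pool.Agent.Y885
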