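import Pool.Agent.Y885.PD3

set_option autoImplicit false

/-! Prime pairs, uniformly over a window of differences whose position is arbitrary up to few elements of a set. -/

namespace Pool.Agent.Y885
open Finset
open Pool.Agent.H373R2.T7
open Pool.Agent.W93.PP (GoodD pc Cnt Li2 sum_int anti intble)
open Pool.Agent.H560R3.GB (sing)

lemma inv_sq_le {L ℓ : ℝ} (hL : 0 < L) (hℓ : 0 ≤ ℓ) (h : 16 * ℓ ≤ L) : 1 / (L - 4 * ℓ) ^ 2 ≤ (1 / L ^ 2) * (1 + 16 * (ℓ / L)) := by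
  obtain ⟨u, hu⟩ : ∃ u, u = 4 * (ℓ / L) := ⟨_, rfl⟩
  have hu0 : 0 ≤ u := by rw [hu]; positivity
  have hu1 : u ≤ 1 / 4 := by
    rw [hu]
    have : ℓ / L ≤ 1 / 16 := by rw [div_le_div_iff₀ hL (by norm_num)]; linarith
    linarith
  have h1 : L - 4 * ℓ = L * (1 - u) := by rw [hu]; field_simp
  have h2 : 1 + 16 * (ℓ / L) = 1 + 4 * u := by rw [hu]; ring
  rw [h1, h2, mul_pow, div_le_iff₀ (by have : 0 < 1 - u := by linarith
                                       positivity)]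
  have h3 : 1 / L ^ 2 * (1 + 4 * u) * (L ^ 2 * (1 - u) ^ 2) = (1 + 4 * u) * (1 - u) ^ 2 := by field_simp
  rw [h3]
  nlinarith [mul_nonneg hu0 hu0, mul_nonneg hu0 (mul_nonneg hu0 hu0)]

lemma Li2_near (x : ℝ) (hx0 : 0 < x) (hx : 1024 ≤ Real.log x) :
    |Li2 x - x / Real.log x ^ 2| ≤ 18 * (Real.log (Real.log x) / Real.log x) * (x / Real.log x ^ 2) := by
  obtain ⟨L, hL⟩ : ∃ L, L = Real.log x := ⟨_, rfl⟩
  rw [← hL] at hx ⊢
  obtain ⟨ℓ, hℓ⟩ : ∃ ℓ, ℓ = Real.log L := ⟨_, rfl⟩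
  rw [← hℓ]
  have hL0 : 0 < L := by linarith
  have hℓ1 : 1 ≤ ℓ := by
    rw [hℓ, Real.le_log_iff_exp_le hL0]
    have := Real.exp_one_lt_d9
    linarith
  have h16 : 16 * ℓ ≤ L := by
    have e1 := Real.log_le_sub_one_of_pos (show 0 < √L by positivity)
    rw [Real.log_sqrt hL0.le, ← hℓ] at e1
    have e2 : (32 : ℝ) ≤ √L := Real.le_sqrt_of_sq_le (by linarith)
    have e3 : √L * √L = L := Real.mul_self_sqrt hL0.le
    nlinarith
  have hxe : x = Real.exp L := by rw [hL, Real.exp_log hx0]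
  have hx5 : L ^ 5 / 120 ≤ x := by
    rw [hxe]
    have := Real.pow_div_factorial_le_exp L hL0.le 5
    have h5 : ((Nat.factorial 5 : ℕ) : ℝ) = 120 := by norm_num [Nat.factorial]
    rwa [h5] at this
  obtain ⟨y, hy⟩ : ∃ y, y = x / L ^ 4 := ⟨_, rfl⟩
  have hy2 : 2 ≤ y := by
    rw [hy, le_div_iff₀ (by positivity)]
    refine le_trans ?_ hx5
    rw [le_div_iff₀ (by norm_num)]
    have : (0 : ℝ) ≤ L ^ 4 := by positivity
    nlinarith
  have hyx : y ≤ x := by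
    rw [hy]
    exact div_le_self hx0.le (one_le_pow₀ (by linarith))
  have hx2 : 2 ≤ x := hy2.trans hyx
  have hlogy : Real.log y = L - 4 * ℓ := by
    rw [hy, Real.log_div hx0.ne' (by positivity), Real.log_pow, ← hL, ← hℓ]
    norm_num
  have hsplit : Li2 x = (∫ t in (2 : ℝ)..y, 1 / Real.log t ^ 2) + ∫ t in y..x, 1 / Real.log t ^ 2 := by
    unfold Li2
    rw [intervalIntegral.integral_add_adjacent_intervals (intble 2 y le_rfl hy2) (intble y x hy2 hx2)]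
  have hup1 : (∫ t in (2 : ℝ)..y, 1 / Real.log t ^ 2) ≤ 3 * y := by
    have e1 := intervalIntegral.integral_mono_on hy2 (intble 2 y le_rfl hy2) (intervalIntegrable_const (c := (1 / Real.log 2 ^ 2 : ℝ)))
      (fun t ht => anti (Set.mem_Ici.2 (le_refl (2 : ℝ))) (Set.mem_Ici.2 ht.1) ht.1)
    rw [intervalIntegral.integral_const, smul_eq_mul] at e1
    have e2 := Real.log_two_gt_d9
    have e3 : 1 / Real.log 2 ^ 2 ≤ 3 := by
      rw [div_le_iff₀ (by positivity)]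
      nlinarith
    have e4 : (0 : ℝ) ≤ 1 / Real.log 2 ^ 2 := by positivity
    nlinarith
  have hup2 : (∫ t in y..x, 1 / Real.log t ^ 2) ≤ x * (1 / (L - 4 * ℓ) ^ 2) := by
    have e1 := intervalIntegral.integral_mono_on hyx (intble y x hy2 hx2) (intervalIntegrable_const (c := (1 / Real.log y ^ 2 : ℝ)))
      (fun t ht => anti (Set.mem_Ici.2 hy2) (Set.mem_Ici.2 (hy2.trans ht.1)) ht.1)
    rw [intervalIntegral.integral_const, smul_eq_mul, hlogy] at e1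
    refine e1.trans ?_
    apply mul_le_mul_of_nonneg_right _ (by positivity)
    linarith
  have hlow1 : (x - 2) * (1 / L ^ 2) ≤ Li2 x := by
    have e1 := intervalIntegral.integral_mono_on hx2 (intervalIntegrable_const (c := (1 / Real.log x ^ 2 : ℝ))) (intble 2 x le_rfl hx2)
      (fun t ht => anti (Set.mem_Ici.2 ht.1) (Set.mem_Ici.2 hx2) ht.2)
    rw [intervalIntegral.integral_const, smul_eq_mul, ← hL] at e1
    exact e1
  have hinv := inv_sq_le hL0 (by linarith : 0 ≤ ℓ) h16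
  have hL1 : 1 / L ≤ ℓ / L := div_le_div_of_nonneg_right hℓ1 hL0.le
  have hxL : 0 < x / L ^ 2 := by positivity
  have hA : 3 * y ≤ (ℓ / L) * (x / L ^ 2) := by
    have e1 : 3 * y = (3 / L) * (1 / L) * (x / L ^ 2) := by rw [hy]; field_simp
    rw [e1]
    apply mul_le_mul_of_nonneg_right _ hxL.le
    have e2 : 3 / L ≤ 1 := by rw [div_le_one hL0]; linarith
    have e3 : (0 : ℝ) ≤ 1 / L := by positivity
    nlinarith
  have hB : x * (1 / (L - 4 * ℓ) ^ 2) ≤ x / L ^ 2 + 16 * (ℓ / L) * (x / L ^ 2) := by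
    calc x * (1 / (L - 4 * ℓ) ^ 2) ≤ x * ((1 / L ^ 2) * (1 + 16 * (ℓ / L))) := mul_le_mul_of_nonneg_left hinv hx0.le
      _ = _ := by ring
  have hC : 2 * (1 / L ^ 2) ≤ (ℓ / L) * (x / L ^ 2) := by
    have e1 : 2 * (1 / L ^ 2) ≤ (1 / L) * (x / L ^ 2) := by
      have e2 : 2 * L ≤ x := by
        refine le_trans ?_ hx5
        rw [le_div_iff₀ (by norm_num)]
        have : (1024 : ℝ) ^ 4 ≤ L ^ 4 := pow_le_pow_left₀ (by norm_num) hx 4
        nlinarith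
      rw [show 2 * (1 / L ^ 2) = (2 * L) / L ^ 3 by field_simp, show (1 / L) * (x / L ^ 2) = x / L ^ 3 by field_simp]
      exact div_le_div_of_nonneg_right e2 (by positivity)
    exact e1.trans (mul_le_mul_of_nonneg_right hL1 hxL.le)
  have hD : (0 : ℝ) ≤ (ℓ / L) * (x / L ^ 2) := by positivity
  rw [abs_le]
  constructor
  · have e1 : (x - 2) * (1 / L ^ 2) = x / L ^ 2 - 2 * (1 / L ^ 2) := by ring
    rw [e1] at hlow1
    nlinarith
  · rw [hsplit]
    nlinarith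

/-- prime pairs, uniformly over a window of differences whose position is arbitrary up to few elements of a set which
meets every `[x, l x]` -/
theorem las_pairsU (l A W : ℕ) (hl : 2 ≤ l) : ∃ Cst : ℝ, ∀ H : ℕ, ∃ X₀ : ℕ, ∀ T : Set ℕ,
    (∀ x : ℕ, 1 ≤ x → ∃ a ∈ T, x ≤ a ∧ a ≤ l * x) → ∀ X : ℕ, X₀ ≤ X → ∀ h : ℕ, (h : ℝ) ≤ X / Real.log X ^ (W + 10) →
    ∃ S : Finset ℕ, (∀ a ∈ S, a ∈ T ∧ Real.log X ^ H ≤ a ∧ (a : ℝ) ≤ X / Real.log X ^ H) ∧
      (S.card : ℝ) ≤ Cst * Real.log (Real.log X) ^ 2 ∧ 2 ∣ ∑ a ∈ S, a ∧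
      ∀ d : ℕ, h + ∑ a ∈ S, a ≤ d → (d : ℝ) ≤ ((h + ∑ a ∈ S, a : ℕ) : ℝ) + Real.log X ^ A → 2 ∣ d → d ≠ 0 →
        ∀ x : ℝ, X / Real.log X ^ W ≤ x → x ≤ X →
          |(pc d x 0 1 : ℝ) - sing d * (x / Real.log x ^ 2)| ≤
            20 * (Real.log (Real.log x) / Real.log x) * (sing d * (x / Real.log x ^ 2)) := by
  obtain ⟨Cst, h0⟩ := las_goodD l A 0 (W + 4) hl
  refine ⟨Cst, fun H => ?_⟩
  obtain ⟨X₀, h1⟩ := h0 H
  obtain ⟨n1, h2⟩ := ev_L' 2048
  obtain ⟨n2, h3⟩ := ev_log' W 1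
  refine ⟨X₀ + n1 + n2 + 3, fun T hT X hX h hh => ?_⟩
  obtain ⟨S, g1, g2, g3, g4⟩ := (h1 T hT X (by omega) h (by rw [show W + 4 + 6 = W + 10 by ring]; exact hh)).1
  refine ⟨S, g1, g2, g3, fun d hd1 hd2 hd3 hd4 x hx1 hx2 => ?_⟩
  have a2 := h2 X (by omega)
  have a3 := h3 X (by omega)
  rw [one_mul] at a3
  have hX3 : (3 : ℝ) ≤ X := by exact_mod_cast (by omega : 3 ≤ X)
  have hXpos : (0 : ℝ) < X := by linarith
  obtain ⟨M, hM⟩ : ∃ M, M = Real.log (X : ℝ) := ⟨_, rfl⟩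
  rw [← hM] at a2 a3 hx1 hd2
  have hM0 : 0 < M := by linarith
  have hMW : 0 < M ^ W := by positivity
  have hsx : √(X : ℝ) ≤ x := by
    refine le_trans ?_ hx1
    rw [le_div_iff₀ hMW]
    calc √(X : ℝ) * M ^ W ≤ √(X : ℝ) * √(X : ℝ) := mul_le_mul_of_nonneg_left a3 (Real.sqrt_nonneg _)
      _ = X := Real.mul_self_sqrt hXpos.le
  have hs0 : 0 < √(X : ℝ) := Real.sqrt_pos.2 hXpos
  have hx0 : 0 < x := hs0.trans_le hsx
  have hlx : M / 2 ≤ Real.log x := by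
    have := Real.log_le_log hs0 hsx
    rw [Real.log_sqrt hXpos.le, ← hM] at this
    exact this
  have hlx2 : Real.log x ≤ M := by rw [hM]; exact Real.log_le_log hx0 hx2
  have hL := Li2_near x hx0 (by linarith)
  have hx2' : (2 : ℝ) ≤ x := by
    by_contra hcon
    push Not at hcon
    have := Real.log_le_sub_one_of_pos hx0
    linarith
  obtain ⟨δ, hδ⟩ := Nat.exists_eq_add_of_le hd1
  have hg := g4 δ 1 0 (by
      rw [← hM]
      rw [hδ] at hd2
      push_cast at hd2 ⊢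
      linarith) le_rfl (by rw [pow_zero]; norm_num) (Nat.coprime_one_right _) (Nat.coprime_one_right _)
      (by rw [← hδ]; exact hd3) (by rw [← hδ]; exact hd4) x hx2' hx2
  rw [← hδ, cnt_one, Nat.cast_one, div_one, ← hM] at hg
  have hs := Pool.Agent.W93.GB.one_le_sing d
  obtain ⟨L, hLL⟩ : ∃ L, L = Real.log x := ⟨_, rfl⟩
  rw [← hLL] at hL hlx hlx2 ⊢
  obtain ⟨Sg, hSg⟩ : ∃ Sg, Sg = sing d := ⟨_, rfl⟩
  rw [← hSg] at hs hg ⊢
  have hL0 : 0 < L := by linarith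
  have hℓ : 1 ≤ Real.log L := by
    rw [Real.le_log_iff_exp_le hL0]
    have := Real.exp_one_lt_d9
    linarith
  have hxL : 0 < x / L ^ 2 := by positivity
  have e1 : (X : ℝ) / M ^ (W + 4) ≤ (Real.log L / L) * (x / L ^ 2) := by
    have e2 : (X : ℝ) / M ^ (W + 4) ≤ x / M ^ 4 := by
      rw [pow_add, div_mul_eq_div_div]
      exact div_le_div_of_nonneg_right hx1 (by positivity)
    have e3 : x / M ^ 4 ≤ x / L ^ 4 := div_le_div_of_nonneg_left hx0.le (by positivity) (pow_le_pow_left₀ hL0.le hlx2 4)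
    have e4 : x / L ^ 4 = (1 / L) * (1 / L) * (x / L ^ 2) := by field_simp
    have e5 : (1 / L) * (1 / L) ≤ Real.log L / L := by
      have : 1 / L ≤ 1 := by rw [div_le_one hL0]; linarith
      calc (1 / L) * (1 / L) ≤ 1 * (1 / L) := mul_le_mul_of_nonneg_right this (by positivity)
        _ = 1 / L := one_mul _
        _ ≤ _ := div_le_div_of_nonneg_right hℓ hL0.le
    refine e2.trans (e3.trans ?_)
    rw [e4]
    exact mul_le_mul_of_nonneg_right e5 hxL.le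
  have hD : 0 ≤ (Real.log L / L) * (x / L ^ 2) := by positivity
  have e6 : (pc d x 0 1 : ℝ) - Sg * (x / L ^ 2) = ((pc d x 0 1 : ℝ) - Sg * Li2 x) + Sg * (Li2 x - x / L ^ 2) := by ring
  rw [e6]
  refine (abs_add_le _ _).trans ?_
  rw [abs_mul, abs_of_nonneg (by linarith : 0 ≤ Sg)]
  have e7 := mul_le_mul_of_nonneg_left hL (by linarith : 0 ≤ Sg)
  have e8 : (Real.log L / L) * (x / L ^ 2) ≤ Sg * ((Real.log L / L) * (x / L ^ 2)) := le_mul_of_one_le_left hD hs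
  nlinarith

end Pool.Agent.Y885
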