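import Pool.Agent.Y885.WT5

set_option autoImplicit false

/-!
# PO1: the number of the primes in moved windows: the mean of the generating function
-/

namespace Pool.Agent.Y885

open Finset Pool.Agent.H373R2.T7

lemma po_mean {s : ℕ} {α : Type} [DecidableEq α] (Ω : Finset α) (p : α → ℝ) (hp0 : ∀ v ∈ Ω, 0 ≤ p v) (hsum : ∑ v ∈ Ω, p v = 1)
    (r : ℝ) (hr0 : 0 ≤ r) (hr1 : r ≤ 1) (N y T z : ℕ) (hy : y ≤ s) (hT : 1 ≤ T) (L R δ Q t X1 X2 X3 : ℝ) (hL : 0 < L) (hR : 0 ≤ R) (hδ0 : 0 ≤ δ) (hδ : δ ≤ 1 / 2) (ht : 0 < t)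
    (c : ℕ → α → ℕ)
    (hD : ∀ j < y, ∑ n ∈ Icc 1 N, |∑ v ∈ Ω, p v * (lamI ((n : ℤ) + (c j v : ℤ)) - lamzI z ((n : ℤ) + (c j v : ℤ)))| ≤ X1)
    (hV : ∑ n ∈ Icc 1 N, (∑ v ∈ Ω, p v * ∑ j ∈ range y, (lamzI z ((n : ℤ) + (c j v : ℤ)) - 1)) ^ 2 ≤ X2)
    (hP : ∀ j < y, ∀ v ∈ Ω, ∑ n ∈ Icc 1 N, (lamI ((n : ℤ) + (c j v : ℤ)) - lamP ((n : ℤ) + (c j v : ℤ))) ≤ X3)
    (hP0 : ∀ m : ℤ, 0 ≤ lamI m - lamP m) (hz : ∀ m : ℤ, lamzI z m ≤ R)
    (hQ : ∀ j < y, ∀ v ∈ Ω, ∑ n ∈ Icc 1 N, Pr (n + c j v) ≤ Q)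
    (hlog : ∀ n ∈ Icc 1 N, N ≤ n * T → ∀ j < y, ∀ v ∈ Ω, |L * Pr (n + c j v) - lamP ((n : ℤ) + (c j v : ℤ))| ≤ δ * L * Pr (n + c j v)) :
    L * ∑ n ∈ Icc 1 N, |∏ j : Fin s, (1 - ∑ v ∈ Ω, p v * (if j.val < y then r * Pr (n + c j.val v) else 0)) - Real.exp (-(r * ((y : ℝ) / L)))| ≤
      L * (N / T) + (2 * R + δ * L) * (y * Q) + 3 * (y * X1) + y * X3 + (X2 / (2 * t) + N * (t / 2)) := by
  classical
  obtain ⟨g, hg⟩ : ∃ g : ℕ → ℕ → ℝ, g = fun n j => ∑ v ∈ Ω, p v * Pr (n + c j v) := ⟨_, rfl⟩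
  obtain ⟨D, hDd⟩ : ∃ D : ℕ → ℕ → ℝ, D = fun (n j : ℕ) => ∑ v ∈ Ω, p v * (lamI ((n : ℤ) + (c j v : ℤ)) - lamzI z ((n : ℤ) + (c j v : ℤ))) := ⟨_, rfl⟩
  obtain ⟨E, hE⟩ : ∃ E : ℕ → ℝ, E = fun (n : ℕ) => ∑ v ∈ Ω, p v * ∑ j ∈ range y, (lamzI z ((n : ℤ) + (c j v : ℤ)) - 1) := ⟨_, rfl⟩
  obtain ⟨PP, hPP⟩ : ∃ PP : ℕ → ℕ → ℝ, PP = fun (n j : ℕ) => ∑ v ∈ Ω, p v * (lamI ((n : ℤ) + (c j v : ℤ)) - lamP ((n : ℤ) + (c j v : ℤ))) := ⟨_, rfl⟩
  have hg0 : ∀ n j, 0 ≤ g n j := by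
    intro n j
    rw [hg]
    exact sum_nonneg fun v hv => mul_nonneg (hp0 v hv) (Pr_nonneg _)
  have hg1 : ∀ n j, g n j ≤ 1 := by
    intro n j
    rw [hg]
    simp only
    rw [← hsum]
    exact sum_le_sum fun v hv => mul_le_of_le_one_right (hp0 v hv) (Pr_le _)
  have hPP0 : ∀ n j, 0 ≤ PP n j := by
    intro n j
    rw [hPP]
    exact sum_nonneg fun v hv => mul_nonneg (hp0 v hv) (hP0 _)
  have hg' : ∀ (n : ℕ) (j : Fin s), ∑ v ∈ Ω, p v * (if j.val < y then r * Pr (n + c j.val v) else 0) = if j.val < y then r * g n j.val else 0 := by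
    intro n j
    rw [hg]
    split_ifs with h
    · simp only
      rw [mul_sum]
      apply sum_congr rfl
      intro v _
      ring
    · simp
  have hrg0 : ∀ n j, 0 ≤ r * g n j := fun n j => mul_nonneg hr0 (hg0 n j)
  have hrg1 : ∀ n j, r * g n j ≤ 1 := fun n j => mul_le_one₀ hr1 (hg0 n j) (hg1 n j)
  have hsumg : ∀ (F : ℕ → ℝ), ∑ j : Fin s, (if j.val < y then F j.val else 0) = ∑ j ∈ range y, F j := by
    intro F
    rw [← sum_filter, fin_filter_sum s y hy F]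
  have hyL : 0 ≤ (y : ℝ) / L := by positivity
  -- the product
  have hprod : ∀ n : ℕ, |∏ j : Fin s, (1 - ∑ v ∈ Ω, p v * (if j.val < y then r * Pr (n + c j.val v) else 0)) - Real.exp (-(r * ((y : ℝ) / L)))| ≤
      ∑ j ∈ range y, g n j ^ 2 + |∑ j ∈ range y, g n j - y / L| := by
    intro n
    have e1 := prod_exp (fun j : Fin s => if j.val < y then r * g n j.val else 0) (fun j => by split_ifs; exacts [hrg0 n _, le_rfl])
      (fun j => by split_ifs; exacts [hrg1 n _, zero_le_one])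
    rw [hsumg (fun j => r * g n j)] at e1
    have e2 : ∑ j : Fin s, (if j.val < y then r * g n j.val else 0) ^ 2 = ∑ j ∈ range y, (r * g n j) ^ 2 := by
      rw [← hsumg (fun j => (r * g n j) ^ 2)]
      apply sum_congr rfl
      intro j _
      split_ifs <;> simp
    rw [e2] at e1
    have e3 := exp_dif (∑ j ∈ range y, r * g n j) (r * (y / L)) (sum_nonneg fun j _ => hrg0 n j) (mul_nonneg hr0 hyL)
    have e4 : ∏ j : Fin s, (1 - ∑ v ∈ Ω, p v * (if j.val < y then r * Pr (n + c j.val v) else 0)) = ∏ j : Fin s, (1 - if j.val < y then r * g n j.val else 0) :=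
      prod_congr rfl fun j _ => by rw [hg' n j]
    rw [e4]
    have e5 := abs_sub_le (∏ j : Fin s, (1 - if j.val < y then r * g n j.val else 0)) (Real.exp (-∑ j ∈ range y, r * g n j)) (Real.exp (-(r * ((y : ℝ) / L))))
    have e6 : ∑ j ∈ range y, (r * g n j) ^ 2 ≤ ∑ j ∈ range y, g n j ^ 2 := by
      apply sum_le_sum
      intro j _
      exact pow_le_pow_left₀ (hrg0 n j) (mul_le_of_le_one_left (hg0 n j) hr1) 2
    have e7 : |∑ j ∈ range y, r * g n j - r * (y / L)| ≤ |∑ j ∈ range y, g n j - y / L| := by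
      rw [← mul_sum, ← mul_sub, abs_mul, abs_of_nonneg hr0]
      exact mul_le_of_le_one_left (abs_nonneg _) hr1
    linarith
  have hprod1 : ∀ n : ℕ, |∏ j : Fin s, (1 - ∑ v ∈ Ω, p v * (if j.val < y then r * Pr (n + c j.val v) else 0)) - Real.exp (-(r * ((y : ℝ) / L)))| ≤ 1 := by
    intro n
    have e1 : 0 ≤ ∏ j : Fin s, (1 - ∑ v ∈ Ω, p v * (if j.val < y then r * Pr (n + c j.val v) else 0)) :=
      prod_nonneg fun j _ => by rw [hg' n j]; split_ifs; exacts [by linarith [hrg1 n j.val], by norm_num]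
    have e2 : ∏ j : Fin s, (1 - ∑ v ∈ Ω, p v * (if j.val < y then r * Pr (n + c j.val v) else 0)) ≤ 1 :=
      prod_le_one (fun j _ => by rw [hg' n j]; split_ifs; exacts [by linarith [hrg1 n j.val], by norm_num])
        (fun j _ => by rw [hg' n j]; split_ifs; exacts [by linarith [hrg0 n j.val], by norm_num])
    have e3 := Real.exp_pos (-(r * ((y : ℝ) / L)))
    have e4 : Real.exp (-(r * ((y : ℝ) / L))) ≤ 1 := Real.exp_le_one_iff.2 (by linarith [mul_nonneg hr0 hyL])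
    rw [abs_le]
    constructor <;> linarith
  obtain ⟨RH, hRH⟩ : ∃ RH : ℕ → ℝ, RH = fun n => (2 * R + δ * L) * ∑ j ∈ range y, g n j + 3 * ∑ j ∈ range y, |D n j| + ∑ j ∈ range y, PP n j +
      (E n ^ 2 / (2 * t) + t / 2) := ⟨_, rfl⟩
  have hRH0 : ∀ n, 0 ≤ RH n := by
    intro n
    rw [hRH]
    have f1 : 0 ≤ ∑ j ∈ range y, g n j := sum_nonneg fun j _ => hg0 n j
    have f2 : 0 ≤ ∑ j ∈ range y, |D n j| := sum_nonneg fun j _ => abs_nonneg _
    have f3 : 0 ≤ ∑ j ∈ range y, PP n j := sum_nonneg fun j _ => hPP0 n j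
    positivity
  have hgood : ∀ n ∈ Icc 1 N, N ≤ n * T → L * (∑ j ∈ range y, g n j ^ 2 + |∑ j ∈ range y, g n j - y / L|) ≤ RH n := by
    intro n hn hnT
    -- squares
    have k1 : ∀ j ∈ range y, L * g n j ^ 2 ≤ 2 * R * g n j + 2 * |D n j| := by
      intro j hj
      rw [mem_range] at hj
      have e1 : L * g n j ≤ 2 * (R + |D n j|) := by
        have f1 : L * g n j ≤ ∑ v ∈ Ω, p v * (2 * lamI ((n : ℤ) + (c j v : ℤ))) := by
          rw [hg, mul_sum]
          apply sum_le_sum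
          intro v hv
          have f2 := (abs_le.1 (hlog n hn hnT j hj v hv)).2
          have f3 := hP0 ((n : ℤ) + (c j v : ℤ))
          have f4 : δ * L * Pr (n + c j v) ≤ 1 / 2 * L * Pr (n + c j v) :=
            mul_le_mul_of_nonneg_right (mul_le_mul_of_nonneg_right hδ hL.le) (Pr_nonneg _)
          have f5 : L * Pr (n + c j v) ≤ 2 * lamI ((n : ℤ) + (c j v : ℤ)) := by linarith
          calc L * (p v * Pr (n + c j v)) = p v * (L * Pr (n + c j v)) := by ring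
            _ ≤ _ := mul_le_mul_of_nonneg_left f5 (hp0 v hv)
        have f6 : ∑ v ∈ Ω, p v * (2 * lamI ((n : ℤ) + (c j v : ℤ))) = 2 * (∑ v ∈ Ω, p v * lamzI z ((n : ℤ) + (c j v : ℤ)) + D n j) := by
          rw [hDd]
          simp only
          rw [← sum_add_distrib, mul_sum]
          apply sum_congr rfl
          intro v _
          ring
        have f7 : ∑ v ∈ Ω, p v * lamzI z ((n : ℤ) + (c j v : ℤ)) ≤ R := by
          calc ∑ v ∈ Ω, p v * lamzI z ((n : ℤ) + (c j v : ℤ)) ≤ ∑ v ∈ Ω, p v * R := sum_le_sum fun v hv => mul_le_mul_of_nonneg_left (hz _) (hp0 v hv)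
            _ = R := by rw [← sum_mul, hsum, one_mul]
        have f8 := le_abs_self (D n j)
        linarith
      have e2 : |D n j| * g n j ≤ |D n j| := mul_le_of_le_one_right (abs_nonneg _) (hg1 n j)
      calc L * g n j ^ 2 = (L * g n j) * g n j := by ring
        _ ≤ (2 * (R + |D n j|)) * g n j := mul_le_mul_of_nonneg_right e1 (hg0 n j)
        _ = 2 * R * g n j + 2 * (|D n j| * g n j) := by ring
        _ ≤ _ := by linarith
    have k2 : L * ∑ j ∈ range y, g n j ^ 2 ≤ 2 * R * ∑ j ∈ range y, g n j + 2 * ∑ j ∈ range y, |D n j| := by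
      rw [mul_sum, mul_sum, mul_sum, ← sum_add_distrib]
      exact sum_le_sum k1
    -- the sum
    have k3 : ∀ j ∈ range y, L * g n j = ∑ v ∈ Ω, p v * (L * Pr (n + c j v) - lamP ((n : ℤ) + (c j v : ℤ))) - PP n j + D n j +
        ∑ v ∈ Ω, p v * lamzI z ((n : ℤ) + (c j v : ℤ)) := by
      intro j _
      rw [hg, hPP, hDd]
      simp only
      rw [mul_sum, ← sum_sub_distrib, ← sum_add_distrib, ← sum_add_distrib]
      apply sum_congr rfl
      intro v _
      ring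
    have k4 : L * (∑ j ∈ range y, g n j - y / L) = ∑ j ∈ range y, ∑ v ∈ Ω, p v * (L * Pr (n + c j v) - lamP ((n : ℤ) + (c j v : ℤ))) -
        ∑ j ∈ range y, PP n j + ∑ j ∈ range y, D n j + E n := by
      have e1 : L * (y / L) = y := by field_simp
      rw [mul_sub, e1, mul_sum, sum_congr rfl k3, sum_add_distrib, sum_add_distrib, sum_sub_distrib]
      have e2 : E n = ∑ j ∈ range y, ∑ v ∈ Ω, p v * lamzI z ((n : ℤ) + (c j v : ℤ)) - y := by
        rw [hE]
        simp only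
        have f1 : ∀ v ∈ Ω, p v * ∑ j ∈ range y, (lamzI z ((n : ℤ) + (c j v : ℤ)) - 1) = ∑ j ∈ range y, p v * lamzI z ((n : ℤ) + (c j v : ℤ)) - p v * y := by
          intro v _
          rw [sum_sub_distrib, sum_const, card_range, nsmul_eq_mul, mul_one, mul_sub, mul_sum]
        rw [sum_congr rfl f1, sum_sub_distrib, ← sum_mul, hsum, one_mul, sum_comm]
      rw [e2]
      ring
    have k5 : |∑ j ∈ range y, ∑ v ∈ Ω, p v * (L * Pr (n + c j v) - lamP ((n : ℤ) + (c j v : ℤ)))| ≤ δ * L * ∑ j ∈ range y, g n j := by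
      refine (abs_sum_le_sum_abs _ _).trans ?_
      rw [mul_sum]
      apply sum_le_sum
      intro j hj
      rw [mem_range] at hj
      refine (abs_sum_le_sum_abs _ _).trans ?_
      rw [hg]
      simp only
      rw [mul_sum]
      apply sum_le_sum
      intro v hv
      rw [abs_mul, abs_of_nonneg (hp0 v hv)]
      calc p v * |L * Pr (n + c j v) - lamP ((n : ℤ) + (c j v : ℤ))| ≤ p v * (δ * L * Pr (n + c j v)) :=
            mul_le_mul_of_nonneg_left (hlog n hn hnT j hj v hv) (hp0 v hv)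
        _ = _ := by ring
    have k6 : |∑ j ∈ range y, D n j| ≤ ∑ j ∈ range y, |D n j| := abs_sum_le_sum_abs _ _
    have k7 : 0 ≤ ∑ j ∈ range y, PP n j := sum_nonneg fun j _ => hPP0 n j
    have k8 : |E n| ≤ E n ^ 2 / (2 * t) + t / 2 := by
      have f1 : 0 ≤ (|E n| - t) ^ 2 / (2 * t) := by positivity
      have f2 : (|E n| - t) ^ 2 / (2 * t) = E n ^ 2 / (2 * t) - |E n| + t / 2 := by
        rw [sub_sq, sq_abs]
        field_simp
      linarith
    have k9 : L * |∑ j ∈ range y, g n j - y / L| ≤ δ * L * ∑ j ∈ range y, g n j + ∑ j ∈ range y, PP n j + ∑ j ∈ range y, |D n j| + |E n| := by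
      rw [← abs_of_pos hL, ← abs_mul, abs_of_pos hL, k4]
      obtain ⟨a1, a2⟩ := abs_le.1 k5
      obtain ⟨a3, a4⟩ := abs_le.1 k6
      have a5 := neg_abs_le (E n)
      have a6 := le_abs_self (E n)
      rw [abs_le]
      constructor <;> linarith
    have k10 : RH n = (2 * R + δ * L) * ∑ j ∈ range y, g n j + 3 * ∑ j ∈ range y, |D n j| + ∑ j ∈ range y, PP n j +
      (E n ^ 2 / (2 * t) + t / 2) := by rw [hRH]
    rw [k10, mul_add]
    linarith
  have hall : ∀ n ∈ Icc 1 N, L * |∏ j : Fin s, (1 - ∑ v ∈ Ω, p v * (if j.val < y then r * Pr (n + c j.val v) else 0)) - Real.exp (-(r * ((y : ℝ) / L)))| ≤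
      L * (if n * T < N then 1 else 0) + RH n := by
    intro n hn
    by_cases hnT : n * T < N
    · rw [if_pos hnT, mul_one]
      have := mul_le_mul_of_nonneg_left (hprod1 n) hL.le
      linarith [hRH0 n]
    · rw [if_neg hnT, mul_zero, zero_add]
      exact (mul_le_mul_of_nonneg_left (hprod n) hL.le).trans (hgood n hn (by omega))
  rw [mul_sum]
  refine (sum_le_sum hall).trans ?_
  rw [sum_add_distrib, ← mul_sum]
  have b1 : ∑ n ∈ Icc 1 N, (if n * T < N then (1 : ℝ) else 0) ≤ N / T := by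
    rw [← sum_filter, sum_const, nsmul_eq_mul, mul_one]
    have e1 : (Icc 1 N).filter (fun n => n * T < N) ⊆ Icc 1 (N / T) := by
      intro n hn
      rw [mem_filter, mem_Icc] at hn
      rw [mem_Icc]
      exact ⟨hn.1.1, (Nat.le_div_iff_mul_le (by omega)).2 hn.2.le⟩
    have e2 := card_le_card e1
    rw [Nat.card_Icc, Nat.add_sub_cancel] at e2
    have e3 : (((Icc 1 N).filter (fun n => n * T < N)).card : ℝ) ≤ ((N / T : ℕ) : ℝ) := by exact_mod_cast e2
    exact e3.trans Nat.cast_div_le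
  have b2 : ∑ n ∈ Icc 1 N, ∑ j ∈ range y, g n j ≤ y * Q := by
    rw [sum_comm]
    have e1 : ∀ j ∈ range y, ∑ n ∈ Icc 1 N, g n j ≤ Q := by
      intro j hj
      rw [mem_range] at hj
      rw [hg]
      simp only
      rw [sum_comm]
      calc ∑ v ∈ Ω, ∑ n ∈ Icc 1 N, p v * Pr (n + c j v) ≤ ∑ v ∈ Ω, p v * Q := by
            apply sum_le_sum
            intro v hv
            rw [← mul_sum]
            exact mul_le_mul_of_nonneg_left (hQ j hj v hv) (hp0 v hv)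
        _ = Q := by rw [← sum_mul, hsum, one_mul]
    refine (sum_le_sum e1).trans (le_of_eq ?_)
    rw [sum_const, card_range, nsmul_eq_mul]
  have b3 : ∑ n ∈ Icc 1 N, ∑ j ∈ range y, |D n j| ≤ y * X1 := by
    rw [sum_comm]
    have e1 : ∀ j ∈ range y, ∑ n ∈ Icc 1 N, |D n j| ≤ X1 := by
      intro j hj
      rw [mem_range] at hj
      rw [hDd]
      exact hD j hj
    refine (sum_le_sum e1).trans (le_of_eq ?_)
    rw [sum_const, card_range, nsmul_eq_mul]
  have b4 : ∑ n ∈ Icc 1 N, ∑ j ∈ range y, PP n j ≤ y * X3 := by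
    rw [sum_comm]
    have e1 : ∀ j ∈ range y, ∑ n ∈ Icc 1 N, PP n j ≤ X3 := by
      intro j hj
      rw [mem_range] at hj
      rw [hPP]
      simp only
      rw [sum_comm]
      calc ∑ v ∈ Ω, ∑ n ∈ Icc 1 N, p v * (lamI ((n : ℤ) + (c j v : ℤ)) - lamP ((n : ℤ) + (c j v : ℤ))) ≤ ∑ v ∈ Ω, p v * X3 := by
            apply sum_le_sum
            intro v hv
            rw [← mul_sum]
            exact mul_le_mul_of_nonneg_left (hP j hj v hv) (hp0 v hv)
        _ = X3 := by rw [← sum_mul, hsum, one_mul]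
    refine (sum_le_sum e1).trans (le_of_eq ?_)
    rw [sum_const, card_range, nsmul_eq_mul]
  have b5 : ∑ n ∈ Icc 1 N, E n ^ 2 ≤ X2 := by rw [hE]; exact hV
  have b6 : ∑ n ∈ Icc 1 N, RH n = (2 * R + δ * L) * ∑ n ∈ Icc 1 N, ∑ j ∈ range y, g n j + 3 * ∑ n ∈ Icc 1 N, ∑ j ∈ range y, |D n j| +
      ∑ n ∈ Icc 1 N, ∑ j ∈ range y, PP n j + ((∑ n ∈ Icc 1 N, E n ^ 2) / (2 * t) + N * (t / 2)) := by
    rw [hRH]
    simp only
    rw [sum_add_distrib, sum_add_distrib, sum_add_distrib, sum_add_distrib, ← mul_sum, ← mul_sum, ← sum_div, sum_const, Nat.card_Icc,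
      Nat.add_sub_cancel, nsmul_eq_mul]
  rw [b6]
  have c1 := mul_le_mul_of_nonneg_left b1 hL.le
  have c2 := mul_le_mul_of_nonneg_left b2 (by positivity : 0 ≤ 2 * R + δ * L)
  have c3 : (∑ n ∈ Icc 1 N, E n ^ 2) / (2 * t) ≤ X2 / (2 * t) := div_le_div_of_nonneg_right b5 (by positivity)
  linarith

end Pool.Agent.Y885
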