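import Pool.Agent.Y885.PO2

set_option autoImplicit false

/-!
# PO3: from generating functions to the Poisson law; the selection
-/

namespace Pool.Agent.Y885

open Finset Pool.Agent.H373R2.T7
open Pool.Agent.W93.TD (total_w)

/-- from generating functions to probabilities -/
lemma po_inv (Λ : ℝ) (hΛ : 0 ≤ Λ) (k : ℕ) : ∀ ε : ℝ, 0 < ε → ∃ δ : ℝ, 0 < δ ∧ ∃ Z : Finset ℝ, (∀ z ∈ Z, 0 ≤ z ∧ z ≤ 1) ∧
    ∀ x : ℝ, 0 ≤ x → x ≤ Λ → ∀ N : ℕ, 0 < N → ∀ Kf : ℕ → ℕ,
    (∀ z ∈ Z, |∑ n ∈ Icc 1 N, z ^ Kf n - N * Real.exp (-((1 - z) * x))| ≤ δ * N) →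
    ∀ i < k, |(((Icc 1 N).filter (fun n => Kf n = i)).card : ℝ) - N * (Real.exp (-x) * x ^ i / i.factorial)| ≤ ε * N := by
  classical
  induction k with
  | zero => exact fun ε hε => ⟨1, one_pos, ∅, by simp, fun x _ _ N _ Kf _ i hi => absurd hi (Nat.not_lt_zero i)⟩
  | succ k ih =>
    intro ε hε
    obtain ⟨W, hW⟩ : ∃ W : ℝ, W = 1 + 2 * Λ ^ (k + 1) := ⟨_, rfl⟩
    have hW1 : 1 ≤ W := by
      have : 0 ≤ Λ ^ (k + 1) := by positivity
      linarith
    obtain ⟨z, hz⟩ : ∃ z : ℝ, z = min (1 / (Λ + 1)) (ε / (4 * W)) := ⟨_, rfl⟩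
    have hz0 : 0 < z := by rw [hz]; exact lt_min (by positivity) (by positivity)
    have hz1 : z * Λ ≤ 1 := by
      have h1 : z ≤ 1 / (Λ + 1) := by rw [hz]; exact min_le_left _ _
      rw [le_div_iff₀ (by positivity)] at h1
      nlinarith
    have hz2 : z ≤ 1 := by
      have h1 : z ≤ 1 / (Λ + 1) := by rw [hz]; exact min_le_left _ _
      rw [le_div_iff₀ (by positivity)] at h1
      nlinarith
    have hz3 : W * z ≤ ε / 4 := by
      have h1 : z ≤ ε / (4 * W) := by rw [hz]; exact min_le_right _ _
      rw [le_div_iff₀ (by positivity)] at h1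
      linarith
    obtain ⟨e', he'⟩ : ∃ e' : ℝ, e' = min ε (ε * z ^ k / (4 * (k + 1))) := ⟨_, rfl⟩
    have he'0 : 0 < e' := by rw [he']; exact lt_min hε (by positivity)
    have he'1 : e' ≤ ε := by rw [he']; exact min_le_left _ _
    have he'2 : k * e' ≤ ε / 4 * z ^ k := by
      have h1 : e' ≤ ε * z ^ k / (4 * (k + 1)) := by rw [he']; exact min_le_right _ _
      rw [le_div_iff₀ (by positivity)] at h1
      have h2 : (0 : ℝ) ≤ k := Nat.cast_nonneg _
      nlinarith
    obtain ⟨δ', hδ', Z, hZ, hmain⟩ := ih e' he'0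
    refine ⟨min δ' (ε / 4 * z ^ k), lt_min hδ' (by positivity), insert z Z, ?_, ?_⟩
    · intro w hw
      rw [mem_insert] at hw
      rcases hw with rfl | hw
      · exact ⟨hz0.le, hz2⟩
      · exact hZ w hw
    · intro x hx0 hx1 N hN Kf hK
      have hN0 : (0 : ℝ) < N := by exact_mod_cast hN
      have hlow := hmain x hx0 hx1 N hN Kf (fun w hw => (hK w (mem_insert_of_mem hw)).trans
        (mul_le_mul_of_nonneg_right (min_le_left _ _) hN0.le))
      intro i hi
      rcases Nat.lt_succ_iff_lt_or_eq.1 hi with hi | rfl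
      · exact (hlow i hi).trans (mul_le_mul_of_nonneg_right he'1 hN0.le)
      · obtain ⟨a, ha⟩ : ∃ a : ℕ → ℝ, a = fun i => (((Icc 1 N).filter (fun n => Kf n = i)).card : ℝ) := ⟨_, rfl⟩
        obtain ⟨q, hq⟩ : ∃ q : ℕ → ℝ, q = fun i => Real.exp (-x) * x ^ i / i.factorial := ⟨_, rfl⟩
        have hlow' : ∀ j < i, |a j - N * q j| ≤ e' * N := by
          intro j hj
          rw [ha, hq]
          exact hlow j hj
        have hz4 := (hK z (mem_insert_self _ _)).trans (mul_le_mul_of_nonneg_right (min_le_right _ _) hN0.le)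
        -- the sum over the residues
        have e1 : ∑ n ∈ Icc 1 N, z ^ Kf n = ∑ j ∈ range (i + 1), a j * z ^ j + ∑ n ∈ (Icc 1 N).filter (fun n => ¬ Kf n < i + 1), z ^ Kf n := by
          rw [← sum_filter_add_sum_filter_not (Icc 1 N) (fun n => Kf n < i + 1)]
          congr 1
          have f1 : ∑ n ∈ (Icc 1 N).filter (fun n => Kf n < i + 1), z ^ Kf n =
              ∑ j ∈ range (i + 1), ∑ n ∈ ((Icc 1 N).filter (fun n => Kf n < i + 1)).filter (fun n => Kf n = j), z ^ Kf n := by
            rw [sum_fiberwise_of_maps_to]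
            intro n hn
            rw [mem_filter] at hn
            exact mem_range.2 hn.2
          rw [f1]
          apply sum_congr rfl
          intro j hj
          rw [mem_range] at hj
          rw [filter_filter, ha]
          have f2 : (Icc 1 N).filter (fun n => Kf n < i + 1 ∧ Kf n = j) = (Icc 1 N).filter (fun n => Kf n = j) := by
            apply filter_congr
            intro n _
            constructor
            · exact fun h => h.2
            · intro h
              exact ⟨by omega, h⟩
          rw [f2]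
          have f3 : ∀ n ∈ (Icc 1 N).filter (fun n => Kf n = j), z ^ Kf n = z ^ j := by
            intro n hn
            rw [(mem_filter.1 hn).2]
          rw [sum_congr rfl f3, sum_const, nsmul_eq_mul]
        obtain ⟨TA, hTA⟩ : ∃ TA, TA = ∑ n ∈ (Icc 1 N).filter (fun n => ¬ Kf n < i + 1), z ^ Kf n := ⟨_, rfl⟩
        have hTA0 : 0 ≤ TA := by rw [hTA]; exact sum_nonneg fun n _ => by positivity
        have hTA1 : TA ≤ z * z ^ i * N := by
          rw [hTA]
          have f1 : ∀ n ∈ (Icc 1 N).filter (fun n => ¬ Kf n < i + 1), z ^ Kf n ≤ z ^ (i + 1) := by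
            intro n hn
            exact pow_le_pow_of_le_one hz0.le hz2 (by have := (mem_filter.1 hn).2; omega)
          refine (sum_le_sum f1).trans ?_
          rw [sum_const, nsmul_eq_mul, pow_succ, mul_comm z]
          rw [mul_comm]
          apply mul_le_mul_of_nonneg_left _ (by positivity)
          have f2 := card_filter_le (Icc 1 N) (fun n => ¬ Kf n < i + 1)
          rw [Nat.card_Icc, Nat.add_sub_cancel] at f2
          exact_mod_cast f2
        -- the exponential
        have hzx : |z * x| ≤ 1 := by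
          rw [abs_of_nonneg (by positivity)]
          exact (mul_le_mul_of_nonneg_left hx1 hz0.le).trans hz1
        have e2 := Real.exp_bound hzx (Nat.succ_pos i)
        obtain ⟨TE, hTE⟩ : ∃ TE, TE = Real.exp (z * x) - ∑ m ∈ range i.succ, (z * x) ^ m / m.factorial := ⟨_, rfl⟩
        rw [← hTE] at e2
        have e3 : |TE| ≤ 2 * Λ ^ (i + 1) * (z * z ^ i) := by
          refine e2.trans ?_
          have f1 : ((i.succ.succ : ℕ) : ℝ) / (i.succ.factorial * (i.succ : ℕ)) ≤ 2 := by
            rw [div_le_iff₀ (by positivity)]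
            have g1 : (1 : ℝ) ≤ i.succ.factorial := by exact_mod_cast Nat.succ_le_of_lt (Nat.factorial_pos _)
            have g2 : (0 : ℝ) ≤ i := Nat.cast_nonneg _
            push_cast
            nlinarith
          have f2 : |z * x| ^ i.succ ≤ (z * Λ) ^ (i + 1) := by
            rw [abs_of_nonneg (by positivity)]
            exact pow_le_pow_left₀ (by positivity) (mul_le_mul_of_nonneg_left hx1 hz0.le) _
          calc |z * x| ^ i.succ * (((i.succ.succ : ℕ) : ℝ) / (i.succ.factorial * (i.succ : ℕ))) ≤ (z * Λ) ^ (i + 1) * 2 :=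
                mul_le_mul f2 f1 (by positivity) (by positivity)
            _ = _ := by rw [mul_pow, pow_succ z]; ring
        have e4 : Real.exp (-((1 - z) * x)) = ∑ j ∈ range (i + 1), q j * z ^ j + Real.exp (-x) * TE := by
          have f1 : Real.exp (-((1 - z) * x)) = Real.exp (-x) * Real.exp (z * x) := by
            rw [← Real.exp_add]
            congr 1
            ring
          have f2 : Real.exp (z * x) = ∑ m ∈ range (i + 1), (z * x) ^ m / m.factorial + TE := by rw [hTE]; ring
          rw [f1, f2, mul_add, mul_sum]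
          congr 1
          apply sum_congr rfl
          intro j _
          rw [hq]
          simp only
          rw [mul_pow]
          ring
        have e5 : |Real.exp (-x) * TE| ≤ 2 * Λ ^ (i + 1) * (z * z ^ i) := by
          rw [abs_mul, abs_of_pos (Real.exp_pos _)]
          calc Real.exp (-x) * |TE| ≤ 1 * |TE| := mul_le_mul_of_nonneg_right (Real.exp_le_one_iff.2 (by linarith)) (abs_nonneg _)
            _ = |TE| := one_mul _
            _ ≤ _ := e3
        have e6 : |∑ j ∈ range i, (a j - N * q j) * z ^ j| ≤ i * e' * N := by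
          refine (abs_sum_le_sum_abs _ _).trans ?_
          have f1 : ∀ j ∈ range i, |(a j - N * q j) * z ^ j| ≤ e' * N := by
            intro j hj
            rw [mem_range] at hj
            rw [abs_mul, abs_of_nonneg (by positivity : (0 : ℝ) ≤ z ^ j)]
            calc |a j - N * q j| * z ^ j ≤ |a j - N * q j| * 1 := mul_le_mul_of_nonneg_left (pow_le_one₀ hz0.le hz2) (abs_nonneg _)
              _ ≤ e' * N := by rw [mul_one]; exact hlow' j hj
          refine (sum_le_sum f1).trans (le_of_eq ?_)
          rw [sum_const, card_range, nsmul_eq_mul]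
          ring
        have e7 : (a i - N * q i) * z ^ i = (∑ n ∈ Icc 1 N, z ^ Kf n - N * Real.exp (-((1 - z) * x))) - ∑ j ∈ range i, (a j - N * q j) * z ^ j - TA +
            N * (Real.exp (-x) * TE) := by
          rw [e1, ← hTA, e4, sum_range_succ, sum_range_succ, mul_add, mul_add, mul_sum]
          have f1 : ∑ j ∈ range i, (a j - N * q j) * z ^ j = ∑ j ∈ range i, a j * z ^ j - ∑ j ∈ range i, N * (q j * z ^ j) := by
            rw [← sum_sub_distrib]
            apply sum_congr rfl
            intro j _
            ring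
          rw [f1]
          ring
        have e8 : |(a i - N * q i) * z ^ i| ≤ ε * N * z ^ i := by
          rw [e7]
          obtain ⟨b1, b2⟩ := abs_le.1 hz4
          obtain ⟨b3, b4⟩ := abs_le.1 e6
          obtain ⟨b5, b6⟩ := abs_le.1 e5
          have b7 := mul_le_mul_of_nonneg_left b5 hN0.le
          have b8 := mul_le_mul_of_nonneg_left b6 hN0.le
          have b9 : (W * z) * z ^ i * N ≤ ε / 4 * z ^ i * N :=
            mul_le_mul_of_nonneg_right (mul_le_mul_of_nonneg_right hz3 (by positivity)) hN0.le
          have b10 : (W * z) * z ^ i * N = z * z ^ i * N + N * (2 * Λ ^ (i + 1) * (z * z ^ i)) := by rw [hW]; ring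
          have b11 := mul_le_mul_of_nonneg_right he'2 hN0.le
          have b12 : 0 ≤ ε / 4 * z ^ i * N := by positivity
          have b13 : ε * N * z ^ i = 4 * (ε / 4 * z ^ i * N) := by ring
          have b14 : 0 ≤ z * z ^ i * N := by positivity
          have b15 : 0 ≤ N * (2 * Λ ^ (i + 1) * (z * z ^ i)) := by positivity
          rw [b13, abs_le]
          constructor <;> linarith
        rw [abs_mul, abs_of_pos (by positivity : 0 < z ^ i)] at e8
        have e9 := le_of_mul_le_mul_right e8 (by positivity)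
        rw [ha, hq] at e9
        exact e9

end Pool.Agent.Y885
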