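import Pool.Agent.Y885.PO3

set_option autoImplicit false

/-!
# PO4: the Poisson law: the selection
-/

namespace Pool.Agent.Y885

open Finset Pool.Agent.H373R2.T7
open Pool.Agent.W93.TD (total_w)

lemma po_prod (s n h y : ℕ) (S : ℕ → Finset ℕ) (hy : y ≤ s) (r : ℝ) (c : Fin s → ℕ) (hc : ∀ j : Fin s, ∑ a ∈ S j.val, a = c j) :
    ∏ j : Fin s, (1 - (if j.val < y then r * Pr (n + (h + j.val + c j)) else 0)) = (1 - r) ^ cntW S h n y := by
  classical
  have e1 : ∏ j : Fin s, (1 - (if j.val < y then r * Pr (n + (h + j.val + c j)) else 0)) =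
      ∏ j : Fin s, (fun j : ℕ => if j < y ∧ (n + (h + j + ∑ a ∈ S j, a)).Prime then 1 - r else 1) j.val := by
    apply prod_congr rfl
    intro j _
    simp only
    rw [← hc j]
    unfold Pr
    by_cases h1 : j.val < y
    · by_cases h2 : (n + (h + j.val + ∑ a ∈ S j.val, a)).Prime
      · rw [if_pos h1, if_pos h2, if_pos ⟨h1, h2⟩, mul_one]
      · rw [if_pos h1, if_neg h2, if_neg (fun hh => h2 hh.2), mul_zero, sub_zero]
    · rw [if_neg h1, if_neg (fun hh => h1 hh.1), sub_zero]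
  rw [e1, Fin.prod_univ_eq_prod_range (fun j : ℕ => if j < y ∧ (n + (h + j + ∑ a ∈ S j, a)).Prime then 1 - r else 1) s, ← prod_filter, prod_const]
  congr 1
  unfold cntW
  congr 1
  ext j
  rw [mem_filter, mem_filter, mem_range, mem_range]
  constructor
  · exact fun hh => ⟨hh.2.1, hh.2.2⟩
  · exact fun hh => ⟨by omega, hh.1, hh.2⟩

/-- the distribution function of the Poisson law of mean `x` -/
noncomputable def FK (k : ℕ) (x : ℝ) : ℝ := ∑ j ∈ range (k + 1), Real.exp (-x) * x ^ j / j.factorial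

lemma FK_le (k : ℕ) (x x' : ℝ) (hx : 0 ≤ x) (hxx : x ≤ x') : FK k x - FK k x' ≤ x' - x := by
  have h1 : FK k x ≤ 1 := by
    unfold FK
    have e1 := Real.sum_le_exp_of_nonneg hx (k + 1)
    have e2 : ∑ j ∈ range (k + 1), Real.exp (-x) * x ^ j / j.factorial = Real.exp (-x) * ∑ j ∈ range (k + 1), x ^ j / j.factorial := by
      rw [mul_sum]
      apply sum_congr rfl
      intro j _
      ring
    rw [e2]
    calc Real.exp (-x) * ∑ j ∈ range (k + 1), x ^ j / j.factorial ≤ Real.exp (-x) * Real.exp x := mul_le_mul_of_nonneg_left e1 (Real.exp_pos _).le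
      _ = 1 := by rw [← Real.exp_add]; simp
  have h0 : 0 ≤ FK k x := by
    unfold FK
    exact sum_nonneg fun j _ => by positivity
  have h2 : Real.exp (-(x' - x)) * FK k x ≤ FK k x' := by
    unfold FK
    rw [mul_sum]
    apply sum_le_sum
    intro j _
    have e1 : Real.exp (-x') = Real.exp (-(x' - x)) * Real.exp (-x) := by rw [← Real.exp_add]; congr 1; ring
    rw [e1]
    have e2 : x ^ j ≤ x' ^ j := pow_le_pow_left₀ hx hxx j
    have e3 : 0 ≤ Real.exp (-(x' - x)) * Real.exp (-x) / j.factorial := by positivity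
    calc Real.exp (-(x' - x)) * (Real.exp (-x) * x ^ j / j.factorial) = (Real.exp (-(x' - x)) * Real.exp (-x) / j.factorial) * x ^ j := by ring
      _ ≤ (Real.exp (-(x' - x)) * Real.exp (-x) / j.factorial) * x' ^ j := mul_le_mul_of_nonneg_left e2 e3
      _ = _ := by ring
  have h3 := Real.add_one_le_exp (-(x' - x))
  have h4 : (1 - Real.exp (-(x' - x))) * FK k x ≤ (x' - x) * 1 := by
    apply mul_le_mul _ h1 h0 (by linarith)
    linarith
  linarith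

/-- the number of the `n ≤ N` with at most `k` primes among the first `y` moved points -/
def cntQ (S : ℕ → Finset ℕ) (h N y k : ℕ) : ℕ := ((Icc 1 N).filter (fun n => cntW S h n y ≤ k)).card

lemma cntQ_anti (S : ℕ → Finset ℕ) (h N y y' k : ℕ) (hy : y ≤ y') : cntQ S h N y' k ≤ cntQ S h N y k := by
  unfold cntQ
  apply card_le_card
  intro n hn
  rw [mem_filter] at hn ⊢
  exact ⟨hn.1, (cntW_mono S h n y y' hy).trans hn.2⟩

lemma cntQ_sum (S : ℕ → Finset ℕ) (h N y k : ℕ) :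
    (cntQ S h N y k : ℝ) = ∑ i ∈ range (k + 1), (((Icc 1 N).filter (fun n => cntW S h n y = i)).card : ℝ) := by
  classical
  unfold cntQ
  have e1 : (Icc 1 N).filter (fun n => cntW S h n y ≤ k) = (range (k + 1)).biUnion (fun i => (Icc 1 N).filter (fun n => cntW S h n y = i)) := by
    ext n
    simp only [mem_filter, mem_biUnion, mem_range]
    constructor
    · rintro ⟨h1, h2⟩
      exact ⟨cntW S h n y, by omega, h1, rfl⟩
    · rintro ⟨i, hi, h1, h2⟩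
      exact ⟨h1, by omega⟩
  rw [e1, card_biUnion]
  · push_cast
    rfl
  · intro i _ j _ hij
    rw [Function.onFun, disjoint_left]
    intro n hn hn'
    rw [mem_filter] at hn hn'
    exact hij (hn.2.symm.trans hn'.2)

set_option maxHeartbeats 1000000 in
/-- the Poisson law -/
theorem las_pois (l : ℕ) (hl : 2 ≤ l) : ∃ C : ℝ, ∀ (H B Λ k₀ : ℕ) (ε : ℝ), 0 < ε → ∃ N₀ : ℕ, ∀ A : Set ℕ,
    (∀ x : ℕ, 1 ≤ x → ∃ a ∈ A, x ≤ a ∧ a ≤ l * x) → ∀ N : ℕ, N₀ ≤ N → ∀ h : ℕ, h ≤ B * N →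
    ∃ S : ℕ → Finset ℕ, (∀ j, ∀ a ∈ S j, a ∈ A ∧ Real.log N ^ H ≤ a ∧ (a : ℝ) ≤ N / Real.log N ^ H) ∧
      (∀ j, ((S j).card : ℝ) ≤ C * Real.log (Real.log N) ^ 2) ∧
      ∀ y : ℕ, (y : ℝ) ≤ Λ * Real.log N → ∀ k ≤ k₀, |(cntQ S h N y k : ℝ) / N - FK k (y / Real.log N)| ≤ ε := by
  classical
  obtain ⟨b, hb, C₀, hC⟩ := las_lawP l 1 hl le_rfl (2 * (2 * 2 + 4) + 6)
  refine ⟨|C₀|, fun H B Λ k₀ ε hε => ?_⟩
  obtain ⟨c, N₁, h0⟩ := hC H (B + 4)
  obtain ⟨θ, hθ⟩ : ∃ θ : ℝ, θ = min 1 (ε / 3) := ⟨_, rfl⟩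
  have hθ0 : 0 < θ := by rw [hθ]; exact lt_min one_pos (by positivity)
  have hθ1 : θ ≤ 1 := by rw [hθ]; exact min_le_left _ _
  have hθ2 : 3 * θ ≤ ε := by
    have : θ ≤ ε / 3 := by rw [hθ]; exact min_le_right _ _
    linarith
  obtain ⟨I, hI⟩ : ∃ I : ℕ, I = ⌈2 * Λ / θ⌉₊ + 1 := ⟨_, rfl⟩
  have hI1 : 1 ≤ I := by omega
  have hI2 : 2 * Λ / θ + 1 ≤ I := by
    rw [hI]
    push_cast
    have := Nat.le_ceil (2 * (Λ : ℝ) / θ)
    linarith
  have hI0 : (0 : ℝ) < I := by exact_mod_cast hI1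
  obtain ⟨δ, hδ, Z, hZ, hinv⟩ := po_inv (I : ℝ) hI0.le (k₀ + 1) (θ / (k₀ + 1)) (by positivity)
  obtain ⟨η, hη⟩ : ∃ η : ℝ, η = δ ^ 2 / (2 * ((I + 1) * (Z.card + 1))) := ⟨_, rfl⟩
  have hη0 : 0 < η := by rw [hη]; positivity
  obtain ⟨n2, h2⟩ := po_second b c B (b ^ (B + 5)) I hb η hη0
  obtain ⟨n4, h4⟩ := ev_L' (8 + 2 / θ)
  refine ⟨N₁ + n2 + n4 + 3, fun A hA N hN h hh => ?_⟩
  have hL := h4 N (by omega)
  obtain ⟨L, hLd⟩ : ∃ L, L = Real.log (N : ℝ) := ⟨_, rfl⟩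
  obtain ⟨nn, Ω, pr, Sf, g1, g2, g3⟩ := h0 A hA N (by omega)
  obtain ⟨K, hK⟩ : ∃ K, K = Nat.log b N + 1 + (B + 4) := ⟨_, rfl⟩
  have hK1 : (B + 4) * N ≤ b ^ K := by
    have e1 : N < b ^ (Nat.log b N + 1) := Nat.lt_pow_succ_log_self (by omega) _
    have e2 : B + 4 < b ^ (B + 4) := Nat.lt_pow_self (by omega)
    calc (B + 4) * N ≤ b ^ (B + 4) * b ^ (Nat.log b N + 1) := Nat.mul_le_mul e2.le e1.le
      _ = b ^ K := by rw [hK, ← pow_add, add_comm]
  have hK2 : b ^ K ≤ b ^ (B + 5) * N := by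
    have e1 : b ^ Nat.log b N ≤ N := Nat.pow_log_le_self b (by omega)
    calc b ^ K = b ^ (B + 5) * b ^ Nat.log b N := by rw [hK, ← pow_add]; congr 1; omega
      _ ≤ b ^ (B + 5) * N := Nat.mul_le_mul_left _ e1
  have hsec := h2 N (by omega) K hK1 hK2
  rw [← hLd] at hL hsec g3 ⊢
  have u1 : 0 ≤ 2 / θ := by positivity
  have hL8 : 8 ≤ L := by linarith
  have hL0 : 0 < L := by linarith
  have hN3 : (3 : ℝ) ≤ N := by exact_mod_cast (by omega : 3 ≤ N)
  have hN0 : (0 : ℝ) < N := by linarith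
  have hθL : 2 ≤ θ * L := by
    have : 2 / θ ≤ L := by linarith
    rw [div_le_iff₀ hθ0] at this
    linarith
  obtain ⟨w, hw⟩ : ∃ w : ℕ, w = ⌊θ * L⌋₊ := ⟨_, rfl⟩
  have hw1 : (w : ℝ) ≤ θ * L := by rw [hw]; exact Nat.floor_le (by positivity)
  have hw2 : θ * L / 2 ≤ w := by
    have : θ * L < w + 1 := by rw [hw]; exact Nat.lt_floor_add_one _
    linarith
  have hw3 : (w : ℝ) ≤ L := hw1.trans (mul_le_of_le_one_left hL0.le hθ1)
  have hw0' : (0 : ℝ) < w := by linarith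
  have hw0 : 0 < w := by exact_mod_cast hw0'
  obtain ⟨s, hs⟩ : ∃ s, s = I * w := ⟨_, rfl⟩
  have hsr : (s : ℝ) ≤ I * L := by
    rw [hs]
    push_cast
    exact mul_le_mul_of_nonneg_left hw3 hI0.le
  obtain ⟨Y, hY⟩ : ∃ Y : (Fin nn → ℕ) → ℕ, Y = fun v => ∑ a ∈ Sf v, a := ⟨_, rfl⟩
  have hYN : ∀ v ∈ Ω, Y v ≤ N := by
    intro v hv
    have := (g3 v hv).2.2.1
    rw [hY]
    simp only
    omega
  have hsec' := hsec (Fin nn → ℕ) inferInstance Ω (fun _ => pr) Y (by rw [hY, hK]; exact g2) g1 hYN h hh s hsr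
  obtain ⟨F, hF⟩ : ∃ F : (Fin s → Fin nn → ℕ) → ℕ → ℝ → ℝ, F = fun (ω : Fin s → Fin nn → ℕ) (y : ℕ) (z : ℝ) => ∑ n ∈ Icc 1 N,
      (∏ j : Fin s, (1 - (if j.val < y then (1 - z) * Pr (n + (h + j.val + Y (ω j))) else 0)) - Real.exp (-((1 - z) * ((y : ℝ) / L)))) := ⟨_, rfl⟩
  obtain ⟨FF, hFF⟩ : ∃ FF : (Fin s → Fin nn → ℕ) → ℝ, FF = fun ω => ∑ i ∈ range (I + 1), ∑ z ∈ Z, F ω (i * w) z ^ 2 := ⟨_, rfl⟩
  have hEF : ∑ ω ∈ Fintype.piFinset (fun _ : Fin s => Ω), (∏ _i : Fin s, pr) * FF ω ≤ (I + 1) * (Z.card + 1) * (η * N ^ 2) := by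
    have e1 : ∀ ω ∈ Fintype.piFinset (fun _ : Fin s => Ω), (∏ _i : Fin s, pr) * FF ω =
        ∑ i ∈ range (I + 1), ∑ z ∈ Z, (∏ _i : Fin s, pr) * F ω (i * w) z ^ 2 := by
      intro ω _
      rw [hFF, mul_sum]
      apply sum_congr rfl
      intro i _
      rw [mul_sum]
    rw [sum_congr rfl e1, sum_comm]
    have e2 : ∀ i ∈ range (I + 1), ∑ ω ∈ Fintype.piFinset (fun _ : Fin s => Ω), ∑ z ∈ Z, (∏ _i : Fin s, pr) * F ω (i * w) z ^ 2 ≤ (Z.card + 1) * (η * N ^ 2) := by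
      intro i hi
      rw [mem_range] at hi
      rw [sum_comm]
      have e3 : ∀ z ∈ Z, ∑ ω ∈ Fintype.piFinset (fun _ : Fin s => Ω), (∏ _i : Fin s, pr) * F ω (i * w) z ^ 2 ≤ η * N ^ 2 := by
        intro z hz
        rw [hF]
        exact hsec' (i * w) (by rw [hs]; exact Nat.mul_le_mul_right _ (by omega)) (1 - z) (by linarith [(hZ z hz).2]) (by linarith [(hZ z hz).1])
      refine (sum_le_sum e3).trans ?_
      rw [sum_const, nsmul_eq_mul]
      apply mul_le_mul_of_nonneg_right _ (by positivity)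
      linarith
    refine (sum_le_sum e2).trans (le_of_eq ?_)
    rw [sum_const, card_range, nsmul_eq_mul]
    push_cast
    ring
  have hpr0 : ∀ v ∈ Ω, (0 : ℝ) ≤ pr := fun v hv => g2.nonneg v hv
  obtain ⟨ω, hω, hωF⟩ := exists_le_avg (Fintype.piFinset (fun _ : Fin s => Ω)) (fun _ => ∏ _i : Fin s, pr) FF (by
    intro ω hω
    exact prod_nonneg fun i _ => hpr0 (ω i) (Fintype.mem_piFinset.1 hω i)) (total_w (fun _ : Fin s => Ω) (fun _ _ => pr) (fun _ => g1))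
    ((I + 1) * (Z.card + 1) * (η * N ^ 2)) (by positivity) hEF
  have hωi : ∀ j, ω j ∈ Ω := fun j => Fintype.mem_piFinset.1 hω j
  obtain ⟨S, hS⟩ : ∃ S : ℕ → Finset ℕ, S = fun j => if hj : j < s then Sf (ω ⟨j, hj⟩) else ∅ := ⟨_, rfl⟩
  have hS1 : ∀ j (hj : j < s), S j = Sf (ω ⟨j, hj⟩) := by
    intro j hj
    rw [hS]
    exact dif_pos hj
  have hS2 : ∀ j, ¬ j < s → S j = ∅ := by
    intro j hj
    rw [hS]
    exact dif_neg hj
  refine ⟨S, fun j a ha => ?_, fun j => ?_, ?_⟩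
  · by_cases hj : j < s
    · rw [hS1 j hj] at ha
      exact (g3 _ (hωi ⟨j, hj⟩)).1 a ha
    · rw [hS2 j hj] at ha
      simp at ha
  · by_cases hj : j < s
    · rw [hS1 j hj]
      refine (g3 _ (hωi ⟨j, hj⟩)).2.1.trans ?_
      exact mul_le_mul_of_nonneg_right (le_abs_self _) (sq_nonneg _)
    · rw [hS2 j hj, card_empty, Nat.cast_zero]
      positivity
  -- the grid
  have hgrid : ∀ i ≤ I, ∀ k ≤ k₀, |(cntQ S h N (i * w) k : ℝ) / N - FK k (((i * w : ℕ) : ℝ) / L)| ≤ θ := by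
    intro i hi k hk
    have hx0 : (0 : ℝ) ≤ ((i * w : ℕ) : ℝ) / L := by positivity
    have hx1 : ((i * w : ℕ) : ℝ) / L ≤ I := by
      rw [div_le_iff₀ hL0]
      refine le_trans ?_ hsr
      rw [hs]
      exact_mod_cast Nat.mul_le_mul_right _ hi
    have e0 : ∀ z ∈ Z, |∑ n ∈ Icc 1 N, z ^ cntW S h n (i * w) - N * Real.exp (-((1 - z) * (((i * w : ℕ) : ℝ) / L)))| ≤ δ * N := by
      intro z hz
      have f0 : ∑ n ∈ Icc 1 N, z ^ cntW S h n (i * w) - N * Real.exp (-((1 - z) * (((i * w : ℕ) : ℝ) / L))) = F ω (i * w) z := by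
        rw [hF]
        simp only
        rw [sum_sub_distrib, sum_const, Nat.card_Icc, Nat.add_sub_cancel, nsmul_eq_mul]
        congr 1
        apply sum_congr rfl
        intro n _
        rw [po_prod s n h (i * w) S (by rw [hs]; exact Nat.mul_le_mul_right _ hi) (1 - z) (fun j => Y (ω j)) (fun j => by
          rw [hS1 j.val j.isLt, hY])]
        congr 1
        ring
      rw [f0]
      have f1 : F ω (i * w) z ^ 2 ≤ FF ω := by
        rw [hFF]
        have g1 : F ω (i * w) z ^ 2 ≤ ∑ z ∈ Z, F ω (i * w) z ^ 2 :=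
          single_le_sum (f := fun z => F ω (i * w) z ^ 2) (fun z _ => sq_nonneg _) hz
        exact g1.trans (single_le_sum (f := fun i => ∑ z ∈ Z, F ω (i * w) z ^ 2) (fun i _ => sum_nonneg fun z _ => sq_nonneg _) (mem_range.2 (by omega)))
      have f2 : F ω (i * w) z ^ 2 ≤ (δ * N) ^ 2 := by
        refine (f1.trans hωF).trans (le_of_eq ?_)
        rw [hη]
        field_simp
      exact abs_le_of_sq_le_sq f2 (by positivity)
    have e1 := hinv (((i * w : ℕ) : ℝ) / L) hx0 hx1 N (by omega) (fun n => cntW S h n (i * w)) e0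
    have e2 : (cntQ S h N (i * w) k : ℝ) / N - FK k (((i * w : ℕ) : ℝ) / L) =
        (∑ j ∈ range (k + 1), ((((Icc 1 N).filter (fun n => cntW S h n (i * w) = j)).card : ℝ) -
          N * (Real.exp (-(((i * w : ℕ) : ℝ) / L)) * (((i * w : ℕ) : ℝ) / L) ^ j / j.factorial))) / N := by
      rw [cntQ_sum, sum_sub_distrib, ← mul_sum, sub_div, mul_div_cancel_left₀ _ hN0.ne']
      rfl
    rw [e2, abs_div, abs_of_pos hN0, div_le_iff₀ hN0]
    refine (abs_sum_le_sum_abs _ _).trans ?_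
    have e3 : ∀ j ∈ range (k + 1), |(((Icc 1 N).filter (fun n => cntW S h n (i * w) = j)).card : ℝ) -
          N * (Real.exp (-(((i * w : ℕ) : ℝ) / L)) * (((i * w : ℕ) : ℝ) / L) ^ j / j.factorial)| ≤ θ / (k₀ + 1) * N := by
      intro j hj
      rw [mem_range] at hj
      exact e1 j (by omega)
    refine (sum_le_sum e3).trans ?_
    rw [sum_const, card_range, nsmul_eq_mul]
    have e4 : ((k + 1 : ℕ) : ℝ) ≤ k₀ + 1 := by exact_mod_cast (by omega : k + 1 ≤ k₀ + 1)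
    calc ((k + 1 : ℕ) : ℝ) * (θ / (k₀ + 1) * N) ≤ (k₀ + 1) * (θ / (k₀ + 1) * N) := mul_le_mul_of_nonneg_right e4 (by positivity)
      _ = θ * N := by field_simp
  intro y hy k hk
  have hmono : ∀ y₁ y₂ : ℕ, y₁ ≤ y₂ → (cntQ S h N y₂ k : ℝ) / N ≤ cntQ S h N y₁ k / N := by
    intro y₁ y₂ hy
    apply div_le_div_of_nonneg_right _ hN0.le
    exact_mod_cast cntQ_anti S h N y₁ y₂ k hy
  obtain ⟨i, hi⟩ : ∃ i, i = y / w := ⟨_, rfl⟩
  have hiy : i * w ≤ y := by rw [hi]; exact Nat.div_mul_le_self y w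
  have hiy' : y < (i + 1) * w := by
    rw [hi, add_mul, one_mul, mul_comm]
    have := Nat.div_add_mod y w
    have := Nat.mod_lt y hw0
    omega
  have hiI : i + 1 ≤ I := by
    have e1 : (y : ℝ) < I * w := by
      calc (y : ℝ) ≤ Λ * L := hy
        _ < (2 * Λ / θ + 1) * (θ * L / 2) := by
            have : (2 * (Λ : ℝ) / θ + 1) * (θ * L / 2) = Λ * L + θ * L / 2 := by field_simp
            rw [this]
            linarith
        _ ≤ I * w := mul_le_mul hI2 hw2 (by positivity) hI0.le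
    have e2 : y < I * w := by exact_mod_cast e1
    have e3 : i * w < I * w := lt_of_le_of_lt hiy e2
    exact Nat.succ_le_of_lt (lt_of_mul_lt_mul_right e3 (Nat.zero_le _))
  have a1 := abs_le.1 (hgrid i (by omega) k hk)
  have a2 := abs_le.1 (hgrid (i + 1) hiI k hk)
  have a3 := hmono _ _ hiy
  have a4 := hmono _ _ hiy'.le
  have hr1 : ((i * w : ℕ) : ℝ) ≤ y := by exact_mod_cast hiy
  have hr2 : (y : ℝ) ≤ (((i + 1) * w : ℕ) : ℝ) := by exact_mod_cast hiy'.le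
  have hr3 : (((i + 1) * w : ℕ) : ℝ) = ((i * w : ℕ) : ℝ) + w := by push_cast; ring
  have a5 := FK_le k (((i * w : ℕ) : ℝ) / L) (y / L) (by positivity) (div_le_div_of_nonneg_right hr1 hL0.le)
  have a6 := FK_le k ((y : ℝ) / L) ((((i + 1) * w : ℕ) : ℝ) / L) (by positivity) (div_le_div_of_nonneg_right hr2 hL0.le)
  have a7 : (y : ℝ) / L - ((i * w : ℕ) : ℝ) / L ≤ θ := by
    rw [← sub_div, div_le_iff₀ hL0]
    linarith
  have a8 : (((i + 1) * w : ℕ) : ℝ) / L - y / L ≤ θ := by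
    rw [← sub_div, div_le_iff₀ hL0]
    linarith
  rw [abs_le]
  constructor <;> linarith [a1.1, a1.2, a2.1, a2.2]

end Pool.Agent.Y885
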