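import Pool.Agent.Y885.WP4

set_option autoImplicit false

/-! Primes in windows whose points are shifted by few elements of a set which meets every `[y, l y]`. -/

namespace Pool.Agent.Y885
open Finset
open Pool.Agent.H373R2.T7
open Pool.Agent.W93.TD (total_w)

lemma exists_le_avg {β : Type} (Ω : Finset β) (w Φ : β → ℝ) (hw : ∀ ω ∈ Ω, 0 ≤ w ω) (hsum : ∑ ω ∈ Ω, w ω = 1) (X : ℝ) (hX : 0 < X)
    (h : ∑ ω ∈ Ω, w ω * Φ ω ≤ X) : ∃ ω ∈ Ω, Φ ω ≤ 2 * X := by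
  by_contra hcon
  push Not at hcon
  have h1 : ∑ ω ∈ Ω, w ω * (2 * X) ≤ ∑ ω ∈ Ω, w ω * Φ ω := sum_le_sum fun ω hω => mul_le_mul_of_nonneg_left (hcon ω hω).le (hw ω hω)
  rw [← sum_mul, hsum, one_mul] at h1
  linarith

/-- the number of the `j < y` for which `n + h + j + ∑ S j` is a prime -/
def cntW (S : ℕ → Finset ℕ) (h n y : ℕ) : ℕ := ((range y).filter (fun j => (n + (h + j + ∑ a ∈ S j, a)).Prime)).card

lemma cntW_mono (S : ℕ → Finset ℕ) (h n y y' : ℕ) (hy : y ≤ y') : cntW S h n y ≤ cntW S h n y' := by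
  unfold cntW
  apply card_le_card
  intro j hj
  rw [mem_filter, mem_range] at hj ⊢
  exact ⟨by omega, hj.2⟩

lemma W_bounds (S : ℕ → Finset ℕ) (h n H : ℕ) (lo hi : ℝ) (h1 : ∀ j < H, (n + (h + j + ∑ a ∈ S j, a)).Prime →
      lo ≤ Real.log ((n + (h + j + ∑ a ∈ S j, a) : ℕ) : ℝ) ∧ Real.log ((n + (h + j + ∑ a ∈ S j, a) : ℕ) : ℝ) ≤ hi)
    (h2 : ∀ j < H, lamI ((n : ℤ) + ((h + j + ∑ a ∈ S j, a : ℕ) : ℤ)) ≠ 0 → (n + (h + j + ∑ a ∈ S j, a)).Prime) :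
    lo * cntW S h n H ≤ ∑ j ∈ range H, lamI ((n : ℤ) + ((h + j + ∑ a ∈ S j, a : ℕ) : ℤ)) ∧
    ∑ j ∈ range H, lamI ((n : ℤ) + ((h + j + ∑ a ∈ S j, a : ℕ) : ℤ)) ≤ hi * cntW S h n H := by
  classical
  have h3 : ∑ j ∈ range H, lamI ((n : ℤ) + ((h + j + ∑ a ∈ S j, a : ℕ) : ℤ)) =
      ∑ j ∈ (range H).filter (fun j => (n + (h + j + ∑ a ∈ S j, a)).Prime), Real.log ((n + (h + j + ∑ a ∈ S j, a) : ℕ) : ℝ) := by
    rw [sum_filter]
    apply sum_congr rfl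
    intro j hj
    rw [mem_range] at hj
    split_ifs with hp
    · unfold lamI
      have e1 : (n : ℤ) + ((h + j + ∑ a ∈ S j, a : ℕ) : ℤ) = ((n + (h + j + ∑ a ∈ S j, a) : ℕ) : ℤ) := by push_cast; ring
      rw [e1, if_pos (by exact_mod_cast hp.one_le), Int.toNat_natCast, ArithmeticFunction.vonMangoldt_apply_prime hp]
    · by_contra hne
      exact hp (h2 j hj hne)
  rw [h3]
  unfold cntW
  constructor
  · rw [mul_comm, ← nsmul_eq_mul, ← sum_const]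
    apply sum_le_sum
    intro j hj
    rw [mem_filter, mem_range] at hj
    exact (h1 j hj.1 hj.2).1
  · rw [mul_comm, ← nsmul_eq_mul, ← sum_const]
    apply sum_le_sum
    intro j hj
    rw [mem_filter, mem_range] at hj
    exact (h1 j hj.1 hj.2).2

set_option maxHeartbeats 1000000 in
open Classical in
/-- primes in windows -/
theorem las_windows (l κ : ℕ) (hl : 2 ≤ l) : ∃ C : ℝ, ∀ (H B : ℕ) (ε : ℝ), 0 < ε → ∃ C₁ : ℝ, ∃ N₀ : ℕ, ∀ A : Set ℕ,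
    (∀ y : ℕ, 1 ≤ y → ∃ a ∈ A, y ≤ a ∧ a ≤ l * y) → ∀ N : ℕ, N₀ ≤ N → ∀ h : ℕ, h ≤ B * N → ∀ Y₀ : ℕ, 1 ≤ Y₀ →
    ∃ S : ℕ → Finset ℕ, (∀ j, ∀ a ∈ S j, a ∈ A ∧ Real.log N ^ H ≤ a ∧ (a : ℝ) ≤ N / Real.log N ^ H) ∧
      (∀ j, ((S j).card : ℝ) ≤ C * Real.log (Real.log N) ^ 2) ∧
      (((Icc 1 N).filter (fun n => ∃ y : ℕ, Y₀ ≤ y ∧ (y : ℝ) ≤ Real.log N ^ κ ∧
        ε * (y / Real.log N) < |(cntW S h n y : ℝ) - y / Real.log N|)).card : ℝ) ≤ C₁ * (N * (Real.log N / Y₀)) := by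
  obtain ⟨b, hb, C₀, hC⟩ := las_lawP l 1 hl le_rfl (2 * (κ + 1 + 4) + 6)
  refine ⟨|C₀|, fun H B ε₀ hε₀ => ?_⟩
  obtain ⟨ε, hε⟩ : ∃ ε, ε = min ε₀ 1 := ⟨_, rfl⟩
  have hε0 : 0 < ε := by rw [hε]; exact lt_min hε₀ one_pos
  have hε1 : ε ≤ 1 := by rw [hε]; exact min_le_right _ _
  have hε2 : ε ≤ ε₀ := by rw [hε]; exact min_le_left _ _
  obtain ⟨c, N₁, h0⟩ := hC H (B + 4)
  obtain ⟨n2, h2⟩ := wp_exp b 20 c (κ + 1) B (b ^ (B + 5)) hb (by norm_num)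
  obtain ⟨n3, h3⟩ := sizeL κ 0 (ε / 8) (by positivity)
  obtain ⟨n4, h4⟩ := ev_L' (16 * (B + 3) + 8)
  obtain ⟨n5, h5⟩ := ev_log' (2 * κ + 2) 1
  obtain ⟨C₂, hC₂⟩ : ∃ C₂ : ℝ, C₂ = 2 + (2 * (Real.exp 8 + 3) + 7) * (2 * (B + 3)) := ⟨_, rfl⟩
  have hC₂0 : 0 < C₂ := by rw [hC₂]; positivity
  refine ⟨8 * C₂ / (ε ^ 3 / 256) + 2, N₁ + n2 + n3 + n4 + n5 + 3, fun A hA N hN h hh Y₀ hY₀ => ?_⟩
  have hL := h4 N (by omega)
  have hsq := h5 N (by omega)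
  obtain ⟨L, hLd⟩ : ∃ L, L = Real.log (N : ℝ) := ⟨_, rfl⟩
  rw [← hLd] at hL hsq ⊢
  rw [one_mul] at hsq
  have hbn : 0 < b := by omega
  have q3 : (0 : ℝ) ≤ B := Nat.cast_nonneg _
  have hL8 : 8 ≤ L := by linarith
  have hL1 : 1 ≤ L := by linarith
  have hL0 : 0 < L := by linarith
  have hN3 : (3 : ℝ) ≤ N := by exact_mod_cast (by omega : 3 ≤ N)
  have hN0 : (0 : ℝ) < N := by linarith
  have hYr : (1 : ℝ) ≤ Y₀ := by exact_mod_cast hY₀
  have hc0 : 0 < ε ^ 3 / 256 := by positivity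
  by_cases hYL : L ^ κ < Y₀
  · refine ⟨fun _ => ∅, fun j a ha => by simp at ha, fun j => ?_, ?_⟩
    · rw [card_empty, Nat.cast_zero]
      positivity
    · rw [filter_eq_empty_iff.2, card_empty, Nat.cast_zero]
      · positivity
      · rintro n _ ⟨y, hy1, hy2, _⟩
        have : (Y₀ : ℝ) ≤ y := by exact_mod_cast hy1
        linarith
  push Not at hYL
  obtain ⟨nn, Ω, pr, Sf, g1, g2, g3⟩ := h0 A hA N (by omega)
  obtain ⟨R, hR⟩ : ∃ R, R = ⌊L ^ κ⌋₊ := ⟨_, rfl⟩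
  have hRL : (R : ℝ) ≤ L ^ κ := by rw [hR]; exact Nat.floor_le (by positivity)
  obtain ⟨s, hs⟩ : ∃ s, s = 2 * R := ⟨_, rfl⟩
  have hsr : (s : ℝ) = 2 * R := by rw [hs]; push_cast; ring
  have hsL : (s : ℝ) ≤ L ^ (κ + 1) := by
    rw [hsr, pow_succ]
    have : 0 ≤ L ^ κ := by positivity
    nlinarith
  obtain ⟨K, hK⟩ : ∃ K, K = Nat.log b N + 1 + (B + 4) := ⟨_, rfl⟩
  have hK1 : (B + 4) * N ≤ b ^ K := by
    have e1 : N < b ^ (Nat.log b N + 1) := Nat.lt_pow_succ_log_self (by omega) _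
    have e2 : B + 4 < b ^ (B + 4) := Nat.lt_pow_self (by omega)
    calc (B + 4) * N ≤ b ^ (B + 4) * b ^ (Nat.log b N + 1) := Nat.mul_le_mul e2.le e1.le
      _ = b ^ K := by rw [hK, ← pow_add, add_comm]
  have hK2 : b ^ K ≤ b ^ (B + 5) * N := by
    have e1 : b ^ Nat.log b N ≤ N := Nat.pow_log_le_self b (by omega)
    calc b ^ K = b ^ (B + 5) * b ^ Nat.log b N := by rw [hK, ← pow_add]; congr 1; omega
      _ ≤ b ^ (B + 5) * N := Nat.mul_le_mul_left _ e1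
  obtain ⟨Y, hY⟩ : ∃ Y : (Fin nn → ℕ) → ℕ, Y = fun v => ∑ a ∈ Sf v, a := ⟨_, rfl⟩
  have hYN : ∀ v ∈ Ω, Y v ≤ N := by
    intro v hv
    have := (g3 v hv).2.2.1
    rw [hY]
    simp only
    omega
  have hvar := h2 N (by omega) K hK1 hK2 (Fin nn → ℕ) inferInstance Ω (fun _ => pr) Y (by rw [hY, hK]; exact g2) g1 hYN h hh s
    (by rw [← hLd]; exact hsL)
  rw [← hC₂, ← hLd] at hvar
  -- the choice
  obtain ⟨m, hm⟩ : ∃ m, m = (Y₀ + 1) / 2 := ⟨_, rfl⟩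
  have hm1 : 1 ≤ m := by omega
  have hm2 : (Y₀ : ℝ) ≤ 2 * m := by exact_mod_cast (by omega : Y₀ ≤ 2 * m)
  have hm0 : (0 : ℝ) < m := by exact_mod_cast hm1
  have hcardJ : ∀ H' : ℕ, H' ≤ s → (((univ : Finset (Fin s)).filter (fun j => j.val < H')).card : ℝ) = H' := by
    intro H' hH'
    have := fin_filter_sum s H' hH' (fun _ => (1 : ℝ))
    rw [sum_const, sum_const, nsmul_eq_mul, nsmul_eq_mul, card_range, mul_one, mul_one] at this
    exact this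
  obtain ⟨WW, hWW⟩ : ∃ WW : (Fin s → Fin nn → ℕ) → ℕ → ℕ → ℝ, WW = fun (ω : Fin s → Fin nn → ℕ) (n H' : ℕ) =>
      ∑ j ∈ (univ : Finset (Fin s)).filter (fun j => j.val < H'), lamI ((n : ℤ) + ((h + j.val + Y (ω j) : ℕ) : ℤ)) := ⟨_, rfl⟩
  have hWWr : ∀ ω n H', WW ω n H' = ∑ j ∈ (univ : Finset (Fin s)).filter (fun j => j.val < H'), lamI ((n : ℤ) + ((h + j.val + Y (ω j) : ℕ) : ℤ)) :=
    fun ω n H' => by rw [hWW]
  obtain ⟨FF, hFF⟩ : ∃ FF : (Fin s → Fin nn → ℕ) → ℝ, FF = fun (ω : Fin s → Fin nn → ℕ) => ∑ H' ∈ Icc m s, 1 / (H' : ℝ) ^ 3 * ∑ n ∈ Icc 1 N, (WW ω n H' - H') ^ 2 := ⟨_, rfl⟩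
  have hEF : ∑ ω ∈ Fintype.piFinset (fun _ : Fin s => Ω), (∏ _i : Fin s, pr) * FF ω ≤ 4 * C₂ * (N * (L / Y₀)) := by
    have e1 : ∀ ω ∈ Fintype.piFinset (fun _ : Fin s => Ω), (∏ _i : Fin s, pr) * FF ω =
        ∑ H' ∈ Icc m s, 1 / (H' : ℝ) ^ 3 * ((∏ _i : Fin s, pr) * ∑ n ∈ Icc 1 N, (WW ω n H' - H') ^ 2) := by
      intro ω _
      rw [hFF, mul_sum]
      apply sum_congr rfl
      intro H' _
      ring
    rw [sum_congr rfl e1, sum_comm]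
    have e2 : ∀ H' ∈ Icc m s, ∑ ω ∈ Fintype.piFinset (fun _ : Fin s => Ω), 1 / (H' : ℝ) ^ 3 * ((∏ _i : Fin s, pr) * ∑ n ∈ Icc 1 N, (WW ω n H' - H') ^ 2) ≤
        C₂ * (N * L) * (1 / (H' : ℝ) ^ 2) := by
      intro H' hH'
      rw [mem_Icc] at hH'
      have hH0 : (0 : ℝ) < H' := by exact_mod_cast (by omega : 0 < H')
      rw [← mul_sum]
      have e3 := hvar H' hH'.2
      have e4 : ∑ ω ∈ Fintype.piFinset (fun _ : Fin s => Ω), (∏ _i : Fin s, pr) * ∑ n ∈ Icc 1 N, (WW ω n H' - H') ^ 2 ≤ C₂ * (N * (H' * L)) := by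
        refine le_trans (le_of_eq ?_) e3
        apply sum_congr rfl
        intro ω _
        congr 1
        apply sum_congr rfl
        intro n _
        rw [hWWr, sum_sub_distrib, sum_const, nsmul_eq_mul, mul_one, hcardJ H' hH'.2]
      calc 1 / (H' : ℝ) ^ 3 * ∑ ω ∈ Fintype.piFinset (fun _ : Fin s => Ω), (∏ _i : Fin s, pr) * ∑ n ∈ Icc 1 N, (WW ω n H' - H') ^ 2
          ≤ 1 / (H' : ℝ) ^ 3 * (C₂ * (N * (H' * L))) := mul_le_mul_of_nonneg_left e4 (by positivity)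
        _ = C₂ * (N * L) * (1 / (H' : ℝ) ^ 2) := by field_simp
    refine (sum_le_sum e2).trans ?_
    rw [← mul_sum]
    have e5 := sum_inv_sq' m s hm1
    have e6 : (2 : ℝ) / m ≤ 4 / Y₀ := by
      rw [div_le_div_iff₀ hm0 (by linarith)]
      linarith
    calc C₂ * (N * L) * ∑ H' ∈ Icc m s, 1 / (H' : ℝ) ^ 2 ≤ C₂ * (N * L) * (4 / Y₀) :=
          mul_le_mul_of_nonneg_left (e5.trans e6) (by positivity)
      _ = _ := by ring
  have hpr0 : ∀ v ∈ Ω, (0 : ℝ) ≤ pr := fun v hv => g2.nonneg v hv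
  obtain ⟨ω, hω, hωF⟩ := exists_le_avg (Fintype.piFinset (fun _ : Fin s => Ω)) (fun _ => ∏ _i : Fin s, pr) FF (by
    intro ω hω
    exact prod_nonneg fun i _ => hpr0 (ω i) (Fintype.mem_piFinset.1 hω i)) (total_w (fun _ : Fin s => Ω) (fun _ _ => pr) (fun _ => g1))
    (4 * C₂ * (N * (L / Y₀))) (by positivity) hEF
  have hωi : ∀ j, ω j ∈ Ω := fun j => Fintype.mem_piFinset.1 hω j
  obtain ⟨S, hS⟩ : ∃ S : ℕ → Finset ℕ, S = fun j => if hj : j < s then Sf (ω ⟨j, hj⟩) else ∅ := ⟨_, rfl⟩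
  have hS1 : ∀ j (hj : j < s), S j = Sf (ω ⟨j, hj⟩) := by
    intro j hj
    rw [hS]
    exact dif_pos hj
  have hS2 : ∀ j, ¬ j < s → S j = ∅ := by
    intro j hj
    rw [hS]
    exact dif_neg hj
  have hSN : ∀ j, ∑ a ∈ S j, a ≤ N := by
    intro j
    by_cases hj : j < s
    · rw [hS1 j hj]
      have := hYN _ (hωi ⟨j, hj⟩)
      rw [hY] at this
      exact this
    · rw [hS2 j hj, sum_empty]
      exact Nat.zero_le _
  have hWS : ∀ n H', H' ≤ s → WW ω n H' = ∑ j ∈ range H', lamI ((n : ℤ) + ((h + j + ∑ a ∈ S j, a : ℕ) : ℤ)) := by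
    intro n H' hH'
    rw [hWWr, ← fin_filter_sum s H' hH' (fun j => lamI ((n : ℤ) + ((h + j + ∑ a ∈ S j, a : ℕ) : ℤ)))]
    apply sum_congr rfl
    intro j _
    rw [hS1 j.val j.isLt, hY]
  refine ⟨S, fun j a ha => ?_, fun j => ?_, ?_⟩
  · by_cases hj : j < s
    · rw [hS1 j hj] at ha
      rw [hLd]
      exact (g3 _ (hωi ⟨j, hj⟩)).1 a ha
    · rw [hS2 j hj] at ha
      simp at ha
  · by_cases hj : j < s
    · rw [hS1 j hj]
      rw [hLd]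
      refine (g3 _ (hωi ⟨j, hj⟩)).2.1.trans ?_
      exact mul_le_mul_of_nonneg_right (le_abs_self _) (sq_nonneg _)
    · rw [hS2 j hj, card_empty, Nat.cast_zero]
      positivity
  -- the exceptional set
  obtain ⟨T, hT⟩ : ∃ T : ℕ, T = ⌈L ^ κ⌉₊ + B + 3 := ⟨_, rfl⟩
  have hT1 : L ^ κ ≤ T := by
    rw [hT]
    push_cast
    have := Nat.le_ceil (L ^ κ)
    linarith
  have hLκ1 : 1 ≤ L ^ κ := one_le_pow₀ hL1
  have hT2 : (T : ℝ) ≤ L ^ (κ + 2) := by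
    have e1 : ((⌈L ^ κ⌉₊ : ℕ) : ℝ) < L ^ κ + 1 := Nat.ceil_lt_add_one (by positivity)
    have e2 : (T : ℝ) = (⌈L ^ κ⌉₊ : ℕ) + B + 3 := by rw [hT]; push_cast; ring
    have e3 : (T : ℝ) ≤ L ^ κ * L := by
      rw [e2]
      nlinarith
    have e4 : L ^ κ * L ≤ L ^ (κ + 2) := by
      rw [← pow_succ]
      exact pow_le_pow_right₀ hL1 (by omega)
    linarith
  have hT3 : 1 ≤ T := by omega
  have hT0 : (0 : ℝ) < T := by exact_mod_cast hT3
  have hNT := h3 N (by omega) T (by rw [← hLd]; exact hT2) hT3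
  rw [← hLd] at hNT
  push_cast at hNT
  rw [Real.log_mul hN0.ne' hT0.ne', ← hLd] at hNT
  obtain ⟨M, hM⟩ : ∃ M, M = (B + 3) * N := ⟨_, rfl⟩
  have hMr : (M : ℝ) = (B + 3) * N := by rw [hM]; push_cast; ring
  have hM1 : 1 ≤ M := by rw [hM]; exact Nat.mul_pos (by omega) (by omega)
  have hRN : s ≤ N := by
    have e1 : L ^ (κ + 1) ≤ √(N : ℝ) := (pow_le_pow_right₀ hL1 (by omega)).trans hsq
    have e2 : (s : ℝ) ≤ N := hsL.trans (e1.trans (nm_sqrt N (by linarith)))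
    exact_mod_cast e2
  have hshift : ∀ j < s, N + (h + j + ∑ a ∈ S j, a) ≤ M := by
    intro j hj
    have e1 := hSN j
    rw [hM, add_mul]
    omega
  obtain ⟨G1, hG1⟩ : ∃ G1 : Finset ℕ, G1 = (Icc 1 N).filter (fun n => n * T < N) := ⟨_, rfl⟩
  obtain ⟨G2, hG2⟩ : ∃ G2 : Finset ℕ, G2 = (range s).biUnion (fun j => (Icc 1 N).filter (fun n : ℕ =>
    lamI ((n : ℤ) + ((h + j + ∑ a ∈ S j, a : ℕ) : ℤ)) ≠ 0 ∧ ¬ (n + (h + j + ∑ a ∈ S j, a)).Prime)) := ⟨_, rfl⟩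
  obtain ⟨G3, hG3⟩ : ∃ G3 : Finset ℕ, G3 = (Icc 1 N).filter (fun n => ε ^ 3 / 256 ≤ ∑ H' ∈ Icc m s, 1 / (H' : ℝ) ^ 3 * (WW ω n H' - H') ^ 2) := ⟨_, rfl⟩
  have hsub : (Icc 1 N).filter (fun n => ∃ y : ℕ, Y₀ ≤ y ∧ (y : ℝ) ≤ L ^ κ ∧ ε₀ * (y / L) < |(cntW S h n y : ℝ) - y / L|) ⊆ G1 ∪ (G2 ∪ G3) := by
    intro n hn
    rw [mem_filter] at hn
    obtain ⟨hn1, y, hy1, hy2, hy3⟩ := hn
    rw [mem_union, mem_union]
    by_cases c1 : n ∈ G1
    · exact Or.inl c1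
    by_cases c2 : n ∈ G2
    · exact Or.inr (Or.inl c2)
    right; right
    rw [hG3, mem_filter]
    refine ⟨hn1, ?_⟩
    rw [hG1, mem_filter] at c1
    push Not at c1
    have c1' := c1 hn1
    have hn1' := mem_Icc.1 hn1
    have hn0 : (0 : ℝ) < n := by exact_mod_cast hn1'.1
    have hlogn : (1 - ε / 8) * L ≤ Real.log n := by
      have e1 : (N : ℝ) ≤ n * T := by exact_mod_cast c1'
      have e2 := Real.log_le_log hN0 e1
      rw [Real.log_mul hn0.ne' hT0.ne', ← hLd] at e2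
      linarith
    have hprime : ∀ j < s, lamI ((n : ℤ) + ((h + j + ∑ a ∈ S j, a : ℕ) : ℤ)) ≠ 0 → (n + (h + j + ∑ a ∈ S j, a)).Prime := by
      intro j hj hne
      by_contra hcon
      apply c2
      rw [hG2, mem_biUnion]
      exact ⟨j, mem_range.2 hj, mem_filter.2 ⟨hn1, hne, hcon⟩⟩
    have hlogs : ∀ j < s, (n + (h + j + ∑ a ∈ S j, a)).Prime → (1 - ε / 8) * L ≤ Real.log ((n + (h + j + ∑ a ∈ S j, a) : ℕ) : ℝ) ∧
        Real.log ((n + (h + j + ∑ a ∈ S j, a) : ℕ) : ℝ) ≤ (1 + ε / 8) * L := by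
      intro j hj _
      constructor
      · refine hlogn.trans (Real.log_le_log hn0 ?_)
        exact_mod_cast Nat.le_add_right _ _
      · have e1 := hshift j hj
        have e2 : ((n + (h + j + ∑ a ∈ S j, a) : ℕ) : ℝ) ≤ N * T := by
          have e3 : n + (h + j + ∑ a ∈ S j, a) ≤ N * T := by
            have e4 : (B + 3) * N ≤ N * T := by
              rw [mul_comm]
              exact Nat.mul_le_mul_left _ (by omega)
            omega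
          exact_mod_cast e3
        have e5 : (0 : ℝ) < ((n + (h + j + ∑ a ∈ S j, a) : ℕ) : ℝ) := by exact_mod_cast (by omega : 0 < n + (h + j + ∑ a ∈ S j, a))
        have e6 := Real.log_le_log e5 e2
        rw [Real.log_mul hN0.ne' hT0.ne', ← hLd] at e6
        linarith
    have hyR : y ≤ R := by rw [hR]; exact Nat.le_floor hy2
    have hres := dev_sum s y Y₀ L ε (fun H' => (cntW S h n H' : ℝ)) (fun H' => WW ω n H') hε0 hε1 hL0 hY₀ hy1 (by omega)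
      (fun H' => Nat.cast_nonneg _) (fun H' H'' hHH => by exact_mod_cast cntW_mono S h n H' H'' hHH)
      (fun H' hH' => by
        rw [hWS n H' hH']
        exact (W_bounds S h n H' ((1 - ε / 8) * L) ((1 + ε / 8) * L) (fun j hj => hlogs j (by omega)) (fun j hj => hprime j (by omega))).1)
      (fun H' hH' => by
        rw [hWS n H' hH']
        exact (W_bounds S h n H' ((1 - ε / 8) * L) ((1 + ε / 8) * L) (fun j hj => hlogs j (by omega)) (fun j hj => hprime j (by omega))).2)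
      (lt_of_le_of_lt (mul_le_mul_of_nonneg_right hε2 (by positivity)) hy3)
    rw [hm]
    exact hres
  have hNY : (N : ℝ) / L ^ κ ≤ N / Y₀ := div_le_div_of_nonneg_left hN0.le (by linarith) hYL
  have c1 : (G1.card : ℝ) ≤ N / Y₀ := by
    have e1 : G1 ⊆ Icc 1 (N / T) := by
      intro n hn
      rw [hG1, mem_filter, mem_Icc] at hn
      rw [mem_Icc]
      exact ⟨hn.1.1, (Nat.le_div_iff_mul_le (by omega)).2 hn.2.le⟩
    have e2 := card_le_card e1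
    rw [Nat.card_Icc, Nat.add_sub_cancel] at e2
    have e3 : (G1.card : ℝ) ≤ ((N / T : ℕ) : ℝ) := by exact_mod_cast e2
    have e4 : ((N / T : ℕ) : ℝ) ≤ N / T := Nat.cast_div_le
    have e5 : (N : ℝ) / T ≤ N / L ^ κ := div_le_div_of_nonneg_left hN0.le (by linarith) hT1
    linarith
  have c2 : (G2.card : ℝ) ≤ N / Y₀ := by
    have e1 : (G2.card : ℝ) ≤ s * (2 * (2 * √(M : ℝ) * Real.log M)) := by
      rw [hG2]
      have f1 : (((range s).biUnion (fun j => (Icc 1 N).filter (fun n : ℕ =>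
          lamI ((n : ℤ) + ((h + j + ∑ a ∈ S j, a : ℕ) : ℤ)) ≠ 0 ∧ ¬ (n + (h + j + ∑ a ∈ S j, a)).Prime))).card : ℝ) ≤
          ∑ j ∈ range s, (((Icc 1 N).filter (fun n : ℕ =>
          lamI ((n : ℤ) + ((h + j + ∑ a ∈ S j, a : ℕ) : ℤ)) ≠ 0 ∧ ¬ (n + (h + j + ∑ a ∈ S j, a)).Prime)).card : ℝ) := by
        exact_mod_cast card_biUnion_le
      refine f1.trans ?_
      have f2 : ∀ j ∈ range s, (((Icc 1 N).filter (fun n : ℕ =>
          lamI ((n : ℤ) + ((h + j + ∑ a ∈ S j, a : ℕ) : ℤ)) ≠ 0 ∧ ¬ (n + (h + j + ∑ a ∈ S j, a)).Prime)).card : ℝ) ≤ 2 * (2 * √(M : ℝ) * Real.log M) :=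
        fun j hj => pp_count N M (h + j + ∑ a ∈ S j, a) hM1 (hshift j (mem_range.1 hj))
      refine (sum_le_sum f2).trans (le_of_eq ?_)
      rw [sum_const, card_range, nsmul_eq_mul]
    refine e1.trans (le_trans ?_ hNY)
    have hss : √(N : ℝ) * √(N : ℝ) = N := Real.mul_self_sqrt hN0.le
    have hs0 : 0 < √(N : ℝ) := Real.sqrt_pos.2 hN0
    have e2 : √(M : ℝ) ≤ (B + 3) * √(N : ℝ) := by
      rw [hMr, Real.sqrt_mul (by positivity)]
      apply mul_le_mul_of_nonneg_right _ hs0.le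
      exact nm_sqrt _ (by linarith)
    have e3 : Real.log (M : ℝ) ≤ 2 * L := by
      rw [hMr, Real.log_mul (by positivity) hN0.ne', ← hLd]
      have := Real.log_le_sub_one_of_pos (show (0 : ℝ) < B + 3 by positivity)
      linarith
    have e4 : 0 ≤ Real.log (M : ℝ) := Real.log_natCast_nonneg M
    rw [le_div_iff₀ (by positivity)]
    calc (s : ℝ) * (2 * (2 * √(M : ℝ) * Real.log M)) * L ^ κ ≤ (2 * L ^ κ) * (2 * (2 * ((B + 3) * √(N : ℝ)) * (2 * L))) * L ^ κ := by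
          rw [hsr]
          gcongr
      _ = (16 * (B + 3)) * (L ^ κ * L ^ κ * L) * √(N : ℝ) := by ring
      _ ≤ L * (L ^ κ * L ^ κ * L) * √(N : ℝ) := by
          gcongr
          linarith
      _ = L ^ (2 * κ + 2) * √(N : ℝ) := by ring
      _ ≤ √(N : ℝ) * √(N : ℝ) := mul_le_mul_of_nonneg_right hsq hs0.le
      _ = N := hss
  have c3 : (G3.card : ℝ) ≤ 8 * C₂ / (ε ^ 3 / 256) * (N * (L / Y₀)) := by
    have e1 : (G3.card : ℝ) * (ε ^ 3 / 256) ≤ FF ω := by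
      rw [← nsmul_eq_mul, ← sum_const]
      have f1 : ∑ _n ∈ G3, ε ^ 3 / 256 ≤ ∑ n ∈ G3, ∑ H' ∈ Icc m s, 1 / (H' : ℝ) ^ 3 * (WW ω n H' - H') ^ 2 := by
        apply sum_le_sum
        intro n hn
        rw [hG3, mem_filter] at hn
        exact hn.2
      have f2 : ∑ n ∈ G3, ∑ H' ∈ Icc m s, 1 / (H' : ℝ) ^ 3 * (WW ω n H' - H') ^ 2 ≤
          ∑ n ∈ Icc 1 N, ∑ H' ∈ Icc m s, 1 / (H' : ℝ) ^ 3 * (WW ω n H' - H') ^ 2 := by
        apply sum_le_sum_of_subset_of_nonneg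
        · rw [hG3]
          exact filter_subset _ _
        · intro n _ _
          exact sum_nonneg fun H' _ => by positivity
      refine (f1.trans f2).trans (le_of_eq ?_)
      rw [hFF, sum_comm]
      apply sum_congr rfl
      intro H' _
      rw [mul_sum]
    have e2 : (G3.card : ℝ) * (ε ^ 3 / 256) ≤ 8 * C₂ * (N * (L / Y₀)) := by
      refine e1.trans (hωF.trans (le_of_eq ?_))
      ring
    rw [← le_div_iff₀ hc0] at e2
    refine e2.trans (le_of_eq ?_)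
    ring
  have c4 : (((Icc 1 N).filter (fun n => ∃ y : ℕ, Y₀ ≤ y ∧ (y : ℝ) ≤ L ^ κ ∧ ε₀ * (y / L) < |(cntW S h n y : ℝ) - y / L|)).card : ℝ) ≤
      G1.card + (G2.card + G3.card) := by
    have e1 := card_le_card hsub
    have e2 := card_union_le G1 (G2 ∪ G3)
    have e3 := card_union_le G2 G3
    exact_mod_cast (by omega : _ ≤ G1.card + (G2.card + G3.card))
  have c5 : (N : ℝ) / Y₀ ≤ N * (L / Y₀) := by
    rw [mul_div_assoc']
    apply div_le_div_of_nonneg_right _ (by linarith)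
    exact le_mul_of_one_le_right hN0.le hL1
  linarith

end Pool.Agent.Y885
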