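import Pool.Agent.Y885.GW3
import Pool.Agent.Y885.WP5

set_option autoImplicit false
set_option linter.all false

/-!
# PV1: the second moments of the model and of the von Mangoldt function
-/

namespace Pool.Agent.Y885

open Finset Pool.Agent.H373R2.T7
open Pool.Agent.W93.TD (total_w avg_w)

/-- the density of the model is small -/
lemma Vz_sqrt (E : ℕ) : ∃ N0 : ℕ, ∀ N : ℕ, N0 ≤ N → ∀ z : ℕ, 1 ≤ z → (z : ℝ) ≤ Real.log N ^ E →
    (Vz z)⁻¹ ≤ √(Real.log N) := by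
  obtain ⟨n0, h0⟩ := Vz_inv_small (2 * E + 1)
  obtain ⟨c, hc⟩ : ∃ c : ℝ, c = 2 + 2 ^ (2 * E + 1) + Real.log (n0 + 1) := ⟨_, rfl⟩
  have hlog0 : 0 ≤ Real.log ((n0 : ℝ) + 1) := Real.log_nonneg (by have : (0 : ℝ) ≤ n0 := Nat.cast_nonneg _; linarith)
  have h2E : (0 : ℝ) < 2 ^ (2 * E + 1) := by positivity
  have hc2 : 2 ≤ c := by rw [hc]; linarith
  obtain ⟨n1, h1⟩ := ev_L' (c ^ 2)
  refine ⟨n1, fun N hN z hz hzE => ?_⟩
  have hL := h1 N hN
  obtain ⟨L, hLd⟩ : ∃ L, L = Real.log (N : ℝ) := ⟨_, rfl⟩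
  rw [← hLd] at hL hzE ⊢
  have hL0 : 0 ≤ L := le_trans (by positivity) hL
  obtain ⟨R, hR⟩ : ∃ R, R = √L := ⟨_, rfl⟩
  have hRc : c ≤ R := by
    rw [hR]
    exact Real.le_sqrt_of_sq_le hL
  have hRR : R ^ 2 = L := by rw [hR]; exact Real.sq_sqrt hL0
  rw [← hR]
  obtain ⟨N', hN'⟩ : ∃ N', N' = ⌊Real.exp R⌋₊ := ⟨_, rfl⟩
  have e1 : (N' : ℝ) ≤ Real.exp R := by rw [hN']; exact Nat.floor_le (Real.exp_pos _).le
  have e2 : Real.exp R < N' + 1 := by rw [hN']; exact Nat.lt_floor_add_one _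
  have e3 : Real.exp R ≥ 1 + R := by linarith [Real.add_one_le_exp R]
  have hN'1 : (1 : ℝ) ≤ N' := by
    have : (1 : ℝ) < N' := by linarith
    exact this.le
  have hN'0 : (0 : ℝ) < N' := by linarith
  have e4 : Real.log N' ≤ R := by
    rw [← Real.log_exp R]
    exact Real.log_le_log hN'0 e1
  have e5 : R / 2 ≤ Real.log N' := by
    have f1 : Real.exp R ≤ 2 * N' := by linarith
    have f2 := Real.log_le_log (Real.exp_pos R) f1
    rw [Real.log_exp, Real.log_mul (by norm_num) hN'0.ne'] at f2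
    have f3 : Real.log 2 ≤ 1 := by have := Real.log_two_lt_d9; linarith
    linarith
  have hn0 : n0 ≤ N' := by
    have f1 : (n0 : ℝ) + 1 ≤ Real.exp R := by
      have : Real.log ((n0 : ℝ) + 1) ≤ R := by rw [hc] at hRc; linarith
      exact (Real.log_le_iff_le_exp (by positivity)).1 this
    have f2 : (n0 : ℝ) < N' := by linarith
    have : n0 < N' := by exact_mod_cast f2
    omega
  refine (h0 N' hn0 z hz ?_).trans e4
  have f1 : L ^ E ≤ (2 * Real.log N') ^ (2 * E) := by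
    rw [← hRR, ← pow_mul]
    exact pow_le_pow_left₀ (by linarith) (by linarith) _
  have f2 : (2 * Real.log N') ^ (2 * E) ≤ Real.log N' ^ (2 * E + 1) := by
    rw [mul_pow, pow_succ, mul_comm]
    apply mul_le_mul_of_nonneg_left _ (by have : 0 ≤ Real.log (N' : ℝ) := by linarith
                                          positivity)
    have f3 : (2 : ℝ) ^ (2 * E + 1) = 2 ^ (2 * E) * 2 := pow_succ _ _
    have f4 : (2 : ℝ) ^ (2 * E + 1) ≤ R := by rw [hc] at hRc; linarith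
    linarith
  linarith

/-- the variance of the model in short intervals -/
theorem model_var2 (κ E : ℕ) : ∃ N0 : ℕ, ∀ M : ℕ, N0 ≤ M → ∀ z : ℕ, 1 ≤ z → (z : ℝ) ≤ Real.log M ^ E → ∀ H : ℕ,
    (H : ℝ) ≤ Real.log M ^ κ →
    ∑ m ∈ Icc 1 M, (∑ j ∈ range H, (lamzI z ((m : ℤ) + (j : ℤ)) - 1)) ^ 2 ≤ (Real.exp 8 * (Vz z)⁻¹ + 3) * (M * H) := by
  classical
  obtain ⟨n1, h1⟩ := mainL 2 E κ (by norm_num)
  obtain ⟨n2, h2⟩ := mainL 1 E κ (by norm_num)
  obtain ⟨n4, h4⟩ := ev_L' 1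
  refine ⟨n1 + n2 + n4, fun M hM z hz hz2 H hH => ?_⟩
  have hL := h4 M (by omega)
  obtain ⟨L, hLd⟩ : ∃ L, L = Real.log (M : ℝ) := ⟨_, rfl⟩
  rw [← hLd] at hL hH
  obtain ⟨T, hT⟩ : ∃ T, T = (M : ℝ) / L ^ κ := ⟨_, rfl⟩
  have hM0 : (0 : ℝ) ≤ M := Nat.cast_nonneg _
  have hH0 : (0 : ℝ) ≤ H := Nat.cast_nonneg _
  have hT0 : 0 ≤ T := by rw [hT]; positivity
  have hL0 : 0 < L := by linarith
  have g2 : ∀ i j : ℕ, ∑ m ∈ Icc 1 M, lamzI z ((m : ℤ) + (i : ℤ)) * lamzI z ((m : ℤ) + (j : ℤ)) ≤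
      singG (wN (fun _ : Fin 2 => 1) ![i, j]) 2 z * M + T := by
    intro i j
    have e1 := h1 M (by omega) z hz hz2 (fun _ => 1) ![i, j] (fun _ => ⟨le_rfl, hz⟩)
    rw [← hLd, ← hT] at e1
    have e2 : ∑ n ∈ Icc 1 M, ∏ t : Fin 2, lamzI z ((((fun _ : Fin 2 => 1) t : ℕ) : ℤ) * (n : ℤ) + (((![i, j] : Fin 2 → ℕ) t : ℕ) : ℤ)) =
        ∑ m ∈ Icc 1 M, lamzI z ((m : ℤ) + (i : ℤ)) * lamzI z ((m : ℤ) + (j : ℤ)) := by
      apply sum_congr rfl
      intro n _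
      rw [Fin.prod_univ_two]
      simp
    rw [e2] at e1
    have e3 := (abs_le.1 e1).2
    linarith
  have g1 : ∀ j : ℕ, M - T ≤ ∑ m ∈ Icc 1 M, lamzI z ((m : ℤ) + (j : ℤ)) := by
    intro j
    have e1 := h2 M (by omega) z hz hz2 (fun _ => 1) ![j] (fun _ => ⟨le_rfl, hz⟩)
    rw [← hLd, ← hT, singG_one] at e1
    have e2 : ∑ n ∈ Icc 1 M, ∏ t : Fin 1, lamzI z ((((fun _ : Fin 1 => 1) t : ℕ) : ℤ) * (n : ℤ) + (((![j] : Fin 1 → ℕ) t : ℕ) : ℤ)) =
        ∑ m ∈ Icc 1 M, lamzI z ((m : ℤ) + (j : ℤ)) := by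
      apply sum_congr rfl
      intro n _
      rw [Fin.prod_univ_one]
      simp
    rw [e2] at e1
    have e3 := (abs_le.1 e1).1
    linarith
  have hexp : ∀ m : ℕ, (∑ j ∈ range H, (lamzI z ((m : ℤ) + (j : ℤ)) - 1)) ^ 2 =
      ∑ q ∈ range H ×ˢ range H, lamzI z ((m : ℤ) + (q.1 : ℤ)) * lamzI z ((m : ℤ) + (q.2 : ℤ)) -
      2 * H * ∑ j ∈ range H, lamzI z ((m : ℤ) + (j : ℤ)) + (H : ℝ) ^ 2 := by
    intro m
    have e0 : ∑ q ∈ range H ×ˢ range H, lamzI z ((m : ℤ) + (q.1 : ℤ)) * lamzI z ((m : ℤ) + (q.2 : ℤ)) =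
        (∑ j ∈ range H, lamzI z ((m : ℤ) + (j : ℤ))) ^ 2 := by
      rw [sum_product, sq, sum_mul_sum]
    rw [e0, sum_sub_distrib, sum_const, card_range, nsmul_eq_mul, mul_one]
    ring
  rw [sum_congr rfl (fun m _ => hexp m), sum_add_distrib, sum_sub_distrib, sum_comm, ← mul_sum, sum_comm (s := Icc 1 M) (t := range H), sum_const,
    Nat.card_Icc, Nat.add_sub_cancel, nsmul_eq_mul]
  have k1 : ∑ q ∈ range H ×ˢ range H, ∑ m ∈ Icc 1 M, lamzI z ((m : ℤ) + (q.1 : ℤ)) * lamzI z ((m : ℤ) + (q.2 : ℤ)) ≤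
      ((H : ℝ) ^ 2 + H * (Real.exp 8 * (Vz z)⁻¹)) * M + (H : ℝ) ^ 2 * T := by
    refine (sum_le_sum fun q _ => g2 q.1 q.2).trans ?_
    rw [sum_add_distrib, ← sum_mul, sum_const, card_product, card_range, nsmul_eq_mul]
    push_cast
    have := mul_le_mul_of_nonneg_right (pair_avg H z) hM0
    rw [sq]
    rw [sq] at this
    linarith
  have k2 : (H : ℝ) * (M - T) ≤ ∑ j ∈ range H, ∑ m ∈ Icc 1 M, lamzI z ((m : ℤ) + (j : ℤ)) := by
    have := sum_le_sum fun j (_ : j ∈ range H) => g1 j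
    rw [sum_const, card_range, nsmul_eq_mul] at this
    exact this
  have k3 : (H : ℝ) ^ 2 * T ≤ M * H := by
    have e1 : (H : ℝ) * T ≤ M := by
      rw [hT]
      calc (H : ℝ) * (M / L ^ κ) ≤ L ^ κ * (M / L ^ κ) := mul_le_mul_of_nonneg_right hH (by positivity)
        _ = M := by field_simp
    calc (H : ℝ) ^ 2 * T = H * (H * T) := by ring
      _ ≤ H * M := mul_le_mul_of_nonneg_left e1 hH0
      _ = _ := by ring
  have k5 := mul_le_mul_of_nonneg_left k2 (by positivity : (0 : ℝ) ≤ 2 * H)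
  have k6 : (2 * (H : ℝ)) * (H * (M - T)) = 2 * (H : ℝ) ^ 2 * M - 2 * ((H : ℝ) ^ 2 * T) := by ring
  have k7 : ((H : ℝ) ^ 2 + H * (Real.exp 8 * (Vz z)⁻¹)) * M = (H : ℝ) ^ 2 * M + H * (Real.exp 8 * (Vz z)⁻¹) * M := by ring
  have k8 : (Real.exp 8 * (Vz z)⁻¹ + 3) * (M * H) = H * (Real.exp 8 * (Vz z)⁻¹) * M + 3 * (M * H) := by ring
  linarith

/-- the sum of the model -/
lemma lz_sum (E : ℕ) : ∃ N0 : ℕ, ∀ N : ℕ, N0 ≤ N → ∀ z : ℕ, 1 ≤ z → (z : ℝ) ≤ Real.log N ^ E → ∀ a : ℕ,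
    |∑ n ∈ Icc 1 N, lamzI z ((n : ℤ) + (a : ℤ)) - N| ≤ N / Real.log N := by
  obtain ⟨n2, h2⟩ := mainL 1 E 1 (by norm_num)
  refine ⟨n2, fun N hN z hz hzE a => ?_⟩
  have e1 := h2 N hN z hz hzE (fun _ => 1) ![a] (fun _ => ⟨le_rfl, hz⟩)
  rw [singG_one, pow_one, one_mul] at e1
  have e2 : ∑ n ∈ Icc 1 N, ∏ t : Fin 1, lamzI z ((((fun _ : Fin 1 => 1) t : ℕ) : ℤ) * (n : ℤ) + (((![a] : Fin 1 → ℕ) t : ℕ) : ℤ)) =
      ∑ m ∈ Icc 1 N, lamzI z ((m : ℤ) + (a : ℤ)) := by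
    apply sum_congr rfl
    intro n _
    rw [Fin.prod_univ_one]
    simp
  rw [e2] at e1
  exact e1

/-- one value of `Λ (Λ - L)` -/
lemma one_val (m : ℕ) (hm : 1 ≤ m) (N B : ℕ) (L : ℝ) (hLd : L = Real.log N) (hL : 1 ≤ L) (hN : 1 ≤ N) (hmM : m ≤ (B + 3) * N) (hBL : (B : ℝ) + 3 ≤ L) :
    |lamI (m : ℤ) ^ 2 - L * lamI (m : ℤ)| ≤ (Real.log L + (B + 3)) * lamI (m : ℤ) + (if (m : ℝ) * L < N then L * lamI (m : ℤ) else 0) +
      2 * L * (lamI (m : ℤ) - lamP (m : ℤ)) := by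
  have hN0 : (0 : ℝ) < N := by exact_mod_cast hN
  have hm0 : (0 : ℝ) < m := by exact_mod_cast hm
  have h0 := lamI_nonneg (m : ℤ)
  have h1 := lamP_le (m : ℤ)
  have h1' := lamP_nonneg (m : ℤ)
  have hlogL : 0 ≤ Real.log L := Real.log_nonneg hL
  have hB0 : (0 : ℝ) ≤ B := Nat.cast_nonneg _
  have e1 : lamI (m : ℤ) = ArithmeticFunction.vonMangoldt m := by
    unfold lamI
    rw [if_pos (by exact_mod_cast hm), Int.toNat_natCast]
  have hlogm0 : 0 ≤ Real.log (m : ℝ) := Real.log_natCast_nonneg m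
  have hup : Real.log (m : ℝ) ≤ L + (B + 2) := by
    have f1 : (m : ℝ) ≤ (B + 3) * N := by exact_mod_cast hmM
    have f2 := Real.log_le_log hm0 f1
    rw [Real.log_mul (by positivity) hN0.ne', ← hLd] at f2
    have f3 := Real.log_le_sub_one_of_pos (show (0 : ℝ) < B + 3 by positivity)
    linarith
  have hle : lamI (m : ℤ) ≤ Real.log m := by rw [e1]; exact ArithmeticFunction.vonMangoldt_le_log
  have e2 : lamI (m : ℤ) ^ 2 - L * lamI (m : ℤ) = (lamI (m : ℤ) - L) * lamI (m : ℤ) := by ring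
  rw [e2, abs_mul, abs_of_nonneg h0]
  have hite : 0 ≤ (if (m : ℝ) * L < N then L * lamI (m : ℤ) else 0) := by split_ifs <;> positivity
  by_cases hp : m.Prime
  · have e3 : lamI (m : ℤ) = Real.log m := by rw [e1]; exact ArithmeticFunction.vonMangoldt_apply_prime hp
    by_cases hs : (m : ℝ) * L < N
    · rw [if_pos hs]
      have f1 : |lamI (m : ℤ) - L| ≤ L + (Real.log L + (B + 3)) := by
        rw [abs_le, e3]
        constructor <;> linarith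
      have f2 := mul_le_mul_of_nonneg_right f1 h0
      have f3 : 0 ≤ 2 * L * (lamI (m : ℤ) - lamP (m : ℤ)) := mul_nonneg (by linarith) (by linarith)
      linarith
    · rw [if_neg hs]
      push Not at hs
      have f1 : L - Real.log L ≤ Real.log m := by
        have g1 := Real.log_le_log hN0 hs
        rw [Real.log_mul hm0.ne' (by linarith), ← hLd] at g1
        linarith
      have f2 : |lamI (m : ℤ) - L| ≤ Real.log L + (B + 3) := by
        rw [abs_le, e3]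
        constructor <;> linarith
      have f3 := mul_le_mul_of_nonneg_right f2 h0
      have f4 : 0 ≤ 2 * L * (lamI (m : ℤ) - lamP (m : ℤ)) := mul_nonneg (by linarith) (by linarith)
      linarith
  · have e3 : lamP (m : ℤ) = 0 := by
      unfold lamP
      rw [Int.toNat_natCast, if_neg hp]
    rw [e3, sub_zero]
    have f1 : |lamI (m : ℤ) - L| ≤ 2 * L := by
      rw [abs_le]
      constructor <;> linarith
    have f2 := mul_le_mul_of_nonneg_right f1 h0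
    have f3 : 0 ≤ (Real.log L + (B + 3)) * lamI (m : ℤ) := mul_nonneg (by linarith) h0
    linarith

end Pool.Agent.Y885
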