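import Pool.Agent.Y885.PV1

set_option autoImplicit false
set_option linter.all false

/-!
# PV2: the squares of the von Mangoldt function, and the expected correlations
-/

namespace Pool.Agent.Y885

open Finset Pool.Agent.H373R2.T7
open Pool.Agent.W93.TD (total_w avg_w)

lemma lamI_nat (m : ℕ) (hm : 1 ≤ m) : lamI (m : ℤ) = ArithmeticFunction.vonMangoldt m := by
  unfold lamI
  rw [if_pos (by exact_mod_cast hm), Int.toNat_natCast]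

lemma lamI_sum (M : ℕ) : ∑ m ∈ Icc 1 M, lamI (m : ℤ) ≤ 6 * M := by
  have h2 : ∑ m ∈ Icc 1 M, ArithmeticFunction.vonMangoldt m ≤ 6 * M := lam1_le M
  refine le_trans (le_of_eq ?_) h2
  apply sum_congr rfl
  intro m hm
  rw [lamI_nat m (mem_Icc.1 hm).1]

/-- the sum of `Λ (Λ - L)` -/
lemma lam2_sum (B : ℕ) : ∃ N0 : ℕ, ∀ N : ℕ, N0 ≤ N → ∀ a : ℕ, a ≤ (B + 2) * N →
    |∑ n ∈ Icc 1 N, (lamI ((n : ℤ) + (a : ℤ)) ^ 2 - Real.log N * lamI ((n : ℤ) + (a : ℤ)))| ≤ 25 * (B + 3) * (N * √(Real.log N)) := by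
  classical
  obtain ⟨n1, h1⟩ := ev_L' (((B : ℝ) + 3) ^ 2 + 1)
  obtain ⟨n2, h2⟩ := ev_log' 2 (8 * (B + 3))
  refine ⟨n1 + n2 + 3, fun N hN a ha => ?_⟩
  have hL1 := h1 N (by omega)
  have hL2 := h2 N (by omega)
  obtain ⟨L, hLd⟩ : ∃ L, L = Real.log (N : ℝ) := ⟨_, rfl⟩
  rw [← hLd] at hL1 hL2 ⊢
  have hB0 : (0 : ℝ) ≤ B := Nat.cast_nonneg _
  have hL3 : 1 ≤ L := by nlinarith
  have hL0 : 0 < L := by linarith
  have hBL : (B : ℝ) + 3 ≤ L := by nlinarith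
  have hN0 : (0 : ℝ) < N := by exact_mod_cast (by omega : 0 < N)
  have hN1 : (1 : ℝ) ≤ N := by exact_mod_cast (by omega : 1 ≤ N)
  obtain ⟨R, hR⟩ : ∃ R, R = √L := ⟨_, rfl⟩
  have hRR : R * R = L := by rw [hR]; exact Real.mul_self_sqrt hL0.le
  have hR1 : 1 ≤ R := by rw [hR]; exact Real.one_le_sqrt.2 hL3
  have hBR : (B : ℝ) + 3 ≤ R := by rw [hR]; exact Real.le_sqrt_of_sq_le (by linarith)
  have hlogL : Real.log L ≤ 2 * R := by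
    rw [← hRR, Real.log_mul (by linarith) (by linarith)]
    have := Real.log_le_sub_one_of_pos (show 0 < R by linarith)
    linarith
  have hlogL0 : 0 ≤ Real.log L := Real.log_nonneg hL3
  obtain ⟨M, hM⟩ : ∃ M, M = (B + 3) * N := ⟨_, rfl⟩
  have hMr : (M : ℝ) = (B + 3) * N := by rw [hM]; push_cast; ring
  have hM1 : 1 ≤ M := by rw [hM]; exact Nat.mul_pos (by omega) (by omega)
  have hM0 : (0 : ℝ) < M := by exact_mod_cast hM1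
  have haM : N + a ≤ M := by
    have : (B + 3) * N = (B + 2) * N + N := by ring
    omega
  obtain ⟨Φ, hΦ⟩ : ∃ Φ : ℤ → ℝ, Φ = fun k : ℤ => (Real.log L + (B + 3)) * lamI k + (if (k : ℝ) * L < N then L * lamI k else 0) +
      2 * L * (lamI k - lamP k) := ⟨_, rfl⟩
  have hΦ0 : ∀ k, 0 ≤ Φ k := by
    intro k
    rw [hΦ]
    have f0 := lamI_nonneg k
    have f1 := lamP_le k
    have f2 : 0 ≤ (if (k : ℝ) * L < N then L * lamI k else 0) := by split_ifs <;> positivity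
    have f3 : 0 ≤ 2 * L * (lamI k - lamP k) := mul_nonneg (by linarith) (by linarith)
    have f4 : 0 ≤ (Real.log L + (B + 3)) * lamI k := mul_nonneg (by linarith) f0
    simp only
    linarith
  have k1 : |∑ n ∈ Icc 1 N, (lamI ((n : ℤ) + (a : ℤ)) ^ 2 - L * lamI ((n : ℤ) + (a : ℤ)))| ≤ ∑ n ∈ Icc 1 N, Φ ((n : ℤ) + (a : ℤ)) := by
    refine (abs_sum_le_sum_abs _ _).trans (sum_le_sum fun n hn => ?_)
    rw [mem_Icc] at hn
    have e1 := one_val (n + a) (by omega) N B L hLd hL3 (by omega) (by rw [← hM]; omega) hBL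
    rw [hΦ]
    push_cast at e1 ⊢
    exact e1
  refine k1.trans ((win_shift Φ hΦ0 a N M haM).trans ?_)
  rw [hΦ]
  simp only
  rw [sum_add_distrib, sum_add_distrib, ← mul_sum, ← mul_sum]
  have k2 : (Real.log L + (B + 3)) * ∑ m ∈ Icc 1 M, lamI (m : ℤ) ≤ 18 * (B + 3) * (N * R) := by
    calc (Real.log L + (B + 3)) * ∑ m ∈ Icc 1 M, lamI (m : ℤ) ≤ (3 * R) * (6 * M) := by
          apply mul_le_mul (by linarith) (lamI_sum M) (sum_nonneg fun m _ => lamI_nonneg _) (by linarith)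
      _ = _ := by rw [hMr]; ring
  have k3 : ∑ m ∈ Icc 1 M, (if (((m : ℕ) : ℤ) : ℝ) * L < N then L * lamI (m : ℤ) else 0) ≤ 6 * N := by
    rw [← sum_filter, ← mul_sum]
    have e1 : (Icc 1 M).filter (fun m : ℕ => (((m : ℕ) : ℤ) : ℝ) * L < N) ⊆ Icc 1 ⌊(N : ℝ) / L⌋₊ := by
      intro m hm
      rw [mem_filter, mem_Icc] at hm
      rw [mem_Icc]
      refine ⟨hm.1.1, Nat.le_floor ?_⟩
      rw [le_div_iff₀ hL0]
      have := hm.2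
      push_cast at this
      exact this.le
    have e2 : ∑ m ∈ (Icc 1 M).filter (fun m : ℕ => (((m : ℕ) : ℤ) : ℝ) * L < N), lamI (m : ℤ) ≤ 6 * (N / L) := by
      refine (sum_le_sum_of_subset_of_nonneg e1 fun m _ _ => lamI_nonneg _).trans ((lamI_sum _).trans ?_)
      apply mul_le_mul_of_nonneg_left _ (by norm_num)
      exact Nat.floor_le (by positivity)
    calc L * ∑ m ∈ (Icc 1 M).filter (fun m : ℕ => (((m : ℕ) : ℤ) : ℝ) * L < N), lamI (m : ℤ) ≤ L * (6 * (N / L)) :=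
          mul_le_mul_of_nonneg_left e2 hL0.le
      _ = 6 * N := by field_simp
  have k4 : 2 * L * ∑ m ∈ Icc 1 M, (lamI (m : ℤ) - lamP (m : ℤ)) ≤ N := by
    have e1 := pp_sum M M 0 hM1 (by
      intro n hn
      rw [mem_Icc] at hn
      rw [add_zero]
      exact_mod_cast hn.2)
    simp only [add_zero] at e1
    have e2 : √(M : ℝ) ≤ (B + 3) * √(N : ℝ) := by
      rw [hMr, Real.sqrt_mul (by positivity)]
      apply mul_le_mul_of_nonneg_right _ (Real.sqrt_nonneg _)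
      exact nm_sqrt _ (by linarith)
    have e3 : Real.log (M : ℝ) ≤ 2 * L := by
      rw [hMr, Real.log_mul (by positivity) hN0.ne', ← hLd]
      have := Real.log_le_sub_one_of_pos (show (0 : ℝ) < B + 3 by positivity)
      linarith
    have e4 : 0 ≤ Real.log (M : ℝ) := Real.log_natCast_nonneg M
    have hss : √(N : ℝ) * √(N : ℝ) = N := Real.mul_self_sqrt hN0.le
    calc 2 * L * ∑ m ∈ Icc 1 M, (lamI (m : ℤ) - lamP (m : ℤ)) ≤ 2 * L * (2 * √(M : ℝ) * Real.log M) :=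
          mul_le_mul_of_nonneg_left e1 (by positivity)
      _ ≤ 2 * L * (2 * ((B + 3) * √(N : ℝ)) * (2 * L)) := by gcongr
      _ = 8 * (B + 3) * L ^ 2 * √(N : ℝ) := by ring
      _ ≤ √(N : ℝ) * √(N : ℝ) := mul_le_mul_of_nonneg_right hL2 (Real.sqrt_nonneg _)
      _ = N := hss
  have k5 : (N : ℝ) ≤ (B + 3) * (N * R) := by
    have : (N : ℝ) ≤ N * R := le_mul_of_one_le_right hN0.le hR1
    nlinarith
  rw [← hR]
  linarith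

/-- the second moment of the difference of the von Mangoldt function and its model -/
lemma dif_sq (N z a : ℕ) (L R ψ1 ψz ψ2 : ℝ) (hR : (Vz z)⁻¹ ≤ R) (hR0 : 0 ≤ R)
    (h1 : ∑ n ∈ Icc 1 N, lamI ((n : ℤ) + (a : ℤ)) ≤ ψ1) (hz : ∑ n ∈ Icc 1 N, lamzI z ((n : ℤ) + (a : ℤ)) ≤ ψz)
    (h2 : |∑ n ∈ Icc 1 N, (lamI ((n : ℤ) + (a : ℤ)) ^ 2 - L * lamI ((n : ℤ) + (a : ℤ)))| ≤ ψ2) :
    |∑ n ∈ Icc 1 N, (lamI ((n : ℤ) + (a : ℤ)) - lamzI z ((n : ℤ) + (a : ℤ))) ^ 2 - L * ∑ n ∈ Icc 1 N, lamI ((n : ℤ) + (a : ℤ))| ≤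
      ψ2 + 2 * (R * ψ1) + R * ψz := by
  have e1 : ∑ n ∈ Icc 1 N, (lamI ((n : ℤ) + (a : ℤ)) - lamzI z ((n : ℤ) + (a : ℤ))) ^ 2 - L * ∑ n ∈ Icc 1 N, lamI ((n : ℤ) + (a : ℤ)) =
      ∑ n ∈ Icc 1 N, (lamI ((n : ℤ) + (a : ℤ)) ^ 2 - L * lamI ((n : ℤ) + (a : ℤ))) -
      2 * ∑ n ∈ Icc 1 N, lamI ((n : ℤ) + (a : ℤ)) * lamzI z ((n : ℤ) + (a : ℤ)) + ∑ n ∈ Icc 1 N, lamzI z ((n : ℤ) + (a : ℤ)) ^ 2 := by
    rw [mul_sum, mul_sum, ← sum_sub_distrib, ← sum_sub_distrib, ← sum_add_distrib]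
    apply sum_congr rfl
    intro n _
    ring
  have e2 : ∑ n ∈ Icc 1 N, lamI ((n : ℤ) + (a : ℤ)) * lamzI z ((n : ℤ) + (a : ℤ)) ≤ R * ψ1 := by
    calc ∑ n ∈ Icc 1 N, lamI ((n : ℤ) + (a : ℤ)) * lamzI z ((n : ℤ) + (a : ℤ)) ≤ ∑ n ∈ Icc 1 N, R * lamI ((n : ℤ) + (a : ℤ)) := by
          apply sum_le_sum
          intro n _
          rw [mul_comm]
          exact mul_le_mul_of_nonneg_right ((lamzI_le _ _).trans hR) (lamI_nonneg _)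
      _ = R * ∑ n ∈ Icc 1 N, lamI ((n : ℤ) + (a : ℤ)) := by rw [mul_sum]
      _ ≤ R * ψ1 := mul_le_mul_of_nonneg_left h1 hR0
  have e3 : ∑ n ∈ Icc 1 N, lamzI z ((n : ℤ) + (a : ℤ)) ^ 2 ≤ R * ψz := by
    calc ∑ n ∈ Icc 1 N, lamzI z ((n : ℤ) + (a : ℤ)) ^ 2 ≤ ∑ n ∈ Icc 1 N, R * lamzI z ((n : ℤ) + (a : ℤ)) := by
          apply sum_le_sum
          intro n _
          rw [sq]
          exact mul_le_mul_of_nonneg_right ((lamzI_le _ _).trans hR) (lamzI_nonneg _ _)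
      _ = R * ∑ n ∈ Icc 1 N, lamzI z ((n : ℤ) + (a : ℤ)) := by rw [mul_sum]
      _ ≤ R * ψz := mul_le_mul_of_nonneg_left hz hR0
  have e4 : 0 ≤ ∑ n ∈ Icc 1 N, lamI ((n : ℤ) + (a : ℤ)) * lamzI z ((n : ℤ) + (a : ℤ)) :=
    sum_nonneg fun n _ => mul_nonneg (lamI_nonneg _) (lamzI_nonneg _ _)
  have e5 : 0 ≤ ∑ n ∈ Icc 1 N, lamzI z ((n : ℤ) + (a : ℤ)) ^ 2 := sum_nonneg fun n _ => sq_nonneg _
  have e6 : 0 ≤ R * ψ1 := e4.trans e2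
  have e7 : 0 ≤ R * ψz := e5.trans e3
  obtain ⟨h3, h4⟩ := abs_le.1 h2
  rw [e1, abs_le]
  constructor <;> linarith

/-- off-diagonal terms under the product measure -/
lemma off_exp {s : ℕ} {α : Type} [DecidableEq α] (Ω : Finset α) (p : α → ℝ) (hp0 : ∀ v ∈ Ω, 0 ≤ p v) (hsum : ∑ v ∈ Ω, p v = 1) (N : ℕ)
    (d : ℕ → Fin s → α → ℝ) (i j : Fin s) (hij : i ≠ j) (Q E : ℝ) (hQ : ∀ n ∈ Icc 1 N, ∀ v ∈ Ω, |d n i v| ≤ Q)
    (h : ∀ G : ℕ → ℝ, (∀ n ∈ Icc 1 N, |G n| ≤ Q) → ∑ v ∈ Ω, p v * |∑ n ∈ Icc 1 N, G n * d n j v| ≤ E) :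
    ∑ ω ∈ Fintype.piFinset (fun _ : Fin s => Ω), (∏ t, p (ω t)) * |∑ n ∈ Icc 1 N, d n i (ω i) * d n j (ω j)| ≤ E := by
  rw [← avg_w (fun _ : Fin s => Ω) (fun _ => p) (fun _ => hsum) j (fun m => |∑ n ∈ Icc 1 N, d n i (m i) * d n j (m j)|)]
  have e1 : ∀ m ∈ Fintype.piFinset (fun _ : Fin s => Ω), (∏ t, p (m t)) * ∑ v ∈ Ω, p v *
      |∑ n ∈ Icc 1 N, d n i ((Function.update m j v) i) * d n j ((Function.update m j v) j)| ≤ (∏ t, p (m t)) * E := by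
    intro m hm
    have hmi : ∀ t, m t ∈ Ω := fun t => Fintype.mem_piFinset.1 hm t
    apply mul_le_mul_of_nonneg_left _ (prod_nonneg fun t _ => hp0 _ (hmi t))
    refine le_trans (le_of_eq ?_) (h (fun n => d n i (m i)) (fun n hn => hQ n hn _ (hmi i)))
    apply sum_congr rfl
    intro v _
    rw [Function.update_self, Function.update_of_ne hij]
  refine (sum_le_sum e1).trans (le_of_eq ?_)
  rw [← sum_mul, total_w (fun _ : Fin s => Ω) (fun _ => p) (fun _ => hsum), one_mul]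

/-- the expected variance of the model -/
lemma model_exp {s : ℕ} {α : Type} [DecidableEq α] (Ω : Finset α) (p : α → ℝ) (hp0 : ∀ v ∈ Ω, 0 ≤ p v) (hsum : ∑ v ∈ Ω, p v = 1)
    (N M h z : ℕ) (Y : α → ℕ) (hM : ∀ v ∈ Ω, ∀ j < s, N + (h + j + Y v) ≤ M) (hM' : ∀ v ∈ Ω, N + (h + Y v) ≤ M) (V : ℝ)
    (hV : ∀ H : ℕ, H ≤ s → ∑ m ∈ Icc 1 M, (∑ j ∈ range H, (lamzI z ((m : ℤ) + (j : ℤ)) - 1)) ^ 2 ≤ V * H) (hV1 : 1 ≤ s → ∑ m ∈ Icc 1 M, (lamzI z (m : ℤ) - 1) ^ 2 ≤ V) :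
    ∑ ω ∈ Fintype.piFinset (fun _ : Fin s => Ω), (∏ i, p (ω i)) *
      ∑ n ∈ Icc 1 N, (∑ j : Fin s, (lamzI z ((n : ℤ) + ((h + j.val + Y (ω j) : ℕ) : ℤ)) - 1)) ^ 2 ≤ 2 * (V * s) := by
  classical
  have hs1 : ∑ ω ∈ Fintype.piFinset (fun _ : Fin s => Ω), (∏ i, p (ω i)) *
      ∑ n ∈ Icc 1 N, (∑ j : Fin s, (lamzI z ((n : ℤ) + ((h + j.val + Y (ω j) : ℕ) : ℤ)) - 1)) ^ 2 ≤
      ∑ n ∈ Icc 1 N, ((∑ j ∈ range s, ∑ v ∈ Ω, p v * (lamzI z ((n : ℤ) + ((h + j + Y v : ℕ) : ℤ)) - 1)) ^ 2 +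
        ∑ j ∈ range s, ∑ v ∈ Ω, p v * (lamzI z ((n : ℤ) + ((h + j + Y v : ℕ) : ℤ)) - 1) ^ 2) := by
    have e0 : ∀ ω ∈ Fintype.piFinset (fun _ : Fin s => Ω), (∏ i, p (ω i)) *
      ∑ n ∈ Icc 1 N, (∑ j : Fin s, (lamzI z ((n : ℤ) + ((h + j.val + Y (ω j) : ℕ) : ℤ)) - 1)) ^ 2 =
      ∑ n ∈ Icc 1 N, (∏ i, p (ω i)) * (∑ j : Fin s, (lamzI z ((n : ℤ) + ((h + j.val + Y (ω j) : ℕ) : ℤ)) - 1)) ^ 2 := by
      intro ω _
      rw [mul_sum]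
    rw [sum_congr rfl e0, sum_comm]
    apply sum_le_sum
    intro n _
    have e1 := prob_var (fun _ : Fin s => Ω) (fun _ => p) (fun _ => hsum) (fun j v => lamzI z ((n : ℤ) + ((h + j.val + Y v : ℕ) : ℤ)) - 1)
      (univ : Finset (Fin s))
    rw [Fin.sum_univ_eq_sum_range (fun j => ∑ v ∈ Ω, p v * (lamzI z ((n : ℤ) + ((h + j + Y v : ℕ) : ℤ)) - 1)) s,
      Fin.sum_univ_eq_sum_range (fun j => ∑ v ∈ Ω, p v * (lamzI z ((n : ℤ) + ((h + j + Y v : ℕ) : ℤ)) - 1) ^ 2) s] at e1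
    exact e1
  refine hs1.trans ?_
  rw [sum_add_distrib]
  have k1 : ∑ n ∈ Icc 1 N, (∑ j ∈ range s, ∑ v ∈ Ω, p v * (lamzI z ((n : ℤ) + ((h + j + Y v : ℕ) : ℤ)) - 1)) ^ 2 ≤ V * s := by
    have e1 : ∀ n ∈ Icc 1 N, (∑ j ∈ range s, ∑ v ∈ Ω, p v * (lamzI z ((n : ℤ) + ((h + j + Y v : ℕ) : ℤ)) - 1)) ^ 2 ≤
        ∑ v ∈ Ω, p v * (∑ j ∈ range s, (lamzI z ((n : ℤ) + ((h + j + Y v : ℕ) : ℤ)) - 1)) ^ 2 := by
      intro n _
      have e2 : ∑ j ∈ range s, ∑ v ∈ Ω, p v * (lamzI z ((n : ℤ) + ((h + j + Y v : ℕ) : ℤ)) - 1) =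
          ∑ v ∈ Ω, p v * ∑ j ∈ range s, (lamzI z ((n : ℤ) + ((h + j + Y v : ℕ) : ℤ)) - 1) := by
        rw [sum_comm]
        apply sum_congr rfl
        intro v _
        rw [mul_sum]
      rw [e2]
      exact jensen_sq Ω p (fun v => ∑ j ∈ range s, (lamzI z ((n : ℤ) + ((h + j + Y v : ℕ) : ℤ)) - 1)) hp0 hsum
    refine (sum_le_sum e1).trans ?_
    rw [sum_comm]
    have e3 : ∀ v ∈ Ω, ∑ n ∈ Icc 1 N, p v * (∑ j ∈ range s, (lamzI z ((n : ℤ) + ((h + j + Y v : ℕ) : ℤ)) - 1)) ^ 2 ≤ p v * (V * s) := by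
      intro v hv
      rw [← mul_sum]
      apply mul_le_mul_of_nonneg_left _ (hp0 v hv)
      have e2 := win_shift (fun m => (∑ j ∈ range s, (lamzI z (m + (j : ℤ)) - 1)) ^ 2) (fun m => sq_nonneg _) (h + Y v) N M (hM' v hv)
      refine le_trans (le_of_eq ?_) (e2.trans (hV s le_rfl))
      apply sum_congr rfl
      intro n _
      congr 1
      apply sum_congr rfl
      intro j _
      have e4 : (n : ℤ) + ((h + j + Y v : ℕ) : ℤ) = (n : ℤ) + ((h + Y v : ℕ) : ℤ) + (j : ℤ) := by push_cast; ring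
      rw [e4]
    refine (sum_le_sum e3).trans (le_of_eq ?_)
    rw [← sum_mul, hsum, one_mul]
  have k2 : ∑ n ∈ Icc 1 N, ∑ j ∈ range s, ∑ v ∈ Ω, p v * (lamzI z ((n : ℤ) + ((h + j + Y v : ℕ) : ℤ)) - 1) ^ 2 ≤ V * s := by
    rw [sum_comm]
    have e1 : ∀ j ∈ range s, ∑ n ∈ Icc 1 N, ∑ v ∈ Ω, p v * (lamzI z ((n : ℤ) + ((h + j + Y v : ℕ) : ℤ)) - 1) ^ 2 ≤ V := by
      intro j hj
      rw [mem_range] at hj
      rw [sum_comm]
      have e2 : ∀ v ∈ Ω, ∑ n ∈ Icc 1 N, p v * (lamzI z ((n : ℤ) + ((h + j + Y v : ℕ) : ℤ)) - 1) ^ 2 ≤ p v * V := by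
        intro v hv
        rw [← mul_sum]
        apply mul_le_mul_of_nonneg_left _ (hp0 v hv)
        exact (win_shift (fun m => (lamzI z m - 1) ^ 2) (fun m => sq_nonneg _) (h + j + Y v) N M (hM v hv j hj)).trans (hV1 (by omega))
      refine (sum_le_sum e2).trans (le_of_eq ?_)
      rw [← sum_mul, hsum, one_mul]
    refine (sum_le_sum e1).trans (le_of_eq ?_)
    rw [sum_const, card_range, nsmul_eq_mul]
    ring
  linarith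

/-- Minkowski with a parameter -/
lemma mink (Om : Finset ℕ) (x y : ℕ → ℝ) (η X0 X1 Y1 : ℝ) (hη : 0 < η) (hη1 : η ≤ 1) (h1 : |∑ n ∈ Om, x n ^ 2 - X0| ≤ X1) (h2 : ∑ n ∈ Om, y n ^ 2 ≤ Y1) :
    |∑ n ∈ Om, (x n + y n) ^ 2 - X0| ≤ X1 + η * (X0 + X1) + (1 + 1 / η) * Y1 := by
  obtain ⟨a1, a2⟩ := abs_le.1 h1
  have hy0 : 0 ≤ ∑ n ∈ Om, y n ^ 2 := sum_nonneg fun n _ => sq_nonneg _
  have hx0 : 0 ≤ ∑ n ∈ Om, x n ^ 2 := sum_nonneg fun n _ => sq_nonneg _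
  have hη' : 0 < 1 / η := by positivity
  have e1 : ∀ n, (x n + y n) ^ 2 ≤ (1 + η) * x n ^ 2 + (1 + 1 / η) * y n ^ 2 := by
    intro n
    have : 0 ≤ (η * x n - y n) ^ 2 / η := by positivity
    have e : (η * x n - y n) ^ 2 / η = η * x n ^ 2 - 2 * (x n * y n) + 1 / η * y n ^ 2 := by field_simp; ring
    nlinarith
  have e2 : ∀ n, (1 - η) * x n ^ 2 - (1 + 1 / η) * y n ^ 2 ≤ (x n + y n) ^ 2 := by
    intro n
    have : 0 ≤ (η * x n + y n) ^ 2 / η := by positivity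
    have e : (η * x n + y n) ^ 2 / η = η * x n ^ 2 + 2 * (x n * y n) + 1 / η * y n ^ 2 := by field_simp; ring
    nlinarith [sq_nonneg (y n)]
  have f1 := sum_le_sum fun n (_ : n ∈ Om) => e1 n
  have f2 := sum_le_sum fun n (_ : n ∈ Om) => e2 n
  rw [sum_add_distrib, ← mul_sum, ← mul_sum] at f1
  rw [sum_sub_distrib, ← mul_sum, ← mul_sum] at f2
  have g1 : (1 + 1 / η) * ∑ n ∈ Om, y n ^ 2 ≤ (1 + 1 / η) * Y1 := mul_le_mul_of_nonneg_left h2 (by linarith)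
  have g2 : η * ∑ n ∈ Om, x n ^ 2 ≤ η * (X0 + X1) := mul_le_mul_of_nonneg_left (by linarith) hη.le
  rw [abs_le]
  constructor <;> linarith

end Pool.Agent.Y885
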