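import Pool.Agent.Y885.PV2

set_option autoImplicit false
set_option linter.all false

/-!
# PV3: the variance of the primes in windows whose points are moved by few elements of a set
-/

namespace Pool.Agent.Y885

open Finset Pool.Agent.H373R2.T7
open Pool.Agent.W93.TD (total_w avg_w)

/-- expanding the square -/
lemma quad2 {s : ℕ} (Om : Finset ℕ) (d : ℕ → Fin s → ℝ) (V : ℝ) :
    |∑ n ∈ Om, (∑ j : Fin s, d n j) ^ 2 - s * V| ≤ ∑ j : Fin s, |∑ n ∈ Om, d n j ^ 2 - V| +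
      ∑ i : Fin s, ∑ j : Fin s, (if i = j then 0 else |∑ n ∈ Om, d n i * d n j|) := by
  classical
  have e1 : ∑ n ∈ Om, (∑ j : Fin s, d n j) ^ 2 = ∑ i : Fin s, ∑ j : Fin s, ∑ n ∈ Om, d n i * d n j := by
    have : ∀ n ∈ Om, (∑ j : Fin s, d n j) ^ 2 = ∑ i : Fin s, ∑ j : Fin s, d n i * d n j := by
      intro n _
      rw [sq, sum_mul_sum]
    rw [sum_congr rfl this, sum_comm]
    apply sum_congr rfl
    intro i _
    rw [sum_comm]
  have e2 : (s : ℝ) * V = ∑ i : Fin s, ∑ j : Fin s, (if i = j then V else 0) := by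
    simp
  rw [e1, e2, ← sum_sub_distrib]
  refine (abs_sum_le_sum_abs _ _).trans ?_
  rw [← sum_add_distrib]
  apply sum_le_sum
  intro i _
  rw [← sum_sub_distrib]
  refine (abs_sum_le_sum_abs _ _).trans ?_
  have e3 : ∀ j ∈ (univ : Finset (Fin s)), |∑ n ∈ Om, d n i * d n j - (if i = j then V else 0)| ≤
      (if i = j then |∑ n ∈ Om, d n j ^ 2 - V| else 0) + (if i = j then 0 else |∑ n ∈ Om, d n i * d n j|) := by
    intro j _
    by_cases h : i = j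
    · rw [if_pos h, if_pos h, if_pos h, add_zero, h]
      apply le_of_eq
      congr 2
      apply sum_congr rfl
      intro n _
      ring
    · rw [if_neg h, if_neg h, if_neg h, sub_zero, zero_add]
  refine (sum_le_sum e3).trans ?_
  rw [sum_add_distrib]
  apply add_le_add _ le_rfl
  simp

/-- powers of the logarithm against the saving -/
lemma save (N K : ℕ) (X LX L D b : ℝ) (κ : ℕ) (s : ℝ) (hs0 : 0 ≤ s) (hs : s ≤ L ^ κ) (hL : 1 ≤ L) (hK : 0 < (K : ℝ)) (hLX : LX ≤ 2 * L) (hLX0 : 0 ≤ LX)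
    (hX0 : 0 ≤ X) (hX : X ≤ D * N) (hLK : L ≤ b * K) (hD : 0 ≤ D) (hb : 0 ≤ b) (hbig : 2 * D * b ^ (2 * κ + 4) ≤ L) :
    s * s * (LX * (X / (K : ℝ) ^ (2 * κ + 4))) ≤ N := by
  have hL0 : 0 < L := by linarith
  have hN0 : (0 : ℝ) ≤ N := Nat.cast_nonneg _
  have f2 : 1 / (K : ℝ) ^ (2 * κ + 4) ≤ b ^ (2 * κ + 4) / L ^ (2 * κ + 4) := by
    rw [div_le_div_iff₀ (by positivity) (by positivity), one_mul, ← mul_pow]
    exact pow_le_pow_left₀ hL0.le hLK _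
  calc s * s * (LX * (X / (K : ℝ) ^ (2 * κ + 4))) = s * s * (LX * (X * (1 / (K : ℝ) ^ (2 * κ + 4)))) := by ring
    _ ≤ L ^ κ * L ^ κ * ((2 * L) * ((D * N) * (b ^ (2 * κ + 4) / L ^ (2 * κ + 4)))) := by gcongr
    _ = ((2 * D * b ^ (2 * κ + 4)) / L ^ 3) * N := by
        rw [show 2 * κ + 4 = κ + κ + 1 + 3 by ring, pow_add L (κ + κ + 1), pow_add L (κ + κ), pow_add L κ, pow_one]
        field_simp
    _ ≤ 1 * N := by
        apply mul_le_mul_of_nonneg_right _ hN0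
        rw [div_le_one (by positivity)]
        have : L ≤ L ^ 3 := le_self_pow₀ hL (by norm_num)
        linarith
    _ = N := one_mul _

set_option maxHeartbeats 1000000 in
/-- the expectation of the functional -/
theorem pv_exp (b E c κ B D : ℕ) (hb : 2 ≤ b) (hE : 1 ≤ E) : ∃ N₀ : ℕ, ∀ N : ℕ, N₀ ≤ N → ∀ K : ℕ, (B + 4) * N ≤ b ^ K → b ^ K ≤ D * N →
    ∃ z : ℕ, 1 ≤ z ∧ (Vz z)⁻¹ ≤ √(Real.log N) ∧ (∀ a : ℕ, |∑ n ∈ Icc 1 N, lamzI z ((n : ℤ) + (a : ℤ)) - N| ≤ N / Real.log N) ∧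
    ∀ (α : Type) (_ : DecidableEq α) (Ω : Finset α) (p : α → ℝ) (Y : α → ℕ),
    TLaw b E c (2 * (2 * κ + 4) + 6) K Ω p (fun v => (Y v : ℤ)) → ∑ v ∈ Ω, p v = 1 → (∀ v ∈ Ω, Y v ≤ N) →
    ∀ h : ℕ, h ≤ B * N → ∀ s : ℕ, 1 ≤ s → (s : ℝ) ≤ Real.log N ^ κ →
    ∑ ω ∈ Fintype.piFinset (fun _ : Fin s => Ω), (∏ i, p (ω i)) *
      ((∑ i : Fin s, ∑ j : Fin s, (if i = j then 0 else |∑ n ∈ Icc 1 N,
          (lamI ((n : ℤ) + ((h + i.val + Y (ω i) : ℕ) : ℤ)) - lamzI z ((n : ℤ) + ((h + i.val + Y (ω i) : ℕ) : ℤ))) *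
          (lamI ((n : ℤ) + ((h + j.val + Y (ω j) : ℕ) : ℤ)) - lamzI z ((n : ℤ) + ((h + j.val + Y (ω j) : ℕ) : ℤ)))|)) +
        s * Real.log N * ∑ j : Fin s, |∑ n ∈ Icc 1 N, (lamI ((n : ℤ) + ((h + j.val + Y (ω j) : ℕ) : ℤ)) - lamzI z ((n : ℤ) + ((h + j.val + Y (ω j) : ℕ) : ℤ)))| +
        ∑ n ∈ Icc 1 N, (∑ j : Fin s, (lamzI z ((n : ℤ) + ((h + j.val + Y (ω j) : ℕ) : ℤ)) - 1)) ^ 2) ≤
      (2 * (Real.exp 8 + 3) * (B + 3) + 2) * (N * (s * √(Real.log N))) := by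
  classical
  obtain ⟨B1, hB1⟩ := tl_dif b E c hb hE (2 * κ + 4)
  obtain ⟨k1, h1⟩ := hB1 (B1 + 3)
  obtain ⟨n2, h2⟩ := model_var2 (κ + 1) (B1 + 3)
  obtain ⟨n3, h3⟩ := Vz_sqrt (B1 + 3)
  obtain ⟨n4, h4⟩ := ev_L' (2 + (B + 3) + D + 2 ^ B1 + 2 * D * b ^ (2 * κ + 4))
  obtain ⟨n5, h5⟩ := ev_log' κ 1
  obtain ⟨n6, h6⟩ := lz_sum (B1 + 3)
  refine ⟨b ^ k1 + n2 + n3 + n4 + n5 + n6 + 3, fun N hN K hK1 hK2 => ?_⟩
  have hL := h4 N (by omega)
  have hsq := h5 N (by omega)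
  obtain ⟨L, hLd⟩ : ∃ L, L = Real.log (N : ℝ) := ⟨_, rfl⟩
  rw [← hLd] at hL hsq ⊢
  rw [one_mul] at hsq
  have hbn : 0 < b := by omega
  have hbr : (2 : ℝ) ≤ b := by exact_mod_cast hb
  have q1 : (0 : ℝ) ≤ 2 * D * b ^ (2 * κ + 4) := by positivity
  have q2 : (0 : ℝ) ≤ 2 ^ B1 := by positivity
  have q3 : (0 : ℝ) ≤ B := Nat.cast_nonneg _
  have q4 : (0 : ℝ) ≤ D := Nat.cast_nonneg _
  have hL1 : 1 ≤ L := by linarith
  have hL2 : 2 ≤ L := by linarith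
  have hL0 : 0 < L := by linarith
  have hN3 : (3 : ℝ) ≤ N := by exact_mod_cast (by omega : 3 ≤ N)
  have hN0 : (0 : ℝ) < N := by linarith
  -- the scale
  have hBN : N ≤ (B + 4) * N := Nat.le_mul_of_pos_left _ (by omega)
  have hKk : k1 ≤ K := by
    have e1 : b ^ k1 ≤ b ^ K := by omega
    exact (Nat.pow_le_pow_iff_right (by omega)).1 e1
  have hXN : (N : ℝ) ≤ ((b ^ K : ℕ) : ℝ) := by exact_mod_cast hBN.trans hK1
  have hX0 : (0 : ℝ) < ((b ^ K : ℕ) : ℝ) := by linarith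
  have hXD : ((b ^ K : ℕ) : ℝ) ≤ D * N := by exact_mod_cast hK2
  obtain ⟨LX, hLX⟩ : ∃ LX, LX = Real.log ((b ^ K : ℕ) : ℝ) := ⟨_, rfl⟩
  have hLX1 : L ≤ LX := by rw [hLd, hLX]; exact Real.log_le_log hN0 hXN
  have hD0 : (0 : ℝ) < D := by
    rcases Nat.eq_zero_or_pos D with h | h
    · rw [h, zero_mul] at hK2
      have : 0 < b ^ K := Nat.pow_pos hbn
      omega
    · exact_mod_cast h
  have hLX0 : 0 ≤ LX := by linarith
  have hLX2 : LX ≤ 2 * L := by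
    have e1 := Real.log_le_log hX0 hXD
    rw [Real.log_mul hD0.ne' hN0.ne', ← hLX, ← hLd] at e1
    have e2 := Real.log_le_sub_one_of_pos hD0
    linarith
  have hLK : L ≤ b * K := by
    refine hLX1.trans ?_
    rw [hLX]
    push_cast
    rw [Real.log_pow, mul_comm]
    apply mul_le_mul_of_nonneg_right _ (Nat.cast_nonneg _)
    have := Real.log_le_sub_one_of_pos (show (0 : ℝ) < b by linarith)
    linarith
  have hK0 : (0 : ℝ) < K := by
    rcases Nat.eq_zero_or_pos K with h | h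
    · rw [h, Nat.cast_zero, mul_zero] at hLK
      linarith
    · exact_mod_cast h
  -- the level
  obtain ⟨z, hz⟩ : ∃ z, z = ⌈(2 * L) ^ B1⌉₊ := ⟨_, rfl⟩
  have hz1 : LX ^ B1 ≤ z := by
    refine (pow_le_pow_left₀ (by linarith) hLX2 _).trans ?_
    rw [hz]
    exact Nat.le_ceil _
  have hz2 : (z : ℝ) ≤ L ^ (B1 + 2) := by
    have e1 : (z : ℝ) < (2 * L) ^ B1 + 1 := by rw [hz]; exact Nat.ceil_lt_add_one (by positivity)
    have e2 : (2 * L) ^ B1 ≤ L ^ (B1 + 1) := by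
      rw [mul_pow, pow_succ, mul_comm]
      exact mul_le_mul_of_nonneg_left (by linarith) (by positivity)
    exact nm_ceil L z (B1 + 1) hL2 (by linarith)
  have hz0 : 1 ≤ z := by
    rw [hz, Nat.one_le_ceil_iff]
    positivity
  have hz3 : (z : ℝ) ≤ L ^ (B1 + 3) := hz2.trans (pow_le_pow_right₀ hL1 (by omega))
  have hz4 : (z : ℝ) ≤ LX ^ (B1 + 3) := hz3.trans (pow_le_pow_left₀ hL0.le hLX1 _)
  have hV := h3 N (by omega) z hz0 (by rw [← hLd]; exact hz3)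
  rw [← hLd] at hV
  obtain ⟨R, hR⟩ : ∃ R, R = √L := ⟨_, rfl⟩
  rw [← hR] at hV ⊢
  have hR1 : 1 ≤ R := by rw [hR]; exact Real.one_le_sqrt.2 hL1
  have hRL : R ≤ L := by rw [hR]; exact nm_sqrt _ hL1
  refine ⟨z, hz0, hV, fun a => by have := h6 N (by omega) z hz0 (by rw [← hLd]; exact hz3) a; rw [← hLd] at this; exact this, ?_⟩
  intro α _ Ω p Y hlaw hsum hY h hh s hs1 hs
  have hs1r : (1 : ℝ) ≤ s := by exact_mod_cast hs1
  have hLκ : L ^ κ ≤ N := by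
    refine hsq.trans (nm_sqrt N (by linarith))
  have hsN : s ≤ N := by exact_mod_cast hs.trans hLκ
  obtain ⟨M, hM⟩ : ∃ M, M = (B + 3) * N := ⟨_, rfl⟩
  have hMN : N ≤ M := by rw [hM]; exact Nat.le_mul_of_pos_left _ (by omega)
  have hMr : (M : ℝ) = (B + 3) * N := by rw [hM]; push_cast; ring
  have hM0 : (0 : ℝ) < M := by rw [hMr]; positivity
  have hLM1 : L ≤ Real.log (M : ℝ) := by rw [hLd]; exact Real.log_le_log hN0 (by exact_mod_cast hMN)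
  have hcM : ∀ v ∈ Ω, ∀ j < s, N + (h + j + Y v) ≤ M := by
    intro v hv j hj
    have := hY v hv
    rw [hM, add_mul]
    omega
  have hcM' : ∀ v ∈ Ω, N + (h + Y v) ≤ M := by
    intro v hv
    have := hY v hv
    rw [hM, add_mul]
    omega
  have hMK : M ≤ b ^ K := by
    refine le_trans ?_ hK1
    rw [hM]
    exact Nat.mul_le_mul_right _ (by omega)
  -- the model
  have hmod := model_exp (s := s) Ω p hlaw.nonneg hsum N M h z Y hcM hcM' ((Real.exp 8 * R + 3) * M)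
    (by
      intro H hH
      have hHL : (H : ℝ) ≤ Real.log M ^ (κ + 1) := by
        have f1 : (H : ℝ) ≤ s := by exact_mod_cast hH
        refine f1.trans (hs.trans ((pow_le_pow_right₀ hL1 (Nat.le_succ κ)).trans (pow_le_pow_left₀ hL0.le hLM1 _)))
      have e3 := h2 M (by omega) z hz0 (hz3.trans (pow_le_pow_left₀ hL0.le hLM1 _)) H hHL
      refine e3.trans ?_
      have f2 : Real.exp 8 * (Vz z)⁻¹ ≤ Real.exp 8 * R := mul_le_mul_of_nonneg_left hV (Real.exp_pos _).le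
      calc (Real.exp 8 * (Vz z)⁻¹ + 3) * (M * H) ≤ (Real.exp 8 * R + 3) * (M * H) :=
            mul_le_mul_of_nonneg_right (by linarith) (by positivity)
        _ = _ := by ring)
    (by
      intro _
      have hHL : ((1 : ℕ) : ℝ) ≤ Real.log M ^ (κ + 1) := by
        push_cast
        exact one_le_pow₀ (by linarith)
      have e3 := h2 M (by omega) z hz0 (hz3.trans (pow_le_pow_left₀ hL0.le hLM1 _)) 1 hHL
      have f2 : Real.exp 8 * (Vz z)⁻¹ ≤ Real.exp 8 * R := mul_le_mul_of_nonneg_left hV (Real.exp_pos _).le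
      have e4 : ∑ m ∈ Icc 1 M, (lamzI z (m : ℤ) - 1) ^ 2 = ∑ m ∈ Icc 1 M, (∑ j ∈ range 1, (lamzI z ((m : ℤ) + (j : ℤ)) - 1)) ^ 2 := by
        apply sum_congr rfl
        intro m _
        rw [sum_range_one]
        simp
      rw [e4]
      refine e3.trans ?_
      rw [Nat.cast_one, mul_one]
      exact mul_le_mul_of_nonneg_right (by linarith) hM0.le)
  -- the differences
  obtain ⟨X', hX'⟩ : ∃ X', X' = ((b ^ K : ℕ) : ℝ) / (K : ℝ) ^ (2 * κ + 4) := ⟨_, rfl⟩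
  have hX'0 : 0 ≤ X' := by rw [hX']; positivity
  have hdif : ∀ j : Fin s, ∀ Q : ℝ, 0 < Q → ∀ G : ℕ → ℝ, (∀ n ∈ Icc 1 N, |G n| ≤ Q) →
      ∑ v ∈ Ω, p v * |∑ n ∈ Icc 1 N, G n * (lamI ((n : ℤ) + ((h + j.val + Y v : ℕ) : ℤ)) - lamzI z ((n : ℤ) + ((h + j.val + Y v : ℕ) : ℤ)))| ≤ Q * X' := by
    intro j Q hQ G hG
    have e1 := h1 K hKk z (by rw [← hLX]; exact hz1) (by rw [← hLX]; exact hz4) α Ω p (fun v => (Y v : ℤ) + ((h + j.val : ℕ) : ℤ)) (hlaw.add _) N (by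
      have : ((N : ℕ) : ℤ) ≤ ((b ^ K : ℕ) : ℤ) := by exact_mod_cast hBN.trans hK1
      push_cast at this
      exact this) (by
      intro v hv
      have f4 := hcM v hv j.val j.isLt
      have f5 : (0 : ℤ) < (b : ℤ) ^ K := by positivity
      have f6 : ((N + (h + j.val + Y v) : ℕ) : ℤ) ≤ ((b ^ K : ℕ) : ℤ) := by exact_mod_cast f4.trans hMK
      push_cast at f6 ⊢
      constructor
      · have f7 : (0 : ℤ) ≤ (Y v : ℤ) + ((h : ℤ) + (j.val : ℤ)) := by positivity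
        linarith
      · linarith) Q hQ G hG
    rw [← hX'] at e1
    refine le_trans (le_of_eq ?_) e1
    apply sum_congr rfl
    intro v _
    congr 2
    apply sum_congr rfl
    intro n _
    have e4 : (Y v : ℤ) + ((h + j.val : ℕ) : ℤ) = ((h + j.val + Y v : ℕ) : ℤ) := by push_cast; ring
    rw [e4]
  obtain ⟨d, hd⟩ : ∃ d : ℕ → Fin s → α → ℝ, d = fun (n : ℕ) (j : Fin s) (v : α) =>
    lamI ((n : ℤ) + ((h + j.val + Y v : ℕ) : ℤ)) - lamzI z ((n : ℤ) + ((h + j.val + Y v : ℕ) : ℤ)) := ⟨_, rfl⟩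
  have hdr : ∀ (n : ℕ) (j : Fin s) (v : α), lamI ((n : ℤ) + ((h + j.val + Y v : ℕ) : ℤ)) - lamzI z ((n : ℤ) + ((h + j.val + Y v : ℕ) : ℤ)) = d n j v := fun n j v => by rw [hd]
  simp only [hdr] at hdif ⊢
  have hdle : ∀ j : Fin s, ∀ n ∈ Icc 1 N, ∀ v ∈ Ω, |d n j v| ≤ LX := by
    intro j n hn v hv
    rw [← hdr]
    have f1 := lamI_nonneg ((n : ℤ) + ((h + j.val + Y v : ℕ) : ℤ))
    have f2 := lamzI_nonneg z ((n : ℤ) + ((h + j.val + Y v : ℕ) : ℤ))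
    have f3 : lamI ((n : ℤ) + ((h + j.val + Y v : ℕ) : ℤ)) ≤ LX := by
      rw [hLX]
      apply lamI_le _ _ (by linarith)
      have f4 := hcM v hv j.val j.isLt
      have f5 := (mem_Icc.1 hn).2
      have f6 : n + (h + j.val + Y v) ≤ b ^ K := by omega
      exact_mod_cast f6
    have f4 : lamzI z ((n : ℤ) + ((h + j.val + Y v : ℕ) : ℤ)) ≤ LX := (lamzI_le _ _).trans (hV.trans (hRL.trans hLX1))
    rw [abs_le]
    constructor <;> linarith
  have hP : ∀ i j : Fin s, ∑ ω ∈ Fintype.piFinset (fun _ : Fin s => Ω), (∏ t, p (ω t)) *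
      (if i = j then 0 else |∑ n ∈ Icc 1 N, d n i (ω i) * d n j (ω j)|) ≤ LX * X' := by
    intro i j
    by_cases hij : i = j
    · simp only [if_pos hij, mul_zero, sum_const_zero]
      positivity
    · simp only [if_neg hij]
      exact off_exp Ω p hlaw.nonneg hsum N d i j hij LX _ (hdle i) (fun G hG => hdif j LX (by linarith) G hG)
  have hD : ∀ j : Fin s, ∑ ω ∈ Fintype.piFinset (fun _ : Fin s => Ω), (∏ t, p (ω t)) * |∑ n ∈ Icc 1 N, d n j (ω j)| ≤ X' := by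
    intro j
    rw [marg1 (fun _ : Fin s => Ω) (fun _ => p) (fun _ => hsum) j (fun v => |∑ n ∈ Icc 1 N, d n j v|)]
    have := hdif j 1 one_pos (fun _ => 1) (fun _ _ => by norm_num)
    simp only [one_mul] at this
    exact this
  have e1 : ∀ ω ∈ Fintype.piFinset (fun _ : Fin s => Ω), (∏ i, p (ω i)) *
      ((∑ i : Fin s, ∑ j : Fin s, (if i = j then 0 else |∑ n ∈ Icc 1 N, d n i (ω i) * d n j (ω j)|)) +
        s * L * ∑ j : Fin s, |∑ n ∈ Icc 1 N, d n j (ω j)| +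
        ∑ n ∈ Icc 1 N, (∑ j : Fin s, (lamzI z ((n : ℤ) + ((h + j.val + Y (ω j) : ℕ) : ℤ)) - 1)) ^ 2) =
      (∑ i : Fin s, ∑ j : Fin s, (∏ t, p (ω t)) * (if i = j then 0 else |∑ n ∈ Icc 1 N, d n i (ω i) * d n j (ω j)|)) +
        s * L * ∑ j : Fin s, (∏ t, p (ω t)) * |∑ n ∈ Icc 1 N, d n j (ω j)| +
        (∏ t, p (ω t)) * ∑ n ∈ Icc 1 N, (∑ j : Fin s, (lamzI z ((n : ℤ) + ((h + j.val + Y (ω j) : ℕ) : ℤ)) - 1)) ^ 2 := by
    intro ω _
    rw [mul_add, mul_add, mul_sum, ← mul_sum (f := fun j : Fin s => |∑ n ∈ Icc 1 N, d n j (ω j)|)]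
    congr 1
    congr 1
    · apply sum_congr rfl
      intro i _
      rw [mul_sum]
    · ring
  rw [sum_congr rfl e1, sum_add_distrib, sum_add_distrib, ← mul_sum]
  have t1 : ∑ ω ∈ Fintype.piFinset (fun _ : Fin s => Ω), ∑ i : Fin s, ∑ j : Fin s, (∏ t, p (ω t)) *
      (if i = j then 0 else |∑ n ∈ Icc 1 N, d n i (ω i) * d n j (ω j)|) ≤ N := by
    rw [sum_comm]
    have f1 : ∀ i ∈ (univ : Finset (Fin s)), ∑ ω ∈ Fintype.piFinset (fun _ : Fin s => Ω), ∑ j : Fin s, (∏ t, p (ω t)) *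
      (if i = j then 0 else |∑ n ∈ Icc 1 N, d n i (ω i) * d n j (ω j)|) ≤ s * (LX * X') := by
      intro i _
      rw [sum_comm]
      refine (sum_le_sum fun j _ => hP i j).trans (le_of_eq ?_)
      rw [sum_const, card_univ, Fintype.card_fin, nsmul_eq_mul]
    refine (sum_le_sum f1).trans ?_
    rw [sum_const, card_univ, Fintype.card_fin, nsmul_eq_mul]
    have := save N K ((b ^ K : ℕ) : ℝ) LX L D b κ s (by linarith) hs hL1 hK0 hLX2 hLX0 hX0.le hXD hLK q4 (by linarith) (by linarith)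
    rw [← hX'] at this
    linarith
  have t2 : (s : ℝ) * L * ∑ ω ∈ Fintype.piFinset (fun _ : Fin s => Ω), ∑ j : Fin s, (∏ t, p (ω t)) * |∑ n ∈ Icc 1 N, d n j (ω j)| ≤ N := by
    have f1 : ∑ ω ∈ Fintype.piFinset (fun _ : Fin s => Ω), ∑ j : Fin s, (∏ t, p (ω t)) * |∑ n ∈ Icc 1 N, d n j (ω j)| ≤ s * X' := by
      rw [sum_comm]
      refine (sum_le_sum fun j _ => hD j).trans (le_of_eq ?_)
      rw [sum_const, card_univ, Fintype.card_fin, nsmul_eq_mul]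
    have := save N K ((b ^ K : ℕ) : ℝ) LX L D b κ s (by linarith) hs hL1 hK0 hLX2 hLX0 hX0.le hXD hLK q4 (by linarith) (by linarith)
    rw [← hX'] at this
    calc (s : ℝ) * L * ∑ ω ∈ Fintype.piFinset (fun _ : Fin s => Ω), ∑ j : Fin s, (∏ t, p (ω t)) * |∑ n ∈ Icc 1 N, d n j (ω j)|
        ≤ s * L * (s * X') := mul_le_mul_of_nonneg_left f1 (by positivity)
      _ = s * s * (L * X') := by ring
      _ ≤ s * s * (LX * X') := by gcongr
      _ ≤ N := this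
  have t3 : 2 * ((Real.exp 8 * R + 3) * M * s) ≤ 2 * (Real.exp 8 + 3) * (B + 3) * (N * (s * R)) := by
    rw [hMr]
    have f1 : Real.exp 8 * R + 3 ≤ (Real.exp 8 + 3) * R := by nlinarith
    calc 2 * ((Real.exp 8 * R + 3) * ((B + 3) * N) * s) = 2 * ((B + 3) * N * s) * (Real.exp 8 * R + 3) := by ring
      _ ≤ 2 * ((B + 3) * N * s) * ((Real.exp 8 + 3) * R) := mul_le_mul_of_nonneg_left f1 (by positivity)
      _ = _ := by ring
  have t4 : (N : ℝ) ≤ N * (s * R) := le_mul_of_one_le_right hN0.le (one_le_mul_of_one_le_of_one_le hs1r hR1)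
  linarith

end Pool.Agent.Y885
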