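import Pool.Agent.Y885.PV3
import Pool.Agent.Y885.WP5

set_option autoImplicit false

/-!
# PV4: the variance of the primes in windows whose points are moved by few elements of a set (selection)
-/

namespace Pool.Agent.Y885

open Finset Pool.Agent.H373R2.T7
open Pool.Agent.W93.TD (total_w avg_w)

/-- from the functional to the variance -/
lemma pv_det (N z s B : ℕ) (c : Fin s → ℕ) (L R C₃ ε η : ℝ) (hs : 1 ≤ s) (hL : 1 ≤ L) (hR : R * R = L) (hR1 : 1 ≤ R) (hC₃ : 0 ≤ C₃)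
    (hV : (Vz z)⁻¹ ≤ R) (hz : ∀ a : ℕ, |∑ n ∈ Icc 1 N, lamzI z ((n : ℤ) + (a : ℤ)) - N| ≤ N / L)
    (h1 : ∀ j, ∑ n ∈ Icc 1 N, lamI ((n : ℤ) + (c j : ℤ)) ≤ 6 * ((B + 3) * N))
    (h2 : ∀ j, |∑ n ∈ Icc 1 N, (lamI ((n : ℤ) + (c j : ℤ)) ^ 2 - L * lamI ((n : ℤ) + (c j : ℤ)))| ≤ 25 * (B + 3) * (N * R))
    (hF : (∑ i : Fin s, ∑ j : Fin s, (if i = j then 0 else |∑ n ∈ Icc 1 N,
          (lamI ((n : ℤ) + (c i : ℤ)) - lamzI z ((n : ℤ) + (c i : ℤ))) *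
          (lamI ((n : ℤ) + (c j : ℤ)) - lamzI z ((n : ℤ) + (c j : ℤ)))|)) +
        s * L * ∑ j : Fin s, |∑ n ∈ Icc 1 N, (lamI ((n : ℤ) + (c j : ℤ)) - lamzI z ((n : ℤ) + (c j : ℤ)))| +
        ∑ n ∈ Icc 1 N, (∑ j : Fin s, (lamzI z ((n : ℤ) + (c j : ℤ)) - 1)) ^ 2 ≤ 2 * (C₃ * (N * (s * R))))
    (hη : 0 < η) (hη1 : η ≤ 1) (hη2 : η ≤ ε / 2)
    (hbig : 2 * (40 * (B + 3) + 4 * C₃) + (1 + 1 / η) * (2 * C₃) ≤ ε / 2 * R) :
    |∑ n ∈ Icc 1 N, (∑ j : Fin s, (lamI ((n : ℤ) + (c j : ℤ)) - 1)) ^ 2 - s * (L * N)| ≤ ε * (s * (L * N)) := by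
  classical
  have hL0 : 0 < L := by linarith
  have hN0 : (0 : ℝ) ≤ N := Nat.cast_nonneg _
  have hs1 : (1 : ℝ) ≤ s := by exact_mod_cast hs
  have hs0 : (0 : ℝ) < s := by linarith
  have hB0 : (0 : ℝ) ≤ B := Nat.cast_nonneg _
  have hNR : (N : ℝ) ≤ N * R := le_mul_of_one_le_right hN0 hR1
  obtain ⟨d, hd⟩ : ∃ d : ℕ → Fin s → ℝ, d = fun (n : ℕ) (j : Fin s) => lamI ((n : ℤ) + (c j : ℤ)) - lamzI z ((n : ℤ) + (c j : ℤ)) := ⟨_, rfl⟩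
  have hdr : ∀ (n : ℕ) (j : Fin s), lamI ((n : ℤ) + (c j : ℤ)) - lamzI z ((n : ℤ) + (c j : ℤ)) = d n j := fun n j => by rw [hd]
  simp only [hdr] at hF
  obtain ⟨F1, hF1⟩ : ∃ F1 : ℝ, F1 = ∑ i : Fin s, ∑ j : Fin s, (if i = j then 0 else |∑ n ∈ Icc 1 N, d n i * d n j|) := ⟨_, rfl⟩
  obtain ⟨F2, hF2⟩ : ∃ F2 : ℝ, F2 = ∑ j : Fin s, |∑ n ∈ Icc 1 N, d n j| := ⟨_, rfl⟩
  obtain ⟨F3, hF3⟩ : ∃ F3 : ℝ, F3 = ∑ n ∈ Icc 1 N, (∑ j : Fin s, (lamzI z ((n : ℤ) + (c j : ℤ)) - 1)) ^ 2 := ⟨_, rfl⟩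
  rw [← hF1, ← hF2, ← hF3] at hF
  have hF1n : 0 ≤ F1 := by
    rw [hF1]
    apply sum_nonneg
    intro i _
    apply sum_nonneg
    intro j _
    split_ifs
    · exact le_rfl
    · exact abs_nonneg _
  have hF2n : 0 ≤ F2 := by
    rw [hF2]
    exact sum_nonneg fun j _ => abs_nonneg _
  have hF3n : 0 ≤ F3 := by
    rw [hF3]
    exact sum_nonneg fun n _ => sq_nonneg _
  have hF2m : 0 ≤ s * L * F2 := by positivity
  have g1 : F1 ≤ 2 * (C₃ * (N * (s * R))) := by linarith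
  have g3 : F3 ≤ 2 * (C₃ * (N * (s * R))) := by linarith
  have g2 : L * F2 ≤ 2 * (C₃ * (N * R)) := by
    have e1 : s * (L * F2) ≤ s * (2 * (C₃ * (N * R))) := by
      calc s * (L * F2) = s * L * F2 := by ring
        _ ≤ 2 * (C₃ * (N * (s * R))) := by linarith
        _ = _ := by ring
    exact le_of_mul_le_mul_left e1 hs0
  -- the mean
  have k1 : ∀ j : Fin s, |L * ∑ n ∈ Icc 1 N, lamI ((n : ℤ) + (c j : ℤ)) - L * N| ≤ 2 * (C₃ * (N * R)) + N := by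
    intro j
    have e1 : |∑ n ∈ Icc 1 N, d n j| ≤ F2 := by
      rw [hF2]
      exact single_le_sum (f := fun j : Fin s => |∑ n ∈ Icc 1 N, d n j|) (fun j _ => abs_nonneg _) (mem_univ j)
    have e2 : ∑ n ∈ Icc 1 N, lamI ((n : ℤ) + (c j : ℤ)) = ∑ n ∈ Icc 1 N, d n j + ∑ n ∈ Icc 1 N, lamzI z ((n : ℤ) + (c j : ℤ)) := by
      rw [← sum_add_distrib]
      apply sum_congr rfl
      intro n _
      rw [← hdr]
      ring
    rw [← mul_sub, abs_mul, abs_of_pos hL0, e2, add_sub_assoc]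
    have e3 := abs_add_le (∑ n ∈ Icc 1 N, d n j) (∑ n ∈ Icc 1 N, lamzI z ((n : ℤ) + (c j : ℤ)) - N)
    have e4 := hz (c j)
    have e5 : L * (N / L) = N := by field_simp
    calc L * |∑ n ∈ Icc 1 N, d n j + (∑ n ∈ Icc 1 N, lamzI z ((n : ℤ) + (c j : ℤ)) - N)| ≤ L * (F2 + N / L) :=
          mul_le_mul_of_nonneg_left (e3.trans (add_le_add e1 e4)) hL0.le
      _ = L * F2 + N := by rw [mul_add, e5]
      _ ≤ _ := by linarith
  -- the squares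
  have k2 : ∀ j : Fin s, |∑ n ∈ Icc 1 N, d n j ^ 2 - L * N| ≤ (40 * (B + 3) + 2 * C₃) * (N * R) := by
    intro j
    have e1 : ∑ n ∈ Icc 1 N, lamzI z ((n : ℤ) + (c j : ℤ)) ≤ 2 * N := by
      have := (abs_le.1 (hz (c j))).2
      have e2 : (N : ℝ) / L ≤ N := div_le_self hN0 hL
      linarith
    have e2 := dif_sq N z (c j) L R (6 * ((B + 3) * N)) (2 * N) (25 * (B + 3) * (N * R)) hV (by linarith) (h1 j) e1 (h2 j)
    have e3 : ∑ n ∈ Icc 1 N, (lamI ((n : ℤ) + (c j : ℤ)) - lamzI z ((n : ℤ) + (c j : ℤ))) ^ 2 = ∑ n ∈ Icc 1 N, d n j ^ 2 := by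
      apply sum_congr rfl
      intro n _
      rw [← hdr]
    rw [e3] at e2
    have e4 := abs_add_le (∑ n ∈ Icc 1 N, d n j ^ 2 - L * ∑ n ∈ Icc 1 N, lamI ((n : ℤ) + (c j : ℤ))) (L * ∑ n ∈ Icc 1 N, lamI ((n : ℤ) + (c j : ℤ)) - L * N)
    rw [sub_add_sub_cancel] at e4
    have e5 := k1 j
    have e6 : 25 * (B + 3) * (N * R) + 2 * (R * (6 * ((B + 3) * N))) + R * (2 * N) + (2 * (C₃ * (N * R)) + N) ≤ (40 * (B + 3) + 2 * C₃) * (N * R) := by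
      have f1 : 25 * (B + 3) * (N * R) + 2 * (R * (6 * ((B + 3) * N))) + R * (2 * N) + (2 * (C₃ * (N * R))) = (37 * (B + 3) + 2 + 2 * C₃) * (N * R) := by ring
      have f2 : 0 ≤ B * (N * R) := by positivity
      nlinarith
    linarith
  have k3 := quad2 (Icc 1 N) d (L * N)
  rw [← hF1] at k3
  have k4 : ∑ j : Fin s, |∑ n ∈ Icc 1 N, d n j ^ 2 - L * N| ≤ s * ((40 * (B + 3) + 2 * C₃) * (N * R)) := by
    refine (sum_le_sum fun j _ => k2 j).trans (le_of_eq ?_)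
    rw [sum_const, card_univ, Fintype.card_fin, nsmul_eq_mul]
  have k5 : |∑ n ∈ Icc 1 N, (∑ j : Fin s, d n j) ^ 2 - s * (L * N)| ≤ (40 * (B + 3) + 4 * C₃) * (N * (s * R)) := by
    refine k3.trans ?_
    have : (40 * (B + 3) + 4 * C₃) * (N * (s * R)) = s * ((40 * (B + 3) + 2 * C₃) * (N * R)) + 2 * (C₃ * (N * (s * R))) := by ring
    rw [this]
    linarith
  have k6 := mink (Icc 1 N) (fun n => ∑ j : Fin s, d n j) (fun n => ∑ j : Fin s, (lamzI z ((n : ℤ) + (c j : ℤ)) - 1)) η (s * (L * N))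
    ((40 * (B + 3) + 4 * C₃) * (N * (s * R))) (2 * (C₃ * (N * (s * R)))) hη hη1 k5 (by rw [← hF3]; exact g3)
  have e7 : ∑ n ∈ Icc 1 N, (∑ j : Fin s, (lamI ((n : ℤ) + (c j : ℤ)) - 1)) ^ 2 =
      ∑ n ∈ Icc 1 N, (∑ j : Fin s, d n j + ∑ j : Fin s, (lamzI z ((n : ℤ) + (c j : ℤ)) - 1)) ^ 2 := by
    apply sum_congr rfl
    intro n _
    congr 1
    rw [← sum_add_distrib]
    apply sum_congr rfl
    intro j _
    rw [← hdr]
    ring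
  rw [e7]
  refine k6.trans ?_
  have hQ : 0 ≤ (N : ℝ) * (s * R) := by positivity
  have hX : 0 ≤ (s : ℝ) * (L * N) := by positivity
  have m1 : η * (s * (L * N)) ≤ ε / 2 * (s * (L * N)) := mul_le_mul_of_nonneg_right hη2 hX
  have m2 : η * ((40 * (B + 3) + 4 * C₃) * (N * (s * R))) ≤ (40 * (B + 3) + 4 * C₃) * (N * (s * R)) :=
    mul_le_of_le_one_left (by positivity) hη1
  have m3 : (2 * (40 * (B + 3) + 4 * C₃) + (1 + 1 / η) * (2 * C₃)) * (N * (s * R)) ≤ ε / 2 * R * (N * (s * R)) :=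
    mul_le_mul_of_nonneg_right hbig hQ
  have m4 : ε / 2 * R * (N * (s * R)) = ε / 2 * (s * (L * N)) := by rw [← hR]; ring
  rw [m4] at m3
  calc (40 * (B + 3) + 4 * C₃) * (N * (s * R)) + η * (s * (L * N) + (40 * (B + 3) + 4 * C₃) * (N * (s * R))) + (1 + 1 / η) * (2 * (C₃ * (N * (s * R))))
      = (40 * (B + 3) + 4 * C₃) * (N * (s * R)) + η * (s * (L * N)) + η * ((40 * (B + 3) + 4 * C₃) * (N * (s * R))) + (1 + 1 / η) * (2 * (C₃ * (N * (s * R)))) := by ring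
    _ ≤ (40 * (B + 3) + 4 * C₃) * (N * (s * R)) + ε / 2 * (s * (L * N)) + (40 * (B + 3) + 4 * C₃) * (N * (s * R)) + (1 + 1 / η) * (2 * (C₃ * (N * (s * R)))) := by
        linarith
    _ = ε / 2 * (s * (L * N)) + (2 * (40 * (B + 3) + 4 * C₃) + (1 + 1 / η) * (2 * C₃)) * (N * (s * R)) := by ring
    _ ≤ ε * (s * (L * N)) := by linarith

set_option maxHeartbeats 1000000 in
/-- the variance of the primes in windows whose points are moved -/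
theorem las_variance (l κ : ℕ) (hl : 2 ≤ l) : ∃ C : ℝ, ∀ (H B : ℕ) (ε : ℝ), 0 < ε → ∃ N₀ : ℕ, ∀ A : Set ℕ,
    (∀ y : ℕ, 1 ≤ y → ∃ a ∈ A, y ≤ a ∧ a ≤ l * y) → ∀ N : ℕ, N₀ ≤ N → ∀ h : ℕ, h ≤ B * N → ∀ s : ℕ, (s : ℝ) ≤ Real.log N ^ κ →
    ∃ S : ℕ → Finset ℕ, (∀ j, ∀ a ∈ S j, a ∈ A ∧ Real.log N ^ H ≤ a ∧ (a : ℝ) ≤ N / Real.log N ^ H) ∧
      (∀ j, ((S j).card : ℝ) ≤ C * Real.log (Real.log N) ^ 2) ∧
      |∑ n ∈ Icc 1 N, (∑ j ∈ range s, (lamI ((n : ℤ) + ((h + j + ∑ a ∈ S j, a : ℕ) : ℤ)) - 1)) ^ 2 - s * (Real.log N * N)| ≤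
        ε * (s * (Real.log N * N)) := by
  classical
  obtain ⟨b, hb, C₀, hC⟩ := las_lawP l 1 hl le_rfl (2 * (2 * κ + 4) + 6)
  refine ⟨|C₀|, fun H B ε hε => ?_⟩
  obtain ⟨c, N₁, h0⟩ := hC H (B + 4)
  obtain ⟨n2, h2⟩ := pv_exp b 20 c κ B (b ^ (B + 5)) hb (by norm_num)
  obtain ⟨n3, h3⟩ := lam2_sum B
  obtain ⟨C₃, hC₃⟩ : ∃ C₃ : ℝ, C₃ = 2 * (Real.exp 8 + 3) * (B + 3) + 2 := ⟨_, rfl⟩
  have hC₃0 : 0 < C₃ := by rw [hC₃]; positivity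
  obtain ⟨η, hη⟩ : ∃ η : ℝ, η = min 1 (ε / 2) := ⟨_, rfl⟩
  have hη0 : 0 < η := by rw [hη]; exact lt_min one_pos (by positivity)
  have hη1 : η ≤ 1 := by rw [hη]; exact min_le_left _ _
  have hη2 : η ≤ ε / 2 := by rw [hη]; exact min_le_right _ _
  obtain ⟨G, hG⟩ : ∃ G : ℝ, G = (2 * (40 * (B + 3) + 4 * C₃) + (1 + 1 / η) * (2 * C₃)) / (ε / 2) := ⟨_, rfl⟩
  obtain ⟨n4, h4⟩ := ev_L' (8 + G ^ 2)
  obtain ⟨n5, h5⟩ := ev_log' κ 1
  refine ⟨N₁ + n2 + n3 + n4 + n5 + 3, fun A hA N hN h hh s hs => ?_⟩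
  have hL := h4 N (by omega)
  have hsq := h5 N (by omega)
  have h3' := h3 N (by omega)
  obtain ⟨L, hLd⟩ : ∃ L, L = Real.log (N : ℝ) := ⟨_, rfl⟩
  obtain ⟨nn, Ω, pr, Sf, g1, g2, g3⟩ := h0 A hA N (by omega)
  obtain ⟨K, hK⟩ : ∃ K, K = Nat.log b N + 1 + (B + 4) := ⟨_, rfl⟩
  have hK1 : (B + 4) * N ≤ b ^ K := by
    have e1 : N < b ^ (Nat.log b N + 1) := Nat.lt_pow_succ_log_self (by omega) _
    have e2 : B + 4 < b ^ (B + 4) := Nat.lt_pow_self (by omega)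
    calc (B + 4) * N ≤ b ^ (B + 4) * b ^ (Nat.log b N + 1) := Nat.mul_le_mul e2.le e1.le
      _ = b ^ K := by rw [hK, ← pow_add, add_comm]
  have hK2 : b ^ K ≤ b ^ (B + 5) * N := by
    have e1 : b ^ Nat.log b N ≤ N := Nat.pow_log_le_self b (by omega)
    calc b ^ K = b ^ (B + 5) * b ^ Nat.log b N := by rw [hK, ← pow_add]; congr 1; omega
      _ ≤ b ^ (B + 5) * N := Nat.mul_le_mul_left _ e1
  obtain ⟨z, hz0, hVz, hzs, hexp⟩ := h2 N (by omega) K hK1 hK2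
  rw [← hLd] at hL hsq h3' hs hVz hzs hexp g3 ⊢
  rw [one_mul] at hsq
  have q3 : (0 : ℝ) ≤ B := Nat.cast_nonneg _
  have hG2 : 0 ≤ G ^ 2 := sq_nonneg _
  have hL8 : 8 ≤ L := by linarith
  have hL1 : 1 ≤ L := by linarith
  have hL0 : 0 < L := by linarith
  have hN3 : (3 : ℝ) ≤ N := by exact_mod_cast (by omega : 3 ≤ N)
  have hN0 : (0 : ℝ) < N := by linarith
  rcases Nat.eq_zero_or_pos s with hs0 | hs0
  · refine ⟨fun _ => ∅, fun j a ha => by simp at ha, fun j => ?_, ?_⟩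
    · rw [card_empty, Nat.cast_zero]
      positivity
    · rw [hs0]
      simp
  obtain ⟨R, hR⟩ : ∃ R, R = √L := ⟨_, rfl⟩
  rw [← hR] at h3' hVz hexp
  have hRR : R * R = L := by rw [hR]; exact Real.mul_self_sqrt hL0.le
  have hR1 : 1 ≤ R := by rw [hR]; exact Real.one_le_sqrt.2 hL1
  have hRG : G ≤ R := by
    rw [hR]
    apply Real.le_sqrt_of_sq_le
    linarith
  have hLκ : L ^ κ ≤ N := hsq.trans (nm_sqrt N (by linarith))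
  have hsN : s ≤ N := by exact_mod_cast hs.trans hLκ
  obtain ⟨Y, hY⟩ : ∃ Y : (Fin nn → ℕ) → ℕ, Y = fun v => ∑ a ∈ Sf v, a := ⟨_, rfl⟩
  have hYN : ∀ v ∈ Ω, Y v ≤ N := by
    intro v hv
    have := (g3 v hv).2.2.1
    rw [hY]
    simp only
    omega
  have hE := hexp (Fin nn → ℕ) inferInstance Ω (fun _ => pr) Y (by rw [hY, hK]; exact g2) g1 hYN h hh s hs0 hs
  rw [← hC₃] at hE
  obtain ⟨FF, hFF⟩ : ∃ FF : (Fin s → Fin nn → ℕ) → ℝ, FF = fun (ω : Fin s → Fin nn → ℕ) =>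
      ((∑ i : Fin s, ∑ j : Fin s, (if i = j then 0 else |∑ n ∈ Icc 1 N,
          (lamI ((n : ℤ) + ((h + i.val + Y (ω i) : ℕ) : ℤ)) - lamzI z ((n : ℤ) + ((h + i.val + Y (ω i) : ℕ) : ℤ))) *
          (lamI ((n : ℤ) + ((h + j.val + Y (ω j) : ℕ) : ℤ)) - lamzI z ((n : ℤ) + ((h + j.val + Y (ω j) : ℕ) : ℤ)))|)) +
        s * L * ∑ j : Fin s, |∑ n ∈ Icc 1 N, (lamI ((n : ℤ) + ((h + j.val + Y (ω j) : ℕ) : ℤ)) - lamzI z ((n : ℤ) + ((h + j.val + Y (ω j) : ℕ) : ℤ)))| +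
        ∑ n ∈ Icc 1 N, (∑ j : Fin s, (lamzI z ((n : ℤ) + ((h + j.val + Y (ω j) : ℕ) : ℤ)) - 1)) ^ 2) := ⟨_, rfl⟩
  have hs0r : (0 : ℝ) < s := by exact_mod_cast hs0
  have hpr0 : ∀ v ∈ Ω, (0 : ℝ) ≤ pr := fun v hv => g2.nonneg v hv
  obtain ⟨ω, hω, hωF⟩ := exists_le_avg (Fintype.piFinset (fun _ : Fin s => Ω)) (fun _ => ∏ _i : Fin s, pr) FF (by
    intro ω hω
    exact prod_nonneg fun i _ => hpr0 (ω i) (Fintype.mem_piFinset.1 hω i)) (total_w (fun _ : Fin s => Ω) (fun _ _ => pr) (fun _ => g1))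
    (C₃ * (N * (s * R))) (by positivity) (by rw [hFF]; exact hE)
  rw [hFF] at hωF
  have hωi : ∀ j, ω j ∈ Ω := fun j => Fintype.mem_piFinset.1 hω j
  obtain ⟨S, hS⟩ : ∃ S : ℕ → Finset ℕ, S = fun j => if hj : j < s then Sf (ω ⟨j, hj⟩) else ∅ := ⟨_, rfl⟩
  have hS1 : ∀ j (hj : j < s), S j = Sf (ω ⟨j, hj⟩) := by
    intro j hj
    rw [hS]
    exact dif_pos hj
  have hS2 : ∀ j, ¬ j < s → S j = ∅ := by
    intro j hj
    rw [hS]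
    exact dif_neg hj
  refine ⟨S, fun j a ha => ?_, fun j => ?_, ?_⟩
  · by_cases hj : j < s
    · rw [hS1 j hj] at ha
      exact (g3 _ (hωi ⟨j, hj⟩)).1 a ha
    · rw [hS2 j hj] at ha
      simp at ha
  · by_cases hj : j < s
    · rw [hS1 j hj]
      refine (g3 _ (hωi ⟨j, hj⟩)).2.1.trans ?_
      exact mul_le_mul_of_nonneg_right (le_abs_self _) (sq_nonneg _)
    · rw [hS2 j hj, card_empty, Nat.cast_zero]
      positivity
  have hcle : ∀ j : Fin s, h + j.val + Y (ω j) ≤ (B + 2) * N := by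
    intro j
    have e1 := hYN _ (hωi j)
    have e2 := j.isLt
    rw [add_mul]
    omega
  have key := pv_det N z s B (fun j => h + j.val + Y (ω j)) L R C₃ ε η hs0 hL1 hRR hR1 hC₃0.le hVz hzs (by
      intro j
      have e1 := win_shift lamI lamI_nonneg (h + j.val + Y (ω j)) N ((B + 3) * N) (by
        have e1 := hcle j
        have e2 : (B + 3) * N = (B + 2) * N + N := by ring
        omega)
      have e2 := lamI_sum ((B + 3) * N)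
      push_cast at e1 e2 ⊢
      linarith) (fun j => h3' _ (hcle j)) hωF hη0 hη1 hη2 (by
      have hε2 : 0 < ε / 2 := by positivity
      rw [hG, div_le_iff₀ hε2] at hRG
      linarith)
  have e1 : ∀ n ∈ Icc 1 N, (∑ j ∈ range s, (lamI ((n : ℤ) + ((h + j + ∑ a ∈ S j, a : ℕ) : ℤ)) - 1)) =
      ∑ j : Fin s, (lamI ((n : ℤ) + ((h + j.val + Y (ω j) : ℕ) : ℤ)) - 1) := by
    intro n _
    rw [← Fin.sum_univ_eq_sum_range (fun j => lamI ((n : ℤ) + ((h + j + ∑ a ∈ S j, a : ℕ) : ℤ)) - 1) s]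
    apply sum_congr rfl
    intro j _
    rw [hS1 j.val j.isLt, hY]
  rw [sum_congr rfl (fun n hn => by rw [e1 n hn])]
  exact key

end Pool.Agent.Y885
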