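import Pool.Agent.Y885.TU1
import Pool.Agent.Y885.LA2

set_option autoImplicit false

/-! Prime tuples up to few elements of sets which meet every `[x, l x]`. -/

namespace Pool.Agent.Y885
open Finset
open Pool.Agent.H807R2.Dav
open Pool.Agent.H373R2.T7
open Pool.Agent.W93.DG
open Pool.Agent.W93.TD (HLs)

/-- admissibility depends only on the residues modulo the small primes -/
lemma adm_congr {s : ℕ} (h a : Fin s → ℤ) (hadm : Admissible h) (hc : ∀ i, ((primorial (s + 1) : ℕ) : ℤ) ∣ a i - h i) : Admissible a := by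
  intro p hp
  by_cases hps : p ≤ s + 1
  · obtain ⟨r, hr1, hr2⟩ := hadm p hp
    refine ⟨r, hr1, fun i hi => hr2 i ?_⟩
    have h1 : (p : ℤ) ∣ ((primorial (s + 1) : ℕ) : ℤ) := by
      have : p ∣ primorial (s + 1) := hp.dvd_primorial_iff.2 hps
      exact_mod_cast this
    have h2 := h1.trans (hc i)
    have h3 : r + h i = (r + a i) - (a i - h i) := by ring
    rw [h3]
    exact dvd_sub hi h2
  · -- more classes than shifts
    push Not at hps
    classical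
    haveI : Fact p.Prime := ⟨hp⟩
    obtain ⟨T, hT⟩ : ∃ T : Finset (ZMod p), T = insert 0 ((univ : Finset (Fin s)).image (fun i => -((a i : ℤ) : ZMod p))) := ⟨_, rfl⟩
    have hcard : T.card < (univ : Finset (ZMod p)).card := by
      rw [card_univ, ZMod.card, hT]
      refine lt_of_le_of_lt (card_insert_le _ _) ?_
      have : ((univ : Finset (Fin s)).image (fun i => -((a i : ℤ) : ZMod p))).card ≤ s := by
        refine card_image_le.trans ?_
        rw [card_univ, Fintype.card_fin]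
      omega
    obtain ⟨x, _, hx⟩ := exists_mem_notMem_of_card_lt_card hcard
    obtain ⟨r, hr⟩ : ∃ r : ℤ, ((r : ℤ) : ZMod p) = x := ⟨x.val, by simp⟩
    rw [hT, mem_insert, not_or] at hx
    refine ⟨r, ?_, fun i hi => ?_⟩
    · rw [← ZMod.intCast_zmod_eq_zero_iff_dvd, hr]
      exact hx.1
    · apply hx.2
      rw [mem_image]
      refine ⟨i, mem_univ _, ?_⟩
      rw [← ZMod.intCast_zmod_eq_zero_iff_dvd] at hi
      push_cast at hi
      rw [hr] at hi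
      exact (eq_neg_of_add_eq_zero_left hi).symm

/-- prime tuples up to few elements of sets which meet every `[x, l x]` -/
theorem las_tuples (s l U : ℕ) (hs : 1 ≤ s) (hl : 2 ≤ l) : ∃ C : ℝ, ∀ (H B : ℕ) (ε : ℝ), 0 < ε → ∃ N₀ : ℕ, ∀ A : Fin s → Set ℕ,
    (∀ i, ∀ x : ℕ, 1 ≤ x → ∃ a ∈ A i, x ≤ a ∧ a ≤ l * x) → ∀ N : ℕ, N₀ ≤ N → ∀ h : Fin s → ℕ, (∀ i, h i ≤ B * N) →
    Admissible (fun i => (h i : ℤ)) →
    ∃ S : Fin s → Finset ℕ, (∀ i, ∀ a ∈ S i, a ∈ A i ∧ Real.log N ^ H ≤ a ∧ (a : ℝ) ≤ N / Real.log N ^ H) ∧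
      (∀ i, ((S i).card : ℝ) ≤ C * Real.log (Real.log N) ^ 2) ∧
      Admissible (fun i => ((h i + ∑ a ∈ S i, a : ℕ) : ℤ)) ∧ HLs ε U N (fun i => h i + ∑ a ∈ S i, a) := by
  classical
  obtain ⟨b, hb, C, hC⟩ := las_lawP l (primorial (s + 1)) hl (primorial_pos _) (2 * (2 * (U + 1) + 5 + s + 2) + 6)
  refine ⟨C, fun H B ε hε => ?_⟩
  obtain ⟨c, N₀, h0⟩ := hC H (B + 2)
  obtain ⟨K₀, h1⟩ := tl_tuples s b 20 c (b ^ (B + 3)) (U + 1) hs hb (by norm_num) ε hε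
  refine ⟨N₀ + b ^ (K₀ + 2), fun A hA N hN h hh hadm => ?_⟩
  have hbn : 0 < b := by omega
  obtain ⟨K, hK⟩ : ∃ K, K = Nat.log b N + 1 := ⟨_, rfl⟩
  have hN0 : 0 < N := by
    have : 0 < b ^ (K₀ + 2) := Nat.pow_pos hbn
    omega
  have hKK : K₀ + 2 ≤ K := by
    have : K₀ + 2 ≤ Nat.log b N := Nat.le_log_of_pow_le (by omega) (by omega)
    omega
  have hKlow : b ^ (K - 1) ≤ N := by
    rw [hK, Nat.add_sub_cancel]
    exact Nat.pow_log_le_self b (by omega)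
  have hKup : N < b ^ K := by rw [hK]; exact Nat.lt_pow_succ_log_self (by omega) _
  have hlaws := fun i => h0 (A i) (hA i) N (by omega)
  choose n Ω₀ pr Sf g1 g2 g3 using hlaws
  -- a common space
  obtain ⟨Ω, hΩ⟩ : ∃ Ω : Fin s → Finset ((n : ℕ) × (Fin n → ℕ)), Ω = fun i => (Ω₀ i).map ⟨Sigma.mk (n i), sigma_mk_injective⟩ := ⟨_, rfl⟩
  obtain ⟨p, hp⟩ : ∃ p : Fin s → ((n : ℕ) × (Fin n → ℕ)) → ℝ, p = fun i _ => pr i := ⟨_, rfl⟩
  obtain ⟨S, hS⟩ : ∃ S : Fin s → ((n : ℕ) × (Fin n → ℕ)) → Finset ℕ, S = fun i v => if h : v.1 = n i then Sf i (h ▸ v.2) else ∅ := ⟨_, rfl⟩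
  have hSmk : ∀ i (ω : Fin (n i) → ℕ), S i ⟨n i, ω⟩ = Sf i ω := by
    intro i ω
    rw [hS]
    exact dif_pos rfl
  obtain ⟨Y, hY⟩ : ∃ Y : Fin s → ((n : ℕ) × (Fin n → ℕ)) → ℤ, Y = fun i v => ((∑ a ∈ S i v, a : ℕ) : ℤ) + (h i : ℤ) := ⟨_, rfl⟩
  have hmemΩ : ∀ i, ∀ v ∈ Ω i, ∃ ω ∈ Ω₀ i, v = ⟨n i, ω⟩ := by
    intro i v hv
    rw [hΩ, mem_map] at hv
    obtain ⟨ω, h1, h2⟩ := hv
    exact ⟨ω, h1, h2.symm⟩
  have hlaw : ∀ i, TLaw b 20 c (2 * (2 * (U + 1) + 5 + s + 2) + 6) (K + (B + 2)) (Ω i) (p i) (Y i) := by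
    intro i
    have e1 := (g2 i).add (h i : ℤ)
    rw [← hK] at e1
    rw [hΩ]
    exact e1.map _ (p i) (Y i) (fun ω => by rw [hp]) (fun ω => by rw [hY]; simp only [Function.Embedding.coeFn_mk, hSmk])
  have hsum : ∀ i, ∑ v ∈ Ω i, p i v = 1 := by
    intro i
    rw [hΩ, hp]
    simp only [sum_map]
    exact g1 i
  have hval : ∀ i, ∀ v ∈ Ω i, 0 ≤ Y i v ∧ Y i v ≤ ((B + 1) * N : ℕ) := by
    intro i v hv
    obtain ⟨ω, h1, h2⟩ := hmemΩ i v hv
    have h3 := (g3 i ω h1).2.2.1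
    rw [hY, h2]
    simp only
    rw [hSmk]
    have h4 := hh i
    constructor
    · positivity
    · exact_mod_cast (by rw [add_mul]; omega : (∑ a ∈ Sf i ω, a) + h i ≤ (B + 1) * N)
  have hBb : B + 2 < b ^ (B + 2) := Nat.lt_pow_self (by omega)
  have hbig : (B + 2) * N ≤ b ^ (K + (B + 2)) := by
    calc (B + 2) * N ≤ b ^ (B + 2) * b ^ K := Nat.mul_le_mul hBb.le hKup.le
      _ = _ := by rw [← pow_add, add_comm]
  have hmain := h1 (K + (B + 2)) (by omega) _ inferInstance Ω p Y hlaw hsum N (by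
      calc b ^ (K + (B + 2)) = b ^ (B + 3) * b ^ (K - 1) := by rw [← pow_add]; congr 1; omega
        _ ≤ b ^ (B + 3) * N := Nat.mul_le_mul_left _ hKlow) (by nlinarith) (by
      intro i v hv
      obtain ⟨h3, h4⟩ := hval i v hv
      have h5 : ((B + 2) * N : ℕ) ≤ (b : ℤ) ^ (K + (B + 2)) := by exact_mod_cast hbig
      have h6 : (0 : ℤ) < (b : ℤ) ^ (K + (B + 2)) := by positivity
      push_cast at h4 h5
      constructor
      · linarith
      · nlinarith) (fun ω => (∀ i, 0 ≤ Y i (ω i)) ∧ ¬ HLs ε (U + 1) N (fun i => (Y i (ω i)).toNat)) (Classical.decPred _)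
      (fun ω _ h => h)
  -- a good point
  have hex : ∃ ω ∈ Fintype.piFinset Ω, HLs ε (U + 1) N (fun i => (Y i (ω i)).toNat) := by
    by_contra hcon
    push Not at hcon
    have hmain' : ∑ ω ∈ Fintype.piFinset Ω, ∏ i, p i (ω i) ≤ 1 / ((K + (B + 2) : ℕ) : ℝ) ^ (U + 1) := by
      refine le_trans (le_of_eq ?_) hmain
      apply sum_congr rfl
      intro ω hω
      rw [if_pos]
      exact ⟨fun i => (hval i (ω i) (Fintype.mem_piFinset.1 hω i)).1, hcon ω hω⟩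
    rw [Pool.Agent.W93.TD.total_w Ω p hsum] at hmain'
    have hKr : (2 : ℝ) ≤ ((K + (B + 2) : ℕ) : ℝ) := by exact_mod_cast (by omega : 2 ≤ K + (B + 2))
    have e2 : (2 : ℝ) ≤ ((K + (B + 2) : ℕ) : ℝ) ^ (U + 1) := hKr.trans (le_self_pow₀ (by linarith) (by omega))
    rw [le_div_iff₀ (by linarith)] at hmain'
    linarith
  obtain ⟨ω, hω, hgood⟩ := hex
  have hωi := fun i => hmemΩ i (ω i) (Fintype.mem_piFinset.1 hω i)
  choose ω₀ k1 k2 using hωi
  have hYn : ∀ i, (Y i (ω i)).toNat = h i + ∑ a ∈ Sf i (ω₀ i), a := by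
    intro i
    rw [k2 i, hY]
    simp only
    rw [hSmk]
    omega
  simp only [hYn] at hgood
  refine ⟨fun i => Sf i (ω₀ i), fun i => (g3 i _ (k1 i)).1, fun i => (g3 i _ (k1 i)).2.1, ?_, ?_⟩
  · refine adm_congr _ _ hadm (fun i => ?_)
    have e1 := (g3 i _ (k1 i)).2.2.2
    have e2 : ((h i + ∑ a ∈ Sf i (ω₀ i), a : ℕ) : ℤ) - (h i : ℤ) = ((∑ a ∈ Sf i (ω₀ i), a : ℕ) : ℤ) := by push_cast; ring
    rw [e2]
    exact_mod_cast e1
  · obtain ⟨S', q1, q2, q3⟩ := hgood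
    refine ⟨S', q1, q2.trans ?_, q3⟩
    have hN4 : (3 : ℝ) ≤ N := by
      have e1 : 2 ^ 2 ≤ b ^ (K₀ + 2) := (Nat.pow_le_pow_left hb 2).trans (Nat.pow_le_pow_right hbn (by omega))
      exact_mod_cast (by omega : 3 ≤ N)
    have hlogN : 1 ≤ Real.log (N : ℝ) := by
      rw [Real.le_log_iff_exp_le (by linarith)]
      have := Real.exp_one_lt_d9
      linarith
    apply div_le_div_of_nonneg_left (by linarith) (by positivity)
    exact pow_le_pow_right₀ hlogN (by omega)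

end Pool.Agent.Y885
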