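import Pool.Agent.Y885.TU4

set_option autoImplicit false

/-! Prime tuples, uniformly over windows of shifts, up to few elements of sets which meet every `[x, l x]`. -/

namespace Pool.Agent.Y885
open Finset
open Pool.Agent.H807R2.Dav
open Pool.Agent.H373R2.T7
open Pool.Agent.W93.DG
open Pool.Agent.W93.TD (HLs)

/-- prime tuples, uniformly over windows of shifts, up to few elements of sets which meet every `[x, l x]` -/
theorem las_tuplesW (s l U κ : ℕ) (hs : 1 ≤ s) (hl : 2 ≤ l) : ∃ C : ℝ, ∀ (H B : ℕ) (ε : ℝ), 0 < ε → ∃ N₀ : ℕ, ∀ A : Fin s → Set ℕ,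
    (∀ i, ∀ x : ℕ, 1 ≤ x → ∃ a ∈ A i, x ≤ a ∧ a ≤ l * x) → ∀ N : ℕ, N₀ ≤ N → ∀ h : Fin s → ℕ, (∀ i, h i ≤ B * N) →
    ∃ S : Fin s → Finset ℕ, (∀ i, ∀ a ∈ S i, a ∈ A i ∧ Real.log N ^ H ≤ a ∧ (a : ℝ) ≤ N / Real.log N ^ H) ∧
      (∀ i, ((S i).card : ℝ) ≤ C * Real.log (Real.log N) ^ 2) ∧
      (∀ i, primorial (s + 1) ∣ ∑ a ∈ S i, a) ∧ HLw ε U κ N (fun i => h i + ∑ a ∈ S i, a) := by
  classical
  obtain ⟨b, hb, C, hC⟩ := las_lawP l (primorial (s + 1)) hl (primorial_pos _) (2 * (2 * (U + 1 + (κ + 2) * s) + 5 + s + 2) + 6)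
  refine ⟨C, fun H B ε hε => ?_⟩
  obtain ⟨c, N₀, h0⟩ := hC H (B + 3)
  obtain ⟨K₀, h1⟩ := tl_tuplesW s b 20 c (b ^ (B + 4)) (U + 1) κ hs hb (by norm_num) ε hε
  refine ⟨N₀ + b ^ (K₀ + 2), fun A hA N hN h hh => ?_⟩
  have hbn : 0 < b := by omega
  obtain ⟨K, hK⟩ : ∃ K, K = Nat.log b N + 1 := ⟨_, rfl⟩
  have hN0 : 0 < N := by
    have : 0 < b ^ (K₀ + 2) := Nat.pow_pos hbn
    omega
  have hKK : K₀ + 2 ≤ K := by
    have : K₀ + 2 ≤ Nat.log b N := Nat.le_log_of_pow_le (by omega) (by omega)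
    omega
  have hKlow : b ^ (K - 1) ≤ N := by
    rw [hK, Nat.add_sub_cancel]
    exact Nat.pow_log_le_self b (by omega)
  have hKup : N < b ^ K := by rw [hK]; exact Nat.lt_pow_succ_log_self (by omega) _
  have hlaws := fun i => h0 (A i) (hA i) N (by omega)
  choose n Ω₀ pr Sf g1 g2 g3 using hlaws
  -- a common space
  obtain ⟨Ω, hΩ⟩ : ∃ Ω : Fin s → Finset ((n : ℕ) × (Fin n → ℕ)), Ω = fun i => (Ω₀ i).map ⟨Sigma.mk (n i), sigma_mk_injective⟩ := ⟨_, rfl⟩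
  obtain ⟨p, hp⟩ : ∃ p : Fin s → ((n : ℕ) × (Fin n → ℕ)) → ℝ, p = fun i _ => pr i := ⟨_, rfl⟩
  obtain ⟨S, hS⟩ : ∃ S : Fin s → ((n : ℕ) × (Fin n → ℕ)) → Finset ℕ, S = fun i v => if h : v.1 = n i then Sf i (h ▸ v.2) else ∅ := ⟨_, rfl⟩
  have hSmk : ∀ i (ω : Fin (n i) → ℕ), S i ⟨n i, ω⟩ = Sf i ω := by
    intro i ω
    rw [hS]
    exact dif_pos rfl
  obtain ⟨Y, hY⟩ : ∃ Y : Fin s → ((n : ℕ) × (Fin n → ℕ)) → ℤ, Y = fun i v => ((∑ a ∈ S i v, a : ℕ) : ℤ) + (h i : ℤ) := ⟨_, rfl⟩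
  have hmemΩ : ∀ i, ∀ v ∈ Ω i, ∃ ω ∈ Ω₀ i, v = ⟨n i, ω⟩ := by
    intro i v hv
    rw [hΩ, mem_map] at hv
    obtain ⟨ω, h1, h2⟩ := hv
    exact ⟨ω, h1, h2.symm⟩
  have hlaw : ∀ i, TLaw b 20 c (2 * (2 * (U + 1 + (κ + 2) * s) + 5 + s + 2) + 6) (K + (B + 3)) (Ω i) (p i) (Y i) := by
    intro i
    have e1 := (g2 i).add (h i : ℤ)
    rw [← hK] at e1
    rw [hΩ]
    exact e1.map _ (p i) (Y i) (fun ω => by rw [hp]) (fun ω => by rw [hY]; simp only [Function.Embedding.coeFn_mk, hSmk])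
  have hsum : ∀ i, ∑ v ∈ Ω i, p i v = 1 := by
    intro i
    rw [hΩ, hp]
    simp only [sum_map]
    exact g1 i
  have hval : ∀ i, ∀ v ∈ Ω i, 0 ≤ Y i v ∧ Y i v ≤ ((B + 1) * N : ℕ) := by
    intro i v hv
    obtain ⟨ω, h1, h2⟩ := hmemΩ i v hv
    have h3 := (g3 i ω h1).2.2.1
    rw [hY, h2]
    simp only
    rw [hSmk]
    have h4 := hh i
    constructor
    · positivity
    · exact_mod_cast (by rw [add_mul]; omega : (∑ a ∈ Sf i ω, a) + h i ≤ (B + 1) * N)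
  have hBb : B + 3 < b ^ (B + 3) := Nat.lt_pow_self (by omega)
  have hbig : (B + 3) * N ≤ b ^ (K + (B + 3)) := by
    calc (B + 3) * N ≤ b ^ (B + 3) * b ^ K := Nat.mul_le_mul hBb.le hKup.le
      _ = _ := by rw [← pow_add, add_comm]
  have hmain := h1 (K + (B + 3)) (by omega) _ inferInstance Ω p Y hlaw hsum N (by
      calc b ^ (K + (B + 3)) = b ^ (B + 4) * b ^ (K - 1) := by rw [← pow_add]; congr 1; omega
        _ ≤ b ^ (B + 4) * N := Nat.mul_le_mul_left _ hKlow) (by nlinarith) (by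
      intro i v hv
      obtain ⟨h3, h4⟩ := hval i v hv
      have h5 : ((B + 3) * N : ℕ) ≤ (b : ℤ) ^ (K + (B + 3)) := by exact_mod_cast hbig
      have h6 : (0 : ℤ) < (b : ℤ) ^ (K + (B + 3)) := by positivity
      push_cast at h4 h5
      constructor
      · linarith
      · nlinarith) (fun ω => (∀ i, 0 ≤ Y i (ω i)) ∧ ¬ HLw ε (U + 1) κ N (fun i => (Y i (ω i)).toNat)) (Classical.decPred _)
      (fun ω _ h => h)
  -- a good point
  have hex : ∃ ω ∈ Fintype.piFinset Ω, HLw ε (U + 1) κ N (fun i => (Y i (ω i)).toNat) := by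
    by_contra hcon
    push Not at hcon
    have hmain' : ∑ ω ∈ Fintype.piFinset Ω, ∏ i, p i (ω i) ≤ 1 / ((K + (B + 3) : ℕ) : ℝ) ^ (U + 1) := by
      refine le_trans (le_of_eq ?_) hmain
      apply sum_congr rfl
      intro ω hω
      rw [if_pos]
      exact ⟨fun i => (hval i (ω i) (Fintype.mem_piFinset.1 hω i)).1, hcon ω hω⟩
    rw [Pool.Agent.W93.TD.total_w Ω p hsum] at hmain'
    have hKr : (2 : ℝ) ≤ ((K + (B + 3) : ℕ) : ℝ) := by exact_mod_cast (by omega : 2 ≤ K + (B + 3))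
    have e2 : (2 : ℝ) ≤ ((K + (B + 3) : ℕ) : ℝ) ^ (U + 1) := hKr.trans (le_self_pow₀ (by linarith) (by omega))
    rw [le_div_iff₀ (by linarith)] at hmain'
    linarith
  obtain ⟨ω, hω, hgood⟩ := hex
  have hωi := fun i => hmemΩ i (ω i) (Fintype.mem_piFinset.1 hω i)
  choose ω₀ k1 k2 using hωi
  have hYn : ∀ i, (Y i (ω i)).toNat = h i + ∑ a ∈ Sf i (ω₀ i), a := by
    intro i
    rw [k2 i, hY]
    simp only
    rw [hSmk]
    omega
  simp only [hYn] at hgood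
  refine ⟨fun i => Sf i (ω₀ i), fun i => (g3 i _ (k1 i)).1, fun i => (g3 i _ (k1 i)).2.1, ?_, ?_⟩
  · intro i
    exact (g3 i _ (k1 i)).2.2.2
  · intro e he
    have hN4 : 3 ≤ N := by
      have e1 : 2 ^ 2 ≤ b ^ (K₀ + 2) := (Nat.pow_le_pow_left hb 2).trans (Nat.pow_le_pow_right hbn (by omega))
      omega
    exact HLs_mono (by omega) hN4 (hgood e he)

end Pool.Agent.Y885
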