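import Pool.Agent.Y885.WI1
import Pool.Agent.W93.PG6

set_option autoImplicit false

/-! Goldbach pairs in windows for random integers with a thin large spectrum. -/

namespace Pool.Agent.Y885
open Finset
open Pool.Agent.H373R2.T7
open Pool.Agent.H560R3.GB (sing)
open Pool.Agent.W93.GB (vM_le)
open Pool.Agent.W93.DG
open Pool.Agent.W93.PP (markov)
open Pool.Agent.W93.PG

/-- almost all values are good -/
theorem tl_good (b E c V U : ℕ) (hb : 2 ≤ b) (hE : 1 ≤ E) : ∃ K₀ : ℕ, ∀ K : ℕ, K₀ ≤ K →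
    ∀ (ι : Type) (Ω : Finset ι) (p : ι → ℝ) (Y : ι → ℤ), TLaw b E c (2 * (U + 2 * V + 9) + 6) (K + 2) Ω p Y →
    (∀ ω ∈ Ω, |Y ω| ≤ (b : ℤ) ^ K) → ∀ bad : ι → Prop, ∀ _hdec : DecidablePred bad,
    (∀ ω ∈ Ω, bad ω → 0 < Y ω ∧ 2 ∣ Y ω ∧ ¬ GoodG V (b ^ K) (Y ω).toNat) →
    ∑ ω ∈ Ω, (if bad ω then p ω else 0) ≤ 1 / (K : ℝ) ^ U := by
  classical
  obtain ⟨B1, hB1⟩ := tl_one b E c hb hE (U + 2 * V + 9)
  obtain ⟨E1, hE1⟩ : ∃ E1, E1 = B1 + V + 7 := ⟨_, rfl⟩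
  obtain ⟨k1, h1⟩ := hB1 (E1 + 1)
  obtain ⟨X1, hdet⟩ := pg_det V E1 (by omega)
  obtain ⟨k2, hk2⟩ := exists_nat_ge ((b : ℝ) ^ 2 * b ^ (2 * V + 8))
  obtain ⟨k3, hk3⟩ := exists_nat_ge ((2 : ℝ) ^ (B1 + 2))
  refine ⟨k1 + X1 + k2 + k3 + 4, fun K hk ι Ω p Yv hlaw hYle bad hdec hbad => ?_⟩
  have hbr : (2 : ℝ) ≤ b := by exact_mod_cast hb
  have hb0 : (0 : ℝ) < b := by linarith
  have hbn : 0 < b := by omega
  obtain ⟨X, hX⟩ : ∃ X, X = b ^ K := ⟨_, rfl⟩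
  obtain ⟨Y, hY⟩ : ∃ Y, Y = b ^ (K + 2) := ⟨_, rfl⟩
  have hKX : K < X := by rw [hX]; exact Nat.lt_pow_self (by omega)
  have hX0 : (0 : ℝ) < X := by exact_mod_cast (by omega : 0 < X)
  have hYX : Y = b ^ 2 * X := by rw [hY, hX, ← pow_add]; congr 1; ring
  obtain ⟨hL1, hL2⟩ := logX b K hb
  rw [← hX] at hL1 hL2
  rw [← hX] at hbad
  obtain ⟨L, hL⟩ : ∃ L, L = Real.log (X : ℝ) := ⟨_, rfl⟩
  rw [← hL] at hL1 hL2
  have hK4 : (4 : ℝ) ≤ K := by exact_mod_cast (by omega : 4 ≤ K)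
  have hL2' : 2 ≤ L := by linarith
  have hL1' : 1 ≤ L := by linarith
  have hL0 : 0 < L := by linarith
  have hk0 : (1 : ℝ) ≤ K := by linarith
  -- the logarithm of `Y`
  have hLY1 : L ≤ Real.log Y := by
    rw [hL]
    apply Real.log_le_log hX0
    rw [hYX]
    have : 1 ≤ b ^ 2 := Nat.one_le_pow _ _ hbn
    exact_mod_cast Nat.le_mul_of_pos_left X (by omega)
  have hLY2 : Real.log Y ≤ 2 * L := by
    have e1 : Real.log (Y : ℝ) = (K + 2 : ℕ) * Real.log b := by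
      rw [hY]; push_cast; rw [Real.log_pow]; push_cast; ring
    have e2 : L = (K : ℕ) * Real.log b := by
      rw [hL, hX]; push_cast; rw [Real.log_pow]
    rw [e1, e2]
    have e3 : 0 ≤ Real.log (b : ℝ) := Real.log_nonneg (by linarith)
    have e4 : ((K + 2 : ℕ) : ℝ) ≤ 2 * (K : ℕ) := by
      have : K + 2 ≤ 2 * K := by omega
      exact_mod_cast this
    calc ((K + 2 : ℕ) : ℝ) * Real.log b ≤ (2 * (K : ℕ)) * Real.log b := mul_le_mul_of_nonneg_right e4 e3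
      _ = _ := by ring
  obtain ⟨z, hz⟩ : ∃ z, z = ⌈L ^ E1⌉₊ := ⟨_, rfl⟩
  have hfl : ∀ E : ℕ, L ^ E ≤ (⌈L ^ E⌉₊ : ℝ) ∧ (⌈L ^ E⌉₊ : ℝ) ≤ L ^ (E + 1) := by
    intro E
    refine ⟨Nat.le_ceil _, ?_⟩
    have h5 : (⌈L ^ E⌉₊ : ℝ) < L ^ E + 1 := Nat.ceil_lt_add_one (by positivity)
    have h6 : 1 ≤ L ^ E := one_le_pow₀ hL1'
    rw [pow_succ]
    nlinarith
  have hz1 : L ^ E1 ≤ z := by rw [hz]; exact (hfl E1).1
  have hz2 : (z : ℝ) ≤ L ^ (E1 + 1) := by rw [hz]; exact (hfl E1).2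
  obtain ⟨T, hT⟩ : ∃ T, T = ⌈L ^ (V + 3)⌉₊ := ⟨_, rfl⟩
  have hT1 : L ^ (V + 3) ≤ T := by rw [hT]; exact (hfl (V + 3)).1
  have hT2 : (T : ℝ) ≤ L ^ (V + 4) := by rw [hT]; exact (hfl (V + 3)).2
  have hz3 : Real.log Y ^ B1 ≤ z := by
    refine le_trans ?_ hz1
    have hk3L : (2 : ℝ) ^ B1 ≤ L := by
      have e1 : (k3 : ℝ) ≤ K := by exact_mod_cast (by omega : k3 ≤ K)
      have e2 : (2 : ℝ) ^ (B1 + 2) = 4 * 2 ^ B1 := by rw [pow_add]; ring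
      have e3 : (0 : ℝ) < 2 ^ B1 := by positivity
      linarith
    calc Real.log Y ^ B1 ≤ (2 * L) ^ B1 := pow_le_pow_left₀ (by linarith) hLY2 _
      _ = 2 ^ B1 * L ^ B1 := mul_pow _ _ _
      _ ≤ L * L ^ B1 := mul_le_mul_of_nonneg_right hk3L (by positivity)
      _ = L ^ (B1 + 1) := by ring
      _ ≤ L ^ E1 := pow_le_pow_right₀ hL1' (by omega)
  have hz4 : (z : ℝ) ≤ Real.log Y ^ (E1 + 1) := hz2.trans (pow_le_pow_left₀ hL0.le hLY1 _)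
  have hXz : (X : ℤ) = (b : ℤ) ^ K := by rw [hX]; push_cast; ring
  have e2 : (b : ℤ) ^ (K + 2) = (b : ℤ) ^ 2 * X := by
    have : ((Y : ℕ) : ℤ) = ((b ^ 2 * X : ℕ) : ℤ) := by rw [hYX]
    rw [hY] at this
    push_cast at this
    exact this
  have e3 : (4 : ℤ) ≤ (b : ℤ) ^ 2 := by
    have : (2 : ℤ) ≤ b := by exact_mod_cast hb
    nlinarith
  have e4 : (0 : ℤ) < X := by exact_mod_cast (by omega : 0 < X)
  have e5 : 4 * (X : ℤ) ≤ (b : ℤ) ^ (K + 2) := by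
    rw [e2]
    exact mul_le_mul_of_nonneg_right e3 e4.le
  have key := markov Ω (range (T + 1)) (fun d => p d) hlaw.nonneg
    (fun d i => |∑ n ∈ Icc 1 (min (i * (X / T + 1)) X), ArithmeticFunction.vonMangoldt n *
        (lamI (Yv d - n) - lamzI z (Yv d - n))|)
    (fun _ _ => abs_nonneg _) bad (X / L ^ (V + 2)) (L * ((Y : ℝ) / ((K + 2 : ℕ) : ℝ) ^ (U + 2 * V + 9))) (by positivity) (by
      intro d hd hb2
      by_contra hcon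
      push Not at hcon
      obtain ⟨c1, c2, c3⟩ := hbad d hd hb2
      apply c3
      obtain ⟨m, hm⟩ : ∃ m : ℕ, (m : ℤ) = Yv d := ⟨(Yv d).toNat, by omega⟩
      have hYd := hYle d hd
      rw [← hm] at c1 c2 hYd ⊢
      rw [Int.toNat_natCast]
      have hmX : m ≤ X := by
        have e1 := (le_abs_self _).trans hYd
        rw [← hXz] at e1
        exact_mod_cast e1
      intro y hy
      refine hdet X (by omega) m hmX (by exact_mod_cast c2) (by omega) z (by rw [← hL]; exact hz1) (by rw [← hL]; exact hz2) T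
        (by rw [← hL]; exact hT1) ?_ y hy
      intro i hi
      have h5 := (hcon i hi).le
      rw [← hm] at h5
      rw [← hL]
      exact h5)
    (by
      intro i hi
      have e1 : ((min (i * (X / T + 1)) X : ℕ) : ℤ) ≤ X := by exact_mod_cast min_le_right _ _
      refine h1 (K + 2) (by omega) z (by rw [← hY]; exact hz3) (by rw [← hY]; exact hz4) ι Ω p Yv hlaw (min (i * (X / T + 1)) X)
        ?_ ?_ L hL0
        (fun n => ArithmeticFunction.vonMangoldt n) ?_ |>.trans (le_of_eq (by rw [← hY]))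
      · intro ω hω
        have e6 := hYle ω hω
        rw [← hXz] at e6
        linarith
      · linarith
      · intro n hn
        rw [mem_Icc] at hn
        rw [abs_of_nonneg ArithmeticFunction.vonMangoldt_nonneg, hL]
        exact vM_le n X (by omega) (hn.2.trans (min_le_right _ _)))
  refine key.trans ?_
  rw [card_range]
  push_cast
  have hT3 : (T : ℝ) + 1 ≤ L ^ (V + 5) := by
    have h6 : 1 ≤ L ^ (V + 4) := one_le_pow₀ hL1'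
    rw [show V + 5 = (V + 4) + 1 by ring, pow_succ L (V + 4)]
    nlinarith
  have hYr : (Y : ℝ) = (b : ℝ) ^ 2 * X := by rw [hYX]; push_cast; ring
  have hKK : (K : ℝ) ≤ (K : ℝ) + 2 := by linarith
  calc ((T : ℝ) + 1) * (L * ((Y : ℝ) / ((K : ℝ) + 2) ^ (U + 2 * V + 9))) / (X / L ^ (V + 2))
      ≤ L ^ (V + 5) * (L * ((Y : ℝ) / (K : ℝ) ^ (U + 2 * V + 9))) / (X / L ^ (V + 2)) := by gcongr
    _ = (b : ℝ) ^ 2 * L ^ (2 * V + 8) / (K : ℝ) ^ (U + 2 * V + 9) := by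
        rw [hYr, show 2 * V + 8 = (V + 5) + 1 + (V + 2) by ring, pow_add L (V + 5 + 1) (V + 2), pow_succ L (V + 5)]
        field_simp
    _ ≤ (b : ℝ) ^ 2 * (b * K) ^ (2 * V + 8) / (K : ℝ) ^ (U + 2 * V + 9) := by gcongr
    _ = ((b : ℝ) ^ 2 * b ^ (2 * V + 8)) * (K : ℝ) ^ (2 * V + 8) / (K : ℝ) ^ (U + 2 * V + 9) := by
        rw [mul_pow (b : ℝ) (K : ℝ)]; ring
    _ ≤ (K : ℝ) * (K : ℝ) ^ (2 * V + 8) / (K : ℝ) ^ (U + 2 * V + 9) := by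
        have : (b : ℝ) ^ 2 * b ^ (2 * V + 8) ≤ K := hk2.trans (by exact_mod_cast (by omega : k2 ≤ K))
        gcongr
    _ = 1 / (K : ℝ) ^ U := by
        have e1 : (K : ℝ) ^ (U + 2 * V + 9) = (K : ℝ) ^ U * ((K : ℝ) * (K : ℝ) ^ (2 * V + 8)) := by
          rw [show U + 2 * V + 9 = U + (1 + (2 * V + 8)) by ring, pow_add, pow_add, pow_one]
        rw [e1]
        field_simp

/-- the numbers of Goldbach pairs in all windows are as predicted, for almost all large values -/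
theorem tl_win0 (b : ℕ) (hb : 2 ≤ b) (E c A W U m₀ : ℕ) (hE : 1 ≤ E) (ε : ℝ) (hε : 0 < ε) (P : ℕ → Prop)
    (hP : ∀ m : ℕ, m₀ ≤ m → 2 ∣ m → WinP ε A m → P m) : ∃ K₀ : ℕ, ∀ K : ℕ, K₀ ≤ K →
    ∀ (ι : Type) (Ω : Finset ι) (p : ι → ℝ) (Y : ι → ℤ), TLaw b E c (2 * (U + 2 * (A + W + 4) + 9) + 6) (K + 2) Ω p Y →
    (∀ ω ∈ Ω, |Y ω| ≤ (b : ℤ) ^ K) → ∀ bad : ι → Prop, ∀ _hdec : DecidablePred bad,
    (∀ ω ∈ Ω, bad ω → 0 < Y ω ∧ 2 ∣ Y ω ∧ ((b ^ K : ℕ) : ℝ) / Real.log ((b ^ K : ℕ) : ℝ) ^ W ≤ Y ω ∧ ¬ P (Y ω).toNat) →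
    ∑ ω ∈ Ω, (if bad ω then p ω else 0) ≤ 1 / (K : ℝ) ^ U := by
  classical
  obtain ⟨k2, h2⟩ := tl_good b E c (A + W + 4) U hb hE
  obtain ⟨X0, h3⟩ := win_count ε hε A W
  obtain ⟨n4, h4⟩ := ev_log' W 1
  refine ⟨k2 + X0 + n4 + m₀ ^ 2 + 4, fun K hk ι Ω p Yv hlaw hYle bad hdec hbad => ?_⟩
  obtain ⟨X, hX⟩ : ∃ X, X = b ^ K := ⟨_, rfl⟩
  have hkX : K < X := by
    rw [hX]
    exact Nat.lt_pow_self (by omega)
  have hX3 : (3 : ℝ) ≤ X := by exact_mod_cast (by omega : 3 ≤ X)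
  have hX0 : (0 : ℝ) < X := by linarith
  obtain ⟨L, hL⟩ : ∃ L, L = Real.log (X : ℝ) := ⟨_, rfl⟩
  have hL1 : 1 ≤ L := by
    rw [hL, Real.le_log_iff_exp_le hX0]
    have := Real.exp_one_lt_d9
    linarith
  have hL0 : 0 < L := by linarith
  have a4 := h4 X (by omega)
  rw [one_mul, ← hL] at a4
  have hss : √(X : ℝ) * √(X : ℝ) = X := Real.mul_self_sqrt hX0.le
  have hs0 : 0 < √(X : ℝ) := Real.sqrt_pos.2 hX0
  apply h2 K (by omega) ι Ω p Yv hlaw hYle bad hdec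
  intro d hd hB
  obtain ⟨c1, c2, c4, c3⟩ := hbad d hd hB
  refine ⟨c1, c2, fun hGood => c3 ?_⟩
  have hYd := hYle d hd
  obtain ⟨m, hm⟩ : ∃ m : ℕ, (m : ℤ) = Yv d := ⟨(Yv d).toNat, by omega⟩
  rw [← hm] at c1 c2 c4 hYd hGood ⊢
  rw [Int.toNat_natCast] at hGood ⊢
  rw [← hX, ← hL] at c4
  rw [← hX] at hGood
  have hm2 : 2 ∣ m := by exact_mod_cast c2
  have hmW : (X : ℝ) / L ^ W ≤ m := by exact_mod_cast c4
  have hmX : m ≤ X := by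
    have e1 := (le_abs_self _).trans hYd
    have hXz : (X : ℤ) = (b : ℤ) ^ K := by rw [hX]; push_cast; ring
    rw [← hXz] at e1
    exact_mod_cast e1
  have hmsq : √(X : ℝ) ≤ m := by
    refine le_trans ?_ hmW
    rw [le_div_iff₀ (by positivity)]
    calc √(X : ℝ) * L ^ W ≤ √(X : ℝ) * √(X : ℝ) := mul_le_mul_of_nonneg_left a4 hs0.le
      _ = X := hss
  have hmm : m₀ ≤ m := by
    have h5 : ((m₀ : ℕ) : ℝ) ≤ √(X : ℝ) := by
      apply Real.le_sqrt_of_sq_le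
      exact_mod_cast (by omega : m₀ ^ 2 ≤ X)
    exact_mod_cast h5.trans hmsq
  apply hP m hmm hm2
  intro y₁ y₂ h12 hy2 hΔ
  exact h3 X (by omega) m hmX (by rw [← hL]; exact hmW) hGood y₁ y₂ h12 hy2 hΔ

/-- the numbers of Goldbach pairs in all windows are as predicted, for almost all values -/
theorem tl_windows (b : ℕ) (hb : 2 ≤ b) (E c₁ A U m₀ : ℕ) (hE : 1 ≤ E) (ε : ℝ) (hε : 0 < ε) (P : ℕ → Prop)
    (hP : ∀ m : ℕ, m₀ ≤ m → 2 ∣ m → WinP ε A m → P m) : ∃ V : ℕ, ∀ c₂ : ℕ, ∃ K₀ : ℕ, ∀ K : ℕ, K₀ ≤ K →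
    ∀ (ι : Type) (Ω : Finset ι) (p : ι → ℝ) (Y : ι → ℤ), TLaw b E c₁ (U + 3) (K + 2) Ω p Y → TLaw b E c₂ V (K + 2) Ω p Y →
    (∀ ω ∈ Ω, |Y ω| ≤ (b : ℤ) ^ K) → ∀ bad : ι → Prop, ∀ _hdec : DecidablePred bad,
    (∀ ω ∈ Ω, bad ω → 0 < Y ω ∧ 2 ∣ Y ω ∧ ¬ P (Y ω).toNat) →
    ∑ ω ∈ Ω, (if bad ω then p ω else 0) ≤ 1 / (K : ℝ) ^ U := by
  classical
  obtain ⟨W, k1, h1⟩ := small_ball b hb E c₁ (U + 2) hE
  refine ⟨2 * ((U + 1) + 2 * (A + (W + 1) + 4) + 9) + 6, fun c₂ => ?_⟩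
  obtain ⟨k2, h2⟩ := tl_win0 b hb E c₂ A (W + 1) (U + 1) m₀ hE ε hε P hP
  refine ⟨k1 + k2 + 2 * (W + 1) + 4, fun K hk ι Ω p Yv hlaw₁ hlaw₂ hYle bad hdec hbad => ?_⟩
  have hbr : (2 : ℝ) ≤ b := by exact_mod_cast hb
  obtain ⟨X, hX⟩ : ∃ X, X = b ^ K := ⟨_, rfl⟩
  have hkX : K < X := by
    rw [hX]
    exact Nat.lt_pow_self (by omega)
  have hX3 : (3 : ℝ) ≤ X := by exact_mod_cast (by omega : 3 ≤ X)
  have hX0 : (0 : ℝ) < X := by linarith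
  obtain ⟨L, hL⟩ : ∃ L, L = Real.log (X : ℝ) := ⟨_, rfl⟩
  have hL1 : 1 ≤ L := by
    rw [hL, Real.le_log_iff_exp_le hX0]
    have := Real.exp_one_lt_d9
    linarith
  have hL0 : 0 < L := by linarith
  have hK4 : (4 : ℝ) ≤ K := by exact_mod_cast (by omega : 4 ≤ K)
  have hKr0 : (0 : ℝ) < K := by linarith
  -- the threshold
  have hthr : (X : ℝ) / L ^ (W + 1) ≤ ((b ^ (K + 2) : ℕ) : ℝ) / Real.log ((b ^ (K + 2) : ℕ) : ℝ) ^ (W + 1) := by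
    have e1 : Real.log ((b ^ (K + 2) : ℕ) : ℝ) = (1 + 2 / (K : ℝ)) * L := by
      rw [hL, hX, Nat.cast_pow, Nat.cast_pow, Real.log_pow, Real.log_pow]
      push_cast
      field_simp
    have e2 : ((b ^ (K + 2) : ℕ) : ℝ) = (b : ℝ) ^ 2 * X := by
      rw [hX]; push_cast; rw [pow_add]; ring
    have e3 : (1 + 2 / (K : ℝ)) ^ (W + 1) ≤ (b : ℝ) ^ 2 := by
      have e4 : 1 + 2 / (K : ℝ) ≤ Real.exp (2 / K) := by
        have := Real.add_one_le_exp (2 / (K : ℝ))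
        linarith
      calc (1 + 2 / (K : ℝ)) ^ (W + 1) ≤ Real.exp (2 / K) ^ (W + 1) := pow_le_pow_left₀ (by positivity) e4 _
        _ = Real.exp (((W + 1 : ℕ) : ℝ) * (2 / K)) := by rw [Real.exp_nat_mul]
        _ ≤ Real.exp 1 := by
            apply Real.exp_le_exp.2
            rw [mul_div_assoc', div_le_one hKr0]
            have : ((2 * (W + 1) : ℕ) : ℝ) ≤ K := by exact_mod_cast (by omega : 2 * (W + 1) ≤ K)
            push_cast at this ⊢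
            linarith
        _ ≤ 4 := by have := Real.exp_one_lt_d9; linarith
        _ ≤ (b : ℝ) ^ 2 := by nlinarith
    rw [e1, e2, mul_pow, div_le_div_iff₀ (by positivity) (by positivity)]
    calc (X : ℝ) * ((1 + 2 / (K : ℝ)) ^ (W + 1) * L ^ (W + 1)) ≤ X * ((b : ℝ) ^ 2 * L ^ (W + 1)) := by gcongr
      _ = _ := by ring
  have g1 := h1 (K + 2) (by omega) ι Ω p Yv hlaw₁
  have g2 := h2 K (by omega) ι Ω p Yv hlaw₂ hYle (fun ω => 0 < Yv ω ∧ 2 ∣ Yv ω ∧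
      ((b ^ K : ℕ) : ℝ) / Real.log ((b ^ K : ℕ) : ℝ) ^ (W + 1) ≤ Yv ω ∧ ¬ P (Yv ω).toNat) (Classical.decPred _) (fun d _ h => h)
  have hpt : ∀ d ∈ Ω, (if bad d then p d else 0) ≤
      (if 1 ≤ Yv d ∧ (Yv d : ℝ) < ((b ^ (K + 2) : ℕ) : ℝ) / Real.log ((b ^ (K + 2) : ℕ) : ℝ) ^ (W + 1) then p d else 0) +
      (if (0 < Yv d ∧ 2 ∣ Yv d ∧ ((b ^ K : ℕ) : ℝ) / Real.log ((b ^ K : ℕ) : ℝ) ^ (W + 1) ≤ Yv d ∧ ¬ P (Yv d).toNat) then p d else 0) := by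
    intro d hd
    have hp := hlaw₁.nonneg d hd
    have hn : ∀ Q : Prop, ∀ _ : Decidable Q, 0 ≤ (if Q then p d else 0) := by
      intro Q _
      split_ifs
      · exact hp
      · exact le_rfl
    by_cases hB : bad d
    swap
    · rw [if_neg hB]
      exact add_nonneg (hn _ _) (hn _ _)
    rw [if_pos hB]
    obtain ⟨c1, c2, c3⟩ := hbad d hd hB
    by_cases hA : 1 ≤ Yv d ∧ (Yv d : ℝ) < ((b ^ (K + 2) : ℕ) : ℝ) / Real.log ((b ^ (K + 2) : ℕ) : ℝ) ^ (W + 1)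
    · rw [if_pos hA]
      linarith [hn (0 < Yv d ∧ 2 ∣ Yv d ∧ ((b ^ K : ℕ) : ℝ) / Real.log ((b ^ K : ℕ) : ℝ) ^ (W + 1) ≤ Yv d ∧ ¬ P (Yv d).toNat) inferInstance]
    · have hmW : ((b ^ K : ℕ) : ℝ) / Real.log ((b ^ K : ℕ) : ℝ) ^ (W + 1) ≤ Yv d := by
        by_contra hcon
        push Not at hcon
        apply hA
        refine ⟨by omega, ?_⟩
        rw [← hX, ← hL] at hcon
        exact hcon.trans_le hthr
      rw [if_pos (⟨c1, c2, hmW, c3⟩ : 0 < Yv d ∧ 2 ∣ Yv d ∧ ((b ^ K : ℕ) : ℝ) / Real.log ((b ^ K : ℕ) : ℝ) ^ (W + 1) ≤ Yv d ∧ ¬ P (Yv d).toNat)]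
      linarith [hn (1 ≤ Yv d ∧ (Yv d : ℝ) < ((b ^ (K + 2) : ℕ) : ℝ) / Real.log ((b ^ (K + 2) : ℕ) : ℝ) ^ (W + 1)) inferInstance]
  refine (sum_le_sum hpt).trans ?_
  rw [sum_add_distrib]
  have e : 1 / (K : ℝ) ^ (U + 1) + 1 / (K : ℝ) ^ (U + 1) ≤ 1 / (K : ℝ) ^ U := by
    rw [← two_mul, mul_one_div, div_le_div_iff₀ (by positivity) (by positivity), pow_succ]
    have : 0 < (K : ℝ) ^ U := by positivity
    nlinarith
  refine le_trans (add_le_add ?_ ?_) e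
  · refine le_trans (le_of_eq ?_) (g1.trans ?_)
    · apply sum_congr rfl
      intro d _
      split_ifs <;> rfl
    · apply one_div_le_one_div_of_le (by positivity)
      calc (K : ℝ) ^ (U + 1) ≤ (K : ℝ) ^ (U + 2) := pow_le_pow_right₀ (by linarith) (by omega)
        _ ≤ ((K + 2 : ℕ) : ℝ) ^ (U + 2) := by
            apply pow_le_pow_left₀ hKr0.le
            push_cast
            linarith
  · refine le_trans (le_of_eq ?_) g2
    apply sum_congr rfl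
    intro d _
    split_ifs <;> rfl

end Pool.Agent.Y885
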