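import Pool.Agent.Y885.LF2

set_option autoImplicit false

/-! The average of the singular series of the pairs of an interval. -/

namespace Pool.Agent.Y885
open Finset
open Pool.Agent.H373R2.T7

lemma card_root (i p : ℕ) (hp : p.Prime) : ((range p).filter (fun q => p ∣ 1 * q + i)).card = 1 := by
  apply le_antisymm
  · apply one_root 1 i p hp
    rintro ⟨h, _⟩
    exact hp.one_lt.ne' (Nat.dvd_one.1 h)
  · haveI : Fact p.Prime := ⟨hp⟩
    rw [Nat.one_le_iff_ne_zero, card_ne_zero]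
    refine ⟨(-((i : ℕ) : ZMod p)).val, ?_⟩
    rw [mem_filter, mem_range]
    refine ⟨ZMod.val_lt _, ?_⟩
    rw [← ZMod.natCast_eq_zero_iff]
    push_cast
    rw [ZMod.natCast_zmod_val]
    ring

lemma wN_pair (i j p : ℕ) (hp : p.Prime) : wN (fun _ : Fin 2 => 1) ![i, j] p = if i ≡ j [MOD p] then 1 else 2 := by
  rw [wN_eq _ _ p hp]
  have h0 : (range p).filter (fun q => ∃ t : Fin 2, p ∣ (fun _ : Fin 2 => 1) t * q + (![i, j] : Fin 2 → ℕ) t) =
      (range p).filter (fun q => p ∣ 1 * q + i) ∪ (range p).filter (fun q => p ∣ 1 * q + j) := by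
    rw [← filter_or]
    apply filter_congr
    intro q _
    rw [Fin.exists_fin_two]
    simp
  rw [h0]
  split_ifs with h
  · have h1 : (range p).filter (fun q => p ∣ 1 * q + i) = (range p).filter (fun q => p ∣ 1 * q + j) := by
      apply filter_congr
      intro q _
      have h2 : 1 * q + i ≡ 1 * q + j [MOD p] := Nat.ModEq.add_left _ h
      exact h2.dvd_iff dvd_rfl
    rw [h1, union_self, card_root j p hp]
  · rw [card_union_of_disjoint, card_root i p hp, card_root j p hp]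
    rw [disjoint_left]
    intro q h1 h2
    rw [mem_filter] at h1 h2
    apply h
    have h3 : 1 * q + i ≡ 1 * q + j [MOD p] :=
      ((Nat.modEq_zero_iff_dvd.2 h1.2).trans (Nat.modEq_zero_iff_dvd.2 h2.2).symm)
    exact Nat.ModEq.add_left_cancel' _ h3

/-- the local deviation -/
noncomputable def tp (i j p : ℕ) : ℝ := ((if i ≡ j [MOD p] then (p : ℝ) else 0) + (-1)) / ((p : ℝ) - 1) ^ 2

lemma Gp_pair (i j p : ℕ) (hp : p.Prime) : Gp (wN (fun _ : Fin 2 => 1) ![i, j]) 2 p = 1 + tp i j p := by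
  have hp2 : (2 : ℝ) ≤ p := by exact_mod_cast hp.two_le
  have h1 : (p : ℝ) - 1 ≠ 0 := by linarith
  have h2 : (p : ℝ) ≠ 0 := by linarith
  have h3 : 1 - 1 / (p : ℝ) = (p - 1) / p := by field_simp
  unfold Gp tp
  rw [wN_pair i j p hp, h3]
  split_ifs
  · push_cast
    field_simp
    ring
  · push_cast
    field_simp
    ring

/-- the pairs in a class -/
def cE (H e : ℕ) : ℕ := ((range H ×ˢ range H).filter (fun q => q.1 ≡ q.2 [MOD e])).card

lemma cE_eq (H e : ℕ) (he : 1 ≤ e) : cE H e = ∑ a ∈ range e, ((range H).filter (fun i => i % e = a)).card ^ 2 := by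
  classical
  unfold cE
  have h1 : (range H ×ˢ range H).filter (fun q => q.1 ≡ q.2 [MOD e]) =
      (range e).biUnion (fun a => (range H).filter (fun i => i % e = a) ×ˢ (range H).filter (fun i => i % e = a)) := by
    ext q
    rw [mem_filter, mem_biUnion, mem_product]
    constructor
    · rintro ⟨⟨h1, h2⟩, h3⟩
      refine ⟨q.1 % e, mem_range.2 (Nat.mod_lt _ (by omega)), ?_⟩
      rw [mem_product, mem_filter, mem_filter]
      exact ⟨⟨h1, rfl⟩, h2, h3.symm⟩
    · rintro ⟨a, _, h⟩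
      rw [mem_product, mem_filter, mem_filter] at h
      exact ⟨⟨h.1.1, h.2.1⟩, h.1.2.trans h.2.2.symm⟩
  rw [h1, card_biUnion]
  · apply sum_congr rfl
    intro a _
    rw [card_product, sq]
  · intro a _ b _ hab
    rw [Function.onFun, disjoint_left]
    intro q h1 h2
    rw [mem_product, mem_filter, mem_filter] at h1 h2
    exact hab (h1.1.2.symm.trans h2.1.2)

lemma cE_bounds (H e : ℕ) (he : 1 ≤ e) : (H : ℝ) ^ 2 ≤ e * cE H e ∧ (e : ℝ) * cE H e ≤ (H : ℝ) ^ 2 + e * H := by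
  classical
  have hsum : ∑ a ∈ range e, ((range H).filter (fun i => i % e = a)).card = H := by
    have h1 := card_eq_sum_card_fiberwise (f := fun i => i % e) (s := range H) (t := range e) (fun i _ => by
      simp only [coe_range, Set.mem_Iio]
      exact Nat.mod_lt _ (by omega))
    rw [card_range] at h1
    exact h1.symm
  have he0 : (0 : ℝ) < e := by exact_mod_cast he
  constructor
  · have h1 := sq_sum_le_card_mul_sum_sq (s := range e) (f := fun a => (((range H).filter (fun i => i % e = a)).card : ℝ))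
    have h2 : ∑ a ∈ range e, (((range H).filter (fun i => i % e = a)).card : ℝ) = H := by exact_mod_cast hsum
    rw [h2, card_range] at h1
    rw [cE_eq H e he]
    push_cast
    exact h1
  · have hle : ∀ a ∈ range e, ((range H).filter (fun i => i % e = a)).card ≤ H / e + 1 := by
      intro a ha
      rw [mem_range] at ha
      have h1 : ((range H).filter (fun i => i % e = a)).card ≤ (range (H / e + 1)).card := by
        apply card_le_card_of_injOn (fun i => i / e)
        · intro i hi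
          rw [mem_coe, mem_filter, mem_range] at hi
          rw [mem_coe, mem_range]
          exact Nat.lt_succ_of_le (Nat.div_le_div_right hi.1.le)
        · intro i hi i' hi' h
          rw [mem_coe, mem_filter] at hi hi'
          simp only at h
          rw [← Nat.div_add_mod i e, ← Nat.div_add_mod i' e, h, hi.2, hi'.2]
      rwa [card_range] at h1
    have h1 : cE H e ≤ H * (H / e + 1) := by
      rw [cE_eq H e he]
      calc ∑ a ∈ range e, ((range H).filter (fun i => i % e = a)).card ^ 2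
          ≤ ∑ a ∈ range e, ((range H).filter (fun i => i % e = a)).card * (H / e + 1) := by
            apply sum_le_sum
            intro a ha
            rw [sq]
            exact Nat.mul_le_mul_left _ (hle a ha)
        _ = _ := by rw [← sum_mul, hsum]
    have h2 : ((H / e : ℕ) : ℝ) ≤ H / e := Nat.cast_div_le
    have h3 : (cE H e : ℝ) ≤ H * ((H / e : ℕ) + 1) := by exact_mod_cast h1
    have h4 : (cE H e : ℝ) ≤ H * (H / e + 1) := h3.trans (mul_le_mul_of_nonneg_left (by linarith) (Nat.cast_nonneg _))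
    calc (e : ℝ) * cE H e ≤ e * (H * (H / e + 1)) := mul_le_mul_of_nonneg_left h4 he0.le
      _ = _ := by field_simp

lemma modEq_prod (E : Finset ℕ) (hE : ∀ p ∈ E, p.Prime) (i j : ℕ) : i ≡ j [MOD ∏ p ∈ E, p] ↔ ∀ p ∈ E, i ≡ j [MOD p] := by
  classical
  induction E using Finset.induction_on with
  | empty => simp [Nat.modEq_one]
  | insert q E hq ih =>
    rw [prod_insert hq]
    have hcop : Nat.Coprime q (∏ p ∈ E, p) := by
      apply Nat.Coprime.prod_right
      intro p hp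
      rw [Nat.coprime_primes (hE q (mem_insert_self _ _)) (hE p (mem_insert_of_mem hp))]
      rintro rfl
      exact hq hp
    rw [← Nat.modEq_and_modEq_iff_modEq_mul hcop, ih (fun p hp => hE p (mem_insert_of_mem hp))]
    constructor
    · rintro ⟨h1, h2⟩ p hp
      rcases mem_insert.1 hp with rfl | h
      · exact h1
      · exact h2 p h
    · intro h
      exact ⟨h q (mem_insert_self _ _), fun p hp => h p (mem_insert_of_mem hp)⟩

/-- a set of primes -/
lemma pair_sum (D : Finset ℕ) (hD : ∀ p ∈ D, p.Prime) (hne : D.Nonempty) (H : ℕ) :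
    ∑ q ∈ range H ×ˢ range H, ∏ p ∈ D, ((if q.1 ≡ q.2 [MOD p] then (p : ℝ) else 0) + (-1)) ≤ H * ∏ p ∈ D, (1 + (p : ℝ)) := by
  classical
  have h1 : ∀ q ∈ range H ×ˢ range H, ∏ p ∈ D, ((if q.1 ≡ q.2 [MOD p] then (p : ℝ) else 0) + (-1)) =
      ∑ E ∈ D.powerset, (∏ p ∈ D \ E, (-1 : ℝ)) * ((∏ p ∈ E, (p : ℝ)) * if q.1 ≡ q.2 [MOD ∏ p ∈ E, p] then 1 else 0) := by
    intro q _
    rw [prod_add]
    apply sum_congr rfl
    intro E hE
    have hE' : ∀ p ∈ E, p.Prime := fun p hp => hD p (mem_powerset.1 hE hp)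
    rw [mul_comm]
    congr 1
    split_ifs with h
    · rw [mul_one]
      apply prod_congr rfl
      intro p hp
      rw [if_pos ((modEq_prod E hE' _ _).1 h p hp)]
    · rw [mul_zero]
      rw [modEq_prod E hE'] at h
      push Not at h
      obtain ⟨p, hp, hpn⟩ := h
      apply prod_eq_zero hp
      rw [if_neg hpn]
  rw [sum_congr rfl h1, sum_comm]
  have h2 : ∀ E ∈ D.powerset, ∑ q ∈ range H ×ˢ range H, (∏ p ∈ D \ E, (-1 : ℝ)) * ((∏ p ∈ E, (p : ℝ)) * if q.1 ≡ q.2 [MOD ∏ p ∈ E, p] then 1 else 0) ≤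
      (∏ p ∈ D \ E, (-1 : ℝ)) * (H : ℝ) ^ 2 + H * ∏ p ∈ E, (p : ℝ) := by
    intro E hE
    have hE' : ∀ p ∈ E, p.Prime := fun p hp => hD p (mem_powerset.1 hE hp)
    rw [← mul_sum, ← mul_sum, ← sum_filter, sum_const, nsmul_eq_mul, mul_one]
    have e1 : (((range H ×ˢ range H).filter (fun q => q.1 ≡ q.2 [MOD ∏ p ∈ E, p])).card : ℝ) = cE H (∏ p ∈ E, p) := rfl
    rw [e1]
    have e2 : 1 ≤ ∏ p ∈ E, p := Nat.one_le_iff_ne_zero.2 (prod_ne_zero_iff.2 fun p hp => (hE' p hp).ne_zero)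
    obtain ⟨b1, b2⟩ := cE_bounds H (∏ p ∈ E, p) e2
    have e3 : ((∏ p ∈ E, p : ℕ) : ℝ) = ∏ p ∈ E, (p : ℝ) := by push_cast; rfl
    rw [e3] at b1 b2
    have e4 : (∏ p ∈ D \ E, (-1 : ℝ)) = 1 ∨ (∏ p ∈ D \ E, (-1 : ℝ)) = -1 := by
      rw [prod_const]
      exact neg_one_pow_eq_or ℝ _
    rcases e4 with h | h
    · rw [h]
      linarith
    · rw [h]
      have : (0 : ℝ) ≤ H * ∏ p ∈ E, (p : ℝ) := mul_nonneg (Nat.cast_nonneg _) (prod_nonneg fun _ _ => Nat.cast_nonneg _)
      linarith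
  refine (sum_le_sum h2).trans ?_
  rw [sum_add_distrib, ← sum_mul, ← mul_sum]
  have h3 : ∑ E ∈ D.powerset, ∏ p ∈ D \ E, (-1 : ℝ) = 0 := by
    have := prod_add (fun _ : ℕ => (1 : ℝ)) (fun _ => (-1 : ℝ)) D
    simp only [prod_const_one, one_mul] at this
    rw [← this, prod_const, add_neg_cancel, zero_pow (card_ne_zero.2 hne)]
  have h4 : ∑ E ∈ D.powerset, ∏ p ∈ E, (p : ℝ) = ∏ p ∈ D, (1 + (p : ℝ)) := by
    rw [prod_one_add]
  rw [h3, h4]
  linarith

/-- the average over the pairs -/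
theorem pair_avg (H z : ℕ) : ∑ q ∈ range H ×ˢ range H, singG (wN (fun _ : Fin 2 => 1) ![q.1, q.2]) 2 z ≤
    (H : ℝ) ^ 2 + H * (Real.exp 8 * (Vz z)⁻¹) := by
  classical
  have h1 : ∀ q ∈ range H ×ˢ range H, singG (wN (fun _ : Fin 2 => 1) ![q.1, q.2]) 2 z =
      ∑ D ∈ (pz z).powerset, ∏ p ∈ D, tp q.1 q.2 p := by
    intro q _
    unfold singG
    rw [prod_congr rfl (fun p hp => Gp_pair q.1 q.2 p (mem_pz.1 hp).2), prod_one_add]
  rw [sum_congr rfl h1, sum_comm]
  have h2 : ∀ D ∈ (pz z).powerset, ∑ q ∈ range H ×ˢ range H, ∏ p ∈ D, tp q.1 q.2 p ≤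
      (if D = ∅ then (H : ℝ) ^ 2 else 0) + H * ∏ p ∈ D, ((1 + (p : ℝ)) / ((p : ℝ) - 1) ^ 2) := by
    intro D hD
    have hD' : ∀ p ∈ D, p.Prime := fun p hp => (mem_pz.1 (mem_powerset.1 hD hp)).2
    rcases D.eq_empty_or_nonempty with h | h
    · rw [h]
      simp only [prod_empty, if_true, sum_const, card_product, card_range, nsmul_eq_mul, mul_one]
      push_cast
      have : (0 : ℝ) ≤ H := Nat.cast_nonneg _
      nlinarith
    · rw [if_neg h.ne_empty, zero_add]
      have e1 : ∀ q ∈ range H ×ˢ range H, ∏ p ∈ D, tp q.1 q.2 p =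
          (∏ p ∈ D, ((if q.1 ≡ q.2 [MOD p] then (p : ℝ) else 0) + (-1))) * (∏ p ∈ D, ((p : ℝ) - 1) ^ 2)⁻¹ := by
        intro q _
        unfold tp
        rw [← prod_inv_distrib, ← prod_mul_distrib]
        apply prod_congr rfl
        intro p _
        rw [div_eq_mul_inv]
      rw [sum_congr rfl e1, ← sum_mul]
      have e2 : (0 : ℝ) ≤ (∏ p ∈ D, ((p : ℝ) - 1) ^ 2)⁻¹ := inv_nonneg.2 (prod_nonneg fun _ _ => by positivity)
      refine (mul_le_mul_of_nonneg_right (pair_sum D hD' h H) e2).trans (le_of_eq ?_)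
      rw [mul_assoc, ← prod_inv_distrib, ← prod_mul_distrib]
      rfl
  refine (sum_le_sum h2).trans ?_
  rw [sum_add_distrib, ← mul_sum]
  have h3 : ∑ D ∈ (pz z).powerset, (if D = ∅ then (H : ℝ) ^ 2 else 0) = (H : ℝ) ^ 2 := by
    rw [sum_ite_eq' (pz z).powerset ∅ (fun _ => (H : ℝ) ^ 2), if_pos (empty_mem_powerset _)]
  have h4 : ∑ D ∈ (pz z).powerset, ∏ p ∈ D, ((1 + (p : ℝ)) / ((p : ℝ) - 1) ^ 2) = ∏ p ∈ pz z, (1 + (1 + (p : ℝ)) / ((p : ℝ) - 1) ^ 2) := by
    rw [prod_one_add]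
  rw [h3, h4]
  have h5 : ∏ p ∈ pz z, (1 + (1 + (p : ℝ)) / ((p : ℝ) - 1) ^ 2) ≤ Real.exp 8 * (Vz z)⁻¹ := by
    have e1 : ∀ p ∈ pz z, 1 + (1 + (p : ℝ)) / ((p : ℝ) - 1) ^ 2 ≤ Real.exp (4 * (1 / (p : ℝ) ^ 2)) * (1 - 1 / (p : ℝ))⁻¹ := by
      intro p hp
      have hp2 : (2 : ℝ) ≤ p := by exact_mod_cast (mem_pz.1 hp).2.two_le
      have h1 : (p : ℝ) - 1 ≠ 0 := by linarith
      have h2 : (p : ℝ) ≠ 0 := by linarith
      have h6 : 1 + (1 + (p : ℝ)) / ((p : ℝ) - 1) ^ 2 = (1 + 2 / (p * (p - 1))) * (1 - 1 / (p : ℝ))⁻¹ := by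
        have h3 : 1 - 1 / (p : ℝ) = (p - 1) / p := by field_simp
        rw [h3]
        field_simp
        ring
      rw [h6]
      have h7 : 0 < 1 - 1 / (p : ℝ) := by
        rw [sub_pos, div_lt_one (by linarith)]
        linarith
      apply mul_le_mul_of_nonneg_right _ (inv_pos.2 h7).le
      have h8 := Real.add_one_le_exp (4 * (1 / (p : ℝ) ^ 2))
      have h9 : 2 / ((p : ℝ) * (p - 1)) ≤ 4 * (1 / (p : ℝ) ^ 2) := by
        rw [mul_one_div, div_le_div_iff₀ (by nlinarith) (by positivity)]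
        nlinarith
      linarith
    have e0 : ∀ p ∈ pz z, 0 ≤ 1 + (1 + (p : ℝ)) / ((p : ℝ) - 1) ^ 2 := fun p _ => by positivity
    refine (prod_le_prod e0 e1).trans ?_
    rw [prod_mul_distrib, ← Real.exp_sum, prod_inv_distrib]
    have e2 : ∑ p ∈ pz z, 4 * (1 / (p : ℝ) ^ 2) ≤ 8 := by
      rw [← mul_sum]
      have e3 : ∑ p ∈ pz z, 1 / (p : ℝ) ^ 2 ≤ ∑ n ∈ Icc 1 z, 1 / (n : ℝ) ^ 2 := by
        apply sum_le_sum_of_subset_of_nonneg (filter_subset _ _)
        intro _ _ _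
        positivity
      have e4 := sum_inv_sq z
      linarith
    have e5 : (∏ p ∈ pz z, (1 - 1 / (p : ℝ)))⁻¹ = (Vz z)⁻¹ := rfl
    rw [e5]
    apply mul_le_mul_of_nonneg_right (Real.exp_le_exp.2 e2) (inv_pos.2 (Vz_pos z)).le
  have h6 : (0 : ℝ) ≤ H := Nat.cast_nonneg _
  linarith [mul_le_mul_of_nonneg_left h5 h6]

/-- one form -/
lemma singG_one (j z : ℕ) : singG (wN (fun _ : Fin 1 => 1) ![j]) 1 z = 1 := by
  unfold singG
  apply prod_eq_one
  intro p hp
  have hpp := (mem_pz.1 hp).2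
  have hp2 : (2 : ℝ) ≤ p := by exact_mod_cast hpp.two_le
  have h1 : wN (fun _ : Fin 1 => 1) ![j] p = 1 := by
    rw [wN_eq _ _ p hpp]
    refine Eq.trans ?_ (card_root j p hpp)
    congr 1
    apply filter_congr
    intro q _
    simp
  unfold Gp
  rw [h1, pow_one, Nat.cast_one]
  apply div_self
  have : 1 / (p : ℝ) < 1 := by
    rw [div_lt_one (by linarith)]
    linarith
  linarith

end Pool.Agent.Y885
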