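import Pool.Agent.Y885.WP1
import Pool.Agent.Y885.LF3

set_option autoImplicit false

/-! The variance of the sieve model on short intervals, tools. -/

namespace Pool.Agent.Y885
open Finset
open Pool.Agent.H373R2.T7
open Pool.Agent.W93.TD (avg_w total_w)

/-- the variance of the model in short intervals -/
theorem model_var (κ E : ℕ) : ∃ N0 : ℕ, ∀ M : ℕ, N0 ≤ M → ∀ z : ℕ, 1 ≤ z → (z : ℝ) ≤ Real.log M ^ E → ∀ H : ℕ,
    (H : ℝ) ≤ Real.log M ^ κ →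
    ∑ m ∈ Icc 1 M, (∑ j ∈ range H, (lamzI z ((m : ℤ) + (j : ℤ)) - 1)) ^ 2 ≤ (Real.exp 8 + 3) * (M * (H * Real.log M)) := by
  classical
  obtain ⟨n1, h1⟩ := mainL 2 E κ (by norm_num)
  obtain ⟨n2, h2⟩ := mainL 1 E κ (by norm_num)
  obtain ⟨n3, h3⟩ := Vz_inv_small E
  obtain ⟨n4, h4⟩ := ev_L' 1
  refine ⟨n1 + n2 + n3 + n4, fun M hM z hz hz2 H hH => ?_⟩
  have hL := h4 M (by omega)
  have hV := h3 M (by omega) z hz hz2
  obtain ⟨L, hLd⟩ : ∃ L, L = Real.log (M : ℝ) := ⟨_, rfl⟩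
  rw [← hLd] at hL hV hH ⊢
  obtain ⟨T, hT⟩ : ∃ T, T = (M : ℝ) / L ^ κ := ⟨_, rfl⟩
  have hM0 : (0 : ℝ) ≤ M := Nat.cast_nonneg _
  have hH0 : (0 : ℝ) ≤ H := Nat.cast_nonneg _
  have hT0 : 0 ≤ T := by rw [hT]; positivity
  have hL0 : 0 < L := by linarith
  have g2 : ∀ i j : ℕ, ∑ m ∈ Icc 1 M, lamzI z ((m : ℤ) + (i : ℤ)) * lamzI z ((m : ℤ) + (j : ℤ)) ≤
      singG (wN (fun _ : Fin 2 => 1) ![i, j]) 2 z * M + T := by
    intro i j
    have e1 := h1 M (by omega) z hz hz2 (fun _ => 1) ![i, j] (fun _ => ⟨le_rfl, hz⟩)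
    rw [← hLd, ← hT] at e1
    have e2 : ∑ n ∈ Icc 1 M, ∏ t : Fin 2, lamzI z ((((fun _ : Fin 2 => 1) t : ℕ) : ℤ) * (n : ℤ) + (((![i, j] : Fin 2 → ℕ) t : ℕ) : ℤ)) =
        ∑ m ∈ Icc 1 M, lamzI z ((m : ℤ) + (i : ℤ)) * lamzI z ((m : ℤ) + (j : ℤ)) := by
      apply sum_congr rfl
      intro n _
      rw [Fin.prod_univ_two]
      simp
    rw [e2] at e1
    have e3 := (abs_le.1 e1).2
    linarith
  have g1 : ∀ j : ℕ, M - T ≤ ∑ m ∈ Icc 1 M, lamzI z ((m : ℤ) + (j : ℤ)) := by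
    intro j
    have e1 := h2 M (by omega) z hz hz2 (fun _ => 1) ![j] (fun _ => ⟨le_rfl, hz⟩)
    rw [← hLd, ← hT, singG_one] at e1
    have e2 : ∑ n ∈ Icc 1 M, ∏ t : Fin 1, lamzI z ((((fun _ : Fin 1 => 1) t : ℕ) : ℤ) * (n : ℤ) + (((![j] : Fin 1 → ℕ) t : ℕ) : ℤ)) =
        ∑ m ∈ Icc 1 M, lamzI z ((m : ℤ) + (j : ℤ)) := by
      apply sum_congr rfl
      intro n _
      rw [Fin.prod_univ_one]
      simp
    rw [e2] at e1
    have e3 := (abs_le.1 e1).1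
    linarith
  have hexp : ∀ m : ℕ, (∑ j ∈ range H, (lamzI z ((m : ℤ) + (j : ℤ)) - 1)) ^ 2 =
      ∑ q ∈ range H ×ˢ range H, lamzI z ((m : ℤ) + (q.1 : ℤ)) * lamzI z ((m : ℤ) + (q.2 : ℤ)) -
      2 * H * ∑ j ∈ range H, lamzI z ((m : ℤ) + (j : ℤ)) + (H : ℝ) ^ 2 := by
    intro m
    have e0 : ∑ q ∈ range H ×ˢ range H, lamzI z ((m : ℤ) + (q.1 : ℤ)) * lamzI z ((m : ℤ) + (q.2 : ℤ)) =
        (∑ j ∈ range H, lamzI z ((m : ℤ) + (j : ℤ))) ^ 2 := by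
      rw [sum_product, sq, sum_mul_sum]
    rw [e0, sum_sub_distrib, sum_const, card_range, nsmul_eq_mul, mul_one]
    ring
  rw [sum_congr rfl (fun m _ => hexp m), sum_add_distrib, sum_sub_distrib, sum_comm, ← mul_sum, sum_comm (s := Icc 1 M) (t := range H), sum_const,
    Nat.card_Icc, Nat.add_sub_cancel, nsmul_eq_mul]
  have k1 : ∑ q ∈ range H ×ˢ range H, ∑ m ∈ Icc 1 M, lamzI z ((m : ℤ) + (q.1 : ℤ)) * lamzI z ((m : ℤ) + (q.2 : ℤ)) ≤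
      ((H : ℝ) ^ 2 + H * (Real.exp 8 * (Vz z)⁻¹)) * M + (H : ℝ) ^ 2 * T := by
    refine (sum_le_sum fun q _ => g2 q.1 q.2).trans ?_
    rw [sum_add_distrib, ← sum_mul, sum_const, card_product, card_range, nsmul_eq_mul]
    push_cast
    have := mul_le_mul_of_nonneg_right (pair_avg H z) hM0
    rw [sq]
    rw [sq] at this
    linarith
  have k2 : (H : ℝ) * (M - T) ≤ ∑ j ∈ range H, ∑ m ∈ Icc 1 M, lamzI z ((m : ℤ) + (j : ℤ)) := by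
    have := sum_le_sum fun j (_ : j ∈ range H) => g1 j
    rw [sum_const, card_range, nsmul_eq_mul] at this
    exact this
  have k3 : (H : ℝ) ^ 2 * T ≤ M * (H * L) := by
    have e1 : (H : ℝ) * T ≤ M := by
      rw [hT]
      calc (H : ℝ) * (M / L ^ κ) ≤ L ^ κ * (M / L ^ κ) := mul_le_mul_of_nonneg_right hH (by positivity)
        _ = M := by field_simp
    calc (H : ℝ) ^ 2 * T = H * (H * T) := by ring
      _ ≤ H * M := mul_le_mul_of_nonneg_left e1 hH0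
      _ ≤ H * M * L := le_mul_of_one_le_right (by positivity) hL
      _ = _ := by ring
  have k4 : H * (Real.exp 8 * (Vz z)⁻¹) * M ≤ Real.exp 8 * (M * (H * L)) := by
    have e1 : Real.exp 8 * (Vz z)⁻¹ ≤ Real.exp 8 * L := mul_le_mul_of_nonneg_left hV (Real.exp_pos _).le
    calc H * (Real.exp 8 * (Vz z)⁻¹) * M ≤ H * (Real.exp 8 * L) * M := by gcongr
      _ = _ := by ring
  have k5 := mul_le_mul_of_nonneg_left k2 (by positivity : (0 : ℝ) ≤ 2 * H)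
  have k6 : (2 * (H : ℝ)) * (H * (M - T)) = 2 * (H : ℝ) ^ 2 * M - 2 * ((H : ℝ) ^ 2 * T) := by ring
  have k7 : ((H : ℝ) ^ 2 + H * (Real.exp 8 * (Vz z)⁻¹)) * M = (H : ℝ) ^ 2 * M + H * (Real.exp 8 * (Vz z)⁻¹) * M := by ring
  linarith

end Pool.Agent.Y885
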