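import Pool.Agent.Y885.WP2
import Pool.Agent.Y885.LF6

set_option autoImplicit false

/-! Windows whose points are shifted independently: the expected variance. -/

namespace Pool.Agent.Y885
open Finset
open Pool.Agent.H373R2.T7
open Pool.Agent.W93.TD (avg_w total_w)

lemma marg1 {s : ℕ} {α : Type} [DecidableEq α] (Ω : Fin s → Finset α) (p : Fin s → α → ℝ) (hsum : ∀ i, ∑ v ∈ Ω i, p i v = 1) (i : Fin s)
    (f : α → ℝ) : ∑ m ∈ Fintype.piFinset Ω, (∏ j, p j (m j)) * f (m i) = ∑ v ∈ Ω i, p i v * f v := by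
  rw [← avg_w Ω p hsum i (fun m => f (m i))]
  have h1 : ∀ m ∈ Fintype.piFinset Ω, (∏ j, p j (m j)) * ∑ v ∈ Ω i, p i v * f ((Function.update m i v) i) =
      (∏ j, p j (m j)) * ∑ v ∈ Ω i, p i v * f v := by
    intro m _
    congr 1
    apply sum_congr rfl
    intro v _
    rw [Function.update_self]
  rw [sum_congr rfl h1, ← sum_mul, total_w Ω p hsum, one_mul]

lemma marg2 {s : ℕ} {α : Type} [DecidableEq α] (Ω : Fin s → Finset α) (p : Fin s → α → ℝ) (hsum : ∀ i, ∑ v ∈ Ω i, p i v = 1) (i j : Fin s)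
    (hij : j ≠ i) (f g : α → ℝ) : ∑ m ∈ Fintype.piFinset Ω, (∏ j, p j (m j)) * (f (m i) * g (m j)) =
      (∑ v ∈ Ω i, p i v * f v) * ∑ v ∈ Ω j, p j v * g v := by
  rw [← avg_w Ω p hsum i (fun m => f (m i) * g (m j))]
  have h1 : ∀ m ∈ Fintype.piFinset Ω, (∏ j, p j (m j)) * ∑ v ∈ Ω i, p i v * (f ((Function.update m i v) i) * g ((Function.update m i v) j)) =
      (∑ v ∈ Ω i, p i v * f v) * ((∏ j, p j (m j)) * g (m j)) := by
    intro m _
    have h2 : ∑ v ∈ Ω i, p i v * (f ((Function.update m i v) i) * g ((Function.update m i v) j)) = (∑ v ∈ Ω i, p i v * f v) * g (m j) := by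
      rw [sum_mul]
      apply sum_congr rfl
      intro v _
      rw [Function.update_self, Function.update_of_ne hij]
      ring
    rw [h2]
    ring
  rw [sum_congr rfl h1, ← mul_sum, marg1 Ω p hsum j g]

/-- the second moment of a sum of independent random variables -/
lemma prob_var {s : ℕ} {α : Type} [DecidableEq α] (Ω : Fin s → Finset α) (p : Fin s → α → ℝ) (hsum : ∀ i, ∑ v ∈ Ω i, p i v = 1)
    (F : Fin s → α → ℝ) (J : Finset (Fin s)) :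
    ∑ m ∈ Fintype.piFinset Ω, (∏ j, p j (m j)) * (∑ j ∈ J, F j (m j)) ^ 2 ≤
      (∑ j ∈ J, ∑ v ∈ Ω j, p j v * F j v) ^ 2 + ∑ j ∈ J, ∑ v ∈ Ω j, p j v * F j v ^ 2 := by
  have h1 : ∀ m ∈ Fintype.piFinset Ω, (∏ j, p j (m j)) * (∑ j ∈ J, F j (m j)) ^ 2 =
      ∑ i ∈ J, ∑ j ∈ J, (∏ j, p j (m j)) * (F i (m i) * F j (m j)) := by
    intro m _
    rw [sq, sum_mul_sum, mul_sum]
    apply sum_congr rfl
    intro i _
    rw [mul_sum]
  rw [sum_congr rfl h1, sum_comm]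
  have h2 : ∀ i ∈ J, ∑ m ∈ Fintype.piFinset Ω, ∑ j ∈ J, (∏ j, p j (m j)) * (F i (m i) * F j (m j)) ≤
      ∑ j ∈ J, (∑ v ∈ Ω i, p i v * F i v) * (∑ v ∈ Ω j, p j v * F j v) + ∑ v ∈ Ω i, p i v * F i v ^ 2 := by
    intro i hi
    rw [sum_comm]
    have h3 : ∀ j ∈ J, ∑ m ∈ Fintype.piFinset Ω, (∏ j, p j (m j)) * (F i (m i) * F j (m j)) ≤
        (∑ v ∈ Ω i, p i v * F i v) * (∑ v ∈ Ω j, p j v * F j v) + (if j = i then ∑ v ∈ Ω i, p i v * F i v ^ 2 else 0) := by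
      intro j _
      by_cases hij : j = i
      · rw [if_pos hij, hij]
        have h4 : ∑ m ∈ Fintype.piFinset Ω, (∏ j, p j (m j)) * (F i (m i) * F i (m i)) = ∑ v ∈ Ω i, p i v * F i v ^ 2 := by
          rw [← marg1 Ω p hsum i (fun v => F i v ^ 2)]
          apply sum_congr rfl
          intro m _
          rw [sq]
        rw [h4]
        nlinarith [mul_self_nonneg (∑ v ∈ Ω i, p i v * F i v)]
      · rw [if_neg hij, marg2 Ω p hsum i j hij (F i) (F j), add_zero]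
    refine (sum_le_sum h3).trans ?_
    rw [sum_add_distrib]
    have h5 : ∑ j ∈ J, (if j = i then ∑ v ∈ Ω i, p i v * F i v ^ 2 else 0) = ∑ v ∈ Ω i, p i v * F i v ^ 2 := by
      rw [sum_ite_eq' J i (fun _ => ∑ v ∈ Ω i, p i v * F i v ^ 2), if_pos hi]
    rw [h5]
  refine (sum_le_sum h2).trans ?_
  rw [sum_add_distrib, sq, sum_mul_sum]

lemma jensen_sq {α : Type} (Ω : Finset α) (p x : α → ℝ) (hp0 : ∀ v ∈ Ω, 0 ≤ p v) (hp1 : ∑ v ∈ Ω, p v = 1) :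
    (∑ v ∈ Ω, p v * x v) ^ 2 ≤ ∑ v ∈ Ω, p v * x v ^ 2 := by
  obtain ⟨c, hc⟩ : ∃ c, c = ∑ v ∈ Ω, p v * x v := ⟨_, rfl⟩
  have h1 : 0 ≤ ∑ v ∈ Ω, p v * (x v - c) ^ 2 := sum_nonneg fun v hv => mul_nonneg (hp0 v hv) (sq_nonneg _)
  have h2 : ∑ v ∈ Ω, p v * (x v - c) ^ 2 = ∑ v ∈ Ω, p v * x v ^ 2 - 2 * c * ∑ v ∈ Ω, p v * x v + c ^ 2 * ∑ v ∈ Ω, p v := by
    rw [mul_sum, mul_sum, ← sum_sub_distrib, ← sum_add_distrib]
    apply sum_congr rfl
    intro v _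
    ring
  rw [h2, hp1, ← hc] at h1
  rw [← hc]
  nlinarith

lemma win_shift (Φ : ℤ → ℝ) (hΦ : ∀ m, 0 ≤ Φ m) (c N M : ℕ) (h : N + c ≤ M) : ∑ n ∈ Icc 1 N, Φ ((n : ℤ) + (c : ℤ)) ≤ ∑ m ∈ Icc 1 M, Φ (m : ℤ) := by
  classical
  have h1 : ∑ n ∈ Icc 1 N, Φ ((n : ℤ) + (c : ℤ)) = ∑ m ∈ (Icc 1 N).image (fun n => n + c), Φ (m : ℤ) := by
    rw [sum_image (fun x _ y _ h => by simpa using h)]
    apply sum_congr rfl
    intro n _
    push_cast
    rfl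
  rw [h1]
  apply sum_le_sum_of_subset_of_nonneg
  · intro m hm
    obtain ⟨n, hn, rfl⟩ := mem_image.1 hm
    rw [mem_Icc] at hn ⊢
    omega
  · intro _ _ _
    exact hΦ _

lemma lam_sq (M : ℕ) (hM : 3 ≤ M) : ∑ m ∈ Icc 1 M, (lamI (m : ℤ) - 1) ^ 2 ≤ 7 * (M * Real.log M) := by
  have hMr : (3 : ℝ) ≤ M := by exact_mod_cast hM
  have hL : 1 ≤ Real.log (M : ℝ) := by
    rw [Real.le_log_iff_exp_le (by linarith)]
    have := Real.exp_one_lt_d9
    linarith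
  have h1 : ∀ m ∈ Icc 1 M, (lamI (m : ℤ) - 1) ^ 2 ≤ Real.log M * ArithmeticFunction.vonMangoldt m + 1 := by
    intro m hm
    rw [mem_Icc] at hm
    have e1 : lamI (m : ℤ) = ArithmeticFunction.vonMangoldt m := by
      unfold lamI
      rw [if_pos (by exact_mod_cast hm.1), Int.toNat_natCast]
    rw [e1]
    have e2 : (0 : ℝ) ≤ ArithmeticFunction.vonMangoldt m := ArithmeticFunction.vonMangoldt_nonneg
    have e3 : ArithmeticFunction.vonMangoldt m ≤ Real.log M :=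
      ArithmeticFunction.vonMangoldt_le_log.trans (Real.log_le_log (by exact_mod_cast hm.1) (by exact_mod_cast hm.2))
    have e4 := mul_le_mul_of_nonneg_right e3 e2
    nlinarith
  refine (sum_le_sum h1).trans ?_
  rw [sum_add_distrib, ← mul_sum, sum_const, Nat.card_Icc, Nat.add_sub_cancel, nsmul_eq_mul, mul_one]
  have h2 : ∑ m ∈ Icc 1 M, ArithmeticFunction.vonMangoldt m ≤ 6 * M := lam1_le M
  have h3 := mul_le_mul_of_nonneg_left h2 (by linarith : 0 ≤ Real.log (M : ℝ))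
  have h4 : (M : ℝ) ≤ M * Real.log M := le_mul_of_one_le_right (by linarith) hL
  linarith

lemma fin_filter_sum (s H : ℕ) (hH : H ≤ s) (φ : ℕ → ℝ) : ∑ j ∈ (univ : Finset (Fin s)).filter (fun j => j.val < H), φ j.val = ∑ j ∈ range H, φ j := by
  classical
  have h1 : ∑ j ∈ (univ : Finset (Fin s)).filter (fun j => j.val < H), φ j.val = ∑ j ∈ range s, if j < H then φ j else 0 := by
    rw [sum_filter, ← Fin.sum_univ_eq_sum_range (fun j => if j < H then φ j else 0) s]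
  rw [h1, ← sum_filter]
  apply sum_congr _ (fun _ _ => rfl)
  ext j
  rw [mem_filter, mem_range, mem_range]
  omega

set_option maxHeartbeats 1000000 in
/-- the expected variance of the windows -/
theorem wp_exp (b E c κ B D : ℕ) (hb : 2 ≤ b) (hE : 1 ≤ E) : ∃ N₀ : ℕ, ∀ N : ℕ, N₀ ≤ N → ∀ K : ℕ, (B + 4) * N ≤ b ^ K → b ^ K ≤ D * N →
    ∀ (α : Type) (_ : DecidableEq α) (Ω : Finset α) (p : α → ℝ) (Y : α → ℕ),
    TLaw b E c (2 * (κ + 4) + 6) K Ω p (fun v => (Y v : ℤ)) → ∑ v ∈ Ω, p v = 1 → (∀ v ∈ Ω, Y v ≤ N) →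
    ∀ h : ℕ, h ≤ B * N → ∀ s : ℕ, (s : ℝ) ≤ Real.log N ^ κ → ∀ H : ℕ, H ≤ s →
    ∑ ω ∈ Fintype.piFinset (fun _ : Fin s => Ω), (∏ i, p (ω i)) *
      ∑ n ∈ Icc 1 N, (∑ j ∈ (univ : Finset (Fin s)).filter (fun j => j.val < H), (lamI ((n : ℤ) + ((h + j.val + Y (ω j) : ℕ) : ℤ)) - 1)) ^ 2 ≤
      (2 + (2 * (Real.exp 8 + 3) + 7) * (2 * (B + 3))) * (N * (H * Real.log N)) := by
  classical
  obtain ⟨B1, hB1⟩ := tl_dif b E c hb hE (κ + 4)
  obtain ⟨k1, h1⟩ := hB1 (B1 + 3)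
  obtain ⟨n2, h2⟩ := model_var κ (B1 + 3)
  obtain ⟨n3, h3⟩ := Vz_inv_small (B1 + 3)
  obtain ⟨n4, h4⟩ := ev_L' (2 + (B + 3) + D + 2 ^ B1 + 2 * D * b ^ (κ + 4))
  obtain ⟨n5, h5⟩ := ev_log' κ 1
  refine ⟨b ^ k1 + n2 + n3 + n4 + n5 + 3, fun N hN K hK1 hK2 α _ Ω p Y hlaw hsum hY h hh s hs H hH => ?_⟩
  have hL := h4 N (by omega)
  have hsq := h5 N (by omega)
  obtain ⟨L, hLd⟩ : ∃ L, L = Real.log (N : ℝ) := ⟨_, rfl⟩
  rw [← hLd] at hL hs hsq ⊢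
  rw [one_mul] at hsq
  have hbn : 0 < b := by omega
  have hbr : (2 : ℝ) ≤ b := by exact_mod_cast hb
  have q1 : (0 : ℝ) ≤ 2 * D * b ^ (κ + 4) := by positivity
  have q2 : (0 : ℝ) ≤ 2 ^ B1 := by positivity
  have q3 : (0 : ℝ) ≤ B := Nat.cast_nonneg _
  have q4 : (0 : ℝ) ≤ D := Nat.cast_nonneg _
  have hL1 : 1 ≤ L := by linarith
  have hL2 : 2 ≤ L := by linarith
  have hL0 : 0 < L := by linarith
  have hN3 : (3 : ℝ) ≤ N := by exact_mod_cast (by omega : 3 ≤ N)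
  have hN0 : (0 : ℝ) < N := by linarith
  -- the scale
  have hBN : N ≤ (B + 4) * N := Nat.le_mul_of_pos_left _ (by omega)
  have hKk : k1 ≤ K := by
    have e1 : b ^ k1 ≤ b ^ K := by omega
    exact (Nat.pow_le_pow_iff_right (by omega)).1 e1
  have hXN : (N : ℝ) ≤ ((b ^ K : ℕ) : ℝ) := by exact_mod_cast hBN.trans hK1
  have hX0 : (0 : ℝ) < ((b ^ K : ℕ) : ℝ) := by linarith
  have hXD : ((b ^ K : ℕ) : ℝ) ≤ D * N := by exact_mod_cast hK2
  obtain ⟨LX, hLX⟩ : ∃ LX, LX = Real.log ((b ^ K : ℕ) : ℝ) := ⟨_, rfl⟩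
  have hLX1 : L ≤ LX := by rw [hLd, hLX]; exact Real.log_le_log hN0 hXN
  have hD0 : (0 : ℝ) < D := by
    rcases Nat.eq_zero_or_pos D with h | h
    · rw [h, zero_mul] at hK2
      have : 0 < b ^ K := Nat.pow_pos hbn
      omega
    · exact_mod_cast h
  have hLX0 : 0 ≤ LX := by linarith
  have hLX2 : LX ≤ 2 * L := by
    have e1 := Real.log_le_log hX0 hXD
    rw [Real.log_mul hD0.ne' hN0.ne', ← hLX, ← hLd] at e1
    have e2 := Real.log_le_sub_one_of_pos hD0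
    linarith
  have hLK : L ≤ b * K := by
    refine hLX1.trans ?_
    rw [hLX]
    push_cast
    rw [Real.log_pow, mul_comm]
    apply mul_le_mul_of_nonneg_right _ (Nat.cast_nonneg _)
    have := Real.log_le_sub_one_of_pos (show (0 : ℝ) < b by linarith)
    linarith
  have hK0 : (0 : ℝ) < K := by
    rcases Nat.eq_zero_or_pos K with h | h
    · rw [h, Nat.cast_zero, mul_zero] at hLK
      linarith
    · exact_mod_cast h
  -- the level
  obtain ⟨z, hz⟩ : ∃ z, z = ⌈(2 * L) ^ B1⌉₊ := ⟨_, rfl⟩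
  have hz1 : LX ^ B1 ≤ z := by
    refine (pow_le_pow_left₀ (by linarith) hLX2 _).trans ?_
    rw [hz]
    exact Nat.le_ceil _
  have hz2 : (z : ℝ) ≤ L ^ (B1 + 2) := by
    have e1 : (z : ℝ) < (2 * L) ^ B1 + 1 := by rw [hz]; exact Nat.ceil_lt_add_one (by positivity)
    have e2 : (2 * L) ^ B1 ≤ L ^ (B1 + 1) := by
      rw [mul_pow, pow_succ, mul_comm]
      exact mul_le_mul_of_nonneg_left (by linarith) (by positivity)
    exact nm_ceil L z (B1 + 1) hL2 (by linarith)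
  have hz0 : 1 ≤ z := by
    rw [hz, Nat.one_le_ceil_iff]
    positivity
  have hz3 : (z : ℝ) ≤ L ^ (B1 + 3) := hz2.trans (pow_le_pow_right₀ hL1 (by omega))
  have hz4 : (z : ℝ) ≤ LX ^ (B1 + 3) := hz3.trans (pow_le_pow_left₀ hL0.le hLX1 _)
  have hV := h3 N (by omega) z hz0 (by rw [← hLd]; exact hz3)
  rw [← hLd] at hV
  have hLκ : L ^ κ ≤ N := by
    refine hsq.trans (nm_sqrt N (by linarith))
  have hsN : s ≤ N := by exact_mod_cast hs.trans hLκ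
  have hHs : (H : ℝ) ≤ L ^ κ := (by exact_mod_cast hH : (H : ℝ) ≤ s).trans hs
  have hH0 : (0 : ℝ) ≤ H := Nat.cast_nonneg _
  -- the expectation for fixed `n`
  have hs1 : ∑ ω ∈ Fintype.piFinset (fun _ : Fin s => Ω), (∏ i, p (ω i)) *
      ∑ n ∈ Icc 1 N, (∑ j ∈ (univ : Finset (Fin s)).filter (fun j => j.val < H), (lamI ((n : ℤ) + ((h + j.val + Y (ω j) : ℕ) : ℤ)) - 1)) ^ 2 ≤
      ∑ n ∈ Icc 1 N, ((∑ j ∈ range H, ∑ v ∈ Ω, p v * (lamI ((n : ℤ) + ((h + j + Y v : ℕ) : ℤ)) - 1)) ^ 2 +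
        ∑ j ∈ range H, ∑ v ∈ Ω, p v * (lamI ((n : ℤ) + ((h + j + Y v : ℕ) : ℤ)) - 1) ^ 2) := by
    have e0 : ∀ ω ∈ Fintype.piFinset (fun _ : Fin s => Ω), (∏ i, p (ω i)) *
      ∑ n ∈ Icc 1 N, (∑ j ∈ (univ : Finset (Fin s)).filter (fun j => j.val < H), (lamI ((n : ℤ) + ((h + j.val + Y (ω j) : ℕ) : ℤ)) - 1)) ^ 2 =
      ∑ n ∈ Icc 1 N, (∏ i, p (ω i)) * (∑ j ∈ (univ : Finset (Fin s)).filter (fun j => j.val < H), (lamI ((n : ℤ) + ((h + j.val + Y (ω j) : ℕ) : ℤ)) - 1)) ^ 2 := by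
      intro ω _
      rw [mul_sum]
    rw [sum_congr rfl e0, sum_comm]
    apply sum_le_sum
    intro n _
    have e1 := prob_var (fun _ : Fin s => Ω) (fun _ => p) (fun _ => hsum) (fun j v => lamI ((n : ℤ) + ((h + j.val + Y v : ℕ) : ℤ)) - 1)
      ((univ : Finset (Fin s)).filter (fun j => j.val < H))
    rw [fin_filter_sum s H hH (fun j => ∑ v ∈ Ω, p v * (lamI ((n : ℤ) + ((h + j + Y v : ℕ) : ℤ)) - 1)),
      fin_filter_sum s H hH (fun j => ∑ v ∈ Ω, p v * (lamI ((n : ℤ) + ((h + j + Y v : ℕ) : ℤ)) - 1) ^ 2)] at e1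
    exact e1
  refine hs1.trans ?_
  rw [sum_add_distrib]
  obtain ⟨M, hM⟩ : ∃ M, M = (B + 3) * N := ⟨_, rfl⟩
  have hMN : N ≤ M := by rw [hM]; exact Nat.le_mul_of_pos_left _ (by omega)
  have hMr : (M : ℝ) = (B + 3) * N := by rw [hM]; push_cast; ring
  have hM0 : (0 : ℝ) < M := by rw [hMr]; positivity
  have hLM1 : L ≤ Real.log (M : ℝ) := by rw [hLd]; exact Real.log_le_log hN0 (by exact_mod_cast hMN)
  have hLM2 : Real.log (M : ℝ) ≤ 2 * L := by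
    rw [hMr, Real.log_mul (by positivity) hN0.ne', ← hLd]
    have e2 := Real.log_le_sub_one_of_pos (show (0 : ℝ) < B + 3 by positivity)
    linarith
  have hcM : ∀ j ∈ range H, ∀ v ∈ Ω, N + (h + j + Y v) ≤ M := by
    intro j hj v hv
    rw [mem_range] at hj
    have := hY v hv
    rw [hM, add_mul]
    omega
  have hMK : M ≤ b ^ K := by
    refine le_trans ?_ hK1
    rw [hM]
    exact Nat.mul_le_mul_right _ (by omega)
  -- the second part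
  have k2 : ∑ n ∈ Icc 1 N, ∑ j ∈ range H, ∑ v ∈ Ω, p v * (lamI ((n : ℤ) + ((h + j + Y v : ℕ) : ℤ)) - 1) ^ 2 ≤ 7 * (M * (H * Real.log M)) := by
    rw [sum_comm]
    have e1 : ∀ j ∈ range H, ∑ n ∈ Icc 1 N, ∑ v ∈ Ω, p v * (lamI ((n : ℤ) + ((h + j + Y v : ℕ) : ℤ)) - 1) ^ 2 ≤ 7 * (M * Real.log M) := by
      intro j hj
      rw [sum_comm]
      have e2 : ∀ v ∈ Ω, ∑ n ∈ Icc 1 N, p v * (lamI ((n : ℤ) + ((h + j + Y v : ℕ) : ℤ)) - 1) ^ 2 ≤ p v * (7 * (M * Real.log M)) := by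
        intro v hv
        rw [← mul_sum]
        apply mul_le_mul_of_nonneg_left _ (hlaw.nonneg v hv)
        exact (win_shift (fun m => (lamI m - 1) ^ 2) (fun m => sq_nonneg _) (h + j + Y v) N M (hcM j hj v hv)).trans (lam_sq M (by omega))
      refine (sum_le_sum e2).trans (le_of_eq ?_)
      rw [← sum_mul, hsum, one_mul]
    refine (sum_le_sum e1).trans (le_of_eq ?_)
    rw [sum_const, card_range, nsmul_eq_mul]
    ring
  -- the first part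
  obtain ⟨g1, hg1⟩ : ∃ g1 : ℕ → ℕ → ℝ, g1 = fun (n j : ℕ) => ∑ v ∈ Ω, p v * (lamI ((n : ℤ) + ((h + j + Y v : ℕ) : ℤ)) - lamzI z ((n : ℤ) + ((h + j + Y v : ℕ) : ℤ))) := ⟨_, rfl⟩
  have hg1r : ∀ n j, g1 n j = ∑ v ∈ Ω, p v * (lamI ((n : ℤ) + ((h + j + Y v : ℕ) : ℤ)) - lamzI z ((n : ℤ) + ((h + j + Y v : ℕ) : ℤ))) := fun n j => by rw [hg1]
  have k1a : ∀ n ∈ Icc 1 N, (∑ j ∈ range H, ∑ v ∈ Ω, p v * (lamI ((n : ℤ) + ((h + j + Y v : ℕ) : ℤ)) - 1)) ^ 2 ≤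
      2 * (H * ∑ j ∈ range H, g1 n j ^ 2) + 2 * ∑ v ∈ Ω, p v * (∑ j ∈ range H, (lamzI z ((n : ℤ) + ((h + j + Y v : ℕ) : ℤ)) - 1)) ^ 2 := by
    intro n _
    have e1 : ∑ j ∈ range H, ∑ v ∈ Ω, p v * (lamI ((n : ℤ) + ((h + j + Y v : ℕ) : ℤ)) - 1) =
        ∑ j ∈ range H, g1 n j + ∑ v ∈ Ω, p v * ∑ j ∈ range H, (lamzI z ((n : ℤ) + ((h + j + Y v : ℕ) : ℤ)) - 1) := by
      have e2 : ∑ v ∈ Ω, p v * ∑ j ∈ range H, (lamzI z ((n : ℤ) + ((h + j + Y v : ℕ) : ℤ)) - 1) =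
          ∑ j ∈ range H, ∑ v ∈ Ω, p v * (lamzI z ((n : ℤ) + ((h + j + Y v : ℕ) : ℤ)) - 1) := by
        rw [sum_comm]
        apply sum_congr rfl
        intro v _
        rw [mul_sum]
      rw [e2, ← sum_add_distrib]
      apply sum_congr rfl
      intro j _
      rw [hg1r, ← sum_add_distrib]
      apply sum_congr rfl
      intro v _
      ring
    rw [e1]
    have e3 := sq_sum_le_card_mul_sum_sq (s := range H) (f := fun j => g1 n j)
    rw [card_range] at e3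
    have e4 := jensen_sq Ω p (fun v => ∑ j ∈ range H, (lamzI z ((n : ℤ) + ((h + j + Y v : ℕ) : ℤ)) - 1)) hlaw.nonneg hsum
    have e5 : ∀ x y : ℝ, (x + y) ^ 2 ≤ 2 * x ^ 2 + 2 * y ^ 2 := fun x y => by nlinarith [sq_nonneg (x - y)]
    refine (e5 _ _).trans ?_
    linarith
  have k1b : ∀ j ∈ range H, ∑ n ∈ Icc 1 N, g1 n j ^ 2 ≤ LX * (((b ^ K : ℕ) : ℝ) / (K : ℝ) ^ (κ + 4)) := by
    intro j hj
    have hle : ∀ n ∈ Icc 1 N, ∀ v ∈ Ω, |lamI ((n : ℤ) + ((h + j + Y v : ℕ) : ℤ)) - lamzI z ((n : ℤ) + ((h + j + Y v : ℕ) : ℤ))| ≤ LX := by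
      intro n hn v hv
      have f1 := lamI_nonneg ((n : ℤ) + ((h + j + Y v : ℕ) : ℤ))
      have f2 := lamzI_nonneg z ((n : ℤ) + ((h + j + Y v : ℕ) : ℤ))
      have f3 : lamI ((n : ℤ) + ((h + j + Y v : ℕ) : ℤ)) ≤ LX := by
        rw [hLX]
        apply lamI_le _ _ (by linarith)
        have f4 := hcM j hj v hv
        have f5 := (mem_Icc.1 hn).2
        have f6 : n + (h + j + Y v) ≤ b ^ K := by omega
        exact_mod_cast f6
      have f4 : lamzI z ((n : ℤ) + ((h + j + Y v : ℕ) : ℤ)) ≤ LX := (lamzI_le _ _).trans (hV.trans hLX1)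
      rw [abs_le]
      constructor <;> linarith
    have hG : ∀ n ∈ Icc 1 N, |g1 n j| ≤ LX := by
      intro n hn
      rw [hg1r]
      refine (abs_sum_le_sum_abs _ _).trans ?_
      have f1 : ∀ v ∈ Ω, |p v * (lamI ((n : ℤ) + ((h + j + Y v : ℕ) : ℤ)) - lamzI z ((n : ℤ) + ((h + j + Y v : ℕ) : ℤ)))| ≤ p v * LX := by
        intro v hv
        rw [abs_mul, abs_of_nonneg (hlaw.nonneg v hv)]
        exact mul_le_mul_of_nonneg_left (hle n hn v hv) (hlaw.nonneg v hv)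
      refine (sum_le_sum f1).trans (le_of_eq ?_)
      rw [← sum_mul, hsum, one_mul]
    have e1 := h1 K hKk z (by rw [← hLX]; exact hz1) (by rw [← hLX]; exact hz4) α Ω p (fun v => (Y v : ℤ) + ((h + j : ℕ) : ℤ)) (hlaw.add _) N (by
      have : ((N : ℕ) : ℤ) ≤ ((b ^ K : ℕ) : ℤ) := by exact_mod_cast hBN.trans hK1
      push_cast at this
      exact this) (by
      intro v hv
      have f4 := hcM j hj v hv
      have f5 : (0 : ℤ) < (b : ℤ) ^ K := by positivity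
      have f6 : ((N + (h + j + Y v) : ℕ) : ℤ) ≤ ((b ^ K : ℕ) : ℤ) := by exact_mod_cast f4.trans hMK
      push_cast at f6 ⊢
      constructor
      · have f7 : (0 : ℤ) ≤ (Y v : ℤ) + ((h : ℤ) + (j : ℤ)) := by positivity
        linarith
      · linarith) LX (by linarith) (fun n => g1 n j) hG
    refine le_trans ?_ e1
    have e2 : ∑ n ∈ Icc 1 N, g1 n j ^ 2 = ∑ v ∈ Ω, p v * ∑ n ∈ Icc 1 N, g1 n j * (lamI ((n : ℤ) + ((Y v : ℤ) + ((h + j : ℕ) : ℤ))) - lamzI z ((n : ℤ) + ((Y v : ℤ) + ((h + j : ℕ) : ℤ)))) := by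
      have e3 : ∀ v ∈ Ω, p v * ∑ n ∈ Icc 1 N, g1 n j * (lamI ((n : ℤ) + ((Y v : ℤ) + ((h + j : ℕ) : ℤ))) - lamzI z ((n : ℤ) + ((Y v : ℤ) + ((h + j : ℕ) : ℤ)))) =
          ∑ n ∈ Icc 1 N, g1 n j * (p v * (lamI ((n : ℤ) + ((h + j + Y v : ℕ) : ℤ)) - lamzI z ((n : ℤ) + ((h + j + Y v : ℕ) : ℤ)))) := by
        intro v _
        rw [mul_sum]
        apply sum_congr rfl
        intro n _
        have e4 : (Y v : ℤ) + ((h + j : ℕ) : ℤ) = ((h + j + Y v : ℕ) : ℤ) := by push_cast; ring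
        rw [e4]
        ring
      rw [sum_congr rfl e3, sum_comm]
      apply sum_congr rfl
      intro n _
      rw [← mul_sum, ← hg1r, sq]
    rw [e2]
    apply sum_le_sum
    intro v hv
    exact mul_le_mul_of_nonneg_left (le_abs_self _) (hlaw.nonneg v hv)
  have k1c : ∑ n ∈ Icc 1 N, ∑ v ∈ Ω, p v * (∑ j ∈ range H, (lamzI z ((n : ℤ) + ((h + j + Y v : ℕ) : ℤ)) - 1)) ^ 2 ≤
      (Real.exp 8 + 3) * (M * (H * Real.log M)) := by
    rw [sum_comm]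
    have e1 : ∀ v ∈ Ω, ∑ n ∈ Icc 1 N, p v * (∑ j ∈ range H, (lamzI z ((n : ℤ) + ((h + j + Y v : ℕ) : ℤ)) - 1)) ^ 2 ≤
        p v * ((Real.exp 8 + 3) * (M * (H * Real.log M))) := by
      intro v hv
      rw [← mul_sum]
      apply mul_le_mul_of_nonneg_left _ (hlaw.nonneg v hv)
      have e2 := win_shift (fun m => (∑ j ∈ range H, (lamzI z (m + (j : ℤ)) - 1)) ^ 2) (fun m => sq_nonneg _) (h + Y v) N M (by
        have := hY v hv
        rw [hM, add_mul]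
        omega)
      have e3 := h2 M (by omega) z hz0 (hz3.trans (pow_le_pow_left₀ hL0.le hLM1 _)) H (hHs.trans (pow_le_pow_left₀ hL0.le hLM1 _))
      refine le_trans (le_of_eq ?_) (e2.trans e3)
      apply sum_congr rfl
      intro n _
      congr 1
      apply sum_congr rfl
      intro j _
      have e4 : (n : ℤ) + ((h + j + Y v : ℕ) : ℤ) = (n : ℤ) + ((h + Y v : ℕ) : ℤ) + (j : ℤ) := by push_cast; ring
      rw [e4]
    refine (sum_le_sum e1).trans (le_of_eq ?_)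
    rw [← sum_mul, hsum, one_mul]
  have k1d : ∑ n ∈ Icc 1 N, (∑ j ∈ range H, ∑ v ∈ Ω, p v * (lamI ((n : ℤ) + ((h + j + Y v : ℕ) : ℤ)) - 1)) ^ 2 ≤
      2 * (N * H) + 2 * ((Real.exp 8 + 3) * (M * (H * Real.log M))) := by
    refine (sum_le_sum k1a).trans ?_
    rw [sum_add_distrib, ← mul_sum, ← mul_sum, ← mul_sum, sum_comm]
    have e1 : ∑ j ∈ range H, ∑ n ∈ Icc 1 N, g1 n j ^ 2 ≤ H * (LX * (((b ^ K : ℕ) : ℝ) / (K : ℝ) ^ (κ + 4))) := by
      refine (sum_le_sum k1b).trans (le_of_eq ?_)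
      rw [sum_const, card_range, nsmul_eq_mul]
    have e2 : (H : ℝ) * (LX * (((b ^ K : ℕ) : ℝ) / (K : ℝ) ^ (κ + 4))) ≤ N := by
      have f2 : 1 / (K : ℝ) ^ (κ + 4) ≤ b ^ (κ + 4) / L ^ (κ + 4) := by
        rw [div_le_div_iff₀ (by positivity) (by positivity), one_mul, ← mul_pow]
        exact pow_le_pow_left₀ hL0.le hLK _
      calc (H : ℝ) * (LX * (((b ^ K : ℕ) : ℝ) / (K : ℝ) ^ (κ + 4))) = H * (LX * (((b ^ K : ℕ) : ℝ) * (1 / (K : ℝ) ^ (κ + 4)))) := by ring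
        _ ≤ L ^ κ * ((2 * L) * ((D * N) * (b ^ (κ + 4) / L ^ (κ + 4)))) := by gcongr
        _ = ((2 * D * b ^ (κ + 4)) / L ^ 3) * N := by
            rw [show κ + 4 = κ + 1 + 3 by ring, pow_add L (κ + 1), pow_succ L κ]
            field_simp
        _ ≤ 1 * N := by
            apply mul_le_mul_of_nonneg_right _ hN0.le
            rw [div_le_one (by positivity)]
            have : L ≤ L ^ 3 := le_self_pow₀ hL1 (by norm_num)
            linarith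
        _ = N := one_mul _
    have e3 : (H : ℝ) * ∑ j ∈ range H, ∑ n ∈ Icc 1 N, g1 n j ^ 2 ≤ H * N := mul_le_mul_of_nonneg_left (e1.trans e2) hH0
    linarith
  -- the conclusion
  have hlogM : (M : ℝ) * (H * Real.log M) ≤ (2 * (B + 3)) * (N * (H * L)) := by
    calc (M : ℝ) * (H * Real.log M) ≤ M * (H * (2 * L)) := by gcongr
      _ = _ := by rw [hMr]; ring
  have hexp : 0 ≤ 2 * (Real.exp 8 + 3) + 7 := by positivity
  have k3 : (N : ℝ) * H ≤ N * (H * L) := by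
    apply mul_le_mul_of_nonneg_left _ hN0.le
    exact le_mul_of_one_le_right hH0 hL1
  have k4 := mul_le_mul_of_nonneg_left hlogM hexp
  calc _ ≤ (2 * (N * H) + 2 * ((Real.exp 8 + 3) * (M * (H * Real.log M)))) + 7 * (M * (H * Real.log M)) := add_le_add k1d k2
    _ = 2 * (N * H) + (2 * (Real.exp 8 + 3) + 7) * (M * (H * Real.log M)) := by ring
    _ ≤ 2 * (N * (H * L)) + (2 * (Real.exp 8 + 3) + 7) * ((2 * (B + 3)) * (N * (H * L))) := by linarith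
    _ = _ := by ring

end Pool.Agent.Y885
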