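import Pool.Agent.Y885.PV4

set_option autoImplicit false

/-!
# WT1: waiting times for the primes in moved windows (averages over the law)
-/

namespace Pool.Agent.Y885

open Finset Pool.Agent.H373R2.T7
open Pool.Agent.W93.TD (total_w avg_w)

lemma jensen {α : Type} (Ω : Finset α) (p X : α → ℝ) (hp : ∀ v ∈ Ω, 0 ≤ p v) (hsum : ∑ v ∈ Ω, p v = 1) :
    (∑ v ∈ Ω, p v * X v) ^ 2 ≤ ∑ v ∈ Ω, p v * X v ^ 2 := by
  obtain ⟨m, hm⟩ : ∃ m, m = ∑ v ∈ Ω, p v * X v := ⟨_, rfl⟩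
  have h1 : 0 ≤ ∑ v ∈ Ω, p v * (X v - m) ^ 2 := sum_nonneg fun v hv => mul_nonneg (hp v hv) (sq_nonneg _)
  have h2 : ∑ v ∈ Ω, p v * (X v - m) ^ 2 = ∑ v ∈ Ω, p v * X v ^ 2 - 2 * m * ∑ v ∈ Ω, p v * X v + m ^ 2 * ∑ v ∈ Ω, p v := by
    rw [mul_sum, mul_sum, ← sum_sub_distrib, ← sum_add_distrib]
    apply sum_congr rfl
    intro v _
    ring
  rw [← hm, hsum] at h2
  rw [← hm]
  nlinarith

set_option maxHeartbeats 1000000 in
/-- the two averages over the law -/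
theorem wt_exp (b E c κ B D : ℕ) (hb : 2 ≤ b) (hE : 1 ≤ E) : ∃ N₀ : ℕ, ∀ N : ℕ, N₀ ≤ N → ∀ K : ℕ, (B + 4) * N ≤ b ^ K → b ^ K ≤ D * N →
    ∃ z : ℕ, (Vz z)⁻¹ ≤ √(Real.log N) ∧
    ∀ (α : Type) (_ : DecidableEq α) (Ω : Finset α) (p : α → ℝ) (Y : α → ℕ),
    TLaw b E c (2 * (2 * κ + 4) + 6) K Ω p (fun v => (Y v : ℤ)) → ∑ v ∈ Ω, p v = 1 → (∀ v ∈ Ω, Y v ≤ N) →
    ∀ h : ℕ, h ≤ B * N → ∀ s : ℕ, (s : ℝ) ≤ Real.log N ^ κ →
    (∀ j < s, Real.log N ^ (2 * κ + 1) * ∑ n ∈ Icc 1 N, |∑ v ∈ Ω, p v * (lamI ((n : ℤ) + ((h + j + Y v : ℕ) : ℤ)) -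
      lamzI z ((n : ℤ) + ((h + j + Y v : ℕ) : ℤ)))| ≤ N) ∧
    ∑ n ∈ Icc 1 N, (∑ v ∈ Ω, p v * ∑ j ∈ range s, (lamzI z ((n : ℤ) + ((h + j + Y v : ℕ) : ℤ)) - 1)) ^ 2 ≤
      (Real.exp 8 + 3) * (B + 3) * (N * (s * √(Real.log N))) := by
  classical
  obtain ⟨B1, hB1⟩ := tl_dif b E c hb hE (2 * κ + 4)
  obtain ⟨k1, h1⟩ := hB1 (B1 + 3)
  obtain ⟨n2, h2⟩ := model_var2 (κ + 1) (B1 + 3)
  obtain ⟨n3, h3⟩ := Vz_sqrt (B1 + 3)
  obtain ⟨n4, h4⟩ := ev_L' (2 + (B + 3) + D + 2 ^ B1 + 2 * D * b ^ (2 * κ + 4))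
  obtain ⟨n5, h5⟩ := ev_log' κ 1
  refine ⟨b ^ k1 + n2 + n3 + n4 + n5 + 3, fun N hN K hK1 hK2 => ?_⟩
  have hL := h4 N (by omega)
  have hsq := h5 N (by omega)
  obtain ⟨L, hLd⟩ : ∃ L, L = Real.log (N : ℝ) := ⟨_, rfl⟩
  rw [← hLd] at hL hsq ⊢
  rw [one_mul] at hsq
  have hbn : 0 < b := by omega
  have hbr : (2 : ℝ) ≤ b := by exact_mod_cast hb
  have q1 : (0 : ℝ) ≤ 2 * D * b ^ (2 * κ + 4) := by positivity
  have q2 : (0 : ℝ) ≤ 2 ^ B1 := by positivity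
  have q3 : (0 : ℝ) ≤ B := Nat.cast_nonneg _
  have q4 : (0 : ℝ) ≤ D := Nat.cast_nonneg _
  have hL1 : 1 ≤ L := by linarith
  have hL2 : 2 ≤ L := by linarith
  have hL0 : 0 < L := by linarith
  have hN3 : (3 : ℝ) ≤ N := by exact_mod_cast (by omega : 3 ≤ N)
  have hN0 : (0 : ℝ) < N := by linarith
  -- the scale
  have hBN : N ≤ (B + 4) * N := Nat.le_mul_of_pos_left _ (by omega)
  have hKk : k1 ≤ K := by
    have e1 : b ^ k1 ≤ b ^ K := by omega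
    exact (Nat.pow_le_pow_iff_right (by omega)).1 e1
  have hXN : (N : ℝ) ≤ ((b ^ K : ℕ) : ℝ) := by exact_mod_cast hBN.trans hK1
  have hX0 : (0 : ℝ) < ((b ^ K : ℕ) : ℝ) := by linarith
  have hXD : ((b ^ K : ℕ) : ℝ) ≤ D * N := by exact_mod_cast hK2
  obtain ⟨LX, hLX⟩ : ∃ LX, LX = Real.log ((b ^ K : ℕ) : ℝ) := ⟨_, rfl⟩
  have hLX1 : L ≤ LX := by rw [hLd, hLX]; exact Real.log_le_log hN0 hXN
  have hD0 : (0 : ℝ) < D := by
    rcases Nat.eq_zero_or_pos D with h | h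
    · rw [h, zero_mul] at hK2
      have : 0 < b ^ K := Nat.pow_pos hbn
      omega
    · exact_mod_cast h
  have hLX0 : 0 ≤ LX := by linarith
  have hLX2 : LX ≤ 2 * L := by
    have e1 := Real.log_le_log hX0 hXD
    rw [Real.log_mul hD0.ne' hN0.ne', ← hLX, ← hLd] at e1
    have e2 := Real.log_le_sub_one_of_pos hD0
    linarith
  have hLK : L ≤ b * K := by
    refine hLX1.trans ?_
    rw [hLX]
    push_cast
    rw [Real.log_pow, mul_comm]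
    apply mul_le_mul_of_nonneg_right _ (Nat.cast_nonneg _)
    have := Real.log_le_sub_one_of_pos (show (0 : ℝ) < b by linarith)
    linarith
  have hK0 : (0 : ℝ) < K := by
    rcases Nat.eq_zero_or_pos K with h | h
    · rw [h, Nat.cast_zero, mul_zero] at hLK
      linarith
    · exact_mod_cast h
  -- the level
  obtain ⟨z, hz⟩ : ∃ z, z = ⌈(2 * L) ^ B1⌉₊ := ⟨_, rfl⟩
  have hz1 : LX ^ B1 ≤ z := by
    refine (pow_le_pow_left₀ (by linarith) hLX2 _).trans ?_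
    rw [hz]
    exact Nat.le_ceil _
  have hz2 : (z : ℝ) ≤ L ^ (B1 + 2) := by
    have e1 : (z : ℝ) < (2 * L) ^ B1 + 1 := by rw [hz]; exact Nat.ceil_lt_add_one (by positivity)
    have e2 : (2 * L) ^ B1 ≤ L ^ (B1 + 1) := by
      rw [mul_pow, pow_succ, mul_comm]
      exact mul_le_mul_of_nonneg_left (by linarith) (by positivity)
    exact nm_ceil L z (B1 + 1) hL2 (by linarith)
  have hz0 : 1 ≤ z := by
    rw [hz, Nat.one_le_ceil_iff]
    positivity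
  have hz3 : (z : ℝ) ≤ L ^ (B1 + 3) := hz2.trans (pow_le_pow_right₀ hL1 (by omega))
  have hz4 : (z : ℝ) ≤ LX ^ (B1 + 3) := hz3.trans (pow_le_pow_left₀ hL0.le hLX1 _)
  have hV := h3 N (by omega) z hz0 (by rw [← hLd]; exact hz3)
  rw [← hLd] at hV
  obtain ⟨R, hR⟩ : ∃ R, R = √L := ⟨_, rfl⟩
  rw [← hR] at hV ⊢
  have hR1 : 1 ≤ R := by rw [hR]; exact Real.one_le_sqrt.2 hL1
  refine ⟨z, hV, ?_⟩
  intro α _ Ω p Y hlaw hsum hY h hh s hs
  have hLκ : L ^ κ ≤ N := by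
    refine hsq.trans (nm_sqrt N (by linarith))
  have hsN : s ≤ N := by exact_mod_cast hs.trans hLκ
  obtain ⟨M, hM⟩ : ∃ M, M = (B + 3) * N := ⟨_, rfl⟩
  have hMN : N ≤ M := by rw [hM]; exact Nat.le_mul_of_pos_left _ (by omega)
  have hMr : (M : ℝ) = (B + 3) * N := by rw [hM]; push_cast; ring
  have hM0 : (0 : ℝ) < M := by rw [hMr]; positivity
  have hLM1 : L ≤ Real.log (M : ℝ) := by rw [hLd]; exact Real.log_le_log hN0 (by exact_mod_cast hMN)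
  have hcM : ∀ v ∈ Ω, ∀ j < s, N + (h + j + Y v) ≤ M := by
    intro v hv j hj
    have := hY v hv
    rw [hM, add_mul]
    omega
  have hcM' : ∀ v ∈ Ω, N + (h + Y v) ≤ M := by
    intro v hv
    have := hY v hv
    rw [hM, add_mul]
    omega
  have hMK : M ≤ b ^ K := by
    refine le_trans ?_ hK1
    rw [hM]
    exact Nat.mul_le_mul_right _ (by omega)
  constructor
  · intro j hj
    obtain ⟨X', hX'⟩ : ∃ X', X' = ((b ^ K : ℕ) : ℝ) / (K : ℝ) ^ (2 * κ + 4) := ⟨_, rfl⟩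
    have hX'0 : 0 ≤ X' := by rw [hX']; positivity
    have hdif : ∀ G : ℕ → ℝ, (∀ n ∈ Icc 1 N, |G n| ≤ 1) →
        ∑ v ∈ Ω, p v * |∑ n ∈ Icc 1 N, G n * (lamI ((n : ℤ) + ((h + j + Y v : ℕ) : ℤ)) - lamzI z ((n : ℤ) + ((h + j + Y v : ℕ) : ℤ)))| ≤ X' := by
      intro G hG
      have e1 := h1 K hKk z (by rw [← hLX]; exact hz1) (by rw [← hLX]; exact hz4) α Ω p (fun v => (Y v : ℤ) + ((h + j : ℕ) : ℤ)) (hlaw.add _) N (by
        have : ((N : ℕ) : ℤ) ≤ ((b ^ K : ℕ) : ℤ) := by exact_mod_cast hBN.trans hK1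
        push_cast at this
        exact this) (by
        intro v hv
        have f4 := hcM v hv j hj
        have f5 : (0 : ℤ) < (b : ℤ) ^ K := by positivity
        have f6 : ((N + (h + j + Y v) : ℕ) : ℤ) ≤ ((b ^ K : ℕ) : ℤ) := by exact_mod_cast f4.trans hMK
        push_cast at f6 ⊢
        constructor
        · have f7 : (0 : ℤ) ≤ (Y v : ℤ) + ((h : ℤ) + (j : ℤ)) := by positivity
          linarith
        · linarith) 1 one_pos G hG
      rw [← hX', one_mul] at e1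
      refine le_trans (le_of_eq ?_) e1
      apply sum_congr rfl
      intro v _
      congr 2
      apply sum_congr rfl
      intro n _
      have e4 : (Y v : ℤ) + ((h + j : ℕ) : ℤ) = ((h + j + Y v : ℕ) : ℤ) := by push_cast; ring
      rw [e4]
    obtain ⟨Dn, hDn⟩ : ∃ Dn : ℕ → ℝ, Dn = fun (n : ℕ) => ∑ v ∈ Ω, p v * (lamI ((n : ℤ) + ((h + j + Y v : ℕ) : ℤ)) -
      lamzI z ((n : ℤ) + ((h + j + Y v : ℕ) : ℤ))) := ⟨_, rfl⟩
    have e1 : ∑ n ∈ Icc 1 N, |Dn n| ≤ X' := by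
      have e2 := hdif (fun n => if 0 ≤ Dn n then 1 else -1) (fun n _ => by split_ifs <;> simp)
      have e3 : ∑ n ∈ Icc 1 N, |Dn n| = ∑ v ∈ Ω, p v * ∑ n ∈ Icc 1 N, (if 0 ≤ Dn n then 1 else -1) *
          (lamI ((n : ℤ) + ((h + j + Y v : ℕ) : ℤ)) - lamzI z ((n : ℤ) + ((h + j + Y v : ℕ) : ℤ))) := by
        have f1 : ∀ n ∈ Icc 1 N, |Dn n| = ∑ v ∈ Ω, p v * ((if 0 ≤ Dn n then 1 else -1) *
            (lamI ((n : ℤ) + ((h + j + Y v : ℕ) : ℤ)) - lamzI z ((n : ℤ) + ((h + j + Y v : ℕ) : ℤ)))) := by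
          intro n _
          have f2 : |Dn n| = (if 0 ≤ Dn n then 1 else -1) * Dn n := by
            split_ifs with h0
            · rw [abs_of_nonneg h0, one_mul]
            · rw [abs_of_neg (by linarith), neg_one_mul]
          rw [f2]
          conv_lhs => rw [show Dn n = ∑ v ∈ Ω, p v * (lamI ((n : ℤ) + ((h + j + Y v : ℕ) : ℤ)) -
            lamzI z ((n : ℤ) + ((h + j + Y v : ℕ) : ℤ))) from by rw [hDn]]
          rw [mul_sum]
          apply sum_congr rfl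
          intro v _
          rw [hDn]
          ring
        rw [sum_congr rfl f1, sum_comm]
        apply sum_congr rfl
        intro v _
        rw [mul_sum]
      rw [e3]
      refine le_trans (sum_le_sum fun v hv => ?_) e2
      exact mul_le_mul_of_nonneg_left (le_abs_self _) (hlaw.nonneg v hv)
    have e5 := save N K ((b ^ K : ℕ) : ℝ) LX L D b κ (L ^ κ) (by positivity) le_rfl hL1 hK0 hLX2 hLX0 hX0.le hXD hLK q4 (by linarith) (by linarith)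
    rw [← hX'] at e5
    have e6 : L ^ (2 * κ + 1) * X' ≤ N := by
      calc L ^ (2 * κ + 1) * X' = L ^ κ * L ^ κ * (L * X') := by ring
        _ ≤ L ^ κ * L ^ κ * (LX * X') := by gcongr
        _ ≤ N := e5
    rw [hDn] at e1
    exact (mul_le_mul_of_nonneg_left e1 (by positivity)).trans e6
  · have hHL : (s : ℝ) ≤ Real.log M ^ (κ + 1) :=
      hs.trans ((pow_le_pow_right₀ hL1 (Nat.le_succ κ)).trans (pow_le_pow_left₀ hL0.le hLM1 _))
    have e3 := h2 M (by omega) z hz0 (hz3.trans (pow_le_pow_left₀ hL0.le hLM1 _)) s hHL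
    have e4 : ∀ n ∈ Icc 1 N, (∑ v ∈ Ω, p v * ∑ j ∈ range s, (lamzI z ((n : ℤ) + ((h + j + Y v : ℕ) : ℤ)) - 1)) ^ 2 ≤
        ∑ v ∈ Ω, p v * (∑ j ∈ range s, (lamzI z ((n : ℤ) + ((h + j + Y v : ℕ) : ℤ)) - 1)) ^ 2 :=
      fun n _ => jensen Ω p _ hlaw.nonneg hsum
    refine (sum_le_sum e4).trans ?_
    rw [sum_comm]
    have e5 : ∀ v ∈ Ω, ∑ n ∈ Icc 1 N, p v * (∑ j ∈ range s, (lamzI z ((n : ℤ) + ((h + j + Y v : ℕ) : ℤ)) - 1)) ^ 2 ≤
        p v * ((Real.exp 8 + 3) * (B + 3) * (N * (s * R))) := by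
      intro v hv
      rw [← mul_sum]
      apply mul_le_mul_of_nonneg_left _ (hlaw.nonneg v hv)
      have f1 := win_shift (fun m : ℤ => (∑ j ∈ range s, (lamzI z (m + (j : ℤ)) - 1)) ^ 2) (fun m => sq_nonneg _) (h + Y v) N M (hcM' v hv)
      have f2 : ∑ n ∈ Icc 1 N, (∑ j ∈ range s, (lamzI z ((n : ℤ) + ((h + j + Y v : ℕ) : ℤ)) - 1)) ^ 2 =
          ∑ n ∈ Icc 1 N, (∑ j ∈ range s, (lamzI z ((n : ℤ) + ((h + Y v : ℕ) : ℤ) + (j : ℤ)) - 1)) ^ 2 := by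
        apply sum_congr rfl
        intro n _
        congr 1
        apply sum_congr rfl
        intro j _
        congr 2
        push_cast
        ring
      rw [f2]
      refine (f1.trans e3).trans ?_
      have f3 : Real.exp 8 * (Vz z)⁻¹ ≤ Real.exp 8 * R := mul_le_mul_of_nonneg_left hV (Real.exp_pos _).le
      have f4 : (0 : ℝ) ≤ M * s := by positivity
      have f5 : Real.exp 8 * (Vz z)⁻¹ + 3 ≤ (Real.exp 8 + 3) * R := by nlinarith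
      calc (Real.exp 8 * (Vz z)⁻¹ + 3) * (M * s) ≤ ((Real.exp 8 + 3) * R) * (M * s) := mul_le_mul_of_nonneg_right f5 f4
        _ = _ := by rw [hMr]; ring
    refine (sum_le_sum e5).trans (le_of_eq ?_)
    rw [← sum_mul, hsum, one_mul]

end Pool.Agent.Y885
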