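import Pool.Agent.Y885.WT1

set_option autoImplicit false

/-!
# WT2: waiting times: products of independent factors
-/

namespace Pool.Agent.Y885

open Finset Pool.Agent.H373R2.T7

lemma prod_dif {ι : Type} [DecidableEq ι] (J : Finset ι) (f g : ι → ℝ) (hf : ∀ j ∈ J, |f j| ≤ 1) (hg : ∀ j ∈ J, |g j| ≤ 1) :
    |∏ j ∈ J, f j - ∏ j ∈ J, g j| ≤ ∑ j ∈ J, |f j - g j| := by
  induction J using Finset.induction_on with
  | empty => simp
  | insert a J ha ih =>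
    rw [prod_insert ha, prod_insert ha, sum_insert ha]
    have h1 := ih (fun j hj => hf j (mem_insert_of_mem hj)) (fun j hj => hg j (mem_insert_of_mem hj))
    have h2 : |∏ j ∈ J, f j| ≤ 1 := by
      rw [abs_prod]
      exact prod_le_one (fun j _ => abs_nonneg _) (fun j hj => hf j (mem_insert_of_mem hj))
    have h3 := hg a (mem_insert_self _ _)
    have e1 : f a * ∏ j ∈ J, f j - g a * ∏ j ∈ J, g j = (f a - g a) * ∏ j ∈ J, f j + g a * (∏ j ∈ J, f j - ∏ j ∈ J, g j) := by ring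
    rw [e1]
    refine (abs_add_le _ _).trans ?_
    rw [abs_mul, abs_mul]
    have e2 : |f a - g a| * |∏ j ∈ J, f j| ≤ |f a - g a| * 1 := mul_le_mul_of_nonneg_left h2 (abs_nonneg _)
    have e3 : |g a| * |∏ j ∈ J, f j - ∏ j ∈ J, g j| ≤ 1 * |∏ j ∈ J, f j - ∏ j ∈ J, g j| := mul_le_mul_of_nonneg_right h3 (abs_nonneg _)
    linarith

lemma exp_dif1 (a b : ℝ) (ha : 0 ≤ a) (hab : a ≤ b) : |Real.exp (-a) - Real.exp (-b)| ≤ |a - b| := by
  have h1 : Real.exp (-b) ≤ Real.exp (-a) := Real.exp_le_exp.2 (by linarith)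
  rw [abs_of_nonneg (by linarith), abs_of_nonpos (by linarith)]
  have h2 : Real.exp (-b) = Real.exp (-a) * Real.exp (-(b - a)) := by rw [← Real.exp_add]; congr 1; ring
  have h3 := Real.add_one_le_exp (-(b - a))
  have h4 : Real.exp (-a) ≤ 1 := Real.exp_le_one_iff.2 (by linarith)
  have h5 := Real.exp_pos (-a)
  rw [h2]
  nlinarith

lemma exp_dif (a b : ℝ) (ha : 0 ≤ a) (hb : 0 ≤ b) : |Real.exp (-a) - Real.exp (-b)| ≤ |a - b| := by
  rcases le_total a b with h | h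
  · exact exp_dif1 a b ha h
  · rw [abs_sub_comm, abs_sub_comm a b]
    exact exp_dif1 b a hb h

lemma prod_exp {s : ℕ} (g : Fin s → ℝ) (hg0 : ∀ j, 0 ≤ g j) (hg1 : ∀ j, g j ≤ 1) :
    |∏ j, (1 - g j) - Real.exp (-∑ j, g j)| ≤ ∑ j, g j ^ 2 := by
  rw [← sum_neg_distrib, Real.exp_sum]
  refine (prod_dif univ (fun j => 1 - g j) (fun j => Real.exp (-g j)) (fun j _ => ?_) (fun j _ => ?_)).trans ?_
  · rw [abs_of_nonneg (by linarith [hg1 j])]
    linarith [hg0 j]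
  · rw [abs_of_nonneg (Real.exp_pos _).le]
    exact Real.exp_le_one_iff.2 (by linarith [hg0 j])
  · apply sum_le_sum
    intro j _
    have h1 := Real.abs_exp_sub_one_sub_id_le (x := -g j) (by rw [abs_neg, abs_of_nonneg (hg0 j)]; exact hg1 j)
    rw [abs_sub_comm, show Real.exp (-g j) - (1 - g j) = Real.exp (-g j) - 1 - -g j by ring]
    rw [neg_sq] at h1
    exact h1

/-- the second moment of the number of the `n` for which all of the independent events fail -/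
lemma sec_mom {s : ℕ} {α : Type} [DecidableEq α] (Ω : Finset α) (p : α → ℝ) (hp0 : ∀ v ∈ Ω, 0 ≤ p v) (hsum : ∑ v ∈ Ω, p v = 1) (N : ℕ)
    (G : ℕ → Fin s → α → ℝ) (hG0 : ∀ n j v, 0 ≤ G n j v) (hG1 : ∀ n j v, G n j v ≤ 1) (τ Q : ℝ) (hτ0 : 0 ≤ τ) (hτ1 : τ ≤ 1) (hQ0 : 0 ≤ Q)
    (hQ : ∀ j, ∀ v ∈ Ω, ∑ n ∈ Icc 1 N, G n j v ≤ Q) :
    ∑ ω ∈ Fintype.piFinset (fun _ : Fin s => Ω), (∏ j, p (ω j)) * (∑ n ∈ Icc 1 N, (∏ j, (1 - G n j (ω j)) - τ)) ^ 2 ≤
      2 * s * Q ^ 2 + N * ∑ n ∈ Icc 1 N, |∏ j, (1 - ∑ v ∈ Ω, p v * G n j v) - τ| := by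
  classical
  obtain ⟨g, hg⟩ : ∃ g : ℕ → Fin s → ℝ, g = fun n j => ∑ v ∈ Ω, p v * G n j v := ⟨_, rfl⟩
  obtain ⟨a, ha⟩ : ∃ a : ℕ → ℝ, a = fun n => ∏ j, (1 - g n j) := ⟨_, rfl⟩
  have hg0 : ∀ n j, 0 ≤ g n j := by
    intro n j
    rw [hg]
    exact sum_nonneg fun v hv => mul_nonneg (hp0 v hv) (hG0 n j v)
  have hg1 : ∀ n j, g n j ≤ 1 := by
    intro n j
    rw [hg]
    simp only
    rw [← hsum]
    exact sum_le_sum fun v hv => mul_le_of_le_one_right (hp0 v hv) (hG1 n j v)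
  have ha0 : ∀ n, 0 ≤ a n := by
    intro n
    rw [ha]
    exact prod_nonneg fun j _ => by linarith [hg1 n j]
  have ha1 : ∀ n, a n ≤ 1 := by
    intro n
    rw [ha]
    exact prod_le_one (fun j _ => by linarith [hg1 n j]) (fun j _ => by linarith [hg0 n j])
  -- expectations
  have hE0 : ∑ ω ∈ Fintype.piFinset (fun _ : Fin s => Ω), ∏ j, p (ω j) = 1 := by
    rw [← prod_univ_sum (fun _ : Fin s => Ω) (fun _ v => p v)]
    simp [hsum]
  have hE1 : ∀ n, ∑ ω ∈ Fintype.piFinset (fun _ : Fin s => Ω), (∏ j, p (ω j)) * ∏ j, (1 - G n j (ω j)) = a n := by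
    intro n
    have e1 : ∀ ω ∈ Fintype.piFinset (fun _ : Fin s => Ω), (∏ j, p (ω j)) * ∏ j, (1 - G n j (ω j)) = ∏ j, (p (ω j) * (1 - G n j (ω j))) :=
      fun ω _ => (prod_mul_distrib).symm
    rw [sum_congr rfl e1, ← prod_univ_sum (fun _ : Fin s => Ω) (fun j v => p v * (1 - G n j v)), ha]
    apply prod_congr rfl
    intro j _
    rw [hg]
    simp only
    have : ∑ v ∈ Ω, p v * (1 - G n j v) = ∑ v ∈ Ω, p v - ∑ v ∈ Ω, p v * G n j v := by
      rw [← sum_sub_distrib]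
      apply sum_congr rfl
      intro v _
      ring
    rw [this, hsum]
  obtain ⟨bb, hbb⟩ : ∃ bb : ℕ → ℕ → ℝ, bb = fun n m => ∏ j, ∑ v ∈ Ω, p v * ((1 - G n j v) * (1 - G m j v)) := ⟨_, rfl⟩
  have hE2 : ∀ n m, ∑ ω ∈ Fintype.piFinset (fun _ : Fin s => Ω), (∏ j, p (ω j)) * ((∏ j, (1 - G n j (ω j))) * ∏ j, (1 - G m j (ω j))) = bb n m := by
    intro n m
    have e1 : ∀ ω ∈ Fintype.piFinset (fun _ : Fin s => Ω), (∏ j, p (ω j)) * ((∏ j, (1 - G n j (ω j))) * ∏ j, (1 - G m j (ω j))) =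
        ∏ j, (p (ω j) * ((1 - G n j (ω j)) * (1 - G m j (ω j)))) := by
      intro ω _
      rw [← prod_mul_distrib, ← prod_mul_distrib]
    rw [sum_congr rfl e1, ← prod_univ_sum (fun _ : Fin s => Ω) (fun j v => p v * ((1 - G n j v) * (1 - G m j v))), hbb]
  have hcov : ∀ n m, |bb n m - a n * a m| ≤ ∑ j, (∑ v ∈ Ω, p v * (G n j v * G m j v) + g n j * g m j) := by
    intro n m
    rw [hbb, ha]
    simp only
    rw [← prod_mul_distrib]
    refine (prod_dif univ _ _ (fun j _ => ?_) (fun j _ => ?_)).trans ?_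
    · rw [abs_of_nonneg (sum_nonneg fun v hv => mul_nonneg (hp0 v hv) (mul_nonneg (by linarith [hG1 n j v]) (by linarith [hG1 m j v]))), ← hsum]
      apply sum_le_sum
      intro v hv
      apply mul_le_of_le_one_right (hp0 v hv)
      exact mul_le_one₀ (by linarith [hG0 n j v]) (by linarith [hG1 m j v]) (by linarith [hG0 m j v])
    · rw [abs_of_nonneg (mul_nonneg (by linarith [hg1 n j]) (by linarith [hg1 m j]))]
      exact mul_le_one₀ (by linarith [hg0 n j]) (by linarith [hg1 m j]) (by linarith [hg0 m j])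
    · apply sum_le_sum
      intro j _
      have e1 : ∑ v ∈ Ω, p v * ((1 - G n j v) * (1 - G m j v)) = ∑ v ∈ Ω, p v - ∑ v ∈ Ω, p v * G n j v - ∑ v ∈ Ω, p v * G m j v +
          ∑ v ∈ Ω, p v * (G n j v * G m j v) := by
        rw [← sum_sub_distrib, ← sum_sub_distrib, ← sum_add_distrib]
        apply sum_congr rfl
        intro v _
        ring
      have e2 : ∑ v ∈ Ω, p v * G n j v = g n j := by rw [hg]
      have e3 : ∑ v ∈ Ω, p v * G m j v = g m j := by rw [hg]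
      have e4 : 0 ≤ ∑ v ∈ Ω, p v * (G n j v * G m j v) := sum_nonneg fun v hv => mul_nonneg (hp0 v hv) (mul_nonneg (hG0 n j v) (hG0 m j v))
      have e5 : 0 ≤ g n j * g m j := mul_nonneg (hg0 n j) (hg0 m j)
      rw [e1, hsum, e2, e3, show 1 - g n j - g m j + ∑ v ∈ Ω, p v * (G n j v * G m j v) - (1 - g n j) * (1 - g m j) =
        ∑ v ∈ Ω, p v * (G n j v * G m j v) - g n j * g m j by ring, abs_le]
      constructor <;> linarith
  have hmain : ∑ ω ∈ Fintype.piFinset (fun _ : Fin s => Ω), (∏ j, p (ω j)) * (∑ n ∈ Icc 1 N, (∏ j, (1 - G n j (ω j)) - τ)) ^ 2 =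
      ∑ n ∈ Icc 1 N, ∑ m ∈ Icc 1 N, (bb n m - a n * a m) + (∑ n ∈ Icc 1 N, (a n - τ)) ^ 2 := by
    have e1 : ∀ ω ∈ Fintype.piFinset (fun _ : Fin s => Ω), (∏ j, p (ω j)) * (∑ n ∈ Icc 1 N, (∏ j, (1 - G n j (ω j)) - τ)) ^ 2 =
        ∑ n ∈ Icc 1 N, ∑ m ∈ Icc 1 N, ((∏ j, p (ω j)) * ((∏ j, (1 - G n j (ω j))) * ∏ j, (1 - G m j (ω j))) -
          τ * ((∏ j, p (ω j)) * ∏ j, (1 - G n j (ω j))) - τ * ((∏ j, p (ω j)) * ∏ j, (1 - G m j (ω j))) + τ ^ 2 * ∏ j, p (ω j)) := by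
      intro ω _
      rw [sq, sum_mul_sum, mul_sum]
      apply sum_congr rfl
      intro n _
      rw [mul_sum]
      apply sum_congr rfl
      intro m _
      ring
    rw [sum_congr rfl e1, sum_comm]
    rw [sq (∑ n ∈ Icc 1 N, (a n - τ)), sum_mul_sum, ← sum_add_distrib]
    apply sum_congr rfl
    intro n _
    rw [sum_comm, ← sum_add_distrib]
    apply sum_congr rfl
    intro m _
    rw [sum_add_distrib, sum_sub_distrib, sum_sub_distrib, ← mul_sum, ← mul_sum, ← mul_sum, hE0, hE1, hE1, hE2]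
    ring
  rw [hmain]
  have t1 : ∑ n ∈ Icc 1 N, ∑ m ∈ Icc 1 N, (bb n m - a n * a m) ≤ 2 * s * Q ^ 2 := by
    have e1 : ∑ n ∈ Icc 1 N, ∑ m ∈ Icc 1 N, (bb n m - a n * a m) ≤
        ∑ n ∈ Icc 1 N, ∑ m ∈ Icc 1 N, ∑ j, (∑ v ∈ Ω, p v * (G n j v * G m j v) + g n j * g m j) :=
      sum_le_sum fun n _ => sum_le_sum fun m _ => (le_abs_self _).trans (hcov n m)
    refine e1.trans ?_
    have e2 : ∑ n ∈ Icc 1 N, ∑ m ∈ Icc 1 N, ∑ j, (∑ v ∈ Ω, p v * (G n j v * G m j v) + g n j * g m j) =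
        ∑ j, (∑ v ∈ Ω, p v * (∑ n ∈ Icc 1 N, G n j v) ^ 2 + (∑ n ∈ Icc 1 N, g n j) ^ 2) := by
      have f1 : ∀ n ∈ Icc 1 N, ∑ m ∈ Icc 1 N, ∑ j, (∑ v ∈ Ω, p v * (G n j v * G m j v) + g n j * g m j) =
          ∑ j, ∑ m ∈ Icc 1 N, (∑ v ∈ Ω, p v * (G n j v * G m j v) + g n j * g m j) := fun n _ => sum_comm
      rw [sum_congr rfl f1, sum_comm]
      apply sum_congr rfl
      intro j _
      have f2 : ∀ n ∈ Icc 1 N, ∑ m ∈ Icc 1 N, (∑ v ∈ Ω, p v * (G n j v * G m j v) + g n j * g m j) =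
          ∑ v ∈ Ω, p v * (G n j v * ∑ m ∈ Icc 1 N, G m j v) + g n j * ∑ m ∈ Icc 1 N, g m j := by
        intro n _
        rw [sum_add_distrib, sum_comm, ← mul_sum]
        congr 1
        apply sum_congr rfl
        intro v _
        rw [← mul_sum, ← mul_sum]
      rw [sum_congr rfl f2, sum_add_distrib, sum_comm, ← sum_mul, sq (∑ n ∈ Icc 1 N, g n j)]
      congr 1
      apply sum_congr rfl
      intro v _
      rw [← mul_sum, ← sum_mul, sq]
    rw [e2]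
    have e3 : ∀ j : Fin s, ∑ v ∈ Ω, p v * (∑ n ∈ Icc 1 N, G n j v) ^ 2 + (∑ n ∈ Icc 1 N, g n j) ^ 2 ≤ 2 * Q ^ 2 := by
      intro j
      have f1 : ∑ v ∈ Ω, p v * (∑ n ∈ Icc 1 N, G n j v) ^ 2 ≤ Q ^ 2 := by
        calc ∑ v ∈ Ω, p v * (∑ n ∈ Icc 1 N, G n j v) ^ 2 ≤ ∑ v ∈ Ω, p v * Q ^ 2 := by
              apply sum_le_sum
              intro v hv
              apply mul_le_mul_of_nonneg_left _ (hp0 v hv)
              exact pow_le_pow_left₀ (sum_nonneg fun n _ => hG0 n j v) (hQ j v hv) 2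
          _ = Q ^ 2 := by rw [← sum_mul, hsum, one_mul]
      have f2 : ∑ n ∈ Icc 1 N, g n j ≤ Q := by
        have : ∑ n ∈ Icc 1 N, g n j = ∑ v ∈ Ω, p v * ∑ n ∈ Icc 1 N, G n j v := by
          rw [hg]
          simp only
          rw [sum_comm]
          apply sum_congr rfl
          intro v _
          rw [mul_sum]
        rw [this]
        calc ∑ v ∈ Ω, p v * ∑ n ∈ Icc 1 N, G n j v ≤ ∑ v ∈ Ω, p v * Q := sum_le_sum fun v hv => mul_le_mul_of_nonneg_left (hQ j v hv) (hp0 v hv)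
          _ = Q := by rw [← sum_mul, hsum, one_mul]
      have f3 : (∑ n ∈ Icc 1 N, g n j) ^ 2 ≤ Q ^ 2 := pow_le_pow_left₀ (sum_nonneg fun n _ => hg0 n j) f2 2
      linarith
    refine (sum_le_sum fun j _ => e3 j).trans (le_of_eq ?_)
    rw [sum_const, card_univ, Fintype.card_fin, nsmul_eq_mul]
    ring
  have t2 : (∑ n ∈ Icc 1 N, (a n - τ)) ^ 2 ≤ N * ∑ n ∈ Icc 1 N, |a n - τ| := by
    have e1 : |∑ n ∈ Icc 1 N, (a n - τ)| ≤ ∑ n ∈ Icc 1 N, |a n - τ| := abs_sum_le_sum_abs _ _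
    have e2 : |∑ n ∈ Icc 1 N, (a n - τ)| ≤ N := by
      refine e1.trans ?_
      have : ∀ n ∈ Icc 1 N, |a n - τ| ≤ 1 := by
        intro n _
        rw [abs_le]
        constructor <;> linarith [ha0 n, ha1 n]
      refine (sum_le_sum this).trans (le_of_eq ?_)
      simp
    calc (∑ n ∈ Icc 1 N, (a n - τ)) ^ 2 = |∑ n ∈ Icc 1 N, (a n - τ)| * |∑ n ∈ Icc 1 N, (a n - τ)| := by rw [← sq, sq_abs]
      _ ≤ N * ∑ n ∈ Icc 1 N, |a n - τ| := mul_le_mul e2 e1 (abs_nonneg _) (Nat.cast_nonneg _)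
  have t3 : ∑ n ∈ Icc 1 N, |a n - τ| = ∑ n ∈ Icc 1 N, |∏ j, (1 - ∑ v ∈ Ω, p v * G n j v) - τ| := by
    rw [ha, hg]
  rw [← t3]
  linarith

end Pool.Agent.Y885
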