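import Pool.Agent.Y885.WT3

set_option autoImplicit false

/-!
# WT4: waiting times: the second moment
-/

namespace Pool.Agent.Y885

open Finset Pool.Agent.H373R2.T7

lemma lamP_nat (m : ℕ) : lamP (m : ℤ) = Real.log m * Pr m := by
  unfold lamP Pr
  rw [Int.toNat_natCast]
  split_ifs <;> simp

lemma pr_sum (B : ℕ) : ∃ N₀ : ℕ, ∀ N : ℕ, N₀ ≤ N → ∀ a : ℕ, N + a ≤ (B + 3) * N →
    ∑ n ∈ Icc 1 N, Pr (n + a) ≤ (12 * (B + 3) + 1) * (N / Real.log N) := by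
  classical
  obtain ⟨n1, h1⟩ := ev_L' 1
  obtain ⟨n2, h2⟩ := ev_log' 1 1
  refine ⟨n1 + n2 + 3, fun N hN a ha => ?_⟩
  have hL := h1 N (by omega)
  have hsq := h2 N (by omega)
  obtain ⟨L, hLd⟩ : ∃ L, L = Real.log (N : ℝ) := ⟨_, rfl⟩
  rw [← hLd] at hL hsq ⊢
  rw [one_mul, pow_one] at hsq
  have hL0 : 0 < L := by linarith
  have hN0 : (0 : ℝ) < N := by exact_mod_cast (by omega : 0 < N)
  have hpt : ∀ n ∈ Icc 1 N, Pr (n + a) ≤ (if n ∈ Icc 1 (Nat.sqrt N) then 1 else 0) + 2 / L * lamI ((n : ℤ) + (a : ℤ)) := by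
    intro n hn
    have hn1 := (mem_Icc.1 hn).1
    have hn0 : (0 : ℝ) < n := by exact_mod_cast hn1
    have e0 := lamI_nonneg ((n : ℤ) + (a : ℤ))
    have e0' : 0 ≤ 2 / L * lamI ((n : ℤ) + (a : ℤ)) := by positivity
    by_cases hns : n ∈ Icc 1 (Nat.sqrt N)
    · rw [if_pos hns]
      have := Pr_le (n + a)
      linarith
    · rw [if_neg hns, zero_add]
      have e1 : Nat.sqrt N < n := by
        by_contra hcon
        exact hns (mem_Icc.2 ⟨hn1, by omega⟩)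
      have e2 : N < n * n := Nat.sqrt_lt.1 e1
      have e3 : (N : ℝ) ≤ n * n := by exact_mod_cast e2.le
      have e4 := Real.log_le_log hN0 e3
      rw [Real.log_mul hn0.ne' hn0.ne', ← hLd] at e4
      have e5 : Real.log n ≤ Real.log ((n + a : ℕ) : ℝ) := Real.log_le_log hn0 (by exact_mod_cast Nat.le_add_right _ _)
      have e6 := lamP_le ((n + a : ℕ) : ℤ)
      rw [lamP_nat] at e6
      have e7 : L / 2 * Pr (n + a) ≤ Real.log ((n + a : ℕ) : ℝ) * Pr (n + a) := mul_le_mul_of_nonneg_right (by linarith) (Pr_nonneg _)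
      have e8 : ((n + a : ℕ) : ℤ) = (n : ℤ) + (a : ℤ) := by push_cast; ring
      rw [e8] at e6
      have e9 : L / 2 * Pr (n + a) ≤ lamI ((n : ℤ) + (a : ℤ)) := e7.trans e6
      calc Pr (n + a) = 2 / L * (L / 2 * Pr (n + a)) := by field_simp
        _ ≤ 2 / L * lamI ((n : ℤ) + (a : ℤ)) := mul_le_mul_of_nonneg_left e9 (by positivity)
  refine (sum_le_sum hpt).trans ?_
  rw [sum_add_distrib, ← mul_sum]
  have e1 := win_shift lamI lamI_nonneg a N ((B + 3) * N) ha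
  have e2 := lamI_sum ((B + 3) * N)
  push_cast at e2
  have e3 : ∑ n ∈ Icc 1 N, (if n ∈ Icc 1 (Nat.sqrt N) then (1 : ℝ) else 0) ≤ N / L := by
    rw [← sum_filter, sum_const, nsmul_eq_mul, mul_one]
    have f1 : (Icc 1 N).filter (fun n => n ∈ Icc 1 (Nat.sqrt N)) ⊆ Icc 1 (Nat.sqrt N) := fun n hn => (mem_filter.1 hn).2
    have f2 := card_le_card f1
    rw [Nat.card_Icc, Nat.add_sub_cancel] at f2
    have f3 : (((Icc 1 N).filter (fun n => n ∈ Icc 1 (Nat.sqrt N))).card : ℝ) ≤ (Nat.sqrt N : ℝ) := by exact_mod_cast f2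
    have f4 : (Nat.sqrt N : ℝ) ≤ √(N : ℝ) := Real.nat_sqrt_le_real_sqrt
    refine (f3.trans f4).trans ?_
    rw [le_div_iff₀ hL0]
    calc √(N : ℝ) * L ≤ √(N : ℝ) * √(N : ℝ) := mul_le_mul_of_nonneg_left hsq (Real.sqrt_nonneg _)
      _ = N := Real.mul_self_sqrt hN0.le
  have e4 : 2 / L * ∑ n ∈ Icc 1 N, lamI ((n : ℤ) + (a : ℤ)) ≤ 2 / L * (6 * ((B + 3) * N)) :=
    mul_le_mul_of_nonneg_left (by linarith) (by positivity)
  have e5 : 2 / L * (6 * (((B : ℝ) + 3) * N)) = 12 * (B + 3) * (N / L) := by ring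
  rw [e5] at e4
  linarith

set_option maxHeartbeats 1000000 in
theorem wt_second (b c B D Λ : ℕ) (hb : 2 ≤ b) (η : ℝ) (hη : 0 < η) : ∃ N₀ : ℕ, ∀ N : ℕ, N₀ ≤ N → ∀ K : ℕ, (B + 4) * N ≤ b ^ K → b ^ K ≤ D * N →
    ∀ (α : Type) (_ : DecidableEq α) (Ω : Finset α) (p : α → ℝ) (Y : α → ℕ),
    TLaw b 20 c (2 * (2 * 2 + 4) + 6) K Ω p (fun v => (Y v : ℤ)) → ∑ v ∈ Ω, p v = 1 → (∀ v ∈ Ω, Y v ≤ N) →
    ∀ h : ℕ, h ≤ B * N → ∀ s : ℕ, (s : ℝ) ≤ Λ * Real.log N → ∀ y : ℕ, y ≤ s →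
    ∑ ω ∈ Fintype.piFinset (fun _ : Fin s => Ω), (∏ j, p (ω j)) * (∑ n ∈ Icc 1 N,
      (∏ j : Fin s, (1 - (if j.val < y then Pr (n + (h + j.val + Y (ω j))) else 0)) - Real.exp (-((y : ℝ) / Real.log N)))) ^ 2 ≤ η * N ^ 2 := by
  classical
  obtain ⟨c₀, hc₀⟩ : ∃ c₀ : ℝ, c₀ = 12 * (B + 3) + 1 := ⟨_, rfl⟩
  have hB0 : (0 : ℝ) ≤ B := Nat.cast_nonneg _
  have hc₀1 : 1 ≤ c₀ := by rw [hc₀]; linarith
  have hΛ0 : (0 : ℝ) ≤ Λ := Nat.cast_nonneg _
  have hden : 0 < 6 + 2 * (Λ * c₀) := by positivity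
  obtain ⟨δ, hδ⟩ : ∃ δ, δ = min (1 / 2) (η / (6 + 2 * (Λ * c₀))) := ⟨_, rfl⟩
  have hδ0 : 0 < δ := by rw [hδ]; exact lt_min (by norm_num) (by positivity)
  have hδ1 : δ ≤ 1 / 2 := by rw [hδ]; exact min_le_left _ _
  have hδ2 : (6 + 2 * (Λ * c₀)) * δ ≤ η := by
    have : δ ≤ η / (6 + 2 * (Λ * c₀)) := by rw [hδ]; exact min_le_right _ _
    rw [le_div_iff₀ hden] at this
    linarith
  obtain ⟨C₃, hC₃⟩ : ∃ C₃ : ℝ, C₃ = (Real.exp 8 + 3) * (B + 3) := ⟨_, rfl⟩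
  have hC₃0 : 0 < C₃ := by rw [hC₃]; positivity
  obtain ⟨T, hT⟩ : ∃ T : ℕ, T = B + 3 + ⌈1 / δ⌉₊ := ⟨_, rfl⟩
  have hT1 : 1 ≤ T := by omega
  have hT0 : (0 : ℝ) < T := by exact_mod_cast hT1
  have hTδ : 1 / δ ≤ T := by
    rw [hT]
    push_cast
    have := Nat.le_ceil (1 / δ)
    linarith
  obtain ⟨n1, h1⟩ := wt_exp b 20 c 2 B D hb (by norm_num)
  obtain ⟨n2, h2⟩ := pr_sum B
  obtain ⟨G, hG⟩ : ∃ G : ℝ, G = 2 / δ + C₃ * Λ / (2 * δ ^ 2) := ⟨_, rfl⟩
  have hG0 : 0 ≤ G := by rw [hG]; positivity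
  obtain ⟨n4, h4⟩ := ev_L' (1 + T + T / δ + 3 * Λ / δ + 1 / δ + 2 * (Λ * c₀ ^ 2) / δ + G ^ 2 + (Λ + 1) + (B + 3))
  obtain ⟨n5, h5⟩ := ev_log' 2 (4 * (B + 3) * (Λ + 1))
  refine ⟨n1 + n2 + n4 + n5 + 3, fun N hN K hK1 hK2 => ?_⟩
  have hL := h4 N (by omega)
  have hsq := h5 N (by omega)
  have hQ := h2 N (by omega)
  obtain ⟨z, hVz, hexp⟩ := h1 N (by omega) K hK1 hK2
  obtain ⟨L, hLd⟩ : ∃ L, L = Real.log (N : ℝ) := ⟨_, rfl⟩
  rw [← hLd] at hL hsq hQ hVz hexp ⊢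
  obtain ⟨R, hR⟩ : ∃ R, R = √L := ⟨_, rfl⟩
  rw [← hR] at hVz hexp
  rw [← hC₃] at hexp
  rw [← hc₀] at hQ
  have u1 : (0 : ℝ) ≤ T / δ := by positivity
  have u2 : (0 : ℝ) ≤ 3 * Λ / δ := by positivity
  have u3 : (0 : ℝ) ≤ 1 / δ := by positivity
  have u4 : (0 : ℝ) ≤ 2 * (Λ * c₀ ^ 2) / δ := by positivity
  have u5 : (0 : ℝ) ≤ G ^ 2 := by positivity
  have hL1 : 1 ≤ L := by linarith
  have hL0 : 0 < L := by linarith
  have v1 : T ≤ δ * L := by
    have : (T : ℝ) / δ ≤ L := by linarith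
    rw [div_le_iff₀ hδ0] at this
    linarith
  have v2 : 3 * Λ ≤ δ * L := by
    have : 3 * (Λ : ℝ) / δ ≤ L := by linarith
    rw [div_le_iff₀ hδ0] at this
    linarith
  have v3 : 1 ≤ δ * L := by
    have : 1 / δ ≤ L := by linarith
    rw [div_le_iff₀ hδ0] at this
    linarith
  have v4 : 2 * (Λ * c₀ ^ 2) ≤ δ * L := by
    have : 2 * ((Λ : ℝ) * c₀ ^ 2) / δ ≤ L := by linarith
    rw [div_le_iff₀ hδ0] at this
    linarith
  have hRR : R * R = L := by rw [hR]; exact Real.mul_self_sqrt hL0.le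
  have hR1 : 1 ≤ R := by rw [hR]; exact Real.one_le_sqrt.2 hL1
  have hR0 : 0 < R := by linarith
  have hRG : G ≤ R := by
    rw [hR]
    apply Real.le_sqrt_of_sq_le
    linarith
  have w1 : 2 * R ≤ δ * L := by
    have e1 : 2 / δ ≤ R := by
      have : 0 ≤ C₃ * Λ / (2 * δ ^ 2) := by positivity
      linarith
    rw [div_le_iff₀ hδ0] at e1
    calc 2 * R ≤ (R * δ) * R := mul_le_mul_of_nonneg_right e1 hR0.le
      _ = δ * L := by rw [← hRR]; ring
  have w2 : C₃ * Λ * R ≤ 2 * δ ^ 2 * L := by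
    have e1 : C₃ * Λ / (2 * δ ^ 2) ≤ R := by
      have : 0 ≤ 2 / δ := by positivity
      linarith
    rw [div_le_iff₀ (by positivity)] at e1
    calc C₃ * Λ * R ≤ (R * (2 * δ ^ 2)) * R := mul_le_mul_of_nonneg_right e1 hR0.le
      _ = 2 * δ ^ 2 * L := by rw [← hRR]; ring
  have hN3 : (3 : ℝ) ≤ N := by exact_mod_cast (by omega : 3 ≤ N)
  have hN0 : (0 : ℝ) < N := by linarith
  have hs0 : 0 < √(N : ℝ) := Real.sqrt_pos.2 hN0
  have hss : √(N : ℝ) * √(N : ℝ) = N := Real.mul_self_sqrt hN0.le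
  intro α _ Ω p Y hlaw hsum hY h hh s hs y hy
  have hsL2 : (s : ℝ) ≤ L ^ 2 := by
    refine hs.trans ?_
    rw [sq]
    exact mul_le_mul_of_nonneg_right (by linarith) hL0.le
  have hsN : s ≤ N := by
    have e1 : L ^ 2 ≤ √(N : ℝ) := by
      refine le_trans ?_ hsq
      have : (1 : ℝ) ≤ 4 * (B + 3) * (Λ + 1) := by
        have f1 := mul_nonneg hB0 hΛ0
        have f2 : 4 * ((B : ℝ) + 3) * (Λ + 1) = 4 * (B * Λ) + 4 * B + 12 * Λ + 12 := by ring
        rw [f2]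
        linarith only [f1, hB0, hΛ0]
      exact le_mul_of_one_le_left (by positivity) this
    have e2 : (s : ℝ) ≤ N := hsL2.trans (e1.trans (nm_sqrt N (by linarith)))
    exact_mod_cast e2
  have hyr : (y : ℝ) ≤ Λ * L := by
    have : (y : ℝ) ≤ s := by exact_mod_cast hy
    linarith
  have hy0 : (0 : ℝ) ≤ y := Nat.cast_nonneg _
  have hcM : ∀ v ∈ Ω, ∀ j < y, N + (h + j + Y v) ≤ (B + 3) * N := by
    intro v hv j hj
    have := hY v hv
    rw [add_mul]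
    omega
  obtain ⟨hx1, hx2⟩ := hexp α inferInstance Ω p Y hlaw hsum hY h hh y (by
    have : (y : ℝ) ≤ s := by exact_mod_cast hy
    linarith)
  have hmean := wt_mean (s := s) Ω p hlaw.nonneg hsum N y T z hy hT1 L R δ (c₀ * (N / L)) (δ * L) (N / L ^ 5) (C₃ * (N * (y * R)))
    (2 * √(((B + 3) * N : ℕ) : ℝ) * Real.log (((B + 3) * N : ℕ) : ℝ)) hL0 hR0.le hδ0.le hδ1 (by positivity) (fun j v => h + j + Y v)
    (by
      intro j hj
      have e1 := hx1 j hj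
      rw [le_div_iff₀ (by positivity), mul_comm]
      exact e1)
    hx2
    (by
      intro j hj v hv
      apply pp_sum N ((B + 3) * N) _ (Nat.mul_pos (by omega) (by omega))
      intro n hn
      have := hcM v hv j hj
      have hn2 := (mem_Icc.1 hn).2
      exact_mod_cast (by omega : n + (h + j + Y v) ≤ (B + 3) * N))
    (fun m => by linarith [lamP_le m]) (fun m => (lamzI_le z m).trans hVz)
    (fun j hj v hv => hQ _ (hcM v hv j hj))
    (by
      intro n hn hnT j hj v hv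
      have e0 : (n : ℤ) + ((h + j + Y v : ℕ) : ℤ) = ((n + (h + j + Y v) : ℕ) : ℤ) := by push_cast; ring
      rw [e0, lamP_nat, ← sub_mul, abs_mul, abs_of_nonneg (Pr_nonneg _)]
      apply mul_le_mul_of_nonneg_right _ (Pr_nonneg _)
      have hn1 := (mem_Icc.1 hn).1
      have hn2 := (mem_Icc.1 hn).2
      have hn0 : (0 : ℝ) < n := by exact_mod_cast hn1
      have hlT : Real.log T ≤ δ * L := by
        have := Real.log_le_sub_one_of_pos hT0
        linarith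
      have e1 : L ≤ Real.log n + Real.log T := by
        rw [hLd, ← Real.log_mul hn0.ne' hT0.ne']
        exact Real.log_le_log hN0 (by exact_mod_cast hnT)
      have e2 : Real.log n ≤ Real.log ((n + (h + j + Y v) : ℕ) : ℝ) := Real.log_le_log hn0 (by exact_mod_cast Nat.le_add_right _ _)
      have e3 : Real.log ((n + (h + j + Y v) : ℕ) : ℝ) ≤ L + Real.log T := by
        rw [hLd, ← Real.log_mul hN0.ne' hT0.ne']
        apply Real.log_le_log
        · exact_mod_cast (by omega : 0 < n + (h + j + Y v))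
        · have f1 := hcM v hv j hj
          have f2 : (B + 3) * N ≤ N * T := by
            rw [mul_comm]
            exact Nat.mul_le_mul_left _ (by omega)
          exact_mod_cast (by omega : n + (h + j + Y v) ≤ N * T)
      rw [abs_le]
      constructor <;> linarith)
  have hsec := sec_mom (s := s) Ω p hlaw.nonneg hsum N (fun n j v => if j.val < y then Pr (n + (h + j.val + Y v)) else 0)
    (fun n j v => by split_ifs; exacts [Pr_nonneg _, le_rfl]) (fun n j v => by split_ifs; exacts [Pr_le _, zero_le_one])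
    (Real.exp (-((y : ℝ) / L))) (c₀ * (N / L)) (Real.exp_pos _).le (Real.exp_le_one_iff.2 (neg_nonpos.2 (div_nonneg hy0 hL0.le))) (by positivity)
    (by
      intro j v hv
      by_cases hj : j.val < y
      · simp only [if_pos hj]
        exact hQ _ (hcM v hv j.val hj)
      · simp only [if_neg hj, sum_const_zero]
        positivity)
  refine hsec.trans ?_
  -- the arithmetic
  have m1 : 2 * (s : ℝ) * (c₀ * (N / L)) ^ 2 ≤ δ * N ^ 2 := by
    calc 2 * (s : ℝ) * (c₀ * (N / L)) ^ 2 ≤ 2 * (Λ * L) * (c₀ * (N / L)) ^ 2 := by gcongr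
      _ = (2 * (Λ * c₀ ^ 2)) * (N ^ 2 / L) := by field_simp
      _ ≤ (δ * L) * (N ^ 2 / L) := mul_le_mul_of_nonneg_right v4 (by positivity)
      _ = δ * N ^ 2 := by field_simp
  have r1 : L * ((N : ℝ) / T) ≤ δ * (L * N) := by
    have e1 : (N : ℝ) / T ≤ N * δ := by
      rw [div_le_iff₀ hT0]
      rw [div_le_iff₀ hδ0] at hTδ
      calc (N : ℝ) = N * 1 := (mul_one _).symm
        _ ≤ N * (T * δ) := mul_le_mul_of_nonneg_left hTδ hN0.le
        _ = N * δ * T := by ring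
    calc L * ((N : ℝ) / T) ≤ L * (N * δ) := mul_le_mul_of_nonneg_left e1 hL0.le
      _ = _ := by ring
  have r2 : (2 * R + δ * L) * (y * (c₀ * (N / L))) ≤ 2 * (Λ * c₀) * (δ * (L * N)) := by
    calc (2 * R + δ * L) * (y * (c₀ * (N / L))) ≤ (δ * L + δ * L) * ((Λ * L) * (c₀ * (N / L))) := by gcongr
      _ = _ := by field_simp; ring
  have r3 : 3 * (y * ((N : ℝ) / L ^ 5)) ≤ δ * (L * N) := by
    have e1 : (N : ℝ) / L ^ 5 ≤ N / L := div_le_div_of_nonneg_left hN0.le hL0 (le_self_pow₀ hL1 (by norm_num))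
    calc 3 * (y * ((N : ℝ) / L ^ 5)) ≤ 3 * ((Λ * L) * (N / L)) := by gcongr
      _ = (3 * Λ) * N := by field_simp
      _ ≤ (δ * L) * N := mul_le_mul_of_nonneg_right v2 hN0.le
      _ = _ := by ring
  have r4 : y * (2 * √(((B + 3) * N : ℕ) : ℝ) * Real.log (((B + 3) * N : ℕ) : ℝ)) ≤ δ * (L * N) := by
    have e1 : √(((B + 3) * N : ℕ) : ℝ) ≤ (B + 3) * √(N : ℝ) := by
      push_cast
      rw [Real.sqrt_mul (by positivity)]
      apply mul_le_mul_of_nonneg_right _ hs0.le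
      exact nm_sqrt _ (by linarith)
    have e2 : Real.log (((B + 3) * N : ℕ) : ℝ) ≤ 2 * L := by
      push_cast
      rw [Real.log_mul (by positivity) hN0.ne', ← hLd]
      have := Real.log_le_sub_one_of_pos (show (0 : ℝ) < B + 3 by positivity)
      linarith
    have e3 : 0 ≤ Real.log (((B + 3) * N : ℕ) : ℝ) := Real.log_natCast_nonneg _
    calc (y : ℝ) * (2 * √(((B + 3) * N : ℕ) : ℝ) * Real.log (((B + 3) * N : ℕ) : ℝ)) ≤ (Λ * L) * (2 * ((B + 3) * √(N : ℝ)) * (2 * L)) := by gcongr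
      _ = (4 * (B + 3) * Λ * L ^ 2) * √(N : ℝ) := by ring
      _ ≤ (4 * (B + 3) * (Λ + 1) * L ^ 2) * √(N : ℝ) := by
          apply mul_le_mul_of_nonneg_right _ hs0.le
          apply mul_le_mul_of_nonneg_right _ (by positivity)
          exact mul_le_mul_of_nonneg_left (by linarith only) (by positivity)
      _ ≤ √(N : ℝ) * √(N : ℝ) := mul_le_mul_of_nonneg_right hsq hs0.le
      _ = N := hss
      _ ≤ (δ * L) * N := le_mul_of_one_le_left hN0.le v3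
      _ = _ := by ring
  have r5 : C₃ * (N * (y * R)) / (2 * (δ * L)) ≤ δ * (L * N) := by
    rw [div_le_iff₀ (by positivity)]
    calc C₃ * (N * (y * R)) ≤ C₃ * (N * ((Λ * L) * R)) := by gcongr
      _ = (C₃ * Λ * R) * (L * N) := by ring
      _ ≤ (2 * δ ^ 2 * L) * (L * N) := mul_le_mul_of_nonneg_right w2 (by positivity)
      _ = _ := by ring
  have r6 : (N : ℝ) * (δ * L / 2) ≤ δ * (L * N) := by
    have : 0 ≤ δ * (L * N) := by positivity
    linarith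
  have m2 : ∑ n ∈ Icc 1 N, |∏ j : Fin s, (1 - ∑ v ∈ Ω, p v * (if j.val < y then Pr (n + (h + j.val + Y v)) else 0)) - Real.exp (-((y : ℝ) / L))| ≤
      (5 + 2 * (Λ * c₀)) * (δ * N) := by
    apply le_of_mul_le_mul_left _ hL0
    refine hmean.trans ?_
    calc _ ≤ δ * (L * N) + 2 * (Λ * c₀) * (δ * (L * N)) + δ * (L * N) + δ * (L * N) + (δ * (L * N) + δ * (L * N)) :=
          add_le_add (add_le_add (add_le_add (add_le_add r1 r2) r3) r4) (add_le_add r5 r6)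
      _ = _ := by ring
  have m3 := mul_le_mul_of_nonneg_left m2 hN0.le
  have m4 : (6 + 2 * (Λ * c₀)) * δ * N ^ 2 ≤ η * N ^ 2 := mul_le_mul_of_nonneg_right hδ2 (by positivity)
  calc _ ≤ δ * N ^ 2 + N * ((5 + 2 * (Λ * c₀)) * (δ * N)) := add_le_add m1 m3
    _ = (6 + 2 * (Λ * c₀)) * δ * N ^ 2 := by ring
    _ ≤ η * N ^ 2 := m4

end Pool.Agent.Y885
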