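import Pool.Agent.Y885.WT4

set_option autoImplicit false

/-!
# WT5: waiting times: the selection
-/

namespace Pool.Agent.Y885

open Finset Pool.Agent.H373R2.T7
open Pool.Agent.W93.TD (total_w)

/-- the number of the `n ≤ N` such that none of the first `y` moved points is prime -/
def cntE (S : ℕ → Finset ℕ) (h N y : ℕ) : ℕ := ((Icc 1 N).filter (fun n => ∀ j < y, ¬ (n + (h + j + ∑ a ∈ S j, a)).Prime)).card

lemma cntE_anti (S : ℕ → Finset ℕ) (h N y y' : ℕ) (hy : y ≤ y') : cntE S h N y' ≤ cntE S h N y := by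
  unfold cntE
  apply card_le_card
  intro n hn
  rw [mem_filter] at hn ⊢
  exact ⟨hn.1, fun j hj => hn.2 j (by omega)⟩

lemma cntE_eq (s N h y : ℕ) (S : ℕ → Finset ℕ) (hy : y ≤ s) (c : Fin s → ℕ) (hc : ∀ j : Fin s, ∑ a ∈ S j.val, a = c j) :
    (cntE S h N y : ℝ) = ∑ n ∈ Icc 1 N, ∏ j : Fin s, (1 - (if j.val < y then Pr (n + (h + j.val + c j)) else 0)) := by
  classical
  unfold cntE
  rw [card_filter]
  push_cast
  apply sum_congr rfl
  intro n _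
  by_cases h1 : ∀ j < y, ¬ (n + (h + j + ∑ a ∈ S j, a)).Prime
  · rw [if_pos h1]
    symm
    apply prod_eq_one
    intro j _
    split_ifs with hj
    · have := h1 j.val hj
      rw [hc j] at this
      unfold Pr
      rw [if_neg this, sub_zero]
    · rw [sub_zero]
  · rw [if_neg h1]
    push Not at h1
    obtain ⟨j, hj, hp⟩ := h1
    symm
    apply prod_eq_zero (mem_univ (⟨j, by omega⟩ : Fin s))
    have e1 := hc ⟨j, by omega⟩
    simp only at e1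
    simp only [if_pos hj]
    rw [← e1]
    unfold Pr
    rw [if_pos hp, sub_self]

set_option maxHeartbeats 1000000 in
/-- the waiting times are exponential -/
theorem las_wait (l : ℕ) (hl : 2 ≤ l) : ∃ C : ℝ, ∀ (H B : ℕ) (ε : ℝ), 0 < ε → ∃ N₀ : ℕ, ∀ A : Set ℕ,
    (∀ x : ℕ, 1 ≤ x → ∃ a ∈ A, x ≤ a ∧ a ≤ l * x) → ∀ N : ℕ, N₀ ≤ N → ∀ h : ℕ, h ≤ B * N →
    ∃ S : ℕ → Finset ℕ, (∀ j, ∀ a ∈ S j, a ∈ A ∧ Real.log N ^ H ≤ a ∧ (a : ℝ) ≤ N / Real.log N ^ H) ∧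
      (∀ j, ((S j).card : ℝ) ≤ C * Real.log (Real.log N) ^ 2) ∧
      ∀ y : ℕ, |(cntE S h N y : ℝ) / N - Real.exp (-((y : ℝ) / Real.log N))| ≤ ε := by
  classical
  obtain ⟨b, hb, C₀, hC⟩ := las_lawP l 1 hl le_rfl (2 * (2 * 2 + 4) + 6)
  refine ⟨|C₀|, fun H B ε hε => ?_⟩
  obtain ⟨c, N₁, h0⟩ := hC H (B + 4)
  obtain ⟨θ, hθ⟩ : ∃ θ : ℝ, θ = min 1 (ε / 3) := ⟨_, rfl⟩
  have hθ0 : 0 < θ := by rw [hθ]; exact lt_min one_pos (by positivity)
  have hθ1 : θ ≤ 1 := by rw [hθ]; exact min_le_left _ _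
  have hθ2 : 3 * θ ≤ ε := by
    have : θ ≤ ε / 3 := by rw [hθ]; exact min_le_right _ _
    linarith
  obtain ⟨I, hI⟩ : ∃ I : ℕ, I = ⌈2 / θ ^ 2⌉₊ + 1 := ⟨_, rfl⟩
  have hI1 : 1 ≤ I := by omega
  have hI2 : 2 / θ ^ 2 ≤ I := by
    rw [hI]
    push_cast
    have := Nat.le_ceil (2 / θ ^ 2)
    linarith
  have hI0 : (0 : ℝ) < I := by exact_mod_cast hI1
  obtain ⟨η, hη⟩ : ∃ η : ℝ, η = θ ^ 2 / (2 * (I + 1)) := ⟨_, rfl⟩
  have hη0 : 0 < η := by rw [hη]; positivity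
  obtain ⟨n2, h2⟩ := wt_second b c B (b ^ (B + 5)) I hb η hη0
  obtain ⟨n4, h4⟩ := ev_L' (8 + 2 / θ)
  refine ⟨N₁ + n2 + n4 + 3, fun A hA N hN h hh => ?_⟩
  have hL := h4 N (by omega)
  obtain ⟨L, hLd⟩ : ∃ L, L = Real.log (N : ℝ) := ⟨_, rfl⟩
  obtain ⟨nn, Ω, pr, Sf, g1, g2, g3⟩ := h0 A hA N (by omega)
  obtain ⟨K, hK⟩ : ∃ K, K = Nat.log b N + 1 + (B + 4) := ⟨_, rfl⟩
  have hK1 : (B + 4) * N ≤ b ^ K := by
    have e1 : N < b ^ (Nat.log b N + 1) := Nat.lt_pow_succ_log_self (by omega) _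
    have e2 : B + 4 < b ^ (B + 4) := Nat.lt_pow_self (by omega)
    calc (B + 4) * N ≤ b ^ (B + 4) * b ^ (Nat.log b N + 1) := Nat.mul_le_mul e2.le e1.le
      _ = b ^ K := by rw [hK, ← pow_add, add_comm]
  have hK2 : b ^ K ≤ b ^ (B + 5) * N := by
    have e1 : b ^ Nat.log b N ≤ N := Nat.pow_log_le_self b (by omega)
    calc b ^ K = b ^ (B + 5) * b ^ Nat.log b N := by rw [hK, ← pow_add]; congr 1; omega
      _ ≤ b ^ (B + 5) * N := Nat.mul_le_mul_left _ e1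
  have hsec := h2 N (by omega) K hK1 hK2
  rw [← hLd] at hL hsec g3 ⊢
  have u1 : 0 ≤ 2 / θ := by positivity
  have hL8 : 8 ≤ L := by linarith
  have hL0 : 0 < L := by linarith
  have hN3 : (3 : ℝ) ≤ N := by exact_mod_cast (by omega : 3 ≤ N)
  have hN0 : (0 : ℝ) < N := by linarith
  have hθL : 2 ≤ θ * L := by
    have : 2 / θ ≤ L := by linarith
    rw [div_le_iff₀ hθ0] at this
    linarith
  obtain ⟨w, hw⟩ : ∃ w : ℕ, w = ⌊θ * L⌋₊ := ⟨_, rfl⟩
  have hw1 : (w : ℝ) ≤ θ * L := by rw [hw]; exact Nat.floor_le (by positivity)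
  have hw2 : θ * L / 2 ≤ w := by
    have : θ * L < w + 1 := by rw [hw]; exact Nat.lt_floor_add_one _
    linarith
  have hw0 : 0 < w := by
    have : (0 : ℝ) < w := by linarith
    exact_mod_cast this
  obtain ⟨s, hs⟩ : ∃ s, s = I * w := ⟨_, rfl⟩
  have hsr : (s : ℝ) ≤ I * L := by
    rw [hs]
    push_cast
    apply mul_le_mul_of_nonneg_left _ hI0.le
    calc (w : ℝ) ≤ θ * L := hw1
      _ ≤ L := mul_le_of_le_one_left hL0.le hθ1
  obtain ⟨Y, hY⟩ : ∃ Y : (Fin nn → ℕ) → ℕ, Y = fun v => ∑ a ∈ Sf v, a := ⟨_, rfl⟩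
  have hYN : ∀ v ∈ Ω, Y v ≤ N := by
    intro v hv
    have := (g3 v hv).2.2.1
    rw [hY]
    simp only
    omega
  have hsec' := hsec (Fin nn → ℕ) inferInstance Ω (fun _ => pr) Y (by rw [hY, hK]; exact g2) g1 hYN h hh s hsr
  obtain ⟨F, hF⟩ : ∃ F : (Fin s → Fin nn → ℕ) → ℕ → ℝ, F = fun (ω : Fin s → Fin nn → ℕ) (y : ℕ) => ∑ n ∈ Icc 1 N,
      (∏ j : Fin s, (1 - (if j.val < y then Pr (n + (h + j.val + Y (ω j))) else 0)) - Real.exp (-((y : ℝ) / L))) := ⟨_, rfl⟩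
  obtain ⟨FF, hFF⟩ : ∃ FF : (Fin s → Fin nn → ℕ) → ℝ, FF = fun ω => ∑ i ∈ range (I + 1), F ω (i * w) ^ 2 := ⟨_, rfl⟩
  have hEF : ∑ ω ∈ Fintype.piFinset (fun _ : Fin s => Ω), (∏ _i : Fin s, pr) * FF ω ≤ (I + 1) * (η * N ^ 2) := by
    have e1 : ∀ ω ∈ Fintype.piFinset (fun _ : Fin s => Ω), (∏ _i : Fin s, pr) * FF ω = ∑ i ∈ range (I + 1), (∏ _i : Fin s, pr) * F ω (i * w) ^ 2 := by
      intro ω _
      rw [hFF, mul_sum]
    rw [sum_congr rfl e1, sum_comm]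
    have e2 : ∀ i ∈ range (I + 1), ∑ ω ∈ Fintype.piFinset (fun _ : Fin s => Ω), (∏ _i : Fin s, pr) * F ω (i * w) ^ 2 ≤ η * N ^ 2 := by
      intro i hi
      rw [mem_range] at hi
      rw [hF]
      exact hsec' (i * w) (by rw [hs]; exact Nat.mul_le_mul_right _ (by omega))
    refine (sum_le_sum e2).trans (le_of_eq ?_)
    rw [sum_const, card_range, nsmul_eq_mul]
    push_cast
    ring
  have hpr0 : ∀ v ∈ Ω, (0 : ℝ) ≤ pr := fun v hv => g2.nonneg v hv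
  obtain ⟨ω, hω, hωF⟩ := exists_le_avg (Fintype.piFinset (fun _ : Fin s => Ω)) (fun _ => ∏ _i : Fin s, pr) FF (by
    intro ω hω
    exact prod_nonneg fun i _ => hpr0 (ω i) (Fintype.mem_piFinset.1 hω i)) (total_w (fun _ : Fin s => Ω) (fun _ _ => pr) (fun _ => g1))
    ((I + 1) * (η * N ^ 2)) (by positivity) hEF
  have hωi : ∀ j, ω j ∈ Ω := fun j => Fintype.mem_piFinset.1 hω j
  obtain ⟨S, hS⟩ : ∃ S : ℕ → Finset ℕ, S = fun j => if hj : j < s then Sf (ω ⟨j, hj⟩) else ∅ := ⟨_, rfl⟩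
  have hS1 : ∀ j (hj : j < s), S j = Sf (ω ⟨j, hj⟩) := by
    intro j hj
    rw [hS]
    exact dif_pos hj
  have hS2 : ∀ j, ¬ j < s → S j = ∅ := by
    intro j hj
    rw [hS]
    exact dif_neg hj
  refine ⟨S, fun j a ha => ?_, fun j => ?_, ?_⟩
  · by_cases hj : j < s
    · rw [hS1 j hj] at ha
      exact (g3 _ (hωi ⟨j, hj⟩)).1 a ha
    · rw [hS2 j hj] at ha
      simp at ha
  · by_cases hj : j < s
    · rw [hS1 j hj]
      refine (g3 _ (hωi ⟨j, hj⟩)).2.1.trans ?_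
      exact mul_le_mul_of_nonneg_right (le_abs_self _) (sq_nonneg _)
    · rw [hS2 j hj, card_empty, Nat.cast_zero]
      positivity
  -- the grid
  have hgrid : ∀ i ≤ I, |(cntE S h N (i * w) : ℝ) / N - Real.exp (-(((i * w : ℕ) : ℝ) / L))| ≤ θ := by
    intro i hi
    have e0 : F ω (i * w) = cntE S h N (i * w) - N * Real.exp (-(((i * w : ℕ) : ℝ) / L)) := by
      rw [cntE_eq s N h (i * w) S (by rw [hs]; exact Nat.mul_le_mul_right _ hi) (fun j => Y (ω j)) (fun j => by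
        rw [hS1 j.val j.isLt, hY]), hF]
      simp only
      rw [sum_sub_distrib, sum_const, Nat.card_Icc, Nat.add_sub_cancel, nsmul_eq_mul]
    have e1 : F ω (i * w) ^ 2 ≤ θ ^ 2 * N ^ 2 := by
      have f1 : F ω (i * w) ^ 2 ≤ FF ω := by
        rw [hFF]
        exact single_le_sum (f := fun i => F ω (i * w) ^ 2) (fun i _ => sq_nonneg _) (mem_range.2 (by omega))
      refine (f1.trans hωF).trans (le_of_eq ?_)
      rw [hη]
      field_simp
    have e2 : |F ω (i * w)| ≤ θ * N := by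
      rw [← mul_pow] at e1
      exact abs_le_of_sq_le_sq e1 (by positivity)
    have e3 : (cntE S h N (i * w) : ℝ) / N - Real.exp (-(((i * w : ℕ) : ℝ) / L)) = F ω (i * w) / N := by
      rw [e0]
      field_simp
    rw [e3, abs_div, abs_of_pos hN0, div_le_iff₀ hN0]
    exact e2
  intro y
  have hmono : ∀ y₁ y₂ : ℕ, y₁ ≤ y₂ → (cntE S h N y₂ : ℝ) / N ≤ cntE S h N y₁ / N := by
    intro y₁ y₂ hy
    apply div_le_div_of_nonneg_right _ hN0.le
    exact_mod_cast cntE_anti S h N y₁ y₂ hy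
  have hexpm : ∀ y₁ y₂ : ℕ, y₁ ≤ y₂ → Real.exp (-((y₂ : ℝ) / L)) ≤ Real.exp (-((y₁ : ℝ) / L)) := by
    intro y₁ y₂ hy
    apply Real.exp_le_exp.2
    have : (y₁ : ℝ) / L ≤ y₂ / L := div_le_div_of_nonneg_right (by exact_mod_cast hy) hL0.le
    linarith
  obtain ⟨i, hi⟩ : ∃ i, i = y / w := ⟨_, rfl⟩
  have hiy : i * w ≤ y := by rw [hi]; exact Nat.div_mul_le_self y w
  have hiy' : y < (i + 1) * w := by
    rw [hi, add_mul, one_mul, mul_comm]
    have := Nat.div_add_mod y w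
    have := Nat.mod_lt y hw0
    omega
  by_cases hiI : i + 1 ≤ I
  · have a1 := abs_le.1 (hgrid i (by omega))
    have a2 := abs_le.1 (hgrid (i + 1) hiI)
    have a3 := hmono _ _ hiy
    have a4 := hmono _ _ hiy'.le
    have a5 := hexpm _ _ hiy
    have a6 := hexpm _ _ hiy'.le
    have a7 : Real.exp (-(((i * w : ℕ) : ℝ) / L)) - Real.exp (-((((i + 1) * w : ℕ) : ℝ) / L)) ≤ θ := by
      refine (le_abs_self _).trans ((exp_dif _ _ (by positivity) (by positivity)).trans ?_)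
      have e1 : ((i * w : ℕ) : ℝ) / L - (((i + 1) * w : ℕ) : ℝ) / L = -(w / L) := by
        push_cast
        ring
      rw [e1, abs_neg, abs_of_nonneg (by positivity), div_le_iff₀ hL0]
      exact hw1
    rw [abs_le]
    constructor <;> linarith [a1.1, a1.2, a2.1, a2.2]
  · have hIy : I * w ≤ y := le_trans (Nat.mul_le_mul_right _ (by omega)) hiy
    have a1 := abs_le.1 (hgrid I le_rfl)
    have a3 := hmono _ _ hIy
    have a5 := hexpm _ _ hIy
    have a6 : Real.exp (-(((I * w : ℕ) : ℝ) / L)) ≤ θ := by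
      have e1 : 1 / θ ≤ ((I * w : ℕ) : ℝ) / L := by
        rw [le_div_iff₀ hL0]
        push_cast
        calc 1 / θ * L = (2 / θ ^ 2) * (θ * L / 2) := by field_simp
          _ ≤ I * w := mul_le_mul hI2 hw2 (by positivity) hI0.le
      have e2 : Real.exp (-(((I * w : ℕ) : ℝ) / L)) ≤ Real.exp (-(1 / θ)) := Real.exp_le_exp.2 (by linarith)
      have e3 : Real.exp (-(1 / θ)) ≤ θ := by
        have f1 := Real.add_one_le_exp (1 / θ)
        rw [Real.exp_neg, inv_le_comm₀ (Real.exp_pos _) hθ0]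
        rw [inv_eq_one_div]
        linarith
      linarith
    have a7 := Real.exp_pos (-((y : ℝ) / L))
    have a8 : 0 ≤ (cntE S h N y : ℝ) / N := by positivity
    rw [abs_le]
    constructor <;> linarith [a1.1, a1.2]

end Pool.Agent.Y885
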